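import Mathlib
import Pool.Agent.OBW.Defs
import Pool.Agent.OBW.Stmts
import Pool.Agent.OBW.LkStmts

set_option autoImplicit false

/-!
OBX = milestone 2 of OBW (MP_767178_co, frozen statement S09567): ALL 2-regular graphs `F`.
Open paths, links, and the bookkeeping `Step` of one colour.
-/

namespace Pool.Agent.OBX

open Finset Pool.Agent.OBW

section
variable {V C : Type} [DecidableEq V] [DecidableEq C]

/-- The items of the open path `z 0, …, z (s-1)` in colour `c` (edges, and the pairs of ALL its vertices,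
the ends included). -/
def pit (s : ℕ) (z : ℕ → V) (c : C) : Finset (Item V C) :=
  (range (s - 1)).image (fun i => (Sum.inl s(z i, z (i + 1)) : Item V C)) ∪
  (range s).image (fun i => (Sum.inr (z i, c) : Item V C))

/-- `q` is the item set of an open path with `s ≥ 1` vertices in colour `c` with ends `a`, `b`
(`s = 1`: `a = b`, one vertex, no edge). -/
def IsPath (s : ℕ) (c : C) (a b : V) (q : Finset (Item V C)) : Prop :=
  1 ≤ s ∧ ∃ z : ℕ → V, Set.InjOn z (Set.Iio s) ∧ z 0 = a ∧ z (s - 1) = b ∧ q = pit s z c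

/-- `g` is a link with `t ≥ 1` inner vertices in colour `c` between the (different) roots `a`, `b`:
the path `x … y` of the inner vertices and the edges `a x`, `y b`; the pairs `(a,c)`, `(b,c)` do not
belong to it. -/
def IsLink (t : ℕ) (c : C) (a b : V) (g : Finset (Item V C)) : Prop :=
  a ≠ b ∧ ∃ (x y : V) (q : Finset (Item V C)), IsPath t c x y q ∧
    (Sum.inr (a, c) : Item V C) ∉ q ∧ (Sum.inr (b, c) : Item V C) ∉ q ∧
    g = q ∪ {Sum.inl s(a, x), Sum.inl s(y, b)}

/-- A member = an open path known only by its ends and its number of vertices. -/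
abbrev Mem (V : Type) := V × V × ℕ

/-- `Y` is a disjoint union of open paths realizing the members `ms` in colour `c`. -/
def Real (c : C) (ms : List (Mem V)) (Y : Finset (Item V C)) : Prop :=
  ∃ q : ℕ → Finset (Item V C),
    (∀ i (h : i < ms.length), IsPath (ms[i]).2.2 c (ms[i]).1 (ms[i]).2.1 (q i)) ∧
    (∀ i < ms.length, ∀ j < ms.length, i ≠ j → Disjoint (q i) (q j)) ∧
    Y = (range ms.length).biUnion q

/-- `Y` is a disjoint union of unit links (one inner vertex each) for the requests `rq`. -/
def RealL (c : C) (rq : List (V × V)) (Y : Finset (Item V C)) : Prop :=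
  ∃ q : ℕ → Finset (Item V C),
    (∀ i (h : i < rq.length), IsLink 1 c (rq[i]).1 (rq[i]).2 (q i)) ∧
    (∀ i < rq.length, ∀ j < rq.length, i ≠ j → Disjoint (q i) (q j)) ∧
    Y = (range rq.length).biUnion q

/-- number of ends at `v` of the members `ms` (a one-vertex member counts twice) -/
def ends (ms : List (Mem V)) (v : V) : ℕ :=
  (ms.map (fun m => (if m.1 = v then 1 else 0) + (if m.2.1 = v then 1 else 0))).sum

/-- number of the requests at `v` -/
def rends (rq : List (V × V)) (v : V) : ℕ :=
  (rq.map (fun m => (if m.1 = v then 1 else 0) + (if m.2 = v then 1 else 0))).sum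

/-- total number of vertices of the members -/
def siz (ms : List (Mem V)) : ℕ := (ms.map (fun m => m.2.2)).sum

/-- the members have different ends: no vertex is an end of two members, the two ends of one member
coincide only if it has one vertex. -/
def Sep (ms : List (Mem V)) : Prop :=
  (∀ m ∈ ms, 1 ≤ m.2.2 ∧ (m.1 = m.2.1 ↔ m.2.2 = 1)) ∧
  ms.Pairwise (fun m m' => m.1 ≠ m'.1 ∧ m.1 ≠ m'.2.1 ∧ m.2.1 ≠ m'.1 ∧ m.2.1 ≠ m'.2.1)

end

section
variable {V C : Type} [Fintype V] [DecidableEq V] [Fintype C] [DecidableEq C]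

/-- `Y` is a disjoint union of cycles of colour `c`, the lengths form the multiset `Λ`. -/
def Cycs (c : C) (Λ : Multiset ℕ) (Y : Finset (Item V C)) : Prop :=
  ∃ F : Finset (Finset (Item V C)), PD F ∧ un F = Y ∧ (∀ q ∈ F, ∃ l, IsPiece l c q) ∧
    ∀ l, cnt F l c = Λ.count l

/-- One step of the bookkeeping of the colour `c`: the new items `X` together with ANY realization of
the members `ms` form cycles and open paths realizing the members `ms'`; the cycles have the lengths
`Λ - Λ'` (`Λ`, `Λ'` = lengths still to be built before / after the step). -/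
structure Step (c : C) (ms : List (Mem V)) (X : Finset (Item V C)) (Λ : Multiset ℕ)
    (ms' : List (Mem V)) (Λ' : Multiset ℕ) : Prop where
  col : ∀ v c', (Sum.inr (v, c') : Item V C) ∈ X → c' = c
  bal : ∀ v, (nb X v).card + ends ms' v = 2 * (cl X v).card + ends ms v
  cnt : (vt X c).card + siz ms + Λ'.sum = siz ms' + Λ.sum
  run : ∀ Y, Real c ms Y → Disjoint Y X →
    ∃ (Y₁ Y' : Finset (Item V C)) (Λ₁ : Multiset ℕ), Disjoint Y₁ Y' ∧ Y₁ ∪ Y' = Y ∪ X ∧
      Real c ms' Y' ∧ Cycs c Λ₁ Y₁ ∧ Λ = Λ₁ + Λ'

/-- Members with all ends in `U` (two different ends), whose pairs are not in `T` (they are already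
used). -/
def MemIn (U : Finset V) (T : Finset (Item V C)) (c : C) (ms : List (Mem V)) : Prop :=
  Sep ms ∧ ∀ m ∈ ms, m.1 ≠ m.2.1 ∧ m.1 ∈ U ∧ m.2.1 ∈ U ∧ (Sum.inr (m.1, c) : Item V C) ∉ T ∧
    (Sum.inr (m.2.1, c) : Item V C) ∉ T

/-- Sizes: all members but the first have at most `W` vertices; the first one leaves at least `W₀`
places free in some cycle of `Λ`. -/
def Siz (W W₀ : ℕ) (ms : List (Mem V)) (Λ : Multiset ℕ) : Prop :=
  (∀ m ∈ ms.tail, m.2.2 ≤ W) ∧ (∀ m ∈ ms.head?, ∃ l ∈ Λ, m.2.2 + W₀ ≤ l)

/-- union of the item sets `X c`, `c ∈ D` -/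
def uC (D : Finset C) (X : C → Finset (Item V C)) : Finset (Item V C) := D.biUnion X

end

end Pool.Agent.OBX
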