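import Mathlib
import Pool.Agent.OBX.Defs

set_option autoImplicit false

/-!
OBX interface statements (milestone 2 of OBW, MP_767178_co).
Hierarchy: ε ≫ μ ≫ η ≫ p ≫ θ ≫ 1/K (= 1/W) ≫ 1/L₁ ≫ γ, ξ ≫ 1/m₀.
-/

namespace Pool.Agent.OBX

open Finset Pool.Agent.OBW

/-! ### Paths, cycles: combinatorial gluing -/

/-- JOIN -/
def JoinStmt : Prop :=
  ∀ (V C : Type) [DecidableEq V] [DecidableEq C] (s t s' : ℕ) (c : C) (a b a' b' : V)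
    (q g q' : Finset (Item V C)),
    IsPath s c a b q → IsLink t c b a' g → IsPath s' c a' b' q' →
    Disjoint q g → Disjoint q q' → Disjoint g q' →
    IsPath (s + t + s') c a b' (q ∪ g ∪ q')

/-- CLOSE -/
def CloseStmt : Prop :=
  ∀ (V C : Type) [DecidableEq V] [DecidableEq C] (s t : ℕ) (c : C) (a b : V)
    (q g : Finset (Item V C)),
    IsPath s c a b q → IsLink t c b a g → Disjoint q g → IsPiece (s + t) c (q ∪ g)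

/-- DROP: a cycle minus an edge is an open path. -/
def DropStmt : Prop :=
  ∀ (V C : Type) [DecidableEq V] [DecidableEq C] (l : ℕ) (c : C) (u v : V) (q : Finset (Item V C)),
    IsPiece l c q → (Sum.inl s(u, v) : Item V C) ∈ q →
    u ≠ v ∧ IsPath l c u v (q.erase (Sum.inl s(u, v)))

/-- SPLIT: a link with `t ≥ 4` inner vertices minus its second edge: two half links.
`a`-side: `a z₀ z₁` (new end `z₁`), `b`-side: the rest. For an open path `q` from `a` to `b`,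
`q ∪ g'` is an open path from `z₁` to `z₂`. -/
def SplitStmt : Prop :=
  ∀ (V C : Type) [Fintype V] [DecidableEq V] [Fintype C] [DecidableEq C] (c : C) (a b : V) (g : Finset (Item V C)),
    IsLink 4 c a b g →
    ∃ (x y : V) (g' : Finset (Item V C)), x ≠ y ∧ g' ⊆ g ∧ (Sum.inl s(x, y) : Item V C) ∈ g ∧
      g' = g.erase (Sum.inl s(x, y)) ∧ (Sum.inr (x, c) : Item V C) ∈ g ∧ (Sum.inr (y, c) : Item V C) ∈ g ∧
      (∀ v, (nb g' v).card + (if x = v then 1 else 0) + (if y = v then 1 else 0) =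
        2 * (cl g' v).card + (if a = v then 1 else 0) + (if b = v then 1 else 0)) ∧
      (vt g' c).card = 4 ∧
      ∀ (s : ℕ) (q : Finset (Item V C)), IsPath s c a b q → Disjoint q g' →
        IsPath (s + 4) c x y (q ∪ g')

/-- CYC: closing groups of members by links.  Groups are the intervals `[e i, e (i+1))`. -/
def CycStmt : Prop :=
  ∀ (V C : Type) [Fintype V] [DecidableEq V] [Fintype C] [DecidableEq C] (c : C) (n q : ℕ)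
    (e : ℕ → ℕ) (a b : ℕ → V) (s t : ℕ → ℕ) (y g : ℕ → Finset (Item V C)),
    e 0 = 0 → (∀ i < q, e i < e (i + 1)) → e q = n →
    (∀ j < n, IsPath (s j) c (a j) (b j) (y j)) →
    (∀ i < q, ∀ j, e i ≤ j → j < e (i + 1) →
      IsLink (t j) c (b j) (a (if j + 1 = e (i + 1) then e i else j + 1)) (g j)) →
    (∀ i < n, ∀ j < n, Disjoint (y i) (g j)) →
    (∀ i < n, ∀ j < n, i ≠ j → Disjoint (y i) (y j) ∧ Disjoint (g i) (g j)) →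
    Cycs c ((Multiset.range q).map (fun i => ∑ j ∈ Ico (e i) (e (i + 1)), (s j + t j)))
      ((range n).biUnion y ∪ (range n).biUnion g)

/-- OPEN: linking members to one open path. -/
def OpenStmt : Prop :=
  ∀ (V C : Type) [DecidableEq V] [DecidableEq C] (c : C) (n : ℕ)
    (a b : ℕ → V) (s t : ℕ → ℕ) (y g : ℕ → Finset (Item V C)),
    (∀ j ≤ n, IsPath (s j) c (a j) (b j) (y j)) →
    (∀ j < n, IsLink (t j) c (b j) (a (j + 1)) (g j)) →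
    (∀ i ≤ n, ∀ j < n, Disjoint (y i) (g j)) →
    (∀ i ≤ n, ∀ j ≤ n, i ≠ j → Disjoint (y i) (y j)) →
    (∀ i < n, ∀ j < n, i ≠ j → Disjoint (g i) (g j)) →
    IsPath (∑ j ∈ range (n + 1), s j + ∑ j ∈ range n, t j) c (a 0) (b n)
      ((range (n + 1)).biUnion y ∪ (range n).biUnion g)

/-- TRANS: composition of steps. -/
def TransStmt : Prop :=
  ∀ (V C : Type) [Fintype V] [DecidableEq V] [Fintype C] [DecidableEq C] (c : C)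
    (ms ms' ms'' : List (Mem V)) (X X' : Finset (Item V C)) (Λ Λ' Λ'' : Multiset ℕ),
    Step c ms X Λ ms' Λ' → Step c ms' X' Λ' ms'' Λ'' → Disjoint X X' →
    Step c ms (X ∪ X') Λ ms'' Λ''

/-- ADD: adding realized open paths as new members. -/
def AddStmt : Prop :=
  ∀ (V C : Type) [Fintype V] [DecidableEq V] [Fintype C] [DecidableEq C] (c : C)
    (ms ns : List (Mem V)) (X : Finset (Item V C)) (Λ : Multiset ℕ),
    Real c ns X → Step c ms X Λ (ms ++ ns) Λ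

/-- EXT: extending all members by split links (the new ends are the middle vertices). -/
def ExtStmt : Prop :=
  ∀ (V C : Type) [Fintype V] [DecidableEq V] [Fintype C] [DecidableEq C] [Nonempty V] (c : C)
    (ms : List (Mem V)) (g : ℕ → Finset (Item V C)) (Λ : Multiset ℕ),
    (∀ i (h : i < ms.length), IsLink 4 c (ms[i]).1 (ms[i]).2.1 (g i)) →
    (∀ i < ms.length, ∀ j < ms.length, i ≠ j → Disjoint (g i) (g j)) →
    ∃ (x y : ℕ → V) (X : Finset (Item V C)) (ms' : List (Mem V)),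
      (∀ i < ms.length, x i ≠ y i ∧ (Sum.inl s(x i, y i) : Item V C) ∈ g i ∧
        (Sum.inr (x i, c) : Item V C) ∈ g i ∧ (Sum.inr (y i, c) : Item V C) ∈ g i) ∧
      X = (range ms.length).biUnion (fun i => (g i).erase (Sum.inl s(x i, y i))) ∧
      ms'.length = ms.length ∧
      (∀ i (h : i < ms.length) (h' : i < ms'.length), ms'[i] = (x i, y i, (ms[i]).2.2 + 4)) ∧
      Step c ms X Λ ms' Λ

/-- GRP: distributing members of weights `w j ≤ W` (and a first one of weight `w₀`) to the cycles of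
lengths `l i`; group `i` gets the members `[e i, e (i+1))`. -/
def GrpStmt : Prop :=
  ∀ (q h W W₀ w₀ : ℕ) (l w : ℕ → ℕ), 5 ≤ W₀ → 1 ≤ q → (∀ j < h, w j ≤ W) →
    (∀ i < q, W + W₀ + 5 ≤ l i) → w₀ + 5 ≤ l 0 →
    w₀ + ∑ j ∈ range h, w j + q * (W₀ + W) ≤ ∑ i ∈ range q, l i →
    ∃ e : ℕ → ℕ, e 0 = 0 ∧ e q = h ∧ (∀ i < q, e i ≤ e (i + 1)) ∧
      ∀ i < q, (if i = 0 then w₀ else 0) + ∑ j ∈ Ico (e i) (e (i + 1)), w j + 5 ≤ l i ∧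
        (e (i + 1) < h →
          l i ≤ (if i = 0 then w₀ else 0) + ∑ j ∈ Ico (e i) (e (i + 1)), w j + W₀ + W) ∧
        (e i < e (i + 1) →
          (if i = 0 then w₀ else 0) + ∑ j ∈ Ico (e i) (e (i + 1)), w j + W₀ ≤ l i)

/-! ### Greedy and probabilistic parts -/

open scoped Classical in
/-- BRK: choose one edge in every `K`-cycle, small loads. -/
def BrkStmt : Prop :=
  ∀ (V C : Type) [Fintype V] [DecidableEq V] [Fintype C] [DecidableEq C] [Nonempty V]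
    (K : ℕ) (U : Finset V) (D : Finset C) (F : Finset (Finset (Item V C))),
    3 ≤ K → U.Nonempty → PD F → (∀ q ∈ F, ∃ c ∈ D, IsPiece K c q) →
    (∀ q ∈ F, ∀ v c, (Sum.inr (v, c) : Item V C) ∈ q → v ∈ U) →
    ∃ e : Finset (Item V C) → Sym2 V, (∀ q ∈ F, (Sum.inl (e q) : Item V C) ∈ q) ∧
      ∀ v, ((F.filter (fun q => v ∈ e q)).card : ℝ) ≤
        Real.log (U.card) + 4 * (D.card : ℝ) / K

/-- GRDW: as GRD, but avoiding a light set `W` of used items (and `μ₀` does not depend on `L`). -/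
def GrdWStmt : Prop :=
  ∀ (ε : ℝ), 0 < ε → ∃ μ₀ : ℝ, 0 < μ₀ ∧ ∀ L : ℕ, ∀ μ : ℝ, 0 < μ → μ ≤ μ₀ →
    ∀ η : ℝ, 0 < η → η ≤ μ₀ → ∀ p : ℝ, 0 < p → p ≤ 1/4 → ∀ θ : ℝ, 0 < θ →
    ∃ γ : ℝ, 0 < γ ∧ ∃ m₀ : ℕ,
    ∀ (V C : Type) [Fintype V] [DecidableEq V] [Fintype C] [DecidableEq C]
      (δ ξ ζ : ℝ) (U U' U'' : Finset V) (D D' D'' : Finset C) (S R Lo W : Finset (Item V C))
      (ls : ℕ) (s : C → ℕ → ℕ),
      m₀ ≤ U.card → Stage δ ε η ξ μ U U' D D' S →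
      U'' ⊆ U' → D'' ⊆ D' → (U''.card : ℝ) ≤ μ * U'.card → (D''.card : ℝ) ≤ μ * U'.card →
      Res p ζ μ U U' U'' D D' D'' S R → 0 ≤ ζ → ζ ≤ p / 100 → 3 ≤ ls → ls ≤ L →
      Lo ⊆ S → Disjoint Lo R → Disjoint Lo W →
      (∀ v, ((nb W v).card : ℝ) ≤ γ * U.card ∧ ((cl W v).card : ℝ) ≤ γ * U.card) →
      (∀ c, ((vt W c).card : ℝ) ≤ γ * U.card) →
      (∀ v ∈ U, ((nb Lo v).card : ℝ) ≤ γ * U.card ∧ ((cl Lo v).card : ℝ) ≤ γ * U.card) →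
      (∀ c ∈ D, ((vt Lo c).card : ℝ) ≤ γ * U.card) →
      (∀ u v, (Sum.inl s(u, v) : Item V C) ∈ Lo → ¬ (u ∈ U' ∧ v ∈ U')) →
      (∀ v c, (Sum.inr (v, c) : Item V C) ∈ Lo → ¬ (v ∈ U' ∧ c ∈ D')) →
      (∀ c l, (s c l : ℝ) ≤ γ * U.card) →
      ∃ F : Finset (Finset (Item V C)),
        (∀ q ∈ F, (∀ i ∈ q, i ∈ Lo ∨ i ∈ R ∨ insOK U' U'' D' S i) ∧
          ∃ l ∈ Icc 3 L, ∃ c ∈ D, IsPiece l c q) ∧ PD F ∧ Disjoint (un F) W ∧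
        (∀ q ∈ F, ∀ l ∈ (Icc 3 L).erase ls, ∀ c, IsPiece l c q →
          (∀ u v, (Sum.inl s(u, v) : Item V C) ∈ q → u ∈ U' ∧ v ∈ U') ∧
          (∀ v c', (Sum.inr (v, c') : Item V C) ∈ q → v ∈ U')) ∧
        (4 ≤ ls → ∀ q ∈ F, ∃ u ∈ U', ∃ v ∈ U', (Sum.inl s(u, v) : Item V C) ∈ q) ∧
        (∀ q ∈ F, ∀ c, IsPiece ls c q → ∃ i ∈ Lo, i ∈ q) ∧
        (∀ x ∈ U \ U', ∀ y ∈ U \ U', (Sum.inl s(x, y) : Item V C) ∈ Lo → Sum.inl s(x, y) ∈ un F) ∧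
        (∀ x ∈ U \ U', ∀ c ∈ D \ D', (Sum.inr (x, c) : Item V C) ∈ Lo → Sum.inr (x, c) ∈ un F) ∧
        (∀ c ∈ D, ∀ l ∈ (Icc 3 L).erase ls, cnt F l c = s c l) ∧
        (∀ v, ((nb (un F) v).card : ℝ) ≤ θ * U.card ∧ ((cl (un F) v).card : ℝ) ≤ θ * U.card) ∧
        (∀ c, ((vt (un F) c).card : ℝ) ≤ θ * U.card)

open scoped Classical in
/-- PTH: rooted links through `U' \ U''`, using reserve items and inside items, avoiding `W`. -/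
def PthStmt : Prop :=
  ∀ (ε : ℝ), 0 < ε → ∃ μ₀ : ℝ, 0 < μ₀ ∧ ∀ μ : ℝ, 0 < μ → μ ≤ μ₀ →
    ∀ η : ℝ, 0 < η → η ≤ μ₀ → ∀ p : ℝ, 0 < p → p ≤ 1/4 → ∀ θ : ℝ, 0 < θ →
    ∃ γ : ℝ, 0 < γ ∧ ∃ m₀ : ℕ,
    ∀ (V C : Type) [Fintype V] [DecidableEq V] [Fintype C] [DecidableEq C]
      (δ ξ ζ : ℝ) (U U' U'' : Finset V) (D D' D'' : Finset C) (S R W : Finset (Item V C))
      (ι : Type) [Fintype ι] (c : ι → C) (a b : ι → V) (t : ι → ℕ),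
      m₀ ≤ U.card → Stage δ ε η ξ μ U U' D D' S →
      U'' ⊆ U' → D'' ⊆ D' → (U''.card : ℝ) ≤ μ * U'.card → (D''.card : ℝ) ≤ μ * U'.card →
      Res p ζ μ U U' U'' D D' D'' S R → 0 ≤ ζ → ζ ≤ p / 100 →
      (∀ v, ((nb W v).card : ℝ) ≤ γ * U.card ∧ ((cl W v).card : ℝ) ≤ γ * U.card) →
      (∀ d, ((vt W d).card : ℝ) ≤ γ * U.card) →
      (∀ i, c i ∈ D ∧ a i ∈ U ∧ b i ∈ U ∧ a i ≠ b i ∧ 3 ≤ t i) →
      (∀ i, ((Sum.inr (a i, c i) : Item V C) ∈ W ∨ (Sum.inr (a i, c i) : Item V C) ∉ S ∨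
          ((Sum.inr (a i, c i) : Item V C) ∉ R ∧ ¬ (a i ∈ U' ∧ c i ∈ D'))) ∧
        ((Sum.inr (b i, c i) : Item V C) ∈ W ∨ (Sum.inr (b i, c i) : Item V C) ∉ S ∨
          ((Sum.inr (b i, c i) : Item V C) ∉ R ∧ ¬ (b i ∈ U' ∧ c i ∈ D')))) →
      (∀ v, ((univ.filter (fun i => a i = v ∨ b i = v)).card : ℝ) ≤ γ * U.card) →
      (∀ d, (∑ i with c i = d, (t i : ℝ)) ≤ γ * U.card) →
      ∃ g : ι → Finset (Item V C),
        (∀ i, IsLink (t i) (c i) (a i) (b i) (g i)) ∧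
        (∀ i, ∀ j ∈ g i, (j ∈ R ∨ insOK U' U'' D' S j) ∧ j ∉ W) ∧
        (∀ i v d, (Sum.inr (v, d) : Item V C) ∈ g i → v ∈ U' \ U'') ∧
        (∀ i j, i ≠ j → Disjoint (g i) (g j)) ∧
        (∀ v, ((nb (univ.biUnion g) v).card : ℝ) ≤ θ * U.card ∧
          ((cl (univ.biUnion g) v).card : ℝ) ≤ θ * U.card) ∧
        (∀ d, ((vt (univ.biUnion g) d).card : ℝ) ≤ θ * U.card)

open scoped Classical in
/-- GAP: rooted links inside `U'` (colours of `D'`). -/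
def GapStmt : Prop :=
  ∀ (θ : ℝ), 0 < θ → ∃ γ : ℝ, 0 < γ ∧ ∃ m₀ : ℕ,
    ∀ (V C : Type) [Fintype V] [DecidableEq V] [Fintype C] [DecidableEq C]
      (U' U'' : Finset V) (D' : Finset C) (T : Finset (Item V C))
      (ι : Type) [Fintype ι] (c : ι → C) (a b : ι → V) (t : ι → ℕ),
      m₀ ≤ U'.card → D'.card ≤ U'.card →
      (∀ u ∈ U', ∀ v ∈ U', (U'.card : ℝ) / 3 ≤ (((nb T u ∩ nb T v ∩ U') \ U'').card : ℝ)) →
      (∀ d ∈ D', ((U' \ vt T d).card : ℝ) ≤ (U'.card : ℝ) / 30) →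
      (∀ i, c i ∈ D' ∧ a i ∈ U' ∧ b i ∈ U' ∧ a i ≠ b i ∧ 1 ≤ t i ∧
        (Sum.inr (a i, c i) : Item V C) ∉ T ∧ (Sum.inr (b i, c i) : Item V C) ∉ T) →
      (∀ v, ((univ.filter (fun i => a i = v ∨ b i = v)).card : ℝ) ≤ γ * U'.card) →
      (∀ d, (∑ i with c i = d, (t i : ℝ)) ≤ γ * U'.card) →
      ∃ g : ι → Finset (Item V C),
        (∀ i, IsLink (t i) (c i) (a i) (b i) (g i) ∧ g i ⊆ T) ∧
        (∀ i v d, (Sum.inr (v, d) : Item V C) ∈ g i → v ∈ U' \ U'') ∧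
        (∀ i j, i ≠ j → Disjoint (g i) (g j)) ∧
        (∀ v, ((nb (univ.biUnion g) v).card : ℝ) ≤ θ * U'.card ∧
          ((cl (univ.biUnion g) v).card : ℝ) ≤ θ * U'.card) ∧
        (∀ d, ((vt (univ.biUnion g) d).card : ℝ) ≤ θ * U'.card)

open scoped Classical in
/-- DBL: `d c` disjoint edges inside `W c` for every colour, all edges different, small loads. -/
def DblStmt : Prop :=
  ∀ (ω θ : ℝ), 0 < ω → 0 < θ → ∃ γ : ℝ, 0 < γ ∧ ∃ m₀ : ℕ,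
    ∀ (V C : Type) [Fintype V] [DecidableEq V] [Fintype C] [DecidableEq C] [Nonempty V]
      (m : ℝ) (I : Finset C) (W : C → Finset V) (H : V → V → Prop) (d : C → ℕ),
      (m₀ : ℝ) ≤ m → (I.card : ℝ) ≤ m → (∀ c ∈ I, ω * m ≤ (W c).card ∧ ((W c).card : ℝ) ≤ m) →
      (∀ u v, H u v → H v u) →
      (∀ c ∈ I, ∀ u ∈ W c, ((W c).card : ℝ) / 2 ≤ (((W c).filter (fun v => H u v)).card : ℝ)) →
      (∀ c ∈ I, (d c : ℝ) ≤ γ * m) →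
      ∃ a b : C → ℕ → V,
        (∀ c ∈ I, ∀ j < d c, a c j ∈ W c ∧ b c j ∈ W c ∧ a c j ≠ b c j ∧ H (a c j) (b c j)) ∧
        (∀ c ∈ I, ∀ i < d c, ∀ j < d c, i ≠ j →
          a c i ≠ a c j ∧ a c i ≠ b c j ∧ b c i ≠ b c j) ∧
        (∀ c ∈ I, ∀ c' ∈ I, c ≠ c' → ∀ i < d c, ∀ j < d c', s(a c i, b c i) ≠ s(a c' j, b c' j)) ∧
        (∀ u, ((I.filter (fun c => ∃ j < d c, u = a c j ∨ u = b c j)).card : ℝ) ≤ θ * m)

open scoped Classical in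
/-- SGL: two different vertices of `W c` for every colour, bounded loads. -/
def SglStmt : Prop :=
  ∀ (V C : Type) [Fintype V] [DecidableEq V] [Fintype C] [DecidableEq C] [Nonempty V]
    (m : ℕ) (I : Finset C) (W : C → Finset V), I.card ≤ m → (∀ c ∈ I, m / 2 + 2 ≤ (W c).card) →
    ∃ a b : C → V, (∀ c ∈ I, a c ∈ W c ∧ b c ∈ W c ∧ a c ≠ b c) ∧
      ∀ u, (I.filter (fun c => a c = u)).card + (I.filter (fun c => b c = u)).card ≤ 10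

open scoped Classical in
/-- TOK: one inner vertex for every token `(e₁ c j, e₂ c j)`, exactly the vertices of `P c`. -/
def TokStmt : Prop :=
  ∀ (ε μ : ℝ), 0 < ε → 0 < μ → ∃ p₀ : ℝ, 0 < p₀ ∧ ∀ p : ℝ, 0 < p → p ≤ p₀ → ∃ m₀ : ℕ,
    ∀ (V C : Type) [Fintype V] [DecidableEq V] [Fintype C] [DecidableEq C]
      (m : ℝ) (U' : Finset V) (Do : Finset C) (H : V → V → Prop) (k : C → ℕ) (e₁ e₂ : C → ℕ → V)
      (P Z : C → Finset V),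
      (m₀ : ℝ) ≤ m → μ * m - 1 ≤ U'.card → (U'.card : ℝ) ≤ m → (Do.card : ℝ) ≤ m →
      (∀ u v, H u v → H v u) →
      (∀ c ∈ Do, p * U'.card / 20 ≤ (k c : ℝ) ∧ (P c).card = k c ∧ P c ⊆ Z c ∧ Z c ⊆ U') →
      (∀ c ∈ Do, ∀ j < k c, e₁ c j ∈ Z c ∧ e₂ c j ∈ Z c ∧ e₁ c j ≠ e₂ c j ∧
        e₁ c j ∉ P c ∧ e₂ c j ∉ P c) →
      (∀ c ∈ Do, Set.InjOn (e₁ c) (Set.Iio (k c)) ∧ Set.InjOn (e₂ c) (Set.Iio (k c))) →
      (∀ c ∈ Do, ∀ d ∈ Do, c ≠ d → ((Z c ∩ Z d).card : ℝ) ≤ 4 * p ^ 2 * U'.card) →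
      (∀ u ∈ U', ((Do.filter (fun c => u ∈ Z c)).card : ℝ) ≤ 3 * p * m) →
      (∀ c ∈ Do, ∀ u ∈ Z c, (3/4 + ε) * (k c : ℝ) ≤ (((P c).filter (fun v => H u v)).card : ℝ)) →
      (∀ c ∈ Do, ∀ v ∈ P c,
        (3/4 + ε) * (k c : ℝ) ≤ (((range (k c)).filter (fun j => H v (e₁ c j))).card : ℝ) ∧
        (3/4 + ε) * (k c : ℝ) ≤ (((range (k c)).filter (fun j => H v (e₂ c j))).card : ℝ)) →
      ∃ w : C → ℕ → V,
        (∀ c ∈ Do, ∀ j < k c, w c j ∈ P c ∧ H (e₁ c j) (w c j) ∧ H (w c j) (e₂ c j)) ∧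
        (∀ c ∈ Do, Set.InjOn (w c) (Set.Iio (k c))) ∧
        (∀ c ∈ Do, ∀ d ∈ Do, c ≠ d → ∀ i < k c, ∀ j < k d,
          s(e₁ c i, w c i) ≠ s(e₁ d j, w d j) ∧ s(e₁ c i, w c i) ≠ s(w d j, e₂ d j) ∧
          s(w c i, e₂ c i) ≠ s(w d j, e₂ d j))

/-! ### Finishing the colours -/

/-- FINDO: the colours of `D \ D'` are finished inside `U'`. -/
def FinDoStmt : Prop :=
  ∀ (ε μ : ℝ), 0 < ε → 0 < μ → ∃ p₀ : ℝ, 0 < p₀ ∧ ∀ p : ℝ, 0 < p → p ≤ p₀ →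
    ∃ γ : ℝ, 0 < γ ∧ ∀ W : ℕ, ∃ L₁ m₀ : ℕ,
    ∀ (V C : Type) [Fintype V] [DecidableEq V] [Fintype C] [DecidableEq C]
      (U U' U'' : Finset V) (D D' D'' : Finset C) (T : Finset (Item V C))
      (ms : C → List (Mem V)) (Λ : C → Multiset ℕ),
      m₀ ≤ U.card → LinkHyp p ε μ 1 U U' U'' D D' D'' T →
      (∀ c ∈ D \ D', MemIn U' T c (ms c) ∧ ((ms c).length : ℝ) ≤ γ * U.card ∧
        Siz W 6 (ms c) (Λ c) ∧ (∀ l ∈ Λ c, L₁ ≤ l) ∧ (vt T c).card + siz (ms c) = (Λ c).sum) →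
      (∀ v, (∑ c ∈ D \ D', (ends (ms c) v : ℝ)) ≤ γ * U.card) →
      ∃ X : C → Finset (Item V C),
        (∀ c ∈ D \ D', X c ⊆ T ∧ Step c (ms c) (X c) (Λ c) [] 0) ∧
        (∀ c ∈ D \ D', ∀ d ∈ D \ D', c ≠ d → Disjoint (X c) (X d)) ∧
        (∀ u v, (Sum.inl s(u, v) : Item V C) ∈ uC (D \ D') X → u ∈ U' ∧ v ∈ U' ∧ ¬ (u ∈ U'' ∧ v ∈ U'')) ∧
        (∀ u ∈ U', ((nb (uC (D \ D') X) u).card : ℝ) ≤ 8 * p * U.card)

/-- FININ: the colours of `D'`: all members are linked; finished cycles and at most one open path. -/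
def FinInStmt : Prop :=
  ∀ (θ : ℝ), 0 < θ → ∃ γ : ℝ, 0 < γ ∧ ∀ W : ℕ, ∃ L₁ m₀ : ℕ,
    ∀ (V C : Type) [Fintype V] [DecidableEq V] [Fintype C] [DecidableEq C]
      (U' U'' : Finset V) (D' : Finset C) (T : Finset (Item V C))
      (ms : C → List (Mem V)) (Λ : C → Multiset ℕ),
      m₀ ≤ U'.card → D'.card ≤ U'.card → (U''.card : ℝ) ≤ U'.card / 50 → Inside U' D' T →
      (∀ u ∈ U', ∀ v ∈ U', (U'.card : ℝ) / 3 ≤ (((nb T u ∩ nb T v ∩ U') \ U'').card : ℝ)) →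
      (∀ d ∈ D', ((U' \ vt T d).card : ℝ) ≤ (U'.card : ℝ) / 50) →
      (∀ c ∈ D', MemIn U' T c (ms c) ∧ ((ms c).length : ℝ) ≤ γ * U'.card ∧
        Siz W 6 (ms c) (Λ c) ∧ (∀ l ∈ Λ c, L₁ ≤ l) ∧ (vt T c).card + siz (ms c) = (Λ c).sum) →
      (∀ v, (∑ c ∈ D', (ends (ms c) v : ℝ)) ≤ γ * U'.card) →
      ∃ (X : C → Finset (Item V C)) (ms' : C → List (Mem V)) (Λ' : C → Multiset ℕ),
        (∀ c ∈ D', X c ⊆ T ∧ Step c (ms c) (X c) (Λ c) (ms' c) (Λ' c) ∧ Λ' c ≤ Λ c ∧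
          (∀ v d, (Sum.inr (v, d) : Item V C) ∈ X c → v ∈ U' \ U'') ∧
          (∀ u v, (Sum.inl s(u, v) : Item V C) ∈ X c → ¬ (u ∈ U'' ∧ v ∈ U'')) ∧
          (ms' c).length ≤ 1 ∧ Sep (ms' c) ∧
          (∀ m ∈ ms' c, m.1 ≠ m.2.1 ∧ (Sum.inr (m.1, c) : Item V C) ∈ X c ∧
            (Sum.inr (m.2.1, c) : Item V C) ∈ X c ∧ ∃ l ∈ Λ' c, m.2.2 + 20 ≤ l)) ∧
        (∀ c ∈ D', ∀ d ∈ D', c ≠ d → Disjoint (X c) (X d)) ∧
        (∀ v, ((nb (uC D' X) v).card : ℝ) ≤ θ * U'.card ∧ ((cl (uC D' X) v).card : ℝ) ≤ θ * U'.card) ∧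
        (∀ d, ((vt (uC D' X) d).card : ℝ) ≤ θ * U'.card) ∧
        (∀ v, ∑ c ∈ D', ends (ms' c) v ≤ 20)

/-- PREPB: first half of a stage in Case B. -/
def PrepBStmt : Prop :=
  ∀ (ε : ℝ), 0 < ε → ∃ μ₀ : ℝ, 0 < μ₀ ∧ ∀ μ : ℝ, 0 < μ → μ ≤ μ₀ →
    ∀ η : ℝ, 0 < η → η ≤ μ₀ → ∃ p₀ : ℝ, 0 < p₀ ∧ ∀ p : ℝ, 0 < p → p ≤ p₀ → ∀ θ : ℝ, 0 < θ →
    ∃ W : ℕ, ∀ L₁ : ℕ, W ≤ L₁ → ∃ ξ : ℝ, 0 < ξ ∧ ∀ B : ℕ, ∃ m₀ : ℕ,
    ∀ (V C : Type) [Fintype V] [DecidableEq V] [Fintype C] [DecidableEq C]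
      (δ : ℝ) (U U' U'' : Finset V) (D D' D'' : Finset C) (S : Finset (Item V C)) (N : ℕ → ℕ)
      (ms : C → List (Mem V)),
      m₀ ≤ U.card → Stage δ ε η ξ μ U U' D D' S →
      U'' ⊆ U' → D'' ⊆ D' → (U''.card : ℝ) ≤ μ * U'.card → (D''.card : ℝ) ≤ μ * U'.card →
      2 * ∑ l ∈ Icc 3 L₁, l * N l ≤ U.card →
      (∀ c ∈ D, MemIn U S c (ms c) ∧ (ms c).length ≤ B) →
      (∀ v, ∑ c ∈ D, ends (ms c) v ≤ B) →
      (∀ v ∈ U, (nb S v).card = 2 * (cl S v).card + ∑ c ∈ D, ends (ms c) v) →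
      ∃ (F : Finset (Finset (Item V C))) (X : C → Finset (Item V C)) (ms₁ : C → List (Mem V)),
        (∀ q ∈ F, q ⊆ S ∧ ∃ l ∈ Icc 3 L₁, ∃ c ∈ D, IsPiece l c q) ∧ PD F ∧
        (∀ c ∈ D, ∀ l ∈ Icc 3 L₁, cnt F l c = N l) ∧
        (∀ c ∈ D, X c ⊆ S ∧ Disjoint (X c) (un F)) ∧
        (∀ c ∈ D, ∀ d ∈ D, c ≠ d → Disjoint (X c) (X d)) ∧
        (∀ c ∈ D, ∀ Λ, Step c (ms c) (X c) Λ (ms₁ c) Λ) ∧
        (∀ c ∈ D, ∀ (Λ : Multiset ℕ) (W₀ : ℕ), Siz 6 (W₀ + 4) (ms c) Λ → Λ ≠ 0 →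
          (∀ l ∈ Λ, W + W₀ ≤ l) → Siz W W₀ (ms₁ c) Λ) ∧
        LinkHyp p (ε / 2) μ 1 U U' U'' D D' D'' (S \ (un F ∪ uC D X)) ∧
        (∀ c ∈ D, MemIn U' (S \ (un F ∪ uC D X)) c (ms₁ c) ∧ ((ms₁ c).length : ℝ) ≤ θ * U.card) ∧
        (∀ v, (∑ c ∈ D, (ends (ms₁ c) v : ℝ)) ≤ θ * U.card) ∧
        (∀ v ∈ U', ((nb (un F ∪ uC D X) v ∩ U').card : ℝ) ≤ θ * U.card) ∧
        (∀ v ∈ U', ((cl (un F ∪ uC D X) v ∩ D').card : ℝ) ≤ θ * U.card) ∧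
        (∀ c ∈ D', ((vt (un F ∪ uC D X) c ∩ U').card : ℝ) ≤ θ * U.card) ∧
        (∀ u ∈ U'', ∀ v ∈ U'', (Sum.inl s(u, v) : Item V C) ∉ un F ∪ uC D X) ∧
        (∀ u ∈ U'', ∀ c ∈ D'', (Sum.inr (u, c) : Item V C) ∉ un F ∪ uC D X)

/-- CDLB: one stage of the vortex in Case B. -/
def CdlBStmt : Prop :=
  ∀ (ε : ℝ), 0 < ε → ∃ μ₀ : ℝ, 0 < μ₀ ∧ ∀ μ : ℝ, 0 < μ → μ ≤ μ₀ →
    ∃ η₀ : ℝ, 0 < η₀ ∧ ∀ η : ℝ, 0 < η → η ≤ η₀ → ∃ L₀ : ℕ, ∀ L₁ : ℕ, L₀ ≤ L₁ →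
    ∃ ξ : ℝ, 0 < ξ ∧ ∀ B : ℕ, ∃ m₀ : ℕ,
    ∀ (V C : Type) [Fintype V] [DecidableEq V] [Fintype C] [DecidableEq C]
      (δ : ℝ) (U U' U'' : Finset V) (D D' D'' : Finset C) (S : Finset (Item V C)) (N : ℕ → ℕ)
      (ms : C → List (Mem V)) (Λ : C → Multiset ℕ),
      m₀ ≤ U.card → Stage δ ε η ξ μ U U' D D' S →
      U'' ⊆ U' → D'' ⊆ D' → (U''.card : ℝ) ≤ μ * U'.card → (D''.card : ℝ) ≤ μ * U'.card →
      2 * ∑ l ∈ Icc 3 L₁, l * N l ≤ U.card →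
      (∀ c ∈ D, MemIn U S c (ms c) ∧ (ms c).length ≤ B ∧ Siz 6 20 (ms c) (Λ c) ∧
        (∀ l ∈ Λ c, L₁ < l) ∧
        (vt S c).card + siz (ms c) = (Λ c).sum + ∑ l ∈ Icc 3 L₁, l * N l) →
      (∀ v, ∑ c ∈ D, ends (ms c) v ≤ B) →
      (∀ v ∈ U, (nb S v).card = 2 * (cl S v).card + ∑ c ∈ D, ends (ms c) v) →
      ∃ (F : Finset (Finset (Item V C))) (X : C → Finset (Item V C)) (ms' : C → List (Mem V))
        (Λ' : C → Multiset ℕ),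
        (∀ q ∈ F, q ⊆ S ∧ ∃ l ∈ Icc 3 L₁, ∃ c ∈ D, IsPiece l c q) ∧ PD F ∧
        (∀ c ∈ D, ∀ l ∈ Icc 3 L₁, cnt F l c = N l) ∧
        (∀ c ∈ D, X c ⊆ S ∧ Disjoint (X c) (un F)) ∧
        (∀ c ∈ D, ∀ d ∈ D, c ≠ d → Disjoint (X c) (X d)) ∧
        (∀ c ∈ D \ D', Step c (ms c) (X c) (Λ c) [] 0) ∧
        (∀ c ∈ D', Step c (ms c) (X c) (Λ c) (ms' c) (Λ' c) ∧ Λ' c ≤ Λ c ∧ (ms' c).length ≤ 1 ∧
          MemIn (U' \ U'') (S \ X c) c (ms' c) ∧ Siz 6 20 (ms' c) (Λ' c)) ∧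
        Inside U' D' (S \ (un F ∪ uC D X)) ∧
        (∀ v ∈ U', ((nb (un F ∪ uC D X) v ∩ U').card : ℝ) ≤ η * μ * U'.card / 2) ∧
        (∀ v ∈ U', ((cl (un F ∪ uC D X) v ∩ D').card : ℝ) ≤ η * μ * U'.card / 2) ∧
        (∀ c ∈ D', ((vt (un F ∪ uC D X) c ∩ U').card : ℝ) ≤ η * μ * U'.card / 2) ∧
        (∀ u ∈ U'', ∀ v ∈ U'', (Sum.inl s(u, v) : Item V C) ∉ un F ∪ uC D X) ∧
        (∀ u ∈ U'', ∀ c ∈ D'', (Sum.inr (u, c) : Item V C) ∉ un F ∪ uC D X) ∧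
        (∀ v, ∑ c ∈ D', ends (ms' c) v ≤ 20)

/-! ### Absorber and last level of Case B -/

/-- ABSB: absorber for unit requests: for EVERY balanced leftover `Lo` with requests `rq` inside the
constant size `(U, CJ)`, the members `ms` and the requests are realized by exactly `R ∪ Lo`. -/
def AbsBStmt : Prop :=
  ∀ (ε : ℝ) (M : ℕ), 0 < ε → ∃ n₀ B : ℕ,
    ∀ (V C : Type) [Fintype V] [DecidableEq V] [Fintype C] [DecidableEq C]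
      (G : SimpleGraph V) [DecidableRel G.Adj] (U₁ U : Finset V) (C₁ CJ : Finset C),
      n₀ ≤ Fintype.card V →
      (∀ v, (3/4 + ε) * (Fintype.card V : ℝ) ≤ ((univ.filter (fun u => G.Adj v u)).card : ℝ)) →
      (U₁.card : ℝ) ≤ ε * Fintype.card V →
      (Fintype.card V : ℝ) / 4 ≤ ((univ \ C₁ : Finset C).card : ℝ) →
      U ⊆ U₁ → CJ ⊆ C₁ → U.card ≤ M → CJ.card ≤ M →
      ∃ (R : Finset (Item V C)) (ms : C → List (Mem V)), R.card ≤ B ∧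
        (∀ c, (ms c).length ≤ B ∧ Sep (ms c) ∧ ∀ m ∈ ms c, m.1 ≠ m.2.1 ∧ m.2.2 ≤ 6 ∧
          (Sum.inr (m.1, c) : Item V C) ∈ R ∧ (Sum.inr (m.2.1, c) : Item V C) ∈ R) ∧
        (∀ v, ∑ c, ends (ms c) v ≤ B) ∧
        (∀ u v, (Sum.inl s(u, v) : Item V C) ∈ R → G.Adj u v ∧ ¬ (u ∈ U₁ ∧ v ∈ U₁)) ∧
        (∀ v c, (Sum.inr (v, c) : Item V C) ∈ R → ¬ (v ∈ U₁ ∧ c ∈ C₁)) ∧
        (∀ (Lo : Finset (Item V C)) (rq : C → List (V × V)), Inside U CJ Lo →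
          (∀ u v, (Sum.inl s(u, v) : Item V C) ∈ Lo → G.Adj u v) →
          (∀ c, ∀ r ∈ rq c, c ∈ CJ ∧ r.1 ∈ U ∧ r.2 ∈ U ∧ r.1 ≠ r.2 ∧
            (Sum.inr (r.1, c) : Item V C) ∉ Lo ∧ (Sum.inr (r.2, c) : Item V C) ∉ Lo) →
          (∀ c, ((rq c).map Prod.fst).Nodup ∧ ((rq c).map Prod.snd).Nodup) →
          (∀ v, (nb Lo v).card = 2 * (cl Lo v).card + ∑ c, rends (rq c) v) →
          (∀ c, (vt Lo c).card = (rq c).length) →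
          ∃ Y Z : C → Finset (Item V C),
            (∀ c, Real c (ms c) (Y c) ∧ RealL c (rq c) (Z c)) ∧
            (∀ c d, Disjoint (Y c) (Z d)) ∧
            (∀ c d, c ≠ d → Disjoint (Y c) (Y d) ∧ Disjoint (Z c) (Z d)) ∧
            univ.biUnion Y ∪ univ.biUnion Z = R ∪ Lo)

/-- FINB: the last level: anchors and double anchors are chosen, the rest is a balanced leftover with
unit requests. -/
def FinBStmt : Prop :=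
  ∃ L₁ m₀ : ℕ,
    ∀ (V C : Type) [Fintype V] [DecidableEq V] [Fintype C] [DecidableEq C]
      (U : Finset V) (D : Finset C) (S : Finset (Item V C)) (ms : C → List (Mem V))
      (Λ : C → Multiset ℕ),
      m₀ ≤ U.card → D.card ≤ U.card → Inside U D S →
      (∀ v ∈ U, (5/8 : ℝ) * U.card ≤ ((nb S v).card : ℝ)) →
      (∀ c ∈ D, ((U \ vt S c).card : ℝ) ≤ (U.card : ℝ) / 100) →
      (∀ c ∈ D, MemIn U S c (ms c) ∧ (ms c).length ≤ 1 ∧ Siz 6 20 (ms c) (Λ c) ∧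
        (∀ l ∈ Λ c, L₁ ≤ l) ∧ (vt S c).card + siz (ms c) = (Λ c).sum) →
      (∀ v ∈ U, (nb S v).card = 2 * (cl S v).card + ∑ c ∈ D, ends (ms c) v) →
      ∃ (X : C → Finset (Item V C)) (rq : C → List (V × V)),
        (∀ c ∈ D, X c ⊆ S) ∧ (∀ c, c ∉ D → X c = ∅ ∧ rq c = []) ∧
        (∀ c v d, (Sum.inr (v, d) : Item V C) ∈ X c → d = c) ∧
        (∀ c d, c ≠ d → Disjoint (X c) (X d)) ∧
        (∀ c, ∀ r ∈ rq c, r.1 ∈ U ∧ r.2 ∈ U ∧ r.1 ≠ r.2 ∧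
          (Sum.inr (r.1, c) : Item V C) ∉ S \ uC D X ∧ (Sum.inr (r.2, c) : Item V C) ∉ S \ uC D X) ∧
        (∀ c, ((rq c).map Prod.fst).Nodup ∧ ((rq c).map Prod.snd).Nodup) ∧
        (∀ v, (nb (S \ uC D X) v).card = 2 * (cl (S \ uC D X) v).card + ∑ c, rends (rq c) v) ∧
        (∀ c, (vt (S \ uC D X) c).card = (rq c).length) ∧
        (∀ c ∈ D, ∀ Y Z, Real c (ms c) Y → RealL c (rq c) Z → Disjoint Y Z →
          Disjoint (Y ∪ Z) (X c) → Cycs c (Λ c) (Y ∪ X c ∪ Z))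

/-! ### Case A and the main theorem -/

/-- CDLA: first stage in Case A: like `CdlStmt`, but all lengths up to `|U|` are allowed in `N`. -/
def CdlAStmt : Prop :=
  ∀ (ε α : ℝ) (L : ℕ), 0 < ε → 0 < α → ∃ μ₀ : ℝ, 0 < μ₀ ∧ ∀ μ : ℝ, 0 < μ → μ ≤ μ₀ →
    ∃ η₀ : ℝ, 0 < η₀ ∧ ∀ η : ℝ, 0 < η → η ≤ η₀ → ∃ ξ : ℝ, 0 < ξ ∧ ∃ m₀ : ℕ,
    ∀ (V C : Type) [Fintype V] [DecidableEq V] [Fintype C] [DecidableEq C]
      (δ : ℝ) (U U' U'' : Finset V) (D D' D'' : Finset C) (S : Finset (Item V C)) (ls : ℕ) (N : ℕ → ℕ),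
      m₀ ≤ U.card → Stage δ ε η ξ μ U U' D D' S → (∀ v, (nb S v).card = 2 * (cl S v).card) →
      U'' ⊆ U' → D'' ⊆ D' → (U''.card : ℝ) ≤ μ * U'.card → (D''.card : ℝ) ≤ μ * U'.card →
      3 ≤ ls → ls ≤ L →
      (∑ l ∈ (Icc 3 U.card).erase ls, (l : ℝ) * (N l : ℝ) ≤ (1 - α) * U.card) →
      (∀ c ∈ D, ∃ k : ℕ, (vt S c).card = ls * k + ∑ l ∈ (Icc 3 U.card).erase ls, l * N l) →
      ∃ F : Finset (Finset (Item V C)),
        (∀ p ∈ F, p ⊆ S ∧ ∃ l ∈ Icc 3 U.card, ∃ c ∈ D, IsPiece l c p) ∧ PD F ∧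
        (∀ c ∈ D, ∀ l ∈ (Icc 3 U.card).erase ls, cnt F l c = N l) ∧
        Inside U' D' (S \ un F) ∧
        (∀ v ∈ U', ((nb (un F) v ∩ U').card : ℝ) ≤ η * μ * U'.card / 2) ∧
        (∀ v ∈ U', ((cl (un F) v ∩ D').card : ℝ) ≤ η * μ * U'.card / 2) ∧
        (∀ c ∈ D', ((vt (un F) c ∩ U').card : ℝ) ≤ η * μ * U'.card / 2) ∧
        (∀ u ∈ U'', ∀ v ∈ U'', (Sum.inl s(u, v) : Item V C) ∉ un F) ∧
        (∀ u ∈ U'', ∀ c ∈ D'', (Sum.inr (u, c) : Item V C) ∉ un F)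

/-- the conclusion, all lengths -/
def Concl (V C : Type) [Fintype V] [DecidableEq V] [Fintype C] [DecidableEq C]
    (G : SimpleGraph V) (N : ℕ → ℕ) : Prop :=
  ∃ F : Finset (Finset (Item V C)),
    (∀ p ∈ F, ∃ l ∈ Icc 3 (Fintype.card V), ∃ c, IsPiece l c p) ∧ PD F ∧ un F = full C G ∧
    (∀ c, ∀ l ∈ Icc 3 (Fintype.card V), cnt F l c = N l)

/-- MAINA -/
def MainAStmt : Prop :=
  ∀ (ε : ℝ) (L : ℕ), 0 < ε → ∃ n₀ : ℕ,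
    ∀ (V C : Type) [Fintype V] [DecidableEq V] [Fintype C] [DecidableEq C]
      (G : SimpleGraph V) (N : ℕ → ℕ),
      n₀ ≤ Fintype.card V →
      (∀ v, Nat.card (G.neighborSet v) = 2 * Fintype.card C) →
      (3/8 + ε) * (Fintype.card V : ℝ) ≤ Fintype.card C →
      (∑ l ∈ Icc 3 (Fintype.card V), l * N l = Fintype.card V) →
      Fintype.card V ≤ 2 * ∑ l ∈ Icc 3 L, l * N l → Concl V C G N

/-- MAINB -/
def MainBStmt : Prop :=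
  ∀ (ε : ℝ), 0 < ε → ∃ L n₀ : ℕ,
    ∀ (V C : Type) [Fintype V] [DecidableEq V] [Fintype C] [DecidableEq C]
      (G : SimpleGraph V) (N : ℕ → ℕ),
      n₀ ≤ Fintype.card V →
      (∀ v, Nat.card (G.neighborSet v) = 2 * Fintype.card C) →
      (3/8 + ε) * (Fintype.card V : ℝ) ≤ Fintype.card C →
      (∑ l ∈ Icc 3 (Fintype.card V), l * N l = Fintype.card V) →
      2 * ∑ l ∈ Icc 3 L, l * N l ≤ Fintype.card V → Concl V C G N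

/-- MAIN -/
def MainStmt : Prop :=
  ∀ (ε : ℝ), 0 < ε → ∃ n₀ : ℕ,
    ∀ (V C : Type) [Fintype V] [DecidableEq V] [Fintype C] [DecidableEq C]
      (G : SimpleGraph V) (N : ℕ → ℕ),
      n₀ ≤ Fintype.card V →
      (∀ v, Nat.card (G.neighborSet v) = 2 * Fintype.card C) →
      (3/8 + ε) * (Fintype.card V : ℝ) ≤ Fintype.card C →
      (∑ l ∈ Icc 3 (Fintype.card V), l * N l = Fintype.card V) → Concl V C G N

theorem main_of (hA : MainAStmt) (hB : MainBStmt) : MainStmt := by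
  intro ε hε
  obtain ⟨L, n₁, h1⟩ := hB ε hε
  obtain ⟨n₂, h2⟩ := hA ε L hε
  refine ⟨max n₁ n₂, ?_⟩
  intro V C _ _ _ _ G N hn hreg hd hsum
  rcases le_total (2 * ∑ l ∈ Icc 3 L, l * N l) (Fintype.card V) with h | h
  · exact h1 V C G N (le_trans (le_max_left _ _) hn) hreg hd hsum h
  · exact h2 V C G N (le_trans (le_max_right _ _) hn) hreg hd hsum h

end Pool.Agent.OBX
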