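import Mathlib
import Pool.Agent.OBW.Defs
import Pool.Agent.OBW.Stmts
import Pool.Agent.OBW.Basic
import Pool.Agent.OBX.Defs
import Pool.Agent.OBX.Stmts
import Pool.Agent.TFA.PartA
import Pool.Agent.TFB.MsU
import Pool.Agent.TFB.RmSplit
import Pool.Agent.TFB.RqU
import Pool.Agent.TFB.AllB

/-!
OBX/AbsB: the absorber statement `AbsBStmt` (Case B) from the TFB tree.
-/

set_option autoImplicit false

namespace Pool.Agent.OBX

open Finset Pool.Agent.OBW

section

variable {V C : Type} [Fintype V] [DecidableEq V] [Fintype C] [DecidableEq C]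

theorem AbsB_nb (S : Finset (Item V C)) (v : V) :
    (S.toLeft.filter (fun e => v ∈ e)).card = (nb S v).card := by
  have h1 : (S.toLeft.filter (fun e => v ∈ e)) = (nb S v).image (fun u => s(v, u)) := by
    ext e
    simp only [mem_filter, mem_toLeft, mem_image, mem_nb]
    constructor
    · rintro ⟨he, hv⟩
      obtain ⟨u, rfl⟩ := Sym2.mem_iff_exists.1 hv
      exact ⟨u, he, rfl⟩
    · rintro ⟨u, hu, rfl⟩
      exact ⟨hu, Sym2.mem_mk_left v u⟩
  rw [h1, card_image_of_injective]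
  intro a b hab
  exact Sym2.congr_right.1 hab

theorem AbsB_cl (S : Finset (Item V C)) (v : V) :
    (S.toRight.filter (fun p => p.1 = v)).card = (cl S v).card := by
  have h2 : (S.toRight.filter (fun p => p.1 = v)) = (cl S v).image (fun c => (v, c)) := by
    ext p
    rcases p with ⟨a, c⟩
    simp only [mem_filter, mem_toRight, mem_image, mem_cl, Prod.mk.injEq]
    constructor
    · rintro ⟨he, rfl⟩
      exact ⟨c, he, rfl, rfl⟩
    · rintro ⟨c', hc', rfl, rfl⟩
      exact ⟨hc', rfl⟩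
  rw [h2, card_image_of_injective]
  intro a b hab
  exact (Prod.mk.injEq _ _ _ _ ▸ hab).2

theorem AbsB_vt (S : Finset (Item V C)) (c : C) :
    (S.toRight.filter (fun p => p.2 = c)).card = (vt S c).card := by
  have h2 : (S.toRight.filter (fun p => p.2 = c)) = (vt S c).image (fun v => (v, c)) := by
    ext p
    rcases p with ⟨a, c'⟩
    simp only [mem_filter, mem_toRight, mem_image, mem_vt, Prod.mk.injEq]
    constructor
    · rintro ⟨he, rfl⟩
      exact ⟨a, he, rfl, rfl⟩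
    · rintro ⟨a', ha', rfl, rfl⟩
      exact ⟨ha', rfl⟩
  rw [h2, card_image_of_injective]
  intro a b hab
  exact (Prod.mk.injEq _ _ _ _ ▸ hab).1

omit [Fintype V] [DecidableEq V] in
/-- the number of requests -/
theorem AbsB_card (Lo : Finset (Item V C)) (Q : Finset (C × V × V)) (U : Finset V) (CJ : Finset C)
    (M : ℕ) (hU : U.card ≤ M) (hC : CJ.card ≤ M) (hin : ∀ i ∈ Lo, TFA.In U CJ i)
    (h : ∀ c, (Lo.toRight.filter (fun p => p.2 = c)).card = (Q.filter (fun r => r.1 = c)).card) :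
    Q.card ≤ M * M := by
  have h1 : Q.card = ∑ c, (Q.filter (fun r => r.1 = c)).card :=
    card_eq_sum_card_fiberwise (fun r _ => mem_coe.2 (mem_univ r.1))
  have h2 : Lo.toRight.card = ∑ c, (Lo.toRight.filter (fun p => p.2 = c)).card :=
    card_eq_sum_card_fiberwise (fun p _ => mem_coe.2 (mem_univ p.2))
  have h3 : Q.card = Lo.toRight.card := by
    rw [h1, h2]
    exact sum_congr rfl (fun c _ => (h c).symm)
  rw [h3]
  have h4 : Lo.toRight ⊆ U ×ˢ CJ := by
    intro p hp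
    have h5 := hin _ (mem_toRight.1 hp)
    exact mem_product.2 ⟨h5.1, h5.2⟩
  refine (card_le_card h4).trans ?_
  rw [card_product]
  exact Nat.mul_le_mul hU hC

end

theorem absB : AbsBStmt := by
  classical
  intro ε M hε
  obtain ⟨t, ht⟩ : ∃ t : ℕ, t = 2 ^ (2 * M ^ 2) * 2 ^ (M * (M * M)) := ⟨_, rfl⟩
  obtain ⟨b, hb⟩ : ∃ b : ℕ, b = M * M := ⟨_, rfl⟩
  obtain ⟨n1, hn1⟩ := exists_nat_ge (((t * TFB.wB b : ℕ) : ℝ) / ε)
  refine ⟨n1 + 4 * (t * TFB.cB b), 2 * (t * TFB.rB b), ?_⟩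
  intro V C _ _ _ _ G _ U₁ U C₁ CJ hn hdeg hU1 hC1 hUU hCC hUM hCM
  let I0 : Finset (Item V C) := univ.filter (fun i => TFA.In U CJ i)
  have hI0 : I0.card ≤ 2 * M ^ 2 := TFA.PartA_card hUM hCM I0 (fun i hi => (mem_filter.1 hi).2)
  let Q0 : Finset (C × V × V) := CJ ×ˢ (U ×ˢ U)
  have hQ0 : Q0.card ≤ M * (M * M) := by
    show (CJ ×ˢ (U ×ˢ U)).card ≤ _
    rw [card_product, card_product]
    exact Nat.mul_le_mul hCM (Nat.mul_le_mul hUM hUM)
  let LL : Finset (Finset (Item V C) × Finset (C × V × V)) :=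
    (I0.powerset ×ˢ Q0.powerset).filter (fun p => TFB.LfB G U₁ C₁ b p.1 p.2)
  have hLL : LL.card ≤ t := by
    refine (card_filter_le _ _).trans ?_
    rw [card_product, card_powerset, card_powerset, ht]
    exact Nat.mul_le_mul (Nat.pow_le_pow_right (by norm_num) hI0)
      (Nat.pow_le_pow_right (by norm_num) hQ0)
  have hnn : ((n1 + 4 * (t * TFB.cB b) : ℕ) : ℝ) ≤ Fintype.card V := by exact_mod_cast hn
  have hcb : (0 : ℝ) ≤ ((t * TFB.cB b : ℕ) : ℝ) := Nat.cast_nonneg _
  have hn0 : (0 : ℝ) ≤ (n1 : ℝ) := Nat.cast_nonneg _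
  have hnn' : (n1 : ℝ) + 4 * ((t * TFB.cB b : ℕ) : ℝ) ≤ Fintype.card V := by
    have e : ((n1 + 4 * (t * TFB.cB b) : ℕ) : ℝ) = (n1 : ℝ) + 4 * ((t * TFB.cB b : ℕ) : ℝ) := by
      push_cast
      ring
    rw [← e]
    exact hnn
  have hw1 : ((t * TFB.wB b : ℕ) : ℝ) ≤ ε * Fintype.card V := by
    rw [div_le_iff₀ hε] at hn1
    nlinarith
  have hLw : ((LL.card * TFB.wB b : ℕ) : ℝ) ≤ ε * Fintype.card V := by
    refine le_trans ?_ hw1
    exact_mod_cast Nat.mul_le_mul_right _ hLL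
  have hLc : ((LL.card * TFB.cB b : ℕ) : ℝ) ≤ (Fintype.card V : ℝ) / 4 := by
    have h1 : ((LL.card * TFB.cB b : ℕ) : ℝ) ≤ ((t * TFB.cB b : ℕ) : ℝ) := by
      exact_mod_cast Nat.mul_le_mul_right _ hLL
    linarith
  have hεn : 0 ≤ ε * (Fintype.card V : ℝ) := by positivity
  obtain ⟨W', Γ', R, D, hS, _, _, hR, hDl, hMk, _, hD⟩ := TFB.allB
    (k := ⌈4 * ε * (Fintype.card V : ℝ)⌉₊) (kc := Fintype.card C) (b := b)
    (TFA.PartA_host G (by
      intro v
      have h1 : (univ.filter (fun u => G.Adj v u)).card = G.degree v := by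
        rw [← SimpleGraph.card_neighborFinset_eq_degree]
        congr 1
        ext u
        simp
      rw [← h1]
      exact hdeg v))
    (by
      intro Γ hΓ
      obtain ⟨c, _, hc⟩ := Finset.exists_mem_notMem_of_card_lt_card
        (by rwa [Finset.card_univ] : Γ.card < (univ : Finset C).card)
      exact ⟨c, hc⟩) U₁ C₁ LL
    (fun p hp => (mem_filter.1 hp).2)
    (by
      have h1 : ((U₁.card + LL.card * TFB.wB b : ℕ) : ℝ) ≤ (⌈4 * ε * (Fintype.card V : ℝ)⌉₊ : ℝ) := by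
        refine le_trans ?_ (Nat.le_ceil _)
        have e : ((U₁.card + LL.card * TFB.wB b : ℕ) : ℝ) =
            (U₁.card : ℝ) + ((LL.card * TFB.wB b : ℕ) : ℝ) := by push_cast; ring
        rw [e]
        linarith
      exact_mod_cast h1)
    (by
      have h1 : ((C₁.card + LL.card * TFB.cB b : ℕ) : ℝ) ≤ (Fintype.card C : ℝ) := by
        have h2 : (C₁.card : ℝ) + ((univ \ C₁ : Finset C).card : ℝ) = Fintype.card C := by
          rw [← Finset.compl_eq_univ_sdiff]
          exact_mod_cast Finset.card_add_card_compl C₁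
        have e : ((C₁.card + LL.card * TFB.cB b : ℕ) : ℝ) =
            (C₁.card : ℝ) + ((LL.card * TFB.cB b : ℕ) : ℝ) := by push_cast; ring
        rw [e]
        linarith
      exact_mod_cast h1)
  have hDt : D.length ≤ t * TFB.rB b := hDl.trans (Nat.mul_le_mul_right _ hLL)
  have hRt : R.card ≤ t * TFB.rB b := hR.trans (Nat.mul_le_mul_right _ hLL)
  refine ⟨R, TFB.msd D, by omega, ?_, ?_, ?_, ?_, ?_⟩
  · intro c
    refine ⟨?_, TFB.ms_sep hMk c, ?_⟩
    · have := TFB.ms_len D c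
      omega
    · intro m hm
      rw [TFB.ms_mem] at hm
      obtain ⟨h1, _, h3, h4, h5⟩ := hMk.1 _ hm
      exact ⟨h1, h3, h4, h5⟩
  · intro v
    have := TFB.ms_sum D v
    omega
  · intro u v huv
    refine ⟨?_, ?_⟩
    · have := hS.hG _ huv
      rwa [SimpleGraph.mem_edgeSet] at this
    · rintro ⟨h1, h2⟩
      apply hS.hnew _ huv
      intro x hx
      rw [Sym2.mem_iff] at hx
      rcases hx with rfl | rfl
      · exact h1
      · exact h2
  · intro v c hvc
    rintro ⟨h1, h2⟩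
    exact hS.hnew _ hvc ⟨h1, h2⟩
  · intro Lo rq hin hLG hrq hnod hbal hcol
    have hLoU : ∀ i ∈ Lo, TFA.In U CJ i := by
      rintro (e | p) hi
      · intro x hx
        obtain ⟨y, rfl⟩ := Sym2.mem_iff_exists.1 hx
        exact (hin.1 x y hi).2.1
      · exact hin.2 p.1 p.2 hi
    have hqc : ∀ c, (Lo.toRight.filter (fun p => p.2 = c)).card =
        ((TFB.rqQ rq).filter (fun r => r.1 = c)).card := by
      intro c
      rw [AbsB_vt, hcol c, TFB.rq_card rq (fun c => (hnod c).1) c]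
    have hmem : ∀ r ∈ TFB.rqQ rq, r.1 ∈ CJ ∧ r.2.1 ∈ U ∧ r.2.2 ∈ U ∧ r.2.1 ≠ r.2.2 := by
      intro r hr
      rw [TFB.rq_mem] at hr
      obtain ⟨h1, h2, h3, h4, _⟩ := hrq _ _ hr
      exact ⟨h1, h2, h3, h4⟩
    have hLf : TFB.LfB G U₁ C₁ b Lo (TFB.rqQ rq) := by
      refine ⟨?_, ?_, ?_, ?_, hqc, ?_⟩
      · intro i hi
        exact TFA.PartA_mono hUU hCC i (hLoU i hi)
      · intro e he
        induction e using Sym2.ind with
        | _ x y =>
          rw [SimpleGraph.mem_edgeSet]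
          exact hLG x y he
      · intro r hr
        obtain ⟨h1, h2, h3, h4⟩ := hmem r hr
        exact ⟨hCC h1, hUU h2, hUU h3, h4⟩
      · intro v
        rw [AbsB_nb, AbsB_cl, hbal v, ← TFB.rq_deg rq (fun c => (hnod c).1) v, add_assoc]
      · rw [hb]
        exact AbsB_card Lo (TFB.rqQ rq) U CJ M hUM hCM hLoU hqc
    have hpL : (Lo, TFB.rqQ rq) ∈ LL := by
      refine mem_filter.2 ⟨mem_product.2 ⟨mem_powerset.2 (fun i hi =>
        mem_filter.2 ⟨mem_univ _, hLoU i hi⟩), mem_powerset.2 (fun r hr => ?_)⟩, hLf⟩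
      obtain ⟨h1, h2, h3, _⟩ := hmem r hr
      exact mem_product.2 ⟨h1, mem_product.2 ⟨h2, h3⟩⟩
    obtain ⟨Y0, z, hY0, hz1, hz2, hz3, hz4⟩ := hD _ hpL
    obtain ⟨Yc, hYc1, hYc2, hYc3⟩ := TFB.rm_split hY0
    have hYsub : ∀ c, Yc c ⊆ Y0 := by
      intro c
      rw [← hYc3]
      exact subset_biUnion_of_mem Yc (mem_univ c)
    have hq : ∀ c, ∀ r ∈ rq c, (c, r) ∈ TFB.rqQ rq := by
      intro c r hr
      rw [TFB.rq_mem]
      exact hr
    refine ⟨Yc, fun c => (rq c).toFinset.biUnion (fun r => z (c, r)), ?_, ?_, ?_, ?_⟩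
    · intro c
      refine ⟨hYc1 c, ?_⟩
      apply TFB.rq_real (rq c) c (hnod c).1 z
      · intro r hr
        exact hz1 (c, r) (hq c r hr)
      · intro r hr r' hr' hne
        apply hz3 (c, r) (hq c r hr) (c, r') (hq c r' hr')
        intro h
        exact hne (congrArg Prod.snd h)
    · intro c d
      rw [disjoint_biUnion_right]
      intro r hr
      exact (hz2 (d, r) (hq d r (List.mem_toFinset.1 hr))).mono_left (hYsub c)
    · intro c d hcd
      refine ⟨hYc2 c d hcd, ?_⟩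
      rw [disjoint_biUnion_right]
      intro r hr
      rw [disjoint_biUnion_left]
      intro r' hr'
      apply hz3 (c, r') (hq c r' (List.mem_toFinset.1 hr')) (d, r)
        (hq d r (List.mem_toFinset.1 hr))
      intro h
      exact hcd (congrArg Prod.fst h)
    · rw [hYc3, ← hz4]
      congr 1
      ext i
      simp only [mem_biUnion, mem_univ, true_and, List.mem_toFinset]
      constructor
      · rintro ⟨c, r, hr, hi⟩
        exact ⟨(c, r), hq c r hr, hi⟩
      · rintro ⟨r, hr, hi⟩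
        rw [TFB.rq_mem] at hr
        exact ⟨r.1, r.2, hr, hi⟩

end Pool.Agent.OBX
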