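import Pool.Agent.OBX.Stmts
import Pool.Agent.OBW.Basic

/-!
MODULE CycsB (difficulty 2).  Basic facts on unions of cycles.
-/

set_option autoImplicit false

namespace Pool.Agent.OBX

open Finset Pool.Agent.OBW

section
variable {V C : Type} [Fintype V] [DecidableEq V] [Fintype C] [DecidableEq C]

theorem cycs_empty (c : C) : Cycs c 0 (∅ : Finset (Item V C)) := by
  refine ⟨∅, ?_, by simp, ?_, ?_⟩
  · intro p hp; simp at hp
  · intro q hq; simp at hq
  · intro l
    rw [cnt_eq]
    simp

theorem cycs_single {c : C} {l : ℕ} {q : Finset (Item V C)} (h : IsPiece l c q) :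
    Cycs c {l} q := by
  classical
  refine ⟨{q}, ?_, ?_, ?_, ?_⟩
  · intro p hp p' hp' hne
    rw [Finset.mem_singleton] at hp hp'
    exact absurd (hp.trans hp'.symm) hne
  · simp [un]
  · intro p hp
    rw [Finset.mem_singleton] at hp
    subst hp
    exact ⟨l, h⟩
  · intro l'
    rw [cnt_eq, Finset.filter_singleton]
    by_cases hl : l' = l
    · subst hl
      simp [h]
    · have : ¬ IsPiece l' c q := fun h' => hl (h'.uniq h).1
      simp [this, hl]

theorem cycs_union {c : C} {Λ Λ' : Multiset ℕ} {Y Y' : Finset (Item V C)} (h : Cycs c Λ Y)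
    (h' : Cycs c Λ' Y') (hd : Disjoint Y Y') : Cycs c (Λ + Λ') (Y ∪ Y') := by
  obtain ⟨F, h1, h2, h3, h4⟩ := h
  obtain ⟨G, g1, g2, g3, g4⟩ := h'
  have hdis : Disjoint (un F) (un G) := by rw [h2, g2]; exact hd
  refine ⟨F ∪ G, h1.union g1 hdis, ?_, ?_, ?_⟩
  · rw [un_union, h2, g2]
  · intro q hq
    rcases Finset.mem_union.mp hq with hq | hq
    · exact h3 q hq
    · exact g3 q hq
  · intro l
    rw [cnt_union hdis, h4, g4, Multiset.count_add]

theorem cycs_family {c : C} {n : ℕ} {l : ℕ → ℕ} {q : ℕ → Finset (Item V C)}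
    (h : ∀ i < n, IsPiece (l i) c (q i)) (hd : ∀ i < n, ∀ j < n, i ≠ j → Disjoint (q i) (q j)) :
    Cycs c ((Multiset.range n).map l) ((range n).biUnion q) := by
  induction n with
  | zero =>
    simp only [Multiset.range_zero, Multiset.map_zero, Finset.range_zero, Finset.biUnion_empty]
    exact cycs_empty c
  | succ n ih =>
    have ih' := ih (fun i hi => h i (Nat.lt_succ_of_lt hi))
      (fun i hi j hj hij => hd i (Nat.lt_succ_of_lt hi) j (Nat.lt_succ_of_lt hj) hij)
    rw [Multiset.range_succ, Multiset.map_cons, Finset.range_add_one, Finset.biUnion_insert]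
    have hs := cycs_single (h n (Nat.lt_succ_self n))
    have hdis : Disjoint (q n) ((range n).biUnion q) := by
      rw [Finset.disjoint_biUnion_right]
      intro i hi
      have hi' := Finset.mem_range.mp hi
      exact hd n (Nat.lt_succ_self n) i (Nat.lt_succ_of_lt hi') (by omega)
    have := cycs_union hs ih' hdis
    rwa [Multiset.singleton_add] at this

end

end Pool.Agent.OBX
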