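import Pool.Agent.OBX.RealB
import Pool.Agent.OBX.CycsB

/-!
MODULE Add (difficulty 2).
-/

set_option autoImplicit false

namespace Pool.Agent.OBX

open Finset Pool.Agent.OBW

theorem add_ : AddStmt := by
  intro V C _ _ _ _ c ms ns X Λ hX
  refine ⟨?_, ?_, ?_, ?_⟩
  · intro v c' hv
    exact real_col hX hv
  · intro v
    have := real_bal hX v
    rw [ends_append]
    omega
  · have := real_vt_card hX
    rw [siz_append]
    omega
  · intro Y hY hd
    refine ⟨∅, Y ∪ X, 0, by simp, by simp, real_append hY hX hd, cycs_empty c, by simp⟩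

end Pool.Agent.OBX
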