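import Pool.Agent.OBX.FdStmts

set_option autoImplicit false

/-!
MODULE Arr (difficulty 3).  Pure list lemma.

RECIPE.  `q = card Λ ≥ 1`.  Enumerate `Λ` by a list `l 0, …, l (q-1)`: if `ms = m₀ :: tl` take first the `l₀ ∈ Λ` with
`sz m₀ + 6 ≤ l₀` (`Multiset.exists_cons_of_mem`, then `.toList` of the rest), so `(Multiset.range q).map l = Λ`.
`w₀ = sz m₀ + 1` (or `0` if `ms = []`), `w j = sz (tail j) + 1 ≤ W + 1`.  Apply `hg q tl.length (W+1) 5 w₀ l w`:
intervals `e i` of the tail; `r i = l i - (w₀ if i = 0) - ∑ w` satisfies `5 ≤ r i`.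
`δ i = r i % 2`, `α i = (r i - 3 δ i) / 2` (so `2 α i + 3 δ i = r i`, `2 ≤ δ i + α i`, omega).  `d = ∑ δ i`, `A = ∑ α i`.
Given `dl`, `al`: group `G i = (if i = 0 then head) ++ (tl.drop (e i)).take (e (i+1) - e i) ++ (dl.drop (∑_{<i} δ)).take (δ i) ++
(al.drop (∑_{<i} α)).take (α i)`, `L = (List.range q).flatMap G`, `E i = ∑_{i' < i} (G i').length`.
Lemma A (segments): for monotone `f`, `f 0 = 0`: `(List.range n).flatMap (fun i => (l.drop (f i)).take (f (i+1) - f i)) = l.take (f n)`
(induction on `n`, `List.take_add`).  Lemma B: `List.flatMap_append_perm` (or count in multisets) for `L ~ ms ++ (dl ++ al)`.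
Lemma C: for `L = (List.range n).flatMap G`, `E i` as above, `i < n`, `F = L.map sz`:
`∑ j ∈ Ico (E i) (E (i+1)), (F.getD j 0 + 1) = ((G i).map sz).sum + (G i).length` (induction on `n`: `List.range_succ`, append).
-/

namespace Pool.Agent.OBX

open Finset Pool.Agent.OBW

/-- sum over a segment of a list -/
private theorem Arr_seg {α : Type} (sz : α → ℕ) (A B C : List α) :
    ∑ j ∈ Ico A.length (A.length + B.length), (((A ++ (B ++ C)).map sz).getD j 0 + 1) =
      (B.map sz).sum + B.length := by
  have h0 : ∀ (B C : List α), ∑ k ∈ range B.length, (((B ++ C).map sz).getD k 0 + 1) =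
      (B.map sz).sum + B.length := by
    intro B
    induction B with
    | nil => intro C; simp
    | cons b B ih =>
      intro C
      rw [List.length_cons, Finset.sum_range_succ']
      have := ih C
      simp only [List.cons_append, List.map_cons, List.getD_cons_succ, List.getD_cons_zero, List.sum_cons] at this ⊢
      rw [this]
      omega
  rw [Finset.sum_Ico_eq_sum_range, Nat.add_sub_cancel_left, ← h0 B C]
  refine Finset.sum_congr rfl fun k _ => ?_
  congr 1
  rw [List.map_append, List.getD_append_right _ _ _ _ (by simp)]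
  congr 1
  simp

/-- segments of a list -/
private theorem Arr_take {α : Type} (l : List α) (f : ℕ → ℕ) (h0 : f 0 = 0) (n : ℕ)
    (hf : ∀ i < n, f i ≤ f (i + 1)) :
    (List.range n).flatMap (fun i => (l.drop (f i)).take (f (i + 1) - f i)) = l.take (f n) := by
  induction n with
  | zero => simp [h0]
  | succ n ih =>
    rw [List.range_succ, List.flatMap_append, ih (fun i hi => hf i (by omega))]
    simp only [List.flatMap_cons, List.flatMap_nil, List.append_nil]
    rw [← List.take_add]
    congr 1
    have := hf n (by omega)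
    omega

private theorem Arr_mono {e : ℕ → ℕ} {q : ℕ} (he : ∀ i < q, e i ≤ e (i + 1)) : ∀ i ≤ q, e i ≤ e q := by
  intro i hi
  induction q, hi using Nat.le_induction with
  | base => exact le_rfl
  | succ n hn ih => exact (ih fun j hj => he j (by omega)).trans (he n (by omega))

private theorem Arr_range {l : List ℕ} : (List.range l.length).map (fun i => l.getD i 0) = l := by
  apply List.ext_getElem
  · simp
  · intro i h1 h2
    rw [List.getElem_map, List.getElem_range, List.getD_eq_getElem _ _ h2]

private theorem Arr_sum {n : ℕ} {α : Type} (G : ℕ → List α) :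
    ((List.range (n + 1)).flatMap G).length = ((List.range n).flatMap G).length + (G n).length := by
  rw [List.range_succ, List.flatMap_append, List.length_append]
  simp

private theorem Arr_const {α : Type} (sz : α → ℕ) (c : ℕ) (l : List α) (h : ∀ m ∈ l, sz m = c) :
    (l.map sz).sum = l.length * c := by
  induction l with
  | nil => simp
  | cons a l ih =>
    rw [List.map_cons, List.sum_cons, ih (fun m hm => h m (List.mem_cons_of_mem _ hm)), h a (List.mem_cons_self ..),
      List.length_cons]
    ring

theorem arr (hg : GrpStmt) : ArrStmt := by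
  intro α sz W ms Λ hW hhead hΛ hl hsum
  -- the first length
  obtain ⟨w₀, hw₀⟩ : ∃ w₀, w₀ = ((ms.take 1).map sz).sum + (ms.take 1).length := ⟨_, rfl⟩
  obtain ⟨l₀, hl₀, hwl₀⟩ : ∃ l₀ ∈ Λ, w₀ + 5 ≤ l₀ := by
    rcases ms with _ | ⟨m₀, tl⟩
    · obtain ⟨l₀, h⟩ := Multiset.exists_mem_of_ne_zero hΛ
      refine ⟨l₀, h, ?_⟩
      have := hl l₀ h
      simp at hw₀
      omega
    · obtain ⟨l₀, h, h'⟩ := hhead m₀ (by simp)
      refine ⟨l₀, h, ?_⟩
      simp at hw₀
      omega
  obtain ⟨Λ', rfl⟩ := Multiset.exists_cons_of_mem hl₀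
  obtain ⟨lst, hlst⟩ : ∃ lst : List ℕ, lst = l₀ :: Λ'.toList := ⟨_, rfl⟩
  have hlstΛ : (lst : Multiset ℕ) = l₀ ::ₘ Λ' := by
    rw [hlst, ← Multiset.cons_coe, Multiset.coe_toList]
  obtain ⟨q, hq⟩ : ∃ q, q = lst.length := ⟨_, rfl⟩
  have hqc : Multiset.card (l₀ ::ₘ Λ') = q := by
    rw [← hlstΛ, hq, Multiset.coe_card]
  obtain ⟨l, hldef⟩ : ∃ l : ℕ → ℕ, l = fun i => lst.getD i 0 := ⟨_, rfl⟩
  have hlmap : (List.range q).map l = lst := by
    rw [hq, hldef]
    exact Arr_range
  have hq1 : 1 ≤ q := by rw [hq, hlst, List.length_cons]; omega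
  have hl0 : l 0 = l₀ := by rw [hldef, hlst]; rfl
  have hlmem : ∀ i < q, l i ∈ l₀ ::ₘ Λ' := by
    intro i hi
    rw [← hlstΛ, Multiset.mem_coe, ← hlmap]
    exact List.mem_map_of_mem (List.mem_range.mpr hi)
  have hlsum : ∑ i ∈ range q, l i = (l₀ ::ₘ Λ').sum := by
    rw [← hlstΛ, Multiset.sum_coe, ← hlmap]
    rfl
  -- the tail
  obtain ⟨tl, htl⟩ : ∃ tl, tl = ms.tail := ⟨_, rfl⟩
  have hmstl : ms.take 1 ++ tl = ms := by
    rw [htl, ← List.drop_one, List.take_append_drop]
  obtain ⟨w, hw⟩ : ∃ w : ℕ → ℕ, w = fun j => (tl.map sz).getD j 0 + 1 := ⟨_, rfl⟩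
  have hwW : ∀ j < tl.length, w j ≤ W + 1 := by
    intro j hj
    rw [hw]
    simp only
    rw [List.getD_eq_getElem _ _ (by simpa using hj), List.getElem_map]
    have := hW (tl[j]) (by rw [← htl]; exact List.getElem_mem _)
    omega
  have hwsum : ∑ j ∈ range tl.length, w j = (tl.map sz).sum + tl.length := by
    have h := Arr_seg sz [] tl []
    rw [List.nil_append, List.append_nil, List.length_nil, Nat.zero_add] at h
    rw [hw, Finset.range_eq_Ico]
    exact h
  have htot : (ms.map sz).sum + ms.length = w₀ + ((tl.map sz).sum + tl.length) := by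
    conv_lhs => rw [← hmstl]
    rw [List.map_append, List.sum_append, List.length_append, hw₀]
    omega
  obtain ⟨e, he0, heq, he, hr⟩ := hg q tl.length (W + 1) 5 w₀ l w le_rfl hq1 hwW
    (fun i hi => by have := hl _ (hlmem i hi); omega) (by rw [hl0]; exact hwl₀)
    (by
      rw [hlsum, hwsum]
      rw [hqc] at hsum
      have : q * (5 + (W + 1)) = q * (W + 6) := by ring
      omega)
  have hemono : ∀ i ≤ q, e i ≤ tl.length := fun i hi => heq ▸ Arr_mono he i hi
  obtain ⟨b, hb⟩ : ∃ b : ℕ → ℕ, b = fun i => (if i = 0 then w₀ else 0) + ∑ j ∈ Ico (e i) (e (i + 1)), w j :=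
    ⟨_, rfl⟩
  obtain ⟨r, hrdef⟩ : ∃ r : ℕ → ℕ, r = fun i => l i - b i := ⟨_, rfl⟩
  have hbr : ∀ i < q, b i + r i = l i ∧ 5 ≤ r i := by
    intro i hi
    have h := (hr i hi).1
    have hbi : b i = (if i = 0 then w₀ else 0) + ∑ j ∈ Ico (e i) (e (i + 1)), w j := by rw [hb]
    have hri : r i = l i - b i := by rw [hrdef]
    omega
  obtain ⟨δ, hδ⟩ : ∃ δ : ℕ → ℕ, δ = fun i => r i % 2 := ⟨_, rfl⟩
  obtain ⟨β, hβ⟩ : ∃ β : ℕ → ℕ, β = fun i => (r i - 3 * (r i % 2)) / 2 := ⟨_, rfl⟩
  have hδβ : ∀ i < q, 2 * β i + 3 * δ i = r i ∧ 2 ≤ δ i + β i ∧ δ i ≤ 1 := by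
    intro i hi
    have h := (hbr i hi).2
    rw [hδ, hβ]
    simp only
    omega
  -- sum of the `b i`
  have hbsum : ∑ i ∈ range q, b i = w₀ + ((tl.map sz).sum + tl.length) := by
    rw [hb, Finset.sum_add_distrib]
    congr 1
    · rw [Finset.sum_ite_eq' (range q) 0 (fun _ => w₀), if_pos (Finset.mem_range.mpr (by omega))]
    · rw [← hwsum, ← heq]
      have key : ∀ n ≤ q, ∑ i ∈ range n, ∑ j ∈ Ico (e i) (e (i + 1)), w j = ∑ j ∈ range (e n), w j := by
        intro n
        induction n with
        | zero => intro _; simp [he0]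
        | succ n ih =>
          intro hn
          rw [Finset.sum_range_succ, ih (by omega), Finset.range_eq_Ico,
            Finset.sum_Ico_consecutive _ (Nat.zero_le _) (he n (by omega)), ← Finset.range_eq_Ico]
      exact key q le_rfl
  refine ⟨∑ i ∈ range q, δ i, ∑ i ∈ range q, β i, ?_, ?_, ?_⟩
  · rw [hqc]
    calc ∑ i ∈ range q, δ i ≤ ∑ i ∈ range q, 1 :=
          Finset.sum_le_sum fun i hi => (hδβ i (Finset.mem_range.mp hi)).2.2
      _ = q := by simp
  · have h1 : ∑ i ∈ range q, l i = ∑ i ∈ range q, (b i + (2 * β i + 3 * δ i)) := by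
      refine Finset.sum_congr rfl fun i hi => ?_
      rw [(hδβ i (Finset.mem_range.mp hi)).1, (hbr i (Finset.mem_range.mp hi)).1]
    rw [Finset.sum_add_distrib, Finset.sum_add_distrib, hbsum, ← Finset.mul_sum, ← Finset.mul_sum] at h1
    rw [← hlsum, h1, htot]
    omega
  · intro dl al hdl hal hdl2 hal1
    obtain ⟨fd, hfd⟩ : ∃ fd : ℕ → ℕ, fd = fun i => ∑ j ∈ range i, δ j := ⟨_, rfl⟩
    obtain ⟨fa, hfa⟩ : ∃ fa : ℕ → ℕ, fa = fun i => ∑ j ∈ range i, β j := ⟨_, rfl⟩
    have fd0 : fd 0 = 0 := by rw [hfd]; simp
    have fa0 : fa 0 = 0 := by rw [hfa]; simp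
    have fdS : ∀ i, fd (i + 1) = fd i + δ i := fun i => by rw [hfd]; simp only; rw [Finset.sum_range_succ]
    have faS : ∀ i, fa (i + 1) = fa i + β i := fun i => by rw [hfa]; simp only; rw [Finset.sum_range_succ]
    have fdq : fd q = dl.length := by rw [hfd, hdl]
    have faq : fa q = al.length := by rw [hfa, hal]
    have fdm : ∀ i ≤ q, fd i ≤ dl.length := fun i hi => fdq ▸ Arr_mono (fun j _ => by rw [fdS]; omega) i hi
    have fam : ∀ i ≤ q, fa i ≤ al.length := fun i hi => faq ▸ Arr_mono (fun j _ => by rw [faS]; omega) i hi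
    obtain ⟨G, hG⟩ : ∃ G : ℕ → List α, G = fun i => (if i = 0 then ms.take 1 else []) ++
      ((tl.drop (e i)).take (e (i + 1) - e i) ++ ((dl.drop (fd i)).take (fd (i + 1) - fd i) ++
        (al.drop (fa i)).take (fa (i + 1) - fa i))) := ⟨_, rfl⟩
    have hGi : ∀ i, G i = (if i = 0 then ms.take 1 else []) ++
      ((tl.drop (e i)).take (e (i + 1) - e i) ++ ((dl.drop (fd i)).take (fd (i + 1) - fd i) ++
        (al.drop (fa i)).take (fa (i + 1) - fa i))) := fun i => by rw [hG]
    have hdlen : ∀ i < q, ((dl.drop (fd i)).take (fd (i + 1) - fd i)).length = δ i := by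
      intro i hi
      have := fdm (i + 1) (by omega)
      have := fdS i
      rw [List.length_take, List.length_drop]
      omega
    have halen : ∀ i < q, ((al.drop (fa i)).take (fa (i + 1) - fa i)).length = β i := by
      intro i hi
      have := fam (i + 1) (by omega)
      have := faS i
      rw [List.length_take, List.length_drop]
      omega
    have hdsum : ∀ i < q, (((dl.drop (fd i)).take (fd (i + 1) - fd i)).map sz).sum = 2 * δ i := by
      intro i hi
      rw [Arr_const sz 2 _ (fun m hm => hdl2 m (List.mem_of_mem_drop (List.mem_of_mem_take hm))), hdlen i hi]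
      ring
    have hasum : ∀ i < q, (((al.drop (fa i)).take (fa (i + 1) - fa i)).map sz).sum = β i := by
      intro i hi
      rw [Arr_const sz 1 _ (fun m hm => hal1 m (List.mem_of_mem_drop (List.mem_of_mem_take hm))), halen i hi]
      ring
    have htsum : ∀ i < q, (((tl.drop (e i)).take (e (i + 1) - e i)).map sz).sum +
        ((tl.drop (e i)).take (e (i + 1) - e i)).length = ∑ j ∈ Ico (e i) (e (i + 1)), w j := by
      intro i hi
      have h1 := he i hi
      have h2 := hemono (i + 1) (by omega)
      have h := Arr_seg sz (tl.take (e i)) ((tl.drop (e i)).take (e (i + 1) - e i)) (tl.drop (e (i + 1)))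
      have e1 : tl.take (e i) ++ ((tl.drop (e i)).take (e (i + 1) - e i) ++ tl.drop (e (i + 1))) = tl := by
        have e2 : tl.drop (e (i + 1)) = (tl.drop (e i)).drop (e (i + 1) - e i) := by
          rw [List.drop_drop]
          congr 1
          omega
        rw [e2, List.take_append_drop, List.take_append_drop]
      have e3 : (tl.take (e i)).length = e i := by
        rw [List.length_take]
        omega
      have e4 : ((tl.drop (e i)).take (e (i + 1) - e i)).length = e (i + 1) - e i := by
        rw [List.length_take, List.length_drop]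
        omega
      rw [e1, e3] at h
      rw [← h]
      congr 1
      · congr 1
        omega
      · rw [hw]
    have hheadsum : ∀ i, (((if i = 0 then ms.take 1 else [] : List α).map sz).sum +
        (if i = 0 then ms.take 1 else [] : List α).length) = if i = 0 then w₀ else 0 := by
      intro i
      split_ifs
      · exact hw₀.symm
      · simp
    have hGsum : ∀ i < q, ((G i).map sz).sum + (G i).length = l i := by
      intro i hi
      have a1 := hheadsum i
      have a2 := htsum i hi
      have a3 := hdsum i hi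
      have a4 := hasum i hi
      have a5 := hdlen i hi
      have a6 := halen i hi
      have a7 := (hbr i hi).1
      have a8 := (hδβ i hi).1
      have a9 : b i = (if i = 0 then w₀ else 0) + ∑ j ∈ Ico (e i) (e (i + 1)), w j := by rw [hb]
      rw [hGi i]
      simp only [List.map_append, List.sum_append, List.length_append]
      omega
    have hGlen : ∀ i < q, 2 ≤ (G i).length := by
      intro i hi
      have a5 := hdlen i hi
      have a6 := halen i hi
      have a8 := (hδβ i hi).2.1
      rw [hGi i]
      simp only [List.length_append]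
      omega
    refine ⟨(List.range q).flatMap G, q, fun i => ((List.range i).flatMap G).length, ?_, ?_, ?_, rfl, ?_⟩
    · have p1 : (List.range q).flatMap (fun i => (if i = 0 then ms.take 1 else [] : List α)) = ms.take 1 := by
        obtain ⟨n, rfl⟩ : ∃ n, q = n + 1 := ⟨q - 1, by omega⟩
        rw [List.range_succ_eq_map, List.flatMap_cons, List.flatMap_map]
        simp
      have p2 := Arr_take tl e he0 q he
      rw [heq, List.take_length] at p2
      have p3 := Arr_take dl fd fd0 q (fun i _ => by rw [fdS]; omega)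
      rw [fdq, List.take_length] at p3
      have p4 := Arr_take al fa fa0 q (fun i _ => by rw [faS]; omega)
      rw [faq, List.take_length] at p4
      have t1 := List.flatMap_append_perm (List.range q) (fun i => (dl.drop (fd i)).take (fd (i + 1) - fd i))
        (fun i => (al.drop (fa i)).take (fa (i + 1) - fa i))
      rw [p3, p4] at t1
      have t2 := List.flatMap_append_perm (List.range q) (fun i => (tl.drop (e i)).take (e (i + 1) - e i))
        (fun i => (dl.drop (fd i)).take (fd (i + 1) - fd i) ++ (al.drop (fa i)).take (fa (i + 1) - fa i))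
      rw [p2] at t2
      have t3 := List.flatMap_append_perm (List.range q) (fun i => (if i = 0 then ms.take 1 else [] : List α))
        (fun i => (tl.drop (e i)).take (e (i + 1) - e i) ++ ((dl.drop (fd i)).take (fd (i + 1) - fd i) ++
          (al.drop (fa i)).take (fa (i + 1) - fa i)))
      rw [p1] at t3
      have t4 : ms ++ (dl ++ al) = ms.take 1 ++ (tl ++ (dl ++ al)) := by
        rw [← List.append_assoc (ms.take 1), hmstl]
      rw [t4, hG]
      exact ((List.Perm.append_left _ ((List.Perm.append_left _ t1).trans t2)).trans t3).symm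
    · simp
    · intro i hi
      have := hGlen i hi
      show ((List.range i).flatMap G).length + 2 ≤ ((List.range (i + 1)).flatMap G).length
      rw [Arr_sum]
      omega
    · have hL : ∀ i < q, ∃ R : List α, (List.range q).flatMap G = (List.range i).flatMap G ++ (G i ++ R) := by
        intro i hi
        refine ⟨((List.range' (i + 1) (q - (i + 1))).flatMap G), ?_⟩
        have e1 : List.range q = List.range i ++ (i :: List.range' (i + 1) (q - (i + 1))) := by
          rw [List.range_eq_range', List.range_eq_range']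
          have : i :: List.range' (i + 1) (q - (i + 1)) = List.range' i (q - i) := by
            rw [show q - i = (q - (i + 1)) + 1 by omega, List.range'_succ]
          rw [this]
          have h := List.range'_append_1 (s := 0) (m := i) (n := q - i)
          rw [Nat.zero_add, Nat.add_sub_cancel' hi.le] at h
          exact h.symm
        conv_lhs => rw [e1]
        rw [List.flatMap_append, List.flatMap_cons]
      have hfin : ∀ i < q, ∑ j ∈ Ico ((List.range i).flatMap G).length ((List.range (i + 1)).flatMap G).length,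
          ((((List.range q).flatMap G).map sz).getD j 0 + 1) = l i := by
        intro i hi
        obtain ⟨R, hR⟩ := hL i hi
        rw [hR, Arr_sum, Arr_seg, hGsum i hi]
      have hm : (Multiset.range q).map (fun i => ∑ j ∈ Ico ((List.range i).flatMap G).length
          ((List.range (i + 1)).flatMap G).length, ((((List.range q).flatMap G).map sz).getD j 0 + 1)) =
          (Multiset.range q).map l :=
        Multiset.map_congr rfl fun i hi => hfin i (Multiset.mem_range.mp hi)
      rw [hm, ← hlstΛ]
      conv_rhs => rw [← hlmap]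
      rfl

end Pool.Agent.OBX
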