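import Pool.Agent.OBX.Stmts
import Pool.Agent.OBW.Basic

/-!
MODULE Brk (difficulty 3).  Choosing one edge in every cycle with small loads.
Average greedy (`AglStmt`): the pieces are processed one after the other, a random edge of the cycle.
-/

set_option autoImplicit false
set_option linter.unusedSectionVars false

namespace Pool.Agent.OBX

open Finset Pool.Agent.OBW

section
variable {V C : Type} [Fintype V] [DecidableEq V] [Fintype C] [DecidableEq C]

/-- at most two edges of a cycle contain a given vertex -/
theorem brk_two {K : ℕ} (hK : 3 ≤ K) {z : ℕ → V} (hz : Set.InjOn z (Set.Iio K)) (v : V) :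
    ((univ : Finset (Fin K)).filter (fun a : Fin K => v ∈ s(z a, z ((a + 1) % K)))).card ≤ 2 := by
  classical
  have hinj : ∀ i < K, ∀ j < K, z i = z j → i = j := fun i hi j hj h =>
    hz (Set.mem_Iio.2 hi) (Set.mem_Iio.2 hj) h
  have hml : ∀ n, n % K < K := fun n => Nat.mod_lt _ (by omega)
  have hsub : (univ : Finset (Fin K)).filter (fun a : Fin K => v ∈ s(z a, z ((a + 1) % K))) ⊆
      (univ.filter (fun a : Fin K => z a = v)) ∪
        (univ.filter (fun a : Fin K => z ((a + 1) % K) = v)) := by
    intro a ha
    rw [mem_filter, Sym2.mem_iff] at ha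
    rw [mem_union, mem_filter, mem_filter]
    rcases ha.2 with h | h
    · exact Or.inl ⟨mem_univ _, h.symm⟩
    · exact Or.inr ⟨mem_univ _, h.symm⟩
  refine (card_le_card hsub).trans ((card_union_le _ _).trans ?_)
  have h1 : (univ.filter (fun a : Fin K => z a = v)).card ≤ 1 := by
    rw [Finset.card_le_one]
    intro a ha b hb
    rw [mem_filter] at ha hb
    exact Fin.ext (hinj a a.2 b b.2 (ha.2.trans hb.2.symm))
  have h2 : (univ.filter (fun a : Fin K => z ((a + 1) % K) = v)).card ≤ 1 := by
    rw [Finset.card_le_one]
    intro a ha b hb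
    rw [mem_filter] at ha hb
    have h := hinj _ (hml _) _ (hml _) (ha.2.trans hb.2.symm)
    have h3 : (a : ℕ) ≡ b [MOD K] := Nat.ModEq.add_right_cancel' 1 h
    have h4 : (a : ℕ) % K = (b : ℕ) % K := h3
    rw [Nat.mod_eq_of_lt a.2, Nat.mod_eq_of_lt b.2] at h4
    exact Fin.ext h4
  omega

end

open scoped Classical in
theorem brk (hA : AglStmt) : BrkStmt := by
  intro V C _ _ _ _ _ K U D F hK hU hPD hF hFU
  -- enumeration of the pieces
  set T := F.card with hT
  set L : ℕ → Finset (Item V C) := fun i => if h : i < T then (F.equivFin.symm ⟨i, h⟩ : F).1 else ∅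
    with hL
  have hLmem : ∀ i < T, L i ∈ F := by
    intro i hi
    simp only [hL, hi, dif_pos]
    exact (F.equivFin.symm ⟨i, hi⟩).2
  have hLinj : ∀ i < T, ∀ j < T, L i = L j → i = j := by
    intro i hi j hj h
    simp only [hL, hi, hj, dif_pos] at h
    have h1 := F.equivFin.symm.injective (Subtype.ext h)
    exact congrArg Fin.val h1
  have hLsurj : ∀ q ∈ F, ∃ i < T, L i = q := by
    intro q hq
    refine ⟨(F.equivFin ⟨q, hq⟩).1, (F.equivFin ⟨q, hq⟩).2, ?_⟩
    have h := (F.equivFin ⟨q, hq⟩).2
    simp only [hL]
    rw [dif_pos h]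
    simp
  -- vertices of a piece
  have hends : ∀ q ∈ F, ∀ e : Sym2 V, (Sum.inl e : Item V C) ∈ q → ∀ v ∈ e,
      ∃ c ∈ D, (Sum.inr (v, c) : Item V C) ∈ q := by
    intro q hq e he v hv
    obtain ⟨c, hc, hp⟩ := hF q hq
    refine ⟨c, hc, ?_⟩
    obtain ⟨_, z, hz, rfl⟩ := hp
    rw [inl_mem_cyc] at he
    obtain ⟨i, hi, he⟩ := he
    rw [he, Sym2.mem_iff] at hv
    rw [inr_mem_cyc]
    refine ⟨rfl, ?_⟩
    rcases hv with h | h
    · exact ⟨i, hi, h⟩
    · exact ⟨(i + 1) % K, Nat.mod_lt _ (by omega), h⟩
  set on : V → Finset (Item V C) → Prop := fun v q => ∃ c, (Sum.inr (v, c) : Item V C) ∈ q with hon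
  -- at most |D| pieces through a vertex
  have hcount : ∀ (v : V) (τ : ℕ), τ ≤ T →
      ((range τ).filter (fun i => on v (L i))).card ≤ D.card := by
    intro v τ hτ
    refine Finset.card_le_card_of_forall_subsingleton
      (fun i c => (Sum.inr (v, c) : Item V C) ∈ L i) ?_ ?_
    · intro i hi
      rw [mem_filter, mem_range] at hi
      obtain ⟨c, hc⟩ := hi.2
      obtain ⟨c', hc', hp⟩ := hF _ (hLmem i (by omega))
      have := hp.colour hc
      subst this
      exact ⟨_, hc', hc⟩
    · intro c _ i hi j hj
      simp only [Set.mem_ofPred_eq, mem_filter, mem_range] at hi hj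
      by_contra hne
      have hd := hPD _ (hLmem i (by omega)) _ (hLmem j (by omega))
        (fun h => hne (hLinj i (by omega) j (by omega) h))
      exact Finset.disjoint_left.1 hd hi.2 hj.2
  have hKr : (0 : ℝ) < K := by
    have : 0 < K := by omega
    exact_mod_cast this
  -- the average greedy
  have hAG := hA (ℕ × (Finset (Item V C) → Sym2 V)) U T
    (fun τ s => s.1 = τ ∧ ∀ i < τ, (Sum.inl (s.2 (L i)) : Item V C) ∈ L i)
    (fun v s => (((range s.1).filter (fun i => v.1 ∈ s.2 (L i))).card : ℝ))
    (fun v s => (2 / K : ℝ) * ((range s.1).filter (fun i => on v.1 (L i))).card)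
    (fun _ => Real.log (U.card) + 4 * (D.card : ℝ) / K)
    (0, fun _ => s(Classical.arbitrary V, Classical.arbitrary V))
    ⟨rfl, fun i hi => absurd hi (by omega)⟩ (by intro i; simp) (by intro i; simp)
    (by
      rintro τ hτ ⟨n, e⟩ ⟨h1, _⟩ v
      simp only at h1
      subst h1
      have h2 := hcount v.1 n hτ
      have h3 : (((range n).filter (fun i => on v.1 (L i))).card : ℝ) ≤ D.card := by
        exact_mod_cast h2
      have h4 : (2 / K : ℝ) * ((range n).filter (fun i => on v.1 (L i))).card ≤
          (2 / K : ℝ) * D.card := mul_le_mul_of_nonneg_left h3 (by positivity)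
      have e4 : 4 * (D.card : ℝ) / K = 2 * ((2 / K : ℝ) * D.card) := by ring
      rw [Fintype.card_coe, e4]
      show Real.log (U.card) + 2 * ((2 / K : ℝ) * ((range n).filter (fun i => on v.1 (L i))).card) ≤ _
      linarith)
    (by
      rintro τ hτ ⟨n, e⟩ ⟨h1, h2⟩ _
      simp only at h1
      subst h1
      obtain ⟨c, hc, _, z, hz, hq⟩ := hF _ (hLmem n hτ)
      have hne : ∀ i < n, L i ≠ L n := fun i hi h => by
        have := hLinj i (by omega) n hτ h
        omega
      have hload : ∀ (a : Fin K) (v : V),
          ((range (n + 1)).filter (fun i => v ∈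
            Function.update e (L n) s(z a, z ((a + 1) % K)) (L i))).card =
          ((range n).filter (fun i => v ∈ e (L i))).card +
            if v ∈ s(z a, z ((a + 1) % K)) then 1 else 0 := by
        intro a v
        rw [Finset.range_add_one, Finset.filter_insert]
        have e1 : (range n).filter (fun i => v ∈
            Function.update e (L n) s(z a, z ((a + 1) % K)) (L i)) =
            (range n).filter (fun i => v ∈ e (L i)) := by
          apply Finset.filter_congr
          intro i hi
          rw [Function.update_of_ne (hne i (mem_range.1 hi))]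
        rw [e1, Function.update_self]
        split_ifs with h
        · rw [card_insert_of_notMem (by simp)]
        · rfl
      have hacc : ∀ v : V, ((range (n + 1)).filter (fun i => on v (L i))).card =
          ((range n).filter (fun i => on v (L i))).card + if on v (L n) then 1 else 0 := by
        intro v
        rw [Finset.range_add_one, Finset.filter_insert]
        split_ifs with h
        · rw [card_insert_of_notMem (by simp)]
        · rfl
      refine ⟨K, fun a => (n + 1, Function.update e (L n) s(z a, z ((a + 1) % K))),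
        fun v => if on v.1 (L n) then 2 / K else 0, by omega, ?_, ?_, ?_, ?_⟩
      · intro a
        refine ⟨rfl, ?_⟩
        intro i hi
        show (Sum.inl (Function.update e (L n) s(z a, z ((a + 1) % K)) (L i)) : Item V C) ∈ L i
        by_cases h : i = n
        · subst h
          rw [Function.update_self, hq, inl_mem_cyc]
          exact ⟨a, a.2, rfl⟩
        · rw [Function.update_of_ne (hne i (by omega))]
          exact h2 i (by omega)
      · intro a v
        simp only [hload]
        push_cast
        constructor
        · split_ifs <;> simp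
        · split_ifs <;> simp
      · intro v
        simp only [hload]
        push_cast
        have e1 : ∀ a : Fin K, ((((range n).filter (fun i => v.1 ∈ e (L i))).card : ℝ) +
            (if v.1 ∈ s(z a, z ((a + 1) % K)) then (1 : ℝ) else 0) -
            (((range n).filter (fun i => v.1 ∈ e (L i))).card : ℝ)) =
            if v.1 ∈ s(z a, z ((a + 1) % K)) then (1 : ℝ) else 0 := by
          intro a; ring
        rw [Finset.sum_congr rfl fun a _ => e1 a]
        by_cases ho : on v.1 (L n)
        · rw [if_pos ho, div_mul_cancel₀ _ (ne_of_gt hKr)]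
          rw [Finset.sum_boole]
          have := brk_two hK hz v.1
          exact_mod_cast this
        · rw [if_neg ho, zero_mul]
          apply le_of_eq
          apply Finset.sum_eq_zero
          intro a _
          rw [if_neg]
          intro hv
          obtain ⟨c', _, hc'⟩ := hends _ (hLmem n hτ) s(z a, z ((a + 1) % K))
            (by rw [hq, inl_mem_cyc]; exact ⟨a, a.2, rfl⟩) v.1 hv
          exact ho ⟨c', hc'⟩
      · intro a v
        simp only [hacc]
        push_cast
        apply le_of_eq
        split_ifs <;> ring)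
  obtain ⟨⟨n, e⟩, ⟨h1, h2⟩, h3⟩ := hAG
  simp only at h1
  subst h1
  refine ⟨e, ?_, ?_⟩
  · intro q hq
    obtain ⟨i, hi, rfl⟩ := hLsurj q hq
    exact h2 i hi
  · intro v
    have hcard : (F.filter (fun q => v ∈ e q)).card ≤
        ((range T).filter (fun i => v ∈ e (L i))).card := by
      have hsub : F.filter (fun q => v ∈ e q) ⊆
          ((range T).filter (fun i => v ∈ e (L i))).image L := by
        intro q hq
        rw [mem_filter] at hq
        obtain ⟨i, hi, rfl⟩ := hLsurj q hq.1
        exact mem_image.2 ⟨i, mem_filter.2 ⟨mem_range.2 hi, hq.2⟩, rfl⟩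
      exact (card_le_card hsub).trans card_image_le
    by_cases hv : v ∈ U
    · have h4 := h3 ⟨v, hv⟩
      have h5 : ((F.filter (fun q => v ∈ e q)).card : ℝ) ≤
        (((range T).filter (fun i => v ∈ e (L i))).card : ℝ) := by exact_mod_cast hcard
      exact h5.trans h4
    · have h0 : F.filter (fun q => v ∈ e q) = ∅ := by
        rw [Finset.filter_eq_empty_iff]
        intro q hq hve
        obtain ⟨i, hi, rfl⟩ := hLsurj q hq
        obtain ⟨c, _, hc⟩ := hends _ hq (e (L i)) (h2 i hi) v hve
        exact hv (hFU _ hq v c hc)
      rw [h0, card_empty]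
      have h6 : (1 : ℝ) ≤ U.card := by
        have := hU.card_pos
        exact_mod_cast this
      have h7 := Real.log_nonneg h6
      have h8 : (0 : ℝ) ≤ 4 * (D.card : ℝ) / K := by positivity
      push_cast
      linarith

end Pool.Agent.OBX
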