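import Mathlib
import Pool.Agent.OBW.Defs
import Pool.Agent.OBW.Stmts
import Pool.Agent.OBW.Basic
import Pool.Agent.OBX.Defs
import Pool.Agent.OBX.Stmts

set_option autoImplicit false
set_option linter.unusedSectionVars false
set_option linter.unusedVariables false

/-! Case A: breaking `K`-pieces and closing them to long cycles. -/

namespace Pool.Agent.OBX

open Finset Pool.Agent.OBW

theorem enum_of_card {α : Type} [Inhabited α] (s : Finset α) (h : ℕ) (hs : h ≤ s.card) :
    ∃ f : ℕ → α, (∀ j < h, f j ∈ s) ∧ ∀ i < h, ∀ j < h, f i = f j → i = j := by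
  classical
  have hlen : s.toList.length = s.card := Finset.length_toList s
  have hnd : s.toList.Nodup := Finset.nodup_toList s
  refine ⟨fun j => s.toList.getD j default, ?_, ?_⟩
  · intro j hj
    have hlt : j < s.toList.length := by omega
    show s.toList.getD j default ∈ s
    rw [List.getD_eq_getElem _ _ hlt, ← Finset.mem_toList]
    exact List.getElem_mem hlt
  · intro i hi j hj hij
    have hlti : i < s.toList.length := by omega
    have hltj : j < s.toList.length := by omega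
    have hij' : s.toList.getD i default = s.toList.getD j default := hij
    rw [List.getD_eq_getElem _ _ hlti, List.getD_eq_getElem _ _ hltj] at hij'
    exact (List.Nodup.getElem_inj_iff hnd).1 hij'

section
variable {V C : Type} [Fintype V] [DecidableEq V] [Fintype C] [DecidableEq C]

theorem ca_break [Nonempty V] (hDrop : DropStmt) {D : Finset C} {F : Finset (Finset (Item V C))} {K h : ℕ}
    (hcnt : ∀ c ∈ D, h ≤ cnt F K c) (ee : Finset (Item V C) → Sym2 V)
    (hee : ∀ q ∈ F, (∃ c ∈ D, IsPiece K c q) → (Sum.inl (ee q) : Item V C) ∈ q) :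
    ∃ (yq : C → ℕ → Finset (Item V C)) (a b : C → ℕ → V),
      (∀ c ∈ D, ∀ j < h, yq c j ∈ F ∧ IsPiece K c (yq c j) ∧ ee (yq c j) = s(a c j, b c j) ∧
        a c j ≠ b c j ∧ IsPath K c (a c j) (b c j) ((yq c j).erase (Sum.inl s(a c j, b c j)))) ∧
      (∀ c ∈ D, ∀ i < h, ∀ j < h, yq c i = yq c j → i = j) := by
  classical
  have h1 : ∀ c : C, ∃ y : ℕ → Finset (Item V C), c ∈ D → (∀ j < h, y j ∈ F ∧ IsPiece K c (y j)) ∧
      ∀ i < h, ∀ j < h, y i = y j → i = j := by
    intro c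
    by_cases hc : c ∈ D
    · obtain ⟨f, hf1, hf2⟩ := enum_of_card (F.filter (fun p => IsPiece K c p)) h (by
        have := hcnt c hc
        rwa [cnt_eq] at this)
      exact ⟨f, fun _ => ⟨fun j hj => Finset.mem_filter.1 (hf1 j hj), hf2⟩⟩
    · exact ⟨fun _ => ∅, fun h => absurd h hc⟩
  choose yq hyq using h1
  have h2 : ∀ (c : C) (j : ℕ), ∃ ab : V × V, ee (yq c j) = s(ab.1, ab.2) := by
    intro c j
    induction ee (yq c j) using Sym2.inductionOn with
    | _ u v => exact ⟨(u, v), rfl⟩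
  choose ab hab using h2
  refine ⟨yq, fun c j => (ab c j).1, fun c j => (ab c j).2, ?_, ?_⟩
  · intro c hc j hj
    obtain ⟨h3, h4⟩ := (hyq c hc).1 j hj
    have h5 := hee _ h3 ⟨c, hc, h4⟩
    rw [hab c j] at h5
    obtain ⟨h6, h7⟩ := hDrop V C K c _ _ _ h4 h5
    exact ⟨h3, h4, hab c j, h6, h7⟩
  · intro c hc
    exact (hyq c hc).2

theorem PD_biUnion {D : Finset C} {Fc : C → Finset (Finset (Item V C))} (h1 : ∀ c ∈ D, PD (Fc c))
    (h2 : ∀ c ∈ D, ∀ c' ∈ D, c ≠ c' → Disjoint (un (Fc c)) (un (Fc c'))) : PD (D.biUnion Fc) := by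
  intro p hp q hq hpq
  rw [Finset.mem_biUnion] at hp hq
  obtain ⟨c, hc, hp⟩ := hp
  obtain ⟨c', hc', hq⟩ := hq
  by_cases hcc : c = c'
  · subst hcc
    exact h1 c hc p hp q hq hpq
  · exact Finset.disjoint_of_subset_left (subset_un hp)
      (Finset.disjoint_of_subset_right (subset_un hq) (h2 c hc c' hc' hcc))

theorem mem_un_biUnion {D : Finset C} {Fc : C → Finset (Finset (Item V C))} {i : Item V C} :
    i ∈ un (D.biUnion Fc) ↔ ∃ c ∈ D, i ∈ un (Fc c) := by
  constructor
  · intro h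
    obtain ⟨p, hp, hi⟩ := mem_un.1 h
    obtain ⟨c, hc, hp⟩ := Finset.mem_biUnion.1 hp
    exact ⟨c, hc, mem_un.2 ⟨p, hp, hi⟩⟩
  · rintro ⟨c, hc, h⟩
    obtain ⟨p, hp, hi⟩ := mem_un.1 h
    exact mem_un.2 ⟨p, Finset.mem_biUnion.2 ⟨c, hc, hp⟩, hi⟩

theorem cnt_biUnion {D : Finset C} {Fc : C → Finset (Finset (Item V C))}
    (h1 : ∀ c ∈ D, ∀ q ∈ Fc c, ∃ l, IsPiece l c q) {c : C} (hc : c ∈ D) (l : ℕ) :
    cnt (D.biUnion Fc) l c = cnt (Fc c) l c := by
  classical
  rw [cnt_eq, cnt_eq]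
  congr 1
  ext q
  rw [Finset.mem_filter, Finset.mem_filter, Finset.mem_biUnion]
  constructor
  · rintro ⟨⟨c', hc', hq⟩, hp⟩
    obtain ⟨l', h2⟩ := h1 c' hc' q hq
    obtain ⟨_, rfl⟩ := h2.uniq hp
    exact ⟨hq, hp⟩
  · rintro ⟨hq, hp⟩
    exact ⟨⟨c, hc, hq⟩, hp⟩

/-- closing the broken pieces by links: all the bookkeeping -/
theorem ca_long (hCyc : CycStmt) {D : Finset C} {F : Finset (Finset (Item V C))} {K h q L1 : ℕ}
    {e t nx : ℕ → ℕ} {Λ : Multiset ℕ}
    (hPD : PD F) (hFp : ∀ p ∈ F, ∃ l ∈ Icc 3 L1, ∃ c ∈ D, IsPiece l c p)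
    (he0 : e 0 = 0) (he1 : ∀ i < q, e i < e (i + 1)) (heq : e q = h)
    (hnx : ∀ i < q, ∀ j, e i ≤ j → j < e (i + 1) → nx j = (if j + 1 = e (i + 1) then e i else j + 1))
    (hΛ : (Multiset.range q).map (fun i => ∑ j ∈ Ico (e i) (e (i + 1)), (K + t j)) = Λ)
    {yq : C → ℕ → Finset (Item V C)} {a b : C → ℕ → V}
    (hy : ∀ c ∈ D, ∀ j < h, yq c j ∈ F ∧ IsPiece K c (yq c j) ∧
      IsPath K c (a c j) (b c j) ((yq c j).erase (Sum.inl s(a c j, b c j))) ∧
      (Sum.inl s(a c j, b c j) : Item V C) ∈ yq c j)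
    (hyi : ∀ c ∈ D, ∀ i < h, ∀ j < h, yq c i = yq c j → i = j)
    {g : C → ℕ → Finset (Item V C)}
    (hg : ∀ c ∈ D, ∀ j < h, IsLink (t j) c (b c j) (a c (nx j)) (g c j))
    (hgd : ∀ c ∈ D, ∀ j < h, ∀ c' ∈ D, ∀ j' < h, (c, j) ≠ (c', j') → Disjoint (g c j) (g c' j'))
    (hgF : ∀ c ∈ D, ∀ j < h, Disjoint (g c j) (un F)) :
    ∃ G : Finset (Finset (Item V C)), PD G ∧
      (∀ r ∈ G, ∃ l, ∃ c ∈ D, IsPiece l c r ∧ (l ∈ Icc 3 L1 ∨ l ∈ Λ)) ∧
      (∀ c ∈ D, ∀ l, cnt G l c + (if l = K then h else 0) = cnt F l c + Λ.count l) ∧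
      (∀ i, i ∈ un G ↔ (i ∈ un F ∧ ∀ c ∈ D, ∀ j < h, i ≠ Sum.inl s(a c j, b c j)) ∨
        ∃ c ∈ D, ∃ j < h, i ∈ g c j) := by
  classical
  -- the pieces of different (c, j)
  have hyne : ∀ c ∈ D, ∀ i < h, ∀ c' ∈ D, ∀ j < h, (c, i) ≠ (c', j) → yq c i ≠ yq c' j := by
    intro c hc i hi c' hc' j hj hne heq'
    have h1 := (hy c hc i hi).2.1
    have h2 := (hy c' hc' j hj).2.1
    rw [heq'] at h1
    obtain ⟨_, rfl⟩ := h1.uniq h2
    exact hne (by rw [hyi c hc i hi j hj heq'])
  have hydis : ∀ c ∈ D, ∀ i < h, ∀ c' ∈ D, ∀ j < h, (c, i) ≠ (c', j) →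
      Disjoint (yq c i) (yq c' j) := by
    intro c hc i hi c' hc' j hj hne
    exact hPD _ (hy c hc i hi).1 _ (hy c' hc' j hj).1 (hyne c hc i hi c' hc' j hj hne)
  -- cycles of the colour c
  have hF : ∀ c : C, ∃ Fc : Finset (Finset (Item V C)), c ∈ D → PD Fc ∧
      un Fc = (range h).biUnion (fun j => (yq c j).erase (Sum.inl s(a c j, b c j))) ∪
        (range h).biUnion (g c) ∧
      (∀ r ∈ Fc, ∃ l, IsPiece l c r) ∧ ∀ l, cnt Fc l c = Λ.count l := by
    intro c
    by_cases hc : c ∈ D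
    · have h1 := hCyc V C c h q e (a c) (b c) (fun _ => K) t
        (fun j => (yq c j).erase (Sum.inl s(a c j, b c j))) (g c) he0 he1 heq
        (fun j hj => (hy c hc j hj).2.2.1)
        (by
          intro i hi j hj1 hj2
          have hjh : j < h := by
            have hmono : ∀ k, i + 1 + k ≤ q → e (i + 1) ≤ e (i + 1 + k) := by
              intro k
              induction k with
              | zero => intro _; exact le_rfl
              | succ k ih =>
                intro hk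
                have h2 := ih (by omega)
                have h3 := he1 (i + 1 + k) (by omega)
                have h4 : i + 1 + (k + 1) = i + 1 + k + 1 := by ring
                rw [h4]; omega
            have h2 := hmono (q - (i + 1)) (by omega)
            have h3 : i + 1 + (q - (i + 1)) = q := by omega
            rw [h3, heq] at h2
            omega
          have h2 := hg c hc j hjh
          rw [hnx i hi j hj1 hj2] at h2
          exact h2)
        (by
          intro i hi j hj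
          refine Finset.disjoint_of_subset_left (Finset.erase_subset _ _) ?_
          exact (Finset.disjoint_of_subset_right (subset_un (hy c hc i hi).1) (hgF c hc j hj)).symm)
        (by
          intro i hi j hj hij
          have hne : (c, i) ≠ (c, j) := fun h' => hij (Prod.mk.inj h').2
          refine ⟨?_, hgd c hc i hi c hc j hj hne⟩
          exact Finset.disjoint_of_subset_left (Finset.erase_subset _ _)
            (Finset.disjoint_of_subset_right (Finset.erase_subset _ _)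
              (hydis c hc i hi c hc j hj hne)))
      rw [hΛ] at h1
      obtain ⟨Fc, h2, h3, h4, h5⟩ := h1
      exact ⟨Fc, fun _ => ⟨h2, h3, h4, h5⟩⟩
    · exact ⟨∅, fun h => absurd h hc⟩
  choose Fc hFc using hF
  set Br : Finset (Finset (Item V C)) := D.biUnion (fun c => (range h).image (yq c)) with hBr
  have memBr : ∀ r, r ∈ Br ↔ ∃ c ∈ D, ∃ j < h, yq c j = r := by
    intro r
    rw [hBr, Finset.mem_biUnion]
    constructor
    · rintro ⟨c, hc, h1⟩
      obtain ⟨j, hj, h2⟩ := Finset.mem_image.1 h1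
      exact ⟨c, hc, j, Finset.mem_range.1 hj, h2⟩
    · rintro ⟨c, hc, j, hj, h1⟩
      exact ⟨c, hc, Finset.mem_image.2 ⟨j, Finset.mem_range.2 hj, h1⟩⟩
  have hBrF : Br ⊆ F := by
    intro r hr
    obtain ⟨c, hc, j, hj, rfl⟩ := (memBr r).1 hr
    exact (hy c hc j hj).1
  have memFc : ∀ c ∈ D, ∀ i, i ∈ un (Fc c) ↔ (∃ j < h, i ∈ yq c j ∧ i ≠ Sum.inl s(a c j, b c j)) ∨
      ∃ j < h, i ∈ g c j := by
    intro c hc i
    rw [(hFc c hc).2.1, Finset.mem_union, Finset.mem_biUnion, Finset.mem_biUnion]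
    constructor
    · rintro (⟨j, hj, h1⟩ | ⟨j, hj, h1⟩)
      · rw [Finset.mem_erase] at h1
        exact Or.inl ⟨j, Finset.mem_range.1 hj, h1.2, h1.1⟩
      · exact Or.inr ⟨j, Finset.mem_range.1 hj, h1⟩
    · rintro (⟨j, hj, h1, h2⟩ | ⟨j, hj, h1⟩)
      · exact Or.inl ⟨j, Finset.mem_range.2 hj, Finset.mem_erase.2 ⟨h2, h1⟩⟩
      · exact Or.inr ⟨j, Finset.mem_range.2 hj, h1⟩
  have hFcd : ∀ c ∈ D, ∀ c' ∈ D, c ≠ c' → Disjoint (un (Fc c)) (un (Fc c')) := by
    intro c hc c' hc' hcc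
    rw [Finset.disjoint_left]
    intro i h1 h2
    rw [memFc c hc] at h1
    rw [memFc c' hc'] at h2
    rcases h1 with ⟨j, hj, h1, _⟩ | ⟨j, hj, h1⟩ <;> rcases h2 with ⟨j', hj', h2, _⟩ | ⟨j', hj', h2⟩
    · exact Finset.disjoint_left.1 (hydis c hc j hj c' hc' j' hj' (fun h' => hcc (Prod.mk.inj h').1)) h1 h2
    · exact Finset.disjoint_left.1 (hgF c' hc' j' hj') h2 (subset_un (hy c hc j hj).1 h1)
    · exact Finset.disjoint_left.1 (hgF c hc j hj) h1 (subset_un (hy c' hc' j' hj').1 h2)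
    · exact Finset.disjoint_left.1 (hgd c hc j hj c' hc' j' hj' (fun h' => hcc (Prod.mk.inj h').1)) h1 h2
  have hdis : Disjoint (un (F \ Br)) (un (D.biUnion Fc)) := by
    rw [Finset.disjoint_left]
    intro i h1 h2
    obtain ⟨r, hr, hir⟩ := mem_un.1 h1
    rw [Finset.mem_sdiff] at hr
    obtain ⟨c, hc, h3⟩ := mem_un_biUnion.1 h2
    rw [memFc c hc] at h3
    rcases h3 with ⟨j, hj, h3, _⟩ | ⟨j, hj, h3⟩
    · have hne : r ≠ yq c j := by
        rintro rfl
        exact hr.2 ((memBr _).2 ⟨c, hc, j, hj, rfl⟩)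
      exact Finset.disjoint_left.1 (hPD r hr.1 _ (hy c hc j hj).1 hne) hir h3
    · exact Finset.disjoint_left.1 (hgF c hc j hj) h3 (subset_un hr.1 hir)
  refine ⟨(F \ Br) ∪ D.biUnion Fc, ?_, ?_, ?_, ?_⟩
  · exact (hPD.subset Finset.sdiff_subset).union (PD_biUnion (fun c hc => (hFc c hc).1) hFcd) hdis
  · intro r hr
    rcases Finset.mem_union.1 hr with h1 | h1
    · obtain ⟨l, hl, c, hc, h2⟩ := hFp r (Finset.mem_sdiff.1 h1).1
      exact ⟨l, c, hc, h2, Or.inl hl⟩
    · obtain ⟨c, hc, h2⟩ := Finset.mem_biUnion.1 h1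
      obtain ⟨l, h3⟩ := (hFc c hc).2.2.1 r h2
      refine ⟨l, c, hc, h3, Or.inr ?_⟩
      have h4 := (hFc c hc).2.2.2 l
      rw [← Multiset.count_pos, ← h4, cnt_eq, Finset.card_pos]
      exact ⟨r, Finset.mem_filter.2 ⟨h2, h3⟩⟩
  · intro c hc l
    rw [cnt_union hdis, cnt_biUnion (fun c hc => (hFc c hc).2.2.1) hc, (hFc c hc).2.2.2 l]
    have h1 : cnt (F \ Br) l c + (if l = K then h else 0) = cnt F l c := by
      rw [cnt_eq, cnt_eq]
      have h2 : (Br.filter (fun r => IsPiece l c r)).card = if l = K then h else 0 := by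
        split_ifs with hlK
        · have h3 : Br.filter (fun r => IsPiece l c r) = (range h).image (yq c) := by
            ext r
            rw [Finset.mem_filter, memBr, Finset.mem_image]
            constructor
            · rintro ⟨⟨c', hc', j, hj, rfl⟩, h4⟩
              obtain ⟨_, rfl⟩ := h4.uniq (hy c' hc' j hj).2.1
              exact ⟨j, Finset.mem_range.2 hj, rfl⟩
            · rintro ⟨j, hj, rfl⟩
              have hj' := Finset.mem_range.1 hj
              refine ⟨⟨c, hc, j, hj', rfl⟩, ?_⟩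
              rw [hlK]
              exact (hy c hc j hj').2.1
          rw [h3, Finset.card_image_of_injOn, Finset.card_range]
          intro i hi j hj hij
          exact hyi c hc i (by simpa using hi) j (by simpa using hj) hij
        · rw [Finset.card_eq_zero, Finset.filter_eq_empty_iff]
          intro r hr h4
          obtain ⟨c', hc', j, hj, rfl⟩ := (memBr r).1 hr
          exact hlK ((h4.uniq (hy c' hc' j hj).2.1).1)
      have h3 : (F.filter (fun r => IsPiece l c r)) =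
          ((F \ Br).filter (fun r => IsPiece l c r)) ∪ (Br.filter (fun r => IsPiece l c r)) := by
        rw [← Finset.filter_union, Finset.sdiff_union_of_subset hBrF]
      have h4 : Disjoint ((F \ Br).filter (fun r => IsPiece l c r)) (Br.filter (fun r => IsPiece l c r)) :=
        Finset.disjoint_filter_filter Finset.sdiff_disjoint
      rw [h3, Finset.card_union_of_disjoint h4, h2]
    omega
  · intro i
    rw [un_union, Finset.mem_union, mem_un_biUnion]
    constructor
    · rintro (h1 | ⟨c, hc, h1⟩)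
      · left
        obtain ⟨r, hr, hir⟩ := mem_un.1 h1
        rw [Finset.mem_sdiff] at hr
        refine ⟨subset_un hr.1 hir, ?_⟩
        intro c hc j hj hi
        have hne : r ≠ yq c j := by
          rintro rfl
          exact hr.2 ((memBr _).2 ⟨c, hc, j, hj, rfl⟩)
        refine Finset.disjoint_left.1 (hPD r hr.1 _ (hy c hc j hj).1 hne) hir ?_
        rw [hi]; exact (hy c hc j hj).2.2.2
      · rw [memFc c hc] at h1
        rcases h1 with ⟨j, hj, h1, h2⟩ | ⟨j, hj, h1⟩
        · left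
          refine ⟨subset_un (hy c hc j hj).1 h1, ?_⟩
          intro c' hc' j' hj' hi
          by_cases hcj : (c, j) = (c', j')
          · obtain ⟨rfl, rfl⟩ := Prod.mk.inj hcj
            exact h2 hi
          · refine Finset.disjoint_left.1 (hydis c hc j hj c' hc' j' hj' hcj) h1 ?_
            rw [hi]; exact (hy c' hc' j' hj').2.2.2
        · exact Or.inr ⟨c, hc, j, hj, h1⟩
    · rintro (⟨h1, h2⟩ | ⟨c, hc, j, hj, h1⟩)
      · obtain ⟨r, hr, hir⟩ := mem_un.1 h1
        by_cases hrB : r ∈ Br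
        · obtain ⟨c, hc, j, hj, rfl⟩ := (memBr r).1 hrB
          refine Or.inr ⟨c, hc, ?_⟩
          rw [memFc c hc]
          exact Or.inl ⟨j, hj, hir, h2 c hc j hj⟩
        · exact Or.inl (mem_un.2 ⟨r, Finset.mem_sdiff.2 ⟨hr, hrB⟩, hir⟩)
      · refine Or.inr ⟨c, hc, ?_⟩
        rw [memFc c hc]
        exact Or.inr ⟨j, hj, h1⟩

end

end Pool.Agent.OBX
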