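import Mathlib
import Pool.Agent.OBW.Defs
import Pool.Agent.OBW.Stmts
import Pool.Agent.OBW.Basic
import Pool.Agent.OBW.CdlA
import Pool.Agent.OBW.CdlB

set_option autoImplicit false
set_option linter.unusedSectionVars false
set_option linter.unusedVariables false

/-! Case A: the final step (LINK) for an arbitrary family `G` of closed pieces. -/

namespace Pool.Agent.OBX

open Finset Pool.Agent.OBW

section
variable {V C : Type} [Fintype V] [DecidableEq V] [Fintype C] [DecidableEq C]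

/-- from a family `G` whose complement is light outside the reserve to the end of the stage -/
theorem ca_fin {δ ε η ξ μ p ζ θ γ K : ℝ} {Lm ls : ℕ} {U U' U'' : Finset V} {D D' D'' : Finset C}
    {S R W Lo : Finset (Item V C)} {N : ℕ → ℕ} {G : Finset (Finset (Item V C))}
    (hε : 0 < ε) (hμ0 : 0 < μ) (hμ : μ ≤ 1 / 2000) (hμε : μ ≤ ε / 16) (hη0 : 0 ≤ η) (hη : η ≤ ε / 16)
    (hp : 0 < p) (hp1 : p ≤ 1) (hθ : 0 ≤ θ) (hγ : 0 ≤ γ) (hζ : 0 ≤ ζ) (hK : 0 < K)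
    (hτ : (θ + γ) * 2 / μ + ζ ≤ p ^ 2 * ε / 200) (hm : 2 ≤ μ * U.card)
    (hload : (K * p + θ) * 2 / μ ≤ η * μ / 2)
    (hSt : Stage δ ε η ξ μ U U' D D' S)
    (hbal : ∀ v, (nb S v).card = 2 * (cl S v).card)
    (hU'' : U'' ⊆ U') (hD'' : D'' ⊆ D') (hU''c : (U''.card : ℝ) ≤ μ * U'.card)
    (hRes : Res p ζ μ U U' U'' D D' D'' S R)
    (hls : 3 ≤ ls) (hlsL : ls ≤ Lm)
    (hdiv : ∀ c ∈ D, ∃ k : ℕ, (vt S c).card = ls * k + ∑ l ∈ (Icc 3 Lm).erase ls, l * N l)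
    (hGsub : un G ⊆ S) (hGPD : PD G) (hGp : ∀ q ∈ G, ∃ l ∈ Icc 3 Lm, ∃ c ∈ D, IsPiece l c q)
    (hcntG : ∀ c ∈ D, ∀ l ∈ (Icc 3 Lm).erase ls, cnt G l c = N l)
    (hG1 : ∀ i ∈ un G, (i ∈ R ∨ inn U' D' i) → i ∈ W)
    (hG2 : ∀ i ∈ S, i ∉ R → ¬ inn U' D' i → i ∉ un G → i ∈ Lo)
    (hWv : ∀ v ∈ U, ((nb W v).card : ℝ) ≤ θ * U.card ∧ ((cl W v).card : ℝ) ≤ θ * U.card)
    (hWc : ∀ c ∈ D, ((vt W c).card : ℝ) ≤ θ * U.card)
    (hLv : ∀ v ∈ U, ((nb Lo v).card : ℝ) ≤ γ * U.card ∧ ((cl Lo v).card : ℝ) ≤ γ * U.card)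
    (hLc : ∀ c ∈ D, ((vt Lo c).card : ℝ) ≤ γ * U.card)
    (hX : ∀ x ∈ U \ U', ∀ y ∈ U \ U', (Sum.inl s(x, y) : Item V C) ∈ S → Sum.inl s(x, y) ∈ un G)
    (hXc : ∀ x ∈ U \ U', ∀ c ∈ D \ D', (Sum.inr (x, c) : Item V C) ∈ S → Sum.inr (x, c) ∈ un G)
    (hG3 : ∀ u ∈ U'', ∀ v ∈ U'', (Sum.inl s(u, v) : Item V C) ∉ un G)
    (hG4 : ∀ u ∈ U'', ∀ c ∈ D'', (Sum.inr (u, c) : Item V C) ∉ un G)
    (hlink : ∀ T : Finset (Item V C), LinkHyp p (ε / 2) μ ls U U' U'' D D' D'' T →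
      LinkConc K p ls U U' U'' D D' D'' T) :
    ∃ F : Finset (Finset (Item V C)),
        (∀ p ∈ F, p ⊆ S ∧ ∃ l ∈ Icc 3 Lm, ∃ c ∈ D, IsPiece l c p) ∧ PD F ∧
        (∀ c ∈ D, ∀ l ∈ (Icc 3 Lm).erase ls, cnt F l c = N l) ∧
        Inside U' D' (S \ un F) ∧
        (∀ v ∈ U', ((nb (un F) v ∩ U').card : ℝ) ≤ η * μ * U'.card / 2) ∧
        (∀ v ∈ U', ((cl (un F) v ∩ D').card : ℝ) ≤ η * μ * U'.card / 2) ∧
        (∀ c ∈ D', ((vt (un F) c ∩ U').card : ℝ) ≤ η * μ * U'.card / 2) ∧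
        (∀ u ∈ U'', ∀ v ∈ U'', (Sum.inl s(u, v) : Item V C) ∉ un F) ∧
        (∀ u ∈ U'', ∀ c ∈ D'', (Sum.inr (u, c) : Item V C) ∉ un F) := by
  classical
  have hGp' : ∀ q ∈ G, ∃ l ∈ Icc 3 Lm, ∃ c, IsPiece l c q := by
    intro q hq
    obtain ⟨l, hl, c, _, h⟩ := hGp q hq
    exact ⟨l, hl, c, h⟩
  have hGp'' : ∀ q ∈ G, ∃ l c, IsPiece l c q := by
    intro q hq
    obtain ⟨l, hl, c, _, h⟩ := hGp q hq
    exact ⟨l, c, h⟩
  set T : Finset (Item V C) := S \ un G with hT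
  have hTS : T ⊆ S := Finset.sdiff_subset
  have hLH : LinkHyp p (ε / 2) μ ls U U' U'' D D' D'' T := by
    refine linkHyp_of (W := W) (Lo := Lo) hε hμ0 hμ hμε hη0 hη hp hp1 hθ hγ hζ hτ hm
      hSt hU'' hD'' hU''c hRes hTS ?_ ?_ hWv hWc hLv hLc ?_ ?_ ?_ ?_
    · intro i hi
      rw [hT, Finset.mem_sdiff] at hi
      by_cases h1 : i ∈ R
      · exact Or.inl h1
      by_cases h2 : inn U' D' i
      · exact Or.inr (Or.inl h2)
      · exact Or.inr (Or.inr (hG2 i hi.1 h1 h2 hi.2))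
    · intro i hi hW
      rw [hT, Finset.mem_sdiff]
      rcases hi with h | h
      · exact ⟨hRes.sub h, fun h0 => hW (hG1 i h0 (Or.inl h))⟩
      · exact ⟨h.1, fun h0 => hW (hG1 i h0 (Or.inr h.2))⟩
    · intro x hx y hy hi
      rw [hT, Finset.mem_sdiff] at hi
      exact hi.2 (hX x hx y hy hi.1)
    · intro x hx c hc hi
      rw [hT, Finset.mem_sdiff] at hi
      exact hi.2 (hXc x hx c hc hi.1)
    · intro x hx
      have h1 := nb_sdiff_card hGsub x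
      have h2 := cl_sdiff_card hGsub x
      have h3 := un_bal hGPD hGp'' x
      have h4 := hbal x
      rw [← hT] at h1 h2
      omega
    · intro c hc
      have hcD := (Finset.mem_sdiff.1 hc).1
      have h1 := vt_sdiff_card hGsub c
      rw [← hT] at h1
      obtain ⟨k, hk⟩ := hdiv c hcD
      have h2 := vt_un_card_cnt hGPD hGp' c
      have hin : ls ∈ Icc 3 Lm := Finset.mem_Icc.2 ⟨hls, hlsL⟩
      rw [← Finset.add_sum_erase _ _ hin] at h2
      have h3 : ∑ l ∈ (Icc 3 Lm).erase ls, l * cnt G l c = ∑ l ∈ (Icc 3 Lm).erase ls, l * N l :=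
        Finset.sum_congr rfl fun l hl => by rw [hcntG c hcD l hl]
      rw [h3] at h2
      have h4 : (vt T c).card + ls * cnt G ls c = ls * k := by omega
      exact (Nat.dvd_add_left (Dvd.intro _ rfl)).1 (h4 ▸ Dvd.intro _ rfl)
  obtain ⟨F2, h21, h22, h23, h24, h25, h26, h27, h28⟩ := hlink T hLH
  have hF2sub : un F2 ⊆ T := un_subset fun q hq => (h21 q hq).1
  have hd2 : Disjoint (un G) (un F2) := by
    rw [Finset.disjoint_left]
    intro i h1 h2
    exact (Finset.mem_sdiff.1 (hT ▸ hF2sub h2)).2 h1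
  have hFun : un (G ∪ F2) = un G ∪ un F2 := un_union G F2
  have hdiff : S \ un (G ∪ F2) = T \ un F2 := by
    rw [hFun, hT]; ext i; simp only [Finset.mem_sdiff, Finset.mem_union]; tauto
  -- loads
  set m : ℝ := (U.card : ℝ) with hmdef
  set M : ℝ := (U'.card : ℝ) with hMdef
  have hMlo : μ * m - 1 ≤ M := hSt.Ulo
  have hM1 : 1 ≤ M := by linarith
  have hmM : m ≤ 2 * M / μ := by
    rw [le_div_iff₀ hμ0]; linarith
  have hKp : 0 ≤ K * p + θ := by positivity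
  have hloadm : K * p * m + θ * m ≤ η * μ * M / 2 := by
    have h1 : (K * p + θ) * m ≤ (K * p + θ) * (2 * M / μ) := mul_le_mul_of_nonneg_left hmM hKp
    have h2 : (K * p + θ) * (2 * M / μ) = ((K * p + θ) * 2 / μ) * M := by ring
    have h3 : ((K * p + θ) * 2 / μ) * M ≤ (η * μ / 2) * M :=
      mul_le_mul_of_nonneg_right hload (by linarith)
    have h4 : (η * μ / 2) * M = η * μ * M / 2 := by ring
    have h5 : (K * p + θ) * m = K * p * m + θ * m := by ring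
    linarith
  have hUsub := hSt.subU
  have hDsub := hSt.subD
  refine ⟨G ∪ F2, ?_, hGPD.union h22 hd2, ?_, ?_, ?_, ?_, ?_, ?_, ?_⟩
  · intro q hq
    rcases Finset.mem_union.1 hq with h | h
    · exact ⟨(subset_un h).trans hGsub, hGp q h⟩
    · obtain ⟨h1, c, hc, h2⟩ := h21 q h
      exact ⟨h1.trans hTS, ls, Finset.mem_Icc.2 ⟨hls, hlsL⟩, c, hc, h2⟩
  · intro c hc l hl
    rw [cnt_union hd2, hcntG c hc l hl]
    have : cnt F2 l c = 0 := by
      rw [cnt_eq, Finset.card_eq_zero, Finset.filter_eq_empty_iff]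
      intro q hq hq'
      obtain ⟨_, c', _, h2⟩ := h21 q hq
      exact (Finset.ne_of_mem_erase hl) (hq'.uniq h2).1
    omega
  · rw [hdiff]; exact h23
  · intro v hv
    have h0 : nb (un (G ∪ F2)) v ∩ U' ⊆ nb W v ∪ (nb (un F2) v ∩ U') := by
      intro u hu
      rw [Finset.mem_inter, hFun, nb_union, Finset.mem_union] at hu
      rw [Finset.mem_union, Finset.mem_inter]
      rcases hu.1 with h | h
      · left
        rw [mem_nb] at h ⊢
        exact hG1 _ h (Or.inr (inn_inl.2 ⟨hv, hu.2⟩))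
      · exact Or.inr ⟨h, hu.2⟩
    have h1 := card_le_add2 h0
    have h2 := (hWv v (hUsub hv)).1
    have h3 := h24 v hv
    linarith
  · intro v hv
    have h0 : cl (un (G ∪ F2)) v ∩ D' ⊆ cl W v ∪ (cl (un F2) v ∩ D') := by
      intro u hu
      rw [Finset.mem_inter, hFun, cl_union, Finset.mem_union] at hu
      rw [Finset.mem_union, Finset.mem_inter]
      rcases hu.1 with h | h
      · left
        rw [mem_cl] at h ⊢
        exact hG1 _ h (Or.inr (inn_inr.2 ⟨hv, hu.2⟩))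
      · exact Or.inr ⟨h, hu.2⟩
    have h1 := card_le_add2 h0
    have h2 := (hWv v (hUsub hv)).2
    have h3 := h25 v hv
    linarith
  · intro c hc
    have h0 : vt (un (G ∪ F2)) c ∩ U' ⊆ vt W c ∪ (vt (un F2) c ∩ U') := by
      intro u hu
      rw [Finset.mem_inter, hFun, vt_union, Finset.mem_union] at hu
      rw [Finset.mem_union, Finset.mem_inter]
      rcases hu.1 with h | h
      · left
        rw [mem_vt] at h ⊢
        exact hG1 _ h (Or.inr (inn_inr.2 ⟨hu.2, hc⟩))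
      · exact Or.inr ⟨h, hu.2⟩
    have h1 := card_le_add2 h0
    have h2 := hWc c (hDsub hc)
    have h3 := h26 c hc
    linarith
  · intro u hu v hv hmem
    rw [hFun, Finset.mem_union] at hmem
    rcases hmem with h | h
    · exact hG3 u hu v hv h
    · exact h27 u hu v hv h
  · intro u hu c hc hmem
    rw [hFun, Finset.mem_union] at hmem
    rcases hmem with h | h
    · exact hG4 u hu c hc h
    · exact h28 u hu c hc h

end

end Pool.Agent.OBX
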