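import Mathlib
import Pool.Agent.OBW.Defs
import Pool.Agent.OBW.Stmts
import Pool.Agent.OBW.Basic
import Pool.Agent.OBW.CdlA
import Pool.Agent.OBW.CdlB
import Pool.Agent.OBX.Defs
import Pool.Agent.OBX.Stmts
import Pool.Agent.OBX.CaFin
import Pool.Agent.OBX.CaBrk

set_option autoImplicit false
set_option linter.unusedSectionVars false
set_option linter.unusedVariables false

/-! Case A: assembly of the families `F0`, `Fs`, `F12` and the links. -/

namespace Pool.Agent.OBX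

open Finset Pool.Agent.OBW

section
variable {V C : Type} [Fintype V] [DecidableEq V] [Fintype C] [DecidableEq C]

theorem ca_insOK_inn {U' U'' : Finset V} {D' : Finset C} {S : Finset (Item V C)} {i : Item V C}
    (h : insOK U' U'' D' S i) : inn U' D' i := by
  rcases h.2 with ⟨u, hu, v, hv, rfl⟩ | ⟨u, hu, c, hc, rfl⟩
  · exact inn_inl.2 ⟨hu, (Finset.mem_sdiff.1 hv).1⟩
  · exact inn_inr.2 ⟨(Finset.mem_sdiff.1 hu).1, hc⟩

theorem ca_insOK_not2 {U' U'' : Finset V} {D' : Finset C} {S : Finset (Item V C)} {u v : V}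
    (h : insOK U' U'' D' S (Sum.inl s(u, v))) (hu : u ∈ U'') (hv : v ∈ U'') : False := by
  rcases h.2 with ⟨a, ha, b, hb, he⟩ | ⟨a, ha, b, hb, he⟩
  · have he' := Sum.inl.inj he
    rw [Sym2.eq_iff] at he'
    have hb' := (Finset.mem_sdiff.1 hb).2
    rcases he' with ⟨_, rfl⟩ | ⟨rfl, _⟩
    · exact hb' hv
    · exact hb' hu
  · simp at he

theorem ca_insOK_nott {U' U'' : Finset V} {D' : Finset C} {S : Finset (Item V C)} {u : V} {c : C}
    (h : insOK U' U'' D' S (Sum.inr (u, c))) (hu : u ∈ U'') : False := by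
  rcases h.2 with ⟨a, ha, b, hb, he⟩ | ⟨a, ha, b, hb, he⟩
  · simp at he
  · have he' := Sum.inr.inj he
    rw [Prod.mk.injEq] at he'
    obtain ⟨rfl, rfl⟩ := he'
    exact (Finset.mem_sdiff.1 ha).2 hu

/-- the leftover after breaking -/
noncomputable def loS (U' : Finset V) (D' : Finset C) (S R : Finset (Item V C))
    (F0 : Finset (Finset (Item V C))) (D : Finset C) (h : ℕ) (a b : C → ℕ → V) : Finset (Item V C) :=
  @Finset.filter (Item V C) (fun i => i ∉ un F0 ∨ ∃ c ∈ D, ∃ j < h, i = Sum.inl s(a c j, b c j))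
    (Classical.decPred _) (starS U' D' S R)

theorem mem_loS {U' : Finset V} {D' : Finset C} {S R : Finset (Item V C)}
    {F0 : Finset (Finset (Item V C))} {D : Finset C} {h : ℕ} {a b : C → ℕ → V} {i : Item V C} :
    i ∈ loS U' D' S R F0 D h a b ↔ i ∈ starS U' D' S R ∧
      (i ∉ un F0 ∨ ∃ c ∈ D, ∃ j < h, i = Sum.inl s(a c j, b c j)) := by
  unfold loS
  simp only [Finset.mem_filter]

theorem ca_asm (hCyc : CycStmt) {δ ε η ξ μ p ζ θ γ Kl : ℝ} {L L1 K h q ls : ℕ} {e t nx : ℕ → ℕ}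
    {Λ : Multiset ℕ} {U U' U'' : Finset V} {D D' D'' : Finset C}
    {S R Lk : Finset (Item V C)} {N : ℕ → ℕ} {F0 Fs F12 : Finset (Finset (Item V C))}
    (hε : 0 < ε) (hμ0 : 0 < μ) (hμ : μ ≤ 1 / 2000) (hμε : μ ≤ ε / 16) (hη0 : 0 ≤ η) (hη : η ≤ ε / 16)
    (hp : 0 < p) (hp1 : p ≤ 1) (hθ : 0 ≤ θ) (hγ : 0 ≤ γ) (hζ : 0 ≤ ζ) (hKl : 0 < Kl)
    (hτ : (3 * θ + γ) * 2 / μ + ζ ≤ p ^ 2 * ε / 200) (hm : 2 ≤ μ * U.card)
    (hload : (Kl * p + 3 * θ) * 2 / μ ≤ η * μ / 2)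
    (hSt : Stage δ ε η ξ μ U U' D D' S)
    (hbal : ∀ v, (nb S v).card = 2 * (cl S v).card)
    (hU'' : U'' ⊆ U') (hD'' : D'' ⊆ D') (hU''c : (U''.card : ℝ) ≤ μ * U'.card)
    (hRes : Res p ζ μ U U' U'' D D' D'' S R)
    (hls : 3 ≤ ls) (hlsL : ls ≤ L) (hLK : L < K) (hKL1 : K ≤ L1) (hL1 : L1 ≤ U.card)
    (hdiv : ∀ c ∈ D, ∃ k : ℕ, (vt S c).card = ls * k + ∑ l ∈ (Icc 3 U.card).erase ls, l * N l)
    -- the arrangement
    (he0 : e 0 = 0) (he1 : ∀ i < q, e i < e (i + 1)) (heq : e q = h)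
    (hnx : ∀ i < q, ∀ j, e i ≤ j → j < e (i + 1) → nx j = (if j + 1 = e (i + 1) then e i else j + 1))
    (hΛ : (Multiset.range q).map (fun i => ∑ j ∈ Ico (e i) (e (i + 1)), (K + t j)) = Λ)
    (hΛc : ∀ l, Λ.count l = if l ∈ Ioc L1 U.card then N l else 0)
    -- F0
    (hF0 : ∀ r ∈ F0, r ⊆ starS U' D' S R ∧ ∃ l ∈ Icc 3 L1, ∃ c ∈ D, IsPiece l c r) (hF0PD : PD F0)
    -- Fs
    (hFs : ∀ r ∈ Fs, (∀ i ∈ r, i ∈ R ∨ insOK U' U'' D' S i) ∧ ∃ l ∈ Icc 3 L1, ∃ c ∈ D, IsPiece l c r)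
    (hFsPD : PD Fs)
    (hFsU : ∀ r ∈ Fs, ∀ u v, (Sum.inl s(u, v) : Item V C) ∈ r → u ∈ U' ∧ v ∈ U')
    (hcnt : ∀ c ∈ D, ∀ l ∈ (Icc 3 L1).erase ls,
      cnt F0 l c + cnt Fs l c = if l = K then N K + h else N l)
    -- broken pieces
    {yq : C → ℕ → Finset (Item V C)} {a b : C → ℕ → V}
    (hy : ∀ c ∈ D, ∀ j < h, yq c j ∈ F0 ∪ Fs ∧ IsPiece K c (yq c j) ∧
      IsPath K c (a c j) (b c j) ((yq c j).erase (Sum.inl s(a c j, b c j))) ∧
      (Sum.inl s(a c j, b c j) : Item V C) ∈ yq c j)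
    (hyi : ∀ c ∈ D, ∀ i < h, ∀ j < h, yq c i = yq c j → i = j)
    -- F12
    (hF12 : ∀ r ∈ F12, (∀ i ∈ r, i ∈ loS U' D' S R F0 D h a b ∨ i ∈ R ∨ insOK U' U'' D' S i) ∧
      ∃ l ∈ Icc 3 L, ∃ c ∈ D, IsPiece l c r) (hF12PD : PD F12)
    (hF12d : Disjoint (un F12) (un Fs))
    (hF12c : ∀ c ∈ D, ∀ l ∈ (Icc 3 L).erase ls, cnt F12 l c = 0)
    (hX : ∀ x ∈ U \ U', ∀ y ∈ U \ U', (Sum.inl s(x, y) : Item V C) ∈ loS U' D' S R F0 D h a b →
      Sum.inl s(x, y) ∈ un F12)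
    (hXc : ∀ x ∈ U \ U', ∀ c ∈ D \ D', (Sum.inr (x, c) : Item V C) ∈ loS U' D' S R F0 D h a b →
      Sum.inr (x, c) ∈ un F12)
    -- links
    {g : C → ℕ → Finset (Item V C)}
    (hg : ∀ c ∈ D, ∀ j < h, IsLink (t j) c (b c j) (a c (nx j)) (g c j))
    (hgd : ∀ c ∈ D, ∀ j < h, ∀ c' ∈ D, ∀ j' < h, (c, j) ≠ (c', j') → Disjoint (g c j) (g c' j'))
    (hgi : ∀ c ∈ D, ∀ j < h, ∀ i ∈ g c j, (i ∈ R ∨ insOK U' U'' D' S i) ∧ i ∉ un Fs ∧ i ∉ un F12)
    (hgL : ∀ c ∈ D, ∀ j < h, g c j ⊆ Lk)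
    -- loads
    (hWs : ∀ v, ((nb (un Fs) v).card : ℝ) ≤ θ * U.card ∧ ((cl (un Fs) v).card : ℝ) ≤ θ * U.card)
    (hWsc : ∀ c, ((vt (un Fs) c).card : ℝ) ≤ θ * U.card)
    (hW12 : ∀ v, ((nb (un F12) v).card : ℝ) ≤ θ * U.card ∧ ((cl (un F12) v).card : ℝ) ≤ θ * U.card)
    (hW12c : ∀ c, ((vt (un F12) c).card : ℝ) ≤ θ * U.card)
    (hWL : ∀ v, ((nb Lk v).card : ℝ) ≤ θ * U.card ∧ ((cl Lk v).card : ℝ) ≤ θ * U.card)
    (hWLc : ∀ c, ((vt Lk c).card : ℝ) ≤ θ * U.card)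
    (hLv : ∀ v ∈ U, ((nb (loS U' D' S R F0 D h a b) v).card : ℝ) ≤ γ * U.card ∧
      ((cl (loS U' D' S R F0 D h a b) v).card : ℝ) ≤ γ * U.card)
    (hLc : ∀ c ∈ D, ((vt (loS U' D' S R F0 D h a b) c).card : ℝ) ≤ γ * U.card)
    (hlink : ∀ T : Finset (Item V C), LinkHyp p (ε / 2) μ ls U U' U'' D D' D'' T →
      LinkConc Kl p ls U U' U'' D D' D'' T) :
    ∃ F : Finset (Finset (Item V C)),
        (∀ p ∈ F, p ⊆ S ∧ ∃ l ∈ Icc 3 U.card, ∃ c ∈ D, IsPiece l c p) ∧ PD F ∧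
        (∀ c ∈ D, ∀ l ∈ (Icc 3 U.card).erase ls, cnt F l c = N l) ∧
        Inside U' D' (S \ un F) ∧
        (∀ v ∈ U', ((nb (un F) v ∩ U').card : ℝ) ≤ η * μ * U'.card / 2) ∧
        (∀ v ∈ U', ((cl (un F) v ∩ D').card : ℝ) ≤ η * μ * U'.card / 2) ∧
        (∀ c ∈ D', ((vt (un F) c ∩ U').card : ℝ) ≤ η * μ * U'.card / 2) ∧
        (∀ u ∈ U'', ∀ v ∈ U'', (Sum.inl s(u, v) : Item V C) ∉ un F) ∧
        (∀ u ∈ U'', ∀ c ∈ D'', (Sum.inr (u, c) : Item V C) ∉ un F) := by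
  classical
  have hF0s : un F0 ⊆ starS U' D' S R := un_subset fun r hr => (hF0 r hr).1
  have hFsi : ∀ i ∈ un Fs, i ∈ R ∨ insOK U' U'' D' S i := by
    intro i hi
    obtain ⟨r, hr, hir⟩ := mem_un.1 hi
    exact (hFs r hr).1 i hir
  have hstar_not : ∀ i, i ∈ starS U' D' S R → ¬ (i ∈ R ∨ insOK U' U'' D' S i) := by
    intro i hi h'
    rcases h' with h' | h'
    · exact (mem_starS.1 hi).2.1 h'
    · exact (mem_starS.1 hi).2.2 (ca_insOK_inn h')
  have hd0s : Disjoint (un F0) (un Fs) := by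
    rw [Finset.disjoint_left]
    intro i h1 h2
    exact hstar_not i (hF0s h1) (hFsi i h2)
  have hFPD : PD (F0 ∪ Fs) := hF0PD.union hFsPD hd0s
  have hFp : ∀ r ∈ F0 ∪ Fs, ∃ l ∈ Icc 3 L1, ∃ c ∈ D, IsPiece l c r := by
    intro r hr
    rcases Finset.mem_union.1 hr with h' | h'
    · exact (hF0 r h').2
    · exact (hFs r h').2
  have hFun : un (F0 ∪ Fs) = un F0 ∪ un Fs := un_union _ _
  obtain ⟨G, hGPD, hGp, hGcnt, hGun⟩ := ca_long hCyc (F := F0 ∪ Fs) (L1 := L1) hFPD hFp he0 he1 heq hnx hΛ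
    hy hyi hg hgd (by
      intro c hc j hj
      rw [Finset.disjoint_left]
      intro i h1 h2
      obtain ⟨h3, h4, h5⟩ := hgi c hc j hj i h1
      rw [hFun, Finset.mem_union] at h2
      rcases h2 with h2 | h2
      · exact hstar_not i (hF0s h2) h3
      · exact h4 h2)
  -- the edge removed from a broken piece of Fs is inside U'
  have hrel : ∀ c ∈ D, ∀ j < h, (Sum.inl s(a c j, b c j) : Item V C) ∈ starS U' D' S R →
      (Sum.inl s(a c j, b c j) : Item V C) ∈ loS U' D' S R F0 D h a b := by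
    intro c hc j hj hi
    exact mem_loS.2 ⟨hi, Or.inr ⟨c, hc, j, hj, rfl⟩⟩
  have hins := hSt.ins
  have hloS : ∀ i, i ∈ loS U' D' S R F0 D h a b → i ∈ starS U' D' S R := fun i hi => (mem_loS.1 hi).1
  have hSsub : ∀ i, i ∈ starS U' D' S R → i ∈ S := fun i hi => (mem_starS.1 hi).1
  have hRokS : ∀ i, (i ∈ R ∨ insOK U' U'' D' S i) → i ∈ S := by
    rintro i (h' | h')
    · exact hRes.sub h'
    · exact h'.1
  have hF12i : ∀ i ∈ un F12, i ∈ loS U' D' S R F0 D h a b ∨ i ∈ R ∨ insOK U' U'' D' S i := by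
    intro i hi
    obtain ⟨r, hr, hir⟩ := mem_un.1 hi
    exact (hF12 r hr).1 i hir
  have hdG12 : Disjoint (un G) (un F12) := by
    rw [Finset.disjoint_left]
    intro i h1 h2
    rcases (hGun i).1 h1 with ⟨h3, h4⟩ | ⟨c, hc, j, hj, h3⟩
    · rw [hFun, Finset.mem_union] at h3
      rcases h3 with h3 | h3
      · rcases hF12i i h2 with h5 | h5
        · rcases (mem_loS.1 h5).2 with h6 | ⟨c, hc, j, hj, h6⟩
          · exact h6 h3
          · exact h4 c hc j hj h6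
        · exact hstar_not i (hF0s h3) h5
      · exact Finset.disjoint_left.1 hF12d h2 h3
    · exact (hgi c hc j hj i h3).2.2 h2
  have hunGF : un (G ∪ F12) = un G ∪ un F12 := un_union _ _
  have hF12l : ∀ r ∈ F12, ∃ c ∈ D, IsPiece ls c r := by
    intro r hr
    obtain ⟨l, hl, c, hc, h1⟩ := (hF12 r hr).2
    by_cases hlls : l = ls
    · subst hlls; exact ⟨c, hc, h1⟩
    · exfalso
      have h2 := hF12c c hc l (Finset.mem_erase.2 ⟨hlls, hl⟩)
      rw [cnt_eq, Finset.card_eq_zero, Finset.filter_eq_empty_iff] at h2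
      exact h2 hr h1
  have hW0 : ∀ i ∈ un (G ∪ F12), (i ∈ R ∨ inn U' D' i) → i ∈ un Fs ∪ un F12 ∪ Lk := by
    intro i hi hRi
    rw [hunGF, Finset.mem_union] at hi
    rw [Finset.mem_union, Finset.mem_union]
    rcases hi with hi | hi
    · rcases (hGun i).1 hi with ⟨h3, h4⟩ | ⟨c, hc, j, hj, h3⟩
      · rw [hFun, Finset.mem_union] at h3
        rcases h3 with h3 | h3
        · exfalso
          have h5 := mem_starS.1 (hF0s h3)
          rcases hRi with h6 | h6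
          · exact h5.2.1 h6
          · exact h5.2.2 h6
        · exact Or.inl (Or.inl h3)
      · exact Or.inr (hgL c hc j hj h3)
    · exact Or.inl (Or.inr hi)
  refine ca_fin (Lm := U.card) (W := un Fs ∪ un F12 ∪ Lk) (Lo := loS U' D' S R F0 D h a b)
    (θ := 3 * θ) (γ := γ) (G := G ∪ F12)
    hε hμ0 hμ hμε hη0 hη hp hp1 (by positivity) hγ hζ hKl hτ hm hload hSt hbal hU'' hD'' hU''c hRes hls
    (by omega) hdiv ?_ (hGPD.union hF12PD hdG12) ?_ ?_ hW0 ?_ ?_ ?_ hLv hLc ?_ ?_ ?_ ?_ hlink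
  · -- un ⊆ S
    rw [hunGF]
    intro i hi
    rcases Finset.mem_union.1 hi with hi | hi
    · rcases (hGun i).1 hi with ⟨h3, h4⟩ | ⟨c, hc, j, hj, h3⟩
      · rw [hFun, Finset.mem_union] at h3
        rcases h3 with h3 | h3
        · exact hSsub i (hF0s h3)
        · exact hRokS i (hFsi i h3)
      · exact hRokS i (hgi c hc j hj i h3).1
    · rcases hF12i i hi with h5 | h5
      · exact hSsub i (hloS i h5)
      · exact hRokS i h5
  · -- lengths
    intro r hr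
    rcases Finset.mem_union.1 hr with hr | hr
    · obtain ⟨l, c, hc, h1, h2⟩ := hGp r hr
      refine ⟨l, ?_, c, hc, h1⟩
      rcases h2 with h2 | h2
      · exact Finset.mem_Icc.2 ⟨(Finset.mem_Icc.1 h2).1, (Finset.mem_Icc.1 h2).2.trans hL1⟩
      · rw [← Multiset.count_pos, hΛc] at h2
        split_ifs at h2 with h3
        · exact Finset.mem_Icc.2 ⟨h1.three, (Finset.mem_Ioc.1 h3).2⟩
        · exact absurd h2 (lt_irrefl _)
    · obtain ⟨c, hc, h1⟩ := hF12l r hr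
      exact ⟨ls, Finset.mem_Icc.2 ⟨hls, by omega⟩, c, hc, h1⟩
  · -- counting
    intro c hc l hl
    have hlls := Finset.ne_of_mem_erase hl
    have hl3 := Finset.mem_Icc.1 (Finset.mem_of_mem_erase hl)
    rw [cnt_union hdG12]
    have h12 : cnt F12 l c = 0 := by
      rw [cnt_eq, Finset.card_eq_zero, Finset.filter_eq_empty_iff]
      intro r hr h1
      obtain ⟨c', hc', h2⟩ := hF12l r hr
      exact hlls (h1.uniq h2).1
    have h1 := hGcnt c hc l
    rw [cnt_union hd0s, hΛc] at h1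
    by_cases hlL1 : l ≤ L1
    · have h2 := hcnt c hc l (Finset.mem_erase.2 ⟨hlls, Finset.mem_Icc.2 ⟨hl3.1, hlL1⟩⟩)
      have h3 : l ∉ Ioc L1 U.card := by
        intro h'; have := (Finset.mem_Ioc.1 h').1; omega
      rw [if_neg h3] at h1
      by_cases hlK : l = K
      · rw [if_pos hlK] at h1 h2
        rw [hlK] at h1 h2 h12 ⊢
        omega
      · rw [if_neg hlK] at h1 h2
        omega
    · have h3 : l ∈ Ioc L1 U.card := Finset.mem_Ioc.2 ⟨by omega, hl3.2⟩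
      rw [if_pos h3, if_neg (by omega : ¬ l = K)] at h1
      have h4 : cnt F0 l c = 0 := by
        rw [cnt_eq, Finset.card_eq_zero, Finset.filter_eq_empty_iff]
        intro r hr h1
        obtain ⟨l', hl', c', hc', h2⟩ := (hF0 r hr).2
        obtain ⟨rfl, _⟩ := h1.uniq h2
        exact hlL1 (Finset.mem_Icc.1 hl').2
      have h5 : cnt Fs l c = 0 := by
        rw [cnt_eq, Finset.card_eq_zero, Finset.filter_eq_empty_iff]
        intro r hr h1
        obtain ⟨l', hl', c', hc', h2⟩ := (hFs r hr).2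
        obtain ⟨rfl, _⟩ := h1.uniq h2
        exact hlL1 (Finset.mem_Icc.1 hl').2
      omega
  · -- hG2
    intro i hiS hiR hin hiG
    have hst : i ∈ starS U' D' S R := mem_starS.2 ⟨hiS, hiR, hin⟩
    rw [mem_loS]
    refine ⟨hst, ?_⟩
    by_contra hcon
    push Not at hcon
    refine hiG ?_
    rw [hunGF, Finset.mem_union]
    left
    rw [hGun]
    left
    exact ⟨by rw [hFun, Finset.mem_union]; exact Or.inl hcon.1, hcon.2⟩
  · -- loads
    intro v hv
    constructor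
    · rw [nb_union, nb_union]
      have h1 : (((nb (un Fs) v ∪ nb (un F12) v ∪ nb Lk v).card : ℕ) : ℝ) ≤
          (nb (un Fs) v).card + (nb (un F12) v).card + (nb Lk v).card :=
        card_le_add3 (Finset.Subset.refl _)
      have h2 := (hWs v).1
      have h3 := (hW12 v).1
      have h4 := (hWL v).1
      linarith
    · rw [cl_union, cl_union]
      have h1 : (((cl (un Fs) v ∪ cl (un F12) v ∪ cl Lk v).card : ℕ) : ℝ) ≤
          (cl (un Fs) v).card + (cl (un F12) v).card + (cl Lk v).card :=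
        card_le_add3 (Finset.Subset.refl _)
      have h2 := (hWs v).2
      have h3 := (hW12 v).2
      have h4 := (hWL v).2
      linarith
  · intro c hc
    rw [vt_union, vt_union]
    have h1 : (((vt (un Fs) c ∪ vt (un F12) c ∪ vt Lk c).card : ℕ) : ℝ) ≤
        (vt (un Fs) c).card + (vt (un F12) c).card + (vt Lk c).card :=
      card_le_add3 (Finset.Subset.refl _)
    have h2 := hWsc c
    have h3 := hW12c c
    have h4 := hWLc c
    linarith
  · -- hX
    intro x hx y hy' hi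
    rw [hunGF, Finset.mem_union]
    by_contra hcon
    push Not at hcon
    have hiR : (Sum.inl s(x, y) : Item V C) ∉ R := by
      intro h'
      rcases hRes.kE x y h' with h' | h'
      · exact (Finset.mem_sdiff.1 hx).2 h'.1
      · exact (Finset.mem_sdiff.1 hy').2 h'.1
    have hin : ¬ inn U' D' (Sum.inl s(x, y) : Item V C) := by
      rw [inn_inl]
      intro h'
      exact (Finset.mem_sdiff.1 hx).2 h'.1
    have hst : (Sum.inl s(x, y) : Item V C) ∈ starS U' D' S R := mem_starS.2 ⟨hi, hiR, hin⟩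
    have hlo : (Sum.inl s(x, y) : Item V C) ∈ loS U' D' S R F0 D h a b := by
      rw [mem_loS]
      refine ⟨hst, ?_⟩
      by_contra hc2
      push Not at hc2
      refine hcon.1 ?_
      rw [hGun]
      left
      exact ⟨by rw [hFun, Finset.mem_union]; exact Or.inl hc2.1, hc2.2⟩
    exact hcon.2 (hX x hx y hy' hlo)
  · -- hXc
    intro x hx c hc hi
    rw [hunGF, Finset.mem_union]
    by_contra hcon
    push Not at hcon
    have hiR : (Sum.inr (x, c) : Item V C) ∉ R := by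
      intro h'
      rcases hRes.kP x c h' with h' | h'
      · exact (Finset.mem_sdiff.1 hc).2 h'.2
      · exact (Finset.mem_sdiff.1 hx).2 h'.1
    have hin : ¬ inn U' D' (Sum.inr (x, c) : Item V C) := by
      rw [inn_inr]
      intro h'
      exact (Finset.mem_sdiff.1 hx).2 h'.1
    have hst : (Sum.inr (x, c) : Item V C) ∈ starS U' D' S R := mem_starS.2 ⟨hi, hiR, hin⟩
    have hlo : (Sum.inr (x, c) : Item V C) ∈ loS U' D' S R F0 D h a b := by
      rw [mem_loS]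
      refine ⟨hst, ?_⟩
      by_contra hc2
      push Not at hc2
      refine hcon.1 ?_
      rw [hGun]
      left
      exact ⟨by rw [hFun, Finset.mem_union]; exact Or.inl hc2.1, hc2.2⟩
    exact hcon.2 (hXc x hx c hc hlo)
  · -- hG3
    intro u hu v hv hmem
    have hu' := hU'' hu
    have hv' := hU'' hv
    have hR3 : ∀ (i : Item V C), i = Sum.inl s(u, v) → ¬ (i ∈ R ∨ insOK U' U'' D' S i) := by
      rintro i rfl (h' | h')
      · rcases hRes.kE u v h' with h' | h'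
        · exact h'.2 hv'
        · exact h'.2 hu'
      · exact ca_insOK_not2 h' hu hv
    have hS3 : (Sum.inl s(u, v) : Item V C) ∉ starS U' D' S R := by
      intro h'
      exact (mem_starS.1 h').2.2 (inn_inl.2 ⟨hu', hv'⟩)
    rw [hunGF, Finset.mem_union] at hmem
    rcases hmem with hi | hi
    · rcases (hGun _).1 hi with ⟨h3, h4⟩ | ⟨c, hc, j, hj, h3⟩
      · rw [hFun, Finset.mem_union] at h3
        rcases h3 with h3 | h3
        · exact hS3 (hF0s h3)
        · exact hR3 _ rfl (hFsi _ h3)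
      · exact hR3 _ rfl (hgi c hc j hj _ h3).1
    · rcases hF12i _ hi with h5 | h5
      · exact hS3 (hloS _ h5)
      · exact hR3 _ rfl h5
  · -- hG4
    intro u hu c hc hmem
    have hu' := hU'' hu
    have hc' := hD'' hc
    have hR3 : ∀ (i : Item V C), i = Sum.inr (u, c) → ¬ (i ∈ R ∨ insOK U' U'' D' S i) := by
      rintro i rfl (h' | h')
      · rcases hRes.kP u c h' with h' | h'
        · exact h'.1 hu'
        · exact h'.2 hc'
      · exact ca_insOK_nott h' hu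
    have hS3 : (Sum.inr (u, c) : Item V C) ∉ starS U' D' S R := by
      intro h'
      exact (mem_starS.1 h').2.2 (inn_inr.2 ⟨hu', hc'⟩)
    rw [hunGF, Finset.mem_union] at hmem
    rcases hmem with hi | hi
    · rcases (hGun _).1 hi with ⟨h3, h4⟩ | ⟨c, hc, j, hj, h3⟩
      · rw [hFun, Finset.mem_union] at h3
        rcases h3 with h3 | h3
        · exact hS3 (hF0s h3)
        · exact hR3 _ rfl (hFsi _ h3)
      · exact hR3 _ rfl (hgi c hc j hj _ h3).1
    · rcases hF12i _ hi with h5 | h5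
      · exact hS3 (hloS _ h5)
      · exact hR3 _ rfl h5

end

end Pool.Agent.OBX
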