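import Mathlib
import Pool.Agent.OBW.Defs
import Pool.Agent.OBW.Stmts
import Pool.Agent.OBW.Basic
import Pool.Agent.OBW.CdlA
import Pool.Agent.OBW.CdlB
import Pool.Agent.OBX.Defs
import Pool.Agent.OBX.Stmts
import Pool.Agent.OBX.CaFin
import Pool.Agent.OBX.CaBrk
import Pool.Agent.OBX.CaAsm

set_option autoImplicit false
set_option linter.unusedSectionVars false
set_option linter.unusedVariables false

/-! Case A: load bounds. -/

namespace Pool.Agent.OBX

open Finset Pool.Agent.OBW

section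
variable {V C : Type} [Fintype V] [DecidableEq V] [Fintype C] [DecidableEq C]

open scoped Classical in
theorem lo_nb {U' U'' : Finset V} {D' : Finset C} {S R : Finset (Item V C)}
    {F0 Fs FK : Finset (Finset (Item V C))} {D : Finset C} {h : ℕ} {a b : C → ℕ → V}
    {yq : C → ℕ → Finset (Item V C)} {e0 : Finset (Item V C) → Sym2 V}
    (hFs : ∀ i ∈ un Fs, i ∈ R ∨ insOK U' U'' D' S i)
    (hy : ∀ c ∈ D, ∀ j < h, yq c j ∈ F0 ∪ Fs ∧ (Sum.inl s(a c j, b c j) : Item V C) ∈ yq c j)
    (hyE : ∀ c ∈ D, ∀ j < h, yq c j ∈ F0 → yq c j ∈ FK ∧ e0 (yq c j) = s(a c j, b c j)) (v : V) :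
    (nb (loS U' D' S R F0 D h a b) v).card ≤
      (nb (starS U' D' S R \ un F0) v).card + (FK.filter (fun q => v ∈ e0 q)).card := by
  have h1 : nb (loS U' D' S R F0 D h a b) v ⊆ nb (starS U' D' S R \ un F0) v ∪
      (FK.filter (fun q => v ∈ e0 q)).biUnion (fun q => univ.filter (fun u => e0 q = s(v, u))) := by
    intro u hu
    rw [mem_nb, mem_loS] at hu
    rw [Finset.mem_union]
    by_cases h2 : (Sum.inl s(v, u) : Item V C) ∈ un F0
    · right
      rcases hu.2 with h3 | ⟨c, hc, j, hj, h3⟩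
      · exact absurd h2 h3
      · have h4 := (hy c hc j hj).1
        rcases Finset.mem_union.1 h4 with h4 | h4
        · obtain ⟨h5, h6⟩ := hyE c hc j hj h4
          have h7 : e0 (yq c j) = s(v, u) := by rw [h6]; exact (Sum.inl.inj h3).symm
          rw [Finset.mem_biUnion]
          refine ⟨yq c j, Finset.mem_filter.2 ⟨h5, ?_⟩, Finset.mem_filter.2 ⟨Finset.mem_univ _, h7⟩⟩
          rw [h7]; exact Sym2.mem_mk_left _ _
        · exfalso
          have h5 := (hy c hc j hj).2
          rw [← h3] at h5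
          have h6 := hFs _ (subset_un h4 h5)
          have h7 := mem_starS.1 hu.1
          rcases h6 with h6 | h6
          · exact h7.2.1 h6
          · exact h7.2.2 (ca_insOK_inn h6)
    · left
      rw [mem_nb, Finset.mem_sdiff]
      exact ⟨hu.1, h2⟩
  refine (Finset.card_le_card h1).trans ((Finset.card_union_le _ _).trans ?_)
  refine Nat.add_le_add_left ?_ _
  refine (Finset.card_biUnion_le_card_mul _ _ 1 ?_).trans (by rw [mul_one])
  intro q hq
  rw [Finset.card_le_one]
  intro x hx y hy'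
  rw [Finset.mem_filter] at hx hy'
  have h2 : s(v, x) = s(v, y) := hx.2.symm.trans hy'.2
  exact Sym2.congr_right.1 h2

theorem lo_cl {U' : Finset V} {D' : Finset C} {S R : Finset (Item V C)}
    {F0 : Finset (Finset (Item V C))} {D : Finset C} {h : ℕ} {a b : C → ℕ → V} (v : V) :
    (cl (loS U' D' S R F0 D h a b) v).card ≤ (cl (starS U' D' S R \ un F0) v).card := by
  refine Finset.card_le_card ?_
  intro c hc
  rw [mem_cl, mem_loS] at hc
  rw [mem_cl, Finset.mem_sdiff]
  refine ⟨hc.1, ?_⟩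
  rcases hc.2 with h | ⟨c', _, j, _, h⟩
  · exact h
  · simp at h

theorem lo_vt {U' : Finset V} {D' : Finset C} {S R : Finset (Item V C)}
    {F0 : Finset (Finset (Item V C))} {D : Finset C} {h : ℕ} {a b : C → ℕ → V} (c : C) :
    (vt (loS U' D' S R F0 D h a b) c).card ≤ (vt (starS U' D' S R \ un F0) c).card := by
  refine Finset.card_le_card ?_
  intro v hv
  rw [mem_vt, mem_loS] at hv
  rw [mem_vt, Finset.mem_sdiff]
  refine ⟨hv.1, ?_⟩
  rcases hv.2 with h | ⟨c', _, j, _, h⟩
  · exact h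
  · simp at h

open scoped Classical in
/-- number of pieces at a vertex -/
theorem pieces_at {F : Finset (Finset (Item V C))} (hPD : PD F) (v : V) :
    (F.filter (fun q => ∃ c, (Sum.inr (v, c) : Item V C) ∈ q)).card ≤ (cl (un F) v).card := by
  rw [cl_un_card hPD v, Finset.card_filter]
  refine Finset.sum_le_sum fun q hq => ?_
  split_ifs with h
  · obtain ⟨c, hc⟩ := h
    rw [Nat.one_le_iff_ne_zero, ← Nat.pos_iff_ne_zero, Finset.card_pos]
    exact ⟨c, (mem_cl _ _ _).2 hc⟩
  · exact Nat.zero_le _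

open scoped Classical in
theorem root_load {F0 Fs FK : Finset (Finset (Item V C))} {D : Finset C} {K h : ℕ} {a b : C → ℕ → V}
    {yq : C → ℕ → Finset (Item V C)} {e0 : Finset (Item V C) → Sym2 V} {nx : ℕ → ℕ}
    (hFsPD : PD Fs)
    (hy : ∀ c ∈ D, ∀ j < h, yq c j ∈ F0 ∪ Fs ∧ IsPiece K c (yq c j) ∧
      (Sum.inl s(a c j, b c j) : Item V C) ∈ yq c j)
    (hyi : ∀ c ∈ D, ∀ i < h, ∀ j < h, yq c i = yq c j → i = j)
    (hyE : ∀ c ∈ D, ∀ j < h, yq c j ∈ F0 → yq c j ∈ FK ∧ e0 (yq c j) = s(a c j, b c j))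
    (hnx : ∀ j < h, nx j < h) (hnxi : ∀ j < h, ∀ k < h, nx j = nx k → j = k) (v : V) :
    ((univ : Finset ↥(D ×ˢ range h)).filter
      (fun i => b i.1.1 i.1.2 = v ∨ a i.1.1 (nx i.1.2) = v)).card ≤
      2 * ((FK.filter (fun q => v ∈ e0 q)).card + (cl (un Fs) v).card) := by
  set P : Finset (C × ℕ) := (D ×ˢ range h).filter (fun x => a x.1 x.2 = v ∨ b x.1 x.2 = v) with hP
  have hPc : P.card ≤ (FK.filter (fun q => v ∈ e0 q)).card + (cl (un Fs) v).card := by
    have h1 : P.card ≤ ((FK.filter (fun q => v ∈ e0 q)) ∪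
        (Fs.filter (fun q => ∃ c, (Sum.inr (v, c) : Item V C) ∈ q))).card := by
      refine Finset.card_le_card_of_injOn (fun x => yq x.1 x.2) ?_ ?_
      · intro x hx
        have hx' : x ∈ P := hx
        rw [hP, Finset.mem_filter, Finset.mem_product, Finset.mem_range] at hx'
        obtain ⟨⟨hc, hj⟩, hv⟩ := hx'
        have h2 := hy x.1 hc x.2 hj
        have hvm : v ∈ s(a x.1 x.2, b x.1 x.2) := by
          rw [Sym2.mem_iff]
          rcases hv with hv | hv
          · exact Or.inl hv.symm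
          · exact Or.inr hv.symm
        show yq x.1 x.2 ∈ ((FK.filter (fun q => v ∈ e0 q)) ∪
          (Fs.filter (fun q => ∃ c, (Sum.inr (v, c) : Item V C) ∈ q)))
        rw [Finset.mem_union, Finset.mem_filter, Finset.mem_filter]
        rcases Finset.mem_union.1 h2.1 with h3 | h3
        · obtain ⟨h4, h5⟩ := hyE x.1 hc x.2 hj h3
          exact Or.inl ⟨h4, by rw [h5]; exact hvm⟩
        · refine Or.inr ⟨h3, x.1, ?_⟩
          have h4 := h2.2.1.ends h2.2.2
          rcases hv with hv | hv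
          · rw [← hv]; exact h4.1
          · rw [← hv]; exact h4.2
      · intro x hx y hy' hxy
        have hx' : x ∈ P := hx
        have hy'' : y ∈ P := hy'
        rw [hP, Finset.mem_filter, Finset.mem_product, Finset.mem_range] at hx' hy''
        have hxy' : yq x.1 x.2 = yq y.1 y.2 := hxy
        have h2 := (hy x.1 hx'.1.1 x.2 hx'.1.2).2.1
        have h3 := (hy y.1 hy''.1.1 y.2 hy''.1.2).2.1
        rw [hxy'] at h2
        have h4 := (h2.uniq h3).2
        refine Prod.ext h4 ?_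
        refine hyi x.1 hx'.1.1 x.2 hx'.1.2 y.2 hy''.1.2 ?_
        rw [hxy', h4]
    refine h1.trans ((Finset.card_union_le _ _).trans ?_)
    exact Nat.add_le_add_left (pieces_at hFsPD v) _
  have h2 : ((univ : Finset ↥(D ×ˢ range h)).filter
      (fun i => b i.1.1 i.1.2 = v ∨ a i.1.1 (nx i.1.2) = v)).card ≤
      ((univ : Finset ↥(D ×ˢ range h)).filter (fun i => b i.1.1 i.1.2 = v)).card +
      ((univ : Finset ↥(D ×ˢ range h)).filter (fun i => a i.1.1 (nx i.1.2) = v)).card := by
    rw [Finset.filter_or]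
    exact Finset.card_union_le _ _
  have h3 : ((univ : Finset ↥(D ×ˢ range h)).filter (fun i => b i.1.1 i.1.2 = v)).card ≤ P.card := by
    refine Finset.card_le_card_of_injOn (fun i => i.1) ?_ ?_
    · intro i hi
      have hi' := (Finset.mem_filter.1 (Finset.mem_coe.1 hi)).2
      show i.1 ∈ P
      rw [hP, Finset.mem_filter]
      exact ⟨i.2, Or.inr hi'⟩
    · intro i _ j _ hij
      exact Subtype.ext hij
  have h4 : ((univ : Finset ↥(D ×ˢ range h)).filter (fun i => a i.1.1 (nx i.1.2) = v)).card ≤ P.card := by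
    refine Finset.card_le_card_of_injOn (fun i => (i.1.1, nx i.1.2)) ?_ ?_
    · intro i hi
      have hi' := (Finset.mem_filter.1 (Finset.mem_coe.1 hi)).2
      have hi2 := Finset.mem_product.1 i.2
      show (i.1.1, nx i.1.2) ∈ P
      rw [hP, Finset.mem_filter, Finset.mem_product, Finset.mem_range]
      exact ⟨⟨hi2.1, hnx _ (Finset.mem_range.1 hi2.2)⟩, Or.inl hi'⟩
    · intro i _ j _ hij
      have hi2 := Finset.mem_product.1 i.2
      have hj2 := Finset.mem_product.1 j.2
      have hij' := Prod.mk.inj hij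
      refine Subtype.ext (Prod.ext hij'.1 ?_)
      exact hnxi _ (Finset.mem_range.1 hi2.2) _ (Finset.mem_range.1 hj2.2) hij'.2
  omega

open scoped Classical in
theorem colour_sum {D : Finset C} {h : ℕ} {t : ℕ → ℕ} (d : C) :
    ∑ i : ↥(D ×ˢ range h) with i.1.1 = d, (t i.1.2 : ℝ) ≤ ∑ j ∈ range h, (t j : ℝ) := by
  have h1 : ∑ i : ↥(D ×ˢ range h) with i.1.1 = d, (t i.1.2 : ℝ) =
      ∑ x ∈ (D ×ˢ range h).filter (fun x => x.1 = d), (t x.2 : ℝ) := by
    rw [Finset.sum_filter, Finset.sum_filter]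
    exact Finset.sum_coe_sort (D ×ˢ range h) (fun x => if x.1 = d then (t x.2 : ℝ) else 0)
  rw [h1]
  have h2 : ((D ×ˢ range h).filter (fun x => x.1 = d)) ⊆ ({d} : Finset C) ×ˢ range h := by
    intro x hx
    rw [Finset.mem_filter, Finset.mem_product] at hx
    rw [Finset.mem_product, Finset.mem_singleton]
    exact ⟨hx.2, hx.1.2⟩
  refine (Finset.sum_le_sum_of_subset_of_nonneg h2 (fun _ _ _ => Nat.cast_nonneg _)).trans ?_
  rw [Finset.sum_product]
  simp

end

end Pool.Agent.OBX
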