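import Mathlib

set_option autoImplicit false
set_option linter.unusedVariables false

/-! Case A: arrangement of the paths and links of the long cycles (pure arithmetic). -/

namespace Pool.Agent.OBX

open Finset

theorem ca_sum_groups (e : ℕ → ℕ) (f : ℕ → ℕ) (h0 : e 0 = 0) (q : ℕ) (hm : ∀ i < q, e i ≤ e (i + 1)) :
    ∑ j ∈ range (e q), f j = ∑ i ∈ range q, ∑ j ∈ Ico (e i) (e (i + 1)), f j := by
  induction q with
  | zero => simp [h0]
  | succ q ih =>
    rw [Finset.sum_range_succ, ← ih (fun i hi => hm i (by omega))]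
    rw [Finset.range_eq_Ico, Finset.range_eq_Ico]
    have h1 : 0 ≤ e q := Nat.zero_le _
    rw [Finset.sum_Ico_consecutive f h1 (hm q (by omega))]

theorem ca_getD (LL : List ℕ) :
    (Multiset.range LL.length).map (fun i => LL.getD i 0) = (LL : Multiset ℕ) := by
  have h : (List.range LL.length).map (fun i => LL.getD i 0) = LL := by
    apply List.ext_getElem
    · simp
    · intro i h1 h2
      simp [List.getD_eq_getElem?_getD, h2]
  have h2 : Multiset.range LL.length = (List.range LL.length : Multiset ℕ) := rfl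
  rw [h2, Multiset.map_coe, h]

/-- the arrangement -/
theorem ca_arrange (K L1 m : ℕ) (N : ℕ → ℕ) (hL1 : K + 4 ≤ L1)
    (hsum : ∑ l ∈ Ioc L1 m, l * N l ≤ m) :
    ∃ (h q : ℕ) (e t nx len : ℕ → ℕ) (Λ : Multiset ℕ),
      e 0 = 0 ∧ (∀ i < q, e i < e (i + 1)) ∧ e q = h ∧
      (∀ i < q, ∀ j, e i ≤ j → j < e (i + 1) → nx j = (if j + 1 = e (i + 1) then e i else j + 1)) ∧
      (∀ j < h, nx j < h ∧ 4 ≤ t j) ∧ (∀ j < h, ∀ k < h, nx j = nx k → j = k) ∧
      (Multiset.range q).map (fun i => ∑ j ∈ Ico (e i) (e (i + 1)), (K + t j)) = Λ ∧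
      (∀ l, Λ.count l = if l ∈ Ioc L1 m then N l else 0) ∧
      h = ∑ l ∈ Ioc L1 m, N l * (l / (K + 4)) ∧
      h * (K + 4) ≤ m ∧ q * L1 ≤ m ∧ ∑ j ∈ range h, t j ≤ 4 * h + (K + 4) * q := by
  classical
  set M : Multiset ℕ := ∑ l ∈ Ioc L1 m, N l • ({l} : Multiset ℕ) with hM
  have hMc : ∀ l, M.count l = if l ∈ Ioc L1 m then N l else 0 := by
    intro l
    rw [hM, Multiset.count_sum']
    simp only [Multiset.count_nsmul, Multiset.count_singleton]
    by_cases hl : l ∈ Ioc L1 m
    · rw [if_pos hl, Finset.sum_eq_single l]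
      · simp
      · intro b _ hb; simp [Ne.symm hb]
      · intro h; exact absurd hl h
    · rw [if_neg hl]
      apply Finset.sum_eq_zero
      intro b hb
      have : l ≠ b := fun h => hl (h ▸ hb)
      simp [this]
  have hMf : ∀ f : ℕ → ℕ, (M.map f).sum = ∑ l ∈ Ioc L1 m, N l * f l := by
    intro f
    have h1 := map_sum ((Multiset.sumAddMonoidHom).comp (Multiset.mapAddMonoidHom f))
      (fun l => N l • ({l} : Multiset ℕ)) (Ioc L1 m)
    simp only [AddMonoidHom.coe_comp, Function.comp_apply, Multiset.coe_mapAddMonoidHom,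
      Multiset.coe_sumAddMonoidHom] at h1
    rw [hM, h1]
    refine Finset.sum_congr rfl fun l _ => ?_
    rw [Multiset.map_nsmul, Multiset.sum_nsmul]
    simp
  set LL : List ℕ := M.toList with hLL
  have hLLM : (LL : Multiset ℕ) = M := Multiset.coe_toList M
  set q := LL.length with hq
  set len : ℕ → ℕ := fun i => LL.getD i 0 with hlen
  have hmap : (Multiset.range q).map len = M := by
    rw [← hLLM]; exact ca_getD LL
  have hlenmem : ∀ i < q, len i ∈ Ioc L1 m := by
    intro i hi
    have h1 : len i ∈ M := by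
      rw [← hmap]
      exact Multiset.mem_map_of_mem _ (Multiset.mem_range.2 hi)
    have h2 := Multiset.count_pos.2 h1
    rw [hMc] at h2
    by_contra h3
    rw [if_neg h3] at h2
    omega
  have hsumf : ∀ f : ℕ → ℕ, ∑ i ∈ range q, f (len i) = ∑ l ∈ Ioc L1 m, N l * f l := by
    intro f
    rw [← hMf f, ← hmap, Multiset.map_map]
    rfl
  set s : ℕ → ℕ := fun i => len i / (K + 4) with hs
  set r : ℕ → ℕ := fun i => len i % (K + 4) with hr
  set e : ℕ → ℕ := fun i => ∑ j ∈ range i, s j with he
  have he1 : ∀ i, e (i + 1) = e i + s i := by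
    intro i; simp only [he]; rw [Finset.sum_range_succ]
  have hs1 : ∀ i < q, 1 ≤ s i := by
    intro i hi
    have h1 := (Finset.mem_Ioc.1 (hlenmem i hi)).1
    exact (Nat.one_le_div_iff (by omega)).2 (by omega)
  have hinc : ∀ i < q, e i < e (i + 1) := by
    intro i hi; rw [he1]; have := hs1 i hi; omega
  have hmono : ∀ i k, i ≤ k → e i ≤ e k := by
    intro i k hik
    simp only [he]
    exact Finset.sum_le_sum_of_subset (Finset.range_subset_range.2 hik)
  -- group of an index
  have hG : ∀ j, ∃ i, j < e q → (i < q ∧ e i ≤ j ∧ j < e (i + 1)) := by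
    intro j
    by_cases hj : j < e q
    · have hex : ∃ i, j < e (i + 1) := by
        rcases Nat.eq_zero_or_pos q with h0 | h0
        · rw [h0] at hj; simp [he] at hj
        · exact ⟨q - 1, by rw [Nat.sub_add_cancel h0]; exact hj⟩
      refine ⟨Nat.find hex, fun _ => ⟨?_, ?_, Nat.find_spec hex⟩⟩
      · by_contra hc
        have hc' : q ≤ Nat.find hex := not_lt.1 hc
        rcases Nat.eq_zero_or_pos q with h0 | h0
        · rw [h0] at hj; simp [he] at hj
        · have : q - 1 < Nat.find hex := by omega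
          exact Nat.find_min hex this (by rw [Nat.sub_add_cancel h0]; exact hj)
      · rcases Nat.eq_zero_or_pos (Nat.find hex) with h0 | h0
        · rw [h0]; simp [he]
        · have := Nat.find_min hex (m := Nat.find hex - 1) (by omega)
          rw [Nat.sub_add_cancel h0] at this
          exact not_lt.1 this
    · exact ⟨0, fun h => absurd h hj⟩
  choose G hG using hG
  have hGu : ∀ i < q, ∀ j, e i ≤ j → j < e (i + 1) → G j = i := by
    intro i hi j h1 h2
    have hjq : j < e q := lt_of_lt_of_le h2 (hmono _ _ (by omega))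
    obtain ⟨h3, h4, h5⟩ := hG j hjq
    by_contra hne
    rcases Nat.lt_or_gt_of_ne hne with h | h
    · have := hmono (G j + 1) i (by omega); omega
    · have := hmono (i + 1) (G j) (by omega); omega
  set t : ℕ → ℕ := fun j => 4 + (if j + 1 = e (G j + 1) then r (G j) else 0) with ht
  set nx : ℕ → ℕ := fun j => if j + 1 = e (G j + 1) then e (G j) else j + 1 with hnx
  have hnxi : ∀ i < q, ∀ j, e i ≤ j → j < e (i + 1) →
      nx j = (if j + 1 = e (i + 1) then e i else j + 1) := by
    intro i hi j h1 h2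
    simp only [hnx, hGu i hi j h1 h2]
  have hnxin : ∀ i < q, ∀ j, e i ≤ j → j < e (i + 1) → e i ≤ nx j ∧ nx j < e (i + 1) := by
    intro i hi j h1 h2
    rw [hnxi i hi j h1 h2]
    split_ifs with h
    · exact ⟨le_refl _, hinc i hi⟩
    · constructor <;> omega
  have hgroup : ∀ i < q, ∑ j ∈ Ico (e i) (e (i + 1)), (K + t j) = len i := by
    intro i hi
    have h1 : ∑ j ∈ Ico (e i) (e (i + 1)), (K + t j) =
        ∑ j ∈ Ico (e i) (e (i + 1)), ((K + 4) + (if j = e (i + 1) - 1 then r i else 0)) := by
      refine Finset.sum_congr rfl fun j hj => ?_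
      rw [Finset.mem_Ico] at hj
      simp only [ht, hGu i hi j hj.1 hj.2]
      have : (j + 1 = e (i + 1)) ↔ (j = e (i + 1) - 1) := by omega
      by_cases h : j + 1 = e (i + 1)
      · rw [if_pos h, if_pos (this.1 h)]; omega
      · rw [if_neg h, if_neg (fun h' => h (this.2 h'))]
    rw [h1, Finset.sum_add_distrib, Finset.sum_const, Nat.card_Ico, Finset.sum_ite_eq', smul_eq_mul]
    have h2 : e (i + 1) - 1 ∈ Ico (e i) (e (i + 1)) := by
      rw [Finset.mem_Ico]
      have := hinc i hi
      omega
    rw [if_pos h2, he1]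
    have h3 : e i + s i - e i = s i := by omega
    rw [h3]
    simp only [hs, hr]
    exact Nat.div_add_mod' (len i) (K + 4)
  have htot : ∑ i ∈ range q, len i = ∑ l ∈ Ioc L1 m, N l * l := hsumf (fun l => l)
  have htot' : ∑ i ∈ range q, len i ≤ m := by
    rw [htot]
    refine le_trans (le_of_eq ?_) hsum
    exact Finset.sum_congr rfl fun l _ => by ring
  have hh : e q = ∑ l ∈ Ioc L1 m, N l * (l / (K + 4)) := hsumf (fun l => l / (K + 4))
  refine ⟨e q, q, e, t, nx, len, M, by simp [he], hinc, rfl, hnxi, ?_, ?_, ?_, hMc, hh, ?_, ?_, ?_⟩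
  · intro j hj
    obtain ⟨h1, h2, h3⟩ := hG j hj
    refine ⟨lt_of_lt_of_le (hnxin (G j) h1 j h2 h3).2 (hmono _ _ (by omega)), ?_⟩
    simp only [ht]; omega
  · intro j hj k hk hjk
    obtain ⟨h1, h2, h3⟩ := hG j hj
    obtain ⟨h1', h2', h3'⟩ := hG k hk
    have h4 := hnxin (G j) h1 j h2 h3
    have h5 := hnxin (G k) h1' k h2' h3'
    have hGG : G j = G k := by
      by_contra hne
      rcases Nat.lt_or_gt_of_ne hne with h | h
      · have := hmono (G j + 1) (G k) (by omega); omega
      · have := hmono (G k + 1) (G j) (by omega); omega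
    rw [hnxi (G j) h1 j h2 h3, hnxi (G k) h1' k h2' h3', ← hGG] at hjk
    rw [← hGG] at h2' h3'
    split_ifs at hjk with ha hb hb
    · omega
    · omega
    · omega
    · omega
  · rw [← hmap]
    refine Multiset.map_congr rfl fun i hi => ?_
    exact hgroup i (Multiset.mem_range.1 hi)
  · have h1 : e q * (K + 4) = ∑ i ∈ range q, s i * (K + 4) := by
      simp only [he]; rw [Finset.sum_mul]
    rw [h1]
    refine le_trans (Finset.sum_le_sum fun i _ => ?_) htot'
    exact Nat.div_mul_le_self _ _
  · have h1 : q * L1 = ∑ i ∈ range q, L1 := by rw [Finset.sum_const, Finset.card_range, smul_eq_mul]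
    rw [h1]
    refine le_trans (Finset.sum_le_sum fun i hi => ?_) htot'
    exact (Finset.mem_Ioc.1 (hlenmem i (Finset.mem_range.1 hi))).1.le
  · rw [ca_sum_groups e t (by simp [he]) q (fun i hi => (hinc i hi).le)]
    have h2 : ∀ i ∈ range q, ∑ j ∈ Ico (e i) (e (i + 1)), t j ≤ 4 * s i + (K + 4) := by
      intro i hi
      have hi' := Finset.mem_range.1 hi
      have h3 := hgroup i hi'
      rw [Finset.sum_add_distrib, Finset.sum_const, Nat.card_Ico, smul_eq_mul, he1] at h3
      have h4 : e i + s i - e i = s i := by omega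
      rw [h4] at h3
      have h5 := Nat.div_add_mod' (len i) (K + 4)
      have h6 := Nat.mod_lt (len i) (show 0 < K + 4 by omega)
      have h7 : s i * (K + 4) = s i * K + 4 * s i := by ring
      have h8 : s i * (K + 4) + len i % (K + 4) = len i := h5
      rw [he1]
      omega
    refine le_trans (Finset.sum_le_sum h2) ?_
    rw [Finset.sum_add_distrib, Finset.sum_const, Finset.card_range, smul_eq_mul, ← Finset.mul_sum]
    simp only [he]
    exact le_of_eq (by ring)

end Pool.Agent.OBX
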