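import Mathlib
import Pool.Agent.OBW.Defs
import Pool.Agent.OBW.Stmts
import Pool.Agent.OBW.Basic
import Pool.Agent.OBW.CdlA
import Pool.Agent.OBW.CdlB
import Pool.Agent.OBX.Defs
import Pool.Agent.OBX.Stmts
import Pool.Agent.OBX.CaNum
import Pool.Agent.OBX.CaFin
import Pool.Agent.OBX.CaBrk
import Pool.Agent.OBX.CaAsm
import Pool.Agent.OBX.CaLoad

set_option autoImplicit false
set_option linter.unusedSectionVars false
set_option linter.unusedVariables false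

/-! CDLA (Case A of milestone 2). -/

namespace Pool.Agent.OBX

open Finset Pool.Agent.OBW

theorem ca_slots {K L1 m ls h : ℕ} {N : ℕ → ℕ} (hls : 3 ≤ ls) (hlsK : ls < K) (hK : K ≤ L1)
    (hm : L1 ≤ m) (hh : h = ∑ l ∈ Ioc L1 m, N l * (l / (K + 4))) :
    ∑ l ∈ (Icc 3 L1).erase ls, l * (if l = K then N K + h else N l) ≤
      ∑ l ∈ (Icc 3 m).erase ls, l * N l := by
  classical
  have h1 : (Icc 3 m).erase ls = (Icc 3 L1).erase ls ∪ Ioc L1 m := by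
    ext l
    simp only [Finset.mem_erase, Finset.mem_Icc, Finset.mem_union, Finset.mem_Ioc]
    omega
  have h2 : Disjoint ((Icc 3 L1).erase ls) (Ioc L1 m) := by
    rw [Finset.disjoint_left]
    intro l h3 h4
    simp only [Finset.mem_erase, Finset.mem_Icc, Finset.mem_Ioc] at h3 h4
    omega
  rw [h1, Finset.sum_union h2]
  have h3 : ∑ l ∈ (Icc 3 L1).erase ls, l * (if l = K then N K + h else N l) =
      ∑ l ∈ (Icc 3 L1).erase ls, (l * N l + if l = K then K * h else 0) := by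
    refine Finset.sum_congr rfl fun l _ => ?_
    split_ifs with h4
    · subst h4; ring
    · ring
  rw [h3, Finset.sum_add_distrib, Finset.sum_ite_eq']
  have hKin : K ∈ (Icc 3 L1).erase ls := by
    simp only [Finset.mem_erase, Finset.mem_Icc]; omega
  rw [if_pos hKin]
  refine Nat.add_le_add_left ?_ _
  rw [hh, Finset.mul_sum]
  refine Finset.sum_le_sum fun l _ => ?_
  have h5 : l / (K + 4) * (K + 4) ≤ l := Nat.div_mul_le_self _ _
  have h6 : K * (l / (K + 4)) ≤ l := by nlinarith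
  calc K * (N l * (l / (K + 4))) = K * (l / (K + 4)) * N l := by ring
    _ ≤ l * N l := Nat.mul_le_mul_right _ h6

theorem log_le_div {m K : ℝ} (hK : 1 ≤ K) (hm : 4 * K ^ 2 ≤ m) : Real.log m ≤ m / K := by
  have hm0 : 0 < m := by nlinarith
  have hs : 0 < Real.sqrt m := Real.sqrt_pos.2 hm0
  have h1 : Real.log m = 2 * Real.log (Real.sqrt m) := by
    rw [Real.log_sqrt hm0.le]; ring
  have h2 : Real.log (Real.sqrt m) ≤ Real.sqrt m - 1 := Real.log_le_sub_one_of_pos hs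
  have h3 : 2 * K ≤ Real.sqrt m := by
    apply Real.le_sqrt_of_sq_le
    nlinarith
  have h4 : Real.sqrt m * Real.sqrt m = m := Real.mul_self_sqrt hm0.le
  rw [le_div_iff₀ (by linarith), h1]
  nlinarith

theorem ca_n1 {γ1 K m : ℝ} (hγ1 : 0 < γ1) (hK : 0 < K) (hK40 : 40 / γ1 ≤ K) (hm0 : 0 ≤ m) :
    5 * m / K ≤ γ1 / 8 * m := by
  rw [div_le_iff₀ hγ1] at hK40
  rw [div_le_iff₀ hK]
  have h2 : γ1 / 8 * m * K = (K * γ1) / 8 * m := by ring
  rw [h2]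
  exact mul_le_mul_of_nonneg_right (by linarith) hm0

theorem ca_n2 {K m d x : ℝ} (hK1 : 1 ≤ K) (hK2m : 4 * K ^ 2 ≤ m) (hd : d ≤ m)
    (hx : x ≤ Real.log m + 4 * d / K) : x ≤ 5 * m / K := by
  have h1 := log_le_div hK1 hK2m
  have h3 : 4 * d / K ≤ 4 * m / K := by
    have hK0 : 0 < K := by linarith
    exact div_le_div_of_nonneg_right (by linarith) hK0.le
  have h4 : 5 * m / K = m / K + 4 * m / K := by ring
  linarith

theorem ca_n3 {h q K L1 M : ℕ} {t : ℕ → ℕ} {γ1 γP : ℝ} (hγ1 : 0 < γ1) (hK0 : 0 < K)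
    (hγP : γ1 ≤ γP)
    (htsum : ∑ j ∈ range h, t j ≤ 4 * h + (K + 4) * q) (hhm : h * (K + 4) ≤ M) (hqm : q * L1 ≤ M)
    (hK40 : 40 / γ1 ≤ (K : ℝ)) (hL1c : 100 * ((K : ℝ) + 4) / γ1 ≤ (L1 : ℝ)) :
    ∑ j ∈ range h, (t j : ℝ) ≤ γP * M := by
  have hm0 : (0:ℝ) ≤ M := Nat.cast_nonneg _
  have h1 : (∑ j ∈ range h, (t j : ℝ)) ≤ 4 * h + (K + 4) * q := by
    have h2 : ((∑ j ∈ range h, t j : ℕ) : ℝ) ≤ ((4 * h + (K + 4) * q : ℕ) : ℝ) := by
      exact_mod_cast htsum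
    push_cast at h2
    exact h2
  have hK1 : (0:ℝ) < K := by exact_mod_cast hK0
  have h3 : (h : ℝ) * K ≤ M := by
    have h4 : ((h * (K + 4) : ℕ) : ℝ) ≤ (M : ℝ) := by exact_mod_cast hhm
    push_cast at h4
    have h5 : (0:ℝ) ≤ h := Nat.cast_nonneg _
    nlinarith
  have h4 : (q : ℝ) * L1 ≤ M := by exact_mod_cast hqm
  have h5 : 4 * (h : ℝ) ≤ γ1 / 10 * M := by
    rw [div_le_iff₀ hγ1] at hK40
    have h6 : (h : ℝ) * 40 ≤ h * (K * γ1) := mul_le_mul_of_nonneg_left hK40 (Nat.cast_nonneg _)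
    have h7 : (h : ℝ) * (K * γ1) = (h * K) * γ1 := by ring
    have h8 : ((h : ℝ) * K) * γ1 ≤ M * γ1 := mul_le_mul_of_nonneg_right h3 hγ1.le
    linarith
  have h6 : ((K : ℝ) + 4) * q ≤ γ1 / 100 * M := by
    rw [div_le_iff₀ hγ1] at hL1c
    have h6 : (q : ℝ) * (100 * ((K : ℝ) + 4)) ≤ q * (L1 * γ1) :=
      mul_le_mul_of_nonneg_left hL1c (Nat.cast_nonneg _)
    have h7 : (q : ℝ) * (L1 * γ1) = (q * L1) * γ1 := by ring
    have h8 : ((q : ℝ) * L1) * γ1 ≤ M * γ1 := mul_le_mul_of_nonneg_right h4 hγ1.le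
    linarith
  have h7 : 0 ≤ γ1 * (M : ℝ) := by positivity
  have h8 : γ1 * (M : ℝ) ≤ γP * M := mul_le_mul_of_nonneg_right hγP hm0
  linarith

theorem ca_n4 {α : ℝ} {ls L1 M : ℕ} {N : ℕ → ℕ} (hα : 0 < α) (hls : ls ≤ L1) (hL1 : 3 ≤ L1)
    (hN : ∑ l ∈ (Icc 3 M).erase ls, (l : ℝ) * (N l : ℝ) ≤ (1 - α) * M) :
    ∑ l ∈ Ioc L1 M, l * N l ≤ M := by
  have hm0 : (0:ℝ) ≤ M := Nat.cast_nonneg _
  have h1 : ((∑ l ∈ Ioc L1 M, l * N l : ℕ) : ℝ) ≤ (M : ℝ) := by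
    push_cast
    have h2 : ∑ l ∈ Ioc L1 M, (l : ℝ) * (N l : ℝ) ≤
        ∑ l ∈ (Icc 3 M).erase ls, (l : ℝ) * (N l : ℝ) := by
      refine Finset.sum_le_sum_of_subset_of_nonneg ?_ (fun _ _ _ => by positivity)
      intro l hl
      simp only [Finset.mem_erase, Finset.mem_Icc, Finset.mem_Ioc] at hl ⊢
      omega
    have h3 : (1 - α) * (M : ℝ) ≤ 1 * M :=
      mul_le_mul_of_nonneg_right (by linarith) hm0
    linarith
  exact_mod_cast h1

theorem ca_n5 {α : ℝ} {ls K L1 M h : ℕ} {N N' : ℕ → ℕ} (hls : 3 ≤ ls) (hlsK : ls < K) (hK : K ≤ L1)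
    (hm : L1 ≤ M) (hh : h = ∑ l ∈ Ioc L1 M, N l * (l / (K + 4)))
    (hN' : ∀ l, N' l = if l = K then N K + h else N l)
    (hN : ∑ l ∈ (Icc 3 M).erase ls, (l : ℝ) * (N l : ℝ) ≤ (1 - α) * M) :
    ∑ l ∈ (Icc 3 L1).erase ls, (l : ℝ) * (N' l : ℝ) ≤ (1 - α) * M := by
  have h1 := ca_slots (N := N) (ls := ls) (K := K) (L1 := L1) (m := M) (h := h) hls hlsK hK hm hh
  have h1' : ∑ l ∈ (Icc 3 L1).erase ls, l * N' l = ∑ l ∈ (Icc 3 L1).erase ls,
      l * (if l = K then N K + h else N l) := Finset.sum_congr rfl fun l _ => by rw [hN' l]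
  rw [← h1'] at h1
  have h2 : ((∑ l ∈ (Icc 3 L1).erase ls, l * N' l : ℕ) : ℝ) ≤
      ((∑ l ∈ (Icc 3 M).erase ls, l * N l : ℕ) : ℝ) := by exact_mod_cast h1
  push_cast at h2
  exact h2.trans hN

theorem ca_n6 {x y z γ1 γA m k : ℝ} (h1 : x ≤ y + z) (h3 : y ≤ γA * m) (h4 : z ≤ k)
    (hk : k ≤ γ1 / 8 * m) (hγA : γA ≤ γ1 / 100) (hγ1 : 0 < γ1) (hm : 0 ≤ m) : x ≤ γ1 * m := by
  have h5 : γA * m ≤ γ1 / 100 * m := mul_le_mul_of_nonneg_right hγA hm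
  have h6 : 0 ≤ γ1 * m := by positivity
  linarith

theorem ca_n7 {x y γ1 γA m : ℝ} (h1 : x ≤ y) (h3 : y ≤ γA * m)
    (hγA : γA ≤ γ1 / 100) (hγ1 : 0 < γ1) (hm : 0 ≤ m) : x ≤ γ1 * m := by
  have h5 : γA * m ≤ γ1 / 100 * m := mul_le_mul_of_nonneg_right hγA hm
  have h6 : 0 ≤ γ1 * m := by positivity
  linarith

theorem ca_n8 {x y z θ3 γ1 γP m k : ℝ} (h1 : x ≤ 2 * (y + z)) (hy : y ≤ k) (hz : z ≤ θ3 * m)
    (hk : k ≤ γ1 / 8 * m) (hθ3 : θ3 = γ1 / 100) (hγ1 : 0 < γ1) (hγP : γ1 ≤ γP) (hm : 0 ≤ m) :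
    x ≤ γP * m := by
  have h5 : θ3 * m = γ1 / 100 * m := by rw [hθ3]
  have h6 : 0 ≤ γ1 * m := by positivity
  have h7 : γ1 * m ≤ γP * m := mul_le_mul_of_nonneg_right hγP hm
  linarith

theorem ca_n9 {θ3 θ2 γ1 γP m : ℝ} (hθ3 : θ3 = γ1 / 100) (hγ1 : 0 < γ1) (hγP : γ1 ≤ γP)
    (hθ2 : θ2 ≤ γP / 2) (hm : 0 ≤ m) : θ3 * m + θ2 * m ≤ γP * m := by
  have h1 : θ3 * m ≤ γP / 100 * m :=
    mul_le_mul_of_nonneg_right (by rw [hθ3]; linarith) hm
  have h2 : θ2 * m ≤ γP / 2 * m := mul_le_mul_of_nonneg_right hθ2 hm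
  have h3 : 0 ≤ γP * m := by
    have : 0 < γP := by linarith
    positivity
  linarith

theorem ca_n10 {θ γ1 μ ζ p ε : ℝ} (hμ : 0 < μ) (hε : 0 < ε) (hp : 0 < p)
    (hθ2 : 3 * θ ≤ p ^ 2 * ε * μ / 1600) (hγ1p : γ1 ≤ p ^ 2 * ε * μ / 1600)
    (hζ3 : ζ ≤ p ^ 2 * ε / 800) : (3 * θ + γ1) * 2 / μ + ζ ≤ p ^ 2 * ε / 200 := by
  have h1 : (3 * θ + γ1) * 2 / μ ≤ p ^ 2 * ε / 400 := by
    rw [div_le_iff₀ hμ]
    linarith
  have h2 : 0 ≤ p ^ 2 * ε := by positivity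
  linarith

theorem ca_n11 {θ μ η p Kl : ℝ} (hμ : 0 < μ) (hp : 0 < p) (hKl : 0 < Kl)
    (hpη : p ≤ η * μ ^ 2 / (8 * (Kl + 1))) (hθ1 : 3 * θ ≤ η * μ ^ 2 / 8) :
    (Kl * p + 3 * θ) * 2 / μ ≤ η * μ / 2 := by
  rw [div_le_iff₀ hμ]
  have h1 : Kl * p ≤ η * μ ^ 2 / 8 := by
    rw [le_div_iff₀ (by positivity)] at hpη
    have h2 : 0 ≤ p := hp.le
    have : Kl * p * 8 ≤ p * (8 * (Kl + 1)) := by nlinarith
    linarith
  nlinarith

theorem ca_n12 {γA γ3 m : ℝ} {a b : ℕ} (h2 : b ≤ a) (h1 : (a : ℝ) ≤ b + γA * m) (hγ : γA ≤ γ3)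
    (hm : 0 ≤ m) : ((a - b : ℕ) : ℝ) ≤ γ3 * m := by
  rw [Nat.cast_sub h2]
  have h3 : γA * m ≤ γ3 * m := mul_le_mul_of_nonneg_right hγ hm
  linarith

section
variable {V C : Type} [Fintype V] [DecidableEq V] [Fintype C] [DecidableEq C]

theorem IsPiece.exists_edge' {l : ℕ} {c : C} {q : Finset (Item V C)} (h : IsPiece l c q) :
    ∃ e : Sym2 V, (Sum.inl e : Item V C) ∈ q := by
  obtain ⟨h3, z, hz, rfl⟩ := h
  exact ⟨s(z 0, z ((0 + 1) % l)), inl_mem_cyc.2 ⟨0, by omega, rfl⟩⟩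

end

theorem cdlA (hR : ResStmt) (hA : ApproxStmt) (hG : GrdWStmt) (hP : PthStmt) (hL : LinkStmt)
    (hB : BrkStmt) (hDr : DropStmt) (hCy : CycStmt) : CdlAStmt := by
  intro ε α L hε hα
  obtain ⟨μR, hμR, hR1⟩ := hR ε hε
  obtain ⟨μG, hμG, hG1⟩ := hG ε hε
  obtain ⟨μP, hμP, hP1⟩ := hP ε hε
  obtain ⟨κ, hκ, hA1⟩ := hA (ε / 2) α (half_pos hε) hα
  obtain ⟨Kl, hKl, hL1⟩ := link_unif hL (ε / 2) L (half_pos hε)
  obtain ⟨b, hb0, hbR, hbG, hbP, hb2, hbε, hbκ⟩ : ∃ b : ℝ, 0 < b ∧ b ≤ μR ∧ b ≤ μG ∧ b ≤ μP ∧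
      b ≤ 1 / 2000 ∧ b ≤ ε / 16 ∧ b ≤ κ / 8 :=
    ⟨min μR (min μG (min μP (min (1 / 2000) (min (ε / 16) (κ / 8))))), by positivity,
      min_le_left _ _, (min_le_right _ _).trans (min_le_left _ _),
      (min_le_right _ _).trans ((min_le_right _ _).trans (min_le_left _ _)),
      (min_le_right _ _).trans ((min_le_right _ _).trans ((min_le_right _ _).trans (min_le_left _ _))),
      (min_le_right _ _).trans ((min_le_right _ _).trans ((min_le_right _ _).trans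
        ((min_le_right _ _).trans (min_le_left _ _)))),
      (min_le_right _ _).trans ((min_le_right _ _).trans ((min_le_right _ _).trans
        ((min_le_right _ _).trans (min_le_right _ _))))⟩
  refine ⟨b, hb0, fun μ hμ hμle => ?_⟩
  obtain ⟨pL, hpL, hL2⟩ := hL1 μ hμ (by linarith)
  refine ⟨b, hb0, fun η hη hηle => ?_⟩
  obtain ⟨p, hp, hppL, hp4, hpκ, hpη⟩ : ∃ p : ℝ, 0 < p ∧ p ≤ pL ∧ p ≤ 1 / 4 ∧ p ≤ κ / 16 ∧
      p ≤ η * μ ^ 2 / (8 * (Kl + 1)) :=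
    ⟨min pL (min (1 / 4) (min (κ / 16) (η * μ ^ 2 / (8 * (Kl + 1))))), by positivity,
      min_le_left _ _, (min_le_right _ _).trans (min_le_left _ _),
      (min_le_right _ _).trans ((min_le_right _ _).trans (min_le_left _ _)),
      (min_le_right _ _).trans ((min_le_right _ _).trans (min_le_right _ _))⟩
  obtain ⟨m1, hL3⟩ := hL2 p hp hppL
  obtain ⟨θ, hθ, hθ1, hθ2⟩ : ∃ θ : ℝ, 0 < θ ∧ 3 * θ ≤ η * μ ^ 2 / 8 ∧ 3 * θ ≤ p ^ 2 * ε * μ / 1600 := by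
    refine ⟨min (η * μ ^ 2 / 8) (p ^ 2 * ε * μ / 1600) / 3, by positivity, ?_, ?_⟩
    · have : 3 * (min (η * μ ^ 2 / 8) (p ^ 2 * ε * μ / 1600) / 3) =
        min (η * μ ^ 2 / 8) (p ^ 2 * ε * μ / 1600) := by ring
      rw [this]; exact min_le_left _ _
    · have : 3 * (min (η * μ ^ 2 / 8) (p ^ 2 * ε * μ / 1600) / 3) =
        min (η * μ ^ 2 / 8) (p ^ 2 * ε * μ / 1600) := by ring
      rw [this]; exact min_le_right _ _
  obtain ⟨γP, hγP, m2, hP2⟩ := hP1 μ hμ (hμle.trans hbP) η hη (hηle.trans hbP) p hp hp4 θ hθ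
  obtain ⟨θ2, hθ20, hθ2θ, hθ2P⟩ : ∃ θ2 : ℝ, 0 < θ2 ∧ θ2 ≤ θ ∧ θ2 ≤ γP / 2 :=
    ⟨min θ (γP / 2), by positivity, min_le_left _ _, min_le_right _ _⟩
  obtain ⟨γG, hγG, m3, hG2⟩ := hG1 L μ hμ (hμle.trans hbG) η hη (hηle.trans hbG) p hp hp4 θ2 hθ20
  obtain ⟨γ1, hγ1, hγ1P, hγ1G, hγ1θ, hγ1p⟩ : ∃ γ1 : ℝ, 0 < γ1 ∧ γ1 ≤ γP ∧ γ1 ≤ γG ∧ γ1 ≤ θ ∧
      γ1 ≤ p ^ 2 * ε * μ / 1600 :=
    ⟨min γP (min γG (min θ (p ^ 2 * ε * μ / 1600))), by positivity, min_le_left _ _,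
      (min_le_right _ _).trans (min_le_left _ _),
      (min_le_right _ _).trans ((min_le_right _ _).trans (min_le_left _ _)),
      (min_le_right _ _).trans ((min_le_right _ _).trans (min_le_right _ _))⟩
  obtain ⟨K, hKL, hK40⟩ : ∃ K : ℕ, L + 4 ≤ K ∧ 40 / γ1 ≤ (K : ℝ) := by
    obtain ⟨K0, hK0⟩ := exists_nat_ge (40 / γ1)
    refine ⟨K0 + L + 4, by omega, ?_⟩
    push_cast
    have : (0:ℝ) ≤ L := Nat.cast_nonneg _
    linarith
  obtain ⟨L1, hKL1, hL1c⟩ : ∃ L1 : ℕ, K + 4 ≤ L1 ∧ 100 * ((K : ℝ) + 4) / γ1 ≤ (L1 : ℝ) := by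
    obtain ⟨L2, hL2'⟩ := exists_nat_ge (100 * ((K : ℝ) + 4) / γ1)
    refine ⟨L2 + K + 4, by omega, ?_⟩
    push_cast
    have : (0:ℝ) ≤ K := Nat.cast_nonneg _
    linarith
  obtain ⟨θ3, hθ30, hθ3def, hθ3γ1⟩ : ∃ θ3 : ℝ, 0 < θ3 ∧ θ3 = γ1 / 100 ∧ θ3 ≤ γ1 :=
    ⟨γ1 / 100, by positivity, rfl, by linarith⟩
  obtain ⟨γ3, hγ3, m4, hG3⟩ := hG1 (L1 + 1) μ hμ (hμle.trans hbG) η hη (hηle.trans hbG) p hp hp4 θ3 hθ30
  obtain ⟨γA, hγA, hγA3, hγA1⟩ : ∃ γA : ℝ, 0 < γA ∧ γA ≤ γ3 ∧ γA ≤ γ1 / 100 :=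
    ⟨min γ3 (γ1 / 100), by positivity, min_le_left _ _, min_le_right _ _⟩
  obtain ⟨β, hβ, m5, hA2⟩ := hA1 L1 γA hγA
  obtain ⟨ζ, hζ, hζ1, hζ2, hζ3⟩ : ∃ ζ : ℝ, 0 < ζ ∧ ζ ≤ β / 8 ∧ ζ ≤ p / 100 ∧ ζ ≤ p ^ 2 * ε / 800 :=
    ⟨min (β / 8) (min (p / 100) (p ^ 2 * ε / 800)), by positivity, min_le_left _ _,
      (min_le_right _ _).trans (min_le_left _ _), (min_le_right _ _).trans (min_le_right _ _)⟩
  obtain ⟨m6, hR2⟩ := hR1 μ hμ (hμle.trans hbR) η hη (hηle.trans hbR) p hp hp4 ζ hζ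
  obtain ⟨m7, hm7⟩ := exists_nat_ge (2 / μ + 2 / ε + 16 / κ + 1 + L1 + 4 * (K : ℝ) ^ 2)
  refine ⟨β / 8, by positivity, m1 + m2 + m3 + m4 + m5 + m6 + m7, ?_⟩
  intro V C _ _ _ _ δ U U' U'' D D' D'' S ls N hU hSt hbal hU'' hD'' hU''c hD''c hls hlsL hN hdiv
  classical
  have hm7' : 2 / μ + 2 / ε + 16 / κ + 1 + L1 + 4 * (K : ℝ) ^ 2 ≤ (U.card : ℝ) :=
    hm7.trans (by exact_mod_cast (by omega : m7 ≤ U.card))
  have hq1 : 0 < 2 / μ := by positivity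
  have hq2 : 0 < 2 / ε := by positivity
  have hq3 : 0 < 16 / κ := by positivity
  have hq4 : (0:ℝ) ≤ L1 := Nat.cast_nonneg _
  have hq5 : (0:ℝ) ≤ 4 * (K : ℝ) ^ 2 := by positivity
  have hμm : 2 ≤ μ * U.card := by
    have : 2 / μ ≤ (U.card : ℝ) := by linarith
    rw [div_le_iff₀ hμ] at this; linarith
  have hεm : 2 ≤ ε * U.card := by
    have : 2 / ε ≤ (U.card : ℝ) := by linarith
    rw [div_le_iff₀ hε] at this; linarith
  have hκm : 16 ≤ κ * U.card := by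
    have : 16 / κ ≤ (U.card : ℝ) := by linarith
    rw [div_le_iff₀ hκ] at this; linarith
  have hm1 : (1:ℝ) ≤ U.card := by linarith
  have hm0 : (0:ℝ) ≤ U.card := by linarith
  have hL1m : L1 ≤ U.card := by
    have : (L1 : ℝ) ≤ (U.card : ℝ) := by linarith
    exact_mod_cast this
  have hK2m : 4 * (K : ℝ) ^ 2 ≤ (U.card : ℝ) := by linarith
  have hUne : U.Nonempty := by
    rw [← Finset.card_pos]
    have : (0:ℝ) < U.card := by linarith
    exact_mod_cast this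
  haveI : Nonempty V := ⟨hUne.choose⟩
  obtain ⟨R, hRes⟩ := hR2 V C δ (β / 8) U U' U'' D D' D'' S (by omega) hSt hU'' hD'' hU''c hD''c
  obtain ⟨hs1, hs2, hs3, hs4, hs5, hs6⟩ := star_hyps (κ := κ) (β := β) hε hμ hκ (hμle.trans hbκ) hη.le
    (hηle.trans hbκ) hp hpκ (by linarith) hζ.le (by linarith) hζ1 (by positivity) (le_refl _) hεm hκm
    (by linarith) hSt hbal hRes
  -- the long cycles
  obtain ⟨h, q, e, t, nx, len, Λ, he0, he1, heq, hnx, hnx2, hnxi, hΛ, hΛc, hh, hhm, hqm, htsum⟩ :=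
    ca_arrange K L1 U.card N (by omega) (ca_n4 hα (by omega) (by omega) hN)
  obtain ⟨N', hN'⟩ : ∃ N' : ℕ → ℕ, ∀ l, N' l = if l = K then N K + h else N l := ⟨_, fun _ => rfl⟩
  have hslot : ∑ l ∈ (Icc 3 L1).erase ls, (l : ℝ) * (N' l : ℝ) ≤ (1 - α) * U.card :=
    ca_n5 hls (by omega) (by omega) hL1m hh hN' hN
  have hcolP := ca_n3 hγ1 (by omega) hγ1P htsum hhm hqm hK40 hL1c
  have hKpos : (0:ℝ) < K := by exact_mod_cast (by omega : 0 < K)
  have hγ5 := ca_n1 hγ1 hKpos hK40 hm0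
  have hsumτ := ca_n10 hμ hε hp hθ2 hγ1p hζ3
  have hload := ca_n11 hμ hp hKl hpη hθ1
  obtain ⟨F0, h01, h02, h03, h04, h05⟩ := hA2 V C U D (starS U' D' S R) ls N' (by omega) hs1 hs2 hs3 hs4
    hs5 hs6 hls (by omega) hslot
  clear hh hhm hqm htsum hN hslot
  have hF0s : un F0 ⊆ starS U' D' S R := un_subset fun r hr => (h01 r hr).1
  -- breaking edges
  obtain ⟨FK, hFK⟩ : ∃ FK : Finset (Finset (Item V C)), FK = F0.filter (fun r => ∃ c ∈ D, IsPiece K c r) :=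
    ⟨_, rfl⟩
  have hFKm : ∀ r, r ∈ FK ↔ r ∈ F0 ∧ ∃ c ∈ D, IsPiece K c r := by
    intro r; rw [hFK, Finset.mem_filter]
  obtain ⟨e0, he0q, he0l⟩ := hB V C K U D FK (by omega) hUne (h02.subset (fun r hr => ((hFKm r).1 hr).1))
    (fun r hr => ((hFKm r).1 hr).2)
    (by
      intro r hr v c hi
      have h1 := hF0s (subset_un ((hFKm r).1 hr).1 hi)
      exact (hs1.2 v c h1).1)
  have hK1 : (1:ℝ) ≤ K := by exact_mod_cast (by omega : 1 ≤ K)
  have hDU : (D.card : ℝ) ≤ U.card := by exact_mod_cast hs3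
  have hloadK : ∀ v, ((FK.filter (fun r => v ∈ e0 r)).card : ℝ) ≤ 5 * (U.card : ℝ) / K :=
    fun v => ca_n2 hK1 hK2m hDU (he0l v)
  -- missing slots
  have h30 : 0 ≤ γ3 * (U.card : ℝ) := mul_nonneg hγ3.le hm0
  have h3G : 0 ≤ γG * (U.card : ℝ) := mul_nonneg hγG.le hm0
  obtain ⟨Fs, hs11, hs12, _, hs14, _, hs16, _, _, hs19, hs110, hs111⟩ := hG3 V C δ (β / 8) ζ U U' U'' D D' D''
    S R ∅ ∅ (L1 + 1)
    (fun c l => if c ∈ D ∧ l ∈ (Icc 3 L1).erase ls then N' l - cnt F0 l c else 0)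
    (by omega) hSt hU'' hD'' hU''c hD''c hRes hζ.le hζ2 (by omega) le_rfl (Finset.empty_subset _)
    (Finset.disjoint_empty_left _) (Finset.disjoint_empty_left _)
    (fun v => ⟨by rw [nb_empty, Finset.card_empty, Nat.cast_zero]; exact h30,
      by rw [cl_empty, Finset.card_empty, Nat.cast_zero]; exact h30⟩)
    (fun c => by rw [vt_empty, Finset.card_empty, Nat.cast_zero]; exact h30)
    (fun v _ => ⟨by rw [nb_empty, Finset.card_empty, Nat.cast_zero]; exact h30,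
      by rw [cl_empty, Finset.card_empty, Nat.cast_zero]; exact h30⟩)
    (fun c _ => by rw [vt_empty, Finset.card_empty, Nat.cast_zero]; exact h30)
    (by intro u v hi; simp at hi) (by intro u v hi; simp at hi)
    (by
      intro c l
      split_ifs with h'
      · exact ca_n12 (h03 c h'.1 l h'.2).1 (h03 c h'.1 l h'.2).2 hγA3 hm0
      · rw [Nat.cast_zero]; exact h30)
  have hFsl : ∀ r ∈ Fs, (∀ i ∈ r, i ∈ R ∨ insOK U' U'' D' S i) ∧ ∃ l ∈ Icc 3 L1, ∃ c ∈ D, IsPiece l c r := by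
    intro r hr
    obtain ⟨h1, l, hl, c, hc, h2⟩ := hs11 r hr
    refine ⟨?_, l, ?_, c, hc, h2⟩
    · intro i hi
      rcases h1 i hi with h3 | h3
      · simp at h3
      · exact h3
    · rw [Finset.mem_Icc] at hl ⊢
      refine ⟨hl.1, ?_⟩
      by_contra hcon
      have h3 : l = L1 + 1 := by omega
      rw [h3] at h2
      obtain ⟨i, hi, _⟩ := hs16 r hr c h2
      simp at hi
  have hFsU : ∀ r ∈ Fs, ∀ u v, (Sum.inl s(u, v) : Item V C) ∈ r → u ∈ U' ∧ v ∈ U' := by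
    intro r hr
    obtain ⟨_, l, hl, c, hc, h2⟩ := hFsl r hr
    refine (hs14 r hr l ?_ c h2).1
    rw [Finset.mem_erase, Finset.mem_Icc]
    rw [Finset.mem_Icc] at hl
    omega
  have hFsi : ∀ i ∈ un Fs, i ∈ R ∨ insOK U' U'' D' S i := by
    intro i hi
    obtain ⟨r, hr, hir⟩ := mem_un.1 hi
    exact (hFsl r hr).1 i hir
  have hstar_not : ∀ i, i ∈ starS U' D' S R → ¬ (i ∈ R ∨ insOK U' U'' D' S i) := by
    intro i hi h'
    rcases h' with h' | h'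
    · exact (mem_starS.1 hi).2.1 h'
    · exact (mem_starS.1 hi).2.2 (ca_insOK_inn h')
  have hd0s : Disjoint (un F0) (un Fs) := by
    rw [Finset.disjoint_left]
    intro i h1 h2
    exact hstar_not i (hF0s h1) (hFsi i h2)
  have hcnt : ∀ c ∈ D, ∀ l ∈ (Icc 3 L1).erase ls,
      cnt F0 l c + cnt Fs l c = if l = K then N K + h else N l := by
    intro c hc l hl
    have h1 : cnt Fs l c = N' l - cnt F0 l c := by
      rw [hs19 c hc l (by
        simp only [Finset.mem_erase, Finset.mem_Icc] at hl ⊢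
        omega), if_pos ⟨hc, hl⟩]
    have h2 := (h03 c hc l hl).1
    rw [← hN' l]
    omega
  -- the chosen edges
  have hex : ∀ r : Finset (Item V C), ∃ e : Sym2 V, (∃ c, IsPiece K c r) → (Sum.inl e : Item V C) ∈ r := by
    intro r
    by_cases h1 : ∃ c, IsPiece K c r
    · obtain ⟨c, h2⟩ := h1
      obtain ⟨e, he⟩ := IsPiece.exists_edge' h2
      exact ⟨e, fun _ => he⟩
    · exact ⟨s(hUne.choose, hUne.choose), fun h' => absurd h' h1⟩
  choose e1 he1q using hex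
  have hKin : K ∈ (Icc 3 L1).erase ls := by
    simp only [Finset.mem_erase, Finset.mem_Icc]; omega
  obtain ⟨yq, a, b', hy, hyi⟩ := ca_break hDr (D := D) (F := F0 ∪ Fs) (K := K) (h := h)
    (by
      intro c hc
      rw [cnt_union hd0s, hcnt c hc K hKin, if_pos rfl]
      omega)
    (fun r => if r ∈ FK then e0 r else e1 r)
    (by
      intro r _ hr2
      show (Sum.inl (if r ∈ FK then e0 r else e1 r) : Item V C) ∈ r
      split_ifs with h1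
      · exact he0q r h1
      · obtain ⟨c, hc, h2⟩ := hr2
        exact he1q r ⟨c, h2⟩)
  have hy1 : ∀ c ∈ D, ∀ j < h, yq c j ∈ F0 ∪ Fs ∧ IsPiece K c (yq c j) ∧
      IsPath K c (a c j) (b' c j) ((yq c j).erase (Sum.inl s(a c j, b' c j))) ∧
      (Sum.inl s(a c j, b' c j) : Item V C) ∈ yq c j := by
    intro c hc j hj
    obtain ⟨h1, h2, h3, h4, h5⟩ := hy c hc j hj
    refine ⟨h1, h2, h5, ?_⟩
    rw [← h3]
    show (Sum.inl (if yq c j ∈ FK then e0 (yq c j) else e1 (yq c j)) : Item V C) ∈ yq c j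
    split_ifs with h6
    · exact he0q _ h6
    · exact he1q _ ⟨c, h2⟩
  have hyE : ∀ c ∈ D, ∀ j < h, yq c j ∈ F0 → yq c j ∈ FK ∧ e0 (yq c j) = s(a c j, b' c j) := by
    intro c hc j hj h1
    obtain ⟨_, h2, h3, _, _⟩ := hy c hc j hj
    have h4 : yq c j ∈ FK := (hFKm _).2 ⟨h1, c, hc, h2⟩
    refine ⟨h4, ?_⟩
    rw [if_pos h4] at h3
    exact h3
  -- loads of the leftover
  have hLv : ∀ v ∈ U, ((nb (loS U' D' S R F0 D h a b') v).card : ℝ) ≤ γ1 * U.card ∧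
      ((cl (loS U' D' S R F0 D h a b') v).card : ℝ) ≤ γ1 * U.card := by
    intro v hv
    have h1 := lo_nb (U' := U') (U'' := U'') (D' := D') (S := S) (R := R) (F0 := F0) (Fs := Fs) (FK := FK)
      (D := D) (h := h) (a := a) (b := b') (yq := yq) (e0 := e0) hFsi
      (fun c hc j hj => ⟨(hy1 c hc j hj).1, (hy1 c hc j hj).2.2.2⟩) hyE v
    have h1' : ((nb (loS U' D' S R F0 D h a b') v).card : ℝ) ≤
        (nb (starS U' D' S R \ un F0) v).card + ((FK.filter (fun r => v ∈ e0 r)).card : ℝ) := by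
      exact_mod_cast h1
    have h2 : ((cl (loS U' D' S R F0 D h a b') v).card : ℝ) ≤ (cl (starS U' D' S R \ un F0) v).card := by
      exact_mod_cast lo_cl (U' := U') (D' := D') (S := S) (R := R) (F0 := F0) (D := D) (h := h) (a := a)
        (b := b') v
    exact ⟨ca_n6 h1' (h04 v hv).1 (hloadK v) hγ5 hγA1 hγ1 hm0, ca_n7 h2 (h04 v hv).2 hγA1 hγ1 hm0⟩
  have hLc : ∀ c ∈ D, ((vt (loS U' D' S R F0 D h a b') c).card : ℝ) ≤ γ1 * U.card := by
    intro c hc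
    have h2 : ((vt (loS U' D' S R F0 D h a b') c).card : ℝ) ≤ (vt (starS U' D' S R \ un F0) c).card := by
      exact_mod_cast lo_vt (U' := U') (D' := D') (S := S) (R := R) (F0 := F0) (D := D) (h := h) (a := a)
        (b := b') c
    exact ca_n7 h2 (h05 c hc) hγA1 hγ1 hm0
  have hθ3le : θ3 * (U.card : ℝ) ≤ γ1 * U.card := mul_le_mul_of_nonneg_right hθ3γ1 hm0
  have hγ1Gm : γ1 * (U.card : ℝ) ≤ γG * U.card := mul_le_mul_of_nonneg_right hγ1G hm0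
  have hγ1Pm : γ1 * (U.card : ℝ) ≤ γP * U.card := mul_le_mul_of_nonneg_right hγ1P hm0
  have hγ1θm : γ1 * (U.card : ℝ) ≤ θ * U.card := mul_le_mul_of_nonneg_right hγ1θ hm0
  have hlosub : loS U' D' S R F0 D h a b' ⊆ starS U' D' S R := fun i hi => (mem_loS.1 hi).1
  -- covering the leftover
  obtain ⟨F12, h11, h12, h13, _, _, _, h17, h18, h19, h110, h111⟩ := hG2 V C δ (β / 8) ζ U U' U'' D D' D''
    S R (loS U' D' S R F0 D h a b') (un Fs) ls (fun _ _ => 0)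
    (by omega) hSt hU'' hD'' hU''c hD''c hRes hζ.le hζ2 hls hlsL
    (hlosub.trans (fun i hi => (mem_starS.1 hi).1))
    (by
      rw [Finset.disjoint_left]
      intro i hi hiR
      exact (mem_starS.1 (hlosub hi)).2.1 hiR)
    (by
      rw [Finset.disjoint_left]
      intro i hi hiF
      exact hstar_not i (hlosub hi) (hFsi i hiF))
    (fun v => ⟨(hs110 v).1.trans (hθ3le.trans hγ1Gm), (hs110 v).2.trans (hθ3le.trans hγ1Gm)⟩)
    (fun c => (hs111 c).trans (hθ3le.trans hγ1Gm))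
    (fun v hv => ⟨(hLv v hv).1.trans hγ1Gm, (hLv v hv).2.trans hγ1Gm⟩)
    (fun c hc => (hLc c hc).trans hγ1Gm)
    (by
      intro u v hi h'
      exact (mem_starS.1 (hlosub hi)).2.2 (inn_inl.2 h'))
    (by
      intro v c hi h'
      exact (mem_starS.1 (hlosub hi)).2.2 (inn_inr.2 h'))
    (fun c l => by rw [Nat.cast_zero]; exact h3G)
  have hθ2m : θ2 * (U.card : ℝ) ≤ θ * U.card := mul_le_mul_of_nonneg_right hθ2θ hm0
  have hWP : θ3 * (U.card : ℝ) + θ2 * U.card ≤ γP * U.card := ca_n9 hθ3def hγ1 hγ1P hθ2P hm0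
  -- ends of the paths
  have hsub01 : ∀ c ∈ D, ∀ j < h, (Sum.inr (a c j, c) : Item V C) ∈ yq c j ∧
      (Sum.inr (b' c j, c) : Item V C) ∈ yq c j := by
    intro c hc j hj
    obtain ⟨_, h2, _, h4⟩ := hy1 c hc j hj
    exact h2.ends h4
  have hroot : ∀ c ∈ D, ∀ j < h, ∀ v, (Sum.inr (v, c) : Item V C) ∈ yq c j →
      v ∈ U ∧ ((Sum.inr (v, c) : Item V C) ∈ un Fs ∪ un F12 ∨ (Sum.inr (v, c) : Item V C) ∉ S ∨
          ((Sum.inr (v, c) : Item V C) ∉ R ∧ ¬ (v ∈ U' ∧ c ∈ D'))) := by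
    intro c hc j hj v hv
    obtain ⟨h1, _⟩ := hy1 c hc j hj
    rcases Finset.mem_union.1 h1 with h1 | h1
    · have h2 := hF0s (subset_un h1 hv)
      refine ⟨(hs1.2 v c h2).1, Or.inr (Or.inr ⟨(mem_starS.1 h2).2.1, fun h' => ?_⟩)⟩
      exact (mem_starS.1 h2).2.2 (inn_inr.2 h')
    · have h2 : (Sum.inr (v, c) : Item V C) ∈ un Fs := subset_un h1 hv
      refine ⟨?_, Or.inl (Finset.mem_union_left _ h2)⟩
      have h3 : (Sum.inr (v, c) : Item V C) ∈ S := by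
        rcases hFsi _ h2 with h4 | h4
        · exact hRes.sub h4
        · exact h4.1
      exact (hSt.ins.2 v c h3).1
  have hFPD : PD (F0 ∪ Fs) := h02.union hs12 hd0s
  have hne : ∀ c ∈ D, ∀ j < h, b' c j ≠ a c (nx j) := by
    intro c hc j hj heq'
    by_cases h1 : nx j = j
    · rw [h1] at heq'
      exact (hy c hc j hj).2.2.2.1 heq'.symm
    · have hnj := (hnx2 j hj).1
      have h2 : yq c j ≠ yq c (nx j) := fun h' => h1 (hyi c hc j hj _ hnj h').symm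
      have h3 := hFPD _ (hy1 c hc j hj).1 _ (hy1 c hc _ hnj).1 h2
      refine Finset.disjoint_left.1 h3 (hsub01 c hc j hj).2 ?_
      rw [heq']
      exact (hsub01 c hc _ hnj).1
  have hmemP : ∀ i : ↥(D ×ˢ range h), i.1.1 ∈ D ∧ i.1.2 < h := by
    intro i
    have := Finset.mem_product.1 i.2
    exact ⟨this.1, Finset.mem_range.1 this.2⟩
  obtain ⟨g, hg1, hg2, hg3, hg4, hg5, hg6⟩ := hP2 V C δ (β / 8) ζ U U' U'' D D' D'' S R (un Fs ∪ un F12)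
    ↥(D ×ˢ range h) (fun i => i.1.1) (fun i => b' i.1.1 i.1.2) (fun i => a i.1.1 (nx i.1.2))
    (fun i => t i.1.2)
    (by omega) hSt hU'' hD'' hU''c hD''c hRes hζ.le hζ2
    (by
      intro v
      rw [nb_union, cl_union]
      exact ⟨((card_le_add2 (Finset.Subset.refl _)).trans (add_le_add (hs110 v).1 (h110 v).1)).trans hWP,
        ((card_le_add2 (Finset.Subset.refl _)).trans (add_le_add (hs110 v).2 (h110 v).2)).trans hWP⟩)
    (by
      intro c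
      rw [vt_union]
      exact ((card_le_add2 (Finset.Subset.refl _)).trans (add_le_add (hs111 c) (h111 c))).trans hWP)
    (by
      intro i
      obtain ⟨hc, hj⟩ := hmemP i
      have hnj := (hnx2 _ hj).1
      refine ⟨hc, (hroot _ hc _ hj _ (hsub01 _ hc _ hj).2).1, (hroot _ hc _ hnj _ (hsub01 _ hc _ hnj).1).1,
        hne _ hc _ hj, ?_⟩
      have := (hnx2 _ hj).2
      show 3 ≤ t i.1.2
      omega)
    (by
      intro i
      obtain ⟨hc, hj⟩ := hmemP i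
      have hnj := (hnx2 _ hj).1
      exact ⟨(hroot _ hc _ hj _ (hsub01 _ hc _ hj).2).2, (hroot _ hc _ hnj _ (hsub01 _ hc _ hnj).1).2⟩)
    (by
      intro v
      have h1 := root_load (F0 := F0) (Fs := Fs) (FK := FK) (D := D) (K := K) (h := h) (a := a) (b := b')
        (yq := yq) (e0 := e0) (nx := nx) hs12
        (fun c hc j hj => ⟨(hy1 c hc j hj).1, (hy1 c hc j hj).2.1, (hy1 c hc j hj).2.2.2⟩) hyi hyE
        (fun j hj => (hnx2 j hj).1) hnxi v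
      have h2 : ((((univ : Finset ↥(D ×ˢ range h)).filter
          (fun i => b' i.1.1 i.1.2 = v ∨ a i.1.1 (nx i.1.2) = v)).card : ℕ) : ℝ) ≤
          2 * (((FK.filter (fun r => v ∈ e0 r)).card : ℝ) + ((cl (un Fs) v).card : ℝ)) := by
        exact_mod_cast h1
      exact ca_n8 h2 (hloadK v) (hs110 v).2 hγ5 hθ3def hγ1 hγ1P hm0)
    (fun d => (colour_sum (D := D) (h := h) (t := t) d).trans hcolP)
  -- the links as a function of (c, j)
  obtain ⟨gg, hggv⟩ : ∃ gg : C → ℕ → Finset (Item V C), ∀ c ∈ D, ∀ j < h,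
      ∃ hx : (c, j) ∈ D ×ˢ range h, gg c j = g ⟨(c, j), hx⟩ := by
    refine ⟨fun c j => if hx : (c, j) ∈ D ×ˢ range h then g ⟨(c, j), hx⟩ else ∅, ?_⟩
    intro c hc j hj
    have hx : (c, j) ∈ D ×ˢ range h := Finset.mem_product.2 ⟨hc, Finset.mem_range.2 hj⟩
    exact ⟨hx, dif_pos hx⟩
  exact ca_asm hCy (θ := θ) (γ := γ1) (L := L) (L1 := L1) (K := K) (h := h) (q := q) (Lk := univ.biUnion g)
    (F0 := F0) (Fs := Fs) (F12 := F12)
    hε hμ (hμle.trans hb2) (hμle.trans hbε) hη.le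
    (hηle.trans hbε) hp (by linarith) hθ.le hγ1.le hζ.le hKl hsumτ hμm hload hSt hbal hU'' hD'' hU''c hRes hls hlsL
    (by omega) (by omega) hL1m hdiv he0 he1 heq hnx hΛ hΛc h01 h02 hFsl hs12 hFsU hcnt hy1 hyi h11 h12 h13
    (fun c hc l hl => h19 c hc l hl) h17 h18 (g := gg)
    (by
      intro c hc j hj
      obtain ⟨hx, h1⟩ := hggv c hc j hj
      rw [h1]
      exact hg1 ⟨(c, j), hx⟩)
    (by
      intro c hc j hj c' hc' j' hj' hne'
      obtain ⟨hx, h1⟩ := hggv c hc j hj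
      obtain ⟨hx', h1'⟩ := hggv c' hc' j' hj'
      rw [h1, h1']
      exact hg4 _ _ (fun h' => hne' (congrArg Subtype.val h')))
    (by
      intro c hc j hj i hi
      obtain ⟨hx, h1⟩ := hggv c hc j hj
      rw [h1] at hi
      obtain ⟨h2, h3⟩ := hg2 _ i hi
      rw [Finset.mem_union] at h3
      push Not at h3
      exact ⟨h2, h3.1, h3.2⟩)
    (by
      intro c hc j hj
      obtain ⟨hx, h1⟩ := hggv c hc j hj
      rw [h1]
      exact Finset.subset_biUnion_of_mem g (Finset.mem_univ _))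
    (fun v => ⟨(hs110 v).1.trans (hθ3le.trans hγ1θm), (hs110 v).2.trans (hθ3le.trans hγ1θm)⟩)
    (fun c => (hs111 c).trans (hθ3le.trans hγ1θm))
    (fun v => ⟨(h110 v).1.trans hθ2m, (h110 v).2.trans hθ2m⟩)
    (fun c => (h111 c).trans hθ2m)
    hg5 hg6 hLv hLc (fun T hT => hL3 ls hls hlsL V C U U' U'' D D' D'' T (by omega) hT)

end Pool.Agent.OBX
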