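import Mathlib
import Pool.Agent.OBX.Stmts
import Pool.Agent.OBW.Basic
import Pool.Agent.OBW.CdlB

set_option autoImplicit false
set_option linter.unusedSectionVars false
set_option linter.unusedVariables false

/-! The system `S*` (everything outside the reserve and outside `(U', D')`) satisfies the hypotheses
of APPROX. -/

namespace Pool.Agent.OBX

open Finset Pool.Agent.OBW

section
variable {V C : Type} [Fintype V] [DecidableEq V] [Fintype C] [DecidableEq C]

theorem star_ok {δ ε η ξ μ p ζ : ℝ} {U U' U'' : Finset V} {D D' D'' : Finset C}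
    {S R : Finset (Item V C)}
    (hSt : Stage δ ε η ξ μ U U' D D' S) (hRes : Res p ζ μ U U' U'' D D' D'' S R)
    (r : V → ℕ) (B : ℕ) (hbal : ∀ v ∈ U, (nb S v).card = 2 * (cl S v).card + r v)
    (hr : ∀ v, r v ≤ B) (hμ0 : 0 < μ) (hμ1 : μ ≤ 1) (hη : 0 ≤ η) (hp : 0 < p) (hp1 : p ≤ 1)
    (hζ : 0 ≤ ζ) (hξ : 0 ≤ ξ) :
    (∀ v ∈ U, ((D \ cl (starS U' D' S R) v).card : ℝ) ≤ (η + p + ζ + μ) * U.card + 1) ∧
    (∀ c ∈ D, ((U \ vt (starS U' D' S R) c).card : ℝ) ≤ (η + 2 * p + μ) * U.card) ∧
    (∀ v ∈ U, |((nb (starS U' D' S R) v).card : ℝ) - 2 * ((cl (starS U' D' S R) v).card : ℝ)| ≤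
      (3 * ζ + ξ) * U.card + B) := by
  classical
  set m : ℝ := (U.card : ℝ) with hm
  set M : ℝ := (U'.card : ℝ) with hM
  have hm0 : 0 ≤ m := Nat.cast_nonneg _
  have hM0 : 0 ≤ M := Nat.cast_nonneg _
  have hMm : M ≤ μ * m := hSt.Uhi
  have hMm1 : M ≤ m := by nlinarith
  have hD' : (D'.card : ℝ) ≤ μ * m + 1 := by
    have h1 := (abs_le.1 hSt.dD').2
    have h2 := hSt.δhi
    have h3 : δ * M ≤ 1/2 * M := mul_le_mul_of_nonneg_right h2 hM0
    have h4 : 0 ≤ μ * m := by positivity
    change (D'.card : ℝ) - δ * M ≤ 1 at h1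
    linarith
  have hDc : (D.card : ℝ) ≤ m / 2 + 1 := by
    have h1 := (abs_le.1 hSt.dD).2
    have h2 := hSt.δhi
    have h3 : δ * m ≤ 1/2 * m := mul_le_mul_of_nonneg_right h2 hm0
    change (D.card : ℝ) - δ * m ≤ 1 at h1
    linarith
  have hins := hSt.ins
  refine ⟨?_, ?_, ?_⟩
  · intro v hv
    have hsub : D \ cl (starS U' D' S R) v ⊆ (D \ cl S v) ∪ cl R v ∪ (if v ∈ U' then D' else ∅) := by
      intro c hc
      rw [mem_sdiff, mem_cl, mem_starS] at hc
      obtain ⟨hcD, hc2⟩ := hc
      rw [mem_union, mem_union, mem_sdiff, mem_cl, mem_cl]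
      by_cases h1 : (Sum.inr (v, c) : Item V C) ∈ S
      · by_cases h2 : (Sum.inr (v, c) : Item V C) ∈ R
        · exact Or.inl (Or.inr h2)
        · right
          have h3 : inn U' D' (Sum.inr (v, c) : Item V C) := by
            by_contra h; exact hc2 ⟨h1, h2, h⟩
          rw [inn_inr] at h3
          rw [if_pos h3.1]; exact h3.2
      · exact Or.inl (Or.inl ⟨hcD, h1⟩)
    have h3 := card_le_add3 hsub
    have h4 := hSt.missV v hv
    by_cases hvU : v ∈ U'
    · rw [if_pos hvU] at h3
      have h5 := (abs_le.1 (hRes.cu v hvU)).2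
      have h6 : ((cl S v \ D').card : ℝ) ≤ D.card := by
        exact_mod_cast card_le_card ((sdiff_subset).trans (hins.cl_sub v))
      have h6' : p * ((cl S v \ D').card : ℝ) ≤ p * (m / 2 + 1) :=
        mul_le_mul_of_nonneg_left (h6.trans hDc) hp.le
      have hD'2 : (D'.card : ℝ) ≤ μ * m / 2 + 1 := by
        have h1 := (abs_le.1 hSt.dD').2
        have h2 := hSt.δhi
        have h3 : δ * M ≤ 1/2 * M := mul_le_mul_of_nonneg_right h2 hM0
        change (D'.card : ℝ) - δ * M ≤ 1 at h1
        linarith
      -- need `|cl R v| ≤ (p+ζ) m`: use `cl S v \ D' ⊆ D`, `|D| ≤ m`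
      have h7 : ((cl R v).card : ℝ) ≤ p * m + ζ * m := by
        have h8 : p * ((cl S v \ D').card : ℝ) ≤ p * m := by
          apply mul_le_mul_of_nonneg_left _ hp.le
          -- `|D| ≤ m`
          refine h6.trans ?_
          by_cases hm2 : (2:ℝ) ≤ m
          · linarith
          · -- tiny case: m < 2, so m ∈ {0, 1}; here v ∈ U gives m = 1
            have hm1 : U.card = 1 := by
              have h9 : 0 < U.card := card_pos.2 ⟨v, hv⟩
              have h10 : (U.card : ℝ) < 2 := not_le.1 hm2
              have h11 : U.card < 2 := by exact_mod_cast h10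
              omega
            have h12 : m = 1 := by rw [hm, hm1]; norm_num
            rw [h12] at hDc ⊢
            have h13 : (D.card : ℝ) < 2 := by linarith
            have h14 : D.card < 2 := by exact_mod_cast h13
            have h15 : D.card ≤ 1 := by omega
            exact_mod_cast h15
        linarith
      have : (η + p + ζ + μ) * m = η * m + p * m + ζ * m + μ * m := by ring
      rw [this]
      have h4' : ((D \ cl S v).card : ℝ) ≤ η * m := h4
      have : 0 ≤ μ * m := by positivity
      linarith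
    · rw [if_neg hvU] at h3
      have h5 : cl R v ⊆ D' := by
        intro c hc
        rw [mem_cl] at hc
        rcases hRes.kP _ _ hc with h | h
        · exact h.2
        · exact absurd h.1 hvU
      have h6 : ((cl R v).card : ℝ) ≤ D'.card := by exact_mod_cast card_le_card h5
      have : (η + p + ζ + μ) * m = η * m + p * m + ζ * m + μ * m := by ring
      rw [this]
      have h4' : ((D \ cl S v).card : ℝ) ≤ η * m := h4
      have h7 : 0 ≤ p * m := by positivity
      have h8 : 0 ≤ ζ * m := by positivity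
      simp only [card_empty, Nat.cast_zero] at h3
      linarith
  · intro c hc
    have hsub : U \ vt (starS U' D' S R) c ⊆ (U \ vt S c) ∪ vt R c ∪ (if c ∈ D' then U' else ∅) := by
      intro v hv
      rw [mem_sdiff, mem_vt, mem_starS] at hv
      obtain ⟨hvU, hv2⟩ := hv
      rw [mem_union, mem_union, mem_sdiff, mem_vt, mem_vt]
      by_cases h1 : (Sum.inr (v, c) : Item V C) ∈ S
      · by_cases h2 : (Sum.inr (v, c) : Item V C) ∈ R
        · exact Or.inl (Or.inr h2)
        · right
          have h3 : inn U' D' (Sum.inr (v, c) : Item V C) := by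
            by_contra h; exact hv2 ⟨h1, h2, h⟩
          rw [inn_inr] at h3
          rw [if_pos h3.2]; exact h3.1
      · exact Or.inl (Or.inl ⟨hvU, h1⟩)
    have h3 := card_le_add3 hsub
    have h4 : ((U \ vt S c).card : ℝ) ≤ η * m := hSt.missC c hc
    have e1 : (η + 2 * p + μ) * m = η * m + 2 * p * m + μ * m := by ring
    rw [e1]
    have h7 : 0 ≤ p * m := by positivity
    by_cases hcD : c ∈ D'
    · rw [if_pos hcD] at h3
      have h5 : ((vt R c).card : ℝ) ≤ 2 * p * m := hRes.xc c hcD
      linarith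
    · rw [if_neg hcD] at h3
      have h5 : vt R c ⊆ U' := by
        intro v hv
        rw [mem_vt] at hv
        rcases hRes.kP _ _ hv with h | h
        · exact absurd h.2 hcD
        · exact h.1
      have h6 : ((vt R c).card : ℝ) ≤ U'.card := by exact_mod_cast card_le_card h5
      simp only [card_empty, Nat.cast_zero] at h3
      linarith
  · intro v hv
    have hRS : R ⊆ S := hRes.sub
    have hbv : ((nb S v).card : ℝ) = 2 * ((cl S v).card : ℝ) + r v := by exact_mod_cast hbal v hv
    have hrv : (r v : ℝ) ≤ B := by exact_mod_cast hr v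
    have hrv0 : (0 : ℝ) ≤ r v := Nat.cast_nonneg _
    by_cases hvU : v ∈ U'
    · -- inside
      have e1 : nb (starS U' D' S R) v = (nb S v \ U') \ nb R v := by
        ext u
        rw [mem_sdiff, mem_sdiff, mem_nb, mem_nb, mem_nb, mem_starS, inn_inl]
        constructor
        · rintro ⟨h1, h2, h3⟩
          exact ⟨⟨h1, fun h => h3 ⟨hvU, h⟩⟩, h2⟩
        · rintro ⟨⟨h1, h2⟩, h3⟩
          exact ⟨h1, h3, fun h => h2 h.2⟩
      have e2 : cl (starS U' D' S R) v = (cl S v \ D') \ cl R v := by
        ext c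
        rw [mem_sdiff, mem_sdiff, mem_cl, mem_cl, mem_cl, mem_starS, inn_inr]
        constructor
        · rintro ⟨h1, h2, h3⟩
          exact ⟨⟨h1, fun h => h3 ⟨hvU, h⟩⟩, h2⟩
        · rintro ⟨⟨h1, h2⟩, h3⟩
          exact ⟨h1, h3, fun h => h2 h.2⟩
      have s1 : nb R v ⊆ nb S v \ U' := by
        intro u hu
        rw [mem_sdiff]
        refine ⟨nb_mono hRS v hu, fun h => ?_⟩
        rw [mem_nb] at hu
        rcases hRes.kE _ _ hu with h' | h'
        · exact h'.2 h
        · exact h'.2 hvU
      have s2 : cl R v ⊆ cl S v \ D' := by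
        intro c hc
        rw [mem_sdiff]
        refine ⟨cl_mono hRS v hc, fun h => ?_⟩
        rw [mem_cl] at hc
        rcases hRes.kP _ _ hc with h' | h'
        · exact h'.1 hvU
        · exact h'.2 h
      have s3 : D' ⊆ cl S v := by
        intro c hc
        rw [mem_cl]
        exact hSt.comp v hvU c hc
      have c1 : ((nb (starS U' D' S R) v).card : ℝ) = (nb S v \ U').card - (nb R v).card := by
        rw [e1, card_sdiff_of_subset s1, Nat.cast_sub (card_le_card s1)]
      have c2 : ((cl (starS U' D' S R) v).card : ℝ) = (cl S v \ D').card - (cl R v).card := by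
        rw [e2, card_sdiff_of_subset s2, Nat.cast_sub (card_le_card s2)]
      have c3 : ((nb S v \ U').card : ℝ) + ((nb S v ∩ U').card : ℝ) = (nb S v).card := by
        exact_mod_cast card_sdiff_add_card_inter (nb S v) U'
      have c4 : ((cl S v \ D').card : ℝ) + (D'.card : ℝ) = (cl S v).card := by
        exact_mod_cast card_sdiff_add_card_eq_card s3
      have h5 := hSt.reg v hvU
      have h6 := hRes.nu v hvU
      have h7 := hRes.cu v hvU
      set A : ℝ := ((nb S v \ U').card : ℝ) with hA
      set A' : ℝ := ((cl S v \ D').card : ℝ) with hA'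
      set N₁ : ℝ := ((nb S v ∩ U').card : ℝ) with hN₁
      have hE : A - 2 * A' = r v - (N₁ - 2 * D'.card) := by linarith
      have hEle : |A - 2 * A'| ≤ B + ξ * m := by
        rw [hE]
        have h8 : |N₁ - 2 * (D'.card : ℝ)| ≤ ξ * M := h5
        have h9 : ξ * M ≤ ξ * m := mul_le_mul_of_nonneg_left hMm1 hξ
        have h10 := abs_le.1 h8
        rw [abs_le]
        constructor <;> linarith
      have h6' := abs_le.1 h6
      have h7' := abs_le.1 h7
      have hdec : ((nb (starS U' D' S R) v).card : ℝ) - 2 * ((cl (starS U' D' S R) v).card : ℝ) =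
          (1 - p) * (A - 2 * A') - (((nb R v).card : ℝ) - p * A) + 2 * (((cl R v).card : ℝ) - p * A') := by
        rw [c1, c2]; ring
      rw [hdec]
      have h11 : |(1 - p) * (A - 2 * A')| ≤ B + ξ * m := by
        rw [abs_mul, abs_of_nonneg (by linarith : 0 ≤ 1 - p)]
        have h12 : (1 - p) * |A - 2 * A'| ≤ 1 * |A - 2 * A'| :=
          mul_le_mul_of_nonneg_right (by linarith) (abs_nonneg _)
        linarith
      have h12 := abs_le.1 h11
      have e3 : (3 * ζ + ξ) * m + (B : ℝ) = 3 * (ζ * m) + ξ * m + B := by ring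
      rw [e3, abs_le]
      constructor <;> linarith
    · -- outside
      have hvX : v ∈ U \ U' := mem_sdiff.2 ⟨hv, hvU⟩
      have e1 : nb (starS U' D' S R) v = nb S v \ nb R v := by
        ext u
        rw [mem_sdiff, mem_nb, mem_nb, mem_nb, mem_starS, inn_inl]
        constructor
        · rintro ⟨h1, h2, h3⟩
          exact ⟨h1, h2⟩
        · rintro ⟨h1, h2⟩
          exact ⟨h1, h2, fun h => hvU h.1⟩
      have e2 : cl (starS U' D' S R) v = cl S v \ cl R v := by
        ext c
        rw [mem_sdiff, mem_cl, mem_cl, mem_cl, mem_starS, inn_inr]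
        constructor
        · rintro ⟨h1, h2, h3⟩
          exact ⟨h1, h2⟩
        · rintro ⟨h1, h2⟩
          exact ⟨h1, h2, fun h => hvU h.1⟩
      have c1 : ((nb (starS U' D' S R) v).card : ℝ) = (nb S v).card - (nb R v).card := by
        rw [e1, card_sdiff_of_subset (nb_mono hRS v), Nat.cast_sub (card_le_card (nb_mono hRS v))]
      have c2 : ((cl (starS U' D' S R) v).card : ℝ) = (cl S v).card - (cl R v).card := by
        rw [e2, card_sdiff_of_subset (cl_mono hRS v), Nat.cast_sub (card_le_card (cl_mono hRS v))]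
      have h5 := abs_le.1 (hRes.bx v hvX)
      have h9 : ζ * M ≤ ζ * m := mul_le_mul_of_nonneg_left hMm1 hζ
      have h10 : 0 ≤ ξ * m := by positivity
      have h11 : 0 ≤ ζ * m := by positivity
      have e3 : (3 * ζ + ξ) * m + (B : ℝ) = 3 * (ζ * m) + ξ * m + B := by ring
      have h5a : -(ζ * M) ≤ ((nb R v).card : ℝ) - 2 * ((cl R v).card : ℝ) := h5.1
      have h5b : ((nb R v).card : ℝ) - 2 * ((cl R v).card : ℝ) ≤ ζ * M := h5.2
      rw [c1, c2, e3, abs_le]
      constructor <;> linarith

end

end Pool.Agent.OBX
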