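import Mathlib
import Pool.Agent.OBX.Stmts
import Pool.Agent.OBW.Basic

set_option autoImplicit false
set_option linter.unusedSectionVars false
set_option linter.unusedVariables false

/-! Utilities for OBX: paths, `Real`, `Sep`, `ends`, `siz`, `uC`. -/

namespace Pool.Agent.OBX

open Finset Pool.Agent.OBW

section
variable {V C : Type} [DecidableEq V] [DecidableEq C]

theorem mem_pit {s : ℕ} {z : ℕ → V} {c : C} {i : Item V C} :
    i ∈ pit s z c ↔ (∃ j, j < s - 1 ∧ i = Sum.inl s(z j, z (j + 1))) ∨ ∃ j, j < s ∧ i = Sum.inr (z j, c) := by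
  unfold pit
  rw [mem_union, mem_image, mem_image]
  constructor
  · rintro (⟨j, hj, rfl⟩ | ⟨j, hj, rfl⟩)
    · exact Or.inl ⟨j, mem_range.1 hj, rfl⟩
    · exact Or.inr ⟨j, mem_range.1 hj, rfl⟩
  · rintro (⟨j, hj, rfl⟩ | ⟨j, hj, rfl⟩)
    · exact Or.inl ⟨j, mem_range.2 hj, rfl⟩
    · exact Or.inr ⟨j, mem_range.2 hj, rfl⟩

theorem inl_mem_pit {s : ℕ} {z : ℕ → V} {c : C} {e : Sym2 V} :
    (Sum.inl e : Item V C) ∈ pit s z c ↔ ∃ j, j < s - 1 ∧ e = s(z j, z (j + 1)) := by
  rw [mem_pit]
  constructor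
  · rintro (⟨j, hj, h⟩ | ⟨j, hj, h⟩)
    · exact ⟨j, hj, Sum.inl.inj h⟩
    · simp at h
  · rintro ⟨j, hj, rfl⟩; exact Or.inl ⟨j, hj, rfl⟩

theorem inr_mem_pit {s : ℕ} {z : ℕ → V} {c c' : C} {v : V} :
    (Sum.inr (v, c') : Item V C) ∈ pit s z c ↔ (∃ j, j < s ∧ v = z j) ∧ c' = c := by
  rw [mem_pit]
  constructor
  · rintro (⟨j, hj, h⟩ | ⟨j, hj, h⟩)
    · simp at h
    · have := Sum.inr.inj h
      rw [Prod.mk.injEq] at this
      exact ⟨⟨j, hj, this.1⟩, this.2⟩
  · rintro ⟨⟨j, hj, rfl⟩, rfl⟩; exact Or.inr ⟨j, hj, rfl⟩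

theorem IsPath.colour {s : ℕ} {c c' : C} {a b v : V} {q : Finset (Item V C)} (h : IsPath s c a b q)
    (hv : (Sum.inr (v, c') : Item V C) ∈ q) : c' = c := by
  obtain ⟨_, z, _, _, _, rfl⟩ := h
  exact (inr_mem_pit.1 hv).2

theorem IsPath.left {s : ℕ} {c : C} {a b : V} {q : Finset (Item V C)} (h : IsPath s c a b q) :
    (Sum.inr (a, c) : Item V C) ∈ q := by
  obtain ⟨hs, z, _, ha, _, rfl⟩ := h
  exact inr_mem_pit.2 ⟨⟨0, by omega, ha.symm⟩, rfl⟩

theorem IsPath.right {s : ℕ} {c : C} {a b : V} {q : Finset (Item V C)} (h : IsPath s c a b q) :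
    (Sum.inr (b, c) : Item V C) ∈ q := by
  obtain ⟨hs, z, _, _, hb, rfl⟩ := h
  exact inr_mem_pit.2 ⟨⟨s - 1, by omega, hb.symm⟩, rfl⟩

theorem IsPath.ne_iff {s : ℕ} {c : C} {a b : V} {q : Finset (Item V C)} (h : IsPath s c a b q) :
    a = b ↔ s = 1 := by
  obtain ⟨hs, z, hz, ha, hb, rfl⟩ := h
  constructor
  · intro hab
    have h1 : z 0 = z (s - 1) := by rw [ha, hb, hab]
    have := hz (Set.mem_Iio.2 (by omega)) (Set.mem_Iio.2 (by omega)) h1
    omega
  · rintro rfl; rw [← ha, ← hb]

/-- ends of an edge of a path belong to it -/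
theorem IsPath.ends_mem {s : ℕ} {c : C} {a b u v : V} {q : Finset (Item V C)} (h : IsPath s c a b q)
    (hv : (Sum.inl s(u, v) : Item V C) ∈ q) :
    (Sum.inr (u, c) : Item V C) ∈ q ∧ (Sum.inr (v, c) : Item V C) ∈ q := by
  obtain ⟨hs, z, hz, ha, hb, rfl⟩ := h
  obtain ⟨j, hj, he⟩ := inl_mem_pit.1 hv
  rw [Sym2.eq_iff] at he
  rcases he with ⟨rfl, rfl⟩ | ⟨rfl, rfl⟩
  · exact ⟨inr_mem_pit.2 ⟨⟨j, by omega, rfl⟩, rfl⟩, inr_mem_pit.2 ⟨⟨j + 1, by omega, rfl⟩, rfl⟩⟩
  · exact ⟨inr_mem_pit.2 ⟨⟨j + 1, by omega, rfl⟩, rfl⟩, inr_mem_pit.2 ⟨⟨j, by omega, rfl⟩, rfl⟩⟩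

theorem IsPath.symm {s : ℕ} {c : C} {a b : V} {q : Finset (Item V C)} (h : IsPath s c a b q) :
    IsPath s c b a q := by
  obtain ⟨hs, z, hz, ha, hb, rfl⟩ := h
  refine ⟨hs, fun i => z (s - 1 - i), ?_, ?_, ?_, ?_⟩
  · intro i hi j hj hij
    have hi' := Set.mem_Iio.1 hi
    have hj' := Set.mem_Iio.1 hj
    have := hz (Set.mem_Iio.2 (by omega : s - 1 - i < s)) (Set.mem_Iio.2 (by omega : s - 1 - j < s)) hij
    omega
  · simpa using hb
  · simp only [Nat.sub_self]; exact ha
  · ext i
    rw [mem_pit, mem_pit]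
    constructor
    · rintro (⟨j, hj, rfl⟩ | ⟨j, hj, rfl⟩)
      · left
        refine ⟨s - 1 - (j + 1), by omega, ?_⟩
        have e1 : s - 1 - (s - 1 - (j + 1)) = j + 1 := by omega
        have e2 : s - 1 - (s - 1 - (j + 1) + 1) = j := by omega
        rw [e1, e2, Sym2.eq_swap]
      · right
        refine ⟨s - 1 - j, by omega, ?_⟩
        have e1 : s - 1 - (s - 1 - j) = j := by omega
        rw [e1]
    · rintro (⟨j, hj, rfl⟩ | ⟨j, hj, rfl⟩)
      · left
        refine ⟨s - 1 - (j + 1), by omega, ?_⟩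
        have e2 : s - 1 - (j + 1) + 1 = s - 1 - j := by omega
        rw [e2, Sym2.eq_swap]
      · right
        exact ⟨s - 1 - j, by omega, rfl⟩

theorem IsPath.single (c : C) (a : V) : IsPath 1 c a a {(Sum.inr (a, c) : Item V C)} := by
  refine ⟨le_refl _, fun _ => a, ?_, rfl, rfl, ?_⟩
  · intro i hi j hj _
    have hi' := Set.mem_Iio.1 hi
    have hj' := Set.mem_Iio.1 hj
    omega
  · unfold pit; simp

/-! `Real` -/

theorem Real.nil (c : C) : Real c ([] : List (Mem V)) ∅ :=
  ⟨fun _ => ∅, by simp, by simp, by simp⟩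

theorem Real.eq_empty {c : C} {Y : Finset (Item V C)} (h : Real c ([] : List (Mem V)) Y) : Y = ∅ := by
  obtain ⟨q, _, _, rfl⟩ := h
  simp

theorem Real.singleton {c : C} {m : Mem V} {q : Finset (Item V C)}
    (h : IsPath m.2.2 c m.1 m.2.1 q) : Real c [m] q := by
  refine ⟨fun _ => q, ?_, ?_, ?_⟩
  · intro i hi
    have : i = 0 := by simpa using hi
    subst this
    exact h
  · intro i hi j hj hij
    simp at hi hj
    omega
  · simp

theorem Real.append {c : C} {ms ns : List (Mem V)} {Y Z : Finset (Item V C)}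
    (hY : Real c ms Y) (hZ : Real c ns Z) (h : Disjoint Y Z) : Real c (ms ++ ns) (Y ∪ Z) := by
  obtain ⟨q, hq1, hq2, rfl⟩ := hY
  obtain ⟨r, hr1, hr2, rfl⟩ := hZ
  rw [Finset.disjoint_left] at h
  refine ⟨fun i => if i < ms.length then q i else r (i - ms.length), ?_, ?_, ?_⟩
  · intro i hi
    by_cases h1 : i < ms.length
    · simp only [h1, if_true]
      rw [List.getElem_append_left h1]
      exact hq1 i h1
    · simp only [h1, if_false]
      rw [List.getElem_append_right (by omega)]
      exact hr1 _ (by rw [List.length_append] at hi; omega)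
  · intro i hi j hj hij
    rw [List.length_append] at hi hj
    by_cases h1 : i < ms.length <;> by_cases h2 : j < ms.length
    · simp only [h1, h2, if_true]; exact hq2 i h1 j h2 hij
    · simp only [h1, h2, if_true, if_false]
      rw [Finset.disjoint_left]
      intro x hx hx'
      exact h (mem_biUnion.2 ⟨i, mem_range.2 h1, hx⟩)
        (mem_biUnion.2 ⟨j - ms.length, mem_range.2 (by omega), hx'⟩)
    · simp only [h1, h2, if_true, if_false]
      rw [Finset.disjoint_left]
      intro x hx hx'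
      exact h (mem_biUnion.2 ⟨j, mem_range.2 h2, hx'⟩)
        (mem_biUnion.2 ⟨i - ms.length, mem_range.2 (by omega), hx⟩)
    · simp only [h1, h2, if_false]
      exact hr2 _ (by omega) _ (by omega) (by omega)
  · ext x
    rw [mem_union, mem_biUnion, mem_biUnion, mem_biUnion]
    constructor
    · rintro (⟨i, hi, hx⟩ | ⟨i, hi, hx⟩)
      · have hi' := mem_range.1 hi
        refine ⟨i, mem_range.2 (by rw [List.length_append]; omega), ?_⟩
        simp only [hi', if_true]; exact hx
      · have hi' := mem_range.1 hi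
        refine ⟨i + ms.length, mem_range.2 (by rw [List.length_append]; omega), ?_⟩
        have h1 : ¬ (i + ms.length < ms.length) := by omega
        simp only [h1, if_false, Nat.add_sub_cancel]; exact hx
    · rintro ⟨i, hi, hx⟩
      have hi' := mem_range.1 hi
      rw [List.length_append] at hi'
      by_cases h1 : i < ms.length
      · simp only [h1, if_true] at hx
        exact Or.inl ⟨i, mem_range.2 h1, hx⟩
      · simp only [h1, if_false] at hx
        exact Or.inr ⟨i - ms.length, mem_range.2 (by omega), hx⟩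

/-- splitting a realization of `ms ++ ns` -/
theorem Real.split {c : C} {ms ns : List (Mem V)} {Y : Finset (Item V C)}
    (hY : Real c (ms ++ ns) Y) :
    ∃ Y₁ Y₂, Real c ms Y₁ ∧ Real c ns Y₂ ∧ Disjoint Y₁ Y₂ ∧ Y = Y₁ ∪ Y₂ := by
  obtain ⟨q, hq1, hq2, rfl⟩ := hY
  have hlen : (ms ++ ns).length = ms.length + ns.length := List.length_append
  refine ⟨(range ms.length).biUnion q, (range ns.length).biUnion (fun i => q (i + ms.length)),
    ⟨q, ?_, ?_, rfl⟩, ⟨fun i => q (i + ms.length), ?_, ?_, rfl⟩, ?_, ?_⟩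
  · intro i hi
    have := hq1 i (by omega)
    rw [List.getElem_append_left hi] at this
    exact this
  · intro i hi j hj hij
    exact hq2 i (by omega) j (by omega) hij
  · intro i hi
    have := hq1 (i + ms.length) (by omega)
    rw [List.getElem_append_right (by omega)] at this
    simpa using this
  · intro i hi j hj hij
    exact hq2 _ (by omega) _ (by omega) (by omega)
  · rw [Finset.disjoint_left]
    intro x hx hx'
    obtain ⟨i, hi, hxi⟩ := mem_biUnion.1 hx
    obtain ⟨j, hj, hxj⟩ := mem_biUnion.1 hx'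
    have hi' := mem_range.1 hi
    have hj' := mem_range.1 hj
    exact Finset.disjoint_left.1 (hq2 i (by omega) (j + ms.length) (by omega) (by omega)) hxi hxj
  · ext x
    rw [mem_union, mem_biUnion, mem_biUnion, mem_biUnion]
    constructor
    · rintro ⟨i, hi, hx⟩
      have hi' := mem_range.1 hi
      by_cases h1 : i < ms.length
      · exact Or.inl ⟨i, mem_range.2 h1, hx⟩
      · refine Or.inr ⟨i - ms.length, mem_range.2 (by omega), ?_⟩
        rw [Nat.sub_add_cancel (by omega)]; exact hx
    · rintro (⟨i, hi, hx⟩ | ⟨i, hi, hx⟩)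
      · have hi' := mem_range.1 hi
        exact ⟨i, mem_range.2 (by omega), hx⟩
      · have hi' := mem_range.1 hi
        exact ⟨i + ms.length, mem_range.2 (by omega), hx⟩

/-- realization of the list of a finset of indices -/
theorem Real.ofFinset {c : C} {α : Type} [DecidableEq α] (A : Finset α) (f : α → Mem V)
    (P : α → Finset (Item V C)) (h1 : ∀ a ∈ A, IsPath (f a).2.2 c (f a).1 (f a).2.1 (P a))
    (h2 : ∀ a ∈ A, ∀ b ∈ A, a ≠ b → Disjoint (P a) (P b)) :
    Real c (A.toList.map f) (A.biUnion P) := by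
  by_cases hA : A.toList = []
  · have hA' : A = ∅ := by simpa using hA
    subst hA'
    simpa using Real.nil c
  have hlen : (A.toList.map f).length = A.toList.length := List.length_map _
  obtain ⟨a₀, _⟩ := List.exists_mem_of_ne_nil _ hA
  refine ⟨fun i => if h : i < A.toList.length then P (A.toList[i]) else ∅, ?_, ?_, ?_⟩
  · intro i hi
    rw [hlen] at hi
    simp only [hi, dif_pos, List.getElem_map]
    exact h1 _ (mem_toList.1 (List.getElem_mem hi))
  · intro i hi j hj hij
    rw [hlen] at hi hj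
    simp only [hi, hj, dif_pos]
    refine h2 _ (mem_toList.1 (List.getElem_mem hi)) _ (mem_toList.1 (List.getElem_mem hj)) ?_
    intro h
    exact hij ((List.Nodup.getElem_inj_iff A.nodup_toList).1 h)
  · ext x
    rw [mem_biUnion, mem_biUnion, hlen]
    constructor
    · rintro ⟨a, ha, hx⟩
      obtain ⟨i, hi, rfl⟩ := List.getElem_of_mem (mem_toList.2 ha)
      refine ⟨i, mem_range.2 hi, ?_⟩
      simp only [hi, dif_pos]; exact hx
    · rintro ⟨i, hi, hx⟩
      have hi' := mem_range.1 hi
      simp only [hi', dif_pos] at hx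
      exact ⟨_, mem_toList.1 (List.getElem_mem hi'), hx⟩

/-! `ends`, `siz`, `Sep` -/

@[simp] theorem ends_nil (v : V) : ends ([] : List (Mem V)) v = 0 := rfl
@[simp] theorem siz_nil : siz ([] : List (Mem V)) = 0 := rfl

theorem ends_cons (m : Mem V) (ms : List (Mem V)) (v : V) :
    ends (m :: ms) v = (if m.1 = v then 1 else 0) + (if m.2.1 = v then 1 else 0) + ends ms v := by
  unfold ends; simp

theorem siz_cons (m : Mem V) (ms : List (Mem V)) : siz (m :: ms) = m.2.2 + siz ms := by
  unfold siz; simp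

theorem ends_append (ms ns : List (Mem V)) (v : V) : ends (ms ++ ns) v = ends ms v + ends ns v := by
  unfold ends; rw [List.map_append, List.sum_append]

theorem siz_append (ms ns : List (Mem V)) : siz (ms ++ ns) = siz ms + siz ns := by
  unfold siz; rw [List.map_append, List.sum_append]

theorem ends_eq_zero {ms : List (Mem V)} {v : V} (h : ∀ m ∈ ms, m.1 ≠ v ∧ m.2.1 ≠ v) :
    ends ms v = 0 := by
  induction ms with
  | nil => rfl
  | cons m ms ih =>
    rw [ends_cons, if_neg (h m List.mem_cons_self).1, if_neg (h m List.mem_cons_self).2,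
      ih fun m' hm' => h m' (List.mem_cons_of_mem _ hm')]

theorem exists_of_ends_pos {ms : List (Mem V)} {v : V} (h : 0 < ends ms v) :
    ∃ m ∈ ms, m.1 = v ∨ m.2.1 = v := by
  by_contra hcon
  push Not at hcon
  rw [ends_eq_zero hcon] at h
  exact lt_irrefl _ h

/-- separated members with two different ends: at most one end at every vertex -/
theorem ends_le_one {ms : List (Mem V)} (h : Sep ms) (hne : ∀ m ∈ ms, m.1 ≠ m.2.1) (v : V) :
    ends ms v ≤ 1 := by
  induction ms with
  | nil => simp
  | cons m ms ih =>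
    obtain ⟨h1, h2⟩ := h
    rw [List.pairwise_cons] at h2
    have ih' := ih ⟨fun m' hm' => h1 m' (List.mem_cons_of_mem _ hm'), h2.2⟩
      (fun m' hm' => hne m' (List.mem_cons_of_mem _ hm'))
    rw [ends_cons]
    have hm := hne m List.mem_cons_self
    by_cases ha : m.1 = v
    · have hb : m.2.1 ≠ v := fun h => hm (ha.trans h.symm)
      have : ends ms v = 0 := by
        apply ends_eq_zero
        intro m' hm'
        have := h2.1 m' hm'
        rw [ha] at this
        exact ⟨this.1.symm, this.2.1.symm⟩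
      rw [if_pos ha, if_neg hb, this]
    · by_cases hb : m.2.1 = v
      · have : ends ms v = 0 := by
          apply ends_eq_zero
          intro m' hm'
          have := h2.1 m' hm'
          rw [hb] at this
          exact ⟨this.2.2.1.symm, this.2.2.2.symm⟩
        rw [if_neg ha, if_pos hb, this]
      · rw [if_neg ha, if_neg hb]; omega

end

section
variable {V C : Type} [Fintype V] [DecidableEq V] [Fintype C] [DecidableEq C]

theorem mem_uC {D : Finset C} {X : C → Finset (Item V C)} {i : Item V C} :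
    i ∈ uC D X ↔ ∃ c ∈ D, i ∈ X c := by
  unfold uC; rw [mem_biUnion]

theorem sub_uC {D : Finset C} {X : C → Finset (Item V C)} {c : C} (hc : c ∈ D) : X c ⊆ uC D X :=
  fun i hi => mem_uC.2 ⟨c, hc, hi⟩

theorem nb_biUnion_card {ι : Type} [DecidableEq ι] (A : Finset ι) (X : ι → Finset (Item V C))
    (h : ∀ a ∈ A, ∀ b ∈ A, a ≠ b → Disjoint (X a) (X b)) (v : V) :
    (nb (A.biUnion X) v).card = ∑ a ∈ A, (nb (X a) v).card := by
  have e : nb (A.biUnion X) v = A.biUnion (fun a => nb (X a) v) := by
    ext u; rw [mem_nb, mem_biUnion, mem_biUnion]; simp only [mem_nb]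
  rw [e, card_biUnion]
  intro a ha b hb hab
  exact nb_disj (h a ha b hb hab) v

theorem cl_biUnion_card {ι : Type} [DecidableEq ι] (A : Finset ι) (X : ι → Finset (Item V C))
    (h : ∀ a ∈ A, ∀ b ∈ A, a ≠ b → Disjoint (X a) (X b)) (v : V) :
    (cl (A.biUnion X) v).card = ∑ a ∈ A, (cl (X a) v).card := by
  have e : cl (A.biUnion X) v = A.biUnion (fun a => cl (X a) v) := by
    ext u; rw [mem_cl, mem_biUnion, mem_biUnion]; simp only [mem_cl]
  rw [e, card_biUnion]
  intro a ha b hb hab
  exact cl_disj (h a ha b hb hab) v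

theorem vt_biUnion_card {ι : Type} [DecidableEq ι] (A : Finset ι) (X : ι → Finset (Item V C))
    (h : ∀ a ∈ A, ∀ b ∈ A, a ≠ b → Disjoint (X a) (X b)) (c : C) :
    (vt (A.biUnion X) c).card = ∑ a ∈ A, (vt (X a) c).card := by
  have e : vt (A.biUnion X) c = A.biUnion (fun a => vt (X a) c) := by
    ext u; rw [mem_vt, mem_biUnion, mem_biUnion]; simp only [mem_vt]
  rw [e, card_biUnion]
  intro a ha b hb hab
  exact vt_disj (h a ha b hb hab) c

/-- balance of the union of the colour parts -/
theorem uC_bal {D : Finset C} {X : C → Finset (Item V C)} {ms ms' : C → List (Mem V)}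
    {Λ Λ' : C → Multiset ℕ} (hS : ∀ c ∈ D, Step c (ms c) (X c) (Λ c) (ms' c) (Λ' c))
    (hd : ∀ c ∈ D, ∀ d ∈ D, c ≠ d → Disjoint (X c) (X d)) (v : V) :
    (nb (uC D X) v).card + ∑ c ∈ D, ends (ms' c) v =
      2 * (cl (uC D X) v).card + ∑ c ∈ D, ends (ms c) v := by
  unfold uC
  rw [nb_biUnion_card D X hd, cl_biUnion_card D X hd, Finset.mul_sum, ← Finset.sum_add_distrib,
    ← Finset.sum_add_distrib]
  exact Finset.sum_congr rfl fun c hc => (hS c hc).bal v

theorem IsPath.bal {s : ℕ} {c : C} {a b : V} {q : Finset (Item V C)} (h : IsPath s c a b q) (v : V) :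
    (nb q v).card + ((if a = v then 1 else 0) + (if b = v then 1 else 0)) = 2 * (cl q v).card := by
  obtain ⟨hs, z, hz, ha, hb, rfl⟩ := h
  have hinj : ∀ i j, i < s → j < s → z i = z j → i = j := fun i j hi hj h =>
    hz (Set.mem_Iio.2 hi) (Set.mem_Iio.2 hj) h
  by_cases hv : ∃ k, k < s ∧ z k = v
  · obtain ⟨k, hk, rfl⟩ := hv
    have hcl : cl (pit s z c) (z k) = {c} := by
      ext c'
      rw [mem_cl, inr_mem_pit, mem_singleton]
      exact ⟨fun h => h.2, fun h => ⟨⟨k, hk, rfl⟩, h⟩⟩
    have hnb : nb (pit s z c) (z k) =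
        (if k + 1 < s then {z (k + 1)} else ∅) ∪ (if 0 < k then {z (k - 1)} else ∅) := by
      ext u
      rw [mem_nb, inl_mem_pit, mem_union]
      constructor
      · rintro ⟨j, hj, he⟩
        rw [Sym2.eq_iff] at he
        rcases he with ⟨h1, rfl⟩ | ⟨h1, rfl⟩
        · have := hinj k j hk (by omega) h1
          subst this
          left
          rw [if_pos (by omega)]; exact mem_singleton_self _
        · have := hinj k (j + 1) hk (by omega) h1
          subst this
          right
          rw [if_pos (by omega)]; simp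
      · rintro (h | h)
        · split_ifs at h with h1
          · rw [mem_singleton] at h
            subst h
            exact ⟨k, by omega, rfl⟩
          · simp at h
        · split_ifs at h with h1
          · rw [mem_singleton] at h
            subst h
            refine ⟨k - 1, by omega, ?_⟩
            rw [Nat.sub_add_cancel (by omega), Sym2.eq_swap]
          · simp at h
    have hdj : Disjoint (if k + 1 < s then ({z (k + 1)} : Finset V) else ∅)
        (if 0 < k then {z (k - 1)} else ∅) := by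
      rw [Finset.disjoint_left]
      intro x hx hx'
      split_ifs at hx with h1
      · split_ifs at hx' with h2
        · rw [mem_singleton] at hx hx'
          have := hinj (k + 1) (k - 1) h1 (by omega) (hx.symm.trans hx')
          omega
        · simp at hx'
      · simp at hx
    rw [hcl, hnb, card_union_of_disjoint hdj, card_singleton]
    have ha' : (if a = z k then 1 else 0) = (if k = 0 then 1 else 0) := by
      rw [← ha]
      by_cases h0 : k = 0
      · subst h0; simp
      · rw [if_neg h0, if_neg]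
        intro h; exact h0 (hinj 0 k (by omega) hk h).symm
    have hb' : (if b = z k then 1 else 0) = (if k = s - 1 then 1 else 0) := by
      rw [← hb]
      by_cases h0 : k = s - 1
      · rw [if_pos h0, if_pos]; rw [h0]
      · rw [if_neg h0, if_neg]
        intro h; exact h0 (hinj (s - 1) k (by omega) hk h).symm
    rw [ha', hb']
    split_ifs <;> simp <;> omega
  · have hcl : cl (pit s z c) v = ∅ := by
      ext c'
      rw [mem_cl, inr_mem_pit]
      constructor
      · rintro ⟨⟨j, hj, h⟩, _⟩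
        exact absurd ⟨j, hj, h.symm⟩ hv
      · intro h; simp at h
    have hnb : nb (pit s z c) v = ∅ := by
      ext u
      rw [mem_nb, inl_mem_pit]
      constructor
      · rintro ⟨j, hj, he⟩
        rw [Sym2.eq_iff] at he
        rcases he with ⟨h1, _⟩ | ⟨h1, _⟩
        · exact absurd ⟨j, by omega, h1.symm⟩ hv
        · exact absurd ⟨j + 1, by omega, h1.symm⟩ hv
      · intro h; simp at h
    have ha' : a ≠ v := fun h => hv ⟨0, by omega, ha.trans h⟩
    have hb' : b ≠ v := fun h => hv ⟨s - 1, by omega, hb.trans h⟩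
    rw [hcl, hnb, if_neg ha', if_neg hb']
    simp

theorem IsPath.vt_card {s : ℕ} {c : C} {a b : V} {q : Finset (Item V C)} (h : IsPath s c a b q) :
    (vt q c).card = s := by
  obtain ⟨hs, z, hz, ha, hb, rfl⟩ := h
  have e : vt (pit s z c) c = (range s).image z := by
    ext v
    rw [mem_vt, inr_mem_pit, mem_image]
    constructor
    · rintro ⟨⟨j, hj, rfl⟩, _⟩; exact ⟨j, mem_range.2 hj, rfl⟩
    · rintro ⟨j, hj, rfl⟩; exact ⟨⟨j, mem_range.1 hj, rfl⟩, rfl⟩
  rw [e, card_image_of_injOn, card_range]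
  intro i hi j hj hij
  exact hz (Set.mem_Iio.2 (mem_range.1 (mem_coe.1 hi))) (Set.mem_Iio.2 (mem_range.1 (mem_coe.1 hj))) hij

end

end Pool.Agent.OBX
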