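import Mathlib
import Pool.Agent.OBX.Stmts
import Pool.Agent.OBX.Util
import Pool.Agent.OBX.SStar
import Pool.Agent.OBW.Basic
import Pool.Agent.OBW.CdlB

set_option autoImplicit false
set_option linter.unusedSectionVars false
set_option linter.unusedVariables false

/-! PREPB, part A: the combinatorial assembly. -/

namespace Pool.Agent.OBX

open Finset Pool.Agent.OBW

section
variable {V C : Type} [DecidableEq V] [DecidableEq C]

/-- the ends of the members lie in pairs of `Q` -/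
def PIn (c : C) (ms : List (Mem V)) (Q : Finset (Item V C)) : Prop :=
  ∀ m ∈ ms, (Sum.inr (m.1, c) : Item V C) ∈ Q ∧ (Sum.inr (m.2.1, c) : Item V C) ∈ Q

theorem PIn.mono {c : C} {ms : List (Mem V)} {Q Q' : Finset (Item V C)} (h : PIn c ms Q)
    (hs : Q ⊆ Q') : PIn c ms Q' := fun m hm => ⟨hs (h m hm).1, hs (h m hm).2⟩

theorem PIn.append {c : C} {ms ns : List (Mem V)} {Q Q' : Finset (Item V C)} (h : PIn c ms Q)
    (h' : PIn c ns Q') : PIn c (ms ++ ns) (Q ∪ Q') := by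
  intro m hm
  rcases List.mem_append.1 hm with h1 | h1
  · exact ⟨mem_union_left _ (h m h1).1, mem_union_left _ (h m h1).2⟩
  · exact ⟨mem_union_right _ (h' m h1).1, mem_union_right _ (h' m h1).2⟩

theorem Sep.append' {c : C} {ms ns : List (Mem V)} {Q Q' : Finset (Item V C)} (h : Sep ms)
    (h' : Sep ns) (hQ : PIn c ms Q) (hQ' : PIn c ns Q') (hd : Disjoint Q Q') : Sep (ms ++ ns) := by
  refine ⟨?_, ?_⟩
  · intro m hm
    rcases List.mem_append.1 hm with h1 | h1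
    · exact h.1 m h1
    · exact h'.1 m h1
  · rw [List.pairwise_append]
    refine ⟨h.2, h'.2, ?_⟩
    intro m hm n hn
    rw [Finset.disjoint_left] at hd
    have h1 := hQ m hm
    have h2 := hQ' n hn
    refine ⟨?_, ?_, ?_, ?_⟩
    · intro e; exact hd h1.1 (e ▸ h2.1)
    · intro e; exact hd h1.1 (e ▸ h2.2)
    · intro e; exact hd h1.2 (e ▸ h2.1)
    · intro e; exact hd h1.2 (e ▸ h2.2)

theorem sep_toList {c : C} {α : Type} [DecidableEq α] (A : Finset α) (f : α → Mem V)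
    (P : α → Finset (Item V C))
    (h1 : ∀ a ∈ A, 1 ≤ (f a).2.2 ∧ ((f a).1 = (f a).2.1 ↔ (f a).2.2 = 1) ∧
      (Sum.inr ((f a).1, c) : Item V C) ∈ P a ∧ (Sum.inr ((f a).2.1, c) : Item V C) ∈ P a)
    (h2 : ∀ a ∈ A, ∀ b ∈ A, a ≠ b → Disjoint (P a) (P b)) :
    Sep (A.toList.map f) := by
  refine ⟨?_, ?_⟩
  · intro m hm
    obtain ⟨a, ha, rfl⟩ := List.mem_map.1 hm
    have := h1 a (mem_toList.1 ha)
    exact ⟨this.1, this.2.1⟩
  · rw [List.pairwise_map]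
    refine List.Pairwise.imp_of_mem ?_ A.nodup_toList
    intro a b ha hb hab
    have ha' := mem_toList.1 ha
    have hb' := mem_toList.1 hb
    have hd := Finset.disjoint_left.1 (h2 a ha' b hb' hab)
    have k1 := h1 a ha'
    have k2 := h1 b hb'
    refine ⟨?_, ?_, ?_, ?_⟩
    · intro e; exact hd k1.2.2.1 (e ▸ k2.2.2.1)
    · intro e; exact hd k1.2.2.1 (e ▸ k2.2.2.2)
    · intro e; exact hd k1.2.2.2 (e ▸ k2.2.2.1)
    · intro e; exact hd k1.2.2.2 (e ▸ k2.2.2.2)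

theorem pin_toList {c : C} {α : Type} [DecidableEq α] (A : Finset α) (f : α → Mem V)
    (P : α → Finset (Item V C))
    (h1 : ∀ a ∈ A,
      (Sum.inr ((f a).1, c) : Item V C) ∈ P a ∧ (Sum.inr ((f a).2.1, c) : Item V C) ∈ P a) :
    PIn c (A.toList.map f) (A.biUnion P) := by
  intro m hm
  obtain ⟨a, ha, rfl⟩ := List.mem_map.1 hm
  have ha' := mem_toList.1 ha
  exact ⟨mem_biUnion.2 ⟨a, ha', (h1 a ha').1⟩, mem_biUnion.2 ⟨a, ha', (h1 a ha').2⟩⟩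

end

section
variable {V C : Type} [Fintype V] [DecidableEq V] [Fintype C] [DecidableEq C]

theorem Step.lift {c : C} {ms ms' : List (Mem V)} {X : Finset (Item V C)} {Λ Λ' : Multiset ℕ}
    (h : Step c ms X Λ ms' Λ') (Λ₀ : Multiset ℕ) : Step c ms X (Λ + Λ₀) ms' (Λ' + Λ₀) := by
  refine ⟨h.col, h.bal, ?_, ?_⟩
  · have := h.cnt
    rw [Multiset.sum_add, Multiset.sum_add]
    omega
  · intro Y hY hd
    obtain ⟨Y₁, Y', Λ₁, h1, h2, h3, h4, h5⟩ := h.run Y hY hd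
    refine ⟨Y₁, Y', Λ₁, h1, h2, h3, h4, ?_⟩
    rw [h5, add_assoc]

/-- Data of PREPB after all choices. -/
structure PrepD (K : ℕ) (U' U'' : Finset V) (D D' : Finset C) (S R : Finset (Item V C))
    (ms : C → List (Mem V)) (F₁ Br Fs F12 : Finset (Finset (Item V C)))
    (col : Finset (Item V C) → C) (a b u v : Finset (Item V C) → V)
    (gB : Finset (Item V C) → Finset (Item V C)) (gM : C → ℕ → Finset (Item V C)) : Prop where
  hK : 3 ≤ K
  rs : R ⊆ S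
  f1s : un F₁ ⊆ starS U' D' S R
  brs : un Br ⊆ starS U' D' S R
  dj : Disjoint (un F₁) (un Br)
  f1pd : PD F₁
  brpd : PD Br
  brp : ∀ q ∈ Br, col q ∈ D ∧ IsPiece K (col q) q ∧ (Sum.inl s(a q, b q) : Item V C) ∈ q
  fsm : ∀ i ∈ un Fs, i ∈ R ∨ insOK U' U'' D' S i
  fspd : PD Fs
  f12m : ∀ i ∈ un F12, (i ∈ starS U' D' S R ∧ i ∉ un F₁ ∧ i ∉ un Br) ∨
    (∃ q ∈ Br, i = Sum.inl s(a q, b q)) ∨ i ∈ R ∨ insOK U' U'' D' S i
  f12pd : PD F12
  f12s : Disjoint (un F12) (un Fs)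
  f12p : ∀ q ∈ F12, col q ∈ D ∧ IsPiece 4 (col q) q ∧ u q ∈ U' ∧ v q ∈ U' ∧
    (Sum.inl s(u q, v q) : Item V C) ∈ q
  lB : ∀ q ∈ Br, IsLink 4 (col q) (a q) (b q) (gB q)
  lM : ∀ c ∈ D, ∀ i (h : i < (ms c).length), IsLink 4 c ((ms c)[i]).1 ((ms c)[i]).2.1 (gM c i)
  mB : ∀ q ∈ Br, ∀ i ∈ gB q, (i ∈ R ∨ insOK U' U'' D' S i) ∧ i ∉ un Fs ∧ i ∉ un F12
  mM : ∀ c ∈ D, ∀ j < (ms c).length, ∀ i ∈ gM c j,
    (i ∈ R ∨ insOK U' U'' D' S i) ∧ i ∉ un Fs ∧ i ∉ un F12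
  vB : ∀ q ∈ Br, ∀ w c, (Sum.inr (w, c) : Item V C) ∈ gB q → w ∈ U' \ U''
  vM : ∀ d ∈ D, ∀ j < (ms d).length, ∀ w c, (Sum.inr (w, c) : Item V C) ∈ gM d j → w ∈ U' \ U''
  dBB : ∀ q ∈ Br, ∀ q' ∈ Br, q ≠ q' → Disjoint (gB q) (gB q')
  dBM : ∀ q ∈ Br, ∀ c ∈ D, ∀ j < (ms c).length, Disjoint (gB q) (gM c j)
  dMM : ∀ c ∈ D, ∀ j < (ms c).length, ∀ d ∈ D, ∀ k < (ms d).length, (c ≠ d ∨ j ≠ k) →
    Disjoint (gM c j) (gM d k)
  mem : ∀ c ∈ D, ∀ m ∈ ms c, 1 ≤ m.2.2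

theorem not_star_of_R {U' : Finset V} {D' : Finset C} {S R : Finset (Item V C)} {i : Item V C}
    (h : i ∈ R) : i ∉ starS U' D' S R := fun h' => (mem_starS.1 h').2.1 h

theorem insOK_inn {U' U'' : Finset V} {D' : Finset C} {S : Finset (Item V C)} {i : Item V C}
    (h : insOK U' U'' D' S i) : i ∈ S ∧ inn U' D' i := by
  obtain ⟨h1, h2⟩ := h
  refine ⟨h1, ?_⟩
  rcases h2 with ⟨u, hu, v, hv, rfl⟩ | ⟨u, hu, c, hc, rfl⟩
  · exact inn_inl.2 ⟨hu, (Finset.mem_sdiff.1 hv).1⟩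
  · exact inn_inr.2 ⟨(Finset.mem_sdiff.1 hu).1, hc⟩

theorem not_star_of_insOK {U' U'' : Finset V} {D' : Finset C} {S R : Finset (Item V C)}
    {i : Item V C} (h : insOK U' U'' D' S i) : i ∉ starS U' D' S R :=
  fun h' => (mem_starS.1 h').2.2 (insOK_inn h).2

theorem not_star {U' U'' : Finset V} {D' : Finset C} {S R : Finset (Item V C)} {i : Item V C}
    (h : i ∈ R ∨ insOK U' U'' D' S i) : i ∉ starS U' D' S R := by
  rcases h with h | h
  · exact not_star_of_R h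
  · exact not_star_of_insOK h

theorem in_S {U' U'' : Finset V} {D' : Finset C} {S R : Finset (Item V C)} {i : Item V C}
    (hR : R ⊆ S) (h : i ∈ R ∨ insOK U' U'' D' S i) : i ∈ S := by
  rcases h with h | h
  · exact hR h
  · exact h.1

/-- kinds of used items, colour `c` -/
def Kind (ms : C → List (Mem V)) (Br F12 : Finset (Finset (Item V C)))
    (col : Finset (Item V C) → C) (a b : Finset (Item V C) → V)
    (gB : Finset (Item V C) → Finset (Item V C)) (gM : C → ℕ → Finset (Item V C))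
    (c : C) (i : Item V C) : Prop :=
  (∃ q ∈ Br, col q = c ∧ i ∈ q ∧ i ≠ Sum.inl s(a q, b q)) ∨
  (∃ q ∈ Br, col q = c ∧ i ∈ gB q) ∨ (∃ j < (ms c).length, i ∈ gM c j) ∨
  (∃ q ∈ F12, col q = c ∧ i ∈ q)

section
variable {K : ℕ} {U' U'' : Finset V} {D D' : Finset C} {S R : Finset (Item V C)}
    {ms : C → List (Mem V)} {F₁ Br Fs F12 : Finset (Finset (Item V C))}
    {col : Finset (Item V C) → C} {a b u v : Finset (Item V C) → V}
    {gB : Finset (Item V C) → Finset (Item V C)} {gM : C → ℕ → Finset (Item V C)}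

/-- a `Br`-item that is not released does not belong to `F12` -/
theorem PrepD.br_f12 (P : PrepD K U' U'' D D' S R ms F₁ Br Fs F12 col a b u v gB gM)
    {q : Finset (Item V C)} (hq : q ∈ Br) {i : Item V C} (hi : i ∈ q)
    (hne : i ≠ Sum.inl s(a q, b q)) : i ∉ un F12 := by
  intro h
  have hs : i ∈ starS U' D' S R := P.brs (mem_un.2 ⟨q, hq, hi⟩)
  rcases P.f12m i h with h1 | ⟨q', hq', h1⟩ | h1
  · exact h1.2.2 (mem_un.2 ⟨q, hq, hi⟩)
  · have hi' : i ∈ q' := h1 ▸ (P.brp q' hq').2.2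
    by_cases e : q = q'
    · subst e; exact hne h1
    · exact Finset.disjoint_left.1 (P.brpd q hq q' hq' e) hi hi'
  · exact not_star h1 hs

theorem PrepD.br_f12_inr (P : PrepD K U' U'' D D' S R ms F₁ Br Fs F12 col a b u v gB gM)
    {q : Finset (Item V C)} (hq : q ∈ Br) {w : V} {c : C} (hi : (Sum.inr (w, c) : Item V C) ∈ q) :
    (Sum.inr (w, c) : Item V C) ∉ un F12 := P.br_f12 hq hi (by simp)

theorem PrepD.kind_disj (P : PrepD K U' U'' D D' S R ms F₁ Br Fs F12 col a b u v gB gM)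
    {c d : C} (hc : c ∈ D) (hd : d ∈ D) (hcd : c ≠ d) {i : Item V C}
    (h1 : Kind ms Br F12 col a b gB gM c i) (h2 : Kind ms Br F12 col a b gB gM d i) : False := by
  rcases h1 with ⟨q, hq, hqc, hiq, hne⟩ | ⟨q, hq, hqc, hiq⟩ | ⟨j, hj, hij⟩ | ⟨q, hq, hqc, hiq⟩
  · have hs : i ∈ starS U' D' S R := P.brs (mem_un.2 ⟨q, hq, hiq⟩)
    rcases h2 with ⟨q', hq', hqc', hiq', hne'⟩ | ⟨q', hq', hqc', hiq'⟩ | ⟨j', hj', hij'⟩ | ⟨q', hq', hqc', hiq'⟩
    · have e : q ≠ q' := fun e => hcd (by rw [← hqc, ← hqc', e])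
      exact Finset.disjoint_left.1 (P.brpd q hq q' hq' e) hiq hiq'
    · exact not_star (P.mB q' hq' i hiq').1 hs
    · exact not_star (P.mM d hd j' hj' i hij').1 hs
    · exact P.br_f12 hq hiq hne (mem_un.2 ⟨q', hq', hiq'⟩)
  · have hs := not_star (P.mB q hq i hiq).1
    rcases h2 with ⟨q', hq', hqc', hiq', hne'⟩ | ⟨q', hq', hqc', hiq'⟩ | ⟨j', hj', hij'⟩ | ⟨q', hq', hqc', hiq'⟩
    · exact hs (P.brs (mem_un.2 ⟨q', hq', hiq'⟩))
    · have e : q ≠ q' := fun e => hcd (by rw [← hqc, ← hqc', e])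
      exact Finset.disjoint_left.1 (P.dBB q hq q' hq' e) hiq hiq'
    · exact Finset.disjoint_left.1 (P.dBM q hq d hd j' hj') hiq hij'
    · exact (P.mB q hq i hiq).2.2 (mem_un.2 ⟨q', hq', hiq'⟩)
  · have hs := not_star (P.mM c hc j hj i hij).1
    rcases h2 with ⟨q', hq', hqc', hiq', hne'⟩ | ⟨q', hq', hqc', hiq'⟩ | ⟨j', hj', hij'⟩ | ⟨q', hq', hqc', hiq'⟩
    · exact hs (P.brs (mem_un.2 ⟨q', hq', hiq'⟩))
    · exact Finset.disjoint_left.1 (P.dBM q' hq' c hc j hj) hiq' hij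
    · exact Finset.disjoint_left.1 (P.dMM c hc j hj d hd j' hj' (Or.inl hcd)) hij hij'
    · exact (P.mM c hc j hj i hij).2.2 (mem_un.2 ⟨q', hq', hiq'⟩)
  · rcases h2 with ⟨q', hq', hqc', hiq', hne'⟩ | ⟨q', hq', hqc', hiq'⟩ | ⟨j', hj', hij'⟩ | ⟨q', hq', hqc', hiq'⟩
    · exact P.br_f12 hq' hiq' hne' (mem_un.2 ⟨q, hq, hiq⟩)
    · exact (P.mB q' hq' i hiq').2.2 (mem_un.2 ⟨q, hq, hiq⟩)
    · exact (P.mM d hd j' hj' i hij').2.2 (mem_un.2 ⟨q, hq, hiq⟩)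
    · have e : q ≠ q' := fun e => hcd (by rw [← hqc, ← hqc', e])
      exact Finset.disjoint_left.1 (P.f12pd q hq q' hq' e) hiq hiq'

theorem PrepD.kind_S (P : PrepD K U' U'' D D' S R ms F₁ Br Fs F12 col a b u v gB gM)
    {c : C} (hc : c ∈ D) {i : Item V C} (h : Kind ms Br F12 col a b gB gM c i) : i ∈ S := by
  rcases h with ⟨q, hq, hqc, hiq, hne⟩ | ⟨q, hq, hqc, hiq⟩ | ⟨j, hj, hij⟩ | ⟨q, hq, hqc, hiq⟩
  · exact (mem_starS.1 (P.brs (mem_un.2 ⟨q, hq, hiq⟩))).1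
  · exact in_S P.rs (P.mB q hq i hiq).1
  · exact in_S P.rs (P.mM c hc j hj i hij).1
  · rcases P.f12m i (mem_un.2 ⟨q, hq, hiq⟩) with h1 | ⟨q', hq', h1⟩ | h1
    · exact (mem_starS.1 h1.1).1
    · exact (mem_starS.1 (P.brs (mem_un.2 ⟨q', hq', h1 ▸ (P.brp q' hq').2.2⟩))).1
    · exact in_S P.rs h1

theorem PrepD.kind_F (P : PrepD K U' U'' D D' S R ms F₁ Br Fs F12 col a b u v gB gM)
    {c : C} (hc : c ∈ D) {i : Item V C} (h : Kind ms Br F12 col a b gB gM c i) :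
    i ∉ un (F₁ ∪ Fs) := by
  intro hF
  rw [un_union, mem_union] at hF
  rcases h with ⟨q, hq, hqc, hiq, hne⟩ | ⟨q, hq, hqc, hiq⟩ | ⟨j, hj, hij⟩ | ⟨q, hq, hqc, hiq⟩
  · rcases hF with hF | hF
    · exact Finset.disjoint_left.1 P.dj hF (mem_un.2 ⟨q, hq, hiq⟩)
    · exact not_star (P.fsm i hF) (P.brs (mem_un.2 ⟨q, hq, hiq⟩))
  · rcases hF with hF | hF
    · exact not_star (P.mB q hq i hiq).1 (P.f1s hF)
    · exact (P.mB q hq i hiq).2.1 hF
  · rcases hF with hF | hF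
    · exact not_star (P.mM c hc j hj i hij).1 (P.f1s hF)
    · exact (P.mM c hc j hj i hij).2.1 hF
  · have h12 : i ∈ un F12 := mem_un.2 ⟨q, hq, hiq⟩
    rcases hF with hF | hF
    · rcases P.f12m i h12 with h1 | ⟨q', hq', h1⟩ | h1
      · exact h1.2.1 hF
      · exact Finset.disjoint_left.1 P.dj hF (mem_un.2 ⟨q', hq', h1 ▸ (P.brp q' hq').2.2⟩)
      · exact not_star h1 (P.f1s hF)
    · exact Finset.disjoint_left.1 P.f12s h12 hF

end

end

end Pool.Agent.OBX
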