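import Mathlib
import Pool.Agent.OBX.Stmts

set_option autoImplicit false

/-! Statement XST (used by CDLB). -/

namespace Pool.Agent.OBX

open Finset Pool.Agent.OBW

/-- XST: the items of `T` at the vertices of `U \ U'` form three-vertex members. -/
def XstStmt : Prop :=
  ∀ μ : ℝ, 0 < μ → μ ≤ 1 → ∃ p₀ : ℝ, 0 < p₀ ∧ ∀ p : ℝ, 0 < p → p ≤ p₀ → ∃ m₀ : ℕ,
    ∀ (V C : Type) [Fintype V] [DecidableEq V] [Fintype C] [DecidableEq C]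
      (ε : ℝ) (U U' U'' : Finset V) (D D' D'' : Finset C) (T : Finset (Item V C)),
      m₀ ≤ U.card → LinkHyp p ε μ 1 U U' U'' D D' D'' T →
      ∃ (X : C → Finset (Item V C)) (ns : C → List (Mem V)),
        (∀ c ∈ D', X c ⊆ T ∧ Real c (ns c) (X c) ∧ Sep (ns c) ∧
          ((ns c).length : ℝ) ≤ 3 * p * U.card ∧
          ∀ m ∈ ns c, m.2.2 = 3 ∧ m.1 ≠ m.2.1 ∧ m.1 ∈ U' ∧ m.2.1 ∈ U' ∧
            (Sum.inr (m.1, c) : Item V C) ∈ X c ∧ (Sum.inr (m.2.1, c) : Item V C) ∈ X c) ∧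
        (∀ c ∈ D', ∀ d ∈ D', c ≠ d → Disjoint (X c) (X d)) ∧
        (∀ x ∈ U \ U', ∀ u, (Sum.inl s(x, u) : Item V C) ∈ T →
          (Sum.inl s(x, u) : Item V C) ∈ uC D' X) ∧
        (∀ x ∈ U \ U', ∀ c, (Sum.inr (x, c) : Item V C) ∈ T →
          (Sum.inr (x, c) : Item V C) ∈ uC D' X) ∧
        (∀ u v, (Sum.inl s(u, v) : Item V C) ∈ uC D' X → ¬ (u ∈ U' ∧ v ∈ U')) ∧
        (∀ v c, (Sum.inr (v, c) : Item V C) ∈ uC D' X → c ∈ D' ∧ ¬ (v ∈ U'' ∧ c ∈ D'')) ∧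
        (∀ v, (∑ c ∈ D', (ends (ns c) v : ℝ)) ≤ 2 * p * U.card) ∧
        (∀ v ∈ U', ((cl (uC D' X) v).card : ℝ) ≤ 2 * p * U.card) ∧
        (∀ c ∈ D', ((vt (uC D' X) c ∩ U').card : ℝ) ≤ 6 * p * U.card)

end Pool.Agent.OBX
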