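import Mathlib
import Pool.Agent.OBX.PrepA
import Pool.Agent.OBX.XstS

set_option autoImplicit false
set_option linter.unusedSectionVars false
set_option linter.unusedVariables false

/-! CDLB: data after PREPB, FINDO, XST. -/

namespace Pool.Agent.OBX

open Finset Pool.Agent.OBW

section
variable {V C : Type} [Fintype V] [DecidableEq V] [Fintype C] [DecidableEq C]

/-- system after PREPB -/
def tOne (D : Finset C) (S : Finset (Item V C)) (F : Finset (Finset (Item V C)))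
    (X1 : C → Finset (Item V C)) : Finset (Item V C) := S \ (un F ∪ uC D X1)

/-- system after FINDO and XST -/
def tTwo (D D' : Finset C) (S : Finset (Item V C)) (F : Finset (Finset (Item V C)))
    (X1 Xd X4 : C → Finset (Item V C)) : Finset (Item V C) :=
  tOne D S F X1 \ (uC (D \ D') Xd ∪ uC D' X4)

/-- Data of CDLB after PREPB (F, X1, ms1), FINDO (Xd), XST (X4, ns). -/
structure CdlD (θ p ε μ : ℝ) (L₁ : ℕ) (U U' U'' : Finset V) (D D' D'' : Finset C)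
    (S : Finset (Item V C)) (N : ℕ → ℕ) (ms : C → List (Mem V)) (Λ : C → Multiset ℕ)
    (F : Finset (Finset (Item V C))) (X1 : C → Finset (Item V C)) (ms1 : C → List (Mem V))
    (Xd X4 : C → Finset (Item V C)) (ns : C → List (Mem V)) : Prop where
  fp : ∀ q ∈ F, q ⊆ S ∧ ∃ l ∈ Icc 3 L₁, ∃ c ∈ D, IsPiece l c q
  fpd : PD F
  fc : ∀ c ∈ D, ∀ l ∈ Icc 3 L₁, cnt F l c = N l
  x1s : ∀ c ∈ D, X1 c ⊆ S ∧ Disjoint (X1 c) (un F)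
  x1d : ∀ c ∈ D, ∀ d ∈ D, c ≠ d → Disjoint (X1 c) (X1 d)
  x1t : ∀ c ∈ D, Step c (ms c) (X1 c) (Λ c) (ms1 c) (Λ c)
  lh : LinkHyp p (ε / 2) μ 1 U U' U'' D D' D'' (tOne D S F X1)
  m1 : ∀ c ∈ D, MemIn U' (tOne D S F X1) c (ms1 c) ∧ ((ms1 c).length : ℝ) ≤ θ * U.card
  e1 : ∀ v, (∑ c ∈ D, (ends (ms1 c) v : ℝ)) ≤ θ * U.card
  l1 : ∀ v ∈ U', ((nb (un F ∪ uC D X1) v ∩ U').card : ℝ) ≤ θ * U.card
  l2 : ∀ v ∈ U', ((cl (un F ∪ uC D X1) v ∩ D').card : ℝ) ≤ θ * U.card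
  l3 : ∀ c ∈ D', ((vt (un F ∪ uC D X1) c ∩ U').card : ℝ) ≤ θ * U.card
  o1 : ∀ u ∈ U'', ∀ v ∈ U'', (Sum.inl s(u, v) : Item V C) ∉ un F ∪ uC D X1
  o2 : ∀ u ∈ U'', ∀ c ∈ D'', (Sum.inr (u, c) : Item V C) ∉ un F ∪ uC D X1
  xds : ∀ c ∈ D \ D', Xd c ⊆ tOne D S F X1 ∧ Step c (ms1 c) (Xd c) (Λ c) [] 0
  xdd : ∀ c ∈ D \ D', ∀ d ∈ D \ D', c ≠ d → Disjoint (Xd c) (Xd d)
  xde : ∀ u v, (Sum.inl s(u, v) : Item V C) ∈ uC (D \ D') Xd →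
    u ∈ U' ∧ v ∈ U' ∧ ¬ (u ∈ U'' ∧ v ∈ U'')
  xdl : ∀ u ∈ U', ((nb (uC (D \ D') Xd) u).card : ℝ) ≤ 8 * p * U.card
  x4s : ∀ c ∈ D', X4 c ⊆ tOne D S F X1 ∧ Real c (ns c) (X4 c) ∧ Sep (ns c) ∧
    ((ns c).length : ℝ) ≤ 3 * p * U.card ∧
    ∀ m ∈ ns c, m.2.2 = 3 ∧ m.1 ≠ m.2.1 ∧ m.1 ∈ U' ∧ m.2.1 ∈ U' ∧
      (Sum.inr (m.1, c) : Item V C) ∈ X4 c ∧ (Sum.inr (m.2.1, c) : Item V C) ∈ X4 c
  x4d : ∀ c ∈ D', ∀ d ∈ D', c ≠ d → Disjoint (X4 c) (X4 d)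
  x4e : ∀ x ∈ U \ U', ∀ u, (Sum.inl s(x, u) : Item V C) ∈ tOne D S F X1 →
    (Sum.inl s(x, u) : Item V C) ∈ uC D' X4
  x4c : ∀ x ∈ U \ U', ∀ c, (Sum.inr (x, c) : Item V C) ∈ tOne D S F X1 →
    (Sum.inr (x, c) : Item V C) ∈ uC D' X4
  x4f : ∀ u v, (Sum.inl s(u, v) : Item V C) ∈ uC D' X4 → ¬ (u ∈ U' ∧ v ∈ U')
  x4g : ∀ v c, (Sum.inr (v, c) : Item V C) ∈ uC D' X4 → c ∈ D' ∧ ¬ (v ∈ U'' ∧ c ∈ D'')
  x4l : ∀ v, (∑ c ∈ D', (ends (ns c) v : ℝ)) ≤ 2 * p * U.card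
  x4m : ∀ v ∈ U', ((cl (uC D' X4) v).card : ℝ) ≤ 2 * p * U.card
  x4n : ∀ c ∈ D', ((vt (uC D' X4) c ∩ U').card : ℝ) ≤ 6 * p * U.card
  cs : ∀ c ∈ D, (vt S c).card + siz (ms c) = (Λ c).sum + ∑ l ∈ Icc 3 L₁, l * N l
  subD : D' ⊆ D
  subU : U' ⊆ U
  subU'' : U'' ⊆ U'
  subD'' : D'' ⊆ D'

/-- output of FININ for the system `T` -/
structure InOut (θ : ℝ) (U' U'' : Finset V) (D' : Finset C) (T : Finset (Item V C))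
    (ms : C → List (Mem V)) (Λ : C → Multiset ℕ) (X : C → Finset (Item V C))
    (ms' : C → List (Mem V)) (Λ' : C → Multiset ℕ) : Prop where
  s : ∀ c ∈ D', X c ⊆ T ∧ Step c (ms c) (X c) (Λ c) (ms' c) (Λ' c) ∧ Λ' c ≤ Λ c ∧
    (∀ v d, (Sum.inr (v, d) : Item V C) ∈ X c → v ∈ U' \ U'') ∧
    (∀ u v, (Sum.inl s(u, v) : Item V C) ∈ X c → ¬ (u ∈ U'' ∧ v ∈ U'')) ∧
    (ms' c).length ≤ 1 ∧ Sep (ms' c) ∧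
    (∀ m ∈ ms' c, m.1 ≠ m.2.1 ∧ (Sum.inr (m.1, c) : Item V C) ∈ X c ∧
      (Sum.inr (m.2.1, c) : Item V C) ∈ X c ∧ ∃ l ∈ Λ' c, m.2.2 + 20 ≤ l)
  d : ∀ c ∈ D', ∀ d ∈ D', c ≠ d → Disjoint (X c) (X d)
  l : ∀ v, ((nb (uC D' X) v).card : ℝ) ≤ θ * U'.card ∧ ((cl (uC D' X) v).card : ℝ) ≤ θ * U'.card
  c : ∀ d, ((vt (uC D' X) d).card : ℝ) ≤ θ * U'.card
  e : ∀ v, ∑ c ∈ D', ends (ms' c) v ≤ 20

/-- conclusion of CDLB for fixed data -/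
def CdlConc (η μ : ℝ) (L₁ : ℕ) (U U' U'' : Finset V) (D D' D'' : Finset C) (S : Finset (Item V C))
    (N : ℕ → ℕ) (ms : C → List (Mem V)) (Λ : C → Multiset ℕ) : Prop :=
      ∃ (F : Finset (Finset (Item V C))) (X : C → Finset (Item V C)) (ms' : C → List (Mem V))
        (Λ' : C → Multiset ℕ),
        (∀ q ∈ F, q ⊆ S ∧ ∃ l ∈ Icc 3 L₁, ∃ c ∈ D, IsPiece l c q) ∧ PD F ∧
        (∀ c ∈ D, ∀ l ∈ Icc 3 L₁, cnt F l c = N l) ∧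
        (∀ c ∈ D, X c ⊆ S ∧ Disjoint (X c) (un F)) ∧
        (∀ c ∈ D, ∀ d ∈ D, c ≠ d → Disjoint (X c) (X d)) ∧
        (∀ c ∈ D \ D', Step c (ms c) (X c) (Λ c) [] 0) ∧
        (∀ c ∈ D', Step c (ms c) (X c) (Λ c) (ms' c) (Λ' c) ∧ Λ' c ≤ Λ c ∧ (ms' c).length ≤ 1 ∧
          MemIn (U' \ U'') (S \ X c) c (ms' c) ∧ Siz 6 20 (ms' c) (Λ' c)) ∧
        Inside U' D' (S \ (un F ∪ uC D X)) ∧
        (∀ v ∈ U', ((nb (un F ∪ uC D X) v ∩ U').card : ℝ) ≤ η * μ * U'.card / 2) ∧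
        (∀ v ∈ U', ((cl (un F ∪ uC D X) v ∩ D').card : ℝ) ≤ η * μ * U'.card / 2) ∧
        (∀ c ∈ D', ((vt (un F ∪ uC D X) c ∩ U').card : ℝ) ≤ η * μ * U'.card / 2) ∧
        (∀ u ∈ U'', ∀ v ∈ U'', (Sum.inl s(u, v) : Item V C) ∉ un F ∪ uC D X) ∧
        (∀ u ∈ U'', ∀ c ∈ D'', (Sum.inr (u, c) : Item V C) ∉ un F ∪ uC D X) ∧
        (∀ v, ∑ c ∈ D', ends (ms' c) v ≤ 20)

end

end Pool.Agent.OBX
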