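import Mathlib
import Pool.Agent.OBX.CdbS

set_option autoImplicit false
set_option linter.unusedSectionVars false
set_option linter.unusedVariables false

/-! CDLB: the system left after PREPB, FINDO, XST lies inside `U'`, `D'`; counting. -/

namespace Pool.Agent.OBX

open Finset Pool.Agent.OBW

section
variable {V C : Type} [Fintype V] [DecidableEq V] [Fintype C] [DecidableEq C]
variable {θ p ε μ : ℝ} {L₁ : ℕ} {U U' U'' : Finset V} {D D' D'' : Finset C}
    {S : Finset (Item V C)} {N : ℕ → ℕ} {ms : C → List (Mem V)} {Λ : C → Multiset ℕ}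
    {F : Finset (Finset (Item V C))} {X1 : C → Finset (Item V C)} {ms1 : C → List (Mem V)}
    {Xd X4 : C → Finset (Item V C)} {ns : C → List (Mem V)}

/-- the vertices of colour `c` of a union of single coloured systems -/
theorem cdbi_vt_uC {E : Finset C} {X : C → Finset (Item V C)} {c : C} (hc : c ∈ E)
    (hcol : ∀ d ∈ E, ∀ v c', (Sum.inr (v, c') : Item V C) ∈ X d → c' = d) :
    vt (uC E X) c = vt (X c) c := by
  ext v
  rw [mem_vt, mem_vt, mem_uC]
  constructor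
  · rintro ⟨d, hd, h⟩
    have := hcol d hd v c h
    subst this
    exact h
  · intro h
    exact ⟨c, hc, h⟩

theorem cdb_count1' (fp : ∀ q ∈ F, q ⊆ S ∧ ∃ l ∈ Icc 3 L₁, ∃ c ∈ D, IsPiece l c q) (fpd : PD F)
  (fc : ∀ c ∈ D, ∀ l ∈ Icc 3 L₁, cnt F l c = N l)
  (x1s : ∀ c ∈ D, X1 c ⊆ S ∧ Disjoint (X1 c) (un F))
  (x1d : ∀ c ∈ D, ∀ d ∈ D, c ≠ d → Disjoint (X1 c) (X1 d))
  (x1t : ∀ c ∈ D, Step c (ms c) (X1 c) (Λ c) (ms1 c) (Λ c))
  (cs : ∀ c ∈ D, (vt S c).card + siz (ms c) = (Λ c).sum + ∑ l ∈ Icc 3 L₁, l * N l) :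
  ∀ c ∈ D, (vt (tOne D S F X1) c).card + siz (ms1 c) = (Λ c).sum := by
  intro c hc
  have e1 : (vt (un F) c).card = ∑ l ∈ Icc 3 L₁, l * N l := by
    rw [vt_un_card_cnt fpd (fun q hq => ?_) c]
    · exact Finset.sum_congr rfl fun l hl => by rw [fc c hc l hl]
    · obtain ⟨_, l, hl, c', _, h⟩ := fp q hq
      exact ⟨l, hl, c', h⟩
  have e2 : vt (uC D X1) c = vt (X1 c) c :=
    cdbi_vt_uC hc (fun d hd v c' h => (x1t d hd).col v c' h)
  have hsubF : un F ⊆ S := un_subset (fun q hq => (fp q hq).1)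
  have hsubX : X1 c ⊆ S := (x1s c hc).1
  have e3 : vt (tOne D S F X1) c = vt S c \ (vt (un F) c ∪ vt (X1 c) c) := by
    unfold tOne
    rw [vt_sdiff, vt_union, e2]
  have e4 : (vt (un F) c ∪ vt (X1 c) c).card = (vt (un F) c).card + (vt (X1 c) c).card :=
    card_union_of_disjoint (vt_disj (x1s c hc).2.symm c)
  have e5 : (vt S c \ (vt (un F) c ∪ vt (X1 c) c)).card + (vt (un F) c ∪ vt (X1 c) c).card =
      (vt S c).card :=
    card_sdiff_add_card_eq_card (union_subset (vt_mono hsubF c) (vt_mono hsubX c))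
  have e6 := (x1t c hc).cnt
  have e7 := cs c hc
  rw [e3]
  omega

theorem cdb_inside (P : CdlD θ p ε μ L₁ U U' U'' D D' D'' S N ms Λ F X1 ms1 Xd X4 ns) :
    Inside U' D' (tTwo D D' S F X1 Xd X4) := by
  have memT : ∀ i, i ∈ tTwo D D' S F X1 Xd X4 ↔ i ∈ tOne D S F X1 ∧ i ∉ uC (D \ D') Xd ∧
      i ∉ uC D' X4 := by
    intro i
    unfold tTwo
    rw [mem_sdiff, mem_union, not_or]
  constructor
  · intro u v h
    obtain ⟨h1, h2, h3⟩ := (memT _).1 h
    obtain ⟨huv, hu, hv⟩ := P.lh.ins.1 u v h1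
    refine ⟨huv, ?_, ?_⟩
    · by_contra hcon
      exact h3 (P.x4e u (mem_sdiff.2 ⟨hu, hcon⟩) v h1)
    · by_contra hcon
      rw [Sym2.eq_swap] at h1 h3
      exact h3 (P.x4e v (mem_sdiff.2 ⟨hv, hcon⟩) u h1)
  · intro v c h
    obtain ⟨h1, h2, h3⟩ := (memT _).1 h
    obtain ⟨hv, hc⟩ := P.lh.ins.2 v c h1
    refine ⟨?_, ?_⟩
    · by_contra hcon
      exact h3 (P.x4c v (mem_sdiff.2 ⟨hv, hcon⟩) c h1)
    · by_contra hcon
      have hcd : c ∈ D \ D' := mem_sdiff.2 ⟨hc, hcon⟩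
      have k1 := cdb_count1' P.fp P.fpd P.fc P.x1s P.x1d P.x1t P.cs c hc
      obtain ⟨k2, k3⟩ := P.xds c hcd
      have k4 := k3.cnt
      have k5 : siz ([] : List (Mem V)) = 0 := rfl
      rw [k5, Multiset.sum_zero] at k4
      have k6 : (vt (tOne D S F X1) c).card ≤ (vt (Xd c) c).card := by omega
      have k7 := Finset.eq_of_subset_of_card_le (vt_mono k2 c) k6
      have k8 : v ∈ vt (Xd c) c := by
        rw [k7, mem_vt]
        exact h1
      exact h2 (sub_uC hcd ((mem_vt _ _ _).1 k8))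

theorem cdb_count2 (hAdd : AddStmt) (P : CdlD θ p ε μ L₁ U U' U'' D D' D'' S N ms Λ F X1 ms1 Xd X4 ns) :
  ∀ c ∈ D', (vt (tTwo D D' S F X1 Xd X4) c).card + siz (ms1 c ++ ns c) = (Λ c).sum := by
  intro c hc
  have hcD := P.subD hc
  obtain ⟨l1, l2, l3, l4, l5⟩ := P.x4s c hc
  have k1 := cdb_count1' P.fp P.fpd P.fc P.x1s P.x1d P.x1t P.cs c hcD
  have k2 := (hAdd V C c (ms1 c) (ns c) (X4 c) (Λ c) l2).cnt
  have k3 : vt (uC D' X4) c = vt (X4 c) c :=
    cdbi_vt_uC hc (fun d hd v c' h =>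
      (hAdd V C d (ms1 d) (ns d) (X4 d) (Λ d) (P.x4s d hd).2.1).col v c' h)
  have k4 : vt (tTwo D D' S F X1 Xd X4) c = vt (tOne D S F X1) c \ vt (X4 c) c := by
    unfold tTwo
    rw [vt_sdiff, vt_union, k3]
    ext v
    rw [mem_sdiff, mem_sdiff, mem_union, not_or]
    constructor
    · rintro ⟨a1, a2, a3⟩
      exact ⟨a1, a3⟩
    · rintro ⟨a1, a3⟩
      refine ⟨a1, ?_, a3⟩
      intro a4
      rw [mem_vt, mem_uC] at a4
      obtain ⟨d, hd, a5⟩ := a4
      have := (P.xds d hd).2.col _ _ a5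
      subst this
      exact (mem_sdiff.1 hd).2 hc
  have k5 : (vt (tOne D S F X1) c \ vt (X4 c) c).card + (vt (X4 c) c).card =
      (vt (tOne D S F X1) c).card := card_sdiff_add_card_eq_card (vt_mono l1 c)
  rw [k4]
  omega

end

end Pool.Agent.OBX
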