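import Mathlib
import Pool.Agent.OBX.CdbS

set_option autoImplicit false
set_option linter.unusedSectionVars false
set_option linter.unusedVariables false

/-! CDLB: hypotheses of FININ. -/

namespace Pool.Agent.OBX

open Finset Pool.Agent.OBW

section
variable {V C : Type} [Fintype V] [DecidableEq V] [Fintype C] [DecidableEq C]

theorem Siz.mono {W W₀ W₀' : ℕ} {ms : List (Mem V)} {Λ : Multiset ℕ} (h : Siz W W₀ ms Λ)
    (hle : W₀' ≤ W₀) : Siz W W₀' ms Λ := by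
  refine ⟨h.1, fun m hm => ?_⟩
  obtain ⟨l, hl, h'⟩ := h.2 m hm
  exact ⟨l, hl, by omega⟩

theorem siz_app {W W₀ : ℕ} {ms ns : List (Mem V)} {Λ : Multiset ℕ} (h : Siz W W₀ ms Λ)
    (hns : ∀ m ∈ ns, m.2.2 = 3) (hW : 3 ≤ W) (hΛ : Λ ≠ 0) (hl : ∀ l ∈ Λ, 3 + W₀ ≤ l) :
    Siz W W₀ (ms ++ ns) Λ := by
  obtain ⟨l₀, hl₀⟩ := Multiset.exists_mem_of_ne_zero hΛ
  cases ms with
  | nil =>
    rw [List.nil_append]
    refine ⟨fun m hm => ?_, fun m hm => ?_⟩
    · rw [hns m (List.mem_of_mem_tail hm)]; exact hW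
    · have := hns m (List.mem_of_mem_head? hm)
      exact ⟨l₀, hl₀, by rw [this]; exact hl l₀ hl₀⟩
  | cons m ms0 =>
    refine ⟨?_, ?_⟩
    · intro x hx
      rw [List.cons_append, List.tail_cons] at hx
      rcases List.mem_append.1 hx with h' | h'
      · exact h.1 x (by rw [List.tail_cons]; exact h')
      · rw [hns x h']; exact hW
    · intro x hx
      rw [List.cons_append, List.head?_cons] at hx
      exact h.2 x (by rw [List.head?_cons]; exact hx)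

variable {θ p ε μ : ℝ} {L₁ : ℕ} {U U' U'' : Finset V} {D D' D'' : Finset C}
    {S : Finset (Item V C)} {N : ℕ → ℕ} {ms : C → List (Mem V)} {Λ : C → Multiset ℕ}
    {F : Finset (Finset (Item V C))} {X1 : C → Finset (Item V C)} {ms1 : C → List (Mem V)}
    {Xd X4 : C → Finset (Item V C)} {ns : C → List (Mem V)}

theorem cdb_uu (P : CdlD θ p ε μ L₁ U U' U'' D D' D'' S N ms Λ F X1 ms1 Xd X4 ns)
    (h : 16 * p * U.card ≤ (U'.card : ℝ) / 6) :
    ∀ u ∈ U', ∀ v ∈ U', (U'.card : ℝ) / 3 ≤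
      (((nb (tTwo D D' S F X1 Xd X4) u ∩ nb (tTwo D D' S F X1 Xd X4) v ∩ U') \ U'').card : ℝ) := by
  intro u hu v hv
  have h1 := P.lh.uu u hu v hv
  have h2 : (nb (tOne D S F X1) u ∩ nb (tOne D S F X1) v ∩ U') \ U'' ⊆
      ((nb (tTwo D D' S F X1 Xd X4) u ∩ nb (tTwo D D' S F X1 Xd X4) v ∩ U') \ U'') ∪
      nb (uC (D \ D') Xd) u ∪ nb (uC (D \ D') Xd) v := by
    intro w hw
    rw [mem_sdiff, mem_inter, mem_inter, mem_nb, mem_nb] at hw
    obtain ⟨⟨⟨k1, k2⟩, k3⟩, k4⟩ := hw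
    rw [mem_union, mem_union, mem_sdiff, mem_inter, mem_inter, mem_nb, mem_nb, mem_nb, mem_nb]
    by_cases k5 : (Sum.inl s(u, w) : Item V C) ∈ uC (D \ D') Xd
    · exact Or.inl (Or.inr k5)
    by_cases k6 : (Sum.inl s(v, w) : Item V C) ∈ uC (D \ D') Xd
    · exact Or.inr k6
    have k7 : (Sum.inl s(u, w) : Item V C) ∉ uC D' X4 := fun h => P.x4f u w h ⟨hu, k3⟩
    have k8 : (Sum.inl s(v, w) : Item V C) ∉ uC D' X4 := fun h => P.x4f v w h ⟨hv, k3⟩
    refine Or.inl (Or.inl ⟨⟨⟨?_, ?_⟩, k3⟩, k4⟩)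
    · unfold tTwo
      rw [mem_sdiff, mem_union, not_or]
      exact ⟨k1, k5, k7⟩
    · unfold tTwo
      rw [mem_sdiff, mem_union, not_or]
      exact ⟨k2, k6, k8⟩
  have h3 := card_le_add3 h2
  have h4 := P.xdl u hu
  have h5 := P.xdl v hv
  linarith only [h, h1, h3, h4, h5]

theorem cdb_cU (P : CdlD θ p ε μ L₁ U U' U'' D D' D'' S N ms Λ F X1 ms1 Xd X4 ns)
    (h : 6 * p * U.card ≤ (U'.card : ℝ) / 100) :
    ∀ d ∈ D', ((U' \ vt (tTwo D D' S F X1 Xd X4) d).card : ℝ) ≤ (U'.card : ℝ) / 50 := by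
  intro c hc
  have h1 := P.lh.cU c hc
  have h2 : U' \ vt (tTwo D D' S F X1 Xd X4) c ⊆ (U' \ vt (tOne D S F X1) c) ∪
      (vt (uC D' X4) c ∩ U') := by
    intro w hw
    rw [mem_sdiff, mem_vt] at hw
    rw [mem_union, mem_sdiff, mem_inter, mem_vt, mem_vt]
    by_cases k1 : (Sum.inr (w, c) : Item V C) ∈ tOne D S F X1
    · by_cases k2 : (Sum.inr (w, c) : Item V C) ∈ uC D' X4
      · exact Or.inr ⟨k2, hw.1⟩
      · exfalso
        apply hw.2
        unfold tTwo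
        rw [mem_sdiff, mem_union, not_or]
        refine ⟨k1, ?_, k2⟩
        intro k3
        obtain ⟨d, hd, k4⟩ := mem_uC.1 k3
        have := (P.xds d hd).2.col _ _ k4
        subst this
        exact (mem_sdiff.1 hd).2 hc
    · exact Or.inl ⟨hw.1, k1⟩
  have h3 := card_le_add2 h2
  have h4 := P.x4n c hc
  linarith only [h, h1, h3, h4]

theorem cdb_mem (P : CdlD θ p ε μ L₁ U U' U'' D D' D'' S N ms Λ F X1 ms1 Xd X4 ns) :
    ∀ c ∈ D', MemIn U' (tTwo D D' S F X1 Xd X4) c (ms1 c ++ ns c) := by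
  intro c hc
  obtain ⟨⟨h1, h2⟩, _⟩ := P.m1 c (P.subD hc)
  obtain ⟨h3, _, h4, _, h5⟩ := P.x4s c hc
  have hsub : tTwo D D' S F X1 Xd X4 ⊆ tOne D S F X1 := sdiff_subset
  have hX4 : ∀ i ∈ X4 c, i ∉ tTwo D D' S F X1 Xd X4 := by
    intro i hi h
    unfold tTwo at h
    exact (mem_sdiff.1 h).2 (mem_union_right _ (sub_uC hc hi))
  refine ⟨⟨?_, ?_⟩, ?_⟩
  · intro m hm
    rcases List.mem_append.1 hm with h | h
    · exact h1.1 m h
    · exact h4.1 m h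
  · rw [List.pairwise_append]
    refine ⟨h1.2, h4.2, ?_⟩
    intro m hm n hn
    obtain ⟨_, _, _, k1, k2⟩ := h2 m hm
    obtain ⟨_, _, _, _, k3, k4⟩ := h5 n hn
    have k3' := h3 k3
    have k4' := h3 k4
    refine ⟨?_, ?_, ?_, ?_⟩
    · intro e; exact k1 (e ▸ k3')
    · intro e; exact k1 (e ▸ k4')
    · intro e; exact k2 (e ▸ k3')
    · intro e; exact k2 (e ▸ k4')
  · intro m hm
    rcases List.mem_append.1 hm with h | h
    · obtain ⟨k0, k1, k2, k3, k4⟩ := h2 m h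
      exact ⟨k0, k1, k2, fun h' => k3 (hsub h'), fun h' => k4 (hsub h')⟩
    · obtain ⟨_, k0, k1, k2, k3, k4⟩ := h5 m h
      exact ⟨k0, k1, k2, hX4 _ k3, hX4 _ k4⟩

end

end Pool.Agent.OBX
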