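import Mathlib
import Pool.Agent.OBX.CdbS

set_option autoImplicit false
set_option linter.unusedSectionVars false
set_option linter.unusedVariables false

/-! CDLB: the conclusion from the data after PREPB, FINDO, XST and the output of FININ. -/

namespace Pool.Agent.OBX

open Finset Pool.Agent.OBW

theorem cdbo_card3 {α : Type} [DecidableEq α] {A B E G : Finset α} {a b e t : ℝ}
    (h : A ⊆ B ∪ (E ∪ G)) (hB : (B.card : ℝ) ≤ a) (hE : (E.card : ℝ) ≤ b) (hG : (G.card : ℝ) ≤ e)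
    (ht : a + b + e ≤ t) : (A.card : ℝ) ≤ t := by
  have h1 : A.card ≤ B.card + (E.card + G.card) :=
    (card_le_card h).trans ((card_union_le _ _).trans
      (Nat.add_le_add_left (card_union_le _ _) _))
  have h2 : (A.card : ℝ) ≤ (B.card : ℝ) + ((E.card : ℝ) + (G.card : ℝ)) := by exact_mod_cast h1
  linarith

theorem cdb_out (hTrans : TransStmt) (hAdd : AddStmt) {V C : Type} [Fintype V] [DecidableEq V] [Fintype C] [DecidableEq C]
   {θ p ε η μ θi : ℝ} {L₁ : ℕ} {U U' U'' : Finset V} {D D' D'' : Finset C}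
    {S : Finset (Item V C)} {N : ℕ → ℕ} {ms : C → List (Mem V)} {Λ : C → Multiset ℕ}
    {F : Finset (Finset (Item V C))} {X1 : C → Finset (Item V C)} {ms1 : C → List (Mem V)}
    {Xd X4 : C → Finset (Item V C)} {ns : C → List (Mem V)}
   (P : CdlD θ p ε μ L₁ U U' U'' D D' D'' S N ms Λ F X1 ms1 Xd X4 ns)
   (hT : Inside U' D' (tTwo D D' S F X1 Xd X4)) {Xi : C → Finset (Item V C)} {ms' : C → List (Mem V)} {Λ' : C → Multiset ℕ}
   (Q : InOut θi U' U'' D' (tTwo D D' S F X1 Xd X4) (fun c => ms1 c ++ ns c) Λ Xi ms' Λ')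
   (hload : θ * U.card + 8 * p * U.card + θi * U'.card ≤ η * μ * U'.card / 2) (hp : 0 ≤ p) :
   CdlConc η μ L₁ U U' U'' D D' D'' S N ms Λ := by
  classical
  have hm0 : (0 : ℝ) ≤ p * U.card := mul_nonneg hp (Nat.cast_nonneg _)
  -- membership
  have mOne : ∀ i, i ∈ tOne D S F X1 ↔ i ∈ S ∧ i ∉ un F ∧ i ∉ uC D X1 := by
    intro i; unfold tOne; rw [mem_sdiff, mem_union, not_or]
  have mTwo : ∀ i, i ∈ tTwo D D' S F X1 Xd X4 ↔
      i ∈ tOne D S F X1 ∧ i ∉ uC (D \ D') Xd ∧ i ∉ uC D' X4 := by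
    intro i; unfold tTwo; rw [mem_sdiff, mem_union, not_or]
  -- colours
  have col1 : ∀ c ∈ D, ∀ v d, (Sum.inr (v, d) : Item V C) ∈ X1 c → d = c :=
    fun c hc v d h => (P.x1t c hc).col v d h
  have cold : ∀ c ∈ D \ D', ∀ v d, (Sum.inr (v, d) : Item V C) ∈ Xd c → d = c :=
    fun c hc v d h => (P.xds c hc).2.col v d h
  have st4 : ∀ c ∈ D', Step c (ms1 c) (X4 c) (Λ c) (ms1 c ++ ns c) (Λ c) :=
    fun c hc => hAdd V C c (ms1 c) (ns c) (X4 c) (Λ c) (P.x4s c hc).2.1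
  have col4 : ∀ c ∈ D', ∀ v d, (Sum.inr (v, d) : Item V C) ∈ X4 c → d = c :=
    fun c hc v d h => (st4 c hc).col v d h
  have sti : ∀ c ∈ D', Step c (ms1 c ++ ns c) (Xi c) (Λ c) (ms' c) (Λ' c) :=
    fun c hc => (Q.s c hc).2.1
  -- disjointness
  have i1 : ∀ c ∈ D, ∀ i ∈ X1 c, i ∉ tOne D S F X1 := by
    intro c hc i hi h
    exact ((mOne i).1 h).2.2 (sub_uC hc hi)
  have d1 : ∀ c ∈ D \ D', ∀ i ∈ Xd c, i ∈ tOne D S F X1 := fun c hc i hi => (P.xds c hc).1 hi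
  have x41 : ∀ c ∈ D', ∀ i ∈ X4 c, i ∈ tOne D S F X1 := fun c hc i hi => (P.x4s c hc).1 hi
  have xi2 : ∀ c ∈ D', ∀ i ∈ Xi c, i ∈ tTwo D D' S F X1 Xd X4 := fun c hc i hi => (Q.s c hc).1 hi
  have xi1 : ∀ c ∈ D', ∀ i ∈ Xi c, i ∈ tOne D S F X1 := fun c hc i hi => ((mTwo i).1 (xi2 c hc i hi)).1
  have dd4 : ∀ c ∈ D \ D', ∀ d ∈ D', ∀ i ∈ Xd c, i ∉ X4 d := by
    intro c hc d hd i hi hi'
    rcases i with e | ⟨v, e⟩
    · induction e using Sym2.ind with
      | _ u v =>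
        have h1 := P.xde u v (sub_uC hc hi)
        exact P.x4f u v (sub_uC hd hi') ⟨h1.1, h1.2.1⟩
    · have h1 := cold c hc v e hi
      have h2 := col4 d hd v e hi'
      rw [mem_sdiff] at hc
      exact hc.2 (h1 ▸ h2 ▸ hd)
  have ddi : ∀ c ∈ D \ D', ∀ d ∈ D', ∀ i ∈ Xd c, i ∉ Xi d := by
    intro c hc d hd i hi hi'
    exact ((mTwo i).1 (xi2 d hd i hi')).2.1 (sub_uC hc hi)
  have d4i : ∀ c ∈ D', ∀ d ∈ D', ∀ i ∈ X4 c, i ∉ Xi d := by
    intro c hc d hd i hi hi'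
    exact ((mTwo i).1 (xi2 d hd i hi')).2.2 (sub_uC hc hi)
  -- the sets
  obtain ⟨X, hX⟩ : ∃ X : C → Finset (Item V C),
      X = fun c => if c ∈ D' then (X1 c ∪ X4 c) ∪ Xi c else X1 c ∪ Xd c := ⟨_, rfl⟩
  have XD' : ∀ c ∈ D', X c = (X1 c ∪ X4 c) ∪ Xi c := by
    intro c hc; rw [hX]; simp only [hc, if_true]
  have XD : ∀ c, c ∉ D' → X c = X1 c ∪ Xd c := by
    intro c hc; rw [hX]; simp only [hc, if_false]
  -- kinds
  have kind : ∀ c ∈ D, ∀ i ∈ X c, i ∈ X1 c ∨ (c ∈ D \ D' ∧ i ∈ Xd c) ∨ (c ∈ D' ∧ i ∈ X4 c) ∨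
      (c ∈ D' ∧ i ∈ Xi c) := by
    intro c hc i hi
    by_cases h : c ∈ D'
    · rw [XD' c h, mem_union, mem_union] at hi
      rcases hi with (hi | hi) | hi
      · exact Or.inl hi
      · exact Or.inr (Or.inr (Or.inl ⟨h, hi⟩))
      · exact Or.inr (Or.inr (Or.inr ⟨h, hi⟩))
    · rw [XD c h, mem_union] at hi
      rcases hi with hi | hi
      · exact Or.inl hi
      · exact Or.inr (Or.inl ⟨mem_sdiff.2 ⟨hc, h⟩, hi⟩)
  have kindU : ∀ i ∈ un F ∪ uC D X, i ∈ un F ∪ uC D X1 ∨ i ∈ uC (D \ D') Xd ∨ i ∈ uC D' X4 ∨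
      i ∈ uC D' Xi := by
    intro i hi
    rw [mem_union] at hi
    rcases hi with hi | hi
    · exact Or.inl (mem_union_left _ hi)
    · obtain ⟨c, hc, hi⟩ := mem_uC.1 hi
      rcases kind c hc i hi with h | ⟨h, h'⟩ | ⟨h, h'⟩ | ⟨h, h'⟩
      · exact Or.inl (mem_union_right _ (sub_uC hc h))
      · exact Or.inr (Or.inl (sub_uC h h'))
      · exact Or.inr (Or.inr (Or.inl (sub_uC h h')))
      · exact Or.inr (Or.inr (Or.inr (sub_uC h h')))
  have sub1 : ∀ c, X1 c ⊆ X c := by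
    intro c i hi
    by_cases h : c ∈ D'
    · rw [XD' c h]; exact mem_union_left _ (mem_union_left _ hi)
    · rw [XD c h]; exact mem_union_left _ hi
  have subd : ∀ c ∈ D \ D', Xd c ⊆ X c := by
    intro c hc i hi
    rw [XD c (mem_sdiff.1 hc).2]; exact mem_union_right _ hi
  have sub4 : ∀ c ∈ D', X4 c ⊆ X c := by
    intro c hc i hi
    rw [XD' c hc]; exact mem_union_left _ (mem_union_right _ hi)
  have subi : ∀ c ∈ D', Xi c ⊆ X c := by
    intro c hc i hi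
    rw [XD' c hc]; exact mem_union_right _ hi
  have incl : ∀ i, i ∈ S \ (un F ∪ uC D X) → i ∈ tTwo D D' S F X1 Xd X4 := by
    intro i hi
    rw [mem_sdiff, mem_union, not_or] at hi
    refine (mTwo i).2 ⟨(mOne i).2 ⟨hi.1, hi.2.1, ?_⟩, ?_, ?_⟩
    · intro h
      obtain ⟨c, hc, h⟩ := mem_uC.1 h
      exact hi.2.2 (mem_uC.2 ⟨c, hc, sub1 c h⟩)
    · intro h
      obtain ⟨c, hc, h⟩ := mem_uC.1 h
      exact hi.2.2 (mem_uC.2 ⟨c, (mem_sdiff.1 hc).1, subd c hc h⟩)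
    · intro h
      obtain ⟨c, hc, h⟩ := mem_uC.1 h
      exact hi.2.2 (mem_uC.2 ⟨c, P.subD hc, sub4 c hc h⟩)
  have oneS : ∀ i ∈ tOne D S F X1, i ∈ S ∧ i ∉ un F := fun i hi =>
    ⟨((mOne i).1 hi).1, ((mOne i).1 hi).2.1⟩
  refine ⟨F, X, ms', Λ', P.fp, P.fpd, P.fc, ?_, ?_, ?_, ?_, ?_, ?_, ?_, ?_, ?_, ?_, Q.e⟩
  · -- X c ⊆ S, disjoint from un F
    intro c hc
    have h : ∀ i ∈ X c, i ∈ S ∧ i ∉ un F := by
      intro i hi
      rcases kind c hc i hi with h | ⟨h, h'⟩ | ⟨h, h'⟩ | ⟨h, h'⟩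
      · exact ⟨(P.x1s c hc).1 h, Finset.disjoint_left.1 (P.x1s c hc).2 h⟩
      · exact oneS i (d1 c h i h')
      · exact oneS i (x41 c h i h')
      · exact oneS i (xi1 c h i h')
    exact ⟨fun i hi => (h i hi).1, Finset.disjoint_left.2 fun i hi => (h i hi).2⟩
  · -- disjointness
    intro c hc d hd hcd
    rw [Finset.disjoint_left]
    intro i hi hi'
    rcases kind c hc i hi with h | ⟨h, h'⟩ | ⟨h, h'⟩ | ⟨h, h'⟩
    · rcases kind d hd i hi' with k | ⟨k, k'⟩ | ⟨k, k'⟩ | ⟨k, k'⟩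
      · exact Finset.disjoint_left.1 (P.x1d c hc d hd hcd) h k
      · exact i1 c hc i h (d1 d k i k')
      · exact i1 c hc i h (x41 d k i k')
      · exact i1 c hc i h (xi1 d k i k')
    · rcases kind d hd i hi' with k | ⟨k, k'⟩ | ⟨k, k'⟩ | ⟨k, k'⟩
      · exact i1 d hd i k (d1 c h i h')
      · exact Finset.disjoint_left.1 (P.xdd c h d k hcd) h' k'
      · exact dd4 c h d k i h' k'
      · exact ddi c h d k i h' k'
    · rcases kind d hd i hi' with k | ⟨k, k'⟩ | ⟨k, k'⟩ | ⟨k, k'⟩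
      · exact i1 d hd i k (x41 c h i h')
      · exact dd4 d k c h i k' h'
      · exact Finset.disjoint_left.1 (P.x4d c h d k hcd) h' k'
      · exact d4i c h d k i h' k'
    · rcases kind d hd i hi' with k | ⟨k, k'⟩ | ⟨k, k'⟩ | ⟨k, k'⟩
      · exact i1 d hd i k (xi1 c h i h')
      · exact ddi d k c h i k' h'
      · exact d4i d k c h i k' h'
      · exact Finset.disjoint_left.1 (Q.d c h d k hcd) h' k'
  · -- colours outside D'
    intro c hc
    have hc' := mem_sdiff.1 hc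
    rw [XD c hc'.2]
    refine hTrans V C c (ms c) (ms1 c) [] (X1 c) (Xd c) (Λ c) (Λ c) 0 (P.x1t c hc'.1)
      (P.xds c hc).2 ?_
    rw [Finset.disjoint_left]
    intro i hi hi'
    exact i1 c hc'.1 i hi (d1 c hc i hi')
  · -- colours in D'
    intro c hc
    have hcD := P.subD hc
    obtain ⟨q1, q2, q3, q4, q5, q6, q7, q8⟩ := Q.s c hc
    refine ⟨?_, q3, q6, ⟨q7, ?_⟩, ⟨?_, ?_⟩⟩
    · rw [XD' c hc]
      have s1 : Step c (ms c) (X1 c ∪ X4 c) (Λ c) (ms1 c ++ ns c) (Λ c) := by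
        refine hTrans V C c (ms c) (ms1 c) (ms1 c ++ ns c) (X1 c) (X4 c) (Λ c) (Λ c) (Λ c)
          (P.x1t c hcD) (st4 c hc) ?_
        rw [Finset.disjoint_left]
        intro i hi hi'
        exact i1 c hcD i hi (x41 c hc i hi')
      refine hTrans V C c (ms c) (ms1 c ++ ns c) (ms' c) (X1 c ∪ X4 c) (Xi c) (Λ c) (Λ c) (Λ' c)
        s1 (sti c hc) ?_
      rw [Finset.disjoint_left]
      intro i hi hi'
      rcases mem_union.1 hi with h | h
      · exact i1 c hcD i h (xi1 c hc i hi')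
      · exact d4i c hc c hc i h hi'
    · intro m hm
      obtain ⟨a1, a2, a3, a4⟩ := q8 m hm
      exact ⟨a1, q4 _ _ a2, q4 _ _ a3, fun h => (mem_sdiff.1 h).2 (subi c hc a2),
        fun h => (mem_sdiff.1 h).2 (subi c hc a3)⟩
    · intro m hm
      have : (ms' c).tail = [] := by
        apply List.eq_nil_of_length_eq_zero
        rw [List.length_tail]
        omega
      rw [this] at hm
      simp at hm
    · intro m hm
      exact (q8 m (List.mem_of_mem_head? hm)).2.2.2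
  · -- Inside
    exact ⟨fun u v h => hT.1 u v (incl _ h), fun v c h => hT.2 v c (incl _ h)⟩
  · -- loads, vertices
    intro v hv
    refine cdbo_card3 (B := nb (un F ∪ uC D X1) v ∩ U') (E := nb (uC (D \ D') Xd) v)
      (G := nb (uC D' Xi) v) ?_ (P.l1 v hv) (P.xdl v hv) (Q.l v).1 hload
    intro u hu
    rw [mem_inter, mem_nb] at hu
    rw [mem_union, mem_union, mem_inter, mem_nb, mem_nb, mem_nb]
    rcases kindU _ hu.1 with h | h | h | h
    · exact Or.inl ⟨h, hu.2⟩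
    · exact Or.inr (Or.inl h)
    · exact absurd ⟨hv, hu.2⟩ (P.x4f v u h)
    · exact Or.inr (Or.inr h)
  · -- loads, colours at vertices
    intro v hv
    refine cdbo_card3 (B := cl (un F ∪ uC D X1) v ∩ D') (E := cl (uC D' X4) v)
      (G := cl (uC D' Xi) v) ?_ (P.l2 v hv) (P.x4m v hv) (Q.l v).2 (by nlinarith)
    intro c hc
    rw [mem_inter, mem_cl] at hc
    rw [mem_union, mem_union, mem_inter, mem_cl, mem_cl, mem_cl]
    rcases kindU _ hc.1 with h | h | h | h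
    · exact Or.inl ⟨h, hc.2⟩
    · obtain ⟨d, hd, h⟩ := mem_uC.1 h
      have := cold d hd v c h
      subst this
      exact absurd hc.2 (mem_sdiff.1 hd).2
    · exact Or.inr (Or.inl h)
    · exact Or.inr (Or.inr h)
  · -- loads, vertices of colours
    intro c hc
    refine cdbo_card3 (B := vt (un F ∪ uC D X1) c ∩ U') (E := vt (uC D' X4) c ∩ U')
      (G := vt (uC D' Xi) c) ?_ (P.l3 c hc) (P.x4n c hc) (Q.c c) (by nlinarith)
    intro v hv
    rw [mem_inter, mem_vt] at hv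
    rw [mem_union, mem_union, mem_inter, mem_inter, mem_vt, mem_vt, mem_vt]
    rcases kindU _ hv.1 with h | h | h | h
    · exact Or.inl ⟨h, hv.2⟩
    · obtain ⟨d, hd, h⟩ := mem_uC.1 h
      have := cold d hd v c h
      subst this
      exact absurd hc (mem_sdiff.1 hd).2
    · exact Or.inr (Or.inl ⟨h, hv.2⟩)
    · exact Or.inr (Or.inr h)
  · -- edges in U''
    intro u hu v hv hi
    rcases kindU _ hi with h | h | h | h
    · exact P.o1 u hu v hv h
    · exact (P.xde u v h).2.2 ⟨hu, hv⟩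
    · exact P.x4f u v h ⟨P.subU'' hu, P.subU'' hv⟩
    · obtain ⟨c, hc, h⟩ := mem_uC.1 h
      exact (Q.s c hc).2.2.2.2.1 u v h ⟨hu, hv⟩
  · -- pairs in (U'', D'')
    intro u hu c hc hi
    rcases kindU _ hi with h | h | h | h
    · exact P.o2 u hu c hc h
    · obtain ⟨d, hd, h⟩ := mem_uC.1 h
      have := cold d hd u c h
      subst this
      exact (mem_sdiff.1 hd).2 (P.subD'' hc)
    · exact (P.x4g u c h).2 ⟨hu, hc⟩
    · obtain ⟨d, hd, h⟩ := mem_uC.1 h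
      have := (Q.s d hd).2.2.2.1 u c h
      exact (mem_sdiff.1 this).2 hu

end Pool.Agent.OBX
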