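import Mathlib
import Pool.Agent.OBX.CdbN
import Pool.Agent.OBX.CdbI
import Pool.Agent.OBX.CdbO

set_option autoImplicit false
set_option linter.unusedSectionVars false
set_option linter.unusedVariables false

/-! CDLB: one stage of the vortex in Case B. -/

namespace Pool.Agent.OBX

open Finset Pool.Agent.OBW

theorem Siz.monoW {V : Type} {W W' W₀ : ℕ} {ms : List (Mem V)} {Λ : Multiset ℕ}
    (h : Siz W W₀ ms Λ) (hle : W ≤ W') : Siz W' W₀ ms Λ :=
  ⟨fun m hm => (h.1 m hm).trans hle, h.2⟩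

theorem cdlB (hPrep : PrepBStmt) (hX : XstStmt) (hDo : FinDoStmt) (hIn : FinInStmt)
    (hTrans : TransStmt) (hAdd : AddStmt) : CdlBStmt := by
  classical
  intro ε hε
  obtain ⟨μP, hμP, hP1⟩ := hPrep ε hε
  refine ⟨min μP (1 / 50), by positivity, fun μ hμ hμle => ?_⟩
  have hμP' : μ ≤ μP := hμle.trans (min_le_left _ _)
  have hμ50 : μ ≤ 1 / 50 := hμle.trans (min_le_right _ _)
  have hμ1 : μ ≤ 1 := hμ50.trans (by norm_num)
  obtain ⟨pX, hpX, hX1⟩ := hX μ hμ hμ1
  obtain ⟨pD, hpD, hD1⟩ := hDo (ε / 2) μ (half_pos hε) hμ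
  refine ⟨min μP (1 / 4), by positivity, fun η hη hηle => ?_⟩
  have hηP : η ≤ μP := hηle.trans (min_le_left _ _)
  have hη4 : η ≤ 1 / 4 := hηle.trans (min_le_right _ _)
  obtain ⟨pP, hpP, hP2⟩ := hP1 μ hμ hμP' η hη hηP
  obtain ⟨θi, hθi⟩ : ∃ θi : ℝ, θi = η * μ / 16 := ⟨_, rfl⟩
  have hθi0 : 0 < θi := by rw [hθi]; positivity
  obtain ⟨γi, hγi, hI1⟩ := hIn θi hθi0
  obtain ⟨p, hp, hpP', hpX', hpD', hp1, hp2, hp3⟩ : ∃ p : ℝ, 0 < p ∧ p ≤ pP ∧ p ≤ pX ∧ p ≤ pD ∧
      p ≤ μ / 1200 ∧ p ≤ η * μ ^ 2 / 1000 ∧ p ≤ γi * μ / 100 := by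
    refine ⟨min pP (min pX (min pD (min (μ / 1200) (min (η * μ ^ 2 / 1000) (γi * μ / 100))))),
      by positivity, min_le_left _ _, (min_le_right _ _).trans (min_le_left _ _),
      (min_le_right _ _).trans ((min_le_right _ _).trans (min_le_left _ _)),
      (min_le_right _ _).trans ((min_le_right _ _).trans ((min_le_right _ _).trans (min_le_left _ _))),
      (min_le_right _ _).trans ((min_le_right _ _).trans ((min_le_right _ _).trans
        ((min_le_right _ _).trans (min_le_left _ _)))),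
      (min_le_right _ _).trans ((min_le_right _ _).trans ((min_le_right _ _).trans
        ((min_le_right _ _).trans (min_le_right _ _))))⟩
  obtain ⟨mX, hX2⟩ := hX1 p hp hpX'
  obtain ⟨γd, hγd, hD2⟩ := hD1 p hp hpD'
  obtain ⟨θ, hθ, hθd, hθ1, hθ2⟩ : ∃ θ : ℝ, 0 < θ ∧ θ ≤ γd ∧ θ ≤ γi * μ / 10 ∧
      θ ≤ η * μ ^ 2 / 100 :=
    ⟨min γd (min (γi * μ / 10) (η * μ ^ 2 / 100)), by positivity, min_le_left _ _,
      (min_le_right _ _).trans (min_le_left _ _), (min_le_right _ _).trans (min_le_right _ _)⟩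
  obtain ⟨W, hP3⟩ := hP2 p hp hpP' θ hθ
  obtain ⟨Ld, md, hD3⟩ := hD2 (max W 3)
  obtain ⟨Li, mi, hI2⟩ := hI1 (max W 3)
  refine ⟨max Ld (max Li (W + 30)), fun L₁ hL₁ => ?_⟩
  have hLd : Ld ≤ L₁ := (le_max_left _ _).trans hL₁
  have hLi : Li ≤ L₁ := ((le_max_left _ _).trans (le_max_right _ _)).trans hL₁
  have hLW : W + 30 ≤ L₁ := ((le_max_right _ _).trans (le_max_right _ _)).trans hL₁
  obtain ⟨ξ, hξ, hP4⟩ := hP3 L₁ (by omega)
  refine ⟨ξ, hξ, fun B => ?_⟩
  obtain ⟨mP, hP5⟩ := hP4 B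
  obtain ⟨m6, hm6⟩ := exists_nat_ge (((mi : ℝ) + 3) / μ)
  refine ⟨max mP (max mX (max md (max m6 1))), ?_⟩
  intro V C _ _ _ _ δ U U' U'' D D' D'' S N ms Λ hU hSt hU'' hD'' hU''c hD''c hN hms hends hbal
  have hU1 : mP ≤ U.card := (le_max_left _ _).trans hU
  have hU2 : mX ≤ U.card := ((le_max_left _ _).trans (le_max_right _ _)).trans hU
  have hU3 : md ≤ U.card :=
    ((le_max_left _ _).trans ((le_max_right _ _).trans (le_max_right _ _))).trans hU
  have hU4 : m6 ≤ U.card := ((le_max_left _ _).trans ((le_max_right _ _).trans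
    ((le_max_right _ _).trans (le_max_right _ _)))).trans hU
  have hU5 : 1 ≤ U.card := ((le_max_right _ _).trans ((le_max_right _ _).trans
    ((le_max_right _ _).trans (le_max_right _ _)))).trans hU
  obtain ⟨F, X1, ms1, a1, a2, a3, a4, a5, a6, a7, a8, a9, a10, a11, a12, a13, a14, a15⟩ :=
    hP5 V C δ U U' U'' D D' D'' S N ms hU1 hSt hU'' hD'' hU''c hD''c hN
      (fun c hc => ⟨(hms c hc).1, (hms c hc).2.1⟩) hends hbal
  have hm0 : (0:ℝ) < U.card := by
    have : (1:ℝ) ≤ U.card := by exact_mod_cast hU5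
    linarith only [this]
  have hμm : (mi : ℝ) + 3 ≤ μ * U.card := by
    have h1 : ((mi : ℝ) + 3) / μ ≤ U.card := hm6.trans (by exact_mod_cast hU4)
    rw [div_le_iff₀ hμ] at h1
    linarith only [h1]
  have hMlo : μ * U.card - 1 ≤ U'.card := hSt.Ulo
  have hmi0 : (0:ℝ) ≤ mi := Nat.cast_nonneg _
  have hM2 : (2:ℝ) ≤ U'.card := by linarith only [hμm, hMlo, hmi0]
  have hMm : μ * U.card ≤ 2 * U'.card := by linarith only [hμm, hMlo, hmi0]
  have hmiM : mi ≤ U'.card := by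
    have : (mi : ℝ) ≤ U'.card := by linarith only [hμm, hMlo]
    exact_mod_cast this
  have hΛ : ∀ c ∈ D, Λ c ≠ 0 := by
    intro c hc h0
    have h1 := (hms c hc).2.2.2.2
    rw [h0, Multiset.sum_zero] at h1
    have h2 : 2 * (vt S c).card ≤ U.card := by omega
    have h3 := hSt.missC c hc
    have h4 : U ⊆ vt S c ∪ (U \ vt S c) := by
      intro w hw
      rw [mem_union, mem_sdiff]
      by_cases h : w ∈ vt S c
      · exact Or.inl h
      · exact Or.inr ⟨hw, h⟩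
    have h5 := card_le_add2 h4
    have h6 : 2 * ((vt S c).card : ℝ) ≤ U.card := by exact_mod_cast h2
    have h7 : η * (U.card : ℝ) ≤ 1 / 4 * U.card := mul_le_mul_of_nonneg_right hη4 hm0.le
    linarith only [h3, h5, h6, h7, hm0]
  have hΛl : ∀ c ∈ D, ∀ l ∈ Λ c, L₁ < l := fun c hc => (hms c hc).2.2.2.1
  have hsz : ∀ c ∈ D, Siz (max W 3) 6 (ms1 c) (Λ c) := by
    intro c hc
    have h1 := a7 c hc (Λ c) 16 (hms c hc).2.2.1 (hΛ c hc)
      (fun l hl => by have := hΛl c hc l hl; omega)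
    exact (h1.mono (by norm_num)).monoW (le_max_left _ _)
  have hx1t : ∀ c ∈ D, Step c (ms c) (X1 c) (Λ c) (ms1 c) (Λ c) := fun c hc => a6 c hc (Λ c)
  have hcs : ∀ c ∈ D, (vt S c).card + siz (ms c) = (Λ c).sum + ∑ l ∈ Icc 3 L₁, l * N l :=
    fun c hc => (hms c hc).2.2.2.2
  have hc1 : ∀ c ∈ D, (vt (tOne D S F X1) c).card + siz (ms1 c) = (Λ c).sum :=
    cdb_count1' a1 a2 a3 a4 a5 hx1t hcs
  have hDsub := hSt.subD
  obtain ⟨Xd, d1, d2, d3, d4⟩ := hD3 V C U U' U'' D D' D'' (tOne D S F X1) ms1 Λ hU3 a8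
    (by
      intro c hc
      have hcD := (mem_sdiff.1 hc).1
      refine ⟨(a9 c hcD).1, (a9 c hcD).2.trans (mul_le_mul_of_nonneg_right hθd hm0.le), hsz c hcD,
        fun l hl => ?_, hc1 c hcD⟩
      have := hΛl c hcD l hl
      omega)
    (by
      intro v
      refine le_trans ?_ ((a10 v).trans (mul_le_mul_of_nonneg_right hθd hm0.le))
      exact Finset.sum_le_sum_of_subset_of_nonneg sdiff_subset (fun c _ _ => Nat.cast_nonneg _))
  obtain ⟨X4, ns, x1, x2, x3, x4, x5, x6, x7, x8, x9⟩ :=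
    hX2 V C (ε / 2) U U' U'' D D' D'' (tOne D S F X1) hU2 a8
  have P : CdlD θ p ε μ L₁ U U' U'' D D' D'' S N ms Λ F X1 ms1 Xd X4 ns :=
    { fp := a1, fpd := a2, fc := a3, x1s := a4, x1d := a5, x1t := hx1t, lh := a8, m1 := a9, e1 := a10,
      l1 := a11, l2 := a12, l3 := a13, o1 := a14, o2 := a15, xds := d1, xdd := d2, xde := d3, xdl := d4,
      x4s := x1, x4d := x2, x4e := x3, x4c := x4, x4f := x5, x4g := x6, x4l := x7, x4m := x8, x4n := x9,
      cs := hcs, subD := hDsub, subU := hSt.subU, subU'' := hU'', subD'' := hD'' }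
  have hT := cdb_inside P
  -- numeric facts
  have hpm : p * U.card ≤ μ * U.card / 1200 := by
    have := mul_le_mul_of_nonneg_right hp1 hm0.le
    linarith only [this]
  have hpm2 : p * U.card ≤ η * μ * (μ * U.card) / 1000 := by
    have := mul_le_mul_of_nonneg_right hp2 hm0.le
    linarith only [this]
  have hpm3 : p * U.card ≤ γi * (μ * U.card) / 100 := by
    have := mul_le_mul_of_nonneg_right hp3 hm0.le
    linarith only [this]
  have hθm1 : θ * U.card ≤ γi * (μ * U.card) / 10 := by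
    have := mul_le_mul_of_nonneg_right hθ1 hm0.le
    linarith only [this]
  have hθm2 : θ * U.card ≤ η * μ * (μ * U.card) / 100 := by
    have := mul_le_mul_of_nonneg_right hθ2 hm0.le
    linarith only [this]
  have hγM : γi * (μ * U.card) ≤ γi * (2 * U'.card) := mul_le_mul_of_nonneg_left hMm hγi.le
  have hημM : η * μ * (μ * U.card) ≤ η * μ * (2 * U'.card) :=
    mul_le_mul_of_nonneg_left hMm (by positivity)
  have hγM0 : 0 ≤ γi * (U'.card : ℝ) := by positivity
  have hημM0 : 0 ≤ η * μ * (U'.card : ℝ) := by positivity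
  have huu := cdb_uu P (by linarith only [hpm, hMm, hM2])
  have hcU := cdb_cU P (by linarith only [hpm, hMm, hM2])
  have hD'U' : D'.card ≤ U'.card := by
    have h1 := (abs_le.1 hSt.dD').2
    have h3 : δ * (U'.card : ℝ) ≤ 1/2 * U'.card :=
      mul_le_mul_of_nonneg_right hSt.δhi (Nat.cast_nonneg _)
    have h4 : (D'.card : ℝ) ≤ U'.card := by linarith only [h1, h3, hM2]
    exact_mod_cast h4
  have hU''50 : (U''.card : ℝ) ≤ U'.card / 50 := by
    have h1 : μ * (U'.card : ℝ) ≤ 1 / 50 * U'.card :=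
      mul_le_mul_of_nonneg_right hμ50 (Nat.cast_nonneg _)
    linarith only [h1, hU''c]
  obtain ⟨Xi, ms', Λ', i1, i2, i3, i4, i5⟩ := hI2 V C U' U'' D' (tTwo D D' S F X1 Xd X4)
    (fun c => ms1 c ++ ns c) Λ hmiM hD'U' hU''50 hT huu hcU
    (by
      intro c hc
      have hcD := hDsub hc
      refine ⟨cdb_mem P c hc, ?_, ?_, fun l hl => ?_, cdb_count2 hAdd P c hc⟩
      · rw [List.length_append, Nat.cast_add]
        have h1 := (a9 c hcD).2
        have h2 := (x1 c hc).2.2.2.1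
        linarith only [h1, h2, hpm3, hθm1, hγM, hγM0]
      · refine siz_app (hsz c hcD) (fun m hm => ((x1 c hc).2.2.2.2 m hm).1) (le_max_right _ _)
          (hΛ c hcD) (fun l hl => ?_)
        have := hΛl c hcD l hl
        omega
      · have := hΛl c hcD l hl
        omega)
    (by
      intro v
      have h1 : (∑ c ∈ D', (ends (ms1 c ++ ns c) v : ℝ)) =
          (∑ c ∈ D', (ends (ms1 c) v : ℝ)) + ∑ c ∈ D', (ends (ns c) v : ℝ) := by
        rw [← Finset.sum_add_distrib]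
        refine Finset.sum_congr rfl fun c _ => ?_
        rw [ends_append, Nat.cast_add]
      have h2 : (∑ c ∈ D', (ends (ms1 c) v : ℝ)) ≤ ∑ c ∈ D, (ends (ms1 c) v : ℝ) :=
        Finset.sum_le_sum_of_subset_of_nonneg hDsub (fun c _ _ => Nat.cast_nonneg _)
      have h3 := a10 v
      have h4 := x7 v
      change (∑ c ∈ D', (ends (ms1 c ++ ns c) v : ℝ)) ≤ _
      rw [h1]
      linarith only [h2, h3, h4, hpm3, hθm1, hγM, hγM0])
  exact cdb_out hTrans hAdd P hT (Xi := Xi) (ms' := ms') (Λ' := Λ')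
    { s := i1, d := i2, l := i3, c := i4, e := i5 }
    (by rw [hθi]; linarith only [hpm2, hθm2, hημM, hημM0]) hp.le

end Pool.Agent.OBX
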