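import Pool.Agent.OBX.PBc

/-!
MODULE Close (difficulty 2).

RECIPE: `g = r ∪ {s(b,x), s(y,a)}`, `path_append` for `q`, `r`, then `path_close`; `a ≠ b` gives `s ≠ 1` (`path_eq_iff`), so `3 ≤ s + t`.
-/

set_option autoImplicit false

namespace Pool.Agent.OBX

open Finset Pool.Agent.OBW

theorem close : CloseStmt := by
  intro V C _ _ s t c a b q g hq hg hd
  obtain ⟨hba, x, y, r, hr, -, -, rfl⟩ := hg
  have hd' : Disjoint q r := hd.mono_right subset_union_left
  have h1 := path_append hq hr hd'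
  have hs1 : 1 ≤ s := hq.1
  have ht1 : 1 ≤ t := hr.1
  have hs : s ≠ 1 := fun h => hba ((path_eq_iff hq).2 h).symm
  have h2 := path_close h1 (by omega)
  have e : q ∪ r ∪ {(Sum.inl s(b, x) : Item V C)} ∪ {(Sum.inl s(y, a) : Item V C)} =
      q ∪ (r ∪ {(Sum.inl s(b, x) : Item V C), Sum.inl s(y, a)}) := by
    ext i
    simp only [mem_union, mem_singleton, mem_insert]
    tauto
  rw [e] at h2
  exact h2

end Pool.Agent.OBX
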