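import Pool.Agent.OBX.Open
import Pool.Agent.OBX.Close
import Pool.Agent.OBX.CycsB

/-!
MODULE Cyc (difficulty 4).

RECIPE: for the group `i < q` put `N = e (i+1) - e i - 1`; `open_` with `n = N` for the shifted functions `j ↦ a (e i + j)` etc. gives a path from `a (e i)` to `b (e (i+1) - 1)`;
`close` with the link `g (e (i+1) - 1)` (its second root is `a (e i)`).  So `IsPiece (∑ j ∈ Ico (e i) (e (i+1)), (s j + t j)) c (P i)` with
`P i = (Ico (e i) (e (i+1))).biUnion (fun j => y j ∪ g j)`.  The `P i` are pairwise disjoint (the groups are disjoint intervals, `e` is monotone), their union is everything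
(every `j < n` is in one interval).  `cycs_family`.
-/

set_option autoImplicit false

namespace Pool.Agent.OBX

open Finset Pool.Agent.OBW

theorem cyc_mono {q : ℕ} {e : ℕ → ℕ} (he : ∀ i < q, e i < e (i + 1)) {i j : ℕ} (hij : i ≤ j) (hj : j ≤ q) :
    e i ≤ e j := by
  induction j, hij using Nat.le_induction with
  | base => exact le_rfl
  | succ j _ ih => exact (ih (by omega)).trans (he j (by omega)).le

theorem cyc_find {q n : ℕ} {e : ℕ → ℕ} (h0 : e 0 = 0) (hn : e q = n) {j : ℕ} (hj : j < n) :
    ∃ i < q, e i ≤ j ∧ j < e (i + 1) := by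
  classical
  have hex : ∃ i, j < e i := ⟨q, by rw [hn]; exact hj⟩
  obtain ⟨k, hk⟩ : ∃ k, k = Nat.find hex := ⟨_, rfl⟩
  have h1 : j < e k := by rw [hk]; exact Nat.find_spec hex
  have hmin : ∀ m < k, ¬ j < e m := fun m hm => Nat.find_min hex (by rw [← hk]; exact hm)
  have hk0 : k ≠ 0 := by
    rintro rfl
    rw [h0] at h1
    exact absurd h1 (Nat.not_lt_zero _)
  obtain ⟨i, rfl⟩ := Nat.exists_eq_succ_of_ne_zero hk0
  refine ⟨i, ?_, not_lt.1 (hmin i (Nat.lt_succ_self i)), h1⟩
  by_contra hq
  rcases Nat.lt_or_ge q (i + 1) with h | h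
  · exact hmin q h (by rw [hn]; exact hj)
  · omega

theorem cyc_ : CycStmt := by
  intro V C _ _ _ _ c n q e a b s t y g h0 he hn hy hg hyg hd
  have hle : ∀ i < q, e (i + 1) ≤ n := fun i hi => by
    rw [← hn]; exact cyc_mono he (by omega) le_rfl
  have hP : ∀ i < q, IsPiece (∑ j ∈ Ico (e i) (e (i + 1)), (s j + t j)) c
      ((Ico (e i) (e (i + 1))).biUnion (fun j => y j ∪ g j)) := by
    intro i hi
    obtain ⟨N, hN⟩ : ∃ N, e (i + 1) = e i + (N + 1) := by
      have := he i hi
      exact ⟨e (i + 1) - e i - 1, by omega⟩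
    have hle' := hle i hi
    have hpath := open_ V C c N (fun j => a (e i + j)) (fun j => b (e i + j)) (fun j => s (e i + j))
      (fun j => t (e i + j)) (fun j => y (e i + j)) (fun j => g (e i + j))
      (fun j hj => hy _ (by omega))
      (fun j hj => by
        have h := hg i hi (e i + j) (by omega) (by omega)
        rw [if_neg (by omega)] at h
        exact h)
      (fun j hj k hk => hyg _ (by omega) _ (by omega))
      (fun j hj k hk hjk => (hd _ (by omega) _ (by omega) (by omega)).1)
      (fun j hj k hk hjk => (hd _ (by omega) _ (by omega) (by omega)).2)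
    have hlink := hg i hi (e i + N) (by omega) (by omega)
    rw [if_pos (by omega)] at hlink
    have hpiece := close V C _ _ c _ _ _ _ hpath hlink (by
      rw [disjoint_union_left, disjoint_biUnion_left, disjoint_biUnion_left]
      refine ⟨fun k hk => ?_, fun k hk => ?_⟩
      · rw [mem_range] at hk
        exact hyg _ (by omega) _ (by omega)
      · rw [mem_range] at hk
        exact (hd _ (by omega) _ (by omega) (by omega)).2)
    have e1 : ∑ j ∈ Ico (e i) (e (i + 1)), (s j + t j) =
        ∑ j ∈ range (N + 1), s (e i + j) + ∑ j ∈ range N, t (e i + j) + t (e i + N) := by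
      rw [sum_Ico_eq_sum_range, show e (i + 1) - e i = N + 1 by omega, sum_add_distrib,
        sum_range_succ (fun j => t (e i + j)) N]
      ring
    have e2 : (Ico (e i) (e (i + 1))).biUnion (fun j => y j ∪ g j) =
        ((range (N + 1)).biUnion (fun j => y (e i + j)) ∪ (range N).biUnion (fun j => g (e i + j))) ∪
          g (e i + N) := by
      ext z
      simp only [mem_biUnion, mem_union, mem_Ico, mem_range]
      constructor
      · rintro ⟨j, ⟨hj1, hj2⟩, hz | hz⟩
        · exact Or.inl (Or.inl ⟨j - e i, by omega, by rwa [show e i + (j - e i) = j by omega]⟩)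
        · rcases eq_or_ne j (e i + N) with h | h
          · exact Or.inr (by rwa [← h])
          · exact Or.inl (Or.inr ⟨j - e i, by omega, by rwa [show e i + (j - e i) = j by omega]⟩)
      · rintro ((⟨j, hj, hz⟩ | ⟨j, hj, hz⟩) | hz)
        · exact ⟨e i + j, by omega, Or.inl hz⟩
        · exact ⟨e i + j, by omega, Or.inr hz⟩
        · exact ⟨e i + N, by omega, Or.inr hz⟩
    rw [e1, e2]
    exact hpiece
  have hdis : ∀ i < q, ∀ j < q, i ≠ j → Disjoint ((Ico (e i) (e (i + 1))).biUnion (fun k => y k ∪ g k))
      ((Ico (e j) (e (j + 1))).biUnion (fun k => y k ∪ g k)) := by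
    intro i hi j hj hij
    rw [disjoint_biUnion_left]
    intro k hk
    rw [disjoint_biUnion_right]
    intro l hl
    rw [mem_Ico] at hk hl
    have hi' := hle i hi
    have hj' := hle j hj
    have hkl : k ≠ l := by
      rintro rfl
      rcases Nat.lt_or_gt_of_ne hij with h | h
      · have := cyc_mono he (i := i + 1) (j := j) h hj.le
        omega
      · have := cyc_mono he (i := j + 1) (j := i) h hi.le
        omega
    rw [disjoint_union_left, disjoint_union_right, disjoint_union_right]
    exact ⟨⟨(hd k (by omega) l (by omega) hkl).1, hyg k (by omega) l (by omega)⟩,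
      (hyg l (by omega) k (by omega)).symm, (hd k (by omega) l (by omega) hkl).2⟩
  have hfin := cycs_family hP hdis
  have e3 : (range q).biUnion (fun i => (Ico (e i) (e (i + 1))).biUnion (fun j => y j ∪ g j)) =
      (range n).biUnion y ∪ (range n).biUnion g := by
    ext z
    simp only [mem_biUnion, mem_union, mem_Ico, mem_range]
    constructor
    · rintro ⟨i, hi, j, ⟨hj1, hj2⟩, hz | hz⟩
      · exact Or.inl ⟨j, by have := hle i hi; omega, hz⟩
      · exact Or.inr ⟨j, by have := hle i hi; omega, hz⟩
    · rintro (⟨j, hj, hz⟩ | ⟨j, hj, hz⟩)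
      · obtain ⟨i, hi, h1, h2⟩ := cyc_find h0 hn hj
        exact ⟨i, hi, j, ⟨h1, h2⟩, Or.inl hz⟩
      · obtain ⟨i, hi, h1, h2⟩ := cyc_find h0 hn hj
        exact ⟨i, hi, j, ⟨h1, h2⟩, Or.inr hz⟩
  rw [e3] at hfin
  exact hfin

end Pool.Agent.OBX
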