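import Mathlib
import Pool.Agent.OBX.Stmts
import Pool.Agent.OBW.GrdC

set_option autoImplicit false

/-!
OBX: links (normal form, degrees), weighted greedy with caps, building one link.
-/

namespace Pool.Agent.OBX

open Finset Pool.Agent.OBW

/-- **Greedy with caps, weighted version.** -/
theorem lnk_capGreedy {ι N Q : Type} [DecidableEq ι] [Fintype N] [DecidableEq N]
    (D : Finset ι) (nodes : Q → Finset N) (fix : ι → Finset N) (ok : ι → Q → Prop)
    (dis : Q → Q → Prop) (hsymm : ∀ a b, dis a b → dis b a) (q0 : Q)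
    (B0 K1 K2 : ℕ) (w : ι → ℕ)
    (hw : ∀ d ∈ D, ∀ q, ok d q → (nodes q).card ≤ w d)
    (hK1 : ∀ a, (D.filter (fun d => a ∈ fix d)).card ≤ K1)
    (hK2 : ∑ d ∈ D, w d ≤ K2)
    (hext : ∀ D' ⊆ D, ∀ g : ι → Q, (∀ d ∈ D', ok d (g d)) →
      (∀ d ∈ D', ∀ d' ∈ D', d ≠ d' → dis (g d) (g d')) →
      (∀ a, (D'.filter (fun d => a ∈ nodes (g d))).card ≤ B0 + K1) →
      ∀ O : Finset N, O.card * B0 ≤ K2 → ∀ d ∈ D, d ∉ D' →
      ∃ q, ok d q ∧ (∀ d' ∈ D', dis (g d') q) ∧ ∀ a ∈ nodes q, a ∉ fix d → a ∉ O) :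
    ∃ g : ι → Q, (∀ d ∈ D, ok d (g d)) ∧
      (∀ d ∈ D, ∀ d' ∈ D, d ≠ d' → dis (g d) (g d')) ∧
      (∀ a, (D.filter (fun d => a ∈ nodes (g d))).card ≤ B0 + K1) := by
  classical
  -- total count from the free count
  have htot : ∀ (D' : Finset ι) (g : ι → Q), D' ⊆ D →
      (∀ a, (D'.filter (fun d => a ∈ nodes (g d) ∧ a ∉ fix d)).card ≤ B0) →
      (∀ a, (D'.filter (fun d => a ∈ nodes (g d))).card ≤ B0 + K1) := by
    intro D' g hD' hfree a
    have h1 : D'.filter (fun d => a ∈ nodes (g d)) ⊆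
        D'.filter (fun d => a ∈ nodes (g d) ∧ a ∉ fix d) ∪ D.filter (fun d => a ∈ fix d) := by
      intro d hd
      rw [mem_filter] at hd
      rw [mem_union, mem_filter, mem_filter]
      by_cases h : a ∈ fix d
      · exact Or.inr ⟨hD' hd.1, h⟩
      · exact Or.inl ⟨hd.1, hd.2, h⟩
    refine (card_le_card h1).trans ((card_union_le _ _).trans ?_)
    exact Nat.add_le_add (hfree a) (hK1 a)
  have key : ∀ D' : Finset ι, D' ⊆ D → ∃ g : ι → Q, (∀ d ∈ D', ok d (g d)) ∧
      (∀ d ∈ D', ∀ d' ∈ D', d ≠ d' → dis (g d) (g d')) ∧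
      (∀ a, (D'.filter (fun d => a ∈ nodes (g d) ∧ a ∉ fix d)).card ≤ B0) := by
    intro D'
    induction D' using Finset.induction_on with
    | empty =>
      intro _
      exact ⟨fun _ => q0, by simp, by simp, by simp⟩
    | insert d D' hd ih =>
      intro hsub
      have hD' : D' ⊆ D := (subset_insert _ _).trans hsub
      obtain ⟨g, hg1, hg2, hg3⟩ := ih hD'
      set fr : N → ℕ := fun a => (D'.filter (fun d => a ∈ nodes (g d) ∧ a ∉ fix d)).card with hfr
      set O : Finset N := univ.filter fun a => B0 ≤ fr a with hO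
      have hOc : O.card * B0 ≤ K2 := by
        have h1 : O.card * B0 ≤ ∑ a ∈ O, fr a := by
          rw [← smul_eq_mul]
          apply Finset.card_nsmul_le_sum
          intro a ha
          exact (mem_filter.1 ha).2
        have h2 : ∑ a ∈ O, fr a ≤ ∑ a, fr a :=
          Finset.sum_le_sum_of_subset (subset_univ _)
        have h3 : ∑ a, fr a ≤ ∑ d ∈ D', (nodes (g d)).card := by
          have e1 : ∀ a, fr a = ∑ d ∈ D', if a ∈ nodes (g d) ∧ a ∉ fix d then 1 else 0 := by
            intro a
            simp only [hfr, Finset.card_filter]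
          rw [Finset.sum_congr rfl fun a _ => e1 a, Finset.sum_comm]
          apply Finset.sum_le_sum
          intro d _
          rw [← Finset.card_filter]
          apply card_le_card
          intro a ha
          exact (mem_filter.1 ha).2.1
        have h4 : ∑ d ∈ D', (nodes (g d)).card ≤ ∑ d ∈ D', w d :=
          Finset.sum_le_sum fun d hd => hw d (hD' hd) _ (hg1 d hd)
        have h5 : ∑ d ∈ D', w d ≤ ∑ d ∈ D, w d := Finset.sum_le_sum_of_subset hD'
        omega
      obtain ⟨q, hq1, hq2, hq3⟩ := hext D' hD' g hg1 hg2 (htot D' g hD' hg3) O hOc d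
        (hsub (mem_insert_self _ _)) hd
      have hne : ∀ d' ∈ D', d' ≠ d := fun d' hd' h => hd (h ▸ hd')
      refine ⟨Function.update g d q, ?_, ?_, ?_⟩
      · intro d' hd'
        rw [mem_insert] at hd'
        rcases hd' with rfl | hd'
        · rw [Function.update_self]; exact hq1
        · rw [Function.update_of_ne (hne d' hd')]; exact hg1 d' hd'
      · intro a ha b hb hab
        rw [mem_insert] at ha hb
        rcases ha with rfl | ha
        · rcases hb with rfl | hb
          · exact absurd rfl hab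
          · rw [Function.update_self, Function.update_of_ne (hne b hb)]
            exact hsymm _ _ (hq2 b hb)
        · rcases hb with rfl | hb
          · rw [Function.update_self, Function.update_of_ne (hne a ha)]
            exact hq2 a ha
          · rw [Function.update_of_ne (hne a ha), Function.update_of_ne (hne b hb)]
            exact hg2 a ha b hb hab
      · intro a
        rw [Finset.filter_insert]
        have h1 : D'.filter (fun d' => a ∈ nodes (Function.update g d q d') ∧ a ∉ fix d') =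
            D'.filter (fun d' => a ∈ nodes (g d') ∧ a ∉ fix d') := by
          apply Finset.filter_congr
          intro d' hd'
          rw [Function.update_of_ne (hne d' hd')]
        rw [h1]
        split_ifs with h
        · rw [Function.update_self] at h
          have h2 := hq3 a h.1 h.2
          have h3 : fr a < B0 := by
            by_contra h4
            exact h2 (mem_filter.2 ⟨mem_univ _, not_lt.1 h4⟩)
          refine (card_insert_le _ _).trans ?_
          exact h3
        · exact hg3 a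
  obtain ⟨g, hg1, hg2, hg3⟩ := key D (Subset.refl _)
  exact ⟨g, hg1, hg2, htot D g (Subset.refl _) hg3⟩

section
variable {V C : Type} [DecidableEq V] [DecidableEq C]

/-- items of the link `u 0, u 1, …, u t, u (t+1)` in normal form -/
def lit (t : ℕ) (u : ℕ → V) (c : C) : Finset (Item V C) :=
  (range (t + 1)).image (fun i => (Sum.inl s(u i, u (i + 1)) : Item V C)) ∪
  (range t).image (fun i => (Sum.inr (u (i + 1), c) : Item V C))

theorem lnk_mem_inl {t : ℕ} {u : ℕ → V} {c : C} {e : Sym2 V} :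
    (Sum.inl e : Item V C) ∈ lit t u c ↔ ∃ i ≤ t, s(u i, u (i + 1)) = e := by
  unfold lit
  rw [mem_union, mem_image, mem_image]
  constructor
  · rintro (⟨i, hi, h⟩ | ⟨i, hi, h⟩)
    · exact ⟨i, by rw [mem_range] at hi; omega, Sum.inl.inj h⟩
    · exact absurd h (by simp)
  · rintro ⟨i, hi, h⟩
    exact Or.inl ⟨i, mem_range.2 (by omega), by rw [h]⟩

theorem lnk_mem_inr {t : ℕ} {u : ℕ → V} {c d : C} {v : V} :
    (Sum.inr (v, d) : Item V C) ∈ lit t u c ↔ (∃ i < t, u (i + 1) = v) ∧ d = c := by
  unfold lit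
  rw [mem_union, mem_image, mem_image]
  constructor
  · rintro (⟨i, hi, h⟩ | ⟨i, hi, h⟩)
    · exact absurd h (by simp)
    · have h1 := Sum.inr.inj h
      rw [Prod.mk.injEq] at h1
      exact ⟨⟨i, mem_range.1 hi, h1.1⟩, h1.2.symm⟩
  · rintro ⟨⟨i, hi, h⟩, rfl⟩
    exact Or.inr ⟨i, mem_range.2 hi, by rw [h]⟩

theorem lnk_pit_inl {s : ℕ} {z : ℕ → V} {c : C} {e : Sym2 V} :
    (Sum.inl e : Item V C) ∈ pit s z c ↔ ∃ i < s - 1, s(z i, z (i + 1)) = e := by
  unfold pit
  rw [mem_union, mem_image, mem_image]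
  constructor
  · rintro (⟨i, hi, h⟩ | ⟨i, hi, h⟩)
    · exact ⟨i, mem_range.1 hi, Sum.inl.inj h⟩
    · exact absurd h (by simp)
  · rintro ⟨i, hi, h⟩
    exact Or.inl ⟨i, mem_range.2 hi, by rw [h]⟩

theorem lnk_pit_inr {s : ℕ} {z : ℕ → V} {c d : C} {v : V} :
    (Sum.inr (v, d) : Item V C) ∈ pit s z c ↔ (∃ i < s, z i = v) ∧ d = c := by
  unfold pit
  rw [mem_union, mem_image, mem_image]
  constructor
  · rintro (⟨i, hi, h⟩ | ⟨i, hi, h⟩)
    · exact absurd h (by simp)
    · have h1 := Sum.inr.inj h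
      rw [Prod.mk.injEq] at h1
      exact ⟨⟨i, mem_range.1 hi, h1.1⟩, h1.2.symm⟩
  · rintro ⟨⟨i, hi, h⟩, rfl⟩
    exact Or.inr ⟨i, mem_range.2 hi, by rw [h]⟩

/-- the normal form is a link -/
theorem lnk_of {t : ℕ} (ht : 1 ≤ t) {u : ℕ → V} {c : C} (hu : Set.InjOn u (Set.Iio (t + 2))) :
    IsLink t c (u 0) (u (t + 1)) (lit t u c) := by
  have hinj : ∀ i < t + 2, ∀ j < t + 2, u i = u j → i = j := fun i hi j hj h =>
    hu (Set.mem_Iio.2 hi) (Set.mem_Iio.2 hj) h
  refine ⟨?_, u 1, u t, pit t (fun i => u (i + 1)) c, ⟨ht, fun i => u (i + 1), ?_, rfl, ?_, rfl⟩,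
    ?_, ?_, ?_⟩
  · intro h
    have := hinj 0 (by omega) (t + 1) (by omega) h
    omega
  · intro i hi j hj h
    rw [Set.mem_Iio] at hi hj
    have := hinj (i + 1) (by omega) (j + 1) (by omega) h
    omega
  · show u (t - 1 + 1) = u t
    congr 1
    omega
  · rw [lnk_pit_inr]
    rintro ⟨⟨i, hi, h⟩, _⟩
    have := hinj (i + 1) (by omega) 0 (by omega) h
    omega
  · rw [lnk_pit_inr]
    rintro ⟨⟨i, hi, h⟩, _⟩
    have := hinj (i + 1) (by omega) (t + 1) (by omega) h
    omega
  · ext x
    rw [mem_union, mem_insert, mem_singleton]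
    rcases x with e | ⟨v, d⟩
    · rw [lnk_mem_inl, lnk_pit_inl]
      constructor
      · rintro ⟨i, hi, h⟩
        by_cases h0 : i = 0
        · right; left; rw [← h, h0]
        · by_cases h1 : i = t
          · right; right; rw [← h, h1]
          · left
            refine ⟨i - 1, by omega, ?_⟩
            rw [← h]
            have : i - 1 + 1 = i := by omega
            show s(u (i - 1 + 1), u (i - 1 + 1 + 1)) = _
            rw [this]
      · rintro (⟨i, hi, h⟩ | h | h)
        · exact ⟨i + 1, by omega, h⟩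
        · exact ⟨0, by omega, (Sum.inl.inj h).symm⟩
        · exact ⟨t, le_rfl, (Sum.inl.inj h).symm⟩
    · rw [lnk_mem_inr, lnk_pit_inr]
      simp

/-- every link has a normal form -/
theorem lnk_to {t : ℕ} {a b : V} {c : C} {g : Finset (Item V C)} (h : IsLink t c a b g) :
    1 ≤ t ∧ ∃ u : ℕ → V, Set.InjOn u (Set.Iio (t + 2)) ∧ u 0 = a ∧ u (t + 1) = b ∧
      g = lit t u c := by
  obtain ⟨hab, x, y, q, ⟨ht, z, hz, hx, hy, rfl⟩, ha, hb, rfl⟩ := h
  rw [lnk_pit_inr] at ha hb
  have ha' : ∀ i < t, z i ≠ a := fun i hi h => ha ⟨⟨i, hi, h⟩, rfl⟩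
  have hb' : ∀ i < t, z i ≠ b := fun i hi h => hb ⟨⟨i, hi, h⟩, rfl⟩
  refine ⟨ht, fun i => if i = 0 then a else if i ≤ t then z (i - 1) else b, ?_, ?_, ?_, ?_⟩
  · intro i hi j hj hij
    rw [Set.mem_Iio] at hi hj
    simp only at hij
    by_cases hi0 : i = 0
    · by_cases hj0 : j = 0
      · omega
      · rw [if_pos hi0, if_neg hj0] at hij
        by_cases hjt : j ≤ t
        · rw [if_pos hjt] at hij
          exact absurd hij.symm (ha' _ (by omega))
        · rw [if_neg hjt] at hij
          exact absurd hij hab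
    · by_cases hj0 : j = 0
      · rw [if_neg hi0, if_pos hj0] at hij
        by_cases hit : i ≤ t
        · rw [if_pos hit] at hij
          exact absurd hij (ha' _ (by omega))
        · rw [if_neg hit] at hij
          exact absurd hij.symm hab
      · rw [if_neg hi0, if_neg hj0] at hij
        by_cases hit : i ≤ t
        · by_cases hjt : j ≤ t
          · rw [if_pos hit, if_pos hjt] at hij
            have := hz (Set.mem_Iio.2 (show i - 1 < t by omega))
              (Set.mem_Iio.2 (show j - 1 < t by omega)) hij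
            omega
          · rw [if_pos hit, if_neg hjt] at hij
            exact absurd hij (hb' _ (by omega))
        · by_cases hjt : j ≤ t
          · rw [if_neg hit, if_pos hjt] at hij
            exact absurd hij.symm (hb' _ (by omega))
          · omega
  · simp
  · simp
  · ext w
    rw [mem_union, mem_insert, mem_singleton]
    rcases w with e | ⟨v, d⟩
    · rw [lnk_mem_inl, lnk_pit_inl]
      constructor
      · rintro (⟨i, hi, h⟩ | h | h)
        · refine ⟨i + 1, by omega, ?_⟩
          have e1 : ¬ (i + 1 = 0) := by omega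
          have e2 : i + 1 ≤ t := by omega
          have e3 : ¬ (i + 1 + 1 = 0) := by omega
          have e4 : i + 1 + 1 ≤ t := by omega
          simp only [e1, e2, e3, e4, if_true, if_false]
          have e5 : i + 1 - 1 = i := by omega
          have e6 : i + 1 + 1 - 1 = i + 1 := by omega
          rw [e5, e6]
          exact h
        · refine ⟨0, by omega, ?_⟩
          have e2 : (0 + 1 : ℕ) ≤ t := by omega
          rw [Sum.inl.inj h]
          simp [e2, hx]
        · refine ⟨t, le_rfl, ?_⟩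
          have e1 : ¬ (t = 0) := by omega
          rw [Sum.inl.inj h]
          simp [e1, hy]
      · rintro ⟨i, hi, h⟩
        by_cases h0 : i = 0
        · right; left
          have e2 : (0 + 1 : ℕ) ≤ t := by omega
          rw [← h, h0]
          simp [e2, hx]
        · by_cases h1 : i = t
          · right; right
            rw [← h, h1]
            have e1 : ¬ (t = 0) := by omega
            simp [e1, hy]
          · left
            refine ⟨i - 1, by omega, ?_⟩
            rw [← h]
            have e2 : i + 1 ≤ t := by omega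
            have e3 : i - 1 + 1 = i := by omega
            simp [h0, hi, e2, e3]
    · rw [lnk_mem_inr, lnk_pit_inr]
      have e : (∃ i < t, z i = v) ↔
          (∃ i < t, (fun i => if i = 0 then a else if i ≤ t then z (i - 1) else b) (i + 1) = v) := by
        constructor
        · rintro ⟨i, hi, h⟩
          refine ⟨i, hi, ?_⟩
          have e2 : i + 1 ≤ t := by omega
          simp [e2, h]
        · rintro ⟨i, hi, h⟩
          refine ⟨i, hi, ?_⟩
          have e2 : i + 1 ≤ t := by omega
          simpa [e2] using h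
      rw [e]
      simp

end

section
variable {V C : Type} [Fintype V] [DecidableEq V] [Fintype C] [DecidableEq C]

/-- vertices of an item set -/
noncomputable def lnodes (g : Finset (Item V C)) : Finset V := by
  classical exact univ.filter fun v => (∃ u, (Sum.inl s(v, u) : Item V C) ∈ g) ∨
    ∃ d, (Sum.inr (v, d) : Item V C) ∈ g

theorem mem_lnodes {g : Finset (Item V C)} {v : V} : v ∈ lnodes g ↔
    (∃ u, (Sum.inl s(v, u) : Item V C) ∈ g) ∨ ∃ d, (Sum.inr (v, d) : Item V C) ∈ g := by
  unfold lnodes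
  simp

theorem lnk_deg {t : ℕ} {a b : V} {c : C} {g : Finset (Item V C)} (h : IsLink t c a b g) :
    (∀ v, (nb g v).card ≤ 2) ∧ (∀ v, (cl g v).card ≤ 1) ∧ (vt g c).card ≤ t ∧
      (∀ d, d ≠ c → vt g d = ∅) ∧ (lnodes g).card ≤ t + 2 := by
  classical
  obtain ⟨ht, u, hu, ha, hb, rfl⟩ := lnk_to h
  have hinj : ∀ i < t + 2, ∀ j < t + 2, u i = u j → i = j := fun i hi j hj h =>
    hu (Set.mem_Iio.2 hi) (Set.mem_Iio.2 hj) h
  refine ⟨?_, ?_, ?_, ?_, ?_⟩
  · intro v
    by_cases hv : ∃ i < t + 2, u i = v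
    · obtain ⟨i, hi, hiv⟩ := hv
      have hsub : nb (lit t u c) v ⊆ {u (i + 1), u (i - 1)} := by
        intro w hw
        rw [grd_mem_nb, lnk_mem_inl] at hw
        obtain ⟨j, hj, hjw⟩ := hw
        rw [mem_insert, mem_singleton]
        rw [Sym2.eq_iff] at hjw
        rcases hjw with ⟨h1, h2⟩ | ⟨h1, h2⟩
        · have := hinj j (by omega) i hi (h1.trans hiv.symm)
          left; rw [← h2, this]
        · have := hinj (j + 1) (by omega) i hi (h2.trans hiv.symm)
          right
          rw [← h1]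
          congr 1
          omega
      exact (card_le_card hsub).trans card_le_two
    · have : nb (lit t u c) v = ∅ := by
        rw [Finset.eq_empty_iff_forall_notMem]
        intro w hw
        rw [grd_mem_nb, lnk_mem_inl] at hw
        obtain ⟨j, hj, hjw⟩ := hw
        rw [Sym2.eq_iff] at hjw
        rcases hjw with ⟨h1, _⟩ | ⟨_, h2⟩
        · exact hv ⟨j, by omega, h1⟩
        · exact hv ⟨j + 1, by omega, h2⟩
      rw [this]; simp
  · intro v
    have : cl (lit t u c) v ⊆ {c} := by
      intro d hd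
      rw [grd_mem_cl, lnk_mem_inr] at hd
      rw [mem_singleton]; exact hd.2
    exact (card_le_card this).trans (by simp)
  · have : vt (lit t u c) c ⊆ (range t).image fun i => u (i + 1) := by
      intro v hv
      rw [grd_mem_vt, lnk_mem_inr] at hv
      obtain ⟨⟨i, hi, h⟩, _⟩ := hv
      exact mem_image.2 ⟨i, mem_range.2 hi, h⟩
    refine (card_le_card this).trans (card_image_le.trans ?_)
    rw [card_range]
  · intro d hd
    rw [Finset.eq_empty_iff_forall_notMem]
    intro v hv
    rw [grd_mem_vt, lnk_mem_inr] at hv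
    exact hd hv.2
  · have : lnodes (lit t u c) ⊆ (range (t + 2)).image u := by
      intro v hv
      rw [mem_lnodes] at hv
      rw [mem_image]
      rcases hv with ⟨w, hw⟩ | ⟨d, hd⟩
      · rw [lnk_mem_inl] at hw
        obtain ⟨j, hj, hjw⟩ := hw
        rw [Sym2.eq_iff] at hjw
        rcases hjw with ⟨h1, _⟩ | ⟨_, h2⟩
        · exact ⟨j, mem_range.2 (by omega), h1⟩
        · exact ⟨j + 1, mem_range.2 (by omega), h2⟩
      · rw [lnk_mem_inr] at hd
        obtain ⟨⟨i, hi, h⟩, _⟩ := hd
        exact ⟨i + 1, mem_range.2 (by omega), h⟩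
    refine (card_le_card this).trans (card_image_le.trans ?_)
    rw [card_range]

/-- **building one link** -/
theorem lnk_build (good : Item V C → Prop) (Z : Finset (Item V C)) (O A : Finset V) (c : C)
    (a b : V) (t β b1 b2 b3 : ℕ) (ht : 1 ≤ t) (hab : a ≠ b)
    (hmid : ∀ x, (x ∈ A ∨ x = a) → ∃ K ⊆ A, β ≤ K.card ∧ ∀ u ∈ K, good (Sum.inl s(x, u)) ∧
      good (Sum.inr (u, c)))
    (hlast : ∀ x, (x ∈ A ∨ (x = a ∧ t = 1)) → ∃ K ⊆ A, β ≤ K.card ∧ ∀ u ∈ K,
      good (Sum.inl s(x, u)) ∧ good (Sum.inl s(u, b)) ∧ good (Sum.inr (u, c)))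
    (hnb : ∀ v, (nb Z v).card ≤ b1) (hvt : (vt Z c).card ≤ b2) (hO : O.card ≤ b3)
    (hβ : 2 * b1 + b2 + b3 + (t + 2) < β) :
    ∃ g, IsLink t c a b g ∧ (∀ j ∈ g, good j ∧ j ∉ Z) ∧
      (∀ v d, (Sum.inr (v, d) : Item V C) ∈ g → v ∈ A ∧ v ∉ O) ∧
      (∀ v ∈ lnodes g, v ≠ a → v ≠ b → v ∉ O) := by
  classical
  have hcand : ∀ (K : Finset V) (prev : Finset V) (x y : V), β ≤ K.card → prev.card ≤ t + 2 →
      ∃ u ∈ K, u ∉ nb Z x ∧ u ∉ nb Z y ∧ u ∉ vt Z c ∧ u ∉ O ∧ u ∉ prev := by
    intro K prev x y hK hprev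
    have hlt : (nb Z x ∪ (nb Z y ∪ (vt Z c ∪ (O ∪ prev)))).card < K.card := by
      have h1 : (nb Z x ∪ (nb Z y ∪ (vt Z c ∪ (O ∪ prev)))).card ≤
          b1 + (b1 + (b2 + (b3 + (t + 2)))) := by
        refine (card_union_le _ _).trans (Nat.add_le_add (hnb x) ?_)
        refine (card_union_le _ _).trans (Nat.add_le_add (hnb y) ?_)
        refine (card_union_le _ _).trans (Nat.add_le_add hvt ?_)
        exact (card_union_le _ _).trans (Nat.add_le_add hO hprev)
      omega
    obtain ⟨u, huK, hub⟩ := Finset.exists_mem_notMem_of_card_lt_card hlt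
    simp only [mem_union, not_or] at hub
    exact ⟨u, huK, hub.1, hub.2.1, hub.2.2.1, hub.2.2.2.1, hub.2.2.2.2⟩
  obtain ⟨z, hz1, hz2, hz3⟩ := grd_pathBuild (t + 2) 2 (by norm_num) (by omega)
    (fun i => if i = 0 then b else a) A
    (fun x u => good (Sum.inl s(x, u)) ∧ (Sum.inl s(x, u) : Item V C) ∉ Z)
    (fun u => good (Sum.inr (u, c)) ∧ (Sum.inr (u, c) : Item V C) ∉ Z ∧ u ∉ O)
    (by
      intro prev hprev x hx
      obtain ⟨K, hKA, hKc, hK⟩ := hmid x (by simpa using hx)
      obtain ⟨u, huK, h1, _, h3, h4, h5⟩ := hcand K prev x x hKc hprev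
      obtain ⟨g1, g2⟩ := hK u huK
      exact ⟨u, hKA huK, h5, ⟨g1, fun h => h1 (grd_mem_nb.2 h)⟩,
        ⟨g2, fun h => h3 (grd_mem_vt.2 h), h4⟩⟩)
    (by
      intro prev hprev x hx
      obtain ⟨K, hKA, hKc, hK⟩ := hlast x (by
        rcases hx with h | ⟨h, h'⟩
        · exact Or.inl h
        · exact Or.inr ⟨by simpa using h, by omega⟩)
      obtain ⟨u, huK, h1, h2, h3, h4, h5⟩ := hcand K prev x b hKc hprev
      obtain ⟨g1, g2, g3⟩ := hK u huK
      refine ⟨u, hKA huK, h5, ⟨g1, fun h => h1 (grd_mem_nb.2 h)⟩, ⟨g2, fun h => h2 ?_⟩,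
        ⟨g3, fun h => h3 (grd_mem_vt.2 h), h4⟩⟩
      rw [grd_mem_nb, Sym2.eq_swap]
      exact h)
  have hz0 : z 0 = b := by rw [hz1 0 (by norm_num)]; simp
  have hz1' : z 1 = a := by rw [hz1 1 (by norm_num)]; simp
  -- the path a = u 0, …, u (t+1) = b
  set u : ℕ → V := fun i => if i = t + 1 then z 0 else z (i + 1) with hu
  have hu0 : u 0 = a := by
    simp only [hu]
    rw [if_neg (by omega)]
    exact hz1'
  have hut : u (t + 1) = b := by
    simp only [hu, if_true]
    exact hz0
  have hui : ∀ i, i ≤ t → u i = z (i + 1) := by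
    intro i hi
    simp only [hu]
    rw [if_neg (by omega)]
  have hdist : ∀ i < t + 2, ∀ j < i, z j ≠ z i := by
    intro i hi j hj
    by_cases hi2 : 2 ≤ i
    · exact (hz2 i hi2 hi).2.2.2 j hj
    · have h1 : i = 1 := by omega
      have h0 : j = 0 := by omega
      rw [h1, h0, hz0, hz1']
      exact hab.symm
  have hzinj : ∀ i < t + 2, ∀ j < t + 2, z i = z j → i = j := by
    intro i hi j hj h
    rcases Nat.lt_trichotomy i j with h' | h' | h'
    · exact absurd h (hdist j hj i h')
    · exact h'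
    · exact absurd h.symm (hdist i hi j h')
  have huinj : Set.InjOn u (Set.Iio (t + 2)) := by
    intro i hi j hj h
    rw [Set.mem_Iio] at hi hj
    by_cases hit : i = t + 1
    · by_cases hjt : j = t + 1
      · omega
      · rw [hit, hut, hui j (by omega), ← hz0] at h
        have := hzinj 0 (by omega) (j + 1) (by omega) h
        omega
    · by_cases hjt : j = t + 1
      · rw [hjt, hut, hui i (by omega), ← hz0] at h
        have := hzinj (i + 1) (by omega) 0 (by omega) h
        omega
      · rw [hui i (by omega), hui j (by omega)] at h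
        have := hzinj (i + 1) (by omega) (j + 1) (by omega) h
        omega
  have hlink := lnk_of (c := c) ht huinj
  rw [hu0, hut] at hlink
  refine ⟨lit t u c, hlink, ?_, ?_, ?_⟩
  · intro j hj
    rcases j with e | ⟨v, d⟩
    · rw [lnk_mem_inl] at hj
      obtain ⟨i, hi, rfl⟩ := hj
      by_cases hit : i = t
      · rw [hit, hut, hui t le_rfl]
        rw [hz0] at hz3
        have e1 : t + 2 - 1 = t + 1 := by omega
        rw [e1] at hz3
        exact hz3
      · rw [hui i hi, hui (i + 1) (by omega)]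
        have h1 := (hz2 (i + 1 + 1) (by omega) (by omega)).2.2.1
        have e1 : i + 1 + 1 - 1 = i + 1 := by omega
        rw [e1] at h1
        exact h1
    · rw [lnk_mem_inr] at hj
      obtain ⟨⟨i, hi, rfl⟩, rfl⟩ := hj
      rw [hui (i + 1) (by omega)]
      have h1 := (hz2 (i + 1 + 1) (by omega) (by omega)).2.1
      exact ⟨h1.1, h1.2.1⟩
  · intro v d hv
    rw [lnk_mem_inr] at hv
    obtain ⟨⟨i, hi, rfl⟩, rfl⟩ := hv
    rw [hui (i + 1) (by omega)]
    have h1 := hz2 (i + 1 + 1) (by omega) (by omega)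
    exact ⟨h1.1, h1.2.1.2.2⟩
  · intro v hv hva hvb
    have hex : ∃ i < t + 2, u i = v := by
      rw [mem_lnodes] at hv
      rcases hv with ⟨w, hw⟩ | ⟨d, hd⟩
      · rw [lnk_mem_inl] at hw
        obtain ⟨j, hj, hjw⟩ := hw
        rw [Sym2.eq_iff] at hjw
        rcases hjw with ⟨h1, _⟩ | ⟨_, h2⟩
        · exact ⟨j, by omega, h1⟩
        · exact ⟨j + 1, by omega, h2⟩
      · rw [lnk_mem_inr] at hd
        obtain ⟨⟨i, hi, h⟩, _⟩ := hd
        exact ⟨i + 1, by omega, h⟩
    obtain ⟨i, hi, rfl⟩ := hex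
    have hi0 : i ≠ 0 := fun h => hva (by rw [h, hu0])
    have hit : i ≠ t + 1 := fun h => hvb (by rw [h, hut])
    rw [hui i (by omega)]
    exact (hz2 (i + 1) (by omega) (by omega)).2.1.2.2

end

end Pool.Agent.OBX
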