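import Mathlib
import Pool.Agent.OBX.LnkA

set_option autoImplicit false

/-!
OBX: DBL (disjoint edges inside `W c` for every colour).
-/

namespace Pool.Agent.OBX

open Finset Pool.Agent.OBW

theorem dbl_core {V C : Type} [Fintype V] [DecidableEq V] [Fintype C] [DecidableEq C] [Nonempty V]
    (I : Finset C) (W : C → Finset V) (H : V → V → Prop) (hH : ∀ u v, H u v → H v u) (d : C → ℕ)
    (k : ℕ) (hk : 0 < k)
    (hW : ∀ c ∈ I, 3 * k < (W c).card)
    (hdeg : ∀ c ∈ I, ∀ u ∈ W c, ∃ K ⊆ W c, (∀ v ∈ K, H u v) ∧ 5 * k + 1 < K.card)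
    (hd : ∀ c ∈ I, d c ≤ k) (htot : 2 * (I.card * k) ≤ k * k ∨ 2 * ∑ c ∈ I, d c ≤ k * k) :
    ∃ a b : C → ℕ → V,
      (∀ c ∈ I, ∀ j < d c, a c j ∈ W c ∧ b c j ∈ W c ∧ a c j ≠ b c j ∧ H (a c j) (b c j)) ∧
      (∀ c ∈ I, ∀ i < d c, ∀ j < d c, i ≠ j →
        a c i ≠ a c j ∧ a c i ≠ b c j ∧ b c i ≠ b c j) ∧
      (∀ c ∈ I, ∀ c' ∈ I, c ≠ c' → ∀ i < d c, ∀ j < d c', s(a c i, b c i) ≠ s(a c' j, b c' j)) ∧
      (∀ u, ∀ S : Finset C, S ⊆ I → (∀ c ∈ S, ∃ j < d c, u = a c j ∨ u = b c j) → S.card ≤ k) := by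
  classical
  set DD : Finset (C × ℕ) := (I ×ˢ range (k + 1)).filter fun x => x.2 < d x.1 with hDD
  have hmem : ∀ c j, (c, j) ∈ DD ↔ c ∈ I ∧ j < d c := by
    intro c j
    rw [hDD, mem_filter, mem_product, mem_range]
    constructor
    · rintro ⟨⟨h1, _⟩, h3⟩
      exact ⟨h1, h3⟩
    · rintro ⟨h1, h2⟩
      have := hd c h1
      exact ⟨⟨h1, by simp only; omega⟩, h2⟩
  have hcount : ∀ c, (DD.filter fun x => x.1 = c).card ≤ d c := by
    intro c
    have h1 : (DD.filter fun x => x.1 = c) ⊆ (range (d c)).image fun j => (c, j) := by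
      rintro ⟨c', j⟩ hx
      rw [mem_filter, hmem] at hx
      obtain ⟨⟨_, h2⟩, h3⟩ := hx
      simp only at h3
      rw [mem_image]
      exact ⟨j, mem_range.2 (h3 ▸ h2), by rw [h3]⟩
    refine (card_le_card h1).trans (card_image_le.trans ?_)
    rw [card_range]
  have hDDc : DD.card ≤ ∑ c ∈ I, d c := by
    have h1 : DD ⊆ I.biUnion fun c => DD.filter fun x => x.1 = c := by
      rintro ⟨c, j⟩ hx
      rw [mem_biUnion]
      exact ⟨c, ((hmem c j).1 hx).1, mem_filter.2 ⟨hx, rfl⟩⟩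
    refine (card_le_card h1).trans (card_biUnion_le.trans ?_)
    exact Finset.sum_le_sum fun c _ => hcount c
  have hsum : 2 * DD.card ≤ k * k := by
    rcases htot with h | h
    · have h2 : ∑ c ∈ I, d c ≤ I.card * k := by
        rw [← smul_eq_mul]
        exact Finset.sum_le_card_nsmul _ _ _ hd
      omega
    · omega
  obtain ⟨v0⟩ : Nonempty V := inferInstance
  by_cases hCe : Nonempty C
  swap
  · have : IsEmpty C := not_nonempty_iff.1 hCe
    refine ⟨fun _ _ => v0, fun _ _ => v0, fun c => isEmptyElim c, fun c => isEmptyElim c,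
      fun c => isEmptyElim c, fun u S _ _ => ?_⟩
    have : S = ∅ := Finset.eq_empty_of_isEmpty S
    rw [this]; simp
  obtain ⟨c0⟩ := hCe
  obtain ⟨g, hg1, hg2, hg3⟩ := lnk_capGreedy DD
    (fun q : C × V × V => ({q.2.1, q.2.2} : Finset V)) (fun _ => (∅ : Finset V))
    (fun x q => q.1 = x.1 ∧ q.2.1 ∈ W x.1 ∧ q.2.2 ∈ W x.1 ∧ q.2.1 ≠ q.2.2 ∧ H q.2.1 q.2.2)
    (fun q q' => s(q.2.1, q.2.2) ≠ s(q'.2.1, q'.2.2) ∧
      (q.1 = q'.1 → q.2.1 ≠ q'.2.1 ∧ q.2.1 ≠ q'.2.2 ∧ q.2.2 ≠ q'.2.1 ∧ q.2.2 ≠ q'.2.2))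
    (by
      rintro q q' ⟨h1, h2⟩
      refine ⟨h1.symm, fun h => ?_⟩
      obtain ⟨a1, a2, a3, a4⟩ := h2 h.symm
      exact ⟨a1.symm, a3.symm, a2.symm, a4.symm⟩)
    (c0, v0, v0) k 0 (k * k) (fun _ => 2)
    (fun x _ q _ => card_le_two)
    (fun v => by simp)
    (by
      rw [Finset.sum_const, smul_eq_mul]
      omega)
    (by
      intro E hE g hok hdis hcap O hO x hx hxE
      obtain ⟨c, j⟩ := x
      have hcI := ((hmem c j).1 hx).1
      have hOk : O.card ≤ k := Nat.le_of_mul_le_mul_right hO hk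
      -- used vertices in the colour c
      set Uc : Finset V := (E.filter fun x => x.1 = c).biUnion
        fun x => ({(g x).2.1, (g x).2.2} : Finset V) with hUc
      have hUcc : Uc.card ≤ 2 * k := by
        refine (Finset.card_biUnion_le_card_mul _ _ 2 (fun x _ => card_le_two)).trans ?_
        have h1 : (E.filter fun x => x.1 = c).card ≤ (DD.filter fun x => x.1 = c).card := by
          apply card_le_card
          intro y hy
          rw [mem_filter] at hy ⊢
          exact ⟨hE hy.1, hy.2⟩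
        have h2 := hcount c
        have h3 := hd c hcI
        omega
      have hlt1 : (O ∪ Uc).card < (W c).card := by
        have h1 := card_union_le O Uc
        have h2 := hW c hcI
        omega
      obtain ⟨a0, ha0, ha0n⟩ := Finset.exists_mem_notMem_of_card_lt_card hlt1
      rw [mem_union, not_or] at ha0n
      obtain ⟨K, hKW, hKH, hKc⟩ := hdeg c hcI a0 ha0
      set P : Finset V := (E.filter fun x => a0 ∈ ({(g x).2.1, (g x).2.2} : Finset V)).biUnion
        fun x => ({(g x).2.1, (g x).2.2} : Finset V) with hP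
      have hPc : P.card ≤ 2 * k := by
        refine (Finset.card_biUnion_le_card_mul _ _ 2 (fun x _ => card_le_two)).trans ?_
        have := hcap a0
        omega
      have hlt2 : ({a0} ∪ (O ∪ (Uc ∪ P))).card < K.card := by
        have h1 : ({a0} ∪ (O ∪ (Uc ∪ P)) : Finset V).card ≤ 1 + (k + (2 * k + 2 * k)) := by
          refine (card_union_le _ _).trans (Nat.add_le_add (by simp) ?_)
          refine (card_union_le _ _).trans (Nat.add_le_add hOk ?_)
          exact (card_union_le _ _).trans (Nat.add_le_add hUcc hPc)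
        omega
      obtain ⟨b0, hb0, hb0n⟩ := Finset.exists_mem_notMem_of_card_lt_card hlt2
      simp only [mem_union, mem_singleton, not_or] at hb0n
      refine ⟨(c, a0, b0), ⟨rfl, ha0, hKW hb0, fun h => hb0n.1 h.symm, hKH b0 hb0⟩, ?_, ?_⟩
      · intro y hy
        refine ⟨?_, ?_⟩
        · intro h
          apply hb0n.2.2.2
          rw [hP, mem_biUnion]
          have ha : a0 ∈ ({(g y).2.1, (g y).2.2} : Finset V) := by
            have : a0 ∈ s((g y).2.1, (g y).2.2) := by
              rw [h]; exact Sym2.mem_mk_left _ _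
            rw [Sym2.mem_iff] at this
            rw [mem_insert, mem_singleton]
            exact this
          have hb : b0 ∈ ({(g y).2.1, (g y).2.2} : Finset V) := by
            have : b0 ∈ s((g y).2.1, (g y).2.2) := by
              rw [h]; exact Sym2.mem_mk_right _ _
            rw [Sym2.mem_iff] at this
            rw [mem_insert, mem_singleton]
            exact this
          exact ⟨y, mem_filter.2 ⟨hy, ha⟩, hb⟩
        · intro h
          have hyc : y.1 = c := by
            rw [← (hok y hy).1]; exact h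
          have hsub : ({(g y).2.1, (g y).2.2} : Finset V) ⊆ Uc := by
            intro v hv
            rw [hUc, mem_biUnion]
            exact ⟨y, mem_filter.2 ⟨hy, hyc⟩, hv⟩
          have h1 : (g y).2.1 ∈ Uc := hsub (mem_insert_self _ _)
          have h2 : (g y).2.2 ∈ Uc := hsub (mem_insert_of_mem (mem_singleton_self _))
          have aux : ∀ x y : V, x = y → x ∈ Uc → y ∈ Uc := fun x y e h => by rw [← e]; exact h
          exact ⟨fun e => ha0n.2 (aux _ _ e h1), fun e => hb0n.2.2.1 (aux _ _ e h1),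
            fun e => ha0n.2 (aux _ _ e h2), fun e => hb0n.2.2.1 (aux _ _ e h2)⟩
      · intro v hv _
        rw [mem_insert, mem_singleton] at hv
        rcases hv with rfl | rfl
        · exact ha0n.1
        · exact hb0n.2.1)
  refine ⟨fun c j => (g (c, j)).2.1, fun c j => (g (c, j)).2.2, ?_, ?_, ?_, ?_⟩
  · intro c hc j hj
    obtain ⟨_, h1, h2, h3, h4⟩ := hg1 (c, j) ((hmem c j).2 ⟨hc, hj⟩)
    exact ⟨h1, h2, h3, h4⟩
  · intro c hc i hi j hj hij
    have hci := (hmem c i).2 ⟨hc, hi⟩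
    have hcj := (hmem c j).2 ⟨hc, hj⟩
    have h := (hg2 (c, i) hci (c, j) hcj (fun e => hij (Prod.ext_iff.1 e).2)).2
      ((hg1 _ hci).1.trans (hg1 _ hcj).1.symm)
    exact ⟨h.1, h.2.1, h.2.2.2⟩
  · intro c hc c' hc' hcc i hi j hj
    exact (hg2 (c, i) ((hmem c i).2 ⟨hc, hi⟩) (c', j) ((hmem c' j).2 ⟨hc', hj⟩)
      (fun e => hcc (Prod.ext_iff.1 e).1)).1
  · intro u S hS hSu
    have h1 : S ⊆ (DD.filter fun x => u ∈ ({(g x).2.1, (g x).2.2} : Finset V)).image Prod.fst := by
      intro c hc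
      obtain ⟨j, hj, hu⟩ := hSu c hc
      rw [mem_image]
      refine ⟨(c, j), mem_filter.2 ⟨(hmem c j).2 ⟨hS hc, hj⟩, ?_⟩, rfl⟩
      rw [mem_insert, mem_singleton]
      exact hu
    refine (card_le_card h1).trans (card_image_le.trans ?_)
    exact hg3 u

theorem dbl : DblStmt := by
  intro ω θ hω hθ
  obtain ⟨κ, hκ⟩ : ∃ κ : ℝ, κ = min θ (ω / 16) := ⟨_, rfl⟩
  have hκ0 : 0 < κ := by
    rw [hκ]
    exact lt_min hθ (by positivity)
  have hκ1 : κ ≤ θ := by rw [hκ]; exact min_le_left _ _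
  have hκ2 : κ ≤ ω / 16 := by rw [hκ]; exact min_le_right _ _
  obtain ⟨γ, hγ⟩ : ∃ γ : ℝ, γ = min κ (κ ^ 2 / 8) := ⟨_, rfl⟩
  have hγ0 : 0 < γ := by
    rw [hγ]
    exact lt_min hκ0 (by positivity)
  have hγκ : γ ≤ κ := by rw [hγ]; exact min_le_left _ _
  have hγ2 : γ ≤ κ ^ 2 / 8 := by rw [hγ]; exact min_le_right _ _
  refine ⟨γ, hγ0, ⌈2 / κ + 32 / ω + 1⌉₊, ?_⟩
  intro V C _ _ _ _ _ m I W H d hm hI hWc hH hdeg hd
  have hmR : 2 / κ + 32 / ω + 1 ≤ m := (Nat.le_ceil _).trans hm
  have h2k : 0 ≤ 2 / κ := by positivity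
  have h32 : 0 ≤ 32 / ω := by positivity
  have hm0 : 0 < m := by linarith
  have hκm : 2 ≤ κ * m := by
    have h1 : 2 / κ ≤ m := by linarith
    rw [div_le_iff₀ hκ0] at h1
    linarith
  have hωm : 32 ≤ ω * m := by
    have h1 : 32 / ω ≤ m := by linarith
    rw [div_le_iff₀ hω] at h1
    linarith
  have hκω : κ * m ≤ ω * m / 16 := by
    have := mul_le_mul_of_nonneg_right hκ2 hm0.le
    linarith
  obtain ⟨k, hk⟩ : ∃ k : ℕ, k = ⌊κ * m⌋₊ := ⟨_, rfl⟩
  have hk1 : (k : ℝ) ≤ κ * m := by rw [hk]; exact Nat.floor_le (by linarith)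
  have hk2 : κ * m - 1 < k := by
    have := Nat.lt_floor_add_one (κ * m)
    rw [hk]
    linarith
  have hk3 : κ * m / 2 ≤ k := by linarith
  have hk0 : 0 < k := by
    have : (0 : ℝ) < k := by linarith
    exact_mod_cast this
  obtain ⟨a, b, h1, h2, h3, h4⟩ := dbl_core I W H hH d k hk0
    (by
      intro c hc
      have h5 : ((3 * k : ℕ) : ℝ) < (W c).card := by
        push_cast
        have := (hWc c hc).1
        linarith
      exact_mod_cast h5)
    (by
      intro c hc u hu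
      classical
      refine ⟨(W c).filter (fun v => H u v), filter_subset _ _, fun v hv => (mem_filter.1 hv).2, ?_⟩
      have h5 := hdeg c hc u hu
      have h6 := (hWc c hc).1
      have h7 : ((5 * k + 1 : ℕ) : ℝ) < (((W c).filter (fun v => H u v)).card : ℝ) := by
        push_cast
        have e : ((W c).filter (fun v => H u v)).card =
            (@Finset.filter V (fun v => H u v) (fun v => Classical.propDecidable _) (W c)).card := by
          congr
        rw [e]
        linarith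
      exact_mod_cast h7)
    (by
      intro c hc
      rw [hk]
      apply Nat.le_floor
      have h5 := hd c hc
      have h6 := mul_le_mul_of_nonneg_right hγκ hm0.le
      linarith)
    (by
      right
      have h5 : ∑ c ∈ I, (d c : ℝ) ≤ m * (γ * m) := by
        calc ∑ c ∈ I, (d c : ℝ) ≤ ∑ _c ∈ I, γ * m := Finset.sum_le_sum fun c hc => hd c hc
          _ = (I.card : ℝ) * (γ * m) := by rw [Finset.sum_const, nsmul_eq_mul]
          _ ≤ _ := mul_le_mul_of_nonneg_right hI (by positivity)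
      have h6 : 2 * (m * (γ * m)) ≤ (κ * m / 2) * (κ * m / 2) := by
        have h7 := mul_le_mul_of_nonneg_right hγ2 (sq_nonneg m)
        have e1 : 2 * (m * (γ * m)) = 2 * (γ * m ^ 2) := by ring
        have e2 : (κ * m / 2) * (κ * m / 2) = 2 * (κ ^ 2 / 8 * m ^ 2) := by ring
        linarith
      have h8 : (κ * m / 2) * (κ * m / 2) ≤ (k : ℝ) * k :=
        mul_le_mul hk3 hk3 (by linarith) (Nat.cast_nonneg _)
      have h9 : ((2 * ∑ c ∈ I, d c : ℕ) : ℝ) ≤ ((k * k : ℕ) : ℝ) := by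
        push_cast
        linarith
      exact_mod_cast h9)
  refine ⟨a, b, h1, h2, h3, ?_⟩
  intro u
  have h5 := h4 u (I.filter (fun c => ∃ j < d c, u = a c j ∨ u = b c j)) (filter_subset _ _)
    (fun c hc => (mem_filter.1 hc).2)
  have h6 : ((I.filter (fun c => ∃ j < d c, u = a c j ∨ u = b c j)).card : ℝ) ≤ k := by
    exact_mod_cast h5
  have h7 : κ * m ≤ θ * m := mul_le_mul_of_nonneg_right hκ1 hm0.le
  exact (h6.trans hk1).trans h7

end Pool.Agent.OBX
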