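import Pool.Agent.OBX.PBb

/-!
MODULE Drop (difficulty 3).  A cycle minus an edge is a path.

RECIPE: `q = cyc l z c`, `s(u,v) = s(z i, z ((i+1) % l))`.  First the case `v = z i`, `u = z ((i+1) % l)`: `w j = z ((i + 1 + j) % l)` is injective on `j < l`, `w 0 = u`, `w (l-1) = z i = v`,
and `q.erase s(u,v) = pit l w c` (the edges of a cycle of length `l ≥ 3` are different).  The other case by `path_symm` and `Sym2.eq_swap`.
-/

set_option autoImplicit false

namespace Pool.Agent.OBX

open Finset Pool.Agent.OBW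

theorem drop_mod {l m : ℕ} (h : m < 2 * l) : (m < l ∧ m % l = m) ∨ (l ≤ m ∧ m % l = m - l) := by
  rcases Nat.lt_or_ge m l with h1 | h1
  · exact Or.inl ⟨h1, Nat.mod_eq_of_lt h1⟩
  · right
    refine ⟨h1, ?_⟩
    rw [Nat.mod_eq_sub_mod h1, Nat.mod_eq_of_lt (by omega)]

theorem drop_aux {V C : Type} [DecidableEq V] [DecidableEq C] {l : ℕ} (hl : 3 ≤ l) {z : ℕ → V}
    (hz : Set.InjOn z (Set.Iio l)) (c : C) {i : ℕ} (hi : i < l) :
    z ((i + 1) % l) ≠ z i ∧ IsPath l c (z ((i + 1) % l)) (z i)
      ((cyc l z c).erase (Sum.inl s(z i, z ((i + 1) % l)))) := by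
  have hm : ∀ m, m % l < l := fun m => Nat.mod_lt _ (by omega)
  have hinj : ∀ {p q : ℕ}, p < l → q < l → z p = z q → p = q := fun hp hq h => hz hp hq h
  refine ⟨?_, by omega, fun j => z ((i + 1 + j) % l), ?_, ?_, ?_, ?_⟩
  · intro h
    have h1 := hinj (hm _) hi h
    rcases drop_mod (l := l) (m := i + 1) (by omega) with ⟨h2, h3⟩ | ⟨h2, h3⟩ <;> omega
  · intro j hj j' hj' h
    have hj2 : j < l := hj
    have hj2' : j' < l := hj'
    have h1 := hinj (hm _) (hm _) h
    rcases drop_mod (l := l) (m := i + 1 + j) (by omega) with ⟨h2, h3⟩ | ⟨h2, h3⟩ <;>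
      rcases drop_mod (l := l) (m := i + 1 + j') (by omega) with ⟨h4, h5⟩ | ⟨h4, h5⟩ <;> omega
  · simp
  · show z ((i + 1 + (l - 1)) % l) = z i
    have h1 : (i + 1 + (l - 1)) % l = i := by
      rcases drop_mod (l := l) (m := i + 1 + (l - 1)) (by omega) with ⟨h2, h3⟩ | ⟨h2, h3⟩ <;> omega
    rw [h1]
  · ext it
    rcases it with e | ⟨v, d⟩
    · rw [mem_pit_inl, mem_erase]
      unfold cyc
      simp only [mem_union, mem_image, mem_range, reduceCtorEq, and_false, exists_false, or_false,
        Sum.inl.injEq, ne_eq]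
      constructor
      · rintro ⟨hne, k, hk, rfl⟩
        have hki : k ≠ i := by
          rintro rfl
          exact hne rfl
        rcases Nat.lt_or_ge i k with h | h
        · refine ⟨k - (i + 1), by omega, ?_⟩
          have e1 : (i + 1 + (k - (i + 1))) % l = k := by
            have : i + 1 + (k - (i + 1)) = k := by omega
            rw [this, Nat.mod_eq_of_lt hk]
          have e2 : (i + 1 + (k - (i + 1) + 1)) % l = (k + 1) % l := by
            have : i + 1 + (k - (i + 1) + 1) = k + 1 := by omega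
            rw [this]
          rw [e1, e2]
        · refine ⟨k + l - (i + 1), by omega, ?_⟩
          have e1 : (i + 1 + (k + l - (i + 1))) % l = k := by
            have : i + 1 + (k + l - (i + 1)) = k + l := by omega
            rw [this, Nat.add_mod_right, Nat.mod_eq_of_lt hk]
          have e2 : (i + 1 + (k + l - (i + 1) + 1)) % l = (k + 1) % l := by
            have : i + 1 + (k + l - (i + 1) + 1) = (k + 1) + l := by omega
            rw [this, Nat.add_mod_right]
          rw [e1, e2]
      · rintro ⟨j, hj, rfl⟩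
        refine ⟨?_, (i + 1 + j) % l, hm _, ?_⟩
        · intro h
          rw [Sym2.eq_iff] at h
          rcases h with ⟨h1, h2⟩ | ⟨h1, h2⟩
          · have h3 := hinj (hm _) hi h1
            rcases drop_mod (l := l) (m := i + 1 + j) (by omega) with ⟨h4, h5⟩ | ⟨h4, h5⟩ <;> omega
          · have h3 := hinj (hm _) (hm _) h1
            have h4 := hinj (hm _) hi h2
            rcases drop_mod (l := l) (m := i + 1 + j) (by omega) with ⟨h5, h6⟩ | ⟨h5, h6⟩ <;>
              rcases drop_mod (l := l) (m := i + 1) (by omega) with ⟨h7, h8⟩ | ⟨h7, h8⟩ <;>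
              rcases drop_mod (l := l) (m := i + 1 + (j + 1)) (by omega) with ⟨h9, h10⟩ | ⟨h9, h10⟩ <;>
              omega
        · have e1 : ((i + 1 + j) % l + 1) % l = (i + 1 + (j + 1)) % l := by
            rw [Nat.mod_add_mod]
            rfl
          rw [e1]
    · rw [mem_pit_inr, mem_erase]
      unfold cyc
      simp only [mem_union, mem_image, mem_range, reduceCtorEq, and_false, exists_false, false_or,
        Sum.inr.injEq, Prod.mk.injEq, ne_eq, not_false_eq_true, true_and]
      constructor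
      · rintro ⟨k, hk, rfl, rfl⟩
        refine ⟨rfl, ?_⟩
        rcases Nat.lt_or_ge i k with h | h
        · refine ⟨k - (i + 1), by omega, ?_⟩
          have : i + 1 + (k - (i + 1)) = k := by omega
          rw [this, Nat.mod_eq_of_lt hk]
        · refine ⟨k + l - (i + 1), by omega, ?_⟩
          have : i + 1 + (k + l - (i + 1)) = k + l := by omega
          rw [this, Nat.add_mod_right, Nat.mod_eq_of_lt hk]
      · rintro ⟨rfl, j, hj, rfl⟩
        exact ⟨(i + 1 + j) % l, hm _, rfl, rfl⟩

theorem drop : DropStmt := by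
  intro V C _ _ l c u v q hq he
  obtain ⟨hl, z, hz, rfl⟩ := hq
  have he' := he
  unfold cyc at he'
  simp only [mem_union, mem_image, mem_range, reduceCtorEq, and_false, exists_false, or_false,
    Sum.inl.injEq] at he'
  obtain ⟨i, hi, hie⟩ := he'
  obtain ⟨h1, h2⟩ := drop_aux hl hz c hi
  rw [Sym2.eq_iff] at hie
  rcases hie with ⟨rfl, rfl⟩ | ⟨rfl, rfl⟩
  · exact ⟨h1.symm, path_symm h2⟩
  · refine ⟨h1, ?_⟩
    rw [Sym2.eq_swap]
    exact h2

end Pool.Agent.OBX
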