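import Pool.Agent.OBX.PBc

/-!
MODULE Join (difficulty 2).

RECIPE: `g = r ∪ {s(b,x), s(y,a')}`, `r` a path from `x` to `y`.  `path_append` for `q`, `r` and then for the result and `q'`; the union is the same set.
-/

set_option autoImplicit false

namespace Pool.Agent.OBX

open Finset Pool.Agent.OBW

theorem join : JoinStmt := by
  intro V C _ _ s t s' c a b a' b' q g q' hq hg hq' hqg hqq' hgq'
  obtain ⟨hne, x, y, r, hr, hbr, har, rfl⟩ := hg
  have h1 : Disjoint q r := Finset.disjoint_of_subset_right Finset.subset_union_left hqg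
  have h2 := path_append hq hr h1
  have h3 : Disjoint (q ∪ r ∪ {(Sum.inl s(b, x) : Item V C)}) q' := by
    rw [Finset.disjoint_union_left, Finset.disjoint_union_left]
    refine ⟨⟨hqq', Finset.disjoint_of_subset_left Finset.subset_union_left hgq'⟩, ?_⟩
    refine Finset.disjoint_of_subset_left ?_ hgq'
    intro i hi
    rw [Finset.mem_singleton] at hi
    subst hi
    simp
  have h4 := path_append h2 hq' h3
  have he : q ∪ (r ∪ {Sum.inl s(b, x), Sum.inl s(y, a')}) ∪ q' =
      q ∪ r ∪ {(Sum.inl s(b, x) : Item V C)} ∪ q' ∪ {(Sum.inl s(y, a') : Item V C)} := by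
    ext i
    simp only [Finset.mem_union, Finset.mem_insert, Finset.mem_singleton]
    tauto
  rw [he]
  exact h4

end Pool.Agent.OBX
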