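import Pool.Agent.OBX.LKa
import Pool.Agent.OBX.Join

/-!
MODULE Split (difficulty 3).

RECIPE: `g = pit 4 z c ∪ {s(a, z 0), s(z 3, b)}`; `x = z 1`, `y = z 2`, `g' = g.erase s(z 1, z 2)`.  `g'` is the union of `{s(z 1, z 0), (z 1,c), (z 0,c)}`, the edges `s(a, z 0)`, `s(z 3, b)` and
`{s(z 3, z 2), (z 3,c), (z 2,c)}`.  The degrees: from `link_bal` (erasing the edge `s(x,y)` lowers `nb` by one at `x` and at `y`, `cl` does not change).  Last part: `path_append` of the 2-vertex path
`z 1, z 0`, the path `q` and the 2-vertex path `z 3, z 2`.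
-/

set_option autoImplicit false

namespace Pool.Agent.OBX

open Finset Pool.Agent.OBW

theorem split_nb {V C : Type} [Fintype V] [DecidableEq V] [Fintype C] [DecidableEq C] {x y : V}
    {g : Finset (Item V C)} (hxy : x ≠ y) (h : (Sum.inl s(x, y) : Item V C) ∈ g) (v : V) :
    (nb (g.erase (Sum.inl s(x, y))) v).card + (if x = v then 1 else 0) + (if y = v then 1 else 0) =
      (nb g v).card := by
  by_cases h1 : x = v
  · subst h1
    rw [if_pos rfl, if_neg (Ne.symm hxy)]
    have e : nb (g.erase (Sum.inl s(x, y))) x = (nb g x).erase y := by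
      ext u
      rw [mem_nb, mem_erase, mem_erase, mem_nb]
      constructor
      · rintro ⟨h2, h3⟩
        exact ⟨fun hu => h2 (by rw [hu]), h3⟩
      · rintro ⟨h2, h3⟩
        refine ⟨fun hu => h2 ?_, h3⟩
        have := Sum.inl.inj hu
        rw [Sym2.eq_iff] at this
        rcases this with ⟨_, h4⟩ | ⟨h4, _⟩
        · exact h4
        · exact absurd h4 hxy
    have hy : y ∈ nb g x := by rw [mem_nb]; exact h
    rw [e, card_erase_of_mem hy]
    have := card_pos.2 ⟨y, hy⟩
    omega
  · by_cases h2 : y = v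
    · subst h2
      rw [if_neg hxy, if_pos rfl]
      have e : nb (g.erase (Sum.inl s(x, y))) y = (nb g y).erase x := by
        ext u
        rw [mem_nb, mem_erase, mem_erase, mem_nb]
        constructor
        · rintro ⟨h2, h3⟩
          exact ⟨fun hu => h2 (by rw [hu, Sym2.eq_swap]), h3⟩
        · rintro ⟨h2, h3⟩
          refine ⟨fun hu => h2 ?_, h3⟩
          have := Sum.inl.inj hu
          rw [Sym2.eq_iff] at this
          rcases this with ⟨h4, _⟩ | ⟨_, h4⟩
          · exact absurd h4.symm hxy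
          · exact h4
      have hx : x ∈ nb g y := by rw [mem_nb']; exact h
      rw [e, card_erase_of_mem hx]
      have := card_pos.2 ⟨x, hx⟩
      omega
    · rw [if_neg h1, if_neg h2]
      have e : nb (g.erase (Sum.inl s(x, y))) v = nb g v := by
        ext u
        rw [mem_nb, mem_erase, mem_nb]
        constructor
        · rintro ⟨_, h3⟩
          exact h3
        · intro h3
          refine ⟨fun hu => ?_, h3⟩
          have := Sum.inl.inj hu
          rw [Sym2.eq_iff] at this
          rcases this with ⟨h4, _⟩ | ⟨h4, _⟩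
          · exact h1 h4.symm
          · exact h2 h4.symm
      rw [e]
      omega

theorem split_cl {V C : Type} [Fintype V] [DecidableEq V] [Fintype C] [DecidableEq C]
    (g : Finset (Item V C)) (e : Sym2 V) (v : V) : cl (g.erase (Sum.inl e)) v = cl g v := by
  ext u
  rw [mem_cl, mem_erase, mem_cl]
  constructor
  · rintro ⟨_, h⟩
    exact h
  · intro h
    exact ⟨fun h' => (by cases h'), h⟩

theorem split_vt {V C : Type} [Fintype V] [DecidableEq V] [Fintype C] [DecidableEq C]
    (g : Finset (Item V C)) (e : Sym2 V) (c : C) : vt (g.erase (Sum.inl e)) c = vt g c := by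
  ext u
  rw [mem_vt, mem_erase, mem_vt]
  constructor
  · rintro ⟨_, h⟩
    exact h
  · intro h
    exact ⟨fun h' => (by cases h'), h⟩

theorem split_mem {V C : Type} [DecidableEq V] [DecidableEq C] {z : ℕ → V} {c : C} {a b : V}
    (hz : Set.InjOn z (Set.Iio 4)) (i : Item V C) :
    i ∈ (pit 4 z c ∪ {Sum.inl s(a, z 0), Sum.inl s(z 3, b)}).erase (Sum.inl s(z 1, z 2)) ↔
      (i = Sum.inl s(z 1, z 0) ∨ i = Sum.inr (z 1, c) ∨ i = Sum.inr (z 0, c)) ∨
      (i = Sum.inl s(z 3, z 2) ∨ i = Sum.inr (z 3, c) ∨ i = Sum.inr (z 2, c)) ∨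
      i = Sum.inl s(z 0, a) ∨ i = Sum.inl s(b, z 3) := by
  have n (i j : ℕ) (hi : i < 4) (hj : j < 4) (hij : i ≠ j) : z i ≠ z j := fun h =>
    hij (hz (Set.mem_Iio.2 hi) (Set.mem_Iio.2 hj) h)
  rw [mem_erase, mem_union, mem_insert, mem_singleton]
  constructor
  · rintro ⟨h0, h | h | h⟩
    · cases i with
      | inl e =>
        obtain ⟨j, hj, he⟩ := mem_pit_inl.1 h
        subst he
        have : j = 0 ∨ j = 1 ∨ j = 2 := by omega
        rcases this with rfl | rfl | rfl
        · exact Or.inl (Or.inl (by rw [Sym2.eq_swap]))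
        · exact absurd rfl h0
        · exact Or.inr (Or.inl (Or.inl (by rw [Sym2.eq_swap])))
      | inr e =>
        obtain ⟨v, d⟩ := e
        obtain ⟨hd, j, hj, he⟩ := mem_pit_inr.1 h
        subst hd
        subst he
        have : j = 0 ∨ j = 1 ∨ j = 2 ∨ j = 3 := by omega
        rcases this with rfl | rfl | rfl | rfl
        · exact Or.inl (Or.inr (Or.inr rfl))
        · exact Or.inl (Or.inr (Or.inl rfl))
        · exact Or.inr (Or.inl (Or.inr (Or.inr rfl)))
        · exact Or.inr (Or.inl (Or.inr (Or.inl rfl)))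
    · exact Or.inr (Or.inr (Or.inl (by rw [h, Sym2.eq_swap])))
    · exact Or.inr (Or.inr (Or.inr (by rw [h, Sym2.eq_swap])))
  · rintro ((rfl | rfl | rfl) | (rfl | rfl | rfl) | rfl | rfl)
    · refine ⟨fun h => ?_, Or.inl (mem_pit_inl.2 ⟨0, by omega, by rw [Sym2.eq_swap]⟩)⟩
      have := Sum.inl.inj h
      rw [Sym2.eq_iff] at this
      rcases this with ⟨_, h4⟩ | ⟨h4, _⟩
      · exact n 0 2 (by omega) (by omega) (by omega) h4
      · exact n 1 2 (by omega) (by omega) (by omega) h4
    · exact ⟨fun h => (by cases h), Or.inl (mem_pit_inr.2 ⟨rfl, 1, by omega, rfl⟩)⟩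
    · exact ⟨fun h => (by cases h), Or.inl (mem_pit_inr.2 ⟨rfl, 0, by omega, rfl⟩)⟩
    · refine ⟨fun h => ?_, Or.inl (mem_pit_inl.2 ⟨2, by omega, by rw [Sym2.eq_swap]⟩)⟩
      have := Sum.inl.inj h
      rw [Sym2.eq_iff] at this
      rcases this with ⟨h4, _⟩ | ⟨h4, _⟩
      · exact n 3 1 (by omega) (by omega) (by omega) h4
      · exact n 3 2 (by omega) (by omega) (by omega) h4
    · exact ⟨fun h => (by cases h), Or.inl (mem_pit_inr.2 ⟨rfl, 3, by omega, rfl⟩)⟩
    · exact ⟨fun h => (by cases h), Or.inl (mem_pit_inr.2 ⟨rfl, 2, by omega, rfl⟩)⟩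
    · refine ⟨fun h => ?_, Or.inr (Or.inl (by rw [Sym2.eq_swap]))⟩
      have := Sum.inl.inj h
      rw [Sym2.eq_iff] at this
      rcases this with ⟨h4, _⟩ | ⟨h4, _⟩
      · exact n 0 1 (by omega) (by omega) (by omega) h4
      · exact n 0 2 (by omega) (by omega) (by omega) h4
    · refine ⟨fun h => ?_, Or.inr (Or.inr (by rw [Sym2.eq_swap]))⟩
      have := Sum.inl.inj h
      rw [Sym2.eq_iff] at this
      rcases this with ⟨_, h4⟩ | ⟨_, h4⟩
      · exact n 3 2 (by omega) (by omega) (by omega) h4
      · exact n 3 1 (by omega) (by omega) (by omega) h4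

theorem split : SplitStmt := by
  intro V C _ _ _ _ c a b g hg
  have hbal := link_bal hg
  have hvt := link_vt_card hg
  obtain ⟨hab, x0, y0, q0, hq0, ha0, hb0, hgd⟩ := hg
  obtain ⟨_, z, hz, h0, h3, hq⟩ := hq0
  have h3' : z 3 = y0 := h3
  subst h0
  subst h3'
  subst hq
  have n (i j : ℕ) (hi : i < 4) (hj : j < 4) (hij : i ≠ j) : z i ≠ z j := fun h =>
    hij (hz (Set.mem_Iio.2 hi) (Set.mem_Iio.2 hj) h)
  have hmem := split_mem (a := a) (b := b) (c := c) hz
  rw [← hgd] at hmem
  have he : (Sum.inl s(z 1, z 2) : Item V C) ∈ g := by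
    rw [hgd]
    exact mem_union_left _ (mem_pit_inl.2 ⟨1, by omega, rfl⟩)
  have hx : (Sum.inr (z 1, c) : Item V C) ∈ g := by
    rw [hgd]
    exact mem_union_left _ (mem_pit_inr.2 ⟨rfl, 1, by omega, rfl⟩)
  have hy : (Sum.inr (z 2, c) : Item V C) ∈ g := by
    rw [hgd]
    exact mem_union_left _ (mem_pit_inr.2 ⟨rfl, 2, by omega, rfl⟩)
  have h12 : z 1 ≠ z 2 := n 1 2 (by omega) (by omega) (by omega)
  refine ⟨z 1, z 2, g.erase (Sum.inl s(z 1, z 2)), h12, erase_subset _ _, he, rfl, hx, hy, ?_, ?_, ?_⟩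
  · intro v
    rw [split_nb h12 he v, split_cl, hbal v]
  · rw [split_vt]
    exact hvt
  · intro s q hq hd
    have p1 := isPath_two c (n 1 0 (by omega) (by omega) (by omega))
    have p3 := isPath_two c (n 3 2 (by omega) (by omega) (by omega))
    have s1 : ({Sum.inl s(z 1, z 0), Sum.inr (z 1, c), Sum.inr (z 0, c)} : Finset (Item V C)) ⊆
        g.erase (Sum.inl s(z 1, z 2)) := by
      intro i hi
      rw [mem_insert, mem_insert, mem_singleton] at hi
      exact (hmem i).2 (Or.inl hi)
    have s3 : ({Sum.inl s(z 3, z 2), Sum.inr (z 3, c), Sum.inr (z 2, c)} : Finset (Item V C)) ⊆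
        g.erase (Sum.inl s(z 1, z 2)) := by
      intro i hi
      rw [mem_insert, mem_insert, mem_singleton] at hi
      exact (hmem i).2 (Or.inr (Or.inl hi))
    have d1 : Disjoint ({Sum.inl s(z 1, z 0), Sum.inr (z 1, c), Sum.inr (z 0, c)} :
        Finset (Item V C)) q := (disjoint_of_subset_right s1 hd).symm
    have r1 := path_append p1 hq d1
    have d3 : Disjoint ({Sum.inl s(z 1, z 0), Sum.inr (z 1, c), Sum.inr (z 0, c)} ∪ q ∪
        {(Sum.inl s(z 0, a) : Item V C)}) ({Sum.inl s(z 3, z 2), Sum.inr (z 3, c), Sum.inr (z 2, c)} :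
        Finset (Item V C)) := by
      rw [disjoint_union_left, disjoint_union_left]
      refine ⟨⟨?_, disjoint_of_subset_right s3 hd⟩, ?_⟩
      · rw [disjoint_left]
        intro i hi hi'
        rw [mem_insert, mem_insert, mem_singleton] at hi hi'
        rcases hi with rfl | rfl | rfl
        · rcases hi' with h | h | h
          · have := Sum.inl.inj h
            rw [Sym2.eq_iff] at this
            rcases this with ⟨h4, _⟩ | ⟨h4, _⟩
            · exact n 1 3 (by omega) (by omega) (by omega) h4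
            · exact n 1 2 (by omega) (by omega) (by omega) h4
          · cases h
          · cases h
        · rcases hi' with h | h | h
          · cases h
          · exact n 1 3 (by omega) (by omega) (by omega) (Prod.ext_iff.1 (Sum.inr.inj h)).1
          · exact n 1 2 (by omega) (by omega) (by omega) (Prod.ext_iff.1 (Sum.inr.inj h)).1
        · rcases hi' with h | h | h
          · cases h
          · exact n 0 3 (by omega) (by omega) (by omega) (Prod.ext_iff.1 (Sum.inr.inj h)).1
          · exact n 0 2 (by omega) (by omega) (by omega) (Prod.ext_iff.1 (Sum.inr.inj h)).1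
      · rw [disjoint_singleton_left, mem_insert, mem_insert, mem_singleton]
        rintro (h | h | h)
        · have := Sum.inl.inj h
          rw [Sym2.eq_iff] at this
          rcases this with ⟨h4, _⟩ | ⟨h4, _⟩
          · exact n 0 3 (by omega) (by omega) (by omega) h4
          · exact n 0 2 (by omega) (by omega) (by omega) h4
        · cases h
        · cases h
    have r2 := path_append r1 p3 d3
    have e1 : 2 + s + 2 = s + 4 := by omega
    rw [e1] at r2
    have e2 : ({Sum.inl s(z 1, z 0), Sum.inr (z 1, c), Sum.inr (z 0, c)} ∪ q ∪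
        {(Sum.inl s(z 0, a) : Item V C)}) ∪ ({Sum.inl s(z 3, z 2), Sum.inr (z 3, c), Sum.inr (z 2, c)} :
        Finset (Item V C)) ∪ {(Sum.inl s(b, z 3) : Item V C)} = q ∪ g.erase (Sum.inl s(z 1, z 2)) := by
      ext i
      rw [mem_union, mem_union, mem_union, mem_union, mem_union, hmem i, mem_singleton, mem_singleton]
      rw [mem_insert, mem_insert, mem_singleton, mem_insert, mem_insert, mem_singleton]
      tauto
    rw [e2] at r2
    exact r2

end Pool.Agent.OBX
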