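import Pool.Agent.OBX.RealB
import Pool.Agent.OBX.CycsB
import Pool.Agent.OBX.Split

/-!
MODULE Ext (difficulty 3).
-/

set_option autoImplicit false

namespace Pool.Agent.OBX

open Finset Pool.Agent.OBW

theorem ext_list {α : Type} (l : List α) (f : α → ℕ) :
    (l.map f).sum = ∑ i : Fin l.length, f l[i] := by
  have h : l = List.ofFn (fun i : Fin l.length => l[i]) := by
    simp
  conv_lhs => rw [h]
  rw [List.map_ofFn, List.sum_ofFn]
  rfl

theorem ext_nb {V C : Type} [Fintype V] [DecidableEq V] [Fintype C] [DecidableEq C]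
    (n : ℕ) (g : ℕ → Finset (Item V C)) (hd : ∀ i < n, ∀ j < n, i ≠ j → Disjoint (g i) (g j)) (v : V) :
    (nb ((range n).biUnion g) v).card = ∑ i ∈ range n, (nb (g i) v).card := by
  have h : nb ((range n).biUnion g) v = (range n).biUnion (fun i => nb (g i) v) := by
    ext u
    simp only [mem_nb, mem_biUnion]
  rw [h, card_biUnion]
  intro i hi j hj hij
  exact nb_disj (hd i (mem_range.1 hi) j (mem_range.1 hj) hij) v

theorem ext_cl {V C : Type} [Fintype V] [DecidableEq V] [Fintype C] [DecidableEq C]
    (n : ℕ) (g : ℕ → Finset (Item V C)) (hd : ∀ i < n, ∀ j < n, i ≠ j → Disjoint (g i) (g j)) (v : V) :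
    (cl ((range n).biUnion g) v).card = ∑ i ∈ range n, (cl (g i) v).card := by
  have h : cl ((range n).biUnion g) v = (range n).biUnion (fun i => cl (g i) v) := by
    ext u
    simp only [mem_cl, mem_biUnion]
  rw [h, card_biUnion]
  intro i hi j hj hij
  exact cl_disj (hd i (mem_range.1 hi) j (mem_range.1 hj) hij) v

theorem ext_vt {V C : Type} [Fintype V] [DecidableEq V] [Fintype C] [DecidableEq C]
    (n : ℕ) (g : ℕ → Finset (Item V C)) (hd : ∀ i < n, ∀ j < n, i ≠ j → Disjoint (g i) (g j)) (c : C) :
    (vt ((range n).biUnion g) c).card = ∑ i ∈ range n, (vt (g i) c).card := by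
  have h : vt ((range n).biUnion g) c = (range n).biUnion (fun i => vt (g i) c) := by
    ext u
    simp only [mem_vt, mem_biUnion]
  rw [h, card_biUnion]
  intro i hi j hj hij
  exact vt_disj (hd i (mem_range.1 hi) j (mem_range.1 hj) hij) c

theorem ext_ : ExtStmt := by
  intro V C _ _ _ _ _ c ms g Λ hg hd
  classical
  have hs : ∀ i : ℕ, ∃ (x y : V), ∀ (h : i < ms.length),
      x ≠ y ∧ (Sum.inl s(x, y) : Item V C) ∈ g i ∧ (Sum.inr (x, c) : Item V C) ∈ g i ∧
      (Sum.inr (y, c) : Item V C) ∈ g i ∧
      (∀ v, (nb ((g i).erase (Sum.inl s(x, y))) v).card + (if x = v then 1 else 0) +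
          (if y = v then 1 else 0) =
        2 * (cl ((g i).erase (Sum.inl s(x, y))) v).card + (if (ms[i]).1 = v then 1 else 0) +
          (if (ms[i]).2.1 = v then 1 else 0)) ∧
      (vt ((g i).erase (Sum.inl s(x, y))) c).card = 4 ∧
      ∀ (s : ℕ) (q : Finset (Item V C)), IsPath s c (ms[i]).1 (ms[i]).2.1 q →
        Disjoint q ((g i).erase (Sum.inl s(x, y))) →
        IsPath (s + 4) c x y (q ∪ (g i).erase (Sum.inl s(x, y))) := by
    intro i
    by_cases h : i < ms.length
    · obtain ⟨x, y, g', h1, _, h3, h4, h5, h6, h7, h8, h9⟩ := split V C c _ _ _ (hg i h)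
      refine ⟨x, y, fun _ => ⟨h1, h3, h5, h6, ?_, ?_, ?_⟩⟩
      · rw [← h4]; exact h7
      · rw [← h4]; exact h8
      · rw [← h4]; exact h9
    · obtain ⟨v⟩ := (inferInstance : Nonempty V)
      exact ⟨v, v, fun h' => absurd h' h⟩
  choose x y hxy using hs
  have hsub : ∀ i, (g i).erase (Sum.inl s(x i, y i)) ⊆ g i := fun i => erase_subset _ _
  have hd' : ∀ i < ms.length, ∀ j < ms.length, i ≠ j →
      Disjoint ((g i).erase (Sum.inl s(x i, y i))) ((g j).erase (Sum.inl s(x j, y j))) := by
    intro i hi j hj hij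
    exact disjoint_of_subset_left (hsub i) (disjoint_of_subset_right (hsub j) (hd i hi j hj hij))
  refine ⟨x, y, (range ms.length).biUnion (fun i => (g i).erase (Sum.inl s(x i, y i))),
    List.ofFn (fun i : Fin ms.length => (x i, y i, (ms[i]).2.2 + 4)), ?_, rfl, ?_, ?_, ?_⟩
  · intro i hi
    obtain ⟨h1, h3, h5, h6, _⟩ := hxy i hi
    exact ⟨h1, h3, h5, h6⟩
  · simp
  · intro i h h'
    simp
  · refine ⟨?_, ?_, ?_, ?_⟩
    · intro v c' hv
      rw [mem_biUnion] at hv
      obtain ⟨i, hi, hv⟩ := hv
      rw [mem_range] at hi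
      obtain ⟨_, x', y', q, hq, _, _, hgq⟩ := hg i hi
      have h1 := hsub i hv
      rw [hgq, mem_union] at h1
      rcases h1 with h1 | h1
      · exact path_col hq h1
      · simp at h1
    · intro v
      rw [ext_nb _ _ hd', ext_cl _ _ hd', Finset.sum_range, Finset.sum_range]
      unfold ends
      rw [List.map_ofFn, List.sum_ofFn, ext_list, mul_sum, ← sum_add_distrib, ← sum_add_distrib]
      refine sum_congr rfl (fun i _ => ?_)
      have h1 := (hxy i.1 i.2).2.2.2.2.1 v
      simp only [Function.comp, Fin.getElem_fin] at h1 ⊢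
      omega
    · rw [ext_vt _ _ hd']
      have h1 : ∑ i ∈ range ms.length, (vt ((g i).erase (Sum.inl s(x i, y i))) c).card =
          ∑ i ∈ range ms.length, 4 := sum_congr rfl (fun i hi => by
        rw [mem_range] at hi
        exact (hxy i hi).2.2.2.2.2.1)
      rw [h1]
      unfold siz
      rw [List.map_ofFn, List.sum_ofFn, ext_list]
      have h2 : ∑ i : Fin ms.length, ((fun m : Mem V => m.2.2) ∘
          fun i : Fin ms.length => (x i, y i, (ms[i]).2.2 + 4)) i =
          ∑ i : Fin ms.length, (ms[i]).2.2 + ∑ i : Fin ms.length, 4 := by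
        rw [← sum_add_distrib]
        rfl
      rw [h2]
      simp
      ring
    · intro Y hY hYX
      obtain ⟨q, hq1, hq2, hq3⟩ := hY
      have hqY : ∀ i < ms.length, q i ⊆ Y := by
        intro i hi
        rw [hq3]
        exact subset_biUnion_of_mem q (mem_range.2 hi)
      have hgX : ∀ i < ms.length, (g i).erase (Sum.inl s(x i, y i)) ⊆
          (range ms.length).biUnion (fun i => (g i).erase (Sum.inl s(x i, y i))) := by
        intro i hi
        exact subset_biUnion_of_mem (fun i => (g i).erase (Sum.inl s(x i, y i))) (mem_range.2 hi)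
      have hqg : ∀ i < ms.length, ∀ j < ms.length,
          Disjoint (q i) ((g j).erase (Sum.inl s(x j, y j))) := by
        intro i hi j hj
        exact disjoint_of_subset_left (hqY i hi) (disjoint_of_subset_right (hgX j hj) hYX)
      refine ⟨∅, Y ∪ (range ms.length).biUnion (fun i => (g i).erase (Sum.inl s(x i, y i))), 0,
        disjoint_empty_left _, by rw [empty_union], ?_, cycs_empty c, by rw [zero_add]⟩
      refine ⟨fun i => q i ∪ (g i).erase (Sum.inl s(x i, y i)), ?_, ?_, ?_⟩
      · intro i hi
        have hi' : i < ms.length := by simpa using hi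
        have h1 := (hxy i hi').2.2.2.2.2.2 _ _ (hq1 i hi') (hqg i hi' i hi')
        simpa using h1
      · intro i hi j hj hij
        have hi' : i < ms.length := by simpa using hi
        have hj' : j < ms.length := by simpa using hj
        rw [disjoint_union_left, disjoint_union_right, disjoint_union_right]
        exact ⟨⟨hq2 i hi' j hj' hij, hqg i hi' j hj'⟩,
          (hqg j hj' i hi').symm, hd' i hi' j hj' hij⟩
      · rw [List.length_ofFn, hq3]
        ext i
        simp only [mem_union, mem_biUnion]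
        constructor
        · rintro (⟨j, hj, h⟩ | ⟨j, hj, h⟩)
          · exact ⟨j, hj, Or.inl h⟩
          · exact ⟨j, hj, Or.inr h⟩
        · rintro ⟨j, hj, h | h⟩
          · exact Or.inl ⟨j, hj, h⟩
          · exact Or.inr ⟨j, hj, h⟩

end Pool.Agent.OBX
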