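import Pool.Agent.OBX.FbD

/-!
MODULE FbA (difficulty 2).  List facts on the requests.

RECIPE: `creqTo` facts by induction on the list (cases `[]`, `[m]`, `m :: m' :: l`); `creq_snd`: `(creqTo a (m :: l)).map Prod.snd = l.map (·.1) ++ [a]`, with `a = m.1` this is a permutation of
`(m :: l).map (·.1)`.  `creq_ends`: `rends` = sum of the two counts, permutation invariant.  `creq_ne`: a request is `(m.2.1, m'.1)` for two different positions (`2 ≤ M.length`), use `Dsj`.
-/

set_option autoImplicit false

namespace Pool.Agent.OBX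

open Finset Pool.Agent.OBW

section
variable {V : Type} [DecidableEq V]

theorem fbA_len (a : V) : ∀ M : List (Mem V), (creqTo a M).length = M.length
  | [] => rfl
  | [_] => rfl
  | m :: m' :: l => by
    show (creqTo a (m' :: l)).length + 1 = (m' :: l).length + 1
    rw [fbA_len a (m' :: l)]

theorem fbA_fst (a : V) : ∀ M : List (Mem V), (creqTo a M).map Prod.fst = M.map (fun m => m.2.1)
  | [] => rfl
  | [_] => rfl
  | m :: m' :: l => by
    show m.2.1 :: (creqTo a (m' :: l)).map Prod.fst = m.2.1 :: (m' :: l).map (fun m => m.2.1)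
    rw [fbA_fst a (m' :: l)]

theorem fbA_snd (a : V) : ∀ (m : Mem V) (l : List (Mem V)),
    (creqTo a (m :: l)).map Prod.snd = l.map (fun m => m.1) ++ [a]
  | _, [] => rfl
  | _, m' :: l => by
    show m'.1 :: (creqTo a (m' :: l)).map Prod.snd = m'.1 :: (l.map (fun m => m.1) ++ [a])
    rw [fbA_snd a m' l]

theorem fbA_ne (a : V) : ∀ M : List (Mem V), Dsj M → (∀ m ∈ M, m.2.1 ≠ a) →
    ∀ r ∈ creqTo a M, r.1 ≠ r.2
  | [], _, _, r, hr => absurd hr (List.not_mem_nil)
  | [m], _, h, r, hr => by
    have h1 : r = (m.2.1, a) := List.mem_singleton.1 hr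
    rw [h1]
    exact h m (List.mem_singleton.2 rfl)
  | m :: m' :: l, hD, h, r, hr => by
    have hD' := List.pairwise_cons.1 hD
    have h1 : r ∈ (m.2.1, m'.1) :: creqTo a (m' :: l) := hr
    rcases List.mem_cons.1 h1 with h2 | h2
    · rw [h2]
      exact (hD'.1 m' List.mem_cons_self).2.2.1
    · exact fbA_ne a (m' :: l) hD'.2 (fun x hx => h x (List.mem_cons_of_mem _ hx)) r h2

theorem creq_length (M : List (Mem V)) : (creq M).length = M.length := by
  cases M with
  | nil => rfl
  | cons m l => exact fbA_len m.1 (m :: l)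

theorem creq_fst (M : List (Mem V)) : (creq M).map Prod.fst = M.map (fun m => m.2.1) := by
  cases M with
  | nil => rfl
  | cons m l => exact fbA_fst m.1 (m :: l)

theorem creq_snd (M : List (Mem V)) : List.Perm ((creq M).map Prod.snd) (M.map (fun m => m.1)) := by
  cases M with
  | nil => exact List.Perm.refl _
  | cons m l =>
    show List.Perm ((creqTo m.1 (m :: l)).map Prod.snd) (m.1 :: l.map (fun m => m.1))
    rw [fbA_snd]
    exact List.perm_append_singleton _ _

theorem creq_mem {M : List (Mem V)} {r : V × V} (h : r ∈ creq M) :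
    (∃ m ∈ M, r.1 = m.2.1) ∧ ∃ m ∈ M, r.2 = m.1 := by
  constructor
  · have h1 : r.1 ∈ (creq M).map Prod.fst := List.mem_map_of_mem h
    rw [creq_fst] at h1
    obtain ⟨m, hm, h2⟩ := List.mem_map.1 h1
    exact ⟨m, hm, h2.symm⟩
  · have h1 : r.2 ∈ (creq M).map Prod.snd := List.mem_map_of_mem h
    obtain ⟨m, hm, h2⟩ := List.mem_map.1 ((creq_snd M).mem_iff.1 h1)
    exact ⟨m, hm, h2.symm⟩

theorem creq_ne {M : List (Mem V)} (hM : 2 ≤ M.length) (hD : Dsj M) {r : V × V} (h : r ∈ creq M) :
    r.1 ≠ r.2 := by
  match M, hM, hD, h with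
  | [], hM, _, _ => exact absurd hM (by simp)
  | [_], hM, _, _ => exact absurd hM (by simp)
  | m :: m' :: l, _, hD, h =>
    have hD' := List.pairwise_cons.1 hD
    have h1 : r ∈ (m.2.1, m'.1) :: creqTo m.1 (m' :: l) := h
    rcases List.mem_cons.1 h1 with h2 | h2
    · rw [h2]
      exact (hD'.1 m' List.mem_cons_self).2.2.1
    · exact fbA_ne m.1 (m' :: l) hD'.2 (fun x hx => (hD'.1 x hx).2.1.symm) r h2

theorem creqs_length (Ms : List (List (Mem V))) :
    ((Ms.map creq).flatten).length = (Ms.flatten).length := by
  induction Ms with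
  | nil => rfl
  | cons M Ms ih =>
    rw [List.map_cons, List.flatten_cons, List.flatten_cons, List.length_append, List.length_append, ih,
      creq_length]

theorem creqs_fst (Ms : List (List (Mem V))) :
    ((Ms.map creq).flatten).map Prod.fst = Ms.flatten.map (fun m => m.2.1) := by
  induction Ms with
  | nil => rfl
  | cons M Ms ih =>
    rw [List.map_cons, List.flatten_cons, List.flatten_cons, List.map_append, List.map_append, ih, creq_fst]

theorem creqs_snd (Ms : List (List (Mem V))) :
    List.Perm (((Ms.map creq).flatten).map Prod.snd) (Ms.flatten.map (fun m => m.1)) := by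
  induction Ms with
  | nil => exact List.Perm.refl _
  | cons M Ms ih =>
    rw [List.map_cons, List.flatten_cons, List.flatten_cons, List.map_append, List.map_append]
    exact (creq_snd M).append ih

theorem creqs_rends (Ms : List (List (Mem V))) (v : V) :
    rends ((Ms.map creq).flatten) v = ends Ms.flatten v := by
  unfold rends ends
  rw [List.sum_map_add, List.sum_map_add, add_comm]
  have h1 : (List.map (fun m : V × V => if m.2 = v then 1 else 0) ((Ms.map creq).flatten)).sum =
      (List.map (fun m : Mem V => if m.1 = v then 1 else 0) Ms.flatten).sum := by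
    have h2 := ((creqs_snd Ms).map (fun x => if x = v then 1 else 0)).sum_eq
    rw [List.map_map, List.map_map] at h2
    exact h2
  have h3 : (List.map (fun m : V × V => if m.1 = v then 1 else 0) ((Ms.map creq).flatten)).sum =
      (List.map (fun m : Mem V => if m.2.1 = v then 1 else 0) Ms.flatten).sum := by
    have h2 := congrArg (fun l => (List.map (fun x => if x = v then 1 else 0) l).sum) (creqs_fst Ms)
    simp only [List.map_map] at h2
    exact h2
  rw [h1, h3]

end

end Pool.Agent.OBX
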