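import Pool.Agent.OBX.PBa

/-!
MODULE PBb (difficulty 3).  Reversed paths; degrees in a path.

RECIPE: `path_symm`: `z' i = z (s - 1 - i)` (for `i < s`, else `z i`).  `path_bal`: for `v = z k`: the neighbours are `z (k-1)` (if `1 ≤ k`) and `z (k+1)` (if `k + 1 < s`),
`cl = {c}`; `a = v` iff `k = 0`, `b = v` iff `k = s - 1`; for `v` not on the path everything is zero.  Alternative: induction on `s`.
-/

set_option autoImplicit false

namespace Pool.Agent.OBX

open Finset Pool.Agent.OBW

theorem path_symm {V C : Type} [DecidableEq V] [DecidableEq C] {s : ℕ} {c : C} {a b : V}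
    {q : Finset (Item V C)} (h : IsPath s c a b q) : IsPath s c b a q := by
  obtain ⟨hs, z, hz, ha, hb, rfl⟩ := h
  refine ⟨hs, fun i => z (s - 1 - i), ?_, ?_, ?_, ?_⟩
  · intro i hi j hj hij
    have hi' : i < s := hi
    have hj' : j < s := hj
    have h1 : s - 1 - i = s - 1 - j := hz (show s - 1 - i < s by omega) (show s - 1 - j < s by omega) hij
    omega
  · show z (s - 1 - 0) = b
    rw [Nat.sub_zero]; exact hb
  · show z (s - 1 - (s - 1)) = a
    rw [Nat.sub_self]; exact ha
  · ext x
    rcases x with e | ⟨v, d⟩
    · rw [mem_pit_inl, mem_pit_inl]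
      constructor
      · rintro ⟨i, hi, rfl⟩
        refine ⟨s - 2 - i, by omega, ?_⟩
        show s(z i, z (i + 1)) = s(z (s - 1 - (s - 2 - i)), z (s - 1 - (s - 2 - i + 1)))
        have e1 : s - 1 - (s - 2 - i) = i + 1 := by omega
        have e2 : s - 1 - (s - 2 - i + 1) = i := by omega
        rw [e1, e2, Sym2.eq_swap]
      · rintro ⟨i, hi, rfl⟩
        refine ⟨s - 2 - i, by omega, ?_⟩
        show s(z (s - 1 - i), z (s - 1 - (i + 1))) = s(z (s - 2 - i), z (s - 2 - i + 1))
        have e1 : s - 2 - i + 1 = s - 1 - i := by omega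
        have e2 : s - 1 - (i + 1) = s - 2 - i := by omega
        rw [e1, e2, Sym2.eq_swap]
    · rw [mem_pit_inr, mem_pit_inr]
      constructor
      · rintro ⟨rfl, i, hi, rfl⟩
        refine ⟨rfl, s - 1 - i, by omega, ?_⟩
        show z i = z (s - 1 - (s - 1 - i))
        congr 1; omega
      · rintro ⟨rfl, i, hi, rfl⟩
        exact ⟨rfl, s - 1 - i, by omega, rfl⟩

theorem path_bal {V C : Type} [Fintype V] [DecidableEq V] [Fintype C] [DecidableEq C] {s : ℕ} {c : C}
    {a b : V} {q : Finset (Item V C)} (h : IsPath s c a b q) (v : V) :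
    (nb q v).card + (if a = v then 1 else 0) + (if b = v then 1 else 0) = 2 * (cl q v).card := by
  obtain ⟨hs, z, hz, rfl, rfl, rfl⟩ := h
  have hz' : ∀ i j, i < s → j < s → z i = z j → i = j := fun i j hi hj h => hz hi hj h
  by_cases hv : ∃ k < s, v = z k
  · obtain ⟨k, hk, rfl⟩ := hv
    have hcl : (cl (pit s z c) (z k)).card = 1 := by
      rw [path_cl_card ⟨hs, z, hz, rfl, rfl, rfl⟩, if_pos (mem_pit_inr.2 ⟨rfl, k, hk, rfl⟩)]
    have hnb : nb (pit s z c) (z k) = (if 1 ≤ k then {z (k - 1)} else ∅) ∪ (if k + 1 < s then {z (k + 1)} else ∅) := by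
      ext u
      rw [mem_nb, mem_pit_inl, mem_union]
      constructor
      · rintro ⟨i, hi, he⟩
        rw [Sym2.eq_iff] at he
        rcases he with ⟨h1, h2⟩ | ⟨h1, h2⟩
        · have := hz' k i hk (by omega) h1
          subst this
          right
          rw [if_pos (by omega), mem_singleton]
          exact h2
        · have := hz' k (i + 1) hk (by omega) h1
          subst this
          left
          rw [if_pos (by omega), mem_singleton]
          exact h2
      · rintro (h | h)
        · split_ifs at h with hk1
          · rw [mem_singleton] at h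
            subst h
            refine ⟨k - 1, by omega, ?_⟩
            rw [Nat.sub_add_cancel hk1, Sym2.eq_swap]
          · simp at h
        · split_ifs at h with hk1
          · rw [mem_singleton] at h
            subst h
            exact ⟨k, by omega, rfl⟩
          · simp at h
    have hcard : (nb (pit s z c) (z k)).card = (if 1 ≤ k then 1 else 0) + (if k + 1 < s then 1 else 0) := by
      rw [hnb, card_union_of_disjoint]
      · split_ifs <;> simp
      · split_ifs with h1 h2
        · rw [disjoint_singleton]
          intro h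
          have := hz' _ _ (by omega) h2 h
          omega
        all_goals simp
    have ha : z 0 = z k ↔ k = 0 := ⟨fun h => (hz' _ _ (by omega) hk h).symm, fun h => by rw [h]⟩
    have hb : z (s - 1) = z k ↔ k = s - 1 := ⟨fun h => (hz' _ _ (by omega) hk h).symm, fun h => by rw [h]⟩
    rw [hcard, hcl]
    simp only [ha, hb]
    split_ifs <;> omega
  · push Not at hv
    have h1 : nb (pit s z c) v = ∅ := by
      ext u
      rw [mem_nb, mem_pit_inl]
      constructor
      · rintro ⟨i, hi, he⟩
        rw [Sym2.eq_iff] at he
        rcases he with ⟨h1, h2⟩ | ⟨h1, h2⟩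
        · exact absurd h1 (hv i (by omega))
        · exact absurd h1 (hv (i + 1) (by omega))
      · intro h; simp at h
    have h2 : cl (pit s z c) v = ∅ := by
      ext d
      rw [mem_cl, mem_pit_inr]
      constructor
      · rintro ⟨-, i, hi, he⟩
        exact absurd he (hv i hi)
      · intro h; simp at h
    rw [h1, h2, if_neg (fun h => hv 0 (by omega) h.symm), if_neg (fun h => hv (s - 1) (by omega) h.symm)]
    simp

end Pool.Agent.OBX
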