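import Pool.Agent.OBX.Util
import Pool.Agent.OBX.PBb

/-!
MODULE RealB (difficulty 3).  Basic facts on realizations of lists of members.

RECIPE: `real_cons`: new function `fun i => if i = 0 then q else q' (i - 1)`; `real_cons_inv`: `q 0` and `fun i => q (i + 1)`.  The others by induction on the list with these two.
`real_bal`, `real_vt_card`: `path_bal`, `path_vt_card`, `nb_union`, `cl_union`, `vt_union`, `nb_disj` ... (cards of disjoint unions).
-/

set_option autoImplicit false

namespace Pool.Agent.OBX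

open Finset Pool.Agent.OBW

theorem rb_biUnion {I : Type} [DecidableEq I] (n : ℕ) (f : ℕ → Finset I) :
    (range (n + 1)).biUnion f = f 0 ∪ (range n).biUnion (fun i => f (i + 1)) := by
  ext x
  simp only [mem_biUnion, mem_range, mem_union]
  constructor
  · rintro ⟨i, hi, hx⟩
    cases i with
    | zero => exact Or.inl hx
    | succ i => exact Or.inr ⟨i, by omega, hx⟩
  · rintro (hx | ⟨i, hi, hx⟩)
    · exact ⟨0, by omega, hx⟩
    · exact ⟨i + 1, by omega, hx⟩

/-- general realizations of a list -/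
def RbG {α I : Type} [DecidableEq I] (P : α → Finset I → Prop) (l : List α) (Y : Finset I) : Prop :=
  ∃ q : ℕ → Finset I, (∀ i (h : i < l.length), P l[i] (q i)) ∧
    (∀ i < l.length, ∀ j < l.length, i ≠ j → Disjoint (q i) (q j)) ∧ Y = (range l.length).biUnion q

section
variable {α I : Type} [DecidableEq I] {P : α → Finset I → Prop}

theorem rb_nil : RbG P [] ∅ := by
  refine ⟨fun _ => ∅, ?_, ?_, ?_⟩
  · intro i h; simp at h
  · intro i h; simp at h
  · simp

theorem rb_nil_inv {Y : Finset I} (h : RbG P [] Y) : Y = ∅ := by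
  obtain ⟨q, -, -, rfl⟩ := h
  simp

theorem rb_cons {a : α} {l : List α} {q Y : Finset I} (h : P a q) (h' : RbG P l Y) (hd : Disjoint q Y) :
    RbG P (a :: l) (q ∪ Y) := by
  obtain ⟨f, h1, h2, rfl⟩ := h'
  have hsub : ∀ j, j < l.length → Disjoint q (f j) := fun j hj =>
    disjoint_of_subset_right (subset_biUnion_of_mem f (mem_range.2 hj)) hd
  refine ⟨fun i => Nat.casesOn i q f, ?_, ?_, ?_⟩
  · intro i hi
    cases i with
    | zero => exact h
    | succ i => exact h1 i (by simpa using hi)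
  · intro i hi j hj hij
    cases i with
    | zero =>
      cases j with
      | zero => exact absurd rfl hij
      | succ j => exact hsub j (by simpa using hj)
    | succ i =>
      cases j with
      | zero => exact (hsub i (by simpa using hi)).symm
      | succ j => exact h2 i (by simpa using hi) j (by simpa using hj) (by omega)
  · rw [List.length_cons, rb_biUnion]
    rfl

theorem rb_cons_inv {a : α} {l : List α} {Y : Finset I} (h : RbG P (a :: l) Y) :
    ∃ q Y', P a q ∧ RbG P l Y' ∧ Disjoint q Y' ∧ Y = q ∪ Y' := by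
  obtain ⟨f, h1, h2, rfl⟩ := h
  refine ⟨f 0, (range l.length).biUnion (fun i => f (i + 1)), h1 0 (by simp), ⟨fun i => f (i + 1), ?_, ?_, rfl⟩, ?_, ?_⟩
  · intro i hi
    exact h1 (i + 1) (by simpa using hi)
  · intro i hi j hj hij
    exact h2 (i + 1) (by simpa using hi) (j + 1) (by simpa using hj) (by omega)
  · rw [disjoint_biUnion_right]
    intro i hi
    rw [mem_range] at hi
    exact h2 0 (by simp) (i + 1) (by simpa using hi) (by omega)
  · rw [List.length_cons, rb_biUnion]

theorem rb_append {l m : List α} {X Y : Finset I} (h : RbG P l Y) (h' : RbG P m X) (hd : Disjoint Y X) :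
    RbG P (l ++ m) (Y ∪ X) := by
  induction l generalizing Y with
  | nil =>
    rw [rb_nil_inv h, empty_union]
    exact h'
  | cons a l ih =>
    obtain ⟨q, Y', h1, h2, h3, rfl⟩ := rb_cons_inv h
    rw [disjoint_union_left] at hd
    rw [union_assoc, List.cons_append]
    refine rb_cons h1 (ih h2 hd.2) ?_
    rw [disjoint_union_right]
    exact ⟨h3, hd.1⟩

theorem rb_append_inv {l m : List α} {Y : Finset I} (h : RbG P (l ++ m) Y) :
    ∃ Y₁ Y₂, RbG P l Y₁ ∧ RbG P m Y₂ ∧ Disjoint Y₁ Y₂ ∧ Y = Y₁ ∪ Y₂ := by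
  induction l generalizing Y with
  | nil => exact ⟨∅, Y, rb_nil, h, disjoint_empty_left _, (empty_union _).symm⟩
  | cons a l ih =>
    rw [List.cons_append] at h
    obtain ⟨q, Y', h1, h2, h3, rfl⟩ := rb_cons_inv h
    obtain ⟨Y₁, Y₂, h4, h5, h6, rfl⟩ := ih h2
    rw [disjoint_union_right] at h3
    refine ⟨q ∪ Y₁, Y₂, rb_cons h1 h4 h3.1, h5, ?_, (union_assoc _ _ _).symm⟩
    rw [disjoint_union_left]
    exact ⟨h3.2, h6⟩

end

section
variable {V C : Type} [DecidableEq V] [DecidableEq C]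

theorem real_nil (c : C) : Real c ([] : List (Mem V)) (∅ : Finset (Item V C)) := by
  exact rb_nil (P := fun (m : Mem V) q => IsPath m.2.2 c m.1 m.2.1 q)

theorem real_cons {c : C} {m : Mem V} {ms : List (Mem V)} {q Y : Finset (Item V C)}
    (h : IsPath m.2.2 c m.1 m.2.1 q) (h' : Real c ms Y) (hd : Disjoint q Y) :
    Real c (m :: ms) (q ∪ Y) := by
  exact rb_cons (P := fun (m : Mem V) q => IsPath m.2.2 c m.1 m.2.1 q) h h' hd

theorem real_cons_inv {c : C} {m : Mem V} {ms : List (Mem V)} {Y : Finset (Item V C)}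
    (h : Real c (m :: ms) Y) : ∃ q Y', IsPath m.2.2 c m.1 m.2.1 q ∧ Real c ms Y' ∧
      Disjoint q Y' ∧ Y = q ∪ Y' := by
  exact rb_cons_inv (P := fun (m : Mem V) q => IsPath m.2.2 c m.1 m.2.1 q) h

theorem real_append {c : C} {ms ns : List (Mem V)} {X Y : Finset (Item V C)} (h : Real c ms Y)
    (h' : Real c ns X) (hd : Disjoint Y X) : Real c (ms ++ ns) (Y ∪ X) := by
  exact rb_append (P := fun (m : Mem V) q => IsPath m.2.2 c m.1 m.2.1 q) h h' hd

theorem real_append_inv {c : C} {ms ns : List (Mem V)} {Y : Finset (Item V C)}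
    (h : Real c (ms ++ ns) Y) : ∃ Y₁ Y₂, Real c ms Y₁ ∧ Real c ns Y₂ ∧ Disjoint Y₁ Y₂ ∧
      Y = Y₁ ∪ Y₂ := by
  exact rb_append_inv (P := fun (m : Mem V) q => IsPath m.2.2 c m.1 m.2.1 q) h

theorem real_col {c d : C} {ms : List (Mem V)} {Y : Finset (Item V C)} {v : V} (h : Real c ms Y)
    (hv : (Sum.inr (v, d) : Item V C) ∈ Y) : d = c := by
  obtain ⟨q, h1, -, rfl⟩ := h
  obtain ⟨i, hi, hx⟩ := mem_biUnion.1 hv
  exact path_col (h1 i (mem_range.1 hi)) hx

theorem real_mem {c : C} {ms : List (Mem V)} {Y : Finset (Item V C)} (h : Real c ms Y) :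
    ∀ m ∈ ms, (Sum.inr (m.1, c) : Item V C) ∈ Y ∧ (Sum.inr (m.2.1, c) : Item V C) ∈ Y := by
  obtain ⟨q, h1, -, rfl⟩ := h
  intro m hm
  obtain ⟨i, hi, rfl⟩ := List.mem_iff_getElem.1 hm
  exact ⟨mem_biUnion.2 ⟨i, mem_range.2 hi, path_left (h1 i hi)⟩, mem_biUnion.2 ⟨i, mem_range.2 hi, path_right (h1 i hi)⟩⟩

theorem realL_nil (c : C) : RealL c ([] : List (V × V)) (∅ : Finset (Item V C)) := by
  exact rb_nil (P := fun (r : V × V) q => IsLink 1 c r.1 r.2 q)

theorem realL_cons {c : C} {r : V × V} {rq : List (V × V)} {q Y : Finset (Item V C)}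
    (h : IsLink 1 c r.1 r.2 q) (h' : RealL c rq Y) (hd : Disjoint q Y) :
    RealL c (r :: rq) (q ∪ Y) := by
  exact rb_cons (P := fun (r : V × V) q => IsLink 1 c r.1 r.2 q) h h' hd

theorem realL_cons_inv {c : C} {r : V × V} {rq : List (V × V)} {Y : Finset (Item V C)}
    (h : RealL c (r :: rq) Y) : ∃ q Y', IsLink 1 c r.1 r.2 q ∧ RealL c rq Y' ∧
      Disjoint q Y' ∧ Y = q ∪ Y' := by
  exact rb_cons_inv (P := fun (r : V × V) q => IsLink 1 c r.1 r.2 q) h

theorem realL_append_inv {c : C} {rq rs : List (V × V)} {Y : Finset (Item V C)}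
    (h : RealL c (rq ++ rs) Y) : ∃ Y₁ Y₂, RealL c rq Y₁ ∧ RealL c rs Y₂ ∧ Disjoint Y₁ Y₂ ∧
      Y = Y₁ ∪ Y₂ := by
  exact rb_append_inv (P := fun (r : V × V) q => IsLink 1 c r.1 r.2 q) h

end

section
variable {V C : Type} [Fintype V] [DecidableEq V] [Fintype C] [DecidableEq C]

theorem real_bal {c : C} {ms : List (Mem V)} {Y : Finset (Item V C)} (h : Real c ms Y) (v : V) :
    (nb Y v).card + ends ms v = 2 * (cl Y v).card := by
  induction ms generalizing Y with
  | nil =>
    have h0 : Y = ∅ := rb_nil_inv (P := fun (m : Mem V) q => IsPath m.2.2 c m.1 m.2.1 q) h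
    rw [h0, nb_empty, cl_empty]
    simp [ends]
  | cons m ms ih =>
    obtain ⟨q, Y', h1, h2, h3, rfl⟩ := real_cons_inv h
    rw [nb_union, cl_union, card_union_of_disjoint (nb_disj h3 v), card_union_of_disjoint (cl_disj h3 v), ends_cons]
    have e1 := ih h2
    have e2 := path_bal h1 v
    omega

theorem real_vt_card {c : C} {ms : List (Mem V)} {Y : Finset (Item V C)} (h : Real c ms Y) :
    (vt Y c).card = siz ms := by
  induction ms generalizing Y with
  | nil =>
    have h0 : Y = ∅ := rb_nil_inv (P := fun (m : Mem V) q => IsPath m.2.2 c m.1 m.2.1 q) h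
    rw [h0, vt_empty]
    simp [siz]
  | cons m ms ih =>
    obtain ⟨q, Y', h1, h2, h3, rfl⟩ := real_cons_inv h
    rw [vt_union, card_union_of_disjoint (vt_disj h3 c), ih h2, path_vt_card h1]
    simp [siz]

end

end Pool.Agent.OBX
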