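import Pool.Agent.OBX.FbD
import Pool.Agent.OBX.RealB
import Pool.Agent.OBX.CycsB
import Pool.Agent.OBX.Join
import Pool.Agent.OBX.Close

/-!
MODULE FbB (difficulty 3).  Closing cyclic lists of members by unit links.

RECIPE: first by induction on `l` (for all `m, Y, Z`): `Real c (m :: l) Y → RealL c (creqTo a (m :: l)) Z → Disjoint Y Z → ∃ s b q g, IsPath s c m.1 b q ∧ IsLink 1 c b a g ∧ Disjoint q g ∧
q ∪ g = Y ∪ Z ∧ s + 1 = siz (m :: l) + (m :: l).length` (`real_cons_inv`, `realL_cons_inv`, `join`).  `fb_piece`: `a = m.1`, `close`.  `fb_groups`: induction on `Ms` (`real_append_inv`,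
`realL_append_inv`, `cycs_single`, `cycs_union`).
-/

set_option autoImplicit false

namespace Pool.Agent.OBX

open Finset Pool.Agent.OBW

section
variable {V C : Type} [Fintype V] [DecidableEq V] [Fintype C] [DecidableEq C]

theorem fbB_real_nil {c : C} {Y : Finset (Item V C)} (h : Real c ([] : List (Mem V)) Y) : Y = ∅ := by
  obtain ⟨q, -, -, h3⟩ := h
  rw [h3]
  simp

theorem fbB_realL_nil {c : C} {Y : Finset (Item V C)} (h : RealL c ([] : List (V × V)) Y) : Y = ∅ := by
  obtain ⟨q, -, -, h3⟩ := h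
  rw [h3]
  simp

theorem fbB_siz_cons (m : Mem V) (l : List (Mem V)) : siz (m :: l) = m.2.2 + siz l := by
  unfold siz
  rw [List.map_cons, List.sum_cons]

theorem fbB_path {c : C} (a : V) : ∀ (l : List (Mem V)) (m : Mem V) (Y Z : Finset (Item V C)),
    Real c (m :: l) Y → RealL c (creqTo a (m :: l)) Z → Disjoint Y Z →
    ∃ (s : ℕ) (b : V) (q g : Finset (Item V C)), IsPath s c m.1 b q ∧ IsLink 1 c b a g ∧
      Disjoint q g ∧ q ∪ g = Y ∪ Z ∧ s + 1 = siz (m :: l) + (m :: l).length := by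
  intro l
  induction l with
  | nil =>
    intro m Y Z hY hZ hd
    obtain ⟨q, Y', hq, hY', hqY, rfl⟩ := real_cons_inv hY
    have hY0 := fbB_real_nil hY'
    subst hY0
    rw [creqTo] at hZ
    obtain ⟨g, Z', hg, hZ', hgZ, rfl⟩ := realL_cons_inv hZ
    have hZ0 := fbB_realL_nil hZ'
    subst hZ0
    rw [union_empty, union_empty] at hd
    refine ⟨m.2.2, m.2.1, q, g, hq, hg, hd, by rw [union_empty, union_empty], ?_⟩
    rw [fbB_siz_cons]
    simp [siz]
  | cons m' l ih =>
    intro m Y Z hY hZ hd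
    obtain ⟨q₁, Y', hq₁, hY', hqY, rfl⟩ := real_cons_inv hY
    rw [creqTo] at hZ
    obtain ⟨g₁, Z', hg₁, hZ', hgZ, rfl⟩ := realL_cons_inv hZ
    rw [disjoint_union_left, disjoint_union_right, disjoint_union_right] at hd
    obtain ⟨⟨d1, d2⟩, d3, d4⟩ := hd
    obtain ⟨s, b, q, g, hq, hg, hqg, hu, hs⟩ := ih m' Y' Z' hY' hZ' d4
    have hqsub : q ⊆ Y' ∪ Z' := by
      rw [← hu]
      exact subset_union_left
    have hgsub : g ⊆ Y' ∪ Z' := by
      rw [← hu]
      exact subset_union_right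
    have e1 : Disjoint q₁ (Y' ∪ Z') := disjoint_union_right.2 ⟨hqY, d2⟩
    have e2 : Disjoint g₁ (Y' ∪ Z') := disjoint_union_right.2 ⟨d3.symm, hgZ⟩
    have hj := join V C m.2.2 1 s c m.1 m.2.1 m'.1 b q₁ g₁ q hq₁ hg₁ hq d1
      (disjoint_of_subset_right hqsub e1) (disjoint_of_subset_right hqsub e2)
    refine ⟨m.2.2 + 1 + s, b, q₁ ∪ g₁ ∪ q, g, hj, hg, ?_, ?_, ?_⟩
    · rw [disjoint_union_left, disjoint_union_left]
      exact ⟨⟨disjoint_of_subset_right hgsub e1, disjoint_of_subset_right hgsub e2⟩, hqg⟩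
    · rw [union_assoc, hu]
      ext t
      simp only [mem_union]
      tauto
    · rw [fbB_siz_cons, List.length_cons]
      omega

theorem fb_piece {c : C} {M : List (Mem V)} {Y Z : Finset (Item V C)} (hM : M ≠ [])
    (hY : Real c M Y) (hZ : RealL c (creq M) Z) (hd : Disjoint Y Z) :
    IsPiece (siz M + M.length) c (Y ∪ Z) := by
  cases M with
  | nil => exact absurd rfl hM
  | cons m l =>
    rw [creq] at hZ
    obtain ⟨s, b, q, g, hq, hg, hqg, hu, hs⟩ := fbB_path m.1 l m Y Z hY hZ hd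
    rw [← hs, ← hu]
    exact close V C s 1 c m.1 b q g hq hg hqg

theorem fb_groups {c : C} {Ms : List (List (Mem V))} (hne : ∀ M ∈ Ms, M ≠ [])
    {Y Z : Finset (Item V C)} (hY : Real c Ms.flatten Y) (hZ : RealL c ((Ms.map creq).flatten) Z)
    (hd : Disjoint Y Z) :
    Cycs c ((Ms.map (fun M => siz M + M.length) : List ℕ) : Multiset ℕ) (Y ∪ Z) := by
  induction Ms generalizing Y Z with
  | nil =>
    rw [List.flatten_nil] at hY
    rw [List.map_nil, List.flatten_nil] at hZ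
    rw [fbB_real_nil hY, fbB_realL_nil hZ, union_empty, List.map_nil]
    exact cycs_empty c
  | cons M Ms ih =>
    rw [List.flatten_cons] at hY
    rw [List.map_cons, List.flatten_cons] at hZ
    obtain ⟨Y₁, Y₂, h1, h2, h3, rfl⟩ := real_append_inv hY
    obtain ⟨Z₁, Z₂, k1, k2, k3, rfl⟩ := realL_append_inv hZ
    rw [disjoint_union_left, disjoint_union_right, disjoint_union_right] at hd
    obtain ⟨⟨d1, d2⟩, d3, d4⟩ := hd
    have a1 := cycs_single (fb_piece (hne M List.mem_cons_self) h1 k1 d1)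
    have a2 := ih (fun M' hM' => hne M' (List.mem_cons_of_mem _ hM')) h2 k2 d4
    have hd' : Disjoint (Y₁ ∪ Z₁) (Y₂ ∪ Z₂) := by
      rw [disjoint_union_left, disjoint_union_right, disjoint_union_right]
      exact ⟨⟨h3, d2⟩, d3.symm, k3⟩
    have a3 := cycs_union a1 a2 hd'
    have e : Y₁ ∪ Z₁ ∪ (Y₂ ∪ Z₂) = Y₁ ∪ Y₂ ∪ (Z₁ ∪ Z₂) := by
      ext t
      simp only [mem_union]
      tauto
    rw [e, Multiset.singleton_add, Multiset.cons_coe] at a3
    rw [List.map_cons]
    exact a3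

end

end Pool.Agent.OBX
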