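import Pool.Agent.OBX.FbD

/-!
MODULE FbC (difficulty 2).  Splitting the new members into groups.

RECIPE: induction on `rs` (for all `Dl, Al`): the first group is `Dl.take r.1 ++ Al.take r.2`, the others from `Dl.drop r.1`, `Al.drop r.2`.
-/

set_option autoImplicit false

namespace Pool.Agent.OBX

open Finset Pool.Agent.OBW

theorem fbC_siz_append {V : Type} (l l' : List (Mem V)) : siz (l ++ l') = siz l + siz l' := by
  unfold siz
  rw [List.map_append, List.sum_append]

theorem fbC_siz_const {V : Type} (k : ℕ) (l : List (Mem V)) (h : ∀ m ∈ l, m.2.2 = k) :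
    siz l = k * l.length := by
  induction l with
  | nil => simp [siz]
  | cons m l ih =>
    have h1 := ih (fun m' hm' => h m' (List.mem_cons_of_mem _ hm'))
    have h2 : siz (m :: l) = m.2.2 + siz l := by
      unfold siz
      rw [List.map_cons, List.sum_cons]
    rw [h2, h1, h m List.mem_cons_self, List.length_cons]
    ring

theorem fb_split {V : Type} [DecidableEq V] (rs : List (ℕ × ℕ)) (Dl Al : List (Mem V))
    (hD : Dl.length = (rs.map Prod.fst).sum) (hA : Al.length = (rs.map Prod.snd).sum)
    (h2 : ∀ m ∈ Dl, m.2.2 = 2) (h1 : ∀ m ∈ Al, m.2.2 = 1) :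
    ∃ gs : List (List (Mem V)), List.Perm gs.flatten (Dl ++ Al) ∧
      gs.map (fun M => siz M) = rs.map (fun r => 2 * r.1 + r.2) ∧
      gs.map List.length = rs.map (fun r => r.1 + r.2) := by
  induction rs generalizing Dl Al with
  | nil =>
    rw [List.map_nil, List.sum_nil, List.length_eq_zero_iff] at hD hA
    subst hD
    subst hA
    exact ⟨[], by simp, rfl, rfl⟩
  | cons r rs ih =>
    rw [List.map_cons, List.sum_cons] at hD hA
    obtain ⟨gs, g1, g2, g3⟩ := ih (Dl.drop r.1) (Al.drop r.2)
      (by rw [List.length_drop, hD]; omega) (by rw [List.length_drop, hA]; omega)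
      (fun m hm => h2 m (List.mem_of_mem_drop hm)) (fun m hm => h1 m (List.mem_of_mem_drop hm))
    have l1 : (Dl.take r.1).length = r.1 := by
      rw [List.length_take, hD]
      omega
    have l2 : (Al.take r.2).length = r.2 := by
      rw [List.length_take, hA]
      omega
    have s1 := fbC_siz_const 2 (Dl.take r.1) (fun m hm => h2 m (List.mem_of_mem_take hm))
    have s2 := fbC_siz_const 1 (Al.take r.2) (fun m hm => h1 m (List.mem_of_mem_take hm))
    refine ⟨(Dl.take r.1 ++ Al.take r.2) :: gs, ?_, ?_, ?_⟩
    · rw [List.flatten_cons, ← Multiset.coe_eq_coe]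
      rw [← Multiset.coe_eq_coe] at g1
      have e1 : ((Dl : List (Mem V)) : Multiset (Mem V)) = (Dl.take r.1 : Multiset (Mem V)) + (Dl.drop r.1 : Multiset (Mem V)) := by
        rw [Multiset.coe_add, List.take_append_drop]
      have e2 : ((Al : List (Mem V)) : Multiset (Mem V)) = (Al.take r.2 : Multiset (Mem V)) + (Al.drop r.2 : Multiset (Mem V)) := by
        rw [Multiset.coe_add, List.take_append_drop]
      rw [← Multiset.coe_add, ← Multiset.coe_add, ← Multiset.coe_add, g1, ← Multiset.coe_add, e1, e2]
      abel
    · rw [List.map_cons, List.map_cons, g2, fbC_siz_append, s1, s2, l1, l2, one_mul]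
    · rw [List.map_cons, List.map_cons, g3, List.length_append, l1, l2]

end Pool.Agent.OBX
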