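import Pool.Agent.OBX.Stmts
import Pool.Agent.OBW.Basic

set_option autoImplicit false

/-!
Definitions for the last level (FINB).
-/

namespace Pool.Agent.OBX

open Finset Pool.Agent.OBW

section
variable {V C : Type} [DecidableEq V] [DecidableEq C]

/-- unit requests: from the end of every member to the start of the next one, and from the end of the
last member to `a` -/
def creqTo (a : V) : List (Mem V) → List (V × V)
  | [] => []
  | [m] => [(m.2.1, a)]
  | m :: m' :: l => (m.2.1, m'.1) :: creqTo a (m' :: l)

/-- the unit requests of a cyclic list of members -/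
def creq : List (Mem V) → List (V × V)
  | [] => []
  | m :: l => creqTo m.1 (m :: l)

/-- the members have pairwise different ends -/
def Dsj (M : List (Mem V)) : Prop :=
  M.Pairwise (fun m m' => m.1 ≠ m'.1 ∧ m.1 ≠ m'.2.1 ∧ m.2.1 ≠ m'.1 ∧ m.2.1 ≠ m'.2.1)

/-- the items of a new member: one vertex, or two adjacent vertices -/
def mit (c : C) (m : Mem V) : Finset (Item V C) :=
  if m.2.2 = 1 then {Sum.inr (m.1, c)}
  else {Sum.inl s(m.1, m.2.1), Sum.inr (m.1, c), Sum.inr (m.2.1, c)}

/-- the items of a list of new members -/
def mits (c : C) (M : List (Mem V)) : Finset (Item V C) := M.toFinset.biUnion (mit c)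

end

end Pool.Agent.OBX
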