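import Pool.Agent.OBX.FbD

/-!
MODULE FbN (difficulty 3).  The numbers of one colour.

RECIPE: if `ms = []` take any `l₀ ∈ Λ` (`Λ ≠ 0`), if `ms = [m]` the `l₀ ∈ Λ` with `m.2.2 + 20 ≤ l₀` (from `Siz`); `Λ = l₀ ::ₘ Λ.erase l₀`, `Λ.erase l₀ = ↑(list)`.  Every number `x ≥ 7` is
`2 * a + 3 * d` with `d = x % 2 ≤ 1`, `a = (x - 3 d) / 2 ≥ 2`: use this for `l₀ - siz ms - ms.length ≥ 19` and for the other `l ≥ 40`.
-/

set_option autoImplicit false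

namespace Pool.Agent.OBX

open Finset Pool.Agent.OBW

/-- a number `≥ 7` as `2 a + 3 d` -/
def fbN_f (x : ℕ) : ℕ × ℕ := (x % 2, (x - 3 * (x % 2)) / 2)

theorem fbN_eq {x : ℕ} (h : 7 ≤ x) : 2 * (fbN_f x).2 + 3 * (fbN_f x).1 = x := by
  show 2 * ((x - 3 * (x % 2)) / 2) + 3 * (x % 2) = x
  omega

theorem fbN_le {x : ℕ} (h : 7 ≤ x) : (fbN_f x).1 ≤ 1 ∧ 2 ≤ (fbN_f x).2 := by
  show x % 2 ≤ 1 ∧ 2 ≤ (x - 3 * (x % 2)) / 2
  omega

theorem fb_num {V : Type} [DecidableEq V] {ms : List (Mem V)} {Λ : Multiset ℕ}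
    (hlen : ms.length ≤ 1) (hsiz : Siz 6 20 ms Λ) (hl : ∀ l ∈ Λ, 40 ≤ l) (hΛ : Λ ≠ 0) :
    ∃ (r : ℕ × ℕ) (rs : List (ℕ × ℕ)),
      Λ = (siz ms + ms.length + (2 * r.2 + 3 * r.1)) ::ₘ
        ((rs.map (fun r => 2 * r.2 + 3 * r.1) : List ℕ) : Multiset ℕ) ∧
      ∀ x ∈ r :: rs, x.1 ≤ 1 ∧ 2 ≤ x.2 := by
  have key : ∃ l₀ ∈ Λ, siz ms + ms.length + 7 ≤ l₀ := by
    match ms, hlen, hsiz with
    | [], _, _ =>
      obtain ⟨l₀, h0⟩ := Multiset.exists_mem_of_ne_zero hΛ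
      refine ⟨l₀, h0, ?_⟩
      have h1 := hl l₀ h0
      show 0 + 0 + 7 ≤ l₀
      omega
    | [m], _, hsiz =>
      obtain ⟨l₀, h0, h1⟩ := hsiz.2 m rfl
      refine ⟨l₀, h0, ?_⟩
      show (m.2.2 + 0) + 1 + 7 ≤ l₀
      omega
    | _ :: _ :: _, hlen, _ =>
      simp only [List.length_cons] at hlen
      omega
  obtain ⟨l₀, h0, h1⟩ := key
  refine ⟨fbN_f (l₀ - siz ms - ms.length), (Λ.erase l₀).toList.map fbN_f, ?_, ?_⟩
  · rw [fbN_eq (by omega)]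
    have h2 : siz ms + ms.length + (l₀ - siz ms - ms.length) = l₀ := by omega
    rw [h2, List.map_map]
    have h3 : List.map ((fun r : ℕ × ℕ => 2 * r.2 + 3 * r.1) ∘ fbN_f) (Λ.erase l₀).toList =
        (Λ.erase l₀).toList := by
      conv_rhs => rw [← List.map_id (Λ.erase l₀).toList]
      refine List.map_congr_left fun x hx => ?_
      have h4 := hl x (Multiset.mem_of_mem_erase (Multiset.mem_toList.1 hx))
      exact fbN_eq (by omega)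
    rw [h3, Multiset.coe_toList, Multiset.cons_erase h0]
  · intro x hx
    rcases List.mem_cons.1 hx with h2 | h2
    · rw [h2]
      exact fbN_le (by omega)
    · obtain ⟨y, hy, rfl⟩ := List.mem_map.1 h2
      have h4 := hl y (Multiset.mem_of_mem_erase (Multiset.mem_toList.1 hy))
      exact fbN_le (by omega)

end Pool.Agent.OBX
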