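import Pool.Agent.OBX.FbD
import Pool.Agent.OBX.RealB

/-!
MODULE FbR (difficulty 2).  The items of the new members realize them.

RECIPE: induction on the list: `mits c (m :: l) = mit c m ∪ mits c l`, `isPath_one` resp. `isPath_two`, `real_cons`; disjoint by `Dsj` (all vertices of `m` differ from all ends of the
other members; the edge `s(m.1, m.2.1)` is not an edge `s(m'.1, m'.2.1)`).
-/

set_option autoImplicit false

namespace Pool.Agent.OBX

open Finset Pool.Agent.OBW

theorem fbr_disj {V C : Type} [DecidableEq V] [DecidableEq C] (c : C) {m m' : Mem V}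
    (h : m.1 ≠ m'.1 ∧ m.1 ≠ m'.2.1 ∧ m.2.1 ≠ m'.1 ∧ m.2.1 ≠ m'.2.1) : Disjoint (mit c m) (mit c m') := by
  obtain ⟨h1, h2, h3, h4⟩ := h
  rw [Finset.disjoint_left]
  intro x hx hx'
  unfold mit at hx hx'
  split_ifs at hx hx' <;> simp only [Finset.mem_singleton, Finset.mem_insert] at hx hx'
  · rw [hx] at hx'
    simp only [Sum.inr.injEq, Prod.mk.injEq, and_true] at hx'
    exact h1 hx'
  · rw [hx] at hx'
    simp only [reduceCtorEq, Sum.inr.injEq, Prod.mk.injEq, and_true, false_or] at hx'
    tauto
  · rw [hx'] at hx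
    simp only [reduceCtorEq, Sum.inr.injEq, Prod.mk.injEq, and_true, false_or] at hx
    rcases hx with hx | hx
    · exact h1 hx.symm
    · exact h3 hx.symm
  · rcases hx with rfl | rfl | rfl
    · simp only [reduceCtorEq, Sum.inl.injEq, or_false, Sym2.eq_iff] at hx'
      tauto
    · simp only [reduceCtorEq, Sum.inr.injEq, Prod.mk.injEq, and_true, false_or] at hx'
      tauto
    · simp only [reduceCtorEq, Sum.inr.injEq, Prod.mk.injEq, and_true, false_or] at hx'
      tauto

theorem real_mits {V C : Type} [DecidableEq V] [DecidableEq C] (c : C) (M : List (Mem V))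
    (hD : Dsj M)
    (hs : ∀ m ∈ M, (m.2.2 = 1 ∧ m.1 = m.2.1) ∨ (m.2.2 = 2 ∧ m.1 ≠ m.2.1)) :
    Real c M (mits c M) := by
  induction M with
  | nil =>
    have h : mits c ([] : List (Mem V)) = ∅ := by simp [mits]
    rw [h]
    exact real_nil c
  | cons m l ih =>
    have hD' := List.pairwise_cons.1 hD
    have h : mits c (m :: l) = mit c m ∪ mits c l := by
      unfold mits
      rw [List.toFinset_cons, Finset.biUnion_insert]
    rw [h]
    apply real_cons
    · unfold mit
      rcases hs m List.mem_cons_self with ⟨h1, h2⟩ | ⟨h1, h2⟩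
      · rw [if_pos h1, h1, ← h2]
        exact isPath_one c m.1
      · rw [if_neg (by rw [h1]; norm_num), h1]
        exact isPath_two c h2
    · exact ih hD'.2 (fun m' hm' => hs m' (List.mem_cons_of_mem _ hm'))
    · unfold mits
      rw [Finset.disjoint_biUnion_right]
      intro m' hm'
      rw [List.mem_toFinset] at hm'
      exact fbr_disj c (hD'.1 m' hm')

end Pool.Agent.OBX
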