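import Pool.Agent.OBX.FbC

/-!
MODULE FbX (difficulty 3).  The members of one colour.

RECIPE: `A = ((r :: rs).map Prod.snd).sum`.  `Dl = (List.range d).map fun j => (a j, b j, 2)`; `Z ⊆ W` without the `a j, b j`, `|Z| = A` (possible: `A + 2 d ≤ |W|`), `Al = Z.toList.map fun v => (v, v, 1)`.
`fb_split` for `r :: rs` gives `gs = g :: gs'`; `Ms = (ms ++ g) :: gs'`, `new = gs.flatten`; `Ms.flatten = ms ++ new`.  `Dsj (ms ++ new)`: `ms` has at most one member, its ends are not in `W`; for `new` by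
`List.Perm.pairwise_iff` (the relation is symmetric) from `Dl ++ Al`.
-/

set_option autoImplicit false

namespace Pool.Agent.OBX

open Finset Pool.Agent.OBW

theorem fbX_add {α β : Type} (f g : α → ℕ) (f' g' : β → ℕ) : ∀ (l : List α) (l' : List β),
    l.map f = l'.map f' → l.map g = l'.map g' →
    l.map (fun x => f x + g x) = l'.map (fun x => f' x + g' x)
  | [], [], _, _ => rfl
  | [], _ :: _, h, _ => absurd h (by simp)
  | _ :: _, [], h, _ => absurd h (by simp)
  | x :: l, y :: l', h, h' => by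
    have h1 := List.cons_eq_cons.1 h
    have h2 := List.cons_eq_cons.1 h'
    show (f x + g x) :: l.map (fun x => f x + g x) = (f' y + g' y) :: l'.map (fun x => f' x + g' x)
    rw [h1.1, h2.1, fbX_add f g f' g' l l' h1.2 h2.2]

theorem fbX_sum (rs : List (ℕ × ℕ)) : (rs.map (fun r => 2 * r.2 + 3 * r.1)).sum =
    2 * (rs.map Prod.snd).sum + 3 * (rs.map Prod.fst).sum := by
  induction rs with
  | nil => rfl
  | cons x l ih =>
    rw [List.map_cons, List.sum_cons, ih, List.map_cons, List.map_cons, List.sum_cons, List.sum_cons]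
    ring

theorem fbX_app {V : Type} (l l' : List (Mem V)) : siz (l ++ l') = siz l + siz l' := by
  unfold siz
  rw [List.map_append, List.sum_append]

theorem fbX_perm {V : Type} {l l' : List (Mem V)} (h : List.Perm l l') : siz l = siz l' := by
  unfold siz
  exact (h.map _).sum_eq

theorem fbX_const {V : Type} (k : ℕ) : ∀ l : List (Mem V), (∀ m ∈ l, m.2.2 = k) →
    siz l = l.length * k
  | [], _ => by simp [siz]
  | m :: l, h => by
    have h1 := fbX_const k l (fun x hx => h x (List.mem_cons_of_mem _ hx))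
    have h2 := h m List.mem_cons_self
    unfold siz at h1 ⊢
    rw [List.map_cons, List.sum_cons, h1, h2, List.length_cons]
    ring

theorem fb_colour {V : Type} [DecidableEq V] (W : Finset V) (ms : List (Mem V)) (Λ : Multiset ℕ)
    (r : ℕ × ℕ) (rs : List (ℕ × ℕ)) (d : ℕ) (a b : ℕ → V)
    (hΛ : Λ = (siz ms + ms.length + (2 * r.2 + 3 * r.1)) ::ₘ
        ((rs.map (fun r => 2 * r.2 + 3 * r.1) : List ℕ) : Multiset ℕ))
    (hr : ∀ x ∈ r :: rs, x.1 ≤ 1 ∧ 2 ≤ x.2) (hd : d = ((r :: rs).map Prod.fst).sum)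
    (hW : W.card + siz ms = Λ.sum) (hlen : ms.length ≤ 1)
    (hms : ∀ m ∈ ms, m.1 ≠ m.2.1 ∧ m.1 ∉ W ∧ m.2.1 ∉ W)
    (hab : ∀ j < d, a j ∈ W ∧ b j ∈ W ∧ a j ≠ b j)
    (hdis : ∀ i < d, ∀ j < d, i ≠ j → a i ≠ a j ∧ a i ≠ b j ∧ b i ≠ b j) :
    ∃ (new : List (Mem V)) (Ms : List (List (Mem V))),
      Ms.flatten = ms ++ new ∧ (∀ M ∈ Ms, 2 ≤ M.length) ∧
      ((Ms.map (fun M => siz M + M.length) : List ℕ) : Multiset ℕ) = Λ ∧
      Dsj (ms ++ new) ∧
      (∀ m ∈ new, (m.2.2 = 1 ∧ m.1 = m.2.1 ∧ m.1 ∈ W) ∨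
        (m.2.2 = 2 ∧ ∃ j < d, m.1 = a j ∧ m.2.1 = b j)) ∧
      W.card = siz new + ms.length + new.length := by
  set A : ℕ := ((r :: rs).map Prod.snd).sum with hA
  have hsum : Λ.sum = siz ms + ms.length + (2 * A + 3 * d) := by
    rw [hΛ, Multiset.sum_cons, Multiset.sum_coe, fbX_sum, hA, hd, List.map_cons, List.map_cons,
      List.sum_cons, List.sum_cons]
    ring
  have hWc : W.card = ms.length + 2 * A + 3 * d := by omega
  have hABc : ((range d).image a ∪ (range d).image b).card ≤ 2 * d := by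
    refine (card_union_le _ _).trans ?_
    have h1 : ((range d).image a).card ≤ d := card_image_le.trans (by rw [card_range])
    have h2 : ((range d).image b).card ≤ d := card_image_le.trans (by rw [card_range])
    omega
  have hsd : A ≤ (W \ ((range d).image a ∪ (range d).image b)).card := by
    have h1 := le_card_sdiff ((range d).image a ∪ (range d).image b) W
    omega
  obtain ⟨Z, hZ, hZc⟩ := exists_subset_card_eq hsd
  have hZW : ∀ v ∈ Z, v ∈ W := fun v hv => (mem_sdiff.1 (hZ hv)).1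
  have hZa : ∀ v ∈ Z, ∀ j < d, v ≠ a j ∧ v ≠ b j := by
    intro v hv j hj
    have h1 := (mem_sdiff.1 (hZ hv)).2
    constructor
    · intro h
      exact h1 (mem_union_left _ (h ▸ mem_image_of_mem a (mem_range.2 hj)))
    · intro h
      exact h1 (mem_union_right _ (h ▸ mem_image_of_mem b (mem_range.2 hj)))
  set Dl : List (Mem V) := (List.range d).map (fun j => (a j, b j, 2)) with hDl
  set Al : List (Mem V) := Z.toList.map (fun v => (v, v, 1)) with hAl
  have hDm : ∀ m ∈ Dl, ∃ j < d, m = (a j, b j, 2) := by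
    intro m hm
    obtain ⟨j, hj, h⟩ := List.mem_map.1 hm
    exact ⟨j, List.mem_range.1 hj, h.symm⟩
  have hAm : ∀ m ∈ Al, ∃ v ∈ Z, m = (v, v, 1) := by
    intro m hm
    obtain ⟨v, hv, h⟩ := List.mem_map.1 hm
    exact ⟨v, mem_toList.1 hv, h.symm⟩
  have hDlen : Dl.length = d := by rw [hDl, List.length_map, List.length_range]
  have hAlen : Al.length = A := by rw [hAl, List.length_map, length_toList, hZc]
  have hD2 : ∀ m ∈ Dl, m.2.2 = 2 := by
    intro m hm
    obtain ⟨j, _, h⟩ := hDm m hm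
    rw [h]
  have hA1 : ∀ m ∈ Al, m.2.2 = 1 := by
    intro m hm
    obtain ⟨v, _, h⟩ := hAm m hm
    rw [h]
  obtain ⟨gs, hperm, hsz, hln⟩ := fb_split (r :: rs) Dl Al (by rw [hDlen, hd]) (by rw [hAlen, hA]) hD2 hA1
  obtain ⟨g, gs', rfl⟩ : ∃ g gs', gs = g :: gs' := by
    cases gs with
    | nil => exact absurd hsz (by simp)
    | cons g gs' => exact ⟨g, gs', rfl⟩
  have hsz' := List.cons_eq_cons.1 hsz
  have hln' := List.cons_eq_cons.1 hln
  have hsz1 : siz g = 2 * r.1 + r.2 := hsz'.1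
  have hln1 : g.length = r.1 + r.2 := hln'.1
  have hr0 := hr r List.mem_cons_self
  have hsiz : siz (g :: gs').flatten = 2 * d + A := by
    rw [fbX_perm hperm, fbX_app, fbX_const 2 Dl hD2, fbX_const 1 Al hA1, hDlen, hAlen]
    ring
  have hlength : (g :: gs').flatten.length = d + A := by
    rw [hperm.length_eq, List.length_append, hDlen, hAlen]
  have hnew : ∀ m ∈ (g :: gs').flatten, (m.2.2 = 1 ∧ m.1 = m.2.1 ∧ m.1 ∈ W) ∨
      (m.2.2 = 2 ∧ ∃ j < d, m.1 = a j ∧ m.2.1 = b j) := by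
    intro m hm
    rcases List.mem_append.1 (hperm.mem_iff.1 hm) with h | h
    · obtain ⟨j, hj, rfl⟩ := hDm m h
      exact Or.inr ⟨rfl, j, hj, rfl, rfl⟩
    · obtain ⟨v, hv, rfl⟩ := hAm m h
      exact Or.inl ⟨rfl, rfl, hZW v hv⟩
  have hnewW : ∀ m ∈ (g :: gs').flatten, m.1 ∈ W ∧ m.2.1 ∈ W := by
    intro m hm
    rcases hnew m hm with ⟨_, h1, h2⟩ | ⟨_, j, hj, h1, h2⟩
    · exact ⟨h2, h1 ▸ h2⟩
    · rw [h1, h2]
      exact ⟨(hab j hj).1, (hab j hj).2.1⟩
  refine ⟨(g :: gs').flatten, (ms ++ g) :: gs', ?_, ?_, ?_, ?_, hnew, ?_⟩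
  · rw [List.flatten_cons, List.flatten_cons, List.append_assoc]
  · intro M hM
    rcases List.mem_cons.1 hM with h | h
    · rw [h, List.length_append, hln1]
      omega
    · have h1 : M.length ∈ gs'.map List.length := List.mem_map_of_mem h
      rw [hln'.2] at h1
      obtain ⟨x, hx, h2⟩ := List.mem_map.1 h1
      have h3 := hr x (List.mem_cons_of_mem _ hx)
      omega
  · rw [hΛ, List.map_cons, fbX_app, List.length_append, hsz1, hln1]
    have h1 := fbX_add (fun M => siz M) List.length (fun r : ℕ × ℕ => 2 * r.1 + r.2)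
      (fun r => r.1 + r.2) gs' rs hsz'.2 hln'.2
    have h2 : gs'.map (fun M => siz M + M.length) = rs.map (fun r => 2 * r.2 + 3 * r.1) := by
      refine h1.trans (List.map_congr_left fun x _ => ?_)
      ring
    rw [h2, ← Multiset.cons_coe]
    congr 1
    ring
  · unfold Dsj
    rw [List.pairwise_append]
    refine ⟨?_, ?_, ?_⟩
    · match ms, hlen with
      | [], _ => exact List.Pairwise.nil
      | [_], _ => exact List.pairwise_singleton _ _
      | _ :: _ :: _, hlen =>
        simp only [List.length_cons] at hlen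
        omega
    · have hsymm : ∀ m m' : Mem V, (m.1 ≠ m'.1 ∧ m.1 ≠ m'.2.1 ∧ m.2.1 ≠ m'.1 ∧ m.2.1 ≠ m'.2.1) →
          (m'.1 ≠ m.1 ∧ m'.1 ≠ m.2.1 ∧ m'.2.1 ≠ m.1 ∧ m'.2.1 ≠ m.2.1) := fun m m' h =>
        ⟨h.1.symm, h.2.2.1.symm, h.2.1.symm, h.2.2.2.symm⟩
      rw [hperm.pairwise_iff (fun {x y} h => hsymm x y h), List.pairwise_append]
      refine ⟨?_, ?_, ?_⟩
      · rw [hDl, List.pairwise_map]
        refine List.pairwise_lt_range.imp_of_mem ?_
        intro i j hi hj hij
        have hi' := List.mem_range.1 hi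
        have hj' := List.mem_range.1 hj
        have h1 := hdis i hi' j hj' (by omega)
        have h2 := hdis j hj' i hi' (by omega)
        exact ⟨h1.1, h1.2.1, h2.2.1.symm, h1.2.2⟩
      · rw [hAl, List.pairwise_map]
        refine (nodup_toList Z).imp ?_
        intro u v huv
        exact ⟨huv, huv, huv, huv⟩
      · intro m hm m' hm'
        obtain ⟨j, hj, rfl⟩ := hDm m hm
        obtain ⟨v, hv, rfl⟩ := hAm m' hm'
        have h1 := hZa v hv j hj
        exact ⟨h1.1.symm, h1.1.symm, h1.2.symm, h1.2.symm⟩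
    · intro m hm m' hm'
      have h1 := hms m hm
      have h2 := hnewW m' hm'
      exact ⟨fun h => h1.2.1 (h ▸ h2.1), fun h => h1.2.1 (h ▸ h2.2), fun h => h1.2.2 (h ▸ h2.1),
        fun h => h1.2.2 (h ▸ h2.2)⟩
  · rw [hsiz, hlength]
    omega

end Pool.Agent.OBX
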