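import Pool.Agent.OBX.FdStmts
import Pool.Agent.OBW.Basic

set_option autoImplicit false

/-!
MODULE FdA (difficulty 4).  Numbers, doubles, anchors.

CONSTANTS: `ω = p μ / 10`, `θ = ε p μ / 200`, `γ'` from `hdbl ω θ`; `K` natural, large (`K ≥ 100 / min ε 1`, `2 p / K ≤ γ'`, `K ≥ 8 (W + 6)` — `K` may depend on `W`);
`γ₀ = min(ε, 1) p μ / 1000`; `L₁ ≥ (1 + W) K` and `≥ W + 11`; `m ≥ m₀`: `M = |U'| ≥ μ m - 1 ≥ (4/5) μ m`, `x = |vt T c| ≥ p M / 4 ≥ p μ m / 5 ≥ K`, `x ≤ 2 p M ≤ 2 p m`.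
Numbers: `h = |ms c| ≤ γ m ≤ (min(ε,1)/200) x`; from `Siz` (`ms = []`, or head `m₀` with `l₀ ∈ Λ`, `m₀.2.2 + 6 ≤ l₀`; the others ≤ `W`): `Λ.sum = x + siz ms ≤
x + l₀ + W h`, `Λ.sum ≥ l₀ + (q - 1) L₁`, so `(q - 1) L₁ ≤ (1 + W) x`, `(q - 1) K ≤ x`, `q K ≤ 2 x` (`q = card Λ`, `Λ ≠ 0` as the sum is positive).  So `h + q (W + 6) ≤ x`:
`harr` applies with `sz m = m.2.2` and gives `d ≤ q ≤ 2 x / K`, `h + 2 A + 3 d = x`.
Doubles: `hdbl` with `m = |U|`, `I = D \ D'`, `W c = vt T c \ U''`, `H u v = (inl s(u,v) ∈ T)`: `|nb T u ∩ vt T c \ U''| ≥ (3/4 + ε) x` for `u ∈ U'` (`LinkHyp.uw`; `U'` is not empty);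
`d c ≤ 2 x / K ≤ γ' m`.
`H u v := inl s(u,v) ∈ T ∧ ¬ (u ∈ U'' ∧ v ∈ U'') ∧ ∀ c ∈ Do, ∀ j < d c, s(u,v) ≠ s(a c j, b c j)`.  For every `u` the number of `v` such that `s(u,v)` is a double is
at most the number of colours with a double at `u`, `≤ θ m`.
Anchors: `Y = vt T c` minus the vertices of the doubles, `|Y| = x - 2 d = 2 A + (h + d)`; `hset` with `I = {u // u ∈ U'}`, `Q u = {v | H u v}`, `ξ = ε / 16` (or `min ε 1 / 16`), `r = h + d`
(`A ≥ x / 4 ≥ p μ m / 20`, `4 |U'| exp(-ξ² A / 2) < 1` for large `m`).  For `u ∈ U'`: `|Y ∩ Q u| ≥ (3/4 + ε) x - 2 d - θ m`.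
Degrees: `2 |P| = x + h - d`; `(3/4 + ε/4)(x + h) ≤ (3/4 + ε) x - 2 d - θ m - (h + d) - 2 ξ A` (note `ε ≤ 1/4` because of `uw`, `2 A ≤ x`).
`big`: `|P| ≥ A ≥ x / 4 ≥ p M / 16`.
-/

namespace Pool.Agent.OBX

open Finset Pool.Agent.OBW

theorem fdA_siz {V : Type} (W : ℕ) : ∀ l : List (Mem V), (∀ m ∈ l, m.2.2 ≤ W) → siz l ≤ l.length * W
  | [], _ => by simp [siz]
  | m :: l, h => by
    have h1 := fdA_siz W l (fun x hx => h x (List.mem_cons_of_mem _ hx))
    have h2 := h m List.mem_cons_self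
    unfold siz at h1 ⊢
    rw [List.map_cons, List.sum_cons, List.length_cons, Nat.succ_mul]
    omega

theorem fdA_q {V : Type} (ms : List (Mem V)) (Λ : Multiset ℕ) (W K L₁ x : ℕ) (hK : K ≤ x)
    (hh : ms.length ≤ x) (hL : (1 + W) * K ≤ L₁) (hΛ : ∀ l ∈ Λ, L₁ ≤ l) (hs : Siz W 6 ms Λ)
    (hsum : x + siz ms = Λ.sum) : Multiset.card Λ * K ≤ 2 * x := by
  have hKL : K ≤ L₁ := by
    have h0 : (1 + W) * K = K + W * K := by ring
    have h1 : 0 ≤ W * K := Nat.zero_le _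
    omega
  cases ms with
  | nil =>
    have h1 : Multiset.card Λ • L₁ ≤ Λ.sum := Multiset.card_nsmul_le_sum hΛ
    have h2 : siz ([] : List (Mem V)) = 0 := rfl
    rw [smul_eq_mul] at h1
    have h3 := Nat.mul_le_mul_left (Multiset.card Λ) hKL
    omega
  | cons m t =>
    obtain ⟨l₀, hl₀, hl1⟩ := hs.2 m rfl
    have h1 : siz t ≤ t.length * W := fdA_siz W t hs.1
    have h2 : siz (m :: t) = m.2.2 + siz t := by
      unfold siz
      rw [List.map_cons, List.sum_cons]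
    have h3 : l₀ + (Λ.erase l₀).sum = Λ.sum := by
      rw [← Multiset.sum_cons, Multiset.cons_erase hl₀]
    have h4 : Multiset.card (Λ.erase l₀) • L₁ ≤ (Λ.erase l₀).sum :=
      Multiset.card_nsmul_le_sum (fun l hl => hΛ l (Multiset.mem_of_mem_erase hl))
    have h5 : Multiset.card (Λ.erase l₀) + 1 = Multiset.card Λ := Multiset.card_erase_add_one hl₀
    rw [smul_eq_mul] at h4
    have h6 : t.length * W ≤ x * W := Nat.mul_le_mul_right W (by
      rw [List.length_cons] at hh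
      omega)
    have h7 : Multiset.card (Λ.erase l₀) * ((1 + W) * K) ≤ Multiset.card (Λ.erase l₀) * L₁ :=
      Nat.mul_le_mul_left _ hL
    have h8 : (1 + W) * (Multiset.card (Λ.erase l₀) * K) ≤ (1 + W) * x := by
      have e1 : (1 + W) * (Multiset.card (Λ.erase l₀) * K) =
          Multiset.card (Λ.erase l₀) * ((1 + W) * K) := by ring
      have e2 : (1 + W) * x = x + x * W := by ring
      omega
    have h9 := Nat.le_of_mul_le_mul_left h8 (by omega)
    rw [← h5, Nat.succ_mul]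
    omega

open scoped Classical in
theorem fdA_load {V C : Type} [Fintype V] [DecidableEq V] (I : Finset C) (d : C → ℕ) (a b : C → ℕ → V)
    (hab : ∀ c ∈ I, ∀ j < d c, a c j ≠ b c j)
    (hdd : ∀ c ∈ I, ∀ i < d c, ∀ j < d c, i ≠ j → a c i ≠ a c j ∧ a c i ≠ b c j ∧ b c i ≠ b c j)
    (u : V) : ((univ : Finset V).filter (fun v => ∃ c ∈ I, ∃ j < d c, s(u, v) = s(a c j, b c j))).card ≤
      (I.filter (fun c => ∃ j < d c, u = a c j ∨ u = b c j)).card := by
  have key : ∀ v ∈ (univ : Finset V).filter (fun v => ∃ c ∈ I, ∃ j < d c, s(u, v) = s(a c j, b c j)),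
      ∃ c, c ∈ I ∧ ∃ j < d c, s(u, v) = s(a c j, b c j) := fun v hv => (mem_filter.1 hv).2
  have hu : ∀ (c : C) (j : ℕ) (v : V), s(u, v) = s(a c j, b c j) → u = a c j ∨ u = b c j := by
    intro c j v h
    rcases Sym2.eq_iff.1 h with ⟨h1, _⟩ | ⟨h1, _⟩
    · exact Or.inl h1
    · exact Or.inr h1
  rcases isEmpty_or_nonempty C with hC | hC
  · have h0 : (univ : Finset V).filter (fun v => ∃ c ∈ I, ∃ j < d c, s(u, v) = s(a c j, b c j)) = ∅ := by
      rw [filter_eq_empty_iff]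
      rintro v _ ⟨c, _⟩
      exact hC.elim c
    rw [h0, card_empty]
    exact Nat.zero_le _
  choose! f hf1 hf2 using key
  refine card_le_card_of_injOn f (fun v hv => ?_) ?_
  · obtain ⟨j, hj, h⟩ := hf2 v hv
    exact mem_coe.2 (mem_filter.2 ⟨hf1 v hv, j, hj, hu _ _ _ h⟩)
  · intro v hv w hw hvw
    obtain ⟨i, hi, h⟩ := hf2 v hv
    obtain ⟨j, hj, h'⟩ := hf2 w hw
    rw [← hvw] at hj h'
    have hI := hf1 v hv
    have hij : i = j := by
      by_contra hne
      have h1 := hdd _ hI i hi j hj hne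
      have h2 := hdd _ hI j hj i hi (Ne.symm hne)
      rcases hu _ _ _ h with h3 | h3 <;> rcases hu _ _ _ h' with h4 | h4
      · exact h1.1 (h3.symm.trans h4)
      · exact h1.2.1 (h3.symm.trans h4)
      · exact h2.2.1 (h4.symm.trans h3)
      · exact h1.2.2 (h3.symm.trans h4)
    rw [hij] at h
    exact Sym2.congr_right.1 (h.trans h'.symm)

theorem fdA_exp {κ m : ℝ} (hκ : 0 < κ) (hm : 0 < m) (h : 8 / κ ^ 2 ≤ m) :
    4 * m * Real.exp (-(κ * m)) < 1 := by
  have h1 := Real.quadratic_le_exp_of_nonneg (mul_nonneg hκ.le hm.le)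
  have h2 : 8 ≤ m * κ ^ 2 := by
    rw [div_le_iff₀ (by positivity)] at h
    exact h
  have h3 : 4 * m < Real.exp (κ * m) := by
    have h4 : 4 * m ≤ (κ * m) ^ 2 / 2 := by nlinarith
    have h5 : 0 < κ * m := mul_pos hκ hm
    linarith
  rw [Real.exp_neg, ← div_eq_mul_inv, div_lt_one (Real.exp_pos _)]
  exact h3

theorem fdA (harr : ArrStmt) (hset : SetStmt) (hdbl : DblStmt) : FdAStmt := by
  classical
  intro ε μ hε hμ p hp hp1
  obtain ⟨e, he0, heε, he1⟩ : ∃ e : ℝ, 0 < e ∧ e ≤ ε ∧ e ≤ 1 :=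
    ⟨min ε 1, lt_min hε one_pos, min_le_left _ _, min_le_right _ _⟩
  have hpμ : 0 < p * μ := mul_pos hp hμ
  obtain ⟨γ', hγ', mD, hD⟩ := hdbl (p * μ / 10) (e * (p * μ) / 200) (by positivity) (by positivity)
  refine ⟨e * (p * μ) / 1000, by positivity, ?_⟩
  intro γ hγ hγ₀ W
  obtain ⟨K, hK1, hK2, hK3⟩ : ∃ K : ℕ, 100 / e ≤ (K : ℝ) ∧ 4 / γ' ≤ (K : ℝ) ∧ 8 * (W + 6) ≤ K := by
    refine ⟨⌈100 / e⌉₊ + ⌈4 / γ'⌉₊ + 8 * (W + 6), ?_, ?_, by omega⟩
    · have h1 := Nat.le_ceil (100 / e)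
      have h2 : (0 : ℝ) ≤ (⌈4 / γ'⌉₊ : ℝ) := Nat.cast_nonneg _
      have h3 : (0 : ℝ) ≤ ((8 * (W + 6) : ℕ) : ℝ) := Nat.cast_nonneg _
      rw [Nat.cast_add, Nat.cast_add]
      linarith
    · have h1 := Nat.le_ceil (4 / γ')
      have h2 : (0 : ℝ) ≤ (⌈100 / e⌉₊ : ℝ) := Nat.cast_nonneg _
      have h3 : (0 : ℝ) ≤ ((8 * (W + 6) : ℕ) : ℝ) := Nat.cast_nonneg _
      rw [Nat.cast_add, Nat.cast_add]
      linarith
  have hKe : 100 ≤ K * e := (div_le_iff₀ he0).1 hK1
  have hKγ : 4 ≤ K * γ' := (div_le_iff₀ hγ').1 hK2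
  set κ : ℝ := (e / 16) ^ 2 * (p * μ / 40) with hκd
  have hκ : 0 < κ := by positivity
  refine ⟨(1 + W) * K + W + 11, mD + ⌈5 / μ⌉₊ + ⌈5 * K / (p * μ)⌉₊ + ⌈8 / κ ^ 2⌉₊ + 1, ?_⟩
  intro V C _ _ _ _ U U' U'' D D' D'' T ms Λ hm hL hc
  set m : ℝ := (U.card : ℝ) with hmd
  have hm' : ((mD + ⌈5 / μ⌉₊ + ⌈5 * K / (p * μ)⌉₊ + ⌈8 / κ ^ 2⌉₊ + 1 : ℕ) : ℝ) ≤ m := by
    rw [hmd]
    exact_mod_cast hm
  rw [Nat.cast_add, Nat.cast_add, Nat.cast_add, Nat.cast_add, Nat.cast_one] at hm'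
  have n1 : (0 : ℝ) ≤ (mD : ℝ) := Nat.cast_nonneg _
  have n2 := Nat.le_ceil (5 / μ)
  have n3 := Nat.le_ceil (5 * K / (p * μ))
  have n4 := Nat.le_ceil (8 / κ ^ 2)
  have n2' : (0 : ℝ) ≤ (⌈5 / μ⌉₊ : ℝ) := Nat.cast_nonneg _
  have n3' : (0 : ℝ) ≤ (⌈5 * K / (p * μ)⌉₊ : ℝ) := Nat.cast_nonneg _
  have n4' : (0 : ℝ) ≤ (⌈8 / κ ^ 2⌉₊ : ℝ) := Nat.cast_nonneg _
  have m1 : (mD : ℝ) ≤ m := by linarith
  have m2 : 5 ≤ μ * m := by
    have h1 : 5 / μ ≤ m := by linarith
    rw [div_le_iff₀ hμ] at h1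
    linarith
  have m3 : 5 * K ≤ p * μ * m := by
    have h1 : 5 * K / (p * μ) ≤ m := by linarith
    rw [div_le_iff₀ hpμ] at h1
    linarith
  have m4 : 8 / κ ^ 2 ≤ m := by linarith
  have m5 : 0 < m := by linarith
  have hM : 4 / 5 * (μ * m) ≤ (U'.card : ℝ) := by
    have := hL.Ulo
    linarith
  have hMm : (U'.card : ℝ) ≤ m := by
    rw [hmd]
    exact_mod_cast card_le_card hL.subU
  have hvt : ∀ c ∈ D \ D', vt T c ⊆ U' := by
    intro c hcD v hv
    rw [mem_vt] at hv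
    by_contra hvU
    exact hL.cX v (mem_sdiff.2 ⟨(hL.ins.2 v c hv).1, hvU⟩) c hcD hv
  obtain ⟨u₀, hu₀⟩ : ∃ u₀, u₀ ∈ U' := by
    have h1 : (0 : ℝ) < U'.card := by nlinarith
    have h2 : 0 < U'.card := by exact_mod_cast h1
    exact card_pos.1 h2
  have hne : Nonempty V := ⟨u₀⟩
  -- numbers
  have x1 : ∀ c ∈ D \ D', p * μ * m / 5 ≤ ((vt T c).card : ℝ) := by
    intro c hcD
    have h1 := (hL.wc c hcD).1
    have h2 : p / 4 * (4 / 5 * (μ * m)) ≤ p / 4 * (U'.card : ℝ) :=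
      mul_le_mul_of_nonneg_left hM (by linarith)
    linarith
  have x2 : ∀ c ∈ D \ D', ((vt T c).card : ℝ) ≤ 2 * m := by
    intro c hcD
    have h1 := (hL.wc c hcD).2
    have h2 : 2 * p * (U'.card : ℝ) ≤ 2 * 1 * m :=
      mul_le_mul (by linarith) hMm (Nat.cast_nonneg _) (by norm_num)
    linarith
  have x3 : ∀ c ∈ D \ D', K ≤ (vt T c).card := by
    intro c hcD
    have h1 := x1 c hcD
    have h2 : (K : ℝ) ≤ ((vt T c).card : ℝ) := by linarith
    exact_mod_cast h2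
  have h1x : ∀ c ∈ D \ D', 200 * ((ms c).length : ℝ) ≤ e * ((vt T c).card : ℝ) := by
    intro c hcD
    have h1 := (hc c hcD).1
    have h2 := x1 c hcD
    have h3 : γ * m ≤ e * (p * μ) / 1000 * m := mul_le_mul_of_nonneg_right hγ₀ m5.le
    have h4 : e * (p * μ * m / 5) ≤ e * ((vt T c).card : ℝ) := mul_le_mul_of_nonneg_left h2 he0.le
    have h5 : e * (p * μ) / 1000 * m * 200 = e * (p * μ * m / 5) := by ring
    linarith
  have h2x : ∀ c ∈ D \ D', 200 * (ms c).length ≤ (vt T c).card := by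
    intro c hcD
    have h1 := h1x c hcD
    have h2 : e * ((vt T c).card : ℝ) ≤ 1 * ((vt T c).card : ℝ) :=
      mul_le_mul_of_nonneg_right he1 (Nat.cast_nonneg _)
    have h3 : 200 * ((ms c).length : ℝ) ≤ ((vt T c).card : ℝ) := by linarith
    exact_mod_cast h3
  have hq : ∀ c ∈ D \ D', Multiset.card (Λ c) * K ≤ 2 * (vt T c).card := by
    intro c hcD
    obtain ⟨_, c2, c3, c4⟩ := hc c hcD
    have h2 := h2x c hcD
    exact fdA_q (ms c) (Λ c) W K _ _ (x3 c hcD) (by omega) (by omega) c3 c2 c4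
  have hKpos : 0 < K := by omega
  have harr' : ∀ c ∈ D \ D', ∃ d A : ℕ, d ≤ Multiset.card (Λ c) ∧
      siz (ms c) + (ms c).length + 2 * A + 3 * d = (Λ c).sum ∧
      ∀ dl al : List (Mem V), dl.length = d → al.length = A → (∀ m ∈ dl, m.2.2 = 2) →
        (∀ m ∈ al, m.2.2 = 1) →
        ∃ (L : List (Mem V)) (q : ℕ) (E : ℕ → ℕ), L.Perm (ms c ++ (dl ++ al)) ∧ E 0 = 0 ∧
          (∀ i < q, E i + 2 ≤ E (i + 1)) ∧ E q = L.length ∧
          (Multiset.range q).map
            (fun i => ∑ j ∈ Ico (E i) (E (i + 1)), ((L.map (fun m => m.2.2)).getD j 0 + 1)) = Λ c := by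
    intro c hcD
    obtain ⟨_, c2, c3, c4⟩ := hc c hcD
    have h2 := h2x c hcD
    have h3 := hq c hcD
    have h4 := x3 c hcD
    refine harr (Mem V) (fun m => m.2.2) W (ms c) (Λ c) c2.1 c2.2 ?_ ?_ ?_
    · intro h0
      rw [h0, Multiset.sum_zero] at c4
      omega
    · intro l hl
      have := c3 l hl
      omega
    · show siz (ms c) + (ms c).length + Multiset.card (Λ c) * (W + 6) ≤ (Λ c).sum
      have h5 : Multiset.card (Λ c) * (8 * (W + 6)) ≤ Multiset.card (Λ c) * K :=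
        Nat.mul_le_mul_left _ hK3
      have h6 : Multiset.card (Λ c) * (8 * (W + 6)) = 8 * (Multiset.card (Λ c) * (W + 6)) := by ring
      omega
  choose! d A hdq hdA hdarr using harr'
  have hx : ∀ c ∈ D \ D', (ms c).length + 2 * A c + 3 * d c = (vt T c).card := by
    intro c hcD
    have h1 := hdA c hcD
    have h2 := (hc c hcD).2.2.2
    omega
  have d1 : ∀ c ∈ D \ D', d c * K ≤ 2 * (vt T c).card := fun c hcD =>
    (Nat.mul_le_mul_right K (hdq c hcD)).trans (hq c hcD)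
  have d1' : ∀ c ∈ D \ D', (d c : ℝ) * K ≤ 2 * ((vt T c).card : ℝ) := by
    intro c hcD
    exact_mod_cast d1 c hcD
  have d2 : ∀ c ∈ D \ D', 50 * (d c : ℝ) ≤ e * ((vt T c).card : ℝ) := by
    intro c hcD
    have h1 := d1' c hcD
    have h2 : (d c : ℝ) * 100 ≤ d c * (K * e) := mul_le_mul_of_nonneg_left hKe (Nat.cast_nonneg _)
    have h3 : (d c : ℝ) * K * e ≤ 2 * ((vt T c).card : ℝ) * e := mul_le_mul_of_nonneg_right h1 he0.le
    nlinarith
  have d3 : ∀ c ∈ D \ D', (d c : ℝ) ≤ γ' * m := by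
    intro c hcD
    have h1 := d1' c hcD
    have h0 := x2 c hcD
    have h2 : (d c : ℝ) * 4 ≤ d c * (K * γ') := mul_le_mul_of_nonneg_left hKγ (Nat.cast_nonneg _)
    have h3 : (d c : ℝ) * K * γ' ≤ 4 * m * γ' := mul_le_mul_of_nonneg_right (by linarith) hγ'.le
    nlinarith
  have hAx : ∀ c ∈ D \ D', ((vt T c).card : ℝ) / 4 ≤ A c := by
    intro c hcD
    have h1 := h1x c hcD
    have h2 := d2 c hcD
    have h3 : e * ((vt T c).card : ℝ) ≤ 1 * ((vt T c).card : ℝ) :=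
      mul_le_mul_of_nonneg_right he1 (Nat.cast_nonneg _)
    have h4 : (((ms c).length : ℕ) : ℝ) + 2 * A c + 3 * d c = (vt T c).card := by
      exact_mod_cast hx c hcD
    linarith
  -- doubles
  obtain ⟨H0, hH0⟩ : ∃ H0 : V → V → Prop, ∀ u v, H0 u v ↔ (Sum.inl s(u, v) : Item V C) ∈ T :=
    ⟨_, fun _ _ => Iff.rfl⟩
  have hfil : ∀ c ∈ D \ D', ∀ u ∈ U', (3 / 4 + ε) * ((vt T c).card : ℝ) ≤
      (((vt T c \ U'').filter (fun v => H0 u v)).card : ℝ) := by
    intro c hcD u hu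
    refine (hL.uw u hu c hcD).trans ?_
    have h1 : (nb T u ∩ vt T c) \ U'' ⊆
        (vt T c \ U'').filter (fun v => H0 u v) := by
      intro v hv
      obtain ⟨h1, h2⟩ := mem_sdiff.1 hv
      obtain ⟨h3, h4⟩ := mem_inter.1 h1
      rw [mem_nb] at h3
      exact mem_filter.2 ⟨mem_sdiff.2 ⟨h4, h2⟩, (hH0 u v).2 h3⟩
    exact_mod_cast card_le_card h1
  obtain ⟨a, b, ab1, ab2, ab3, ab4⟩ := hD V C m (D \ D') (fun c => vt T c \ U'')
    H0 d m1 (by
      have h1 : (D \ D').card ≤ U.card := (card_le_card sdiff_subset).trans hL.Dhi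
      rw [hmd]
      exact_mod_cast h1) (by
      intro c hcD
      have h1 := hfil c hcD u₀ hu₀
      have h2 : (((vt T c \ U'').filter (fun v => H0 u₀ v)).card : ℝ) ≤
          ((vt T c \ U'').card : ℝ) := by exact_mod_cast card_le_card (filter_subset _ _)
      have h3 := x1 c hcD
      have h4 : 0 ≤ ε * ((vt T c).card : ℝ) := mul_nonneg hε.le (Nat.cast_nonneg _)
      refine ⟨?_, ?_⟩
      · have h5 : p * μ / 10 * m = p * μ * m / 10 := by ring
        nlinarith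
      · have h5 : (vt T c \ U'').card ≤ U'.card := card_le_card (sdiff_subset.trans (hvt c hcD))
        have h6 : ((vt T c \ U'').card : ℝ) ≤ U'.card := by exact_mod_cast h5
        linarith) (by
      intro u v h
      rw [hH0] at h ⊢
      rw [Sym2.eq_swap]
      exact h) (by
      intro c hcD u hu
      have h1 := hfil c hcD u (hvt c hcD (mem_sdiff.1 hu).1)
      have h2 : ((vt T c \ U'').card : ℝ) ≤ (vt T c).card := by exact_mod_cast card_le_card sdiff_subset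
      have h4 : 0 ≤ ε * ((vt T c).card : ℝ) := mul_nonneg hε.le (Nat.cast_nonneg _)
      have h5 : (0 : ℝ) ≤ ((vt T c).card : ℝ) := Nat.cast_nonneg _
      refine le_trans ?_ h1
      nlinarith) d3
  -- allowed edges
  obtain ⟨H, hH⟩ : ∃ H : V → V → Prop, ∀ u v, H u v ↔ ((Sum.inl s(u, v) : Item V C) ∈ T ∧
      ¬ (u ∈ U'' ∧ v ∈ U'') ∧ ∀ c ∈ D \ D', ∀ j < d c, s(u, v) ≠ s(a c j, b c j)) :=
    ⟨_, fun _ _ => Iff.rfl⟩
  have key : ∀ c ∈ D \ D', ∃ S P : Finset V, S ∪ P = vt T c \ ((range (d c)).image (a c) ∪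
      (range (d c)).image (b c)) ∧ Disjoint S P ∧ S.card = A c ∧
      P.card = A c + ((ms c).length + d c) ∧
      (∀ u ∈ U', (3/4 + ε / 4) * (P.card : ℝ) ≤ ((S.filter (fun v => H u v)).card : ℝ)) ∧
      (∀ u ∈ U', (3/4 + ε / 4) * (P.card : ℝ) ≤ ((P.filter (fun v => H u v)).card : ℝ)) := by
    intro c hcD
    have hsubZ : (range (d c)).image (a c) ∪ (range (d c)).image (b c) ⊆ vt T c := by
      intro v hv
      rcases mem_union.1 hv with h | h
      · obtain ⟨j, hj, rfl⟩ := mem_image.1 h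
        exact (mem_sdiff.1 (ab1 c hcD j (mem_range.1 hj)).1).1
      · obtain ⟨j, hj, rfl⟩ := mem_image.1 h
        exact (mem_sdiff.1 (ab1 c hcD j (mem_range.1 hj)).2.1).1
    have hZc : ((range (d c)).image (a c) ∪ (range (d c)).image (b c)).card = 2 * d c := by
      rw [card_union_of_disjoint, card_image_of_injOn, card_image_of_injOn, card_range]
      · ring
      · intro i hi j hj hij
        by_contra hne
        exact (ab2 c hcD i (mem_range.1 (mem_coe.1 hi)) j (mem_range.1 (mem_coe.1 hj)) hne).2.2 hij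
      · intro i hi j hj hij
        by_contra hne
        exact (ab2 c hcD i (mem_range.1 (mem_coe.1 hi)) j (mem_range.1 (mem_coe.1 hj)) hne).1 hij
      · rw [disjoint_left]
        intro v hv hv'
        obtain ⟨i, hi, h1⟩ := mem_image.1 hv
        obtain ⟨j, hj, h2⟩ := mem_image.1 hv'
        rw [mem_range] at hi hj
        by_cases hij : i = j
        · subst hij
          exact (ab1 c hcD i hi).2.2.1 (h1.trans h2.symm)
        · exact (ab2 c hcD i hi j hj hij).2.1 (h1.trans h2.symm)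
    set Z : Finset V := (range (d c)).image (a c) ∪ (range (d c)).image (b c) with hZ
    have hYc : (vt T c \ Z).card = 2 * A c + ((ms c).length + d c) := by
      have h1 := card_sdiff_add_card_eq_card hsubZ
      have h2 := hx c hcD
      omega
    have hA1 := hAx c hcD
    have hx1 := x1 c hcD
    have hxp : (0 : ℝ) < ((vt T c).card : ℝ) := by
      have h1 := x3 c hcD
      have h2 : 0 < (vt T c).card := by omega
      exact_mod_cast h2
    have hA0 : 0 < A c := by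
      have h1 : (0 : ℝ) < (A c : ℝ) := by linarith
      exact_mod_cast h1
    obtain ⟨S, P, hSP, hSPd, hS, hP, hdeg⟩ := hset V {u // u ∈ U'} (vt T c \ Z) (A c)
      ((ms c).length + d c) (fun u => (univ : Finset V).filter (fun v => H u.1 v)) (e / 16) hA0
      (by positivity) hYc (by
        have h1 : Fintype.card {u // u ∈ U'} = U'.card := Fintype.card_coe U'
        rw [h1]
        have h2 : κ * m ≤ (e / 16) ^ 2 * (A c : ℝ) / 2 := by
          rw [hκd]
          have h3 : p * μ * m / 20 ≤ (A c : ℝ) := by linarith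
          have h4 : (e / 16) ^ 2 * (p * μ * m / 20) ≤ (e / 16) ^ 2 * (A c : ℝ) :=
            mul_le_mul_of_nonneg_left h3 (by positivity)
          have h5 : (e / 16) ^ 2 * (p * μ / 40) * m = (e / 16) ^ 2 * (p * μ * m / 20) / 2 := by ring
          linarith
        have h3 : Real.exp (-((e / 16) ^ 2 * (A c : ℝ) / 2)) ≤ Real.exp (-(κ * m)) :=
          Real.exp_le_exp.2 (by linarith)
        have h4 : 4 * (U'.card : ℝ) * Real.exp (-((e / 16) ^ 2 * (A c : ℝ) / 2)) ≤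
            4 * m * Real.exp (-(κ * m)) :=
          mul_le_mul (by linarith) h3 (Real.exp_pos _).le (by linarith)
        exact lt_of_le_of_lt h4 (fdA_exp hκ m5 m4))
    have hYQ : ∀ u ∈ U', (3 / 4 + ε) * ((vt T c).card : ℝ) - 2 * d c - e * (p * μ) / 200 * m ≤
        (((vt T c \ Z) ∩ (univ : Finset V).filter (fun v => H u v)).card : ℝ) := by
      intro u hu
      have h1 : (vt T c \ U'').filter (fun v => H0 u v) ⊆
          ((vt T c \ Z) ∩ (univ : Finset V).filter (fun v => H u v)) ∪ (Z ∪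
          (univ : Finset V).filter (fun v => ∃ c ∈ D \ D', ∃ j < d c, s(u, v) = s(a c j, b c j))) := by
        intro v hv
        obtain ⟨hv1, hv2⟩ := mem_filter.1 hv
        obtain ⟨hv3, hv4⟩ := mem_sdiff.1 hv1
        rw [mem_union, mem_union]
        by_cases hvZ : v ∈ Z
        · exact Or.inr (Or.inl hvZ)
        · by_cases hb : ∃ c ∈ D \ D', ∃ j < d c, s(u, v) = s(a c j, b c j)
          · exact Or.inr (Or.inr (mem_filter.2 ⟨mem_univ _, hb⟩))
          · left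
            refine mem_inter.2 ⟨mem_sdiff.2 ⟨hv3, hvZ⟩, mem_filter.2 ⟨mem_univ _, ?_⟩⟩
            rw [hH]
            refine ⟨(hH0 u v).1 hv2, fun h => hv4 h.2, fun c' hc' j hj h => hb ⟨c', hc', j, hj, h⟩⟩
      have h2 := fdA_load (D \ D') d a b (fun c hc j hj => (ab1 c hc j hj).2.2.1) ab2 u
      have h3 := ab4 u
      have h4 := (card_le_card h1).trans ((card_union_le _ _).trans
        (Nat.add_le_add_left (card_union_le _ _) _))
      have h5 : ((((vt T c \ U'').filter (fun v => H0 u v)).card : ℕ) : ℝ) ≤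
          (((vt T c \ Z) ∩ (univ : Finset V).filter (fun v => H u v)).card : ℝ) + ((Z.card : ℝ) +
          (((univ : Finset V).filter (fun v => ∃ c ∈ D \ D', ∃ j < d c,
            s(u, v) = s(a c j, b c j))).card : ℝ)) := by exact_mod_cast h4
      have h6 : (((univ : Finset V).filter (fun v => ∃ c ∈ D \ D', ∃ j < d c,
            s(u, v) = s(a c j, b c j))).card : ℝ) ≤
          ((((D \ D').filter (fun c => ∃ j < d c, u = a c j ∨ u = b c j)).card : ℕ) : ℝ) := by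
        exact_mod_cast h2
      have h7 : (Z.card : ℝ) = 2 * d c := by
        rw [hZc]
        push_cast
        ring
      have h8 := hfil c hcD u hu
      have h9 : ((((D \ D').filter (fun c => ∃ j < d c, u = a c j ∨ u = b c j)).card : ℕ) : ℝ) ≤
          e * (p * μ) / 200 * m := h3
      linarith
    have hε4 : ε ≤ 1 / 4 := by
      have h1 := hfil c hcD u₀ hu₀
      have h2 : (((vt T c \ U'').filter (fun v => H0 u₀ v)).card : ℝ) ≤
          ((vt T c).card : ℝ) := by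
        exact_mod_cast card_le_card ((filter_subset _ _).trans sdiff_subset)
      by_contra h3
      push Not at h3
      nlinarith
    have hxR : (((ms c).length : ℕ) : ℝ) + 2 * A c + 3 * d c = (vt T c).card := by
      exact_mod_cast hx c hcD
    have hPR : (P.card : ℝ) = A c + ((ms c).length + d c) := by exact_mod_cast hP
    have hh := h1x c hcD
    have hd2 := d2 c hcD
    have hrr : (((ms c).length + d c : ℕ) : ℝ) = (ms c).length + d c := by push_cast; ring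
    have hex : 0 ≤ e * ((vt T c).card : ℝ) := mul_nonneg he0.le hxp.le
    have hθ : e * (p * μ) / 200 * m ≤ e * ((vt T c).card : ℝ) / 40 := by
      have h1 : e * (p * μ * m / 5) ≤ e * ((vt T c).card : ℝ) := mul_le_mul_of_nonneg_left hx1 he0.le
      have h2 : e * (p * μ) / 200 * m = e * (p * μ * m / 5) / 40 := by ring
      linarith
    have hξ : e / 16 * (A c : ℝ) ≤ e * ((vt T c).card : ℝ) / 32 := by
      have h0 : (0 : ℝ) ≤ ((ms c).length : ℝ) := Nat.cast_nonneg _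
      have h0' : (0 : ℝ) ≤ (d c : ℝ) := Nat.cast_nonneg _
      have h1 : (A c : ℝ) ≤ ((vt T c).card : ℝ) / 2 := by linarith
      have h2 : e * (A c : ℝ) ≤ e * (((vt T c).card : ℝ) / 2) := mul_le_mul_of_nonneg_left h1 he0.le
      linarith
    have hεx : e * ((vt T c).card : ℝ) ≤ ε * ((vt T c).card : ℝ) :=
      mul_le_mul_of_nonneg_right heε hxp.le
    have hfin : ∀ u ∈ U', (3/4 + ε / 4) * (P.card : ℝ) ≤
        (((vt T c \ Z) ∩ (univ : Finset V).filter (fun v => H u v)).card : ℝ) / 2 -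
          (((ms c).length + d c : ℕ) : ℝ) / 2 - e / 16 * (A c : ℝ) := by
      intro u hu
      have h1 := hYQ u hu
      have h0 : (0 : ℝ) ≤ ((ms c).length : ℝ) := Nat.cast_nonneg _
      have h0' : (0 : ℝ) ≤ (d c : ℝ) := Nat.cast_nonneg _
      have h2 : (P.card : ℝ) = (((vt T c).card : ℝ) + (ms c).length - d c) / 2 := by
        rw [hPR]
        linarith
      rw [hrr, h2]
      have h3 : (3/4 + ε / 4) * ((((vt T c).card : ℝ) + (ms c).length - d c) / 2) ≤
          (3/4 + ε / 4) * ((vt T c).card : ℝ) / 2 + (ms c).length / 2 := by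
        have h4 : (3/4 + ε / 4) * ((ms c).length : ℝ) ≤ 1 * ((ms c).length : ℝ) :=
          mul_le_mul_of_nonneg_right (by linarith) h0
        have h5 : 0 ≤ (3/4 + ε / 4) * (d c : ℝ) := mul_nonneg (by linarith) h0'
        linarith
      have h6 : (3/4 + ε / 4) * ((vt T c).card : ℝ) = 3 / 4 * ((vt T c).card : ℝ) +
          ε * ((vt T c).card : ℝ) / 4 := by ring
      have h7 : (3/4 + ε) * ((vt T c).card : ℝ) = 3 / 4 * ((vt T c).card : ℝ) +
          ε * ((vt T c).card : ℝ) := by ring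
      linarith
    refine ⟨S, P, hSP, hSPd, hS, hP, ?_, ?_⟩
    · intro u hu
      refine (hfin u hu).trans ((hdeg ⟨u, hu⟩).1.trans ?_)
      have h1 : S ∩ (univ : Finset V).filter (fun v => H u v) ⊆ S.filter (fun v => H u v) := by
        intro v hv
        obtain ⟨h2, h3⟩ := mem_inter.1 hv
        exact mem_filter.2 ⟨h2, (mem_filter.1 h3).2⟩
      exact_mod_cast card_le_card h1
    · intro u hu
      refine (hfin u hu).trans ((hdeg ⟨u, hu⟩).2.trans ?_)
      have h1 : P ∩ (univ : Finset V).filter (fun v => H u v) ⊆ P.filter (fun v => H u v) := by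
        intro v hv
        obtain ⟨h2, h3⟩ := mem_inter.1 hv
        exact mem_filter.2 ⟨h2, (mem_filter.1 h3).2⟩
      exact_mod_cast card_le_card h1
  choose! S P hSP hSPd hS hP hdS hdP using key
  have hSPm : ∀ c ∈ D \ D', ∀ v, (v ∈ S c ∨ v ∈ P c) ↔ v ∈ vt T c ∧ ¬ ∃ j < d c, v = a c j ∨ v = b c j := by
    intro c hcD v
    rw [← mem_union, hSP c hcD, mem_sdiff, mem_union, mem_image, mem_image]
    refine and_congr Iff.rfl (not_congr ?_)
    constructor
    · rintro (⟨j, hj, h⟩ | ⟨j, hj, h⟩)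
      · exact ⟨j, mem_range.1 hj, Or.inl h.symm⟩
      · exact ⟨j, mem_range.1 hj, Or.inr h.symm⟩
    · rintro ⟨j, hj, h | h⟩
      · exact Or.inl ⟨j, mem_range.2 hj, h.symm⟩
      · exact Or.inr ⟨j, mem_range.2 hj, h.symm⟩
  refine ⟨d, A, a, b, S, P, H, ?_⟩
  constructor
  · intro u v h
    rw [hH] at h ⊢
    rw [Sym2.eq_swap]
    exact ⟨h.1, fun h' => h.2.1 ⟨h'.2, h'.1⟩, h.2.2⟩
  · intro u v h
    rw [hH] at h
    exact ⟨h.1, h.2.1⟩
  · intro c hcD j hj u v h
    rw [hH] at h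
    exact h.2.2 c hcD j hj
  · intro c hcD j hj
    obtain ⟨h1, h2, h3, h4⟩ := ab1 c hcD j hj
    exact ⟨(hH0 _ _).1 h4, h1, h2, h3⟩
  · exact ab2
  · exact ab3
  · intro c hcD v
    constructor
    · intro hv
      by_cases h : ∃ j < d c, v = a c j ∨ v = b c j
      · exact Or.inr (Or.inr h)
      · rcases (hSPm c hcD v).2 ⟨hv, h⟩ with h1 | h1
        · exact Or.inl h1
        · exact Or.inr (Or.inl h1)
    · rintro (h | h | ⟨j, hj, h | h⟩)
      · exact ((hSPm c hcD v).1 (Or.inl h)).1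
      · exact ((hSPm c hcD v).1 (Or.inr h)).1
      · rw [h]
        exact (mem_sdiff.1 (ab1 c hcD j hj).1).1
      · rw [h]
        exact (mem_sdiff.1 (ab1 c hcD j hj).2.1).1
  · exact hSPd
  · intro c hcD j hj
    refine ⟨fun h => ?_, fun h => ?_, fun h => ?_, fun h => ?_⟩
    · exact ((hSPm c hcD _).1 (Or.inl h)).2 ⟨j, hj, Or.inl rfl⟩
    · exact ((hSPm c hcD _).1 (Or.inl h)).2 ⟨j, hj, Or.inr rfl⟩
    · exact ((hSPm c hcD _).1 (Or.inr h)).2 ⟨j, hj, Or.inl rfl⟩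
    · exact ((hSPm c hcD _).1 (Or.inr h)).2 ⟨j, hj, Or.inr rfl⟩
  · exact hS
  · intro c hcD
    rw [hP c hcD]
    ring
  · intro c hcD
    have h1 := hAx c hcD
    have h2 := (hL.wc c hcD).1
    have h3 : ((P c).card : ℝ) = A c + ((ms c).length + d c) := by exact_mod_cast hP c hcD
    have h0 : (0 : ℝ) ≤ ((ms c).length : ℝ) := Nat.cast_nonneg _
    have h0' : (0 : ℝ) ≤ (d c : ℝ) := Nat.cast_nonneg _
    have h4 : 0 ≤ p * (U'.card : ℝ) := mul_nonneg hp.le (Nat.cast_nonneg _)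
    linarith
  · exact hdS
  · exact hdP
  · exact hdarr

end Pool.Agent.OBX
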