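import Pool.Agent.OBX.PBa

/-!
MODULE PBc (difficulty 3).  Gluing two paths by an edge; closing a path by an edge.

RECIPE: `pit_add`: ext, cases on edge / pair, split the index at `s - 1` resp. `s`.  `path_append`: `z'' i = if i < s then z i else z' (i - s)`; injective because the pairs `(z i, c)` and
`(z' j, c)` are different (`Disjoint q q'`).  `path_close`: `cyc n z c = pit n z c ∪ {inl s(z (n-1), z 0)}` (the edge `i = n - 1` of `cyc` is `s(z (n-1), z (n % n)) = s(z (n-1), z 0)`).
-/

set_option autoImplicit false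

namespace Pool.Agent.OBX

open Finset Pool.Agent.OBW

section
variable {V C : Type} [DecidableEq V] [DecidableEq C]

theorem pit_add {s t : ℕ} (hs : 1 ≤ s) (ht : 1 ≤ t) (z : ℕ → V) (c : C) :
    pit (s + t) z c = pit s z c ∪ pit t (fun i => z (s + i)) c ∪
      {(Sum.inl s(z (s - 1), z s) : Item V C)} := by
  ext x
  rcases x with e | ⟨v, d⟩
  · rw [mem_union, mem_union, mem_pit_inl, mem_pit_inl, mem_pit_inl, mem_singleton]
    constructor
    · rintro ⟨i, hi, rfl⟩
      by_cases h1 : i < s - 1
      · exact Or.inl (Or.inl ⟨i, h1, rfl⟩)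
      · by_cases h2 : i = s - 1
        · right
          subst h2
          rw [Nat.sub_add_cancel hs]
        · left; right
          refine ⟨i - s, by omega, ?_⟩
          have e1 : s + (i - s) = i := by omega
          have e2 : s + (i - s + 1) = i + 1 := by omega
          simp only [e1, e2]
    · rintro ((⟨i, hi, rfl⟩ | ⟨i, hi, rfl⟩) | h)
      · exact ⟨i, by omega, rfl⟩
      · exact ⟨s + i, by omega, rfl⟩
      · refine ⟨s - 1, by omega, ?_⟩
        rw [Nat.sub_add_cancel hs]
        exact Sum.inl.inj h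
  · rw [mem_union, mem_union, mem_pit_inr, mem_pit_inr, mem_pit_inr, mem_singleton]
    constructor
    · rintro ⟨rfl, i, hi, rfl⟩
      by_cases h1 : i < s
      · exact Or.inl (Or.inl ⟨rfl, i, h1, rfl⟩)
      · refine Or.inl (Or.inr ⟨rfl, i - s, by omega, ?_⟩)
        have e1 : s + (i - s) = i := by omega
        simp only [e1]
    · rintro ((⟨rfl, i, hi, rfl⟩ | ⟨rfl, i, hi, rfl⟩) | h)
      · exact ⟨rfl, i, by omega, rfl⟩
      · exact ⟨rfl, s + i, by omega, rfl⟩
      · exact absurd h (by simp)

theorem pbc_congr {s : ℕ} {z w : ℕ → V} (c : C) (h : ∀ i < s, z i = w i) : pit s z c = pit s w c := by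
  ext x
  rcases x with e | ⟨v, d⟩
  · rw [mem_pit_inl, mem_pit_inl]
    constructor
    · rintro ⟨i, hi, rfl⟩
      exact ⟨i, hi, by rw [h i (by omega), h (i + 1) (by omega)]⟩
    · rintro ⟨i, hi, rfl⟩
      exact ⟨i, hi, by rw [h i (by omega), h (i + 1) (by omega)]⟩
  · rw [mem_pit_inr, mem_pit_inr]
    constructor
    · rintro ⟨rfl, i, hi, rfl⟩
      exact ⟨rfl, i, hi, h i hi⟩
    · rintro ⟨rfl, i, hi, rfl⟩
      exact ⟨rfl, i, hi, (h i hi).symm⟩

theorem path_append {s t : ℕ} {c : C} {a b a' b' : V} {q q' : Finset (Item V C)}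
    (h : IsPath s c a b q) (h' : IsPath t c a' b' q') (hd : Disjoint q q') :
    IsPath (s + t) c a b' (q ∪ q' ∪ {(Sum.inl s(b, a') : Item V C)}) := by
  obtain ⟨hs, z, hz, ha, hb, rfl⟩ := h
  obtain ⟨ht, z', hz', ha', hb', rfl⟩ := h'
  refine ⟨by omega, fun i => if i < s then z i else z' (i - s), ?_, ?_, ?_, ?_⟩
  · have key : ∀ i j, i < s → j < t → z i ≠ z' j := by
      intro i j hi hj e
      have m1 : (Sum.inr (z i, c) : Item V C) ∈ pit s z c := mem_pit_inr.2 ⟨rfl, i, hi, rfl⟩
      have m2 : (Sum.inr (z i, c) : Item V C) ∈ pit t z' c := mem_pit_inr.2 ⟨rfl, j, hj, e⟩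
      exact Finset.disjoint_left.1 hd m1 m2
    intro i hi j hj hij
    have hi' : i < s + t := Set.mem_Iio.1 hi
    have hj' : j < s + t := Set.mem_Iio.1 hj
    by_cases h1 : i < s <;> by_cases h2 : j < s
    · simp only [h1, h2, if_true] at hij
      exact hz (Set.mem_Iio.2 h1) (Set.mem_Iio.2 h2) hij
    · simp only [h1, h2, if_true, if_false] at hij
      exact absurd hij (key i (j - s) h1 (by omega))
    · simp only [h1, h2, if_true, if_false] at hij
      exact absurd hij.symm (key j (i - s) h2 (by omega))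
    · simp only [h1, h2, if_false] at hij
      have := hz' (Set.mem_Iio.2 (by omega : i - s < t)) (Set.mem_Iio.2 (by omega : j - s < t)) hij
      omega
  · have : (0 : ℕ) < s := by omega
    simp only [this, if_true]
    exact ha
  · have h1 : ¬ (s + t - 1 < s) := by omega
    have h2 : s + t - 1 - s = t - 1 := by omega
    simp only [h1, if_false, h2]
    exact hb'
  · rw [pit_add hs ht]
    have e1 : pit s (fun i => if i < s then z i else z' (i - s)) c = pit s z c := by
      apply pbc_congr
      intro i hi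
      simp only [hi, if_true]
    have e2 : pit t (fun i => (fun i => if i < s then z i else z' (i - s)) (s + i)) c = pit t z' c := by
      apply pbc_congr
      intro i hi
      have h1 : ¬ (s + i < s) := by omega
      have h2 : s + i - s = i := by omega
      simp only [h1, if_false, h2]
    rw [e1, e2]
    have h1 : s - 1 < s := by omega
    have h2 : ¬ (s < s) := by omega
    simp only [h1, if_true, h2, if_false, Nat.sub_self]
    rw [hb, ha']

theorem path_close {n : ℕ} {c : C} {a b : V} {q : Finset (Item V C)} (h : IsPath n c a b q)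
    (hn : 3 ≤ n) : IsPiece n c (q ∪ {(Sum.inl s(b, a) : Item V C)}) := by
  obtain ⟨hs, z, hz, ha, hb, rfl⟩ := h
  refine ⟨hn, z, hz, ?_⟩
  ext x
  unfold cyc
  rcases x with e | ⟨v, d⟩
  · rw [mem_union, mem_union, mem_pit_inl, mem_singleton, mem_image, mem_image]
    constructor
    · rintro (⟨i, hi, rfl⟩ | h)
      · left
        refine ⟨i, mem_range.2 (by omega), ?_⟩
        rw [Nat.mod_eq_of_lt (by omega)]
      · left
        refine ⟨n - 1, mem_range.2 (by omega), ?_⟩
        rw [h, Nat.sub_add_cancel hs, Nat.mod_self, hb, ha]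
    · rintro (⟨i, hi, he⟩ | ⟨i, hi, he⟩)
      · have hi' := mem_range.1 hi
        have he' := Sum.inl.inj he
        by_cases h1 : i = n - 1
        · right
          subst h1
          rw [Nat.sub_add_cancel hs, Nat.mod_self, hb, ha] at he'
          rw [he']
        · left
          refine ⟨i, by omega, ?_⟩
          rw [Nat.mod_eq_of_lt (by omega)] at he'
          exact he'.symm
      · exact absurd he (by simp)
  · rw [mem_union, mem_union, mem_pit_inr, mem_singleton, mem_image, mem_image]
    constructor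
    · rintro (⟨rfl, i, hi, rfl⟩ | h)
      · exact Or.inr ⟨i, mem_range.2 hi, rfl⟩
      · exact absurd h (by simp)
    · rintro (⟨i, hi, he⟩ | ⟨i, hi, he⟩)
      · exact absurd he (by simp)
      · have he' := Sum.inr.inj he
        rw [Prod.mk.injEq] at he'
        exact Or.inl ⟨he'.2.symm, i, mem_range.1 hi, he'.1.symm⟩

end

end Pool.Agent.OBX
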