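import Pool.Agent.OBX.PBb
import Pool.Agent.OBX.PBc

/-!
MODULE LKa (difficulty 3).  Basic facts on links.

RECIPE: `g = q ∪ {s(a,x), s(y,b)}`, `q` a path from `x` to `y`.  `link_symm`: `path_symm`.  `link_bal`: `path_bal` for `q`; the edge `s(a,x)` adds the neighbour `x` to `a` and `a` to `x`, the edge
`s(y,b)` similarly; the two edges are not in `q` (`path_ends`: the pairs of `a`, `b` are not in `q`) and different (`a ≠ b`, `a ≠ y`).
-/

set_option autoImplicit false

namespace Pool.Agent.OBX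

open Finset Pool.Agent.OBW

section
variable {V C : Type} [DecidableEq V] [DecidableEq C]

theorem lka_inr {a b x y v : V} {d : C} {q : Finset (Item V C)} :
    (Sum.inr (v, d) : Item V C) ∈ q ∪ {Sum.inl s(a, x), Sum.inl s(y, b)} ↔ (Sum.inr (v, d) : Item V C) ∈ q := by
  simp

theorem lka_inl {a b x y : V} {e : Sym2 V} {q : Finset (Item V C)} :
    (Sum.inl e : Item V C) ∈ q ∪ {Sum.inl s(a, x), Sum.inl s(y, b)} ↔
      (Sum.inl e : Item V C) ∈ q ∨ e = s(a, x) ∨ e = s(y, b) := by
  rw [mem_union, mem_insert, mem_singleton, Sum.inl.injEq, Sum.inl.injEq]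

theorem link_pos {t : ℕ} {c : C} {a b : V} {g : Finset (Item V C)} (h : IsLink t c a b g) :
    1 ≤ t := by
  obtain ⟨_, x, y, q, hq, _, _, rfl⟩ := h
  exact hq.1

theorem link_symm {t : ℕ} {c : C} {a b : V} {g : Finset (Item V C)} (h : IsLink t c a b g) :
    IsLink t c b a g := by
  obtain ⟨hab, x, y, q, hq, h1, h2, rfl⟩ := h
  refine ⟨hab.symm, y, x, q, path_symm hq, h2, h1, ?_⟩
  rw [Finset.pair_comm, Sym2.eq_swap (a := a), Sym2.eq_swap (a := y)]

theorem link_col {t : ℕ} {c d : C} {a b v : V} {g : Finset (Item V C)} (h : IsLink t c a b g)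
    (hv : (Sum.inr (v, d) : Item V C) ∈ g) : d = c := by
  obtain ⟨_, x, y, q, hq, _, _, rfl⟩ := h
  exact path_col hq (lka_inr.1 hv)

theorem link_not {t : ℕ} {c : C} {a b : V} {g : Finset (Item V C)} (h : IsLink t c a b g) :
    (Sum.inr (a, c) : Item V C) ∉ g ∧ (Sum.inr (b, c) : Item V C) ∉ g := by
  obtain ⟨_, x, y, q, hq, h1, h2, rfl⟩ := h
  exact ⟨fun h => h1 (lka_inr.1 h), fun h => h2 (lka_inr.1 h)⟩

theorem link_ends {t : ℕ} {c : C} {a b u v : V} {g : Finset (Item V C)} (h : IsLink t c a b g)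
    (he : (Sum.inl s(u, v) : Item V C) ∈ g) :
    u ≠ v ∧ (u = a ∨ u = b ∨ (Sum.inr (u, c) : Item V C) ∈ g) ∧
      (v = a ∨ v = b ∨ (Sum.inr (v, c) : Item V C) ∈ g) := by
  obtain ⟨hab, x, y, q, hq, h1, h2, rfl⟩ := h
  have hx : (Sum.inr (x, c) : Item V C) ∈ q := path_left hq
  have hy : (Sum.inr (y, c) : Item V C) ∈ q := path_right hq
  have hax : a ≠ x := by rintro rfl; exact h1 hx
  have hyb : y ≠ b := by rintro rfl; exact h2 hy
  rw [lka_inr, lka_inr]
  rcases lka_inl.1 he with he | he | he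
  · obtain ⟨e1, e2, e3⟩ := path_ends hq he
    exact ⟨e1, Or.inr (Or.inr e2), Or.inr (Or.inr e3)⟩
  · rcases Sym2.eq_iff.1 he with ⟨rfl, rfl⟩ | ⟨rfl, rfl⟩
    · exact ⟨hax, Or.inl rfl, Or.inr (Or.inr hx)⟩
    · exact ⟨hax.symm, Or.inr (Or.inr hx), Or.inl rfl⟩
  · rcases Sym2.eq_iff.1 he with ⟨rfl, rfl⟩ | ⟨rfl, rfl⟩
    · exact ⟨hyb, Or.inr (Or.inr hy), Or.inr (Or.inl rfl)⟩
    · exact ⟨hyb.symm, Or.inr (Or.inl rfl), Or.inr (Or.inr hy)⟩

end

section
variable {V C : Type} [Fintype V] [DecidableEq V] [Fintype C] [DecidableEq C]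

theorem lka_vt {a b x y : V} {q : Finset (Item V C)} (d : C) :
    vt (q ∪ {Sum.inl s(a, x), Sum.inl s(y, b)}) d = vt q d := by
  ext v
  simp only [vt, mem_filter, mem_univ, true_and]
  exact lka_inr

theorem lka_cl {a b x y : V} {q : Finset (Item V C)} (v : V) :
    cl (q ∪ {Sum.inl s(a, x), Sum.inl s(y, b)}) v = cl q v := by
  ext d
  simp only [cl, mem_filter, mem_univ, true_and]
  exact lka_inr

theorem link_vt_card {t : ℕ} {c : C} {a b : V} {g : Finset (Item V C)} (h : IsLink t c a b g) :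
    (vt g c).card = t := by
  obtain ⟨_, x, y, q, hq, _, _, rfl⟩ := h
  rw [lka_vt]
  exact path_vt_card hq

theorem link_vt_ne {t : ℕ} {c d : C} {a b : V} {g : Finset (Item V C)} (h : IsLink t c a b g)
    (hd : d ≠ c) : vt g d = ∅ := by
  obtain ⟨_, x, y, q, hq, _, _, rfl⟩ := h
  rw [lka_vt]
  exact path_vt_ne hq hd

theorem lka_mem {S : Finset (Item V C)} {a x v u : V} :
    u ∈ nb (S ∪ {Sum.inl s(a, x)}) v ↔ (u ∈ nb S v ∨ (v = a ∧ u = x) ∨ (v = x ∧ u = a)) := by
  unfold nb
  rw [mem_filter, mem_filter, mem_union, mem_singleton, Sum.inl.injEq, Sym2.eq_iff]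
  constructor
  · rintro ⟨_, h | h⟩
    · exact Or.inl ⟨mem_univ _, h⟩
    · exact Or.inr h
  · rintro (⟨_, h⟩ | h)
    · exact ⟨mem_univ _, Or.inl h⟩
    · exact ⟨mem_univ _, Or.inr h⟩

/-- one new edge -/
theorem lka_edge {S : Finset (Item V C)} {a x : V} (hax : a ≠ x) (hn : (Sum.inl s(a, x) : Item V C) ∉ S) (v : V) :
    (nb (S ∪ {Sum.inl s(a, x)}) v).card = (nb S v).card + (if a = v then 1 else 0) + (if x = v then 1 else 0) := by
  by_cases h1 : a = v
  · subst h1
    have h2 : ¬ (x = a) := fun h => hax h.symm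
    rw [if_pos rfl, if_neg h2]
    have e : nb (S ∪ {Sum.inl s(a, x)}) a = insert x (nb S a) := by
      ext u
      rw [lka_mem, mem_insert]
      constructor
      · rintro (h | ⟨_, h⟩ | ⟨h, _⟩)
        · exact Or.inr h
        · exact Or.inl h
        · exact absurd h hax
      · rintro (h | h)
        · exact Or.inr (Or.inl ⟨rfl, h⟩)
        · exact Or.inl h
    rw [e, card_insert_of_notMem]
    intro h
    exact hn (mem_filter.1 h).2
  · by_cases h2 : x = v
    · subst h2
      rw [if_neg h1, if_pos rfl]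
      have e : nb (S ∪ {Sum.inl s(a, x)}) x = insert a (nb S x) := by
        ext u
        rw [lka_mem, mem_insert]
        constructor
        · rintro (h | ⟨h, _⟩ | ⟨_, h⟩)
          · exact Or.inr h
          · exact absurd h.symm hax
          · exact Or.inl h
        · rintro (h | h)
          · exact Or.inr (Or.inr ⟨rfl, h⟩)
          · exact Or.inl h
      rw [e, card_insert_of_notMem]
      intro h
      apply hn
      rw [Sym2.eq_swap]
      exact (mem_filter.1 h).2
    · rw [if_neg h1, if_neg h2]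
      have e : nb (S ∪ {Sum.inl s(a, x)}) v = nb S v := by
        ext u
        rw [lka_mem]
        constructor
        · rintro (h | ⟨h, _⟩ | ⟨h, _⟩)
          · exact h
          · exact absurd h.symm h1
          · exact absurd h.symm h2
        · exact Or.inl
      rw [e]
      rfl

theorem link_bal {t : ℕ} {c : C} {a b : V} {g : Finset (Item V C)} (h : IsLink t c a b g) (v : V) :
    (nb g v).card = 2 * (cl g v).card + (if a = v then 1 else 0) + (if b = v then 1 else 0) := by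
  obtain ⟨hab, x, y, q, hq, h1, h2, rfl⟩ := h
  have hx : (Sum.inr (x, c) : Item V C) ∈ q := path_left hq
  have hy : (Sum.inr (y, c) : Item V C) ∈ q := path_right hq
  have hax : a ≠ x := by rintro rfl; exact h1 hx
  have hay : a ≠ y := by rintro rfl; exact h1 hy
  have hyb : y ≠ b := by rintro rfl; exact h2 hy
  have n1 : (Sum.inl s(a, x) : Item V C) ∉ q := fun h => h1 (path_ends hq h).2.1
  have n2 : (Sum.inl s(y, b) : Item V C) ∉ q := fun h => h2 (path_ends hq h).2.2
  have n3 : (Sum.inl s(y, b) : Item V C) ∉ q ∪ {Sum.inl s(a, x)} := by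
    rw [mem_union, mem_singleton]
    rintro (h | h)
    · exact n2 h
    · rcases Sym2.eq_iff.1 (Sum.inl.inj h) with ⟨e, _⟩ | ⟨_, e⟩
      · exact hay e.symm
      · exact hab e.symm
  rw [lka_cl]
  have e : q ∪ {Sum.inl s(a, x), Sum.inl s(y, b)} = (q ∪ {Sum.inl s(a, x)}) ∪ {(Sum.inl s(y, b) : Item V C)} := by
    rw [union_assoc]
    rfl
  rw [e, lka_edge hyb n3, lka_edge hax n1]
  have := path_bal hq v
  omega

end

end Pool.Agent.OBX
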