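import Pool.Agent.OBX.FdStmts
import Pool.Agent.OBX.RealB
import Pool.Agent.OBX.LKa

set_option autoImplicit false
set_option linter.unusedSectionVars false
set_option linter.unusedVariables false

/-!
MODULE FdB (difficulty 4).  Tokens and the final sets.
-/

namespace Pool.Agent.OBX

open Finset Pool.Agent.OBW

section
variable {V C : Type} [DecidableEq V] [DecidableEq C]

theorem fb_real_dl {c : C} {d : ℕ} {a b : ℕ → V} (h1 : ∀ j < d, a j ≠ b j)
    (h2 : ∀ i < d, ∀ j < d, i ≠ j → a i ≠ a j ∧ a i ≠ b j ∧ b i ≠ b j) :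
    Real c ((List.range d).map (fun j => ((a j, b j, 2) : Mem V)))
      ((range d).biUnion (fun j => ({Sum.inl s(a j, b j), Sum.inr (a j, c), Sum.inr (b j, c)} :
        Finset (Item V C)))) := by
  refine ⟨fun j => ({Sum.inl s(a j, b j), Sum.inr (a j, c), Sum.inr (b j, c)} :
        Finset (Item V C)), ?_, ?_, ?_⟩
  · intro i hi
    have hi' : i < d := by simpa using hi
    simp only [List.getElem_map, List.getElem_range]
    exact isPath_two c (h1 i hi')
  · intro i hi j hj hij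
    have hi' : i < d := by simpa using hi
    have hj' : j < d := by simpa using hj
    obtain ⟨e1, e2, e3⟩ := h2 i hi' j hj' hij
    obtain ⟨f1, f2, f3⟩ := h2 j hj' i hi' hij.symm
    rw [Finset.disjoint_left]
    intro x hx hx'
    simp only [mem_insert, mem_singleton] at hx hx'
    rcases hx with rfl | rfl | rfl
    · rcases hx' with h | h | h
      · have := Sum.inl.inj h
        rw [Sym2.eq_iff] at this
        rcases this with ⟨h, _⟩ | ⟨h, _⟩
        · exact e1 h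
        · exact e2 h
      · simp at h
      · simp at h
    · rcases hx' with h | h | h
      · simp at h
      · have := Sum.inr.inj h
        rw [Prod.mk.injEq] at this
        exact e1 this.1
      · have := Sum.inr.inj h
        rw [Prod.mk.injEq] at this
        exact e2 this.1
    · rcases hx' with h | h | h
      · simp at h
      · have := Sum.inr.inj h
        rw [Prod.mk.injEq] at this
        exact f2 this.1.symm
      · have := Sum.inr.inj h
        rw [Prod.mk.injEq] at this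
        exact e3 this.1
  · simp

theorem fb_real_al' {c : C} (l : List V) (hl : l.Nodup) :
    Real c (l.map (fun x => ((x, x, 1) : Mem V)))
      (l.toFinset.image (fun x => (Sum.inr (x, c) : Item V C))) := by
  induction l with
  | nil => simpa using real_nil c
  | cons x l ih =>
    rw [List.nodup_cons] at hl
    have h := real_cons (m := ((x, x, 1) : Mem V)) (isPath_one c x) (ih hl.2) (by
      rw [Finset.disjoint_left]
      intro y hy hy'
      rw [mem_singleton] at hy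
      subst hy
      rw [mem_image] at hy'
      obtain ⟨z, hz, he⟩ := hy'
      have := Sum.inr.inj he
      rw [Prod.mk.injEq] at this
      rw [this.1, List.mem_toFinset] at hz
      exact hl.1 hz)
    rw [List.map_cons]
    have e : ((x :: l).toFinset.image (fun x => (Sum.inr (x, c) : Item V C))) =
        {Sum.inr (x, c)} ∪ (l.toFinset.image (fun x => (Sum.inr (x, c) : Item V C))) := by
      rw [List.toFinset_cons, image_insert, insert_eq]
    rw [e]
    exact h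

theorem fb_real_al {c : C} (S : Finset V) :
    Real c (S.toList.map (fun x => ((x, x, 1) : Mem V)))
      (S.image (fun x => (Sum.inr (x, c) : Item V C))) := by
  have := fb_real_al' (c := c) S.toList S.nodup_toList
  rwa [Finset.toList_toFinset] at this

/-- relation: no common ends -/
def Apt (m m' : Mem V) : Prop := m.1 ≠ m'.1 ∧ m.1 ≠ m'.2.1 ∧ m.2.1 ≠ m'.1 ∧ m.2.1 ≠ m'.2.1

theorem Apt.symm {m m' : Mem V} (h : Apt m m') : Apt m' m :=
  ⟨h.1.symm, h.2.2.1.symm, h.2.1.symm, h.2.2.2.symm⟩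

theorem fb_pairwise {ms : List (Mem V)} {d : ℕ} {a b : ℕ → V} {S X : Finset V}
    (hms : ms.Pairwise (fun m m' => m.1 ≠ m'.1 ∧ m.1 ≠ m'.2.1 ∧ m.2.1 ≠ m'.1 ∧ m.2.1 ≠ m'.2.1))
    (hmX : ∀ m ∈ ms, m.1 ∉ X ∧ m.2.1 ∉ X)
    (h2 : ∀ i < d, ∀ j < d, i ≠ j → a i ≠ a j ∧ a i ≠ b j ∧ b i ≠ b j)
    (haX : ∀ j < d, a j ∈ X ∧ b j ∈ X) (hSX : S ⊆ X) (haS : ∀ j < d, a j ∉ S ∧ b j ∉ S) :
    (ms ++ ((List.range d).map (fun j => ((a j, b j, 2) : Mem V)) ++
      S.toList.map (fun x => ((x, x, 1) : Mem V)))).Pairwise Apt := by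
  rw [List.pairwise_append, List.pairwise_append]
  refine ⟨hms, ⟨?_, ?_, ?_⟩, ?_⟩
  · rw [List.pairwise_map]
    have : (List.range d).Pairwise (fun i j => i < d ∧ j < d ∧ i ≠ j) := by
      rw [List.pairwise_iff_getElem]
      intro i j hi hj hij
      simp only [List.getElem_range]
      simp only [List.length_range] at hi hj
      exact ⟨hi, hj, hij.ne⟩
    refine this.imp ?_
    rintro i j ⟨hi, hj, hij⟩
    obtain ⟨e1, e2, e3⟩ := h2 i hi j hj hij
    obtain ⟨f1, f2, f3⟩ := h2 j hj i hi hij.symm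
    exact ⟨e1, e2, f2.symm, e3⟩
  · rw [List.pairwise_map]
    exact S.nodup_toList.imp (fun h => ⟨h, h, h, h⟩)
  · intro m hm m' hm'
    rw [List.mem_map] at hm hm'
    obtain ⟨j, hj, rfl⟩ := hm
    obtain ⟨x, hx, rfl⟩ := hm'
    rw [List.mem_range] at hj
    rw [mem_toList] at hx
    obtain ⟨e1, e2⟩ := haS j hj
    have k1 : a j ≠ x := fun h => e1 (h ▸ hx)
    have k2 : b j ≠ x := fun h => e2 (h ▸ hx)
    exact ⟨k1, k1, k2, k2⟩
  · intro m hm m' hm'
    obtain ⟨e1, e2⟩ := hmX m hm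
    have hm2 : m'.1 ∈ X ∧ m'.2.1 ∈ X := by
      rw [List.mem_append, List.mem_map, List.mem_map] at hm'
      rcases hm' with ⟨j, hj, rfl⟩ | ⟨x, hx, rfl⟩
      · rw [List.mem_range] at hj
        exact haX j hj
      · rw [mem_toList] at hx
        exact ⟨hSX hx, hSX hx⟩
    exact ⟨fun h => e1 (h ▸ hm2.1), fun h => e1 (h ▸ hm2.2), fun h => e2 (h ▸ hm2.1),
      fun h => e2 (h ▸ hm2.2)⟩

theorem fb_getD {L : List (Mem V)} {m₀ : Mem V} (h : L.Pairwise Apt) :
    ∀ i < L.length, ∀ j < L.length, i ≠ j → Apt (L.getD i m₀) (L.getD j m₀) := by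
  intro i hi j hj hij
  rw [List.pairwise_iff_getElem] at h
  rw [List.getD_eq_getElem _ _ hi, List.getD_eq_getElem _ _ hj]
  rcases lt_or_gt_of_ne hij with hlt | hlt
  · exact h i j hi hj hlt
  · exact (h j i hj hi hlt).symm

theorem fb_map_getD {L : List (Mem V)} {m₀ : Mem V} :
    (List.range L.length).map (fun j => (((L.getD j m₀).1, (L.getD j m₀).2.1, (L.getD j m₀).2.2) : Mem V))
      = L := by
  apply List.ext_getElem
  · simp
  · intro i h1 h2
    simp only [List.getElem_map, List.getElem_range]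
    rw [List.getD_eq_getElem _ _ h2]

theorem fb_lst (hnx : NxStmt) {ms : List (Mem V)} {d A : ℕ} {a b : ℕ → V} {S P X : Finset V}
    {Λ : Multiset ℕ} (v₀ : V) (hsep : Sep ms) (hmX : ∀ m ∈ ms, m.1 ∉ X ∧ m.2.1 ∉ X)
    (h2 : ∀ i < d, ∀ j < d, i ≠ j → a i ≠ a j ∧ a i ≠ b j ∧ b i ≠ b j)
    (hX : ∀ v, v ∈ X ↔ (v ∈ S ∨ v ∈ P ∨ ∃ j < d, v = a j ∨ v = b j)) (hSP : Disjoint S P)
    (hSd : ∀ j < d, a j ∉ S ∧ b j ∉ S ∧ a j ∉ P ∧ b j ∉ P) (hSc : S.card = A)
    (hPc : P.card = ms.length + (d + A))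
    (harr : ∀ dl al : List (Mem V), dl.length = d → al.length = A →
      (∀ m ∈ dl, m.2.2 = 2) → (∀ m ∈ al, m.2.2 = 1) →
      ∃ (L : List (Mem V)) (q : ℕ) (E : ℕ → ℕ), L.Perm (ms ++ (dl ++ al)) ∧ E 0 = 0 ∧
        (∀ i < q, E i + 2 ≤ E (i + 1)) ∧ E q = L.length ∧
        (Multiset.range q).map
          (fun i => ∑ j ∈ Ico (E i) (E (i + 1)), ((L.map (fun m => m.2.2)).getD j 0 + 1)) = Λ) :
    ∃ (q : ℕ) (E nx : ℕ → ℕ) (el er : ℕ → V) (sz : ℕ → ℕ),
      ((List.range P.card).map (fun j => ((el j, er j, sz j) : Mem V))).Perm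
        (ms ++ ((List.range d).map (fun j => ((a j, b j, 2) : Mem V)) ++
          S.toList.map (fun x => ((x, x, 1) : Mem V)))) ∧
      E 0 = 0 ∧ (∀ i < q, E i + 2 ≤ E (i + 1)) ∧ E q = P.card ∧ IsNx P.card q E nx ∧
      (Multiset.range q).map (fun i => ∑ j ∈ Ico (E i) (E (i + 1)), (sz j + 1)) = Λ ∧
      (∀ i < P.card, ∀ j < P.card, i ≠ j →
        el i ≠ el j ∧ el i ≠ er j ∧ er i ≠ el j ∧ er i ≠ er j) ∧
      (∀ j < P.card, el j ∉ P ∧ er j ∉ P ∧ (el j ∈ X ∨ ∃ m ∈ ms, el j = m.1) ∧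
        (er j ∈ X ∨ ∃ m ∈ ms, er j = m.2.1)) ∧
      (∀ x ∈ S, ∃ j < P.card, el j = x ∧ er j = x) := by
  have haX : ∀ j < d, a j ∈ X ∧ b j ∈ X := fun j hj =>
    ⟨(hX _).2 (Or.inr (Or.inr ⟨j, hj, Or.inl rfl⟩)), (hX _).2 (Or.inr (Or.inr ⟨j, hj, Or.inr rfl⟩))⟩
  have hSX : S ⊆ X := fun v hv => (hX v).2 (Or.inl hv)
  have hPX : P ⊆ X := fun v hv => (hX v).2 (Or.inr (Or.inl hv))
  obtain ⟨L, q, E, hperm, hE0, hE2, hEq, hsum⟩ := harr
    ((List.range d).map (fun j => ((a j, b j, 2) : Mem V)))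
    (S.toList.map (fun x => ((x, x, 1) : Mem V))) (by simp) (by simp [hSc])
    (by intro m hm; rw [List.mem_map] at hm; obtain ⟨j, _, rfl⟩ := hm; rfl)
    (by intro m hm; rw [List.mem_map] at hm; obtain ⟨j, _, rfl⟩ := hm; rfl)
  have hlen : L.length = P.card := by
    rw [hperm.length_eq]; simp [hPc, hSc]
  obtain ⟨nx, hNx⟩ := hnx P.card q E hE0 hE2 (hEq.trans hlen)
  have hpw : L.Pairwise Apt := by
    have := fb_pairwise hsep.2 hmX h2 haX hSX (fun j hj => ⟨(hSd j hj).1, (hSd j hj).2.1⟩)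
    exact (hperm.pairwise_iff (fun h => Apt.symm h)).2 this
  have hgetD := fb_getD (m₀ := (v₀, v₀, 0)) hpw
  have hmemL : ∀ j < P.card, L.getD j (v₀, v₀, 0) ∈ (ms ++ ((List.range d).map (fun j => ((a j, b j, 2) : Mem V)) ++
          S.toList.map (fun x => ((x, x, 1) : Mem V)))) := by
    intro j hj
    rw [← hperm.mem_iff, List.getD_eq_getElem _ _ (by omega)]
    exact List.getElem_mem _
  refine ⟨q, E, nx, fun j => (L.getD j (v₀, v₀, 0)).1, fun j => (L.getD j (v₀, v₀, 0)).2.1,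
    fun j => (L.getD j (v₀, v₀, 0)).2.2, ?_, hE0, hE2, hEq.trans hlen, hNx, ?_, ?_, ?_, ?_⟩
  · rw [← hlen, fb_map_getD]; exact hperm
  · rw [← hsum]
    apply Multiset.map_congr rfl
    intro i hi
    rw [Multiset.mem_range] at hi
    apply Finset.sum_congr rfl
    intro j hj
    rw [mem_Ico] at hj
    have hmono : ∀ k, i + 1 + k ≤ q → E (i + 1) ≤ E (i + 1 + k) := by
      intro k
      induction k with
      | zero => intro _; exact le_refl _
      | succ k ih =>
        intro hk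
        have h1 := ih (by omega)
        have h3 := hE2 (i + 1 + k) (by omega)
        have : i + 1 + (k + 1) = i + 1 + k + 1 := by omega
        rw [this]; omega
    have h4 := hmono (q - (i + 1)) (by omega)
    have h5 : i + 1 + (q - (i + 1)) = q := by omega
    rw [h5, hEq] at h4
    have hj' : j < L.length := by omega
    show (L.getD j (v₀, v₀, 0)).2.2 + 1 = _
    rw [List.getD_eq_getElem _ _ hj', List.getD_eq_getElem _ _ (by simpa using hj'), List.getElem_map]
  · intro i hi j hj hij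
    exact hgetD i (by omega) j (by omega) hij
  · intro j hj
    have h := hmemL j hj
    rw [List.mem_append, List.mem_append, List.mem_map, List.mem_map] at h
    rcases h with h | ⟨i, hi, h⟩ | ⟨x, hx, h⟩
    · obtain ⟨e1, e2⟩ := hmX _ h
      exact ⟨fun h' => e1 (hPX h'), fun h' => e2 (hPX h'), Or.inr ⟨_, h, rfl⟩, Or.inr ⟨_, h, rfl⟩⟩
    · rw [List.mem_range] at hi
      simp only [← h]
      obtain ⟨e1, e2, e3, e4⟩ := hSd i hi
      exact ⟨e3, e4, Or.inl (haX i hi).1, Or.inl (haX i hi).2⟩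
    · rw [mem_toList] at hx
      simp only [← h]
      have := Finset.disjoint_left.1 hSP hx
      exact ⟨this, this, Or.inl (hSX hx), Or.inl (hSX hx)⟩
  · intro x hx
    have h1 : ((x, x, 1) : Mem V) ∈ L := by
      rw [hperm.mem_iff, List.mem_append, List.mem_append]
      right; right
      rw [List.mem_map]
      exact ⟨x, mem_toList.2 hx, rfl⟩
    obtain ⟨j, hj, h⟩ := List.getElem_of_mem h1
    refine ⟨j, by omega, ?_, ?_⟩
    · simp only [List.getD_eq_getElem _ _ hj, h]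
    · simp only [List.getD_eq_getElem _ _ hj, h]

theorem fb_link {c : C} {a b w : V} (hab : a ≠ b) (ha : a ≠ w) (hb : b ≠ w) :
    IsLink 1 c a b ({Sum.inr (w, c)} ∪ {Sum.inl s(a, w), Sum.inl s(w, b)} : Finset (Item V C)) := by
  refine ⟨hab, w, w, {Sum.inr (w, c)}, isPath_one c w, ?_, ?_, rfl⟩
  · rw [mem_singleton]; intro h
    have := Sum.inr.inj h
    rw [Prod.mk.injEq] at this
    exact ha this.1
  · rw [mem_singleton]; intro h
    have := Sum.inr.inj h
    rw [Prod.mk.injEq] at this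
    exact hb this.1

/-- edges to inner vertices -/
theorem fb_edge {P : Finset V} {x y w w' : V} (hx : x ∉ P) (hy : y ∉ P) (hw : w ∈ P) (hw' : w' ∈ P)
    (h : s(x, w) = s(y, w')) : x = y ∧ w = w' := by
  rw [Sym2.eq_iff] at h
  rcases h with ⟨h1, h2⟩ | ⟨h1, h2⟩
  · exact ⟨h1, h2⟩
  · subst h1; exact absurd hw' hx

theorem fb_link_disj {c : C} {P : Finset V} {a b w a' b' w' : V} (ha : a ∉ P) (hb : b ∉ P)
    (ha' : a' ∉ P) (hb' : b' ∉ P) (hw : w ∈ P) (hw' : w' ∈ P) (hne : w ≠ w') :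
    Disjoint ({Sum.inr (w, c)} ∪ {Sum.inl s(a, w), Sum.inl s(w, b)} : Finset (Item V C))
      ({Sum.inr (w', c)} ∪ {Sum.inl s(a', w'), Sum.inl s(w', b')}) := by
  rw [Finset.disjoint_left]
  intro i hi hi'
  simp only [mem_union, mem_singleton, mem_insert] at hi hi'
  rcases hi with rfl | rfl | rfl
  · rcases hi' with h | h | h
    · have := Sum.inr.inj h
      rw [Prod.mk.injEq] at this
      exact hne this.1
    · simp at h
    · simp at h
  · rcases hi' with h | h | h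
    · simp at h
    · exact hne (fb_edge ha ha' hw hw' (Sum.inl.inj h)).2
    · have h := Sum.inl.inj h
      rw [Sym2.eq_swap (a := w')] at h
      exact hne (fb_edge ha hb' hw hw' h).2
  · rcases hi' with h | h | h
    · simp at h
    · have h := Sum.inl.inj h
      rw [Sym2.eq_swap] at h
      exact hne (fb_edge hb ha' hw hw' h).2
    · have h := Sum.inl.inj h
      rw [Sym2.eq_swap, Sym2.eq_swap (a := w')] at h
      exact hne (fb_edge hb hb' hw hw' h).2

end

section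
variable {V C : Type} [Fintype V] [DecidableEq V] [Fintype C] [DecidableEq C]

/-- the final set of the colour `c` -/
def fbX (c : C) (d : ℕ) (a b : ℕ → V) (S P : Finset V) (e₁ e₂ w : ℕ → V) : Finset (Item V C) :=
  ((range d).biUnion (fun j => ({Sum.inl s(a j, b j), Sum.inr (a j, c), Sum.inr (b j, c)} :
        Finset (Item V C))) ∪ S.image (fun x => (Sum.inr (x, c) : Item V C))) ∪
    (range P.card).biUnion (fun j =>
      ({Sum.inr (w j, c)} ∪ {Sum.inl s(e₁ j, w j), Sum.inl s(w j, e₂ j)} : Finset (Item V C)))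

theorem fbX_cases {c : C} {d : ℕ} {a b : ℕ → V} {S P : Finset V} {e₁ e₂ w : ℕ → V} {i : Item V C}
    (hi : i ∈ fbX c d a b S P e₁ e₂ w) :
    (∃ v, i = Sum.inr (v, c) ∧ ((∃ j < d, v = a j ∨ v = b j) ∨ v ∈ S ∨ ∃ j < P.card, v = w j)) ∨
    (∃ j < d, i = Sum.inl s(a j, b j)) ∨
    (∃ j < P.card, i = Sum.inl s(e₁ j, w j) ∨ i = Sum.inl s(w j, e₂ j)) := by
  unfold fbX at hi
  rw [mem_union, mem_union, mem_biUnion, mem_biUnion, mem_image] at hi
  rcases hi with (⟨j, hj, h⟩ | ⟨x, hx, rfl⟩) | ⟨j, hj, h⟩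
  · rw [mem_range] at hj
    simp only [mem_insert, mem_singleton] at h
    rcases h with rfl | rfl | rfl
    · exact Or.inr (Or.inl ⟨j, hj, rfl⟩)
    · exact Or.inl ⟨_, rfl, Or.inl ⟨j, hj, Or.inl rfl⟩⟩
    · exact Or.inl ⟨_, rfl, Or.inl ⟨j, hj, Or.inr rfl⟩⟩
  · exact Or.inl ⟨_, rfl, Or.inr (Or.inl hx)⟩
  · rw [mem_range] at hj
    simp only [mem_union, mem_insert, mem_singleton] at h
    rcases h with rfl | rfl | rfl
    · exact Or.inl ⟨_, rfl, Or.inr (Or.inr ⟨j, hj, rfl⟩)⟩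
    · exact Or.inr (Or.inr ⟨j, hj, Or.inl rfl⟩)
    · exact Or.inr (Or.inr ⟨j, hj, Or.inr rfl⟩)

/-- the step -/
theorem fb_step (hstp : StpStmt) {c : C} {ms : List (Mem V)} {d : ℕ} {a b : ℕ → V} {S P : Finset V}
    {Λ : Multiset ℕ} {q : ℕ} {E nx : ℕ → ℕ} {el er w : ℕ → V} {sz : ℕ → ℕ} {H : V → V → Prop}
    (h1 : ∀ j < d, a j ≠ b j)
    (h2 : ∀ i < d, ∀ j < d, i ≠ j → a i ≠ a j ∧ a i ≠ b j ∧ b i ≠ b j) (hSP : Disjoint S P)
    (hSd : ∀ j < d, a j ∉ S ∧ b j ∉ S ∧ a j ∉ P ∧ b j ∉ P)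
    (hHd : ∀ j < d, ∀ u v, H u v → s(u, v) ≠ s(a j, b j))
    (hperm : ((List.range P.card).map (fun j => ((el j, er j, sz j) : Mem V))).Perm
        (ms ++ ((List.range d).map (fun j => ((a j, b j, 2) : Mem V)) ++
          S.toList.map (fun x => ((x, x, 1) : Mem V)))))
    (hE0 : E 0 = 0) (hE2 : ∀ i < q, E i + 2 ≤ E (i + 1)) (hEq : E q = P.card)
    (hNx : IsNx P.card q E nx)
    (hsum : (Multiset.range q).map (fun i => ∑ j ∈ Ico (E i) (E (i + 1)), (sz j + 1)) = Λ)
    (hapt : ∀ i < P.card, ∀ j < P.card, i ≠ j →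
        el i ≠ el j ∧ el i ≠ er j ∧ er i ≠ el j ∧ er i ≠ er j)
    (hP : ∀ j < P.card, el j ∉ P ∧ er j ∉ P)
    (hw : ∀ j < P.card, w j ∈ P ∧ H (er j) (w j) ∧ H (w j) (el (nx j)))
    (hwi : Set.InjOn w (Set.Iio P.card)) :
    Step c ms (fbX c d a b S P er (fun j => el (nx j)) w) Λ [] 0 := by
  unfold fbX
  have hnx := hNx.2.1
  apply hstp V C c ms ((List.range d).map (fun j => ((a j, b j, 2) : Mem V)) ++
          S.toList.map (fun x => ((x, x, 1) : Mem V))) _ Λ P.card q E nx el er sz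
  · apply real_append (fb_real_dl h1 h2) (fb_real_al S)
    rw [Finset.disjoint_left]
    intro i hi hi'
    rw [mem_biUnion] at hi
    rw [mem_image] at hi'
    obtain ⟨j, hj, hi⟩ := hi
    obtain ⟨x, hx, rfl⟩ := hi'
    rw [mem_range] at hj
    simp only [mem_insert, mem_singleton] at hi
    obtain ⟨e1, e2, _⟩ := hSd j hj
    rcases hi with h | h | h
    · simp at h
    · have := Sum.inr.inj h
      rw [Prod.mk.injEq] at this
      exact e1 (this.1 ▸ hx)
    · have := Sum.inr.inj h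
      rw [Prod.mk.injEq] at this
      exact e2 (this.1 ▸ hx)
  · exact hperm
  · exact hE0
  · intro i hi; have := hE2 i hi; omega
  · exact hEq
  · exact hNx
  · intro j hj
    obtain ⟨n1, n2⟩ := hnx j hj
    apply fb_link
    · exact (hapt j hj _ n1 n2.symm).2.2.1
    · intro h; exact (hP j hj).2 (h ▸ (hw j hj).1)
    · intro h; exact (hP _ n1).1 (h ▸ (hw j hj).1)
  · intro i hi j hj hij
    apply fb_link_disj (P := P) (hP i hi).2 (hP _ (hnx i hi).1).1 (hP j hj).2 (hP _ (hnx j hj).1).1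
      (hw i hi).1 (hw j hj).1
    intro h
    exact hij (hwi (Set.mem_Iio.2 hi) (Set.mem_Iio.2 hj) h)
  · intro j hj
    rw [Finset.disjoint_left]
    intro i hi hi'
    obtain ⟨w1, w2, w3⟩ := hw j hj
    rw [mem_union, mem_biUnion, mem_image] at hi
    simp only [mem_union, mem_singleton, mem_insert] at hi'
    rcases hi with ⟨k, hk, hi⟩ | ⟨x, hx, rfl⟩
    · rw [mem_range] at hk
      simp only [mem_insert, mem_singleton] at hi
      obtain ⟨e1, e2, e3, e4⟩ := hSd k hk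
      rcases hi with rfl | rfl | rfl
      · rcases hi' with h | h | h
        · simp at h
        · exact hHd k hk _ _ w2 (Sum.inl.inj h).symm
        · exact hHd k hk _ _ w3 (Sum.inl.inj h).symm
      · rcases hi' with h | h | h
        · have := Sum.inr.inj h
          rw [Prod.mk.injEq] at this
          exact e3 (this.1 ▸ w1)
        · simp at h
        · simp at h
      · rcases hi' with h | h | h
        · have := Sum.inr.inj h
          rw [Prod.mk.injEq] at this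
          exact e4 (this.1 ▸ w1)
        · simp at h
        · simp at h
    · rcases hi' with h | h | h
      · have := Sum.inr.inj h
        rw [Prod.mk.injEq] at this
        exact Finset.disjoint_left.1 hSP hx (this.1 ▸ w1)
      · simp at h
      · simp at h
  · exact hsum

theorem fb_ends_pos {ms : List (Mem V)} {v : V} (h : ∃ m ∈ ms, v = m.1 ∨ v = m.2.1) :
    1 ≤ ends ms v := by
  obtain ⟨m, hm, h⟩ := h
  unfold ends
  have h1 := List.single_le_sum (l := ms.map (fun m => (if m.1 = v then 1 else 0) + (if m.2.1 = v then 1 else 0)))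
    (fun _ _ => Nat.zero_le _) _ (List.mem_map_of_mem hm)
  refine le_trans ?_ h1
  rcases h with rfl | rfl
  · simp
  · simp

end

open scoped Classical in
theorem fdB (hnx : NxStmt) (hstp : StpStmt) (htok : TokStmt) : FdBStmt := by
  intro ε μ hε hμ
  obtain ⟨p₀, hp₀, htok⟩ := htok ε μ hε hμ
  refine ⟨p₀, hp₀, ?_⟩
  intro p hp hpp
  obtain ⟨mT, htok⟩ := htok p hp hpp
  refine ⟨min (p ^ 2 * μ / 8) p, lt_min (by positivity) hp, ?_⟩
  intro γ hγ hγ₀
  refine ⟨max mT ⌈2 / μ⌉₊, ?_⟩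
  intro V C _ _ _ _ ε' U U' U'' D D' D'' T ms Λ d A a b S P H hm hL hms hends hO
  have hγ1 : γ ≤ p ^ 2 * μ / 8 := hγ₀.trans (min_le_left _ _)
  have hγ2 : γ ≤ p := hγ₀.trans (min_le_right _ _)
  have hm1 : (mT : ℝ) ≤ (U.card : ℝ) := by exact_mod_cast (le_max_left _ _).trans hm
  have hm2 : 2 / μ ≤ (U.card : ℝ) :=
    (Nat.le_ceil _).trans (by exact_mod_cast (le_max_right _ _).trans hm)
  have hμm : 2 ≤ μ * U.card := by
    rw [div_le_iff₀ hμ] at hm2; linarith
  have hM1 : μ * U.card / 2 ≤ (U'.card : ℝ) := by have := hL.Ulo; linarith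
  have hM2 : (U'.card : ℝ) ≤ U.card := by exact_mod_cast card_le_card hL.subU
  have hm0 : (0 : ℝ) ≤ (U.card : ℝ) := by positivity
  have hMpos : 0 < U'.card := by
    have : (0 : ℝ) < (U'.card : ℝ) := by linarith
    exact_mod_cast this
  obtain ⟨v₀, hv₀⟩ := card_pos.1 hMpos
  haveI : Nonempty V := ⟨v₀⟩
  have hXU : ∀ c ∈ D \ D', ∀ v ∈ vt T c, v ∈ U' := by
    intro c hc v hv
    rw [mem_vt] at hv
    by_contra hvU
    exact hL.cX v (mem_sdiff.2 ⟨(hL.ins.2 v c hv).1, hvU⟩) c hc hv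
  have hmX : ∀ c ∈ D \ D', ∀ m ∈ ms c, m.1 ∉ vt T c ∧ m.2.1 ∉ vt T c := by
    intro c hc m hm
    obtain ⟨_, _, _, e3, e4⟩ := (hms c hc).1.2 m hm
    rw [mem_vt, mem_vt]
    exact ⟨e3, e4⟩
  have hmU : ∀ c ∈ D \ D', ∀ m ∈ ms c, m.1 ∈ U' ∧ m.2.1 ∈ U' := by
    intro c hc m hm
    obtain ⟨_, e1, e2, _, _⟩ := (hms c hc).1.2 m hm
    exact ⟨e1, e2⟩
  have key := fun c (hc : c ∈ D \ D') => fb_lst hnx (X := vt T c) v₀ (hms c hc).1.1 (hmX c hc)
    (hO.dd c hc) (hO.SP c hc) (hO.SPd c hc) (hO.Sd c hc) (hO.Sc c hc) (hO.Pc c hc) (hO.arr c hc)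
  choose! q E nx el er sz k1 k2 k3 k4 k5 k6 k7 k8 k9 using key
  have hPX : ∀ c ∈ D \ D', ∀ v ∈ P c, v ∈ vt T c := fun c hc v hv =>
    (hO.SP c hc v).2 (Or.inr (Or.inl hv))
  have hSX : ∀ c ∈ D \ D', ∀ v ∈ S c, v ∈ vt T c := fun c hc v hv =>
    (hO.SP c hc v).2 (Or.inl hv)
  -- the sets `Z`
  obtain ⟨En, hEn⟩ : ∃ En : C → Finset V, En = fun c =>
    ((ms c).map (fun m => m.1)).toFinset ∪ ((ms c).map (fun m => m.2.1)).toFinset := ⟨_, rfl⟩
  obtain ⟨Z, hZ⟩ : ∃ Z : C → Finset V, Z = fun c => vt T c ∪ En c := ⟨_, rfl⟩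
  have hEn1 : ∀ c v, v ∈ En c ↔ ∃ m ∈ ms c, v = m.1 ∨ v = m.2.1 := by
    intro c v
    rw [hEn]
    simp only [mem_union, List.mem_toFinset, List.mem_map]
    constructor
    · rintro (⟨m, hm, rfl⟩ | ⟨m, hm, rfl⟩)
      · exact ⟨m, hm, Or.inl rfl⟩
      · exact ⟨m, hm, Or.inr rfl⟩
    · rintro ⟨m, hm, rfl | rfl⟩
      · exact Or.inl ⟨m, hm, rfl⟩
      · exact Or.inr ⟨m, hm, rfl⟩
  have hEn2 : ∀ c ∈ D \ D', ((En c).card : ℝ) ≤ 2 * (γ * U.card) := by
    intro c hc
    have h1 : (En c).card ≤ 2 * (ms c).length := by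
      rw [hEn]
      refine (card_union_le _ _).trans ?_
      have h1 := List.toFinset_card_le ((ms c).map (fun m => m.1))
      have h2 := List.toFinset_card_le ((ms c).map (fun m => m.2.1))
      rw [List.length_map] at h1 h2
      omega
    have h2 : ((En c).card : ℝ) ≤ 2 * ((ms c).length : ℝ) := by exact_mod_cast h1
    linarith [(hms c hc).2]
  have hZ1 : ∀ c v, v ∈ Z c ↔ v ∈ vt T c ∨ v ∈ En c := by
    intro c v; rw [hZ]; simp only [mem_union]
  have hZU : ∀ c ∈ D \ D', Z c ⊆ U' := by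
    intro c hc v hv
    rcases (hZ1 c v).1 hv with h | h
    · exact hXU c hc v h
    · obtain ⟨m, hm, rfl | rfl⟩ := (hEn1 c v).1 h
      · exact (hmU c hc m hm).1
      · exact (hmU c hc m hm).2
  have helZ : ∀ c ∈ D \ D', ∀ j < (P c).card, el c j ∈ Z c ∧ er c j ∈ Z c := by
    intro c hc j hj
    obtain ⟨_, _, e3, e4⟩ := k8 c hc j hj
    rw [hZ1, hZ1, hEn1, hEn1]
    refine ⟨?_, ?_⟩
    · rcases e3 with h | ⟨m, hm, h⟩
      · exact Or.inl h
      · exact Or.inr ⟨m, hm, Or.inl h⟩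
    · rcases e4 with h | ⟨m, hm, h⟩
      · exact Or.inl h
      · exact Or.inr ⟨m, hm, Or.inr h⟩
  have hnx1 : ∀ c ∈ D \ D', ∀ j < (P c).card, nx c j < (P c).card ∧ nx c j ≠ j :=
    fun c hc => (k5 c hc).2.1
  have t1 : ∀ c ∈ D \ D', p * U'.card / 20 ≤ ((P c).card : ℝ) ∧ (P c).card = (P c).card ∧ P c ⊆ Z c ∧
      Z c ⊆ U' := fun c hc => ⟨hO.big c hc, rfl, fun v hv => (hZ1 c v).2 (Or.inl (hPX c hc v hv)),
        hZU c hc⟩
  have t2 : ∀ c ∈ D \ D', ∀ j < (P c).card, er c j ∈ Z c ∧ el c (nx c j) ∈ Z c ∧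
      er c j ≠ el c (nx c j) ∧ er c j ∉ P c ∧ el c (nx c j) ∉ P c := by
    intro c hc j hj
    obtain ⟨n1, n2⟩ := hnx1 c hc j hj
    exact ⟨(helZ c hc j hj).2, (helZ c hc _ n1).1, (k7 c hc j hj _ n1 n2.symm).2.2.1,
      (k8 c hc j hj).2.1, (k8 c hc _ n1).1⟩
  have t3 : ∀ c ∈ D \ D', Set.InjOn (er c) (Set.Iio (P c).card) ∧
      Set.InjOn (fun j => el c (nx c j)) (Set.Iio (P c).card) := by
    intro c hc
    constructor
    · intro i hi j hj h
      by_contra hij
      exact (k7 c hc i (Set.mem_Iio.1 hi) j (Set.mem_Iio.1 hj) hij).2.2.2 h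
    · intro i hi j hj h
      by_contra hij
      have hi' := Set.mem_Iio.1 hi
      have hj' := Set.mem_Iio.1 hj
      refine (k7 c hc _ (hnx1 c hc i hi').1 _ (hnx1 c hc j hj').1 ?_).1 h
      intro h'
      exact hij ((k5 c hc).2.2.1 hi hj h')
  have t4 : ∀ c ∈ D \ D', ∀ c' ∈ D \ D', c ≠ c' → ((Z c ∩ Z c').card : ℝ) ≤ 4 * p ^ 2 * U'.card := by
    intro c hc c' hc' hne
    have h1 : Z c ∩ Z c' ⊆ (vt T c ∩ vt T c') ∪ (En c ∪ En c') := by
      intro v hv
      rw [mem_inter, hZ1, hZ1] at hv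
      rw [mem_union, mem_inter, mem_union]
      rcases hv with ⟨h1 | h1, h2 | h2⟩
      · exact Or.inl ⟨h1, h2⟩
      · exact Or.inr (Or.inr h2)
      · exact Or.inr (Or.inl h1)
      · exact Or.inr (Or.inl h1)
    have h2 := (card_le_card h1).trans ((card_union_le _ _).trans
      (Nat.add_le_add_left (card_union_le _ _) _))
    have h3 : ((Z c ∩ Z c').card : ℝ) ≤ ((vt T c ∩ vt T c').card : ℝ) + (((En c).card : ℝ) + ((En c').card : ℝ)) := by
      exact_mod_cast h2
    have h4 := hL.ww c hc c' hc' hne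
    have h5 := hEn2 c hc
    have h6 := hEn2 c' hc'
    have h7 : 4 * (γ * U.card) ≤ p ^ 2 * U'.card := by
      have e1 : γ * U.card ≤ p ^ 2 * μ / 8 * U.card := mul_le_mul_of_nonneg_right hγ1 hm0
      have e2 : p ^ 2 * (μ * U.card / 2) ≤ p ^ 2 * U'.card := mul_le_mul_of_nonneg_left hM1 (by positivity)
      nlinarith
    linarith
  have t5 : ∀ u ∈ U', (((D \ D').filter (fun c => u ∈ Z c)).card : ℝ) ≤ 3 * p * U.card := by
    intro u hu
    have h1 : (D \ D').filter (fun c => u ∈ Z c) ⊆ (cl T u \ D') ∪ (D \ D').filter (fun c => u ∈ En c) := by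
      intro c hc
      rw [mem_filter, hZ1] at hc
      rw [mem_union, mem_sdiff, mem_filter, mem_cl]
      rcases hc.2 with h | h
      · left
        rw [mem_vt] at h
        exact ⟨h, (mem_sdiff.1 hc.1).2⟩
      · right; exact ⟨hc.1, h⟩
    have h2 : ((D \ D').filter (fun c => u ∈ En c)).card ≤ ∑ c ∈ D \ D', ends (ms c) u := by
      rw [card_filter]
      apply sum_le_sum
      intro c hc
      split_ifs with h
      · exact fb_ends_pos ((hEn1 c u).1 h)
      · exact Nat.zero_le _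
    have h3 := (card_le_card h1).trans (card_union_le _ _)
    have h4 : (((D \ D').filter (fun c => u ∈ Z c)).card : ℝ) ≤ ((cl T u \ D').card : ℝ) +
        (∑ c ∈ D \ D', (ends (ms c) u : ℝ)) := by exact_mod_cast h3.trans (Nat.add_le_add_left h2 _)
    have h5 := hL.cu u hu
    have h6 := hends u
    have h7 : γ * U.card ≤ p * U.card := mul_le_mul_of_nonneg_right hγ2 hm0
    linarith
  have t6 : ∀ c ∈ D \ D', ∀ u ∈ Z c, (3/4 + ε) * ((P c).card : ℝ) ≤
      (((P c).filter (fun v => H u v)).card : ℝ) := fun c hc u hu => hO.degP c hc u (hZU c hc hu)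
  have t7 : ∀ c ∈ D \ D', ∀ v ∈ P c,
      (3/4 + ε) * ((P c).card : ℝ) ≤ (((range (P c).card).filter (fun j => H v (er c j))).card : ℝ) ∧
      (3/4 + ε) * ((P c).card : ℝ) ≤
        (((range (P c).card).filter (fun j => H v (el c (nx c j)))).card : ℝ) := by
    intro c hc v hv
    have h0 := hO.degS c hc v (hXU c hc v (hPX c hc v hv))
    have h1 : (S c).filter (fun x => H v x) ⊆
        ((range (P c).card).filter (fun j => H v (er c j))).image (er c) := by
      intro x hx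
      rw [mem_filter] at hx
      obtain ⟨j, hj, _, e⟩ := k9 c hc x hx.1
      rw [mem_image]
      exact ⟨j, mem_filter.2 ⟨mem_range.2 hj, e.symm ▸ hx.2⟩, e⟩
    have h2 : (S c).filter (fun x => H v x) ⊆
        ((range (P c).card).filter (fun j => H v (el c (nx c j)))).image (fun j => el c (nx c j)) := by
      intro x hx
      rw [mem_filter] at hx
      obtain ⟨j, hj, e, _⟩ := k9 c hc x hx.1
      obtain ⟨i, hi, hij⟩ := (k5 c hc).2.2.2 j hj
      rw [mem_image]
      refine ⟨i, mem_filter.2 ⟨mem_range.2 hi, ?_⟩, ?_⟩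
      · rw [hij, e]; exact hx.2
      · simp only [hij, e]
    have h3 := (card_le_card h1).trans card_image_le
    have h4 := (card_le_card h2).trans card_image_le
    exact ⟨h0.trans (by exact_mod_cast h3), h0.trans (by exact_mod_cast h4)⟩
  obtain ⟨w, w1, w2, w3⟩ := htok V C (U.card : ℝ) U' (D \ D') H (fun c => (P c).card) er
    (fun c j => el c (nx c j)) P Z hm1 hL.Ulo hM2
    (by exact_mod_cast (card_le_card sdiff_subset).trans hL.Dhi) hO.Hs t1 t2 t3 t4 t5 t6 t7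
  refine ⟨fun c => fbX c (d c) (a c) (b c) (S c) (P c) (er c) (fun j => el c (nx c j)) (w c), ?_⟩
  have hstep : ∀ c ∈ D \ D', Step c (ms c)
      (fbX c (d c) (a c) (b c) (S c) (P c) (er c) (fun j => el c (nx c j)) (w c)) (Λ c) [] 0 := by
    intro c hc
    exact fb_step hstp (H := H) (fun j hj => (hO.dT c hc j hj).2.2.2) (hO.dd c hc) (hO.SPd c hc) (hO.Sd c hc)
      (hO.Hd c hc) (k1 c hc) (k2 c hc) (k3 c hc) (k4 c hc) (k5 c hc) (k6 c hc) (k7 c hc)
      (fun j hj => ⟨(k8 c hc j hj).1, (k8 c hc j hj).2.1⟩) (w1 c hc) (w2 c hc)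
  have hsub : ∀ c ∈ D \ D',
      fbX c (d c) (a c) (b c) (S c) (P c) (er c) (fun j => el c (nx c j)) (w c) ⊆ T := by
    intro c hc i hi
    rcases fbX_cases hi with ⟨v, rfl, h⟩ | ⟨j, hj, rfl⟩ | ⟨j, hj, rfl | rfl⟩
    · have : v ∈ vt T c := by
        rcases h with ⟨j, hj, h⟩ | h | ⟨j, hj, rfl⟩
        · exact (hO.SP c hc v).2 (Or.inr (Or.inr ⟨j, hj, h⟩))
        · exact hSX c hc v h
        · exact hPX c hc _ (w1 c hc j hj).1
      rwa [mem_vt] at this
    · exact (hO.dT c hc j hj).1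
    · exact (hO.HT _ _ (w1 c hc j hj).2.1).1
    · exact (hO.HT _ _ (w1 c hc j hj).2.2).1
  have hdisj : ∀ c ∈ D \ D', ∀ c' ∈ D \ D', c ≠ c' → Disjoint
      (fbX c (d c) (a c) (b c) (S c) (P c) (er c) (fun j => el c (nx c j)) (w c))
      (fbX c' (d c') (a c') (b c') (S c') (P c') (er c') (fun j => el c' (nx c' j)) (w c')) := by
    intro c hc c' hc' hne
    rw [Finset.disjoint_left]
    intro i hi hi'
    rcases fbX_cases hi with ⟨v, rfl, -⟩ | ⟨j, hj, rfl⟩ | ⟨j, hj, rfl | rfl⟩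
    · rcases fbX_cases hi' with ⟨v', h, -⟩ | ⟨j', hj', h⟩ | ⟨j', hj', h | h⟩
      · have := Sum.inr.inj h
        rw [Prod.mk.injEq] at this
        exact hne this.2
      · simp at h
      · simp at h
      · simp at h
    · rcases fbX_cases hi' with ⟨v', h, -⟩ | ⟨j', hj', h⟩ | ⟨j', hj', h | h⟩
      · simp at h
      · exact hO.de c hc c' hc' hne j hj j' hj' (Sum.inl.inj h)
      · exact hO.Hd c hc j hj _ _ (w1 c' hc' j' hj').2.1 (Sum.inl.inj h).symm
      · exact hO.Hd c hc j hj _ _ (w1 c' hc' j' hj').2.2 (Sum.inl.inj h).symm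
    · rcases fbX_cases hi' with ⟨v', h, -⟩ | ⟨j', hj', h⟩ | ⟨j', hj', h | h⟩
      · simp at h
      · exact hO.Hd c' hc' j' hj' _ _ (w1 c hc j hj).2.1 (Sum.inl.inj h)
      · exact (w3 c hc c' hc' hne j hj j' hj').1 (Sum.inl.inj h)
      · exact (w3 c hc c' hc' hne j hj j' hj').2.1 (Sum.inl.inj h)
    · rcases fbX_cases hi' with ⟨v', h, -⟩ | ⟨j', hj', h⟩ | ⟨j', hj', h | h⟩
      · simp at h
      · exact hO.Hd c' hc' j' hj' _ _ (w1 c hc j hj).2.2 (Sum.inl.inj h)
      · exact (w3 c' hc' c hc hne.symm j' hj' j hj).2.1 (Sum.inl.inj h).symm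
      · exact (w3 c hc c' hc' hne j hj j' hj').2.2 (Sum.inl.inj h)
  refine ⟨fun c hc => ⟨hsub c hc, hstep c hc⟩, hdisj, ?_, ?_⟩
  · intro u v huv
    unfold uC at huv
    rw [mem_biUnion] at huv
    obtain ⟨c, hc, hi⟩ := huv
    have hgo : ∀ x y, x ∈ U' → y ∈ U' → ¬ (x ∈ U'' ∧ y ∈ U'') → s(u, v) = s(x, y) →
        u ∈ U' ∧ v ∈ U' ∧ ¬ (u ∈ U'' ∧ v ∈ U'') := by
      intro x y hx hy hxy h
      rw [Sym2.eq_iff] at h
      rcases h with ⟨rfl, rfl⟩ | ⟨rfl, rfl⟩
      · exact ⟨hx, hy, hxy⟩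
      · exact ⟨hy, hx, fun h => hxy ⟨h.2, h.1⟩⟩
    rcases fbX_cases hi with ⟨v', h, -⟩ | ⟨j, hj, h⟩ | ⟨j, hj, h | h⟩
    · simp at h
    · obtain ⟨_, e1, e2, _⟩ := hO.dT c hc j hj
      rw [mem_sdiff] at e1 e2
      exact hgo _ _ (hXU c hc _ e1.1) (hXU c hc _ e2.1) (fun h => e1.2 h.1) (Sum.inl.inj h)
    · exact hgo _ _ (hZU c hc (t2 c hc j hj).1) (hXU c hc _ (hPX c hc _ (w1 c hc j hj).1))
        (hO.HT _ _ (w1 c hc j hj).2.1).2 (Sum.inl.inj h)
    · exact hgo _ _ (hXU c hc _ (hPX c hc _ (w1 c hc j hj).1)) (hZU c hc (t2 c hc j hj).2.1)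
        (hO.HT _ _ (w1 c hc j hj).2.2).2 (Sum.inl.inj h)
  · intro u hu
    have h1 : nb (uC (D \ D') (fun c => fbX c (d c) (a c) (b c) (S c) (P c) (er c)
        (fun j => el c (nx c j)) (w c))) u ⊆ (D \ D').biUnion (fun c => nb (fbX c (d c) (a c) (b c) (S c) (P c) (er c)
        (fun j => el c (nx c j)) (w c)) u) := by
      intro v hv
      rw [mem_nb] at hv
      unfold uC at hv
      rw [mem_biUnion] at hv
      obtain ⟨c, hc, h⟩ := hv
      rw [mem_biUnion]
      exact ⟨c, hc, (mem_nb _ _ _).2 h⟩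
    have h2 : ∀ c ∈ D \ D', (nb (fbX c (d c) (a c) (b c) (S c) (P c) (er c)
        (fun j => el c (nx c j)) (w c)) u).card ≤ 2 * (if c ∈ cl T u then 1 else 0) + ends (ms c) u := by
      intro c hc
      have hb := (hstep c hc).bal u
      have he : ends ([] : List (Mem V)) u = 0 := rfl
      have hcl : cl (fbX c (d c) (a c) (b c) (S c) (P c) (er c) (fun j => el c (nx c j)) (w c)) u ⊆
          if c ∈ cl T u then {c} else ∅ := by
        intro c' hc'
        rw [mem_cl] at hc'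
        have e1 := (hstep c hc).col u c' hc'
        subst e1
        rw [if_pos ((mem_cl _ _ _).2 (hsub c' hc hc'))]
        exact mem_singleton_self _
      have hcard := card_le_card hcl
      split_ifs at hcard with h
      · rw [if_pos h]; rw [card_singleton] at hcard; omega
      · rw [if_neg h]; rw [card_empty] at hcard; omega
    have h3 : (nb (uC (D \ D') (fun c => fbX c (d c) (a c) (b c) (S c) (P c) (er c)
        (fun j => el c (nx c j)) (w c))) u).card ≤ 2 * (cl T u \ D').card + ∑ c ∈ D \ D', ends (ms c) u := by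
      refine (card_le_card h1).trans (card_biUnion_le.trans ((sum_le_sum h2).trans ?_))
      rw [sum_add_distrib, ← mul_sum, ← card_filter]
      refine Nat.add_le_add_right (Nat.mul_le_mul_left _ (card_le_card ?_)) _
      intro c hc
      rw [mem_filter] at hc
      exact mem_sdiff.2 ⟨hc.2, (mem_sdiff.1 hc.1).2⟩
    have h4 : ((nb (uC (D \ D') (fun c => fbX c (d c) (a c) (b c) (S c) (P c) (er c)
        (fun j => el c (nx c j)) (w c))) u).card : ℝ) ≤ 2 * ((cl T u \ D').card : ℝ) +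
          ∑ c ∈ D \ D', (ends (ms c) u : ℝ) := by exact_mod_cast h3
    have h5 := hL.cu u hu
    have h6 := hends u
    have h7 : γ * U.card ≤ p * U.card := mul_le_mul_of_nonneg_right hγ2 hm0
    have h8 : 0 ≤ p * U.card := by positivity
    linarith

end Pool.Agent.OBX
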