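import Pool.Agent.OBX.FdStmts

set_option autoImplicit false

/-!
MODULE FdSet (difficulty 2).

RECIPE.  `W ⊆ Y` with `|W| = 2 A` (`exists_subset_card_eq`); `hpart V I W 2 A Q ξ`; `S` = class 0 of `W`, `P = Y \ S` (= class 1 and `Y \ W`).
`|S ∩ Q i| ≥ |W ∩ Q i| / 2 - ξ A ≥ (|Y ∩ Q i| - r) / 2 - ξ A`, the same for class 1 ⊆ `P`.
-/

namespace Pool.Agent.OBX

open Finset Pool.Agent.OBW

theorem set_ (hpart : PartStmt) : SetStmt := by
  intro V I _ _ Y A r Q ξ hA hξ hY hI
  obtain ⟨W, hWY, hW⟩ := exists_subset_card_eq (s := Y) (n := 2 * A) (by omega)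
  obtain ⟨f, hf1, hf2, hf3⟩ := hpart V I W 2 A Q ξ (by norm_num) hA hW hξ (by push_cast; linarith)
  have hS : (W.filter (fun v => f v = 0)).card = A := hf2 0 (by norm_num)
  have hSY : W.filter (fun v => f v = 0) ⊆ Y := (filter_subset _ _).trans hWY
  have hYW : (Y \ W).card = r := by
    rw [card_sdiff_of_subset hWY, hY, hW]; omega
  have hWQ : ∀ i, ((Y ∩ Q i).card : ℝ) - r ≤ ((W ∩ Q i).card : ℝ) := by
    intro i
    have h1 : Y ∩ Q i ⊆ (W ∩ Q i) ∪ (Y \ W) := by
      intro v hv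
      rw [mem_inter] at hv
      by_cases h : v ∈ W
      · exact mem_union_left _ (mem_inter.2 ⟨h, hv.2⟩)
      · exact mem_union_right _ (mem_sdiff.2 ⟨hv.1, h⟩)
    have h2 := (card_le_card h1).trans (card_union_le _ _)
    rw [hYW] at h2
    have h3 : ((Y ∩ Q i).card : ℝ) ≤ ((W ∩ Q i).card : ℝ) + r := by exact_mod_cast h2
    linarith
  refine ⟨W.filter (fun v => f v = 0), Y \ W.filter (fun v => f v = 0), union_sdiff_of_subset hSY, disjoint_sdiff,
    hS, ?_, ?_⟩
  · rw [card_sdiff_of_subset hSY, hS, hY]; omega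
  · intro i
    have h0 := (abs_le.1 (hf3 i 0 (by norm_num))).1
    have h1 := (abs_le.1 (hf3 i 1 (by norm_num))).1
    have hw := hWQ i
    push_cast at h0 h1
    have e0 : (W.filter (fun v => f v = 0 ∧ v ∈ Q i)).card ≤ (W.filter (fun v => f v = 0) ∩ Q i).card := by
      refine card_le_card ?_
      intro v hv
      rw [mem_filter] at hv
      exact mem_inter.2 ⟨mem_filter.2 ⟨hv.1, hv.2.1⟩, hv.2.2⟩
    have e1 : (W.filter (fun v => f v = 1 ∧ v ∈ Q i)).card ≤ ((Y \ W.filter (fun v => f v = 0)) ∩ Q i).card := by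
      refine card_le_card ?_
      intro v hv
      rw [mem_filter] at hv
      refine mem_inter.2 ⟨mem_sdiff.2 ⟨hWY hv.1, fun h => ?_⟩, hv.2.2⟩
      have h2 := (mem_filter.1 h).2
      have h3 := hv.2.1
      omega
    have e0' : ((W.filter (fun v => f v = 0 ∧ v ∈ Q i)).card : ℝ) ≤ ((W.filter (fun v => f v = 0) ∩ Q i).card : ℝ) := by
      exact_mod_cast e0
    have e1' : ((W.filter (fun v => f v = 1 ∧ v ∈ Q i)).card : ℝ) ≤
        (((Y \ W.filter (fun v => f v = 0)) ∩ Q i).card : ℝ) := by exact_mod_cast e1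
    constructor
    · linarith
    · linarith

end Pool.Agent.OBX
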