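import Mathlib
import Pool.Agent.OBX.Stmts

set_option autoImplicit false

/-!
FINDO part of OBX (colours of `D \ D'` are finished inside `U'`): sub-statements.

`Do = D \ D'`, `m = |U|`, `M = |U'|`; for the colour `c ∈ Do`: `x = |vt T c|`, `h = |ms c|`,
`d` double anchors (open paths with 2 vertices), `A` anchors (open paths with 1 vertex), and
`k = h + d + A` unit links; `h + 3 d + 2 A = x`.
-/

namespace Pool.Agent.OBX

open Finset Pool.Agent.OBW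

/-- ARR: numbers `d`, `A`; then, for any `d` doubles and `A` anchors, an order `L` of all the members
and groups (intervals of length ≥ 2) such that the closed groups have exactly the lengths `Λ`. -/
def ArrStmt : Prop :=
  ∀ (α : Type) (sz : α → ℕ) (W : ℕ) (ms : List α) (Λ : Multiset ℕ),
    (∀ m ∈ ms.tail, sz m ≤ W) → (∀ m ∈ ms.head?, ∃ l ∈ Λ, sz m + 6 ≤ l) → Λ ≠ 0 →
    (∀ l ∈ Λ, W + 11 ≤ l) →
    (ms.map sz).sum + ms.length + Multiset.card Λ * (W + 6) ≤ Λ.sum →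
    ∃ d A : ℕ, d ≤ Multiset.card Λ ∧ (ms.map sz).sum + ms.length + 2 * A + 3 * d = Λ.sum ∧
      ∀ dl al : List α, dl.length = d → al.length = A → (∀ m ∈ dl, sz m = 2) → (∀ m ∈ al, sz m = 1) →
        ∃ (L : List α) (q : ℕ) (E : ℕ → ℕ), L.Perm (ms ++ (dl ++ al)) ∧ E 0 = 0 ∧
          (∀ i < q, E i + 2 ≤ E (i + 1)) ∧ E q = L.length ∧
          (Multiset.range q).map
            (fun i => ∑ j ∈ Ico (E i) (E (i + 1)), ((L.map sz).getD j 0 + 1)) = Λ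

/-- `nx` is the cyclic successor inside the groups `[E i, E (i+1))`, `i < q`. -/
def IsNx (n q : ℕ) (E nx : ℕ → ℕ) : Prop :=
  (∀ i < q, ∀ j, E i ≤ j → j < E (i + 1) → nx j = if j + 1 = E (i + 1) then E i else j + 1) ∧
  (∀ j < n, nx j < n ∧ nx j ≠ j) ∧ Set.InjOn nx (Set.Iio n) ∧ (∀ j < n, ∃ i < n, nx i = j)

/-- NX -/
def NxStmt : Prop :=
  ∀ (n q : ℕ) (E : ℕ → ℕ), E 0 = 0 → (∀ i < q, E i + 2 ≤ E (i + 1)) → E q = n →
    ∃ nx : ℕ → ℕ, IsNx n q E nx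

/-- STP: one step which finishes the colour. -/
def StpStmt : Prop :=
  ∀ (V C : Type) [Fintype V] [DecidableEq V] [Fintype C] [DecidableEq C] (c : C)
    (ms ns : List (Mem V)) (R : Finset (Item V C)) (Λ : Multiset ℕ) (n q : ℕ) (E nx : ℕ → ℕ)
    (a b : ℕ → V) (s : ℕ → ℕ) (g : ℕ → Finset (Item V C)),
    Real c ns R → ((List.range n).map (fun j => ((a j, b j, s j) : Mem V))).Perm (ms ++ ns) →
    E 0 = 0 → (∀ i < q, E i < E (i + 1)) → E q = n → IsNx n q E nx →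
    (∀ j < n, IsLink 1 c (b j) (a (nx j)) (g j)) →
    (∀ i < n, ∀ j < n, i ≠ j → Disjoint (g i) (g j)) → (∀ j < n, Disjoint R (g j)) →
    (Multiset.range q).map (fun i => ∑ j ∈ Ico (E i) (E (i + 1)), (s j + 1)) = Λ →
    Step c ms (R ∪ (range n).biUnion g) Λ [] 0

/-- SET: splitting a vertex set `Y` into anchors `S` and inner vertices `P`, with test sets. -/
def SetStmt : Prop :=
  ∀ (V I : Type) [DecidableEq V] [Fintype I] (Y : Finset V) (A r : ℕ) (Q : I → Finset V) (ξ : ℝ),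
    0 < A → 0 < ξ → Y.card = 2 * A + r →
    4 * (Fintype.card I : ℝ) * Real.exp (-(ξ ^ 2 * A / 2)) < 1 →
    ∃ S P : Finset V, S ∪ P = Y ∧ Disjoint S P ∧ S.card = A ∧ P.card = A + r ∧
      ∀ i, ((Y ∩ Q i).card : ℝ) / 2 - r / 2 - ξ * A ≤ ((S ∩ Q i).card : ℝ) ∧
        ((Y ∩ Q i).card : ℝ) / 2 - r / 2 - ξ * A ≤ ((P ∩ Q i).card : ℝ)

open scoped Classical in
/-- Output of the first half: doubles `(a c j, b c j)`, anchors `S c`, inner vertices `P c`, and the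
allowed edges `H`. -/
structure FdOut {V C : Type} [Fintype V] [DecidableEq V] [Fintype C] [DecidableEq C]
    (p ε : ℝ) (U' U'' : Finset V) (Do : Finset C) (T : Finset (Item V C))
    (ms : C → List (Mem V)) (Λ : C → Multiset ℕ) (d A : C → ℕ) (a b : C → ℕ → V)
    (S P : C → Finset V) (H : V → V → Prop) : Prop where
  Hs : ∀ u v, H u v → H v u
  HT : ∀ u v, H u v → (Sum.inl s(u, v) : Item V C) ∈ T ∧ ¬ (u ∈ U'' ∧ v ∈ U'')
  Hd : ∀ c ∈ Do, ∀ j < d c, ∀ u v, H u v → s(u, v) ≠ s(a c j, b c j)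
  dT : ∀ c ∈ Do, ∀ j < d c, (Sum.inl s(a c j, b c j) : Item V C) ∈ T ∧ a c j ∈ vt T c \ U'' ∧
    b c j ∈ vt T c \ U'' ∧ a c j ≠ b c j
  dd : ∀ c ∈ Do, ∀ i < d c, ∀ j < d c, i ≠ j → a c i ≠ a c j ∧ a c i ≠ b c j ∧ b c i ≠ b c j
  de : ∀ c ∈ Do, ∀ c' ∈ Do, c ≠ c' → ∀ i < d c, ∀ j < d c', s(a c i, b c i) ≠ s(a c' j, b c' j)
  SP : ∀ c ∈ Do, ∀ v, v ∈ vt T c ↔ (v ∈ S c ∨ v ∈ P c ∨ ∃ j < d c, v = a c j ∨ v = b c j)
  SPd : ∀ c ∈ Do, Disjoint (S c) (P c)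
  Sd : ∀ c ∈ Do, ∀ j < d c, a c j ∉ S c ∧ b c j ∉ S c ∧ a c j ∉ P c ∧ b c j ∉ P c
  Sc : ∀ c ∈ Do, (S c).card = A c
  Pc : ∀ c ∈ Do, (P c).card = (ms c).length + (d c + A c)
  big : ∀ c ∈ Do, p * U'.card / 20 ≤ ((P c).card : ℝ)
  degS : ∀ c ∈ Do, ∀ u ∈ U', (3/4 + ε) * ((P c).card : ℝ) ≤ (((S c).filter (fun v => H u v)).card : ℝ)
  degP : ∀ c ∈ Do, ∀ u ∈ U', (3/4 + ε) * ((P c).card : ℝ) ≤ (((P c).filter (fun v => H u v)).card : ℝ)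
  arr : ∀ c ∈ Do, ∀ dl al : List (Mem V), dl.length = d c → al.length = A c →
    (∀ m ∈ dl, m.2.2 = 2) → (∀ m ∈ al, m.2.2 = 1) →
    ∃ (L : List (Mem V)) (q : ℕ) (E : ℕ → ℕ), L.Perm (ms c ++ (dl ++ al)) ∧ E 0 = 0 ∧
      (∀ i < q, E i + 2 ≤ E (i + 1)) ∧ E q = L.length ∧
      (Multiset.range q).map
        (fun i => ∑ j ∈ Ico (E i) (E (i + 1)), ((L.map (fun m => m.2.2)).getD j 0 + 1)) = Λ c

/-- FDA: first half. -/
def FdAStmt : Prop :=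
  ∀ (ε μ : ℝ), 0 < ε → 0 < μ → ∀ p : ℝ, 0 < p → p ≤ 1 →
    ∃ γ₀ : ℝ, 0 < γ₀ ∧ ∀ γ : ℝ, 0 < γ → γ ≤ γ₀ → ∀ W : ℕ, ∃ L₁ m₀ : ℕ,
    ∀ (V C : Type) [Fintype V] [DecidableEq V] [Fintype C] [DecidableEq C]
      (U U' U'' : Finset V) (D D' D'' : Finset C) (T : Finset (Item V C))
      (ms : C → List (Mem V)) (Λ : C → Multiset ℕ),
      m₀ ≤ U.card → LinkHyp p ε μ 1 U U' U'' D D' D'' T →
      (∀ c ∈ D \ D', ((ms c).length : ℝ) ≤ γ * U.card ∧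
        Siz W 6 (ms c) (Λ c) ∧ (∀ l ∈ Λ c, L₁ ≤ l) ∧ (vt T c).card + siz (ms c) = (Λ c).sum) →
      ∃ (d A : C → ℕ) (a b : C → ℕ → V) (S P : C → Finset V) (H : V → V → Prop),
        FdOut p (ε / 4) U' U'' (D \ D') T ms Λ d A a b S P H

/-- FDB: second half. -/
def FdBStmt : Prop :=
  ∀ (ε μ : ℝ), 0 < ε → 0 < μ → ∃ p₀ : ℝ, 0 < p₀ ∧ ∀ p : ℝ, 0 < p → p ≤ p₀ →
    ∃ γ₀ : ℝ, 0 < γ₀ ∧ ∀ γ : ℝ, 0 < γ → γ ≤ γ₀ → ∃ m₀ : ℕ,
    ∀ (V C : Type) [Fintype V] [DecidableEq V] [Fintype C] [DecidableEq C] (ε' : ℝ)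
      (U U' U'' : Finset V) (D D' D'' : Finset C) (T : Finset (Item V C))
      (ms : C → List (Mem V)) (Λ : C → Multiset ℕ) (d A : C → ℕ) (a b : C → ℕ → V)
      (S P : C → Finset V) (H : V → V → Prop),
      m₀ ≤ U.card → LinkHyp p ε' μ 1 U U' U'' D D' D'' T →
      (∀ c ∈ D \ D', MemIn U' T c (ms c) ∧ ((ms c).length : ℝ) ≤ γ * U.card) →
      (∀ v, (∑ c ∈ D \ D', (ends (ms c) v : ℝ)) ≤ γ * U.card) →
      FdOut p ε U' U'' (D \ D') T ms Λ d A a b S P H →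
      ∃ X : C → Finset (Item V C),
        (∀ c ∈ D \ D', X c ⊆ T ∧ Step c (ms c) (X c) (Λ c) [] 0) ∧
        (∀ c ∈ D \ D', ∀ d ∈ D \ D', c ≠ d → Disjoint (X c) (X d)) ∧
        (∀ u v, (Sum.inl s(u, v) : Item V C) ∈ uC (D \ D') X → u ∈ U' ∧ v ∈ U' ∧ ¬ (u ∈ U'' ∧ v ∈ U'')) ∧
        (∀ u ∈ U', ((nb (uC (D \ D') X) u).card : ℝ) ≤ 8 * p * U.card)

theorem finDo_of (hA : FdAStmt) (hB : FdBStmt) : FinDoStmt := by
  intro ε μ hε hμ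
  obtain ⟨p₀, hp₀, hB⟩ := hB (ε / 4) μ (by linarith) hμ
  refine ⟨min p₀ 1, lt_min hp₀ one_pos, ?_⟩
  intro p hp hpp
  obtain ⟨γB, hγB, hB⟩ := hB p hp (hpp.trans (min_le_left _ _))
  obtain ⟨γA, hγA, hA⟩ := hA ε μ hε hμ p hp (hpp.trans (min_le_right _ _))
  refine ⟨min γA γB, lt_min hγA hγB, ?_⟩
  intro W
  obtain ⟨mB, hB⟩ := hB (min γA γB) (lt_min hγA hγB) (min_le_right _ _)
  obtain ⟨L₁, mA, hA⟩ := hA (min γA γB) (lt_min hγA hγB) (min_le_left _ _) W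
  refine ⟨L₁, max mA mB, ?_⟩
  intro V C _ _ _ _ U U' U'' D D' D'' T ms Λ hm hL hms hends
  obtain ⟨d, A, a, b, S, P, H, hO⟩ := hA V C U U' U'' D D' D'' T ms Λ
    (le_trans (le_max_left _ _) hm) hL (fun c hc => (hms c hc).2)
  exact hB V C ε U U' U'' D D' D'' T ms Λ d A a b S P H (le_trans (le_max_right _ _) hm) hL
    (fun c hc => ⟨(hms c hc).1, (hms c hc).2.1⟩) hends hO

end Pool.Agent.OBX
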