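import Mathlib
import Pool.Agent.OBX.Stmts
import Pool.Agent.OBW.Trans

set_option autoImplicit false

/-! Final step: MAIN implies the frozen statement S09567. -/

namespace Pool.Agent.OBX

open Finset Pool.Agent.OBW

theorem final_of (h : MainStmt) :
    ∀ ε : ℝ, 0 < ε → ∃ n₀ : ℕ, ∀ n : ℕ, n₀ ≤ n →
      ∀ (F G : SimpleGraph (Fin n)) (d : ℕ),
        (∀ v, Nat.card (F.neighborSet v) = 2) →
        (∀ v, Nat.card (G.neighborSet v) = d) →
        Even d →
        (3 / 4 + ε) * (n : ℝ) ≤ (d : ℝ) →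
        ∃ (k : ℕ) (H : Fin k → SimpleGraph (Fin n)),
          (∀ i, Nonempty (F ≃g H i)) ∧
          (∀ i j, i ≠ j → Disjoint (H i) (H j)) ∧
          (⨆ i, H i) = G :=
  final h

end Pool.Agent.OBX
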