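import Pool.Agent.OBX.FbA
import Pool.Agent.OBX.FbB
import Pool.Agent.OBX.FbN
import Pool.Agent.OBX.FbX
import Pool.Agent.OBX.FbR

/-!
MODULE FinB (difficulty 4).  The last level of Case B.

RECIPE: `dbl` with `ω = 1/2`, `θ = 1` gives `γ, m₁`; `L₁ ≥ 40`, `L₁ ≥ 2/γ`, `m₀ ≥ m₁`, `m₀ ≥ 2/γ`, `m₀ ≥ 1`.  For `c ∈ D`: `W c = vt S c`, `Λ c ≠ 0` (`(Λ c).sum ≥ |W c| > 0`), `fb_num` gives `r, rs`; `d c` = sum of the
first components `≤ (Λ c).card`.  `(Λ c).card ≤ 1 + |U| / L₁`: with `l₀ ∈ Λ c`, `siz (ms c) ≤ l₀` the other lengths sum up to at most `|W c|`.  So `d c ≤ γ |U|`.  `DBL` for `m = |U|`, `I = D`, `H u v` = `inl s(u,v) ∈ S`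
(`|W c|/2 ≤` number of the `v ∈ W c` with `H u v`: `5/8 - 1/100 ≥ 1/2`).  `fb_colour` gives `new c`, `Ms c`.  `X c = mits c (new c)`, `rq c = ((Ms c).map creq).flatten` for `c ∈ D`, else `∅`, `[]`.
The conclusions: `X c ⊆ S`; disjoint: the pairs have different colours, the edges are different by DBL.  A request joins ends of members of `Ms c`: given members (`MemIn`: ends in `U`, pairs not in `S`) or new
members (pairs in `X c`); different by `creq_ne` (`Dsj` passes to sublists).  Nodup: `creqs_fst`, `creqs_snd`, `Dsj (ms ++ new)`.  Balance: `nb (S \ uC D X) v = nb S v \ nb (uC D X) v`,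
`|nb (uC D X) v| + ∑ c ∈ D, ends (new c) v = 2 |cl (uC D X) v|` (`real_bal`, `real_mits`, disjoint unions), `creqs_rends`, `ends_append`; for `v ∉ U` everything is zero.
`|vt (S \ uC D X) c| = |W c| - siz (new c) = (rq c).length` (`real_vt_card`; `creqs_length`).  Last: `real_append`, `real_mits`, `fb_groups`.
-/

set_option autoImplicit false

namespace Pool.Agent.OBX

open Finset Pool.Agent.OBW

section
variable {V C : Type} [DecidableEq V] [DecidableEq C]

theorem finb_mem {c : C} {M : List (Mem V)} {i : Item V C} :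
    i ∈ mits c M ↔ ∃ m ∈ M, i ∈ mit c m := by
  unfold mits
  rw [mem_biUnion]
  simp only [List.mem_toFinset]

theorem finb_mit_inr {c e : C} {m : Mem V} {v : V} (h : (Sum.inr (v, e) : Item V C) ∈ mit c m) :
    e = c ∧ (v = m.1 ∨ v = m.2.1) := by
  unfold mit at h
  split_ifs at h with h1
  · rw [mem_singleton] at h
    have := Prod.ext_iff.1 (Sum.inr.inj h)
    exact ⟨this.2, Or.inl this.1⟩
  · rw [mem_insert, mem_insert, mem_singleton] at h
    rcases h with h | h | h
    · cases h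
    · have := Prod.ext_iff.1 (Sum.inr.inj h)
      exact ⟨this.2, Or.inl this.1⟩
    · have := Prod.ext_iff.1 (Sum.inr.inj h)
      exact ⟨this.2, Or.inr this.1⟩

theorem finb_mit_inl {c : C} {m : Mem V} {e : Sym2 V} (h : (Sum.inl e : Item V C) ∈ mit c m) :
    m.2.2 ≠ 1 ∧ e = s(m.1, m.2.1) := by
  unfold mit at h
  split_ifs at h with h1
  · rw [mem_singleton] at h
    cases h
  · rw [mem_insert, mem_insert, mem_singleton] at h
    rcases h with h | h | h
    · exact ⟨h1, Sum.inl.inj h⟩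
    · cases h
    · cases h

theorem finb_mit_left (c : C) (m : Mem V) : (Sum.inr (m.1, c) : Item V C) ∈ mit c m := by
  unfold mit
  split_ifs with h1
  · exact mem_singleton_self _
  · exact mem_insert_of_mem (mem_insert_self _ _)

theorem finb_mit_right (c : C) (m : Mem V) (h : m.2.2 = 1 → m.1 = m.2.1) :
    (Sum.inr (m.2.1, c) : Item V C) ∈ mit c m := by
  unfold mit
  split_ifs with h1
  · rw [← h h1]
    exact mem_singleton_self _
  · exact mem_insert_of_mem (mem_insert_of_mem (mem_singleton_self _))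

omit [DecidableEq V] in
theorem finb_nodup1 {M : List (Mem V)} (h : Dsj M) : (M.map (fun m => m.1)).Nodup := by
  unfold List.Nodup
  rw [List.pairwise_map]
  exact List.Pairwise.imp (fun h => h.1) h

omit [DecidableEq V] in
theorem finb_nodup2 {M : List (Mem V)} (h : Dsj M) : (M.map (fun m => m.2.1)).Nodup := by
  unfold List.Nodup
  rw [List.pairwise_map]
  exact List.Pairwise.imp (fun h => h.2.2.2) h

theorem finb_ends_zero {ms : List (Mem V)} {v : V} (h : ∀ m ∈ ms, m.1 ≠ v ∧ m.2.1 ≠ v) :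
    ends ms v = 0 := by
  induction ms with
  | nil => rfl
  | cons m ms ih =>
    rw [ends_cons, if_neg (h m List.mem_cons_self).1, if_neg (h m List.mem_cons_self).2,
      ih fun m' hm' => h m' (List.mem_cons_of_mem _ hm')]

end

section
variable {V C : Type} [Fintype V] [DecidableEq V] [Fintype C] [DecidableEq C]

theorem finb_nb {D : Finset C} {X : C → Finset (Item V C)}
    (h : ∀ c d, c ≠ d → Disjoint (X c) (X d)) (v : V) :
    (nb (uC D X) v).card = ∑ c ∈ D, (nb (X c) v).card := by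
  have e : nb (uC D X) v = D.biUnion (fun c => nb (X c) v) := by
    ext u
    unfold uC
    rw [mem_nb, mem_biUnion, mem_biUnion]
    simp only [mem_nb]
  rw [e, card_biUnion]
  intro a _ b _ hab
  exact nb_disj (h a b hab) v

theorem finb_cl {D : Finset C} {X : C → Finset (Item V C)}
    (h : ∀ c d, c ≠ d → Disjoint (X c) (X d)) (v : V) :
    (cl (uC D X) v).card = ∑ c ∈ D, (cl (X c) v).card := by
  have e : cl (uC D X) v = D.biUnion (fun c => cl (X c) v) := by
    ext u
    unfold uC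
    rw [mem_cl, mem_biUnion, mem_biUnion]
    simp only [mem_cl]
  rw [e, card_biUnion]
  intro a _ b _ hab
  exact cl_disj (h a b hab) v

theorem finb_core (U : Finset V) (D : Finset C) (S : Finset (Item V C)) (ms : C → List (Mem V))
    (Λ : C → Multiset ℕ) (new : C → List (Mem V)) (Ms : C → List (List (Mem V)))
    (a b : C → ℕ → V) (d : C → ℕ)
    (hin : Inside U D S) (hms : ∀ c ∈ D, MemIn U S c (ms c))
    (hbal : ∀ v ∈ U, (nb S v).card = 2 * (cl S v).card + ∑ c ∈ D, ends (ms c) v)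
    (hfl : ∀ c ∈ D, (Ms c).flatten = ms c ++ new c)
    (h2 : ∀ c ∈ D, ∀ M ∈ Ms c, 2 ≤ M.length)
    (hL : ∀ c ∈ D, (((Ms c).map (fun M => siz M + M.length) : List ℕ) : Multiset ℕ) = Λ c)
    (hdj : ∀ c ∈ D, Dsj (ms c ++ new c))
    (hnew : ∀ c ∈ D, ∀ m ∈ new c, (m.2.2 = 1 ∧ m.1 = m.2.1 ∧ m.1 ∈ vt S c) ∨
        (m.2.2 = 2 ∧ ∃ j < d c, m.1 = a c j ∧ m.2.1 = b c j))
    (hcard : ∀ c ∈ D, (vt S c).card = siz (new c) + (ms c).length + (new c).length)
    (hab : ∀ c ∈ D, ∀ j < d c, a c j ∈ vt S c ∧ b c j ∈ vt S c ∧ a c j ≠ b c j ∧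
      (Sum.inl s(a c j, b c j) : Item V C) ∈ S)
    (hedge : ∀ c ∈ D, ∀ c' ∈ D, c ≠ c' → ∀ i < d c, ∀ j < d c',
      s(a c i, b c i) ≠ s(a c' j, b c' j)) :
    ∃ (X : C → Finset (Item V C)) (rq : C → List (V × V)),
        (∀ c ∈ D, X c ⊆ S) ∧ (∀ c, c ∉ D → X c = ∅ ∧ rq c = []) ∧
        (∀ c v d, (Sum.inr (v, d) : Item V C) ∈ X c → d = c) ∧
        (∀ c d, c ≠ d → Disjoint (X c) (X d)) ∧
        (∀ c, ∀ r ∈ rq c, r.1 ∈ U ∧ r.2 ∈ U ∧ r.1 ≠ r.2 ∧
          (Sum.inr (r.1, c) : Item V C) ∉ S \ uC D X ∧ (Sum.inr (r.2, c) : Item V C) ∉ S \ uC D X) ∧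
        (∀ c, ((rq c).map Prod.fst).Nodup ∧ ((rq c).map Prod.snd).Nodup) ∧
        (∀ v, (nb (S \ uC D X) v).card = 2 * (cl (S \ uC D X) v).card + ∑ c, rends (rq c) v) ∧
        (∀ c, (vt (S \ uC D X) c).card = (rq c).length) ∧
        (∀ c ∈ D, ∀ Y Z, Real c (ms c) Y → RealL c (rq c) Z → Disjoint Y Z →
          Disjoint (Y ∪ Z) (X c) → Cycs c (Λ c) (Y ∪ X c ∪ Z)) := by
  classical
  obtain ⟨X, hX⟩ : ∃ X : C → Finset (Item V C),
      ∀ c, X c = if c ∈ D then mits c (new c) else ∅ := ⟨_, fun _ => rfl⟩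
  obtain ⟨rq, hrq⟩ : ∃ rq : C → List (V × V),
      ∀ c, rq c = if c ∈ D then ((Ms c).map creq).flatten else [] := ⟨_, fun _ => rfl⟩
  have hXD : ∀ c ∈ D, X c = mits c (new c) := fun c hc => by rw [hX, if_pos hc]
  have hXn : ∀ c, c ∉ D → X c = ∅ := fun c hc => by rw [hX, if_neg hc]
  have hrD : ∀ c ∈ D, rq c = ((Ms c).map creq).flatten := fun c hc => by rw [hrq, if_pos hc]
  have hrn : ∀ c, c ∉ D → rq c = [] := fun c hc => by rw [hrq, if_neg hc]
  -- the ends of the new members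
  have hend : ∀ c ∈ D, ∀ m ∈ new c, m.1 ∈ vt S c ∧ m.2.1 ∈ vt S c := by
    intro c hc m hm
    rcases hnew c hc m hm with ⟨_, h1, h2⟩ | ⟨_, j, hj, h1, h2⟩
    · exact ⟨h2, h1 ▸ h2⟩
    · rw [h1, h2]
      exact ⟨(hab c hc j hj).1, (hab c hc j hj).2.1⟩
  have hreal : ∀ c ∈ D, Real c (new c) (X c) := by
    intro c hc
    rw [hXD c hc]
    refine real_mits c (new c) (List.pairwise_append.1 (hdj c hc)).2.1 ?_
    intro m hm
    rcases hnew c hc m hm with ⟨h0, h1, _⟩ | ⟨h0, j, hj, h1, h2⟩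
    · exact Or.inl ⟨h0, h1⟩
    · refine Or.inr ⟨h0, ?_⟩
      rw [h1, h2]
      exact (hab c hc j hj).2.2.1
  have hsub : ∀ c ∈ D, X c ⊆ S := by
    intro c hc i hi
    rw [hXD c hc] at hi
    obtain ⟨m, hm, hi⟩ := finb_mem.1 hi
    cases i with
    | inl e =>
      obtain ⟨h1, h2⟩ := finb_mit_inl hi
      rcases hnew c hc m hm with ⟨h0, _, _⟩ | ⟨_, j, hj, h3, h4⟩
      · exact absurd h0 h1
      · rw [h2, h3, h4]
        exact (hab c hc j hj).2.2.2
    | inr e =>
      obtain ⟨v, e⟩ := e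
      obtain ⟨h1, h2⟩ := finb_mit_inr hi
      subst h1
      rcases h2 with rfl | rfl
      · exact (mem_vt _ _ _).1 (hend _ hc m hm).1
      · exact (mem_vt _ _ _).1 (hend _ hc m hm).2
  have hcol : ∀ c v d, (Sum.inr (v, d) : Item V C) ∈ X c → d = c := by
    intro c v e hi
    by_cases hc : c ∈ D
    · rw [hXD c hc] at hi
      obtain ⟨m, _, hi⟩ := finb_mem.1 hi
      exact (finb_mit_inr hi).1
    · rw [hXn c hc] at hi
      exact absurd hi (notMem_empty _)
  have hdisj : ∀ c d, c ≠ d → Disjoint (X c) (X d) := by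
    intro c e hce
    rw [disjoint_left]
    intro i hi hi'
    cases i with
    | inr x =>
      obtain ⟨v, f⟩ := x
      exact hce ((hcol c v f hi).symm.trans (hcol e v f hi'))
    | inl x =>
      by_cases hc : c ∈ D
      · by_cases he : e ∈ D
        · rw [hXD c hc] at hi
          rw [hXD e he] at hi'
          obtain ⟨m, hm, hi⟩ := finb_mem.1 hi
          obtain ⟨m', hm', hi'⟩ := finb_mem.1 hi'
          obtain ⟨h1, h2⟩ := finb_mit_inl hi
          obtain ⟨h1', h2'⟩ := finb_mit_inl hi'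
          rcases hnew c hc m hm with ⟨h0, _, _⟩ | ⟨_, j, hj, h3, h4⟩
          · exact h1 h0
          · rcases hnew e he m' hm' with ⟨h0, _, _⟩ | ⟨_, j', hj', h3', h4'⟩
            · exact h1' h0
            · rw [h3, h4] at h2
              rw [h3', h4'] at h2'
              exact hedge c hc e he hce j hj j' hj' (h2.symm.trans h2')
        · rw [hXn e he] at hi'
          exact absurd hi' (notMem_empty _)
      · rw [hXn c hc] at hi
        exact absurd hi (notMem_empty _)
  have huS : uC D X ⊆ S := by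
    intro i hi
    unfold uC at hi
    obtain ⟨c, hc, hi⟩ := mem_biUnion.1 hi
    exact hsub c hc hi
  have hbal' : ∀ v, (nb S v).card = 2 * (cl S v).card + ∑ c ∈ D, ends (ms c) v := by
    intro v
    by_cases hv : v ∈ U
    · exact hbal v hv
    · have e1 : nb S v = ∅ := by
        rw [eq_empty_iff_forall_notMem]
        intro u hu
        rw [mem_nb] at hu
        exact hv (hin.1 v u hu).2.1
      have e2 : cl S v = ∅ := by
        rw [eq_empty_iff_forall_notMem]
        intro u hu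
        rw [mem_cl] at hu
        exact hv (hin.2 v u hu).1
      have e3 : ∑ c ∈ D, ends (ms c) v = 0 := by
        refine sum_eq_zero fun c hc => finb_ends_zero fun m hm => ?_
        have := (hms c hc).2 m hm
        refine ⟨fun h => hv ?_, fun h => hv ?_⟩
        · rw [← h]; exact this.2.1
        · rw [← h]; exact this.2.2.1
      rw [e1, e2, e3]
      simp
  have hnoSu : ∀ c ∈ D, ∀ m ∈ ms c ++ new c, (m.1 ∈ U ∧
      (Sum.inr (m.1, c) : Item V C) ∉ S \ uC D X) ∧ (m.2.1 ∈ U ∧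
      (Sum.inr (m.2.1, c) : Item V C) ∉ S \ uC D X) := by
    intro c hc m hm
    rcases List.mem_append.1 hm with hm | hm
    · have := (hms c hc).2 m hm
      exact ⟨⟨this.2.1, fun h => this.2.2.2.1 (mem_sdiff.1 h).1⟩,
        ⟨this.2.2.1, fun h => this.2.2.2.2 (mem_sdiff.1 h).1⟩⟩
    · have h1 := hend c hc m hm
      have h3 : m.2.2 = 1 → m.1 = m.2.1 := by
        intro h
        rcases hnew c hc m hm with ⟨_, h1, _⟩ | ⟨h0, _⟩
        · exact h1
        · omega
      have h4 : ∀ i, i ∈ mit c m → i ∈ uC D X := by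
        intro i hi
        unfold uC
        refine mem_biUnion.2 ⟨c, hc, ?_⟩
        rw [hXD c hc]
        exact finb_mem.2 ⟨m, hm, hi⟩
      refine ⟨⟨(hin.2 _ c ((mem_vt _ _ _).1 h1.1)).1, fun h => (mem_sdiff.1 h).2 ?_⟩,
        ⟨(hin.2 _ c ((mem_vt _ _ _).1 h1.2)).1, fun h => (mem_sdiff.1 h).2 ?_⟩⟩
      · exact h4 _ (finb_mit_left c m)
      · exact h4 _ (finb_mit_right c m h3)
  refine ⟨X, rq, hsub, fun c hc => ⟨hXn c hc, hrn c hc⟩, hcol, hdisj, ?_, ?_, ?_, ?_, ?_⟩
  · intro c r hr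
    by_cases hc : c ∈ D
    · rw [hrD c hc] at hr
      obtain ⟨l, hl, hrl⟩ := List.mem_flatten.1 hr
      obtain ⟨M, hM, rfl⟩ := List.mem_map.1 hl
      obtain ⟨⟨m, hm, e1⟩, ⟨m', hm', e2⟩⟩ := creq_mem hrl
      have hmf : ∀ m ∈ M, m ∈ ms c ++ new c := by
        intro m hm
        rw [← hfl c hc]
        exact List.mem_flatten.2 ⟨M, hM, hm⟩
      have hDM : Dsj M := by
        have := hdj c hc
        rw [← hfl c hc] at this
        exact (List.pairwise_flatten.1 this).1 M hM
      have hne := creq_ne (h2 c hc M hM) hDM hrl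
      have f1 := (hnoSu c hc m (hmf m hm)).2
      have f2 := (hnoSu c hc m' (hmf m' hm')).1
      rw [← e1] at f1
      rw [← e2] at f2
      exact ⟨f1.1, f2.1, hne, f1.2, f2.2⟩
    · rw [hrn c hc] at hr
      exact absurd hr List.not_mem_nil
  · intro c
    by_cases hc : c ∈ D
    · rw [hrD c hc, creqs_fst, hfl c hc]
      refine ⟨finb_nodup2 (hdj c hc), ?_⟩
      rw [(creqs_snd (Ms c)).nodup_iff, hfl c hc]
      exact finb_nodup1 (hdj c hc)
    · rw [hrn c hc]
      simp
  · intro v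
    have e1 := nb_sdiff_card huS v
    have e2 := cl_sdiff_card huS v
    have e3 : (nb (uC D X) v).card + ∑ c ∈ D, ends (new c) v = 2 * (cl (uC D X) v).card := by
      rw [finb_nb hdisj, finb_cl hdisj, ← sum_add_distrib, mul_sum]
      exact sum_congr rfl fun c hc => real_bal (hreal c hc) v
    have e4 : ∑ c, rends (rq c) v = ∑ c ∈ D, ends (ms c) v + ∑ c ∈ D, ends (new c) v := by
      rw [← sum_add_distrib]
      rw [← sum_subset (subset_univ D)]
      · refine sum_congr rfl fun c hc => ?_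
        rw [hrD c hc, creqs_rends, hfl c hc, ends_append]
      · intro c _ hc
        rw [hrn c hc]
        rfl
    have e5 := hbal' v
    rw [e4]
    omega
  · intro c
    by_cases hc : c ∈ D
    · have e1 := vt_sdiff_card huS c
      have e2 : vt (uC D X) c = vt (X c) c := by
        ext v
        rw [mem_vt, mem_vt]
        unfold uC
        rw [mem_biUnion]
        constructor
        · rintro ⟨e, _, he⟩
          have := hcol e v c he
          rw [this]
          rw [this] at he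
          exact he
        · intro h
          exact ⟨c, hc, h⟩
      rw [e2, real_vt_card (hreal c hc)] at e1
      rw [hrD c hc, creqs_length, hfl c hc, List.length_append]
      have e3 := hcard c hc
      omega
    · rw [hrn c hc, List.length_nil, card_eq_zero, eq_empty_iff_forall_notMem]
      intro v hv
      rw [mem_vt] at hv
      exact hc (hin.2 v c (mem_sdiff.1 hv).1).2
  · intro c hc Y Z hY hZ hYZ hYX
    rw [disjoint_union_left] at hYX
    have r1 := real_append hY (hreal c hc) hYX.1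
    rw [← hfl c hc] at r1
    rw [hrD c hc] at hZ
    have hne : ∀ M ∈ Ms c, M ≠ [] := by
      intro M hM h
      have := h2 c hc M hM
      rw [h, List.length_nil] at this
      omega
    have r2 := fb_groups hne r1 hZ (disjoint_union_left.2 ⟨hYZ, hYX.2.symm⟩)
    rw [hL c hc] at r2
    exact r2

end

theorem finb_len (rs : List (ℕ × ℕ)) (L B : ℕ) (h : ∀ x ∈ rs, L ≤ 2 * x.2 + 3 * x.1)
    (hB : (rs.map (fun r => 2 * r.2 + 3 * r.1)).sum ≤ B) : rs.length * L ≤ B := by
  refine le_trans ?_ hB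
  have := List.card_nsmul_le_sum (rs.map (fun r => 2 * r.2 + 3 * r.1)) L (by
    intro x hx
    obtain ⟨y, hy, rfl⟩ := List.mem_map.1 hx
    exact h y hy)
  rw [List.length_map, smul_eq_mul] at this
  exact this

theorem finb_fst (rs : List (ℕ × ℕ)) (h : ∀ x ∈ rs, x.1 ≤ 1) : (rs.map Prod.fst).sum ≤ rs.length := by
  have := List.sum_le_card_nsmul (rs.map Prod.fst) 1 (by
    intro x hx
    obtain ⟨y, hy, rfl⟩ := List.mem_map.1 hx
    exact h y hy)
  rw [List.length_map, smul_eq_mul, mul_one] at this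
  exact this

theorem finB (hD : DblStmt) : FinBStmt := by
  obtain ⟨γ, hγ, m₁, hdbl⟩ := hD (1 / 2) 1 (by norm_num) one_pos
  refine ⟨max 40 ⌈2 / γ⌉₊, max (max m₁ ⌈2 / γ⌉₊) 1, ?_⟩
  intro V C _ _ _ _ U D S ms Λ hm hDU hin hdeg hvt hΛ hbal
  have hm1 : m₁ ≤ U.card := le_trans (le_trans (le_max_left _ _) (le_max_left _ _)) hm
  have hm2 : ⌈2 / γ⌉₊ ≤ U.card := le_trans (le_trans (le_max_right _ _) (le_max_left _ _)) hm
  have hm3 : 1 ≤ U.card := le_trans (le_max_right _ _) hm
  have hU2 : 2 / γ ≤ (U.card : ℝ) := le_trans (Nat.le_ceil _) (by exact_mod_cast hm2)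
  have hU0 : (1 : ℝ) ≤ U.card := by exact_mod_cast hm3
  have hL40 : 40 ≤ max 40 ⌈2 / γ⌉₊ := le_max_left _ _
  have hL2 : 2 / γ ≤ ((max 40 ⌈2 / γ⌉₊ : ℕ) : ℝ) :=
    le_trans (Nat.le_ceil _) (by exact_mod_cast le_max_right _ _)
  generalize max 40 ⌈2 / γ⌉₊ = L at hΛ hL40 hL2
  obtain ⟨u₀, hu₀⟩ : U.Nonempty := card_pos.1 (by omega)
  have : Nonempty V := ⟨u₀⟩
  have hWU : ∀ c, vt S c ⊆ U := by
    intro c v hv
    rw [mem_vt] at hv
    exact (hin.2 v c hv).1
  have hWc : ∀ c ∈ D, (99 / 100 : ℝ) * U.card ≤ ((vt S c).card : ℝ) := by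
    intro c hc
    have h1 := card_sdiff_add_card_eq_card (hWU c)
    have h2 := hvt c hc
    have h3 : ((U \ vt S c).card : ℝ) + (vt S c).card = U.card := by exact_mod_cast h1
    linarith
  have hWle : ∀ c, ((vt S c).card : ℝ) ≤ U.card := by
    intro c
    exact_mod_cast card_le_card (hWU c)
  have hne : ∀ c ∈ D, Λ c ≠ 0 := by
    intro c hc h0
    have h1 := (hΛ c hc).2.2.2.2
    rw [h0, Multiset.sum_zero] at h1
    have h2 := hWc c hc
    have h3 : (vt S c).card = 0 := by omega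
    rw [h3] at h2
    push_cast at h2
    linarith
  have hnum : ∀ c ∈ D, ∃ (r : ℕ × ℕ) (rs : List (ℕ × ℕ)),
      Λ c = (siz (ms c) + (ms c).length + (2 * r.2 + 3 * r.1)) ::ₘ
        ((rs.map (fun r => 2 * r.2 + 3 * r.1) : List ℕ) : Multiset ℕ) ∧
      ∀ x ∈ r :: rs, x.1 ≤ 1 ∧ 2 ≤ x.2 := by
    intro c hc
    obtain ⟨_, h2, h3, h4, _⟩ := hΛ c hc
    exact fb_num h2 h3 (fun l hl => le_trans hL40 (h4 l hl)) (hne c hc)
  choose! r rs hr1 hr2 using hnum
  obtain ⟨d, hd⟩ : ∃ d : C → ℕ, ∀ c, d c = ((r c :: rs c).map Prod.fst).sum := ⟨_, fun _ => rfl⟩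
  have hdle : ∀ c ∈ D, (d c : ℝ) ≤ γ * U.card := by
    intro c hc
    obtain ⟨_, _, _, h4, h5⟩ := hΛ c hc
    have e1 := hr1 c hc
    have h6 : (rs c).length * L ≤ (vt S c).card := by
      apply finb_len
      · intro x hx
        apply h4
        rw [e1]
        refine Multiset.mem_cons_of_mem ?_
        rw [Multiset.mem_coe]
        exact List.mem_map.2 ⟨x, hx, rfl⟩
      · rw [e1, Multiset.sum_cons, Multiset.sum_coe] at h5
        omega
    have h7 : d c ≤ 1 + (rs c).length := by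
      rw [hd]
      have := finb_fst (r c :: rs c) (fun x hx => (hr2 c hc x hx).1)
      rw [List.length_cons] at this
      omega
    have h8 : ((rs c).length : ℝ) * L ≤ U.card := le_trans (by exact_mod_cast h6) (hWle c)
    have h9 : ((rs c).length : ℝ) * (2 / γ) ≤ U.card :=
      le_trans (mul_le_mul_of_nonneg_left hL2 (Nat.cast_nonneg _)) h8
    have h10 : ((rs c).length : ℝ) * 2 ≤ γ * U.card := by
      have := mul_le_mul_of_nonneg_left h9 hγ.le
      have e : γ * (((rs c).length : ℝ) * (2 / γ)) = ((rs c).length : ℝ) * 2 := by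
        field_simp
      rw [e] at this
      exact this
    have h11 : 2 ≤ γ * U.card := by
      have := mul_le_mul_of_nonneg_left hU2 hγ.le
      have e : γ * (2 / γ) = 2 := by field_simp
      rw [e] at this
      exact this
    have h12 : (d c : ℝ) ≤ 1 + (rs c).length := by exact_mod_cast h7
    linarith
  obtain ⟨a, b, hab, hdis, hedge, _⟩ := hdbl V C (U.card : ℝ) D (vt S)
    (fun u v => (Sum.inl s(u, v) : Item V C) ∈ S) d (by exact_mod_cast hm1)
    (by exact_mod_cast hDU) (fun c hc => ⟨by linarith [hWc c hc], hWle c⟩)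
    (fun u v h => by rw [Sym2.eq_swap]; exact h)
    (by
      intro c hc u hu
      have h1 := hdeg u (hWU c hu)
      have h2 := hvt c hc
      have h3 : nb S u ⊆ (vt S c).filter (fun v => (Sum.inl s(u, v) : Item V C) ∈ S) ∪
          (U \ vt S c) := by
        intro w hw
        rw [mem_nb] at hw
        rw [mem_union]
        by_cases h : w ∈ vt S c
        · exact Or.inl (mem_filter.2 ⟨h, hw⟩)
        · exact Or.inr (mem_sdiff.2 ⟨(hin.1 u w hw).2.2, h⟩)
      have h4 := le_trans (card_le_card h3) (card_union_le _ _)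
      have h5 : ((nb S u).card : ℝ) ≤
          (((vt S c).filter (fun v => (Sum.inl s(u, v) : Item V C) ∈ S)).card : ℝ) +
          ((U \ vt S c).card : ℝ) := by exact_mod_cast h4
      have h6 := hWle c
      have h7 : ((vt S c).card : ℝ) / 2 ≤
          (((vt S c).filter (fun v => (Sum.inl s(u, v) : Item V C) ∈ S)).card : ℝ) := by linarith
      refine le_trans h7 ?_
      refine Nat.cast_le.2 (card_le_card ?_)
      intro w hw
      simp only [mem_filter] at hw ⊢
      exact hw)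
    hdle
  have hcol : ∀ c ∈ D, ∃ (new : List (Mem V)) (Ms : List (List (Mem V))),
      Ms.flatten = ms c ++ new ∧ (∀ M ∈ Ms, 2 ≤ M.length) ∧
      ((Ms.map (fun M => siz M + M.length) : List ℕ) : Multiset ℕ) = Λ c ∧
      Dsj (ms c ++ new) ∧
      (∀ m ∈ new, (m.2.2 = 1 ∧ m.1 = m.2.1 ∧ m.1 ∈ vt S c) ∨
        (m.2.2 = 2 ∧ ∃ j < d c, m.1 = a c j ∧ m.2.1 = b c j)) ∧
      (vt S c).card = siz new + (ms c).length + new.length := by
    intro c hc
    obtain ⟨h1, h2, _, _, h5⟩ := hΛ c hc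
    refine fb_colour (vt S c) (ms c) (Λ c) (r c) (rs c) (d c) (a c) (b c) (hr1 c hc) (hr2 c hc)
      (hd c) h5 h2 ?_ ?_ (hdis c hc)
    · intro m hm
      have := h1.2 m hm
      refine ⟨this.1, ?_, ?_⟩
      · rw [mem_vt]; exact this.2.2.2.1
      · rw [mem_vt]; exact this.2.2.2.2
    · intro j hj
      have := hab c hc j hj
      exact ⟨this.1, this.2.1, this.2.2.1⟩
  choose! new Ms hfl h2 hL hdj hnew hcard using hcol
  exact finb_core U D S ms Λ new Ms a b d hin (fun c hc => (hΛ c hc).1) hbal hfl h2 hL hdj hnew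
    hcard (fun c hc j hj => hab c hc j hj) hedge

end Pool.Agent.OBX
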