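import Pool.Agent.OBX.FdStmts

set_option autoImplicit false

/-!
MODULE Nx (difficulty 2).  The cyclic successor inside the groups `[E i, E (i+1))` (lengths ≥ 2).

RECIPE.  Every `j < n` is in exactly one interval (the `E i` are increasing, `E 0 = 0`, `E q = n`): for existence take the
largest `i ≤ q` with `E i ≤ j` (or induction on `q`).  Define `nx j = if ∃ i < q, j + 1 = E (i + 1) then E i (Classical.choose) else j + 1`
(or induction on `q`: keep the old `nx` for `j < E q`, new group above).  Different from `j` since the groups have length ≥ 2.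
-/

namespace Pool.Agent.OBX

open Finset Pool.Agent.OBW

theorem nx_mono {E : ℕ → ℕ} {q : ℕ} (hE : ∀ i < q, E i + 2 ≤ E (i + 1)) :
    ∀ k i : ℕ, i + k ≤ q → E i ≤ E (i + k) := by
  intro k
  induction k with
  | zero => intro i _; exact le_refl _
  | succ k ih =>
    intro i hi
    have h1 := ih i (by omega)
    have h2 := hE (i + k) (by omega)
    have h3 : i + (k + 1) = i + k + 1 := by omega
    rw [h3]
    omega

theorem nx_uniq {E : ℕ → ℕ} {q : ℕ} (hE : ∀ i < q, E i + 2 ≤ E (i + 1)) {i i' j : ℕ}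
    (hi : i < q) (hi' : i' < q) (h1 : E i ≤ j) (h2 : j < E (i + 1)) (h1' : E i' ≤ j)
    (h2' : j < E (i' + 1)) : i = i' := by
  rcases Nat.lt_trichotomy i i' with h | h | h
  · exfalso
    have := nx_mono hE (i' - (i + 1)) (i + 1) (by omega)
    have e : i + 1 + (i' - (i + 1)) = i' := by omega
    rw [e] at this
    omega
  · exact h
  · exfalso
    have := nx_mono hE (i - (i' + 1)) (i' + 1) (by omega)
    have e : i' + 1 + (i - (i' + 1)) = i := by omega
    rw [e] at this
    omega

theorem nx_ex {E : ℕ → ℕ} (h0 : E 0 = 0) : ∀ q : ℕ, ∀ j, j < E q →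
    ∃ i < q, E i ≤ j ∧ j < E (i + 1) := by
  intro q
  induction q with
  | zero => intro j hj; rw [h0] at hj; omega
  | succ q ih =>
    intro j hj
    by_cases h : j < E q
    · obtain ⟨i, hi, h1⟩ := ih j h
      exact ⟨i, by omega, h1⟩
    · exact ⟨q, by omega, by omega, hj⟩

theorem nx_ : NxStmt := by
  classical
  intro n q E h0 hE hq
  obtain ⟨nx, hnx⟩ : ∃ nx : ℕ → ℕ, ∀ i < q, ∀ j, E i ≤ j → j < E (i + 1) →
      nx j = if j + 1 = E (i + 1) then E i else j + 1 := by
    refine ⟨fun j => if h : ∃ i, i < q ∧ E i ≤ j ∧ j < E (i + 1) then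
      (if j + 1 = E (Classical.choose h + 1) then E (Classical.choose h) else j + 1) else j, ?_⟩
    intro i hi j h1 h2
    have h : ∃ i, i < q ∧ E i ≤ j ∧ j < E (i + 1) := ⟨i, hi, h1, h2⟩
    have hs := Classical.choose_spec h
    have e : Classical.choose h = i := nx_uniq hE hs.1 hi hs.2.1 hs.2.2 h1 h2
    simp only [dif_pos h, e]
  have hle : ∀ i, i ≤ q → E i ≤ n := by
    intro i hi
    have := nx_mono hE (q - i) i (by omega)
    have e : i + (q - i) = q := by omega
    rw [e, hq] at this
    exact this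
  -- the successor stays in the group
  have hgr : ∀ i < q, ∀ j, E i ≤ j → j < E (i + 1) → E i ≤ nx j ∧ nx j < E (i + 1) := by
    intro i hi j h1 h2
    have h3 := hE i hi
    rw [hnx i hi j h1 h2]
    split_ifs with h
    · exact ⟨le_refl _, by omega⟩
    · exact ⟨by omega, by omega⟩
  refine ⟨nx, hnx, ?_, ?_, ?_⟩
  · intro j hj
    obtain ⟨i, hi, h1, h2⟩ := nx_ex h0 q j (by rw [hq]; exact hj)
    have h3 := hE i hi
    have h4 := hle (i + 1) (by omega)
    have h5 := hgr i hi j h1 h2
    refine ⟨by omega, ?_⟩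
    rw [hnx i hi j h1 h2]
    split_ifs with h
    · omega
    · omega
  · intro j hj j' hj' hjj
    have hj1 : j < n := Set.mem_Iio.1 hj
    have hj1' : j' < n := Set.mem_Iio.1 hj'
    obtain ⟨i, hi, h1, h2⟩ := nx_ex h0 q j (by rw [hq]; exact hj1)
    obtain ⟨i', hi', h1', h2'⟩ := nx_ex h0 q j' (by rw [hq]; exact hj1')
    have h5 := hgr i hi j h1 h2
    have h5' := hgr i' hi' j' h1' h2'
    rw [hjj] at h5
    have e := nx_uniq hE hi hi' h5.1 h5.2 h5'.1 h5'.2
    subst e
    rw [hnx i hi j h1 h2, hnx i hi j' h1' h2'] at hjj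
    split_ifs at hjj with h6 h7 h7
    · omega
    · omega
    · omega
    · omega
  · intro j hj
    obtain ⟨i, hi, h1, h2⟩ := nx_ex h0 q j (by rw [hq]; exact hj)
    have h3 := hE i hi
    have h4 := hle (i + 1) (by omega)
    by_cases h : j = E i
    · refine ⟨E (i + 1) - 1, by omega, ?_⟩
      rw [hnx i hi (E (i + 1) - 1) (by omega) (by omega), if_pos (by omega)]
      exact h.symm
    · refine ⟨j - 1, by omega, ?_⟩
      rw [hnx i hi (j - 1) (by omega) (by omega), if_neg (by omega)]
      omega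

end Pool.Agent.OBX
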