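import Pool.Agent.OBX.FdStmts
import Pool.Agent.OBX.RealB
import Pool.Agent.OBX.LKa

set_option autoImplicit false

/-!
MODULE Stp (difficulty 3).  One step which finishes a colour.  Use `RealB` and `LKa` (their stubs; both are being proved).

RECIPE.  Lemma P (`Real` is invariant under `List.Perm`): induction on the Perm with `real_cons`, `real_cons_inv`, `real_nil`.
Lemma E: `ends` is invariant under Perm (`List.Perm.map`, `List.Perm.sum_eq`), `siz` too.
col: `real_col`, `link_col`.
bal: `nb (R ∪ ⋃ g j) v` = disjoint union; `real_bal`, `link_bal`; `∑_{j<n} [b j = v] + [a (nx j) = v] = ∑_{j<n} [b j = v] + [a j = v]`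
(`nx` permutes `range n`: `Finset.sum_bij` / `sum_nbij'`), which is `ends` of the list, = `ends ms v + ends ns v`.
cnt: `real_vt_card`, `link_vt_card` (`t = 1`): `|vt X c| = siz ns + n`; `siz ms + siz ns = ∑_{j<n} s j`; `Λ.sum = ∑_{i<q} ∑_{j ∈ Ico} (s j + 1) =
∑_{j<n} (s j + 1)` (induction on `q`, `Finset.sum_Ico_consecutive`).
run: `Y` real of `ms`, `Disjoint Y X`: `real_append` gives `Real c (ms ++ ns) (Y ∪ R)`, Lemma P for the list `(range n).map …`, so
there are `y j` with `IsPath (s j) c (a j) (b j) (y j)`, disjoint, union `Y ∪ R`; then `hcyc` with `t j = 1`, `e = E`;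
`Y₁ = Y ∪ X`, `Y' = ∅`, `Λ₁ = Λ`.
-/

namespace Pool.Agent.OBX

open Finset Pool.Agent.OBW

theorem stp_perm {V C : Type} [DecidableEq V] [DecidableEq C] {c : C} {l l' : List (Mem V)} (h : l.Perm l') :
    ∀ Y : Finset (Item V C), Real c l Y → Real c l' Y := by
  induction h with
  | nil => exact fun Y h => h
  | cons x _ ih =>
    intro Y h
    obtain ⟨q, Y', h1, h2, h3, rfl⟩ := real_cons_inv h
    exact real_cons h1 (ih Y' h2) h3
  | swap x y l =>
    intro Y h
    obtain ⟨q, Y', h1, h2, h3, rfl⟩ := real_cons_inv h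
    obtain ⟨q', Y'', h4, h5, h6, rfl⟩ := real_cons_inv h2
    rw [disjoint_union_right] at h3
    have e : q ∪ (q' ∪ Y'') = q' ∪ (q ∪ Y'') := by
      rw [← union_assoc, ← union_assoc, union_comm q q']
    rw [e]
    refine real_cons h4 (real_cons h1 h5 h3.2) ?_
    rw [disjoint_union_right]
    exact ⟨h3.1.symm, h6⟩
  | trans _ _ ih1 ih2 => exact fun Y h => ih2 Y (ih1 Y h)

theorem stp_sum (f : ℕ → ℕ) (n : ℕ) : ((List.range n).map f).sum = ∑ j ∈ range n, f j := by
  induction n with
  | zero => simp
  | succ n ih => rw [List.range_succ, List.map_append, List.sum_append, ih, Finset.sum_range_succ]; simp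

theorem stp_ends_perm {V : Type} [DecidableEq V] {l l' : List (Mem V)} (h : l.Perm l') (v : V) :
    ends l v = ends l' v := (h.map _).sum_eq

theorem stp_siz_perm {V : Type} [DecidableEq V] {l l' : List (Mem V)} (h : l.Perm l') : siz l = siz l' :=
  (h.map _).sum_eq

theorem stp_mono {q : ℕ} {E : ℕ → ℕ} (hE : ∀ i < q, E i < E (i + 1)) : ∀ j ≤ q, ∀ i ≤ j, E i ≤ E j := by
  intro j
  induction j with
  | zero =>
    intro _ i hi
    rw [Nat.le_zero.1 hi]
  | succ j ih =>
    intro hj i hi
    rcases Nat.lt_or_ge i (j + 1) with h | h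
    · exact (ih (by omega) i (by omega)).trans (hE j (by omega)).le
    · have : i = j + 1 := by omega
      rw [this]

theorem stp_Ico {q : ℕ} {E : ℕ → ℕ} (h0 : E 0 = 0) (hE : ∀ i < q, E i < E (i + 1)) (f : ℕ → ℕ) :
    ∀ k ≤ q, ∑ i ∈ range k, ∑ j ∈ Ico (E i) (E (i + 1)), f j = ∑ j ∈ range (E k), f j := by
  intro k
  induction k with
  | zero => intro _; rw [h0]; simp
  | succ k ih =>
    intro hk
    rw [Finset.sum_range_succ, ih (by omega), Finset.range_eq_Ico, Finset.range_eq_Ico,
      Finset.sum_Ico_consecutive f (Nat.zero_le _) (hE k (by omega)).le]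

theorem stp_nb {V C : Type} [Fintype V] [DecidableEq V] [Fintype C] [DecidableEq C] {n : ℕ}
    {g : ℕ → Finset (Item V C)} (h : ∀ i < n, ∀ j < n, i ≠ j → Disjoint (g i) (g j)) (v : V) :
    (nb ((range n).biUnion g) v).card = ∑ j ∈ range n, (nb (g j) v).card := by
  have e : nb ((range n).biUnion g) v = (range n).biUnion (fun j => nb (g j) v) := by
    ext u
    simp only [mem_nb, mem_biUnion]
  rw [e, card_biUnion]
  intro i hi j hj hij
  exact nb_disj (h i (mem_range.1 hi) j (mem_range.1 hj) hij) v

theorem stp_cl {V C : Type} [Fintype V] [DecidableEq V] [Fintype C] [DecidableEq C] {n : ℕ}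
    {g : ℕ → Finset (Item V C)} (h : ∀ i < n, ∀ j < n, i ≠ j → Disjoint (g i) (g j)) (v : V) :
    (cl ((range n).biUnion g) v).card = ∑ j ∈ range n, (cl (g j) v).card := by
  have e : cl ((range n).biUnion g) v = (range n).biUnion (fun j => cl (g j) v) := by
    ext u
    simp only [mem_cl, mem_biUnion]
  rw [e, card_biUnion]
  intro i hi j hj hij
  exact cl_disj (h i (mem_range.1 hi) j (mem_range.1 hj) hij) v

theorem stp_vt {V C : Type} [Fintype V] [DecidableEq V] [Fintype C] [DecidableEq C] {n : ℕ}
    {g : ℕ → Finset (Item V C)} (h : ∀ i < n, ∀ j < n, i ≠ j → Disjoint (g i) (g j)) (c : C) :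
    (vt ((range n).biUnion g) c).card = ∑ j ∈ range n, (vt (g j) c).card := by
  have e : vt ((range n).biUnion g) c = (range n).biUnion (fun j => vt (g j) c) := by
    ext u
    simp only [mem_vt, mem_biUnion]
  rw [e, card_biUnion]
  intro i hi j hj hij
  exact vt_disj (h i (mem_range.1 hi) j (mem_range.1 hj) hij) c

theorem stp (hcyc : CycStmt) : StpStmt := by
  intro V C _ _ _ _ c ms ns R Λ n q E nx a b s g hR hperm hE0 hE hEq hnx hg hgd hRg hΛ
  obtain ⟨hnx1, hnx2, hnx3, hnx4⟩ := hnx
  have hRG : Disjoint R ((range n).biUnion g) := by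
    rw [disjoint_biUnion_right]
    intro j hj
    exact hRg j (mem_range.1 hj)
  have hmono := stp_mono hE
  refine ⟨?_, ?_, ?_, ?_⟩
  · intro v c' h
    rcases mem_union.1 h with h | h
    · exact real_col hR h
    · obtain ⟨j, hj, hx⟩ := mem_biUnion.1 h
      exact link_col (hg j (mem_range.1 hj)) hx
  · intro v
    have e1 := real_bal hR v
    have e2 : ends ((List.range n).map (fun j => ((a j, b j, s j) : Mem V))) v =
        ∑ j ∈ range n, ((if a j = v then 1 else 0) + (if b j = v then 1 else 0)) := by
      unfold ends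
      rw [List.map_map, ← stp_sum]
      rfl
    rw [stp_ends_perm hperm v, ends_append, Finset.sum_add_distrib] at e2
    have e3 : ∑ j ∈ range n, (if a (nx j) = v then 1 else 0) = ∑ j ∈ range n, (if a j = v then 1 else 0) := by
      refine Finset.sum_nbij nx ?_ ?_ ?_ ?_
      · intro j hj
        exact mem_range.2 (hnx2 j (mem_range.1 hj)).1
      · intro i hi j hj hij
        exact hnx3 (by simpa using hi) (by simpa using hj) hij
      · intro j hj
        obtain ⟨i, hi, hij⟩ := hnx4 j (by simpa using hj)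
        exact ⟨i, by simpa using hi, hij⟩
      · intro j _
        rfl
    have e4 : ∑ j ∈ range n, (nb (g j) v).card = ∑ j ∈ range n, 2 * (cl (g j) v).card +
        ∑ j ∈ range n, (if b j = v then 1 else 0) + ∑ j ∈ range n, (if a j = v then 1 else 0) := by
      rw [← e3, ← Finset.sum_add_distrib, ← Finset.sum_add_distrib]
      refine Finset.sum_congr rfl ?_
      intro j hj
      exact link_bal (hg j (mem_range.1 hj)) v
    rw [nb_union, cl_union, card_union_of_disjoint (nb_disj hRG v), card_union_of_disjoint (cl_disj hRG v),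
      stp_nb hgd, stp_cl hgd, e4, ← Finset.mul_sum]
    have e5 : ends ([] : List (Mem V)) v = 0 := rfl
    rw [e5]
    omega
  · have e2 : siz ((List.range n).map (fun j => ((a j, b j, s j) : Mem V))) = ∑ j ∈ range n, s j := by
      unfold siz
      rw [List.map_map, ← stp_sum]
      rfl
    rw [stp_siz_perm hperm, siz_append] at e2
    have e3 : ∑ j ∈ range n, (vt (g j) c).card = n := by
      rw [Finset.sum_congr rfl (fun j hj => link_vt_card (hg j (mem_range.1 hj)))]
      simp
    have e4 : Λ.sum = ∑ j ∈ range n, (s j + 1) := by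
      rw [← hΛ, ← hEq, ← stp_Ico hE0 hE (fun j => s j + 1) q le_rfl]
      rfl
    rw [Finset.sum_add_distrib] at e4
    simp only [sum_const, card_range, smul_eq_mul, mul_one] at e4
    rw [vt_union, card_union_of_disjoint (vt_disj hRG c), stp_vt hgd, e3, real_vt_card hR, e4]
    have e5 : siz ([] : List (Mem V)) = 0 := rfl
    rw [e5, Multiset.sum_zero]
    omega
  · intro Y hY hYX
    rw [disjoint_union_right] at hYX
    have h1 := stp_perm hperm.symm _ (real_append hY hR hYX.1)
    obtain ⟨y, hy1, hy2, hy3⟩ := h1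
    rw [List.length_map, List.length_range] at hy2 hy3
    have hlen : ((List.range n).map (fun j => ((a j, b j, s j) : Mem V))).length = n := by simp
    have hyp : ∀ j < n, IsPath (s j) c (a j) (b j) (y j) := by
      intro j hj
      have h := hy1 j (by rw [hlen]; exact hj)
      simpa using h
    have hyYR : ∀ j < n, y j ⊆ Y ∪ R := by
      intro j hj
      rw [hy3]
      exact subset_biUnion_of_mem y (mem_range.2 hj)
    have hYg : ∀ j < n, Disjoint (Y ∪ R) (g j) := by
      intro j hj
      rw [disjoint_union_left]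
      exact ⟨disjoint_of_subset_right (subset_biUnion_of_mem g (mem_range.2 hj)) hYX.2, hRg j hj⟩
    have hC := hcyc V C c n q E a b s (fun _ => 1) y g hE0 hE hEq hyp
      (fun i hi j hij hj => by
        have hjn : j < n := by
          have := hmono q le_rfl (i + 1) (by omega)
          omega
        rw [← hnx1 i hi j hij hj]
        exact hg j hjn)
      (fun i hi j hj => disjoint_of_subset_left (hyYR i hi) (hYg j hj))
      (fun i hi j hj hij => ⟨hy2 i hi j hj hij, hgd i hi j hj hij⟩)
    refine ⟨Y ∪ (R ∪ (range n).biUnion g), ∅, Λ, disjoint_empty_right _, union_empty _, real_nil c, ?_, (add_zero _).symm⟩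
    rw [← union_assoc, hy3, ← hΛ]
    exact hC

end Pool.Agent.OBX
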