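import Pool.Agent.OBX.Arr
import Pool.Agent.OBX.Nx
import Pool.Agent.OBX.Stp
import Pool.Agent.OBX.FdSet
import Pool.Agent.OBX.FdA
import Pool.Agent.OBX.FdB

set_option autoImplicit false

/-! FINDO: the colours of `D \ D'` are finished inside `U'`. -/

namespace Pool.Agent.OBX

open Finset Pool.Agent.OBW

theorem finDo (hpart : PartStmt) (hgrp : GrpStmt) (hdbl : DblStmt) (htok : TokStmt)
    (hcyc : CycStmt) : FinDoStmt :=
  finDo_of (fdA (arr hgrp) (set_ hpart) hdbl) (fdB nx_ (stp hcyc) htok)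

end Pool.Agent.OBX
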