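import Mathlib
import Pool.Agent.OBX.Stmts
import Pool.Agent.OBX.Util

set_option autoImplicit false
set_option linter.unusedSectionVars false

/-!
OBX: link requests, elementary steps (join, close, open), the greedy plan of one colour
(used by `FinInStmt`).
-/

namespace Pool.Agent.OBX

open Finset Pool.Agent.OBW

section
variable {V C : Type} [Fintype V] [DecidableEq V] [Fintype C] [DecidableEq C]

/-- `G` is a disjoint union of links realizing the requests `rs` (roots, number of inner vertices). -/
def RealR (c : C) (rs : List (Mem V)) (G : Finset (Item V C)) : Prop :=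
  ∃ g : ℕ → Finset (Item V C),
    (∀ i (h : i < rs.length), IsLink (rs[i]).2.2 c (rs[i]).1 (rs[i]).2.1 (g i)) ∧
    (∀ i < rs.length, ∀ j < rs.length, i ≠ j → Disjoint (g i) (g j)) ∧
    G = (range rs.length).biUnion g

theorem pln_range_succ {α : Type} [DecidableEq α] (n : ℕ) (g : ℕ → Finset α) :
    (range (n + 1)).biUnion g = g 0 ∪ (range n).biUnion (fun i => g (i + 1)) := by
  ext x
  simp only [mem_union, mem_biUnion, mem_range]
  constructor
  · rintro ⟨i, hi, hx⟩
    rcases Nat.eq_zero_or_pos i with h | h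
    · subst h; exact Or.inl hx
    · obtain ⟨k, rfl⟩ : ∃ k, i = k + 1 := ⟨i - 1, by omega⟩
      exact Or.inr ⟨k, by omega, hx⟩
  · rintro (hx | ⟨i, hi, hx⟩)
    · exact ⟨0, by omega, hx⟩
    · exact ⟨i + 1, by omega, hx⟩

theorem RealR.cons {c : C} {r : Mem V} {rs : List (Mem V)} {G : Finset (Item V C)}
    (h : RealR c (r :: rs) G) :
    ∃ g G', IsLink r.2.2 c r.1 r.2.1 g ∧ RealR c rs G' ∧ Disjoint g G' ∧ G = g ∪ G' := by
  obtain ⟨g, h1, h2, rfl⟩ := h
  refine ⟨g 0, (range rs.length).biUnion (fun i => g (i + 1)), h1 0 (by simp),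
    ⟨fun i => g (i + 1), ?_, ?_, rfl⟩, ?_, ?_⟩
  · intro i hi
    exact h1 (i + 1) (by simpa using hi)
  · intro i hi j hj hij
    exact h2 (i + 1) (by simpa using hi) (j + 1) (by simpa using hj) (by omega)
  · rw [disjoint_biUnion_right]
    intro i hi
    exact h2 0 (by simp) (i + 1) (by simpa using mem_range.1 hi) (by omega)
  · rw [List.length_cons, pln_range_succ]

theorem RealR.nil {c : C} {G : Finset (Item V C)} (h : RealR c ([] : List (Mem V)) G) : G = ∅ := by
  obtain ⟨g, _, _, rfl⟩ := h
  simp

theorem Real.cons_inv {c : C} {m : Mem V} {ms : List (Mem V)} {Y : Finset (Item V C)}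
    (h : Real c (m :: ms) Y) :
    ∃ q Y', IsPath m.2.2 c m.1 m.2.1 q ∧ Real c ms Y' ∧ Disjoint q Y' ∧ Y = q ∪ Y' := by
  obtain ⟨g, h1, h2, rfl⟩ := h
  refine ⟨g 0, (range ms.length).biUnion (fun i => g (i + 1)), h1 0 (by simp),
    ⟨fun i => g (i + 1), ?_, ?_, rfl⟩, ?_, ?_⟩
  · intro i hi
    exact h1 (i + 1) (by simpa using hi)
  · intro i hi j hj hij
    exact h2 (i + 1) (by simpa using hi) (j + 1) (by simpa using hj) (by omega)
  · rw [disjoint_biUnion_right]
    intro i hi
    exact h2 0 (by simp) (i + 1) (by simpa using mem_range.1 hi) (by omega)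
  · rw [List.length_cons, pln_range_succ]

theorem Real.cons {c : C} {m : Mem V} {ms : List (Mem V)} {q Y : Finset (Item V C)}
    (hq : IsPath m.2.2 c m.1 m.2.1 q) (hY : Real c ms Y) (h : Disjoint q Y) :
    Real c (m :: ms) (q ∪ Y) :=
  Real.append (ms := [m]) (Real.singleton hq) hY h

theorem Real.colour {c : C} {ms : List (Mem V)} {Y : Finset (Item V C)} (h : Real c ms Y)
    {v : V} {d : C} (hv : (Sum.inr (v, d) : Item V C) ∈ Y) : d = c := by
  obtain ⟨q, h1, h2, rfl⟩ := h
  obtain ⟨i, hi, hv⟩ := mem_biUnion.1 hv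
  exact (h1 i (mem_range.1 hi)).colour hv

/-! ### links -/

theorem nb_pair {a x : V} (h : a ≠ x) (v : V) :
    (nb ({(Sum.inl s(a, x) : Item V C)} : Finset (Item V C)) v).card =
      (if a = v then 1 else 0) + (if x = v then 1 else 0) := by
  by_cases h1 : a = v
  · subst h1
    have e : nb ({(Sum.inl s(a, x) : Item V C)} : Finset (Item V C)) a = {x} := by
      ext u
      rw [mem_nb, mem_singleton, mem_singleton]
      constructor
      · intro h2
        have h3 := Sum.inl.inj h2
        rw [Sym2.eq_iff] at h3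
        rcases h3 with h3 | h3
        · exact h3.2
        · exact absurd h3.1 h
      · rintro rfl; rfl
    rw [e, card_singleton, if_pos rfl, if_neg (fun h2 => h h2.symm)]
  · by_cases h2 : x = v
    · subst h2
      have e : nb ({(Sum.inl s(a, x) : Item V C)} : Finset (Item V C)) x = {a} := by
        ext u
        rw [mem_nb, mem_singleton, mem_singleton]
        constructor
        · intro h2
          have h3 := Sum.inl.inj h2
          rw [Sym2.eq_iff] at h3
          rcases h3 with h3 | h3
          · exact absurd h3.1.symm h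
          · exact h3.2
        · rintro rfl; rw [Sym2.eq_swap]
      rw [e, card_singleton, if_neg h1, if_pos rfl]
    · have e : nb ({(Sum.inl s(a, x) : Item V C)} : Finset (Item V C)) v = ∅ := by
        ext u
        rw [mem_nb, mem_singleton]
        constructor
        · intro h3
          have h3 := Sum.inl.inj h3
          rw [Sym2.eq_iff] at h3
          rcases h3 with h3 | h3
          · exact absurd h3.1.symm h1
          · exact absurd h3.1.symm h2
        · intro h3; exact absurd h3 (notMem_empty _)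
      rw [e, card_empty, if_neg h1, if_neg h2]

theorem nb_card_union {S T : Finset (Item V C)} (h : Disjoint S T) (v : V) :
    (nb (S ∪ T) v).card = (nb S v).card + (nb T v).card := by
  rw [nb_union, card_union_of_disjoint (nb_disj h v)]

theorem cl_card_union {S T : Finset (Item V C)} (h : Disjoint S T) (v : V) :
    (cl (S ∪ T) v).card = (cl S v).card + (cl T v).card := by
  rw [cl_union, card_union_of_disjoint (cl_disj h v)]

theorem vt_card_union {S T : Finset (Item V C)} (h : Disjoint S T) (c : C) :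
    (vt (S ∪ T) c).card = (vt S c).card + (vt T c).card := by
  rw [vt_union, card_union_of_disjoint (vt_disj h c)]

theorem IsLink.inr_iff {t : ℕ} {c : C} {a b : V} {g : Finset (Item V C)} (h : IsLink t c a b g) :
    ∃ (x y : V) (q : Finset (Item V C)), IsPath t c x y q ∧
      (∀ v d, (Sum.inr (v, d) : Item V C) ∈ g ↔ (Sum.inr (v, d) : Item V C) ∈ q) ∧
      (Sum.inr (a, c) : Item V C) ∉ q ∧ (Sum.inr (b, c) : Item V C) ∉ q ∧
      g = q ∪ ({Sum.inl s(a, x)} ∪ {Sum.inl s(y, b)}) := by
  obtain ⟨hab, x, y, q, hq, ha, hb, rfl⟩ := h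
  refine ⟨x, y, q, hq, ?_, ha, hb, ?_⟩
  · intro v d
    simp
  · congr 1

theorem IsLink.colour {t : ℕ} {c d : C} {a b v : V} {g : Finset (Item V C)} (h : IsLink t c a b g)
    (hv : (Sum.inr (v, d) : Item V C) ∈ g) : d = c := by
  obtain ⟨x, y, q, hq, hi, _, _, _⟩ := h.inr_iff
  exact hq.colour ((hi v d).1 hv)

theorem IsLink.root {t : ℕ} {c : C} {a b : V} {g : Finset (Item V C)} (h : IsLink t c a b g) :
    (Sum.inr (a, c) : Item V C) ∉ g ∧ (Sum.inr (b, c) : Item V C) ∉ g := by
  obtain ⟨x, y, q, hq, hi, ha, hb, _⟩ := h.inr_iff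
  exact ⟨fun h1 => ha ((hi _ _).1 h1), fun h1 => hb ((hi _ _).1 h1)⟩

theorem IsLink.vt_card {t : ℕ} {c : C} {a b : V} {g : Finset (Item V C)} (h : IsLink t c a b g) :
    (vt g c).card = t := by
  obtain ⟨x, y, q, hq, hi, ha, hb, _⟩ := h.inr_iff
  have e : vt g c = vt q c := by
    ext v
    rw [mem_vt, mem_vt, hi]
  rw [e, hq.vt_card]

theorem IsLink.bal {t : ℕ} {c : C} {a b : V} {g : Finset (Item V C)} (h : IsLink t c a b g) (v : V) :
    (nb g v).card = 2 * (cl g v).card + ((if a = v then 1 else 0) + (if b = v then 1 else 0)) := by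
  have hab := h.1
  obtain ⟨x, y, q, hq, hi, ha, hb, hg⟩ := h.inr_iff
  have e : cl g v = cl q v := by
    ext d
    rw [mem_cl, mem_cl, hi]
  have hax : a ≠ x := fun h1 => ha (h1 ▸ hq.left)
  have hyb : y ≠ b := fun h1 => hb (h1 ▸ hq.right)
  have d1 : (Sum.inl s(a, x) : Item V C) ∉ q := fun h1 => ha (hq.ends_mem h1).1
  have d2 : (Sum.inl s(y, b) : Item V C) ∉ q := fun h1 => hb (hq.ends_mem h1).2
  have d3 : (Sum.inl s(a, x) : Item V C) ≠ Sum.inl s(y, b) := by
    intro h1
    have h2 := Sum.inl.inj h1
    rw [Sym2.eq_iff] at h2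
    rcases h2 with h2 | h2
    · exact ha (h2.1 ▸ hq.right)
    · exact hab h2.1
  have h1 := hq.bal v
  rw [e, hg, nb_card_union, nb_card_union, nb_pair hax, nb_pair hyb]
  · omega
  · rw [disjoint_singleton]; exact d3
  · rw [disjoint_union_right, disjoint_singleton_right, disjoint_singleton_right]
    exact ⟨d1, d2⟩

theorem IsLink.edge {t : ℕ} {c : C} {a b u v : V} {g : Finset (Item V C)} (h : IsLink t c a b g)
    (huv : (Sum.inl s(u, v) : Item V C) ∈ g) :
    (Sum.inr (u, c) : Item V C) ∈ g ∨ (Sum.inr (v, c) : Item V C) ∈ g := by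
  obtain ⟨x, y, q, hq, hi, ha, hb, hg⟩ := h.inr_iff
  rw [hi, hi]
  rw [hg, mem_union, mem_union, mem_singleton, mem_singleton] at huv
  rcases huv with h1 | h1 | h1
  · exact Or.inl (hq.ends_mem h1).1
  · have h2 := Sum.inl.inj h1
    rw [Sym2.eq_iff] at h2
    rcases h2 with h2 | h2
    · right; rw [h2.2]; exact hq.left
    · left; rw [h2.1]; exact hq.left
  · have h2 := Sum.inl.inj h1
    rw [Sym2.eq_iff] at h2
    rcases h2 with h2 | h2
    · left; rw [h2.1]; exact hq.right
    · right; rw [h2.2]; exact hq.right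

/-! ### elementary steps -/

theorem step_join (hJ : JoinStmt) {c : C} {a b a' b' : V} {s s' t : ℕ} {g : Finset (Item V C)}
    {rest : List (Mem V)} {Λ : Multiset ℕ} (hg : IsLink t c b a' g) :
    Step c ((a, b, s) :: (a', b', s') :: rest) g Λ ((a, b', s + t + s') :: rest) Λ := by
  refine ⟨fun v d h => hg.colour h, ?_, ?_, ?_⟩
  · intro v
    have h1 := hg.bal v
    rw [ends_cons, ends_cons, ends_cons]
    simp only
    omega
  · rw [hg.vt_card, siz_cons, siz_cons, siz_cons]
    simp only
    omega
  · intro Y hY hd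
    obtain ⟨q, Y1, hq, hY1, hd1, rfl⟩ := hY.cons_inv
    obtain ⟨q', Y2, hq', hY2, hd2, rfl⟩ := hY1.cons_inv
    rw [disjoint_union_right] at hd1
    rw [disjoint_union_left, disjoint_union_left] at hd
    have hp := hJ V C s t s' c a b a' b' q g q' hq hg hq' hd.1 hd1.1 hd.2.1.symm
    refine ⟨∅, (q ∪ g ∪ q') ∪ Y2, 0, disjoint_empty_left _, ?_, ?_, ?_, ?_⟩
    · ext i; simp only [mem_union]; tauto
    · refine Real.cons (m := (a, b', s + t + s')) hp hY2 ?_
      rw [disjoint_union_left, disjoint_union_left]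
      exact ⟨⟨hd1.2, hd.2.2.symm⟩, hd2⟩
    · refine ⟨∅, ?_, ?_, ?_, ?_⟩
      · intro p hp; exact absurd hp (notMem_empty _)
      · simp
      · intro p hp; exact absurd hp (notMem_empty _)
      · intro l; simp [cnt_eq]
    · simp

theorem step_close (hC : CloseStmt) {c : C} {a b : V} {s t : ℕ} {g : Finset (Item V C)}
    {rest : List (Mem V)} {Λ : Multiset ℕ} (hg : IsLink t c b a g) :
    Step c ((a, b, s) :: rest) g ((s + t) ::ₘ Λ) rest Λ := by
  refine ⟨fun v d h => hg.colour h, ?_, ?_, ?_⟩
  · intro v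
    have h1 := hg.bal v
    rw [ends_cons]
    simp only
    omega
  · rw [hg.vt_card, siz_cons, Multiset.sum_cons]
    simp only
    omega
  · intro Y hY hd
    obtain ⟨q, Y1, hq, hY1, hd1, rfl⟩ := hY.cons_inv
    rw [disjoint_union_left] at hd
    have hp := hC V C s t c a b q g hq hg hd.1
    refine ⟨q ∪ g, Y1, {s + t}, ?_, ?_, hY1, ?_, ?_⟩
    · rw [disjoint_union_left]
      exact ⟨hd1, hd.2.symm⟩
    · ext i; simp only [mem_union]; tauto
    · refine ⟨{q ∪ g}, ?_, ?_, ?_, ?_⟩
      · intro p hp' r hr hpr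
        rw [mem_singleton] at hp' hr
        exact absurd (hp'.trans hr.symm) hpr
      · simp [un]
      · intro p hp'
        rw [mem_singleton] at hp'
        subst hp'
        exact ⟨_, hp⟩
      · intro l
        classical
        rw [cnt_eq]
        by_cases hl : l = s + t
        · subst hl
          rw [Multiset.count_singleton_self, card_eq_one]
          refine ⟨q ∪ g, ?_⟩
          ext r
          rw [mem_filter, mem_singleton]
          constructor
          · exact fun h => h.1
          · rintro rfl; exact ⟨rfl, hp⟩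
        · rw [Multiset.count_singleton, if_neg hl, card_eq_zero]
          ext r
          rw [mem_filter, mem_singleton]
          constructor
          · rintro ⟨rfl, h2⟩
            exact absurd (h2.uniq hp).1 hl
          · intro h; exact absurd h (notMem_empty _)
    · rw [Multiset.singleton_add]

theorem step_open (hJ : JoinStmt) {c : C} {a b x y : V} {s : ℕ} {g₁ g₂ : Finset (Item V C)}
    {Λ : Multiset ℕ} (h1 : IsLink 1 c x a g₁) (h2 : IsLink 1 c b y g₂) (hd : Disjoint g₁ g₂)
    (hxy : x ≠ y) (hP : Disjoint (g₁ ∪ g₂) ({Sum.inr (x, c), Sum.inr (y, c)} : Finset (Item V C))) :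
    Step c [(a, b, s)] ((g₁ ∪ g₂) ∪ {Sum.inr (x, c), Sum.inr (y, c)}) Λ [(x, y, s + 4)] Λ := by
  have hP2 : ({Sum.inr (x, c), Sum.inr (y, c)} : Finset (Item V C)) =
      {Sum.inr (x, c)} ∪ {Sum.inr (y, c)} := rfl
  have hxy' : Disjoint ({Sum.inr (x, c)} : Finset (Item V C)) {Sum.inr (y, c)} := by
    rw [disjoint_singleton]
    intro h
    exact hxy (Prod.mk.inj (Sum.inr.inj h)).1
  have hnb0 : ∀ z v : V, nb ({Sum.inr (z, c)} : Finset (Item V C)) v = ∅ := by
    intro z v
    ext u
    rw [mem_nb, mem_singleton]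
    constructor
    · intro h; exact absurd h (by simp)
    · intro h; exact absurd h (notMem_empty _)
  have hcl0 : ∀ z v : V, (cl ({Sum.inr (z, c)} : Finset (Item V C)) v).card =
      if z = v then 1 else 0 := by
    intro z v
    by_cases hz : z = v
    · subst hz
      have e : cl ({Sum.inr (z, c)} : Finset (Item V C)) z = {c} := by
        ext d
        rw [mem_cl, mem_singleton, mem_singleton]
        constructor
        · intro h; exact (Prod.mk.inj (Sum.inr.inj h)).2
        · rintro rfl; rfl
      rw [e, card_singleton, if_pos rfl]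
    · rw [if_neg hz, card_eq_zero]
      ext d
      rw [mem_cl, mem_singleton]
      constructor
      · intro h; exact absurd (Prod.mk.inj (Sum.inr.inj h)).1.symm hz
      · intro h; exact absurd h (notMem_empty _)
  have hvt0 : ∀ z : V, (vt ({Sum.inr (z, c)} : Finset (Item V C)) c).card = 1 := by
    intro z
    have e : vt ({Sum.inr (z, c)} : Finset (Item V C)) c = {z} := by
      ext d
      rw [mem_vt, mem_singleton, mem_singleton]
      constructor
      · intro h; exact (Prod.mk.inj (Sum.inr.inj h)).1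
      · rintro rfl; rfl
    rw [e, card_singleton]
  refine ⟨?_, ?_, ?_, ?_⟩
  · intro v d h
    rw [mem_union, mem_union, mem_insert, mem_singleton] at h
    rcases h with (h | h) | (h | h)
    · exact h1.colour h
    · exact h2.colour h
    · exact (Prod.mk.inj (Sum.inr.inj h)).2
    · exact (Prod.mk.inj (Sum.inr.inj h)).2
  · intro v
    have e1 := h1.bal v
    have e2 := h2.bal v
    rw [nb_card_union hP, nb_card_union hd, cl_card_union hP, cl_card_union hd, hP2,
      nb_card_union hxy', cl_card_union hxy', hnb0, hnb0, hcl0, hcl0, ends_cons, ends_cons,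
      card_empty]
    simp only
    have e3 : ends ([] : List (Mem V)) v = 0 := rfl
    omega
  · rw [vt_card_union hP, vt_card_union hd, hP2, vt_card_union hxy', hvt0, hvt0, h1.vt_card,
      h2.vt_card, siz_cons, siz_cons]
    simp only
    omega
  · intro Y hY hdY
    obtain ⟨q, Y1, hq, hY1, hd1, rfl⟩ := hY.cons_inv
    have hY1' := hY1.eq_empty
    subst hY1'
    rw [union_empty] at hdY ⊢
    simp only at hq
    rw [hP2, disjoint_union_right, disjoint_union_right, disjoint_union_right] at hdY
    rw [hP2, disjoint_union_left, disjoint_union_right, disjoint_union_right] at hP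
    have hp1 := hJ V C 1 1 s c x x a b _ g₁ q (IsPath.single c x) h1 hq hP.1.1.symm
      hdY.2.1.symm hdY.1.1.symm
    have hp2 := hJ V C (1 + 1 + s) 1 1 c x b y y _ g₂ _ hp1 h2 (IsPath.single c y) ?_ ?_ hP.2.2
    · refine ⟨∅, q ∪ (g₁ ∪ g₂ ∪ ({Sum.inr (x, c)} ∪ {Sum.inr (y, c)})), 0,
        disjoint_empty_left _, empty_union _, ?_, ?_, ?_⟩
      · refine Real.singleton (m := (x, y, s + 4)) ?_
        simp only
        have e : 1 + 1 + s + 1 + 1 = s + 4 := by omega
        rw [e] at hp2
        convert hp2 using 1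
        ext i; simp only [mem_union]; tauto
      · refine ⟨∅, ?_, ?_, ?_, ?_⟩
        · intro p hp; exact absurd hp (notMem_empty _)
        · simp
        · intro p hp; exact absurd hp (notMem_empty _)
        · intro l; simp [cnt_eq]
      · simp
    · rw [disjoint_union_left, disjoint_union_left]
      exact ⟨⟨hP.2.1.symm, hd⟩, hdY.1.2⟩
    · rw [disjoint_union_left, disjoint_union_left]
      exact ⟨⟨hxy', hP.1.2⟩, hdY.2.2⟩

/-- the members `ms` have pairwise different ends -/
def SepW (ms : List (Mem V)) : Prop :=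
  ms.Pairwise (fun m m' => m.1 ≠ m'.1 ∧ m.1 ≠ m'.2.1 ∧ m.2.1 ≠ m'.1 ∧ m.2.1 ≠ m'.2.1)

/-- **the greedy plan of one colour** -/
theorem plan (hJ : JoinStmt) (hC : CloseStmt) (hT : TransStmt) (c : C) (W : ℕ) (x y : V)
    (hxy : x ≠ y) :
    ∀ (ms : List (Mem V)) (a b : V) (s l : ℕ) (Λ : Multiset ℕ),
    a ≠ b → (∀ m ∈ ms, m.1 ≠ m.2.1 ∧ m.2.2 ≤ W) → SepW ((a, b, s) :: ms) →
    (∀ m ∈ (a, b, s) :: ms, m.1 ≠ x ∧ m.2.1 ≠ x ∧ m.1 ≠ y ∧ m.2.1 ≠ y) →
    s + 6 ≤ l → (∀ l' ∈ Λ, W + 31 ≤ l') →
    s + 1 + (siz ms + ms.length) + (Multiset.card Λ + 1) * (W + 26) ≤ l + Λ.sum →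
    ∃ (rs : List (Mem V)) (P : Finset (Item V C)) (ms' : List (Mem V)) (Λ' : Multiset ℕ),
      (∀ r ∈ rs, r.1 ≠ r.2.1 ∧ 1 ≤ r.2.2 ∧
        (r.1 = x ∨ 0 < ends ((a, b, s) :: ms) r.1) ∧
        (r.2.1 = y ∨ 0 < ends ((a, b, s) :: ms) r.2.1)) ∧
      (∀ v, ends rs v ≤ ends ((a, b, s) :: ms) v +
        ((if x = v then 1 else 0) + (if y = v then 1 else 0))) ∧
      siz rs ≤ ms.length + 2 + (Multiset.card Λ + 1) * (W + 26) ∧
      Λ' ≤ l ::ₘ Λ ∧
      ((P = ∅ ∧ ms' = []) ∨ (P = {Sum.inr (x, c), Sum.inr (y, c)} ∧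
        ∃ s', 2 ≤ s' ∧ ms' = [(x, y, s')] ∧ ∃ l' ∈ Λ', s' + 20 ≤ l')) ∧
      ∀ G, RealR c rs G → Disjoint G P → Step c ((a, b, s) :: ms) (G ∪ P) (l ::ₘ Λ) ms' Λ' := by
  intro ms
  induction ms with
  | nil =>
    intro a b s l Λ hab _ _ hends hs hΛ hroom
    have hax := hends (a, b, s) List.mem_cons_self
    simp only at hax
    by_cases h : l < s + 26
    · refine ⟨[(b, a, l - s)], ∅, [], Λ, ?_, ?_, ?_, Multiset.le_cons_self _ _,
        Or.inl ⟨rfl, rfl⟩, ?_⟩
      · intro r hr
        rw [List.mem_singleton] at hr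
        subst hr
        simp only
        refine ⟨hab.symm, by omega, Or.inr ?_, Or.inr ?_⟩
        · rw [ends_cons]; simp
        · rw [ends_cons]; simp
      · intro v
        rw [ends_cons, ends_cons]
        simp only
        omega
      · rw [siz_cons]
        have e : siz ([] : List (Mem V)) = 0 := rfl
        have e2 : W + 26 ≤ (Multiset.card Λ + 1) * (W + 26) :=
          Nat.le_mul_of_pos_left _ (Nat.succ_pos _)
        simp only [e, List.length_nil]
        omega
      · intro G hG _
        obtain ⟨g, G', hg, hG', _, rfl⟩ := hG.cons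
        have := hG'.nil
        subst this
        rw [union_empty, union_empty]
        simp only at hg
        have h1 := step_close hC (rest := []) (Λ := Λ) (s := s) hg
        have e : s + (l - s) = l := by omega
        rw [e] at h1
        exact h1
    · refine ⟨[(x, a, 1), (b, y, 1)], {Sum.inr (x, c), Sum.inr (y, c)}, [(x, y, s + 4)],
        l ::ₘ Λ, ?_, ?_, ?_, le_refl _, Or.inr ⟨rfl, s + 4, by omega, rfl, l,
        Multiset.mem_cons_self _ _, by omega⟩, ?_⟩
      · intro r hr
        rw [List.mem_cons, List.mem_singleton] at hr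
        rcases hr with rfl | rfl
        · refine ⟨hax.1.symm, le_refl _, Or.inl rfl, Or.inr ?_⟩
          rw [ends_cons]; simp
        · refine ⟨hax.2.2.2, le_refl _, Or.inr ?_, Or.inl rfl⟩
          rw [ends_cons]; simp
      · intro v
        rw [ends_cons, ends_cons, ends_cons]
        simp only
        omega
      · rw [siz_cons, siz_cons]
        have e : siz ([] : List (Mem V)) = 0 := rfl
        simp only [e, List.length_nil]
        nlinarith [Nat.zero_le (Multiset.card Λ), Nat.zero_le W]
      · intro G hG hGP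
        obtain ⟨g, G', hg, hG', hd1, rfl⟩ := hG.cons
        obtain ⟨g', G'', hg', hG'', hd2, rfl⟩ := hG'.cons
        have := hG''.nil
        subst this
        rw [union_empty] at hGP hd1 ⊢
        exact step_open hJ hg hg' hd1 hxy hGP
  | cons m ms ih =>
    obtain ⟨a', b', s'⟩ := m
    intro a b s l Λ hab hm hsep hends hs hΛ hroom
    have hm0 := hm (a', b', s') List.mem_cons_self
    simp only at hm0
    obtain ⟨hsep1, hsep2⟩ := List.pairwise_cons.1 hsep
    obtain ⟨hsep3, hsep4⟩ := List.pairwise_cons.1 hsep2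
    have h0 := hsep1 (a', b', s') List.mem_cons_self
    simp only at h0
    rw [siz_cons, List.length_cons] at hroom
    simp only at hroom
    by_cases h : s + 1 + s' + 6 ≤ l
    · have hA : SepW ((a, b', s + 1 + s') :: ms) := by
        unfold SepW
        rw [List.pairwise_cons]
        refine ⟨?_, hsep4⟩
        intro m hm'
        have k1 := hsep1 m (List.mem_cons_of_mem _ hm')
        have k2 := hsep3 m hm'
        simp only at k1 k2 ⊢
        exact ⟨k1.1, k1.2.1, k2.2.2.1, k2.2.2.2⟩
      have hB : ∀ m ∈ (a, b', s + 1 + s') :: ms, m.1 ≠ x ∧ m.2.1 ≠ x ∧ m.1 ≠ y ∧ m.2.1 ≠ y := by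
        intro m hm'
        rw [List.mem_cons] at hm'
        rcases hm' with rfl | hm'
        · have k1 := hends (a, b, s) List.mem_cons_self
          have k2 := hends (a', b', s') (List.mem_cons_of_mem _ List.mem_cons_self)
          simp only at k1 k2 ⊢
          exact ⟨k1.1, k2.2.1, k1.2.2.1, k2.2.2.2⟩
        · exact hends m (List.mem_cons_of_mem _ (List.mem_cons_of_mem _ hm'))
      obtain ⟨rs, P, ms', Λ', h1, h2, h3, h4, h5, h6⟩ := ih a b' (s + 1 + s') l Λ h0.2.1
        (fun m hm' => hm m (List.mem_cons_of_mem _ hm')) hA hB h hΛ (by omega)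
      have hle : ∀ v, ends ((a, b', s + 1 + s') :: ms) v ≤
          ends ((a, b, s) :: (a', b', s') :: ms) v := by
        intro v
        rw [ends_cons, ends_cons, ends_cons]
        simp only
        omega
      refine ⟨(b, a', 1) :: rs, P, ms', Λ', ?_, ?_, ?_, h4, h5, ?_⟩
      · intro r hr
        rw [List.mem_cons] at hr
        rcases hr with rfl | hr
        · simp only
          refine ⟨h0.2.2.1, le_refl _, Or.inr ?_, Or.inr ?_⟩
          · rw [ends_cons]; simp
          · rw [ends_cons, ends_cons]; simp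
        · obtain ⟨k1, k2, k3, k4⟩ := h1 r hr
          exact ⟨k1, k2, k3.imp_right (fun h => lt_of_lt_of_le h (hle _)),
            k4.imp_right (fun h => lt_of_lt_of_le h (hle _))⟩
      · intro v
        have h2v := h2 v
        rw [ends_cons] at h2v ⊢
        rw [ends_cons, ends_cons]
        simp only at h2v ⊢
        omega
      · rw [siz_cons, List.length_cons]
        simp only
        omega
      · intro G hG hGP
        obtain ⟨g, G', hg, hG', hd1, rfl⟩ := hG.cons
        rw [disjoint_union_left] at hGP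
        have k := hT V C c _ _ _ g (G' ∪ P) _ _ _ (step_join hJ (s := s) (s' := s')
          (rest := ms) (Λ := l ::ₘ Λ) (a := a) (b' := b') hg) (h6 G' hG' hGP.2)
          (by rw [disjoint_union_right]; exact ⟨hd1, hGP.1⟩)
        rw [← union_assoc] at k
        exact k
    · have hne : Λ ≠ 0 := by
        rintro rfl
        simp only [Multiset.card_zero, Multiset.sum_zero] at hroom
        omega
      obtain ⟨l', hl'⟩ := Multiset.exists_mem_of_ne_zero hne
      obtain ⟨Λ₁, rfl⟩ := Multiset.exists_cons_of_mem hl'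
      have hl'W := hΛ l' hl'
      rw [Multiset.card_cons, Multiset.sum_cons] at hroom
      have hmul : (Multiset.card Λ₁ + 1 + 1) * (W + 26) =
          (Multiset.card Λ₁ + 1) * (W + 26) + (W + 26) := by ring
      rw [hmul] at hroom
      obtain ⟨rs, P, ms', Λ', h1, h2, h3, h4, h5, h6⟩ := ih a' b' s' l' Λ₁ hm0.1
        (fun m hm' => hm m (List.mem_cons_of_mem _ hm')) hsep2
        (fun m hm' => hends m (List.mem_cons_of_mem _ hm')) (by omega)
        (fun l'' hl'' => hΛ l'' (Multiset.mem_cons_of_mem hl'')) (by omega)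
      have hle : ∀ v, ends ((a', b', s') :: ms) v ≤
          ends ((a, b, s) :: (a', b', s') :: ms) v := by
        intro v
        rw [ends_cons (a, b, s)]
        exact Nat.le_add_left _ _
      refine ⟨(b, a, l - s) :: rs, P, ms', Λ', ?_, ?_, ?_, h4.trans (Multiset.le_cons_self _ _),
        h5, ?_⟩
      · intro r hr
        rw [List.mem_cons] at hr
        rcases hr with rfl | hr
        · simp only
          refine ⟨hab.symm, by omega, Or.inr ?_, Or.inr ?_⟩
          · rw [ends_cons]; simp
          · rw [ends_cons]; simp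
        · obtain ⟨k1, k2, k3, k4⟩ := h1 r hr
          exact ⟨k1, k2, k3.imp_right (fun h => lt_of_lt_of_le h (hle _)),
            k4.imp_right (fun h => lt_of_lt_of_le h (hle _))⟩
      · intro v
        have h2v := h2 v
        rw [ends_cons (b, a, l - s), ends_cons (a, b, s)]
        simp only at h2v ⊢
        omega
      · rw [siz_cons, List.length_cons, Multiset.card_cons, hmul]
        simp only
        omega
      · intro G hG hGP
        obtain ⟨g, G', hg, hG', hd1, rfl⟩ := hG.cons
        rw [disjoint_union_left] at hGP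
        simp only at hg
        have k0 := step_close hC (rest := (a', b', s') :: ms) (Λ := l' ::ₘ Λ₁) (s := s) hg
        have e : s + (l - s) = l := by omega
        rw [e] at k0
        have k := hT V C c _ _ _ g (G' ∪ P) _ _ _ k0 (h6 G' hG' hGP.2)
            (by rw [disjoint_union_right]; exact ⟨hd1, hGP.1⟩)
        rw [← union_assoc] at k
        exact k

end
end Pool.Agent.OBX
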