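import Mathlib
import Pool.Agent.OBX.Stmts
import Pool.Agent.OBX.Util
import Pool.Agent.OBX.Pln

set_option autoImplicit false
set_option linter.unusedSectionVars false

/-!
OBX: `FinInStmt` from JOIN, CLOSE, TRANS, SGL, GAP.
-/

namespace Pool.Agent.OBX

open Finset Pool.Agent.OBW

section
variable {V C : Type} [Fintype V] [DecidableEq V] [Fintype C] [DecidableEq C]

theorem fin_ends_sum (rs : List (Mem V)) (v : V) :
    ends rs v = ∑ j : Fin rs.length,
      ((if (rs[j.1]).1 = v then 1 else 0) + (if (rs[j.1]).2.1 = v then 1 else 0)) := by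
  unfold ends
  rw [← Fin.sum_univ_fun_getElem]

theorem fin_siz_sum (rs : List (Mem V)) :
    siz rs = ∑ j : Fin rs.length, (rs[j.1]).2.2 := by
  unfold siz
  rw [← Fin.sum_univ_fun_getElem]

/-- the requests of all colours: number of requests at `v` -/
theorem fin_count (rs : C → List (Mem V)) (v : V) :
    (univ.filter (fun i : (Σ c : C, Fin (rs c).length) =>
      ((rs i.1)[i.2.1]).1 = v ∨ ((rs i.1)[i.2.1]).2.1 = v)).card ≤ ∑ c, ends (rs c) v := by
  classical
  rw [card_filter, Fintype.sum_sigma]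
  apply sum_le_sum
  intro c _
  rw [fin_ends_sum]
  apply sum_le_sum
  intro j _
  by_cases h1 : ((rs c)[j.1]).1 = v
  · rw [if_pos (Or.inl h1), if_pos h1]; omega
  · by_cases h2 : ((rs c)[j.1]).2.1 = v
    · rw [if_pos (Or.inr h2), if_pos h2]; omega
    · rw [if_neg (by tauto)]; omega

/-- the requests of the colour `d`: total number of inner vertices -/
theorem fin_colsum (rs : C → List (Mem V)) (d : C) :
    (∑ i : (Σ c : C, Fin (rs c).length) with i.1 = d, ((((rs i.1)[i.2.1]).2.2 : ℕ) : ℝ)) =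
      (siz (rs d) : ℝ) := by
  classical
  rw [sum_filter, Fintype.sum_sigma, Finset.sum_eq_single d]
  · rw [fin_siz_sum, Nat.cast_sum]
    apply sum_congr rfl
    intro j _
    rw [if_pos rfl]
  · intro c _ hc
    apply sum_eq_zero
    intro j _
    rw [if_neg hc]
  · intro h; exact absurd (mem_univ d) h

theorem fin_realR {c : C} {rs : List (Mem V)} (g : Fin rs.length → Finset (Item V C))
    (h1 : ∀ j : Fin rs.length, IsLink (rs[j.1]).2.2 c (rs[j.1]).1 (rs[j.1]).2.1 (g j))
    (h2 : ∀ i j : Fin rs.length, i ≠ j → Disjoint (g i) (g j)) :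
    RealR c rs (univ.biUnion g) := by
  refine ⟨fun j => if h : j < rs.length then g ⟨j, h⟩ else ∅, ?_, ?_, ?_⟩
  · intro i hi
    simp only [hi, dif_pos]
    exact h1 ⟨i, hi⟩
  · intro i hi j hj hij
    simp only [hi, hj, dif_pos]
    exact h2 _ _ (fun h => hij (by simpa using h))
  · ext x
    simp only [mem_biUnion, mem_univ, true_and, mem_range]
    constructor
    · rintro ⟨j, hj⟩
      exact ⟨j.1, j.2, by simpa using hj⟩
    · rintro ⟨j, hj, hx⟩
      rw [dif_pos hj] at hx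
      exact ⟨⟨j, hj⟩, hx⟩

theorem real_nil_step {c : C} {Λ : Multiset ℕ} : Step c ([] : List (Mem V)) ∅ Λ [] Λ := by
  refine ⟨?_, ?_, ?_, ?_⟩
  · intro v d h; exact absurd h (notMem_empty _)
  · intro v; simp
  · simp
  · intro Y hY _
    have := hY.eq_empty
    subst this
    refine ⟨∅, ∅, 0, disjoint_empty_left _, by simp, Real.nil c, ?_, by simp⟩
    refine ⟨∅, ?_, ?_, ?_, ?_⟩
    · intro p hp; exact absurd hp (notMem_empty _)
    · simp
    · intro p hp; exact absurd hp (notMem_empty _)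
    · intro l; simp [cnt_eq]

/-- the plan of one colour, in the form used for `FinIn` -/
theorem fin_col (hJ : JoinStmt) (hC : CloseStmt) (hT : TransStmt) (W L₁ : ℕ) (κ M : ℝ)
    (hκ : 0 < κ) (hκ1 : κ ≤ 1 / 100) (hL : (W + 1) * (W + 26) * 4 ≤ κ * L₁) (hLW : W + 31 ≤ L₁)
    (hM : 4 * ((W : ℝ) + 28) ≤ κ * M)
    (U' : Finset V) (T : Finset (Item V C)) (c : C)
    (ms : List (Mem V)) (Λ : Multiset ℕ) (x y : V) (hxy : x ≠ y)
    (hx : (Sum.inr (x, c) : Item V C) ∈ T) (hy : (Sum.inr (y, c) : Item V C) ∈ T)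
    (hms : MemIn U' T c ms) (hlen : (ms.length : ℝ) ≤ κ / 2 * M) (hsiz : Siz W 6 ms Λ)
    (hΛ : ∀ l ∈ Λ, L₁ ≤ l) (hvt : (vt T c).card + siz ms = Λ.sum)
    (hvt1 : (98 / 100) * M ≤ ((vt T c).card : ℝ)) (hvt2 : ((vt T c).card : ℝ) ≤ M) :
    ∃ (rs : List (Mem V)) (P : Finset (Item V C)) (ms' : List (Mem V)) (Λ' : Multiset ℕ),
      (∀ r ∈ rs, r.1 ≠ r.2.1 ∧ 1 ≤ r.2.2 ∧ (r.1 = x ∨ 0 < ends ms r.1) ∧
        (r.2.1 = y ∨ 0 < ends ms r.2.1)) ∧
      (∀ v, ends rs v ≤ ends ms v + ((if x = v then 1 else 0) + (if y = v then 1 else 0))) ∧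
      (siz rs : ℝ) ≤ κ * M ∧ Λ' ≤ Λ ∧
      ((P = ∅ ∧ ms' = []) ∨ (P = {Sum.inr (x, c), Sum.inr (y, c)} ∧
        ∃ s', 2 ≤ s' ∧ ms' = [(x, y, s')] ∧ ∃ l' ∈ Λ', s' + 20 ≤ l')) ∧
      ∀ G, RealR c rs G → Disjoint G P → Step c ms (G ∪ P) Λ ms' Λ' := by
  have hM0 : 0 < M := by
    by_contra hcon
    push Not at hcon
    have : κ * M ≤ 0 := mul_nonpos_of_nonneg_of_nonpos hκ.le hcon
    have h2 : (0 : ℝ) ≤ W := Nat.cast_nonneg _
    linarith
  cases ms with
  | nil =>
    refine ⟨[], ∅, [], Λ, by simp, ?_, ?_, le_refl _, Or.inl ⟨rfl, rfl⟩, ?_⟩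
    · intro v
      have e : ends ([] : List (Mem V)) v = 0 := rfl
      rw [e]; exact Nat.zero_le _
    · have e : siz ([] : List (Mem V)) = 0 := rfl
      rw [e]; simp only [Nat.cast_zero]; positivity
    · intro G hG _
      have := hG.nil
      subst this
      rw [union_empty]
      exact real_nil_step
  | cons m tl =>
    obtain ⟨a, b, s⟩ := m
    obtain ⟨hsep, hin⟩ := hms
    obtain ⟨hsep1, hsep2⟩ := hsep
    obtain ⟨hz1, hz2⟩ := hsiz
    obtain ⟨l, hl, hsl⟩ := hz2 (a, b, s) (by simp)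
    simp only [List.tail_cons] at hz1
    simp only at hsl
    obtain ⟨Λ₁, rfl⟩ := Multiset.exists_cons_of_mem hl
    rw [Multiset.sum_cons, siz_cons] at hvt
    simp only at hvt
    -- size of the tail
    have hszt : siz tl ≤ W * tl.length := by
      have : ∀ ns : List (Mem V), (∀ m ∈ ns, m.2.2 ≤ W) → siz ns ≤ W * ns.length := by
        intro ns
        induction ns with
        | nil => intro _; exact Nat.zero_le _
        | cons n ns ih =>
          intro h
          rw [siz_cons, List.length_cons, Nat.mul_succ]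
          have h1 := h n List.mem_cons_self
          have h2 := ih (fun m hm => h m (List.mem_cons_of_mem _ hm))
          omega
      exact this tl hz1
    have hcard : Multiset.card Λ₁ * L₁ ≤ Λ₁.sum := by
      have := Multiset.card_nsmul_le_sum (s := Λ₁) (a := L₁)
        (fun z hz => hΛ z (Multiset.mem_cons_of_mem hz))
      simpa [smul_eq_mul] using this
    rw [List.length_cons] at hlen
    push_cast at hlen
    -- reals
    have hW0 : (0 : ℝ) ≤ W := Nat.cast_nonneg _
    have htl0 : (0 : ℝ) ≤ tl.length := Nat.cast_nonneg _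
    have hszt' : (siz tl : ℝ) ≤ W * tl.length := by exact_mod_cast hszt
    have hsum' : ((vt T c).card : ℝ) + (s + siz tl) = l + Λ₁.sum := by exact_mod_cast hvt
    have hsl' : (s : ℝ) + 6 ≤ l := by exact_mod_cast hsl
    have hcard' : (Multiset.card Λ₁ : ℝ) * L₁ ≤ Λ₁.sum := by exact_mod_cast hcard
    have hlenM : (tl.length : ℝ) ≤ M := by nlinarith
    have hq1 : (Multiset.card Λ₁ : ℝ) * L₁ ≤ (W + 1) * M := by nlinarith
    have hq2 : (Multiset.card Λ₁ : ℝ) * (W + 26) * 4 ≤ κ * M := by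
      have hL₁0 : (0 : ℝ) < L₁ := by
        have : (W : ℝ) + 31 ≤ L₁ := by exact_mod_cast hLW
        linarith
      have h1 : (Multiset.card Λ₁ : ℝ) * (W + 26) * 4 * L₁ ≤ κ * M * L₁ := by
        have h2 : (Multiset.card Λ₁ : ℝ) * L₁ * ((W + 26) * 4) ≤ (W + 1) * M * ((W + 26) * 4) :=
          mul_le_mul_of_nonneg_right hq1 (by positivity)
        have h3 : ((W : ℝ) + 1) * (W + 26) * 4 * M ≤ κ * L₁ * M :=
          mul_le_mul_of_nonneg_right hL hM0.le
        nlinarith
      exact le_of_mul_le_mul_right h1 hL₁0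
    have hroom : s + 1 + (siz tl + tl.length) + (Multiset.card Λ₁ + 1) * (W + 26) ≤
        l + Λ₁.sum := by
      clear hcard hcard' hvt
      generalize Λ₁.sum = S at hsum' ⊢
      have h1 : ((s + 1 + (siz tl + tl.length) + (Multiset.card Λ₁ + 1) * (W + 26) : ℕ) : ℝ) ≤
          ((l + S : ℕ) : ℝ) := by
        push_cast
        nlinarith
      exact_mod_cast h1
    have hnot : ∀ m ∈ (a, b, s) :: tl, m.1 ≠ x ∧ m.2.1 ≠ x ∧ m.1 ≠ y ∧ m.2.1 ≠ y := by
      intro m hm
      obtain ⟨_, _, _, h3, h4⟩ := hin m hm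
      exact ⟨fun h => h3 (h ▸ hx), fun h => h4 (h ▸ hx), fun h => h3 (h ▸ hy),
        fun h => h4 (h ▸ hy)⟩
    obtain ⟨rs, P, ms', Λ', h1, h2, h3, h4, h5, h6⟩ := plan hJ hC hT c W x y hxy tl a b s l Λ₁
      (hin (a, b, s) List.mem_cons_self).1
      (fun m hm => ⟨(hin m (List.mem_cons_of_mem _ hm)).1, hz1 m hm⟩) hsep2 hnot hsl
      (fun l' hl' => hLW.trans (hΛ l' (Multiset.mem_cons_of_mem hl'))) hroom
    refine ⟨rs, P, ms', Λ', h1, h2, ?_, h4, h5, h6⟩
    have h3' : (siz rs : ℝ) ≤ tl.length + 2 + (Multiset.card Λ₁ + 1) * (W + 26) := by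
      exact_mod_cast h3
    nlinarith

end

theorem finIn (hJ : JoinStmt) (hC : CloseStmt) (hT : TransStmt) (hS : SglStmt) (hG : GapStmt) :
    FinInStmt := by
  intro θ hθ
  obtain ⟨γg, hγg, mg, hgap⟩ := hG (θ / 2) (by positivity)
  obtain ⟨κ, hκdef⟩ : ∃ κ, κ = min γg (1 / 100) := ⟨_, rfl⟩
  have hκ : 0 < κ := by rw [hκdef]; exact lt_min hγg (by norm_num)
  have hκg : κ ≤ γg := by rw [hκdef]; exact min_le_left _ _
  have hκ1 : κ ≤ 1 / 100 := by rw [hκdef]; exact min_le_right _ _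
  refine ⟨κ / 2, by positivity, fun W => ?_⟩
  obtain ⟨L₀, hL₀⟩ := exists_nat_ge (((W : ℝ) + 1) * (W + 26) * 4 / κ)
  obtain ⟨m₁, hm₁⟩ := exists_nat_ge (4 * ((W : ℝ) + 28) / κ)
  obtain ⟨m₂, hm₂⟩ := exists_nat_ge (20 / θ)
  refine ⟨max L₀ (W + 31), max mg (max m₁ m₂), ?_⟩
  intro V C _ _ _ _ U' U'' D' T ms Λ hm hDU hU'' hIn hcod hvt hms hends
  classical
  obtain ⟨M, hMdef⟩ : ∃ M : ℝ, M = U'.card := ⟨_, rfl⟩
  have hmg : mg ≤ U'.card := (le_max_left _ _).trans hm
  have hM1 : (m₁ : ℝ) ≤ M := by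
    rw [hMdef]; exact_mod_cast (le_max_left _ _).trans ((le_max_right _ _).trans hm)
  have hM2 : (m₂ : ℝ) ≤ M := by
    rw [hMdef]; exact_mod_cast (le_max_right _ _).trans ((le_max_right _ _).trans hm)
  have hκM : 4 * ((W : ℝ) + 28) ≤ κ * M := by
    have h1 := hm₁.trans hM1
    rw [div_le_iff₀ hκ] at h1
    linarith
  have hθM : 20 ≤ θ * M := by
    have h1 := hm₂.trans hM2
    rw [div_le_iff₀ hθ] at h1
    linarith
  have hW0 : (0 : ℝ) ≤ W := Nat.cast_nonneg _
  have hM0 : (0 : ℝ) ≤ M := by rw [hMdef]; exact Nat.cast_nonneg _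
  have hM100 : 11200 ≤ M := by
    have : κ * M ≤ 1 / 100 * M := mul_le_mul_of_nonneg_right hκ1 hM0
    linarith
  have hL : ((W : ℝ) + 1) * (W + 26) * 4 ≤ κ * (max L₀ (W + 31) : ℕ) := by
    have h1 : ((W : ℝ) + 1) * (W + 26) * 4 / κ ≤ (max L₀ (W + 31) : ℕ) :=
      hL₀.trans (by exact_mod_cast le_max_left _ _)
    rw [div_le_iff₀ hκ] at h1
    linarith
  rw [← hMdef] at hU'' hcod hends
  -- sizes of the colour classes
  have hvt1 : ∀ c ∈ D', (98 / 100) * M ≤ ((vt T c).card : ℝ) := by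
    intro c hc
    have h1 := hvt c hc
    have h2 : (U'.card : ℝ) ≤ ((U' \ vt T c).card : ℝ) + ((vt T c).card : ℝ) := by
      exact_mod_cast card_le_card_sdiff_add_card
    rw [← hMdef] at h1 h2
    linarith
  have hvt2 : ∀ c ∈ D', ((vt T c).card : ℝ) ≤ M := by
    intro c _
    rw [hMdef]
    exact_mod_cast card_le_card (hIn.vt_sub c)
  have hne : Nonempty V := by
    have : 0 < U'.card := by
      have h1 : (0 : ℝ) < (U'.card : ℝ) := by rw [← hMdef]; linarith
      exact_mod_cast h1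
    obtain ⟨v, _⟩ := card_pos.1 this
    exact ⟨v⟩
  -- anchors
  obtain ⟨x, y, hxy, hload⟩ := hS V C U'.card D' (fun c => vt T c \ U'') hDU (by
    intro c hc
    have h1 := hvt1 c hc
    have h2 : ((vt T c).card : ℝ) ≤ ((vt T c \ U'').card : ℝ) + (U''.card : ℝ) := by
      exact_mod_cast card_le_card_sdiff_add_card
    have h3 : ((U'.card / 2 : ℕ) : ℝ) ≤ M / 2 := by
      rw [hMdef]; exact Nat.cast_div_le
    have h4 : ((U'.card / 2 + 2 : ℕ) : ℝ) ≤ ((vt T c \ U'').card : ℝ) := by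
      push_cast
      linarith
    exact_mod_cast h4)
  have hxT : ∀ c ∈ D', (Sum.inr (x c, c) : Item V C) ∈ T := fun c hc =>
    (mem_vt _ _ _).1 (mem_sdiff.1 (hxy c hc).1).1
  have hyT : ∀ c ∈ D', (Sum.inr (y c, c) : Item V C) ∈ T := fun c hc =>
    (mem_vt _ _ _).1 (mem_sdiff.1 (hxy c hc).2.1).1
  have hxU : ∀ c ∈ D', x c ∈ U' \ U'' := fun c hc =>
    mem_sdiff.2 ⟨hIn.vt_sub c (mem_sdiff.1 (hxy c hc).1).1, (mem_sdiff.1 (hxy c hc).1).2⟩
  have hyU : ∀ c ∈ D', y c ∈ U' \ U'' := fun c hc =>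
    mem_sdiff.2 ⟨hIn.vt_sub c (mem_sdiff.1 (hxy c hc).2.1).1, (mem_sdiff.1 (hxy c hc).2.1).2⟩
  -- the plans
  have key : ∀ c, ∃ (rs : List (Mem V)) (P : Finset (Item V C)) (ms' : List (Mem V))
      (Λ' : Multiset ℕ), (c ∉ D' → rs = []) ∧ (c ∈ D' →
      (∀ r ∈ rs, r.1 ≠ r.2.1 ∧ 1 ≤ r.2.2 ∧ (r.1 = x c ∨ 0 < ends (ms c) r.1) ∧
        (r.2.1 = y c ∨ 0 < ends (ms c) r.2.1)) ∧
      (∀ v, ends rs v ≤ ends (ms c) v +
        ((if x c = v then 1 else 0) + (if y c = v then 1 else 0))) ∧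
      (siz rs : ℝ) ≤ κ * M ∧ Λ' ≤ Λ c ∧
      ((P = ∅ ∧ ms' = []) ∨ (P = {Sum.inr (x c, c), Sum.inr (y c, c)} ∧
        ∃ s', 2 ≤ s' ∧ ms' = [(x c, y c, s')] ∧ ∃ l' ∈ Λ', s' + 20 ≤ l')) ∧
      ∀ G, RealR c rs G → Disjoint G P → Step c (ms c) (G ∪ P) (Λ c) ms' Λ') := by
    intro c
    by_cases hc : c ∈ D'
    · obtain ⟨h1, h2, h3, h4, h5⟩ := hms c hc
      obtain ⟨rs, P, ms', Λ', h⟩ := fin_col hJ hC hT W (max L₀ (W + 31)) κ M hκ hκ1 hL
        (le_max_right _ _) hκM U' T c (ms c) (Λ c) (x c) (y c) (hxy c hc).2.2 (hxT c hc)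
        (hyT c hc) h1 (by rw [hMdef]; exact h2) h3 h4 h5 (hvt1 c hc) (hvt2 c hc)
      exact ⟨rs, P, ms', Λ', fun h => absurd hc h, fun _ => h⟩
    · exact ⟨[], ∅, [], 0, fun _ => rfl, fun h => absurd h hc⟩
  choose rs P ms' Λ' hnil hprop using key
  obtain ⟨A, hA⟩ : ∃ A : C → Finset (Item V C),
    A = fun c => {Sum.inr (x c, c), Sum.inr (y c, c)} := ⟨_, rfl⟩
  have hAinl : ∀ c e, (Sum.inl e : Item V C) ∉ A c := by
    intro c e h
    rw [hA] at h
    simp at h
  have hAinr : ∀ c v d, (Sum.inr (v, d) : Item V C) ∈ A c ↔ d = c ∧ (v = x c ∨ v = y c) := by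
    intro c v d
    rw [hA]
    simp only [mem_insert, mem_singleton, Sum.inr.injEq, Prod.mk.injEq]
    tauto
  have hPA : ∀ c ∈ D', P c ⊆ A c := by
    intro c hc
    rcases (hprop c hc).2.2.2.2.1 with h | h
    · rw [h.1]; exact empty_subset _
    · rw [h.1, hA]
  have hAT : ∀ c ∈ D', A c ⊆ T := by
    intro c hc i hi
    rw [hA] at hi
    simp only [mem_insert, mem_singleton] at hi
    rcases hi with rfl | rfl
    · exact hxT c hc
    · exact hyT c hc
  obtain ⟨T', hT'⟩ : ∃ T', T' = T \ uC D' A := ⟨_, rfl⟩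
  have hT'T : T' ⊆ T := by rw [hT']; exact sdiff_subset
  have hnbT' : ∀ v, nb T' v = nb T v := by
    intro v
    ext u
    rw [mem_nb, mem_nb, hT', mem_sdiff, mem_uC]
    constructor
    · exact fun h => h.1
    · intro h
      refine ⟨h, ?_⟩
      rintro ⟨c, _, hc⟩
      exact hAinl c _ hc
  have hends0 : ∀ c v, 0 < ends (ms c) v → c ∈ D' → v ∈ U' ∧ (Sum.inr (v, c) : Item V C) ∉ T := by
    intro c v hv hc
    obtain ⟨m, hm, hmv⟩ := exists_of_ends_pos hv
    obtain ⟨_, h1, h2, h3, h4⟩ := (hms c hc).1.2 m hm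
    rcases hmv with rfl | rfl
    · exact ⟨h1, h3⟩
    · exact ⟨h2, h4⟩
  have hcase : ∀ i : (Σ c : C, Fin (rs c).length), i.1 ∈ D' := by
    intro i
    by_contra hcon
    have h1 : (rs i.1).length = 0 := by rw [hnil i.1 hcon]; rfl
    have h2 := i.2.2
    omega
  have hmemrs : ∀ i : (Σ c : C, Fin (rs c).length), (rs i.1)[i.2.1] ∈ rs i.1 :=
    fun i => List.getElem_mem _
  obtain ⟨g, hg1, hg2, hg3, hg4, hg5⟩ := hgap V C U' U'' D' T' (Σ c : C, Fin (rs c).length)
    (fun i => i.1) (fun i => ((rs i.1)[i.2.1]).1) (fun i => ((rs i.1)[i.2.1]).2.1)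
    (fun i => ((rs i.1)[i.2.1]).2.2) hmg hDU
    (by
      intro u hu v hv
      rw [hnbT', hnbT', ← hMdef]
      exact hcod u hu v hv)
    (by
      intro d hd
      have h1 := hvt d hd
      have h2 : U' \ vt T' d ⊆ (U' \ vt T d) ∪ {x d, y d} := by
        intro v hv
        rw [mem_sdiff, mem_vt, hT', mem_sdiff, mem_uC] at hv
        rw [mem_union, mem_sdiff, mem_vt, mem_insert, mem_singleton]
        by_cases h3 : (Sum.inr (v, d) : Item V C) ∈ T
        · right
          by_contra hcon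
          refine hv.2 ⟨h3, ?_⟩
          rintro ⟨c, _, hc⟩
          rw [hAinr] at hc
          obtain ⟨rfl, hc⟩ := hc
          exact hcon hc
        · exact Or.inl ⟨hv.1, h3⟩
      have h3 : ((U' \ vt T' d).card : ℝ) ≤ ((U' \ vt T d).card : ℝ) + 2 := by
        have h4 := (card_le_card h2).trans (card_union_le _ _)
        have h5 : ({x d, y d} : Finset V).card ≤ 2 := card_le_two
        exact_mod_cast h4.trans (by omega)
      rw [← hMdef] at h1 ⊢
      linarith)
    (by
      intro i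
      have hi := hcase i
      obtain ⟨h1, h2, h3, h4⟩ := (hprop i.1 hi).1 _ (hmemrs i)
      refine ⟨hi, ?_, ?_, h1, h2, ?_, ?_⟩
      · rcases h3 with h3 | h3
        · simp only [h3]; exact (mem_sdiff.1 (hxU i.1 hi)).1
        · exact (hends0 _ _ h3 hi).1
      · rcases h4 with h4 | h4
        · simp only [h4]; exact (mem_sdiff.1 (hyU i.1 hi)).1
        · exact (hends0 _ _ h4 hi).1
      · rcases h3 with h3 | h3
        · simp only [h3]
          rw [hT', mem_sdiff, not_and, not_not, mem_uC]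
          intro _
          exact ⟨i.1, hi, (hAinr _ _ _).2 ⟨rfl, Or.inl rfl⟩⟩
        · intro h; exact (hends0 _ _ h3 hi).2 (hT'T h)
      · rcases h4 with h4 | h4
        · simp only [h4]
          rw [hT', mem_sdiff, not_and, not_not, mem_uC]
          intro _
          exact ⟨i.1, hi, (hAinr _ _ _).2 ⟨rfl, Or.inr rfl⟩⟩
        · intro h; exact (hends0 _ _ h4 hi).2 (hT'T h))
    (by
      intro v
      have h1 := fin_count rs v
      have h2 : ∑ c, ends (rs c) v ≤ ∑ c ∈ D', (ends (ms c) v +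
          ((if x c = v then 1 else 0) + (if y c = v then 1 else 0))) := by
        rw [← sum_subset (subset_univ D')]
        · exact sum_le_sum (fun c hc => (hprop c hc).2.1 v)
        · intro c _ hc
          rw [hnil c hc]; rfl
      rw [sum_add_distrib, sum_add_distrib, ← card_filter, ← card_filter] at h2
      have h3 := hload v
      have h4 := hends v
      have h5 : ((univ.filter (fun i : (Σ c : C, Fin (rs c).length) =>
          ((rs i.1)[i.2.1]).1 = v ∨ ((rs i.1)[i.2.1]).2.1 = v)).card : ℝ) ≤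
          ((∑ c ∈ D', ends (ms c) v : ℕ) : ℝ) + 10 := by
        exact_mod_cast h1.trans (h2.trans (by omega))
      push_cast at h5
      rw [← hMdef]
      have h6 : κ * M ≤ γg * M := mul_le_mul_of_nonneg_right hκg hM0
      have h7 : κ / 2 * M = κ * M / 2 := by ring
      rw [h7] at h4
      have h8 : (20 : ℝ) ≤ κ * M := by linarith
      linarith)
    (by
      intro d
      rw [← hMdef]
      have h1 := fin_colsum rs d
      by_cases hd : d ∈ D'
      · have h2 := (hprop d hd).2.2.1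
        have h6 : κ * M ≤ γg * M := mul_le_mul_of_nonneg_right hκg hM0
        refine le_trans (le_of_eq h1) (h2.trans h6)
      · rw [hnil d hd] at h1
        have e : siz ([] : List (Mem V)) = 0 := rfl
        rw [e] at h1
        refine le_trans (le_of_eq h1) ?_
        simp only [Nat.cast_zero]
        positivity)
  rw [← hMdef] at hg4 hg5
  obtain ⟨G, hGdef⟩ : ∃ G : C → Finset (Item V C),
    G = fun c => univ.biUnion (fun j : Fin (rs c).length => g ⟨c, j⟩) := ⟨_, rfl⟩
  have hmemG : ∀ c i, i ∈ G c ↔ ∃ j : Fin (rs c).length, i ∈ g ⟨c, j⟩ := by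
    intro c i
    rw [hGdef]
    simp
  have hGT' : ∀ c, G c ⊆ T' := by
    intro c i hi
    obtain ⟨j, hj⟩ := (hmemG c i).1 hi
    exact (hg1 ⟨c, j⟩).2 hj
  have hGall : ∀ c, G c ⊆ univ.biUnion g := by
    intro c i hi
    obtain ⟨j, hj⟩ := (hmemG c i).1 hi
    exact mem_biUnion.2 ⟨_, mem_univ _, hj⟩
  have hGR : ∀ c, RealR c (rs c) (G c) := by
    intro c
    rw [hGdef]
    exact fin_realR (fun j => g ⟨c, j⟩) (fun j => (hg1 ⟨c, j⟩).1)
      (fun i j hij => hg3 _ _ (fun h => hij (by simpa using h)))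
  have hGP : ∀ c, ∀ d ∈ D', Disjoint (G c) (P d) := by
    intro c d hd
    rw [disjoint_left]
    intro i hi hi'
    have h1 := hGT' c hi
    rw [hT', mem_sdiff, mem_uC] at h1
    exact h1.2 ⟨d, hd, hPA d hd hi'⟩
  refine ⟨fun c => G c ∪ P c, ms', Λ', ?_, ?_, ?_, ?_, ?_⟩
  · intro c hc
    obtain ⟨h1, h2, h3, h4, h5, h6⟩ := hprop c hc
    have hinr : ∀ v d, (Sum.inr (v, d) : Item V C) ∈ G c ∪ P c → v ∈ U' \ U'' := by
      intro v d h
      rw [mem_union] at h
      rcases h with h | h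
      · obtain ⟨j, hj⟩ := (hmemG c _).1 h
        exact hg2 _ _ _ hj
      · have h7 := hPA c hc h
        rw [hAinr] at h7
        rcases h7.2 with rfl | rfl
        · exact hxU c hc
        · exact hyU c hc
    refine ⟨?_, h6 (G c) (hGR c) (hGP c c hc), h4, hinr, ?_, ?_, ?_, ?_⟩
    · exact union_subset ((hGT' c).trans hT'T) ((hPA c hc).trans (hAT c hc))
    · intro u v h
      rw [mem_union] at h
      rcases h with h | h
      · obtain ⟨j, hj⟩ := (hmemG c _).1 h
        rcases (hg1 ⟨c, j⟩).1.edge hj with h7 | h7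
        · intro h8; exact (mem_sdiff.1 (hg2 _ _ _ h7)).2 h8.1
        · intro h8; exact (mem_sdiff.1 (hg2 _ _ _ h7)).2 h8.2
      · exact absurd (hPA c hc h) (hAinl c _)
    · rcases h5 with ⟨_, h5⟩ | ⟨_, s', _, h5, _⟩
      · rw [h5]; simp
      · rw [h5]; simp
    · rcases h5 with ⟨_, h5⟩ | ⟨_, s', hs', h5, _⟩
      · rw [h5]
        exact ⟨by simp, List.Pairwise.nil⟩
      · rw [h5]
        refine ⟨?_, List.pairwise_singleton _ _⟩
        intro m hm
        rw [List.mem_singleton] at hm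
        subst hm
        simp only
        refine ⟨by omega, ?_⟩
        constructor
        · intro h; exact absurd h (hxy c hc).2.2
        · intro h; omega
    · intro m hm
      rcases h5 with ⟨_, h5⟩ | ⟨h5P, s', hs', h5, l', hl', hl''⟩
      · rw [h5] at hm; exact absurd hm (by simp)
      · rw [h5, List.mem_singleton] at hm
        subst hm
        refine ⟨(hxy c hc).2.2, ?_, ?_, l', hl', hl''⟩
        · rw [mem_union, h5P]; right; simp
        · rw [mem_union, h5P]; right; simp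
  · intro c hc d hd hcd
    rw [disjoint_union_left, disjoint_union_right, disjoint_union_right]
    refine ⟨⟨?_, hGP c d hd⟩, (hGP d c hc).symm, ?_⟩
    · rw [disjoint_left]
      intro i hi hi'
      obtain ⟨j, hj⟩ := (hmemG c i).1 hi
      obtain ⟨k, hk⟩ := (hmemG d i).1 hi'
      have h1 := hg3 ⟨c, j⟩ ⟨d, k⟩ (fun h => hcd (congrArg Sigma.fst h))
      exact (disjoint_left.1 h1) hj hk
    · rw [disjoint_left]
      intro i hi hi'
      have h1 := hPA c hc hi
      have h2 := hPA d hd hi'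
      rcases i with e | ⟨v, b⟩
      · exact hAinl c e h1
      · rw [hAinr] at h1 h2
        exact hcd (h1.1.symm.trans h2.1)
  · intro v
    obtain ⟨h1, h2⟩ := hg4 v
    rw [← hMdef]
    constructor
    · have h3 : nb (uC D' (fun c => G c ∪ P c)) v ⊆ nb (univ.biUnion g) v := by
        intro u hu
        rw [mem_nb, mem_uC] at hu
        obtain ⟨c, hc, hu⟩ := hu
        rw [mem_union] at hu
        rcases hu with hu | hu
        · rw [mem_nb]; exact hGall c hu
        · exact absurd (hPA c hc hu) (hAinl c _)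
      have h4 : ((nb (uC D' (fun c => G c ∪ P c)) v).card : ℝ) ≤
          ((nb (univ.biUnion g) v).card : ℝ) := by exact_mod_cast card_le_card h3
      have h5 : θ / 2 * M ≤ θ * M := by nlinarith
      linarith
    · have h3 : cl (uC D' (fun c => G c ∪ P c)) v ⊆ cl (univ.biUnion g) v ∪
          (D'.filter (fun c => x c = v) ∪ D'.filter (fun c => y c = v)) := by
        intro d hd
        rw [mem_cl, mem_uC] at hd
        obtain ⟨c, hc, hd⟩ := hd
        rw [mem_union] at hd
        rw [mem_union, mem_union, mem_filter, mem_filter, mem_cl]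
        rcases hd with hd | hd
        · exact Or.inl (hGall c hd)
        · have h4 := hPA c hc hd
          rw [hAinr] at h4
          obtain ⟨rfl, h4⟩ := h4
          rcases h4 with h4 | h4
          · exact Or.inr (Or.inl ⟨hc, h4.symm⟩)
          · exact Or.inr (Or.inr ⟨hc, h4.symm⟩)
      have h4 := (card_le_card h3).trans ((card_union_le _ _).trans
        (Nat.add_le_add_left (card_union_le _ _) _))
      have h5 := hload v
      have h6 : ((cl (uC D' (fun c => G c ∪ P c)) v).card : ℝ) ≤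
          ((cl (univ.biUnion g) v).card : ℝ) + 10 := by exact_mod_cast h4.trans (by omega)
      linarith
  · intro d
    have h1 := hg5 d
    rw [← hMdef]
    have h3 : vt (uC D' (fun c => G c ∪ P c)) d ⊆ vt (univ.biUnion g) d ∪ {x d, y d} := by
      intro v hv
      rw [mem_vt, mem_uC] at hv
      obtain ⟨c, hc, hv⟩ := hv
      rw [mem_union] at hv
      rw [mem_union, mem_vt, mem_insert, mem_singleton]
      rcases hv with hv | hv
      · exact Or.inl (hGall c hv)
      · have h4 := hPA c hc hv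
        rw [hAinr] at h4
        obtain ⟨rfl, h4⟩ := h4
        exact Or.inr h4
    have h4 := (card_le_card h3).trans (card_union_le _ _)
    have h5 : ({x d, y d} : Finset V).card ≤ 2 := card_le_two
    have h6 : ((vt (uC D' (fun c => G c ∪ P c)) d).card : ℝ) ≤
        ((vt (univ.biUnion g) d).card : ℝ) + 2 := by exact_mod_cast h4.trans (by omega)
    linarith
  · intro v
    have h1 : ∑ c ∈ D', ends (ms' c) v ≤
        ∑ c ∈ D', ((if x c = v then 1 else 0) + (if y c = v then 1 else 0)) := by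
      apply sum_le_sum
      intro c hc
      rcases (hprop c hc).2.2.2.2.1 with ⟨_, h5⟩ | ⟨_, s', _, h5, _⟩
      · rw [h5]; exact Nat.zero_le _
      · rw [h5, ends_cons]
        have e : ends ([] : List (Mem V)) v = 0 := rfl
        rw [e, Nat.add_zero]
    rw [sum_add_distrib, ← card_filter, ← card_filter] at h1
    have h2 := hload v
    omega

end Pool.Agent.OBX
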