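import Mathlib
import Pool.Agent.OBX.Stmts
import Pool.Agent.OBW.Grd

set_option autoImplicit false

/-!
OBX: GRDW = GRD with a used set `W` (`grdW : GrdWStmt`).
-/

namespace Pool.Agent.OBX

open Finset Pool.Agent.OBW

/-- the core with a used set `W` -/
theorem grdw_core {V C : Type} [Fintype V] [DecidableEq V] [Fintype C] [DecidableEq C]
    {δ ε η ξ μ p ζ : ℝ} {U U' U'' : Finset V} {D D' D'' : Finset C}
    {S R Lo W : Finset (Item V C)} {ls L : ℕ} {s : C → ℕ → ℕ}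
    (hst : Stage δ ε η ξ μ U U' D D' S) (hres : Res p ζ μ U U' U'' D D' D'' S R)
    (hU'' : (U''.card : ℝ) ≤ μ * U'.card) (hε : 0 < ε) (hp : 0 < p) (hp1 : p ≤ 1/4)
    (hζ : ζ ≤ p / 100) (hμ : μ ≤ 1/100) (hls3 : 3 ≤ ls) (hlsL : ls ≤ L)
    (hLoS : Lo ⊆ S) (hLoR : Disjoint Lo R)
    (hLoW : Disjoint Lo W)
    (hLoE : ∀ u v, (Sum.inl s(u, v) : Item V C) ∈ Lo → ¬ (u ∈ U' ∧ v ∈ U'))
    (hLoP : ∀ v c, (Sum.inr (v, c) : Item V C) ∈ Lo → ¬ (v ∈ U' ∧ c ∈ D'))
    (k N2 T : ℕ) (hWnb : ∀ v, (nb W v).card ≤ k) (hWcl : ∀ v, (cl W v).card ≤ k)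
    (hWvt : ∀ c, (vt W c).card ≤ k) (hT : ∀ c l, s c l < T) (hk : 0 < k)
    (hKv : ∀ v ∈ U, (nb Lo v).card + (cl Lo v).card ≤ k)
    (hKc : ∀ c ∈ D, (vt Lo c).card + ∑ l ∈ (Icc 3 L).erase ls, s c l ≤ k)
    (hN2 : (∑ v ∈ U, ((nb Lo v).card + (cl Lo v).card)) +
      ∑ c ∈ D, ∑ l ∈ (Icc 3 L).erase ls, s c l ≤ N2)
    (hO : (L + 1) * N2 ≤ k * k)
    (hbig : (((4 + L) * (2 * (2 * k)) + 2 * k + L : ℕ) : ℝ) < p ^ 2 / 4 * U'.card)
    (hbig2 : ((5 * (2 * k) : ℕ) : ℝ) < p ^ 2 / 8 * U'.card) :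
    ∃ F : Finset (Finset (Item V C)),
      (∀ q ∈ F, (∀ i ∈ q, i ∈ Lo ∨ i ∈ R ∨ insOK U' U'' D' S i) ∧
        ∃ l ∈ Icc 3 L, ∃ c ∈ D, IsPiece l c q) ∧ PD F ∧ Disjoint (un F) W ∧
      (∀ x ∈ U \ U', ∀ y ∈ U \ U', (Sum.inl s(x, y) : Item V C) ∈ Lo → Sum.inl s(x, y) ∈ un F) ∧
      (∀ x ∈ U \ U', ∀ c ∈ D \ D', (Sum.inr (x, c) : Item V C) ∈ Lo → Sum.inr (x, c) ∈ un F) ∧
      (∀ c ∈ D, ∀ l ∈ (Icc 3 L).erase ls, cnt F l c = s c l) ∧
      (∀ q ∈ F, ∀ l ∈ (Icc 3 L).erase ls, ∀ c, IsPiece l c q →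
        (∀ u v, (Sum.inl s(u, v) : Item V C) ∈ q → u ∈ U' ∧ v ∈ U') ∧
        (∀ v c', (Sum.inr (v, c') : Item V C) ∈ q → v ∈ U')) ∧
      (4 ≤ ls → ∀ q ∈ F, ∃ u ∈ U', ∃ v ∈ U', (Sum.inl s(u, v) : Item V C) ∈ q) ∧
      (∀ q ∈ F, ∀ c, IsPiece ls c q → ∃ i ∈ Lo, i ∈ q) ∧
      (∀ v, (nb (un F) v).card ≤ 4 * k ∧ (cl (un F) v).card ≤ 2 * k) ∧
      (∀ c, (vt (un F) c).card ≤ L * (2 * k)) := by
  classical
  set Ls : Finset ℕ := (Icc 3 L).erase ls with hLs
  set D1 : Finset (Item V C) := Lo.filter (grdIsX U U' D D') with hD1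
  set D2 : Finset ((C × ℕ) × ℕ) := ((D ×ˢ Ls) ×ˢ range T).filter (fun t => t.2 < s t.1.1 t.1.2)
    with hD2
  set DD : Finset (Item V C ⊕ ((C × ℕ) × ℕ)) := D1.disjSum D2 with hDD
  -- items of Lo are not good
  have hLoG : ∀ i ∈ Lo, ¬ grdGood U' U'' D' S R i := by
    intro i hi hg
    rcases hg with h | ⟨_, h⟩
    · exact (Finset.disjoint_left.1 hLoR hi) h
    · rcases h with ⟨u, hu, v, hv, rfl⟩ | ⟨u, hu, c, hc, rfl⟩
      · exact hLoE u v hi ⟨hu, (mem_sdiff.1 hv).1⟩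
      · exact hLoP u c hi ⟨(mem_sdiff.1 hu).1, hc⟩
  have hInsLo : Inside U D Lo :=
    ⟨fun u v h => hst.ins.1 u v (hLoS h), fun v c h => hst.ins.2 v c (hLoS h)⟩
  -- pieces of the demands
  have hpiece : ∀ d ∈ DD, ∀ q, grdOk U' U'' D D' S R ls d q → ∃ l ≤ L, ∃ c ∈ D, 3 ≤ l ∧ IsPiece l c q := by
    intro d hd q hq
    rw [hDD, Finset.mem_disjSum] at hd
    rcases hd with ⟨i, hi, rfl⟩ | ⟨t, ht, rfl⟩
    · obtain ⟨_, _, ⟨c, hc, hpc⟩, _⟩ := hq
      exact ⟨ls, hlsL, c, hc, hls3, hpc⟩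
    · obtain ⟨_, hpc, _⟩ := hq
      rw [hD2, mem_filter, mem_product, mem_product, hLs, mem_erase, mem_Icc] at ht
      exact ⟨t.1.2, ht.1.1.2.2.2, t.1.1, ht.1.1.1, ht.1.1.2.2.1, hpc⟩
  -- counts
  have hK1 : ∀ a, (DD.filter (fun d => a ∈ grdFix d)).card ≤ k := by
    intro a
    have e1 : DD.filter (fun d => a ∈ grdFix d) =
        (D1.filter fun i => a ∈ grdFix (Sum.inl i : Item V C ⊕ ((C × ℕ) × ℕ))).disjSum
        (D2.filter fun t => a ∈ grdFix (Sum.inr t : Item V C ⊕ ((C × ℕ) × ℕ))) := by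
      ext d
      rw [mem_filter, hDD, Finset.mem_disjSum, Finset.mem_disjSum]
      constructor
      · rintro ⟨⟨i, hi, rfl⟩ | ⟨t, ht, rfl⟩, h2⟩
        · exact Or.inl ⟨i, mem_filter.2 ⟨hi, h2⟩, rfl⟩
        · exact Or.inr ⟨t, mem_filter.2 ⟨ht, h2⟩, rfl⟩
      · rintro (⟨i, hi, rfl⟩ | ⟨t, ht, rfl⟩)
        · exact ⟨Or.inl ⟨i, (mem_filter.1 hi).1, rfl⟩, (mem_filter.1 hi).2⟩
        · exact ⟨Or.inr ⟨t, (mem_filter.1 ht).1, rfl⟩, (mem_filter.1 ht).2⟩
    rw [e1, Finset.card_disjSum]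
    cases a with
    | inl v =>
      have h2 : (D2.filter fun t => (Sum.inl v : V ⊕ C) ∈
          grdFix (Sum.inr t : Item V C ⊕ ((C × ℕ) × ℕ))) = ∅ := by
        rw [Finset.filter_eq_empty_iff]
        intro t _
        simp [grdFix]
      rw [h2, card_empty, add_zero]
      by_cases hv : v ∈ U
      · refine le_trans ?_ (hKv v hv)
        refine le_trans (card_le_card ?_) (grd_count_items Lo v)
        intro i hi
        rw [mem_filter] at hi ⊢
        exact ⟨(mem_filter.1 hi.1).1, hi.2⟩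
      · have h3 : (D1.filter fun i => (Sum.inl v : V ⊕ C) ∈
            grdFix (Sum.inl i : Item V C ⊕ ((C × ℕ) × ℕ))) = ∅ := by
          rw [Finset.filter_eq_empty_iff]
          intro i hi hvi
          rw [hD1, mem_filter] at hi
          apply hv
          have hvi' : (Sum.inl v : V ⊕ C) ∈ grdIN i := hvi
          unfold grdIN at hvi'
          rw [mem_filter] at hvi'
          rcases hi.2 with ⟨x, hx, y, hy, _, rfl⟩ | ⟨x, hx, c, hc, rfl⟩
          · have h4 : v ∈ s(x, y) := hvi'.2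
            rw [Sym2.mem_iff] at h4
            rcases h4 with rfl | rfl
            · exact (mem_sdiff.1 hx).1
            · exact (mem_sdiff.1 hy).1
          · have h4 : v = x := hvi'.2
            rw [h4]
            exact (mem_sdiff.1 hx).1
        rw [h3, card_empty]
        exact Nat.zero_le _
    | inr c =>
      have h2 : (D2.filter fun t => (Sum.inr c : V ⊕ C) ∈
          grdFix (Sum.inr t : Item V C ⊕ ((C × ℕ) × ℕ))) = D2.filter fun t => t.1.1 = c := by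
        apply Finset.filter_congr
        intro t _
        simp only [grdFix, mem_singleton, Sum.inr.injEq]
        exact eq_comm
      rw [h2]
      have h1 : (D1.filter fun i => (Sum.inr c : V ⊕ C) ∈
          grdFix (Sum.inl i : Item V C ⊕ ((C × ℕ) × ℕ))).card ≤ (vt Lo c).card := by
        refine le_trans (card_le_card ?_) (grd_count_items_c Lo c)
        intro i hi
        rw [mem_filter] at hi ⊢
        exact ⟨(mem_filter.1 hi.1).1, hi.2⟩
      have h3 : (D2.filter fun t => t.1.1 = c).card ≤ ∑ l ∈ Ls, s c l :=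
        grd_count_slots s D Ls T c
      by_cases hc : c ∈ D
      · exact (Nat.add_le_add h1 h3).trans (hKc c hc)
      · have h4 : (D2.filter fun t => t.1.1 = c) = ∅ := by
          rw [Finset.filter_eq_empty_iff]
          intro t ht htc
          rw [hD2, mem_filter, mem_product, mem_product] at ht
          exact hc (htc ▸ ht.1.1.1)
        have h5 : vt Lo c = ∅ := by
          rw [Finset.eq_empty_iff_forall_notMem]
          intro v hv
          exact hc (hInsLo.2 v c (grd_mem_vt.1 hv)).2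
        rw [h5, card_empty] at h1
        rw [h4, card_empty]
        omega
  have hcardDD : DD.card ≤ N2 := by
    rw [hDD, Finset.card_disjSum]
    refine le_trans (Nat.add_le_add ?_ (grd_count_slots_all s D Ls T)) hN2
    have h1 : D1 ⊆ U.biUnion fun v => Lo.filter fun i => (Sum.inl v : V ⊕ C) ∈ grdIN i := by
      intro i hi
      rw [hD1, mem_filter] at hi
      rw [mem_biUnion]
      rcases hi.2 with ⟨x, hx, y, hy, _, rfl⟩ | ⟨x, hx, c, hc, rfl⟩
      · refine ⟨x, (mem_sdiff.1 hx).1, mem_filter.2 ⟨hi.1, ?_⟩⟩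
        unfold grdIN
        rw [mem_filter]
        exact ⟨mem_univ _, Sym2.mem_mk_left x y⟩
      · refine ⟨x, (mem_sdiff.1 hx).1, mem_filter.2 ⟨hi.1, ?_⟩⟩
        unfold grdIN
        rw [mem_filter]
        exact ⟨mem_univ _, rfl⟩
    refine (card_le_card h1).trans (card_biUnion_le.trans ?_)
    exact Finset.sum_le_sum fun v _ => grd_count_items Lo v
  -- the greedy choice
  obtain ⟨g, hg1, hg2, hg3⟩ := grd_capGreedy DD gnodes grdFix
    (fun d q => grdOk U' U'' D D' S R ls d q ∧ Disjoint W q) (fun a b => Disjoint a b) (fun a b h => h.symm) ∅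
    k k (L + 1) ((L + 1) * N2)
    (by
      intro d hd q hq
      obtain ⟨l, hl, c, _, _, hpc⟩ := hpiece d hd q hq.1
      exact (grd_card_nodes_piece hpc).trans (by omega))
    hK1
    (Nat.mul_le_mul_left _ hcardDD)
    (by
      intro E1 hE1 g hgok hgdis hgB O hOc d hdD hdn
      have hgp : ∀ d ∈ E1, ∃ l ≤ L, ∃ c, IsPiece l c (g d) := by
        intro d hd
        obtain ⟨l, hl, c, _, _, hpc⟩ := hpiece d (hE1 hd) _ (hgok d hd).1
        exact ⟨l, hl, c, hpc⟩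
      obtain ⟨hnbZ0, hclZ0, hvtZ0⟩ := grd_load E1 g L (2 * k) hgp
        (fun a => (hgB a).trans (by omega))
      obtain ⟨Z, hZdef⟩ : ∃ Z, Z = E1.biUnion g ∪ W := ⟨_, rfl⟩
      have hnbZ : ∀ v, (nb Z v).card ≤ 2 * (2 * (2 * k)) := by
        intro v
        have h1 : nb Z v ⊆ nb (E1.biUnion g) v ∪ nb W v := by
          intro u hu
          rw [grd_mem_nb, hZdef, mem_union] at hu
          rw [mem_union, grd_mem_nb, grd_mem_nb]
          exact hu
        have h2 := (card_le_card h1).trans (card_union_le _ _)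
        have h3 := hnbZ0 v
        have h4 := hWnb v
        omega
      have hclZ : ∀ v, (cl Z v).card ≤ 2 * (2 * k) := by
        intro v
        have h1 : cl Z v ⊆ cl (E1.biUnion g) v ∪ cl W v := by
          intro u hu
          rw [grd_mem_cl, hZdef, mem_union] at hu
          rw [mem_union, grd_mem_cl, grd_mem_cl]
          exact hu
        have h2 := (card_le_card h1).trans (card_union_le _ _)
        have h3 := hclZ0 v
        have h4 := hWcl v
        omega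
      have hvtZ : ∀ c, (vt Z c).card ≤ L * (2 * (2 * k)) := by
        intro c
        have h1 : vt Z c ⊆ vt (E1.biUnion g) c ∪ vt W c := by
          intro u hu
          rw [grd_mem_vt, hZdef, mem_union] at hu
          rw [mem_union, grd_mem_vt, grd_mem_vt]
          exact hu
        have h2 := (card_le_card h1).trans (card_union_le _ _)
        have h3 := hvtZ0 c
        have h4 := hWvt c
        have h5 : L * (2 * (2 * k)) = L * (2 * k) + L * (2 * k) := by ring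
        have h6 : 1 * (2 * k) ≤ L * (2 * k) := Nat.mul_le_mul_right _ (by omega)
        omega
      have hOk : O.card ≤ k := by
        have h1 : O.card * k ≤ k * k := hOc.trans hO
        exact Nat.le_of_mul_le_mul_right h1 hk
      have hOk2 : O.card ≤ 2 * k := by omega
      have hdisZ : ∀ q, Disjoint Z q → ∀ d' ∈ E1, Disjoint (g d') q := by
        intro q hq d' hd'
        refine Finset.disjoint_of_subset_left ?_ hq
        rw [hZdef]
        exact (Finset.subset_biUnion_of_mem g hd').trans subset_union_left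
      have hdisW : ∀ q, Disjoint Z q → Disjoint W q := by
        intro q hq
        refine Finset.disjoint_of_subset_left ?_ hq
        rw [hZdef]
        exact subset_union_right
      have hdnotZ : ∀ i ∈ Lo, d = Sum.inl i → i ∉ Z := by
        intro i hi hdi hmem
        rw [hZdef, mem_union, mem_biUnion] at hmem
        rcases hmem with hmem | hmem
        swap
        · exact (Finset.disjoint_left.1 hLoW hi) hmem
        obtain ⟨d', hd', hid'⟩ := hmem
        have hok := (hgok d' hd').1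
        rcases d' with i' | t
        · rcases hok.2.1 i hid' with h | h
          · apply hdn
            rw [hdi, h]
            exact hd'
          · exact hLoG i hi h
        · exact hLoG i hi (hok.1 i hid')
      have hdD' := hdD
      rw [hDD, Finset.mem_disjSum] at hdD'
      rcases hdD' with ⟨i, hi, hid⟩ | ⟨t, ht, htd⟩
      · rw [hD1, mem_filter] at hi
        obtain ⟨hiLo, hiX⟩ := hi
        have hiZ := hdnotZ i hiLo hid.symm
        rcases hiX with ⟨x, hx, y, hy, hxy, rfl⟩ | ⟨x, hx, c, hc, rfl⟩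
        · obtain ⟨q, hq1, hq2, hq3⟩ := grd_step1 (O := O) hst hres hU'' hε hp hp1 hζ hμ hls3 hlsL hnbZ
            hclZ hvtZ hOk2 hbig hbig2 hx hy hxy hiZ
          rw [← hid]
          exact ⟨q, ⟨hq1, hdisW q hq2⟩, hdisZ q hq2, hq3⟩
        · obtain ⟨q, hq1, hq2, hq3⟩ := grd_step2 (O := O) hst hres hU'' hε hp hp1 hζ hμ hls3 hlsL hnbZ
            hvtZ hOk2 hbig hx hc hiZ
          rw [← hid]
          exact ⟨q, ⟨hq1, hdisW q hq2⟩, hdisZ q hq2, hq3⟩
      · rw [hD2, mem_filter, mem_product, mem_product, hLs, mem_erase, mem_Icc] at ht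
        obtain ⟨q, hq1, hq2, hq3⟩ := grd_step0 (O := O) (ls := ls) (t := t) hst hres hU'' hε hp hp1
          hζ hμ hnbZ hvtZ hOk2 hbig ht.1.1.1 ht.1.1.2.2.1 ht.1.1.2.2.2
        rw [← htd]
        exact ⟨q, ⟨hq1, hdisW q hq2⟩, hdisZ q hq2, hq3⟩)
  -- the pieces are nonempty, so g is injective on the demands
  have hne : ∀ d ∈ DD, (g d).Nonempty := by
    intro d hd
    obtain ⟨l, _, c, _, hl3, hpc⟩ := hpiece d hd _ (hg1 d hd).1
    obtain ⟨_, z, _, hz⟩ := hpc
    refine ⟨Sum.inr (z 0, c), ?_⟩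
    rw [hz, grd_mem_cyc_inr]
    exact ⟨⟨0, by omega, rfl⟩, rfl⟩
  have hinj : ∀ d ∈ DD, ∀ d' ∈ DD, g d = g d' → d = d' := by
    intro d hd d' hd' h
    by_contra hdd
    have h1 := hg2 d hd d' hd' hdd
    rw [← h] at h1
    rw [disjoint_self] at h1
    have h2 := hne d hd
    rw [Finset.bot_eq_empty] at h1
    rw [h1] at h2
    exact Finset.not_nonempty_empty h2
  have hunF : un (DD.image g) = DD.biUnion g := by
    unfold un
    rw [Finset.image_biUnion]
    rfl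
  have hgp : ∀ d ∈ DD, ∃ l ≤ L, ∃ c, IsPiece l c (g d) := by
    intro d hd
    obtain ⟨l, hl, c, _, _, hpc⟩ := hpiece d hd _ (hg1 d hd).1
    exact ⟨l, hl, c, hpc⟩
  obtain ⟨hnbF, hclF, hvtF⟩ := grd_load DD g L (2 * k) hgp (fun a => (hg3 a).trans (by omega))
  refine ⟨DD.image g, ?_, ?_, ?_, ?_, ?_, ?_, ?_, ?_, ?_, ?_, ?_⟩
  · intro q hq
    rw [mem_image] at hq
    obtain ⟨d, hd, rfl⟩ := hq
    obtain ⟨l, hl, c, hc, hl3, hpc⟩ := hpiece d hd _ (hg1 d hd).1
    refine ⟨?_, l, mem_Icc.2 ⟨hl3, hl⟩, c, hc, hpc⟩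
    have hok := (hg1 d hd).1
    intro i hi
    rw [hDD, Finset.mem_disjSum] at hd
    rcases hd with ⟨i', hi', rfl⟩ | ⟨t, ht, rfl⟩
    · rcases hok.2.1 i hi with h | h
      · left
        rw [h]
        exact (mem_filter.1 hi').1
      · right; exact h
    · right; exact hok.1 i hi
  · intro q hq q' hq' hqq
    rw [mem_image] at hq hq'
    obtain ⟨d, hd, rfl⟩ := hq
    obtain ⟨d', hd', rfl⟩ := hq'
    exact hg2 d hd d' hd' (fun h => hqq (by rw [h]))
  · rw [hunF, Finset.disjoint_biUnion_left]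
    intro d hd
    exact (hg1 d hd).2.symm
  · intro x hx y hy hxy
    have hne' : x ≠ y := (hInsLo.1 x y hxy).1
    rw [hunF, mem_biUnion]
    refine ⟨Sum.inl (Sum.inl s(x, y)), ?_, ?_⟩
    · rw [hDD, Finset.mem_disjSum]
      exact Or.inl ⟨_, mem_filter.2 ⟨hxy, Or.inl ⟨x, hx, y, hy, hne', rfl⟩⟩, rfl⟩
    · have hd : (Sum.inl (Sum.inl s(x, y)) : Item V C ⊕ ((C × ℕ) × ℕ)) ∈ DD := by
        rw [hDD, Finset.mem_disjSum]
        exact Or.inl ⟨_, mem_filter.2 ⟨hxy, Or.inl ⟨x, hx, y, hy, hne', rfl⟩⟩, rfl⟩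
      exact (hg1 _ hd).1.1
  · intro x hx c hc hxc
    rw [hunF, mem_biUnion]
    have hd : (Sum.inl (Sum.inr (x, c)) : Item V C ⊕ ((C × ℕ) × ℕ)) ∈ DD := by
      rw [hDD, Finset.mem_disjSum]
      exact Or.inl ⟨_, mem_filter.2 ⟨hxc, Or.inr ⟨x, hx, c, hc, rfl⟩⟩, rfl⟩
    exact ⟨_, hd, (hg1 _ hd).1.1⟩
  · intro c hc l hl
    unfold cnt
    have hset : ((DD.image g).filter fun q => IsPiece l c q) =
        (range (s c l)).image fun i => g (Sum.inr ((c, l), i)) := by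
      ext q
      rw [mem_filter, mem_image, mem_image]
      constructor
      · rintro ⟨⟨d, hd, rfl⟩, hpc⟩
        have hok := (hg1 d hd).1
        rw [hDD, Finset.mem_disjSum] at hd
        rcases hd with ⟨i', hi', rfl⟩ | ⟨t, ht, rfl⟩
        · obtain ⟨_, _, ⟨c', _, hpc'⟩, _⟩ := hok
          have h1 := (grd_piece_unique hpc hpc').1
          rw [hLs, mem_erase] at hl
          exact absurd h1 hl.1
        · obtain ⟨_, hpc', _⟩ := hok
          obtain ⟨h1, h2⟩ := grd_piece_unique hpc hpc'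
          rw [hD2, mem_filter] at ht
          refine ⟨t.2, ?_, ?_⟩
          · rw [mem_range, h1, h2]
            exact ht.2
          · rw [h1, h2]
      · rintro ⟨i, hi, rfl⟩
        rw [mem_range] at hi
        have hd : (Sum.inr ((c, l), i) : Item V C ⊕ ((C × ℕ) × ℕ)) ∈ DD := by
          rw [hDD, Finset.mem_disjSum]
          refine Or.inr ⟨_, ?_, rfl⟩
          rw [hD2, mem_filter, mem_product, mem_product, mem_range]
          exact ⟨⟨⟨hc, hl⟩, lt_trans hi (hT c l)⟩, hi⟩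
        exact ⟨⟨_, hd, rfl⟩, (hg1 _ hd).1.2.1⟩
    rw [hset, Finset.card_image_of_injOn, card_range]
    intro i hi j hj hij
    have hmem : ∀ i, i < s c l → (Sum.inr ((c, l), i) : Item V C ⊕ ((C × ℕ) × ℕ)) ∈ DD := by
      intro i hi
      rw [hDD, Finset.mem_disjSum]
      refine Or.inr ⟨_, ?_, rfl⟩
      rw [hD2, mem_filter, mem_product, mem_product, mem_range]
      exact ⟨⟨⟨hc, hl⟩, lt_trans hi (hT c l)⟩, hi⟩
    rw [Finset.coe_range, Set.mem_Iio] at hi hj
    have h1 := hinj _ (hmem i hi) _ (hmem j hj) hij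
    have h2 := Sum.inr.inj h1
    exact (Prod.ext_iff.1 h2).2
  · intro q hq l hl c hpc
    rw [mem_image] at hq
    obtain ⟨d, hd, rfl⟩ := hq
    have hok := (hg1 d hd).1
    rw [hDD, Finset.mem_disjSum] at hd
    rcases hd with ⟨i', hi', rfl⟩ | ⟨t, ht, rfl⟩
    · obtain ⟨_, _, ⟨c', _, hpc'⟩, _⟩ := hok
      have h1 := (grd_piece_unique hpc hpc').1
      rw [hLs, mem_erase] at hl
      exact absurd h1 hl.1
    · exact hok.2.2.1
  · intro h4 q hq
    rw [mem_image] at hq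
    obtain ⟨d, hd, rfl⟩ := hq
    have hok := (hg1 d hd).1
    rw [hDD, Finset.mem_disjSum] at hd
    rcases hd with ⟨i', hi', rfl⟩ | ⟨t, ht, rfl⟩
    · exact hok.2.2.2 h4
    · exact hok.2.2.2
  · intro q hq c hpc
    rw [mem_image] at hq
    obtain ⟨d, hd, rfl⟩ := hq
    have hok := (hg1 d hd).1
    rw [hDD, Finset.mem_disjSum] at hd
    rcases hd with ⟨i', hi', rfl⟩ | ⟨t, ht, rfl⟩
    · exact ⟨i', (mem_filter.1 hi').1, hok.1⟩
    · obtain ⟨_, hpc', _⟩ := hok
      have h1 := (grd_piece_unique hpc hpc').1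
      rw [hD2, mem_filter, mem_product, mem_product, hLs, mem_erase] at ht
      exact absurd h1.symm ht.1.1.2.1
  · intro v
    rw [hunF]
    refine ⟨(hnbF v).trans (by omega), hclF v⟩
  · intro c
    rw [hunF]
    exact hvtF c

theorem grdw_consts (LR μ p θ : ℝ) (hLR0 : 0 ≤ LR) (hμ0 : 0 < μ) (hμ1 : μ ≤ 1/100) (hp : 0 < p)
    (hp1 : p ≤ 1/4) (hθ : 0 < θ) :
    ∃ κ γ N0 : ℝ, 0 < κ ∧ 0 < γ ∧ γ * 2 ≤ κ ∧ γ * (LR + 1) ≤ κ ∧
      γ * (4 * (LR + 1) * (LR + 2)) ≤ κ ^ 2 ∧ κ * 4 ≤ θ ∧ κ * (2 * LR) ≤ θ ∧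
      ∀ n, N0 ≤ n → 2 ≤ n ∧ 2 ≤ κ * n ∧ ∀ M, μ * n - 1 ≤ M →
        ((4 * LR + 18) * (κ * n) + LR < p ^ 2 / 4 * M) ∧ (10 * (κ * n) < p ^ 2 / 8 * M) := by
  obtain ⟨κ, hκ⟩ : ∃ κ, κ = min (θ / (2 * LR + 4)) (p ^ 2 * μ / (128 * (LR + 6))) := ⟨_, rfl⟩
  have hpm : 0 < p ^ 2 * μ := by positivity
  have hκ0 : 0 < κ := by
    rw [hκ]
    apply lt_min
    · positivity
    · positivity
  have hκ1 : κ * (2 * LR + 4) ≤ θ := by
    have h1 : κ ≤ θ / (2 * LR + 4) := by rw [hκ]; exact min_le_left _ _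
    rwa [le_div_iff₀ (by positivity)] at h1
  have hκ2 : κ * (128 * (LR + 6)) ≤ p ^ 2 * μ := by
    have h1 : κ ≤ p ^ 2 * μ / (128 * (LR + 6)) := by rw [hκ]; exact min_le_right _ _
    rwa [le_div_iff₀ (by positivity)] at h1
  have hp2 : p ^ 2 ≤ 1/16 := by
    have := mul_le_mul hp1 hp1 hp.le (by norm_num)
    linarith [sq p, (by ring : p * p = p ^ 2)]
  have hpm1 : p ^ 2 * μ ≤ 1/1600 := by
    calc p ^ 2 * μ ≤ 1/16 * (1/100) := mul_le_mul hp2 hμ1 hμ0.le (by norm_num)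
      _ = 1/1600 := by norm_num
  have hκLR : 0 ≤ κ * LR := mul_nonneg hκ0.le hLR0
  have hκle : κ ≤ 1 := by linarith
  obtain ⟨γ, hγ⟩ : ∃ γ, γ = κ ^ 2 / (4 * (LR + 2) ^ 2) := ⟨_, rfl⟩
  have hγ0 : 0 < γ := by rw [hγ]; positivity
  have hγeq : γ * (4 * (LR + 2) ^ 2) = κ ^ 2 := by
    rw [hγ]
    field_simp
  have hκsq : κ ^ 2 ≤ κ := by
    have := mul_le_mul_of_nonneg_left hκle hκ0.le
    linarith [sq κ]
  have hγLR : 0 ≤ γ * LR := mul_nonneg hγ0.le hLR0
  have hγLR2 : 0 ≤ γ * LR ^ 2 := mul_nonneg hγ0.le (sq_nonneg _)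
  have hexp : γ * (4 * (LR + 2) ^ 2) = 4 * (γ * LR ^ 2) + 16 * (γ * LR) + 16 * γ := by ring
  refine ⟨κ, γ, 8 * (LR + 1) / (p ^ 2 * μ) + 2 / κ + 3, hκ0, hγ0, by linarith, by linarith, ?_,
    by linarith, by linarith, ?_⟩
  · have : γ * (4 * (LR + 1) * (LR + 2)) = 4 * (γ * LR ^ 2) + 12 * (γ * LR) + 8 * γ := by ring
    linarith
  · intro n hn
    have h8 : 0 ≤ 8 * (LR + 1) / (p ^ 2 * μ) := by positivity
    have h2k : 0 ≤ 2 / κ := by positivity
    have hn0 : 0 < n := by linarith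
    have hn8 : 8 * (LR + 1) < p ^ 2 * μ * n := by
      have h1 : 8 * (LR + 1) / (p ^ 2 * μ) < n := by linarith
      rw [div_lt_iff₀ hpm] at h1
      linarith
    have hκn : 2 ≤ κ * n := by
      have h1 : 2 / κ ≤ n := by linarith
      rw [div_le_iff₀ hκ0] at h1
      linarith
    have hκnp : κ * n * (128 * (LR + 6)) ≤ p ^ 2 * μ * n := by
      have := mul_le_mul_of_nonneg_right hκ2 hn0.le
      linarith
    have hκnLR : 0 ≤ κ * n * LR := mul_nonneg (by linarith) hLR0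
    refine ⟨by linarith, hκn, ?_⟩
    intro M hM
    have h1 : p ^ 2 / 4 * (μ * n - 1) ≤ p ^ 2 / 4 * M :=
      mul_le_mul_of_nonneg_left hM (by positivity)
    have h5 : p ^ 2 / 4 * (μ * n - 1) = p ^ 2 * μ * n / 4 - p ^ 2 / 4 := by ring
    have h6 : κ * n * (128 * (LR + 6)) = 128 * (κ * n * LR) + 768 * (κ * n) := by ring
    have h7 : (4 * LR + 18) * (κ * n) = 4 * (κ * n * LR) + 18 * (κ * n) := by ring
    rw [h6] at hκnp
    rw [h7]
    constructor <;> linarith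

theorem grdW : GrdWStmt := by
  intro ε hε
  refine ⟨1/100, by norm_num, ?_⟩
  intro L μ hμ0 hμ1 η hη0 hη1 p hp hp1 θ hθ
  obtain ⟨κ, γ, N0, hκ0, hγ0, hγ2, hγL, hγq, hκ4, hκL, hN0⟩ :=
    grdw_consts (L : ℝ) μ p θ (Nat.cast_nonneg _) hμ0 hμ1 hp hp1 hθ
  refine ⟨γ, hγ0, ⌈N0⌉₊, ?_⟩
  intro V C _ _ _ _ δ ξ ζ U U' U'' D D' D'' S R Lo W ls s hm hst hU'' hD'' hUc hDc hres hζ0 hζ hls3
    hlsL hLoS hLoR hLoW hWU hWD hLoU hLoD hLoE hLoP hs
  obtain ⟨LR, hLR⟩ : ∃ LR : ℝ, LR = (L : ℝ) := ⟨_, rfl⟩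
  have hLR0 : 0 ≤ LR := by rw [hLR]; exact Nat.cast_nonneg _
  rw [← hLR] at hγL hγq hκL hN0
  obtain ⟨n, hn⟩ : ∃ n : ℝ, n = (U.card : ℝ) := ⟨_, rfl⟩
  have hmR : N0 ≤ n := by
    rw [hn]
    exact (Nat.le_ceil _).trans (by exact_mod_cast hm)
  obtain ⟨hn2, hκn, hMM⟩ := hN0 n hmR
  have hn0 : 0 < n := by linarith
  obtain ⟨hbA, hbB⟩ := hMM (U'.card : ℝ) (by rw [hn]; exact hst.Ulo)
  obtain ⟨k, hk⟩ : ∃ k : ℕ, k = ⌊κ * n⌋₊ := ⟨_, rfl⟩
  have hk1 : (k : ℝ) ≤ κ * n := by rw [hk]; exact Nat.floor_le (by linarith)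
  have hk2 : κ * n - 1 < k := by
    have := Nat.lt_floor_add_one (κ * n)
    rw [hk]
    linarith
  have hk3 : κ * n / 2 ≤ k := by linarith
  have hk0 : 0 < k := by
    have : (0 : ℝ) < k := by linarith
    exact_mod_cast this
  have hγn : 0 ≤ γ * n := by positivity
  have hγn2 : γ * n * 2 ≤ κ * n := by
    have := mul_le_mul_of_nonneg_right hγ2 hn0.le
    linarith
  have hγnL : γ * n * LR + γ * n ≤ κ * n := by
    have := mul_le_mul_of_nonneg_right hγL hn0.le
    have e : γ * (LR + 1) * n = γ * n * LR + γ * n := by ring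
    linarith
  have hslot : ∀ c, ((∑ l ∈ (Icc 3 L).erase ls, s c l : ℕ) : ℝ) ≤ LR * (γ * n) := by
    intro c
    push_cast
    have h1 : ∑ l ∈ (Icc 3 L).erase ls, (s c l : ℝ) ≤ ∑ _l ∈ (Icc 3 L).erase ls, γ * n :=
      Finset.sum_le_sum fun l _ => by rw [hn]; exact hs c l
    rw [Finset.sum_const, nsmul_eq_mul] at h1
    refine h1.trans (mul_le_mul_of_nonneg_right ?_ hγn)
    have h2 : ((Icc 3 L).erase ls).card ≤ L := by
      refine (card_le_card (erase_subset _ _)).trans ?_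
      rw [Nat.card_Icc]
      omega
    rw [hLR]; exact_mod_cast h2
  have hDn : (D.card : ℝ) ≤ n := by
    have h1 := (abs_le.1 hst.dD).2
    have h2 := hst.δhi
    rw [← hn] at h1
    have h3 : δ * n ≤ 1/2 * n := mul_le_mul_of_nonneg_right h2 hn0.le
    linarith
  have hγκ : γ * n ≤ κ * n := by linarith
  obtain ⟨F, f1, f2, fW, f3, f4, f5, f5a, f5b, f5c, f6, f7⟩ := grdw_core (k := k)
    (N2 := (∑ v ∈ U, ((nb Lo v).card + (cl Lo v).card)) +
      ∑ c ∈ D, ∑ l ∈ (Icc 3 L).erase ls, s c l) (T := k + 1) hst hres hUc hε hp hp1 hζ hμ1 hls3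
    hlsL hLoS hLoR hLoW hLoE hLoP
    (by
      intro v
      rw [hk]
      apply Nat.le_floor
      have h1 := (hWU v).1
      rw [← hn] at h1
      linarith)
    (by
      intro v
      rw [hk]
      apply Nat.le_floor
      have h1 := (hWU v).2
      rw [← hn] at h1
      linarith)
    (by
      intro c
      rw [hk]
      apply Nat.le_floor
      have h1 := hWD c
      rw [← hn] at h1
      linarith)
    (by
      intro c l
      have h1 : (s c l : ℝ) ≤ κ * n := by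
        have := hs c l
        rw [← hn] at this
        linarith
      have := Nat.le_floor h1
      omega)
    hk0
    (by
      intro v hv
      rw [hk]
      apply Nat.le_floor
      push_cast
      have h1 := hLoU v hv
      rw [← hn] at h1
      linarith [h1.1, h1.2])
    (by
      intro c hc
      rw [hk]
      apply Nat.le_floor
      rw [Nat.cast_add]
      have h1 := hLoD c hc
      rw [← hn] at h1
      have h2 := hslot c
      have h3 : LR * (γ * n) = γ * n * LR := by ring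
      linarith)
    le_rfl
    (by
      have h1 : (((∑ v ∈ U, ((nb Lo v).card + (cl Lo v).card)) +
          ∑ c ∈ D, ∑ l ∈ (Icc 3 L).erase ls, s c l : ℕ) : ℝ) ≤ (LR + 2) * γ * n ^ 2 := by
        rw [Nat.cast_add]
        have h2 : ((∑ v ∈ U, ((nb Lo v).card + (cl Lo v).card) : ℕ) : ℝ) ≤ n * (2 * (γ * n)) := by
          push_cast
          calc ∑ v ∈ U, (((nb Lo v).card : ℝ) + ((cl Lo v).card : ℝ)) ≤ ∑ _v ∈ U, 2 * (γ * n) :=
                Finset.sum_le_sum fun v hv => by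
                  have h1 := hLoU v hv
                  rw [← hn] at h1
                  linarith [h1.1, h1.2]
            _ = _ := by rw [Finset.sum_const, nsmul_eq_mul, hn]
        have h3 : ((∑ c ∈ D, ∑ l ∈ (Icc 3 L).erase ls, s c l : ℕ) : ℝ) ≤ n * (LR * (γ * n)) := by
          rw [Nat.cast_sum]
          calc ∑ c ∈ D, ((∑ l ∈ (Icc 3 L).erase ls, s c l : ℕ) : ℝ) ≤ ∑ _c ∈ D, LR * (γ * n) :=
                Finset.sum_le_sum fun c _ => hslot c
            _ = (D.card : ℝ) * (LR * (γ * n)) := by rw [Finset.sum_const, nsmul_eq_mul]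
            _ ≤ _ := mul_le_mul_of_nonneg_right hDn (by positivity)
        calc _ ≤ n * (2 * (γ * n)) + n * (LR * (γ * n)) := add_le_add h2 h3
          _ = _ := by ring
      have h4 : (((L + 1) * ((∑ v ∈ U, ((nb Lo v).card + (cl Lo v).card)) +
          ∑ c ∈ D, ∑ l ∈ (Icc 3 L).erase ls, s c l) : ℕ) : ℝ) ≤ ((k * k : ℕ) : ℝ) := by
        rw [Nat.cast_mul, Nat.cast_mul, Nat.cast_add (m := L), Nat.cast_one, ← hLR]
        have h5 : (LR + 1) * ((LR + 2) * γ * n ^ 2) ≤ (κ * n / 2) * (κ * n / 2) := by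
          have h6 := mul_le_mul_of_nonneg_right hγq (sq_nonneg n)
          have e1 : γ * (4 * (LR + 1) * (LR + 2)) * n ^ 2 =
              4 * ((LR + 1) * ((LR + 2) * γ * n ^ 2)) := by ring
          have e2 : (κ * n / 2) * (κ * n / 2) = κ ^ 2 * n ^ 2 / 4 := by ring
          linarith
        calc (LR + 1) * _ ≤ (LR + 1) * ((LR + 2) * γ * n ^ 2) :=
              mul_le_mul_of_nonneg_left h1 (by linarith)
          _ ≤ (κ * n / 2) * (κ * n / 2) := h5
          _ ≤ (k : ℝ) * k := mul_le_mul hk3 hk3 (by positivity) (Nat.cast_nonneg _)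
      exact_mod_cast h4)
    (by
      push_cast
      rw [← hLR]
      have h2 : (4 + LR) * (2 * (2 * (k : ℝ))) + 2 * k = (4 * LR + 18) * k := by ring
      have h3 : (4 * LR + 18) * (k : ℝ) ≤ (4 * LR + 18) * (κ * n) :=
        mul_le_mul_of_nonneg_left hk1 (by linarith)
      linarith)
    (by
      push_cast
      linarith)
  refine ⟨F, f1, f2, fW, f5a, f5b, f5c, f3, f4, f5, ?_, ?_⟩
  · intro v
    have h1 : ((nb (un F) v).card : ℝ) ≤ 4 * k := by exact_mod_cast (f6 v).1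
    have h2 : ((cl (un F) v).card : ℝ) ≤ 2 * k := by exact_mod_cast (f6 v).2
    have h3 : κ * 4 * n ≤ θ * n := mul_le_mul_of_nonneg_right hκ4 hn0.le
    rw [← hn]
    constructor <;> linarith
  · intro c
    have h1 : ((vt (un F) c).card : ℝ) ≤ LR * (2 * k) := by
      rw [hLR]; exact_mod_cast f7 c
    have h3 : κ * (2 * LR) * n ≤ θ * n := mul_le_mul_of_nonneg_right hκL hn0.le
    have h5 : LR * (2 * (k : ℝ)) ≤ LR * (2 * (κ * n)) :=
      mul_le_mul_of_nonneg_left (by linarith) hLR0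
    have e : κ * (2 * LR) * n = LR * (2 * (κ * n)) := by ring
    rw [← hn]
    linarith

end Pool.Agent.OBX
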