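import Mathlib
import Pool.Agent.OBX.Defs
import Pool.Agent.OBX.Stmts

set_option autoImplicit false

/-!
GRP: greedy distribution of members to cycles.
-/

namespace Pool.Agent.OBX

open Finset Pool.Agent.OBW

/-- base weight of group `i` -/
def grp_base (w₀ i : ℕ) : ℕ := if i = 0 then w₀ else 0

/-- greedy: the next cut point after `k` for the cycle `i` -/
def grp_next (h W₀ w₀ : ℕ) (l w : ℕ → ℕ) (i k : ℕ) : ℕ :=
  Nat.findGreatest
    (fun r => k ≤ r ∧ (r = k ∨ grp_base w₀ i + ∑ j ∈ Ico k r, w j + W₀ ≤ l i)) h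

/-- greedy cut points -/
def grp_e (h W₀ w₀ : ℕ) (l w : ℕ → ℕ) : ℕ → ℕ
  | 0 => 0
  | i + 1 => grp_next h W₀ w₀ l w i (grp_e h W₀ w₀ l w i)

theorem grp_next_spec (h W₀ w₀ : ℕ) (l w : ℕ → ℕ) (i k : ℕ) (hk : k ≤ h) :
    k ≤ grp_next h W₀ w₀ l w i k ∧ grp_next h W₀ w₀ l w i k ≤ h ∧
    (grp_next h W₀ w₀ l w i k = k ∨
      grp_base w₀ i + ∑ j ∈ Ico k (grp_next h W₀ w₀ l w i k), w j + W₀ ≤ l i) ∧
    (grp_next h W₀ w₀ l w i k < h →
      l i < grp_base w₀ i + ∑ j ∈ Ico k (grp_next h W₀ w₀ l w i k + 1), w j + W₀) := by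
  have h0 : (fun r => k ≤ r ∧ (r = k ∨ grp_base w₀ i + ∑ j ∈ Ico k r, w j + W₀ ≤ l i)) k :=
    ⟨le_rfl, Or.inl rfl⟩
  have hs := Nat.findGreatest_spec
    (P := fun r => k ≤ r ∧ (r = k ∨ grp_base w₀ i + ∑ j ∈ Ico k r, w j + W₀ ≤ l i)) hk h0
  have hle := Nat.findGreatest_le
    (P := fun r => k ≤ r ∧ (r = k ∨ grp_base w₀ i + ∑ j ∈ Ico k r, w j + W₀ ≤ l i)) h
  have hdef : grp_next h W₀ w₀ l w i k = Nat.findGreatest
    (fun r => k ≤ r ∧ (r = k ∨ grp_base w₀ i + ∑ j ∈ Ico k r, w j + W₀ ≤ l i)) h := by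
    unfold grp_next
    rfl
  rw [hdef]
  refine ⟨hs.1, hle, hs.2, ?_⟩
  intro hlt
  by_contra hcon
  push Not at hcon
  have hgr := Nat.findGreatest_is_greatest
    (P := fun r => k ≤ r ∧ (r = k ∨ grp_base w₀ i + ∑ j ∈ Ico k r, w j + W₀ ≤ l i))
    (n := h) (k := Nat.findGreatest
      (fun r => k ≤ r ∧ (r = k ∨ grp_base w₀ i + ∑ j ∈ Ico k r, w j + W₀ ≤ l i)) h + 1)
    (Nat.lt_succ_self _) hlt
  exact hgr ⟨le_trans hs.1 (Nat.le_succ _), Or.inr hcon⟩

theorem grp_e_le (h W₀ w₀ : ℕ) (l w : ℕ → ℕ) (i : ℕ) : grp_e h W₀ w₀ l w i ≤ h := by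
  induction i with
  | zero => exact Nat.zero_le _
  | succ i ih => exact (grp_next_spec h W₀ w₀ l w i _ ih).2.1

theorem grp_e_mono (h W₀ w₀ : ℕ) (l w : ℕ → ℕ) : Monotone (grp_e h W₀ w₀ l w) :=
  monotone_nat_of_le_succ (fun i => (grp_next_spec h W₀ w₀ l w i _ (grp_e_le h W₀ w₀ l w i)).1)

theorem grp_sum (w₀ q : ℕ) (w e : ℕ → ℕ) (he0 : e 0 = 0) (hm : Monotone e) :
    ∑ i ∈ range (q + 1), (grp_base w₀ i + ∑ j ∈ Ico (e i) (e (i + 1)), w j) =
      w₀ + ∑ j ∈ range (e (q + 1)), w j := by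
  induction q with
  | zero =>
    simp [grp_base, he0]
  | succ q ih =>
    rw [Finset.sum_range_succ, ih]
    have h1 : ∑ j ∈ range (e (q + 1 + 1)), w j =
        ∑ j ∈ range (e (q + 1)), w j + ∑ j ∈ Ico (e (q + 1)) (e (q + 1 + 1)), w j := by
      rw [Finset.sum_range_add_sum_Ico]
      exact hm (Nat.le_succ _)
    rw [h1]
    simp [grp_base]
    ring

theorem grp : GrpStmt := by
  intro q h W W₀ w₀ l w hW0 hq hw hl hl0 hsum
  have hle := grp_e_le h W₀ w₀ l w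
  have hmono := grp_e_mono h W₀ w₀ l w
  have hspec := fun i => grp_next_spec h W₀ w₀ l w i _ (hle i)
  have hstep : ∀ i, grp_e h W₀ w₀ l w (i + 1) =
      grp_next h W₀ w₀ l w i (grp_e h W₀ w₀ l w i) := fun i => rfl
  have hcut : ∀ i, grp_e h W₀ w₀ l w (i + 1) < h →
      l i < grp_base w₀ i +
        ∑ j ∈ Ico (grp_e h W₀ w₀ l w i) (grp_e h W₀ w₀ l w (i + 1)), w j + W₀ + W := by
    intro i hi
    have h1 := (hspec i).2.2.2 (by rw [← hstep]; exact hi)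
    rw [← hstep] at h1
    have hle' : grp_e h W₀ w₀ l w i ≤ grp_e h W₀ w₀ l w (i + 1) := hmono (Nat.le_succ i)
    rw [Finset.sum_Ico_succ_top hle'] at h1
    have h2 := hw _ hi
    omega
  refine ⟨grp_e h W₀ w₀ l w, rfl, ?_, fun i _ => hmono (Nat.le_succ i), ?_⟩
  · by_contra hne
    have hlt : grp_e h W₀ w₀ l w q < h := lt_of_le_of_ne (hle q) hne
    obtain ⟨q', rfl⟩ : ∃ q', q = q' + 1 := ⟨q - 1, by omega⟩
    have h1 : ∑ i ∈ range (q' + 1), l i <
        ∑ i ∈ range (q' + 1), (grp_base w₀ i +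
        ∑ j ∈ Ico (grp_e h W₀ w₀ l w i) (grp_e h W₀ w₀ l w (i + 1)), w j + W₀ + W) := by
      apply Finset.sum_lt_sum_of_nonempty
      · exact ⟨0, by simp⟩
      · intro i hi
        apply hcut
        refine lt_of_le_of_lt (hmono ?_) hlt
        have := Finset.mem_range.mp hi
        omega
    have h2 : ∑ i ∈ range (q' + 1), (grp_base w₀ i +
        ∑ j ∈ Ico (grp_e h W₀ w₀ l w i) (grp_e h W₀ w₀ l w (i + 1)), w j + W₀ + W) =
        (w₀ + ∑ j ∈ range (grp_e h W₀ w₀ l w (q' + 1)), w j) + (q' + 1) * (W₀ + W) := by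
      rw [← grp_sum w₀ q' w (grp_e h W₀ w₀ l w) rfl hmono]
      have : ∀ i ∈ range (q' + 1), grp_base w₀ i +
        ∑ j ∈ Ico (grp_e h W₀ w₀ l w i) (grp_e h W₀ w₀ l w (i + 1)), w j + W₀ + W =
        (grp_base w₀ i +
        ∑ j ∈ Ico (grp_e h W₀ w₀ l w i) (grp_e h W₀ w₀ l w (i + 1)), w j) + (W₀ + W) := by
        intro i _; ring
      rw [Finset.sum_congr rfl this, Finset.sum_add_distrib (g := fun _ => W₀ + W)]
      simp
    have h3 : ∑ j ∈ range (grp_e h W₀ w₀ l w (q' + 1)), w j ≤ ∑ j ∈ range h, w j :=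
      Finset.sum_le_sum_of_subset (Finset.range_subset_range.mpr (hle _))
    omega
  · intro i hi
    have hb : (if i = 0 then w₀ else 0) = grp_base w₀ i := rfl
    rw [hb]
    have h3 := (hspec i).2.2.1
    rw [← hstep] at h3
    have hbase : grp_base w₀ i + 5 ≤ l i := by
      unfold grp_base
      split_ifs with h0
      · rw [h0]; exact hl0
      · have := hl i hi
        omega
    refine ⟨?_, ?_, ?_⟩
    · rcases h3 with h3 | h3
      · rw [h3]; simp; exact hbase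
      · omega
    · intro hlt
      have := hcut i hlt
      omega
    · intro hlt
      rcases h3 with h3 | h3
      · omega
      · exact h3

end Pool.Agent.OBX
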