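import Mathlib
import Pool.Agent.OBX.LnkA

set_option autoImplicit false

/-!
OBX: greedy placement of links.
-/

namespace Pool.Agent.OBX

open Finset Pool.Agent.OBW

section
variable {V C : Type} [Fintype V] [DecidableEq V] [Fintype C] [DecidableEq C]

/-- loads of a union of links -/
theorem lnk_load {ι : Type} [DecidableEq ι] (E : Finset ι) (g : ι → Finset (Item V C))
    (t : ι → ℕ) (c : ι → C) (a b : ι → V) (B : ℕ)
    (hg : ∀ i ∈ E, IsLink (t i) (c i) (a i) (b i) (g i))
    (hB : ∀ v, (E.filter (fun i => v ∈ lnodes (g i))).card ≤ B) :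
    (∀ v, (nb (E.biUnion g) v).card ≤ 2 * B) ∧ (∀ v, (cl (E.biUnion g) v).card ≤ B) ∧
      (∀ d, (vt (E.biUnion g) d).card ≤ ∑ i ∈ E.filter (fun i => c i = d), t i) := by
  classical
  refine ⟨fun v => ?_, fun v => ?_, fun d => ?_⟩
  · have h1 : nb (E.biUnion g) v ⊆
        (E.filter (fun i => v ∈ lnodes (g i))).biUnion fun i => nb (g i) v := by
      intro u hu
      rw [grd_mem_nb, mem_biUnion] at hu
      obtain ⟨i, hi, hiu⟩ := hu
      rw [mem_biUnion]
      exact ⟨i, mem_filter.2 ⟨hi, mem_lnodes.2 (Or.inl ⟨u, hiu⟩)⟩, grd_mem_nb.2 hiu⟩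
    refine (card_le_card h1).trans ?_
    refine (Finset.card_biUnion_le_card_mul _ _ 2 ?_).trans ?_
    · intro i hi
      exact (lnk_deg (hg i (mem_filter.1 hi).1)).1 v
    · rw [mul_comm]
      exact Nat.mul_le_mul_left _ (hB _)
  · have h1 : cl (E.biUnion g) v ⊆
        (E.filter (fun i => v ∈ lnodes (g i))).biUnion fun i => cl (g i) v := by
      intro u hu
      rw [grd_mem_cl, mem_biUnion] at hu
      obtain ⟨i, hi, hiu⟩ := hu
      rw [mem_biUnion]
      exact ⟨i, mem_filter.2 ⟨hi, mem_lnodes.2 (Or.inr ⟨u, hiu⟩)⟩, grd_mem_cl.2 hiu⟩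
    refine (card_le_card h1).trans ?_
    refine (Finset.card_biUnion_le_card_mul _ _ 1 ?_).trans ?_
    · intro i hi
      exact (lnk_deg (hg i (mem_filter.1 hi).1)).2.1 v
    · rw [mul_one]
      exact hB _
  · have h1 : vt (E.biUnion g) d ⊆ (E.filter (fun i => c i = d)).biUnion fun i => vt (g i) d := by
      intro u hu
      rw [grd_mem_vt, mem_biUnion] at hu
      obtain ⟨i, hi, hiu⟩ := hu
      rw [mem_biUnion]
      refine ⟨i, mem_filter.2 ⟨hi, ?_⟩, grd_mem_vt.2 hiu⟩
      by_contra hne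
      have h2 := (lnk_deg (hg i hi)).2.2.2.1 d (fun h => hne h.symm)
      have h3 : u ∈ vt (g i) d := grd_mem_vt.2 hiu
      rw [h2] at h3
      exact absurd h3 (Finset.notMem_empty _)
    refine (card_le_card h1).trans (card_biUnion_le.trans ?_)
    apply Finset.sum_le_sum
    intro i hi
    rw [mem_filter] at hi
    rw [← hi.2]
    exact (lnk_deg (hg i hi.1)).2.2.1

/-- **greedy placement of links** -/
theorem lnk_greedy {ι : Type} [Fintype ι] (good : Item V C → Prop) (A : Finset V)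
    (W : Finset (Item V C)) (c : ι → C) (a b : ι → V) (t : ι → ℕ) (β k : ℕ) (hk : 0 < k)
    (ht : ∀ i, 1 ≤ t i) (hab : ∀ i, a i ≠ b i)
    (hmid : ∀ i x, (x ∈ A ∨ x = a i) → ∃ K ⊆ A, β ≤ K.card ∧ ∀ u ∈ K, good (Sum.inl s(x, u)) ∧
      good (Sum.inr (u, c i)))
    (hlast : ∀ i x, (x ∈ A ∨ (x = a i ∧ t i = 1)) → ∃ K ⊆ A, β ≤ K.card ∧ ∀ u ∈ K,
      good (Sum.inl s(x, u)) ∧ good (Sum.inl s(u, b i)) ∧ good (Sum.inr (u, c i)))
    (hWnb : ∀ v, (nb W v).card ≤ k) (hWvt : ∀ d, (vt W d).card ≤ k)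
    (hroots : ∀ v, (univ.filter (fun i => a i = v ∨ b i = v)).card ≤ k)
    (hcol : ∀ d, ∑ i with c i = d, t i ≤ k)
    (htot : ∑ i, (t i + 2) ≤ k * k) (hβ : 15 * k + 2 ≤ β) :
    ∃ g : ι → Finset (Item V C), (∀ i, IsLink (t i) (c i) (a i) (b i) (g i)) ∧
      (∀ i, ∀ j ∈ g i, good j ∧ j ∉ W) ∧
      (∀ i v d, (Sum.inr (v, d) : Item V C) ∈ g i → v ∈ A) ∧
      (∀ i j, i ≠ j → Disjoint (g i) (g j)) ∧
      (∀ v, (nb (univ.biUnion g) v).card ≤ 4 * k ∧ (cl (univ.biUnion g) v).card ≤ 2 * k) ∧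
      (∀ d, (vt (univ.biUnion g) d).card ≤ k) := by
  classical
  have htk : ∀ i, t i ≤ k := by
    intro i
    refine le_trans ?_ (hcol (c i))
    exact Finset.single_le_sum (f := t) (fun _ _ => Nat.zero_le _)
      (mem_filter.2 ⟨mem_univ i, rfl⟩)
  obtain ⟨g, hg1, hg2, hg3⟩ := lnk_capGreedy (univ : Finset ι) (lnodes (V := V) (C := C))
    (fun i => {a i, b i})
    (fun i q => IsLink (t i) (c i) (a i) (b i) q ∧ (∀ j ∈ q, good j ∧ j ∉ W) ∧
      (∀ v d, (Sum.inr (v, d) : Item V C) ∈ q → v ∈ A))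
    (fun p q => Disjoint p q) (fun p q h => h.symm) ∅ k k (k * k) (fun i => t i + 2)
    (fun i _ q hq => (lnk_deg hq.1).2.2.2.2)
    (by
      intro v
      refine le_trans (card_le_card ?_) (hroots v)
      intro i hi
      rw [mem_filter] at hi ⊢
      refine ⟨hi.1, ?_⟩
      have h2 := hi.2
      rw [mem_insert, mem_singleton] at h2
      rcases h2 with h | h
      · exact Or.inl h.symm
      · exact Or.inr h.symm)
    htot
    (by
      intro E _ g hok hdis hcap O hO i _ hiE
      obtain ⟨hn1, _, hv1⟩ := lnk_load E g t c a b (2 * k) (fun i hi => (hok i hi).1)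
        (fun v => (hcap v).trans (by omega))
      have hOk : O.card ≤ k := Nat.le_of_mul_le_mul_right hO hk
      obtain ⟨Z, hZ⟩ : ∃ Z, Z = E.biUnion g ∪ W := ⟨_, rfl⟩
      have hnbZ : ∀ v, (nb Z v).card ≤ 5 * k := by
        intro v
        have h1 : nb Z v ⊆ nb (E.biUnion g) v ∪ nb W v := by
          intro u hu
          rw [grd_mem_nb, hZ, mem_union] at hu
          rw [mem_union, grd_mem_nb, grd_mem_nb]
          exact hu
        have h2 := (card_le_card h1).trans (card_union_le _ _)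
        have h3 := hn1 v
        have h4 := hWnb v
        omega
      have hvtZ : (vt Z (c i)).card ≤ 2 * k := by
        have h1 : vt Z (c i) ⊆ vt (E.biUnion g) (c i) ∪ vt W (c i) := by
          intro u hu
          rw [grd_mem_vt, hZ, mem_union] at hu
          rw [mem_union, grd_mem_vt, grd_mem_vt]
          exact hu
        have h2 := (card_le_card h1).trans (card_union_le _ _)
        have h3 := hv1 (c i)
        have h4 := hWvt (c i)
        have h5 : ∑ j ∈ E.filter (fun j => c j = c i), t j ≤ ∑ j with c j = c i, t j := by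
          apply Finset.sum_le_sum_of_subset
          intro j hj
          rw [mem_filter] at hj ⊢
          exact ⟨mem_univ _, hj.2⟩
        have h6 := hcol (c i)
        omega
      obtain ⟨q, hq1, hq2, hq3, hq4⟩ := lnk_build good Z O A (c i) (a i) (b i) (t i) β (5 * k)
        (2 * k) k (ht i) (hab i) (hmid i) (hlast i) hnbZ hvtZ hOk (by have := htk i; omega)
      refine ⟨q, ⟨hq1, ?_, fun v d h => (hq3 v d h).1⟩, ?_, ?_⟩
      · intro j hj
        have h1 := hq2 j hj
        rw [hZ, mem_union, not_or] at h1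
        exact ⟨h1.1, h1.2.2⟩
      · intro j hj
        rw [Finset.disjoint_left]
        intro x hx hxq
        apply (hq2 x hxq).2
        rw [hZ, mem_union, mem_biUnion]
        exact Or.inl ⟨j, hj, hx⟩
      · intro v hv hfix
        rw [mem_insert, mem_singleton, not_or] at hfix
        exact hq4 v hv hfix.1 hfix.2)
  obtain ⟨hn1, hc1, hv1⟩ := lnk_load univ g t c a b (2 * k) (fun i hi => (hg1 i hi).1)
    (fun v => (hg3 v).trans (by omega))
  refine ⟨g, fun i => (hg1 i (mem_univ i)).1, fun i => (hg1 i (mem_univ i)).2.1,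
    fun i => (hg1 i (mem_univ i)).2.2, fun i j hij => hg2 i (mem_univ i) j (mem_univ j) hij, ?_, ?_⟩
  · intro v
    refine ⟨?_, hc1 v⟩
    have := hn1 v
    omega
  · intro d
    exact (hv1 d).trans (hcol d)

end

end Pool.Agent.OBX
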