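import Mathlib
import Pool.Agent.OBX.Stmts
import Pool.Agent.OBW.Vmain

set_option autoImplicit false

/-!
OBX: MAINA from CDLA (first stage) and CDL (later stages): the vortex induction.
-/

namespace Pool.Agent.OBX

open Finset Pool.Agent.OBW

theorem mainA (h0 : CdlAStmt) (h1 : CdlStmt) (hAbs : AbsStmt) (hVtx : VtxStmt) : MainAStmt := by
  have hG : CdlG (fun _ n => n) := h0
  have h := vi_main (fun _ n => n) (fun _ _ h => h) hG h1 hAbs hVtx
  intro ε L hε
  obtain ⟨n₀, hn₀⟩ := h ε L hε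
  refine ⟨n₀, ?_⟩
  intro V C _ _ _ _ G N hn hreg hd hsum hhalf
  exact hn₀ V C G N hn hreg hd hsum hhalf

end Pool.Agent.OBX
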