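import Mathlib
import Pool.Agent.OBX.Stmts
import Pool.Agent.OBW.Basic
import Pool.Agent.OBW.Vtx

set_option autoImplicit false
set_option linter.unusedSectionVars false

/-!
OBX, MAINB: small lemmas on realizations, families of cycles and unions of coloured sets.
-/

namespace Pool.Agent.OBX

open Finset Pool.Agent.OBW

section
variable {V C : Type} [Fintype V] [DecidableEq V] [Fintype C] [DecidableEq C]

theorem mb_real_nil {c : C} {Y : Finset (Item V C)} (h : Real c [] Y) : Y = ∅ := by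
  obtain ⟨q, _, _, rfl⟩ := h
  simp

theorem mb_real_nil' (c : C) : Real c [] (∅ : Finset (Item V C)) :=
  ⟨fun _ => ∅, by intro i h; simp at h, by intro i h; simp at h, by simp⟩

theorem mb_realL_nil {c : C} {Y : Finset (Item V C)} (h : RealL c [] Y) : Y = ∅ := by
  obtain ⟨q, _, _, rfl⟩ := h
  simp

open scoped Classical in
theorem cycs_zero (c : C) : Cycs c 0 (∅ : Finset (Item V C)) := by
  refine ⟨∅, by intro p hp; simp at hp, by simp, by simp, ?_⟩
  intro l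
  rw [cnt_eq]
  simp

theorem mb_cycs_union {c : C} {Λ₁ Λ₂ : Multiset ℕ} {Y₁ Y₂ : Finset (Item V C)} (h₁ : Cycs c Λ₁ Y₁)
    (h₂ : Cycs c Λ₂ Y₂) (hd : Disjoint Y₁ Y₂) : Cycs c (Λ₁ + Λ₂) (Y₁ ∪ Y₂) := by
  obtain ⟨F₁, a1, b1, c1, d1⟩ := h₁
  obtain ⟨F₂, a2, b2, c2, d2⟩ := h₂
  have hd' : Disjoint (un F₁) (un F₂) := by rw [b1, b2]; exact hd
  refine ⟨F₁ ∪ F₂, a1.union a2 hd', by rw [un_union, b1, b2], ?_, ?_⟩
  · intro q hq
    rcases Finset.mem_union.1 hq with hq | hq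
    · exact c1 q hq
    · exact c2 q hq
  · intro l
    rw [cnt_union hd', d1, d2, Multiset.count_add]

theorem step_nil (c : C) : Step c [] (∅ : Finset (Item V C)) 0 [] 0 where
  col := by intro v c' h; simp at h
  bal := by intro v; simp [ends]
  cnt := by simp [siz]
  run := by
    intro Y hY _
    have := mb_real_nil hY
    subst this
    exact ⟨∅, ∅, 0, by simp, by simp, mb_real_nil' c, cycs_zero c, by simp⟩

theorem mb_mem_uC {D : Finset C} {X : C → Finset (Item V C)} {i : Item V C} :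
    i ∈ uC D X ↔ ∃ c ∈ D, i ∈ X c := by simp [uC]

theorem uC_sub {D : Finset C} {X : C → Finset (Item V C)} {S : Finset (Item V C)}
    (h : ∀ c ∈ D, X c ⊆ S) : uC D X ⊆ S := by
  intro i hi
  obtain ⟨c, hc, hi⟩ := mb_mem_uC.1 hi
  exact h c hc hi

theorem mb_sub_uC {D : Finset C} {X : C → Finset (Item V C)} {c : C} (hc : c ∈ D) : X c ⊆ uC D X := by
  intro i hi
  exact mb_mem_uC.2 ⟨c, hc, hi⟩

theorem nb_uC_card {D : Finset C} {X : C → Finset (Item V C)}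
    (h : ∀ c ∈ D, ∀ d ∈ D, c ≠ d → Disjoint (X c) (X d)) (v : V) :
    (nb (uC D X) v).card = ∑ c ∈ D, (nb (X c) v).card := by
  have : nb (uC D X) v = D.biUnion (fun c => nb (X c) v) := by
    ext u
    simp only [mem_nb, mb_mem_uC, Finset.mem_biUnion]
  rw [this, Finset.card_biUnion]
  intro p hp q hq hpq
  exact nb_disj (h p hp q hq hpq) v

theorem cl_uC_card {D : Finset C} {X : C → Finset (Item V C)}
    (h : ∀ c ∈ D, ∀ d ∈ D, c ≠ d → Disjoint (X c) (X d)) (v : V) :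
    (cl (uC D X) v).card = ∑ c ∈ D, (cl (X c) v).card := by
  have : cl (uC D X) v = D.biUnion (fun c => cl (X c) v) := by
    ext u
    simp only [mem_cl, mb_mem_uC, Finset.mem_biUnion]
  rw [this, Finset.card_biUnion]
  intro p hp q hq hpq
  exact cl_disj (h p hp q hq hpq) v

/-- in a union of coloured sets only `X c` has pairs of the colour `c` -/
theorem vt_uC {D : Finset C} {X : C → Finset (Item V C)}
    (h : ∀ c ∈ D, ∀ v c', (Sum.inr (v, c') : Item V C) ∈ X c → c' = c) {c : C} (hc : c ∈ D) :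
    vt (uC D X) c = vt (X c) c := by
  ext v
  rw [mem_vt, mem_vt, mb_mem_uC]
  constructor
  · rintro ⟨d, hd, hi⟩
    have := h d hd v c hi
    subst this
    exact hi
  · intro hi
    exact ⟨c, hc, hi⟩

theorem mem_full_inl {G : SimpleGraph V} {u v : V} :
    (Sum.inl s(u, v) : Item V C) ∈ full C G ↔ G.Adj u v := by
  rw [← mem_nb, mem_nb_full]

theorem mem_full_inr {G : SimpleGraph V} {v : V} {c : C} :
    (Sum.inr (v, c) : Item V C) ∈ full C G := by
  classical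
  unfold full
  simp

theorem sub_full {G : SimpleGraph V} {R : Finset (Item V C)}
    (h : ∀ u v, (Sum.inl s(u, v) : Item V C) ∈ R → G.Adj u v) : R ⊆ full C G := by
  intro i hi
  rcases i with e | ⟨v, c⟩
  · induction e using Sym2.ind with
    | _ u v => exact mem_full_inl.2 (h u v hi)
  · exact mem_full_inr

theorem nb_card_le (R : Finset (Item V C)) (v : V) : (nb R v).card ≤ R.card := by
  refine Finset.card_le_card_of_injOn (fun u => (Sum.inl s(v, u) : Item V C)) ?_ ?_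
  · intro u hu
    exact (mem_nb R v u).1 hu
  · intro u _ u' _ h
    have h' : u = u' ∨ v = u' ∧ u = v := by simpa using h
    rcases h' with h' | h'
    · exact h'
    · exact h'.2.trans h'.1

theorem cl_card_le (R : Finset (Item V C)) (v : V) : (cl R v).card ≤ R.card := by
  refine Finset.card_le_card_of_injOn (fun u => (Sum.inr (v, u) : Item V C)) ?_ ?_
  · intro u hu
    exact (mem_cl R v u).1 hu
  · intro u _ u' _ h
    simpa using h

theorem vt_card_le (R : Finset (Item V C)) (c : C) : (vt R c).card ≤ R.card := by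
  refine Finset.card_le_card_of_injOn (fun u => (Sum.inr (u, c) : Item V C)) ?_ ?_
  · intro u hu
    exact (mem_vt R u c).1 hu
  · intro u _ u' _ h
    simpa using h

/-- geometry of one level of the vortex -/
structure Geo (C : Type) [Fintype C] [DecidableEq C] (δ ξ μ : ℝ) (G : SimpleGraph V)
    (U U' : Finset V) (D D' : Finset C) : Prop where
  subU : U' ⊆ U
  subD : D' ⊆ D
  dD : |(D.card : ℝ) - δ * U.card| ≤ 1
  dD' : |(D'.card : ℝ) - δ * U'.card| ≤ 1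
  Ulo : μ * U.card - 1 ≤ U'.card
  Uhi : (U'.card : ℝ) ≤ μ * U.card
  deg : ∀ v ∈ U, |((nb (full C G) v ∩ U').card : ℝ) - 2 * δ * U'.card| ≤ ξ * U'.card

/-- the state of one level of the vortex -/
structure Lev (lam : ℝ) (L₁ Bl B : ℕ) (G : SimpleGraph V) (U U' : Finset V) (D D' : Finset C)
    (S : Finset (Item V C)) (N : ℕ → ℕ) (ms : C → List (Mem V)) (Λ : C → Multiset ℕ) : Prop where
  ins : Inside U D S
  sub : S ⊆ full C G
  misE : ∀ v ∈ U, (((nb (full C G) v ∩ U) \ nb S v).card : ℝ) ≤ lam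
  misV : ∀ v ∈ U, ((D \ cl S v).card : ℝ) ≤ lam
  misC : ∀ c ∈ D, ((U \ vt S c).card : ℝ) ≤ lam
  cE : ∀ u ∈ U', ∀ v ∈ U', (Sum.inl s(u, v) : Item V C) ∈ full C G → (Sum.inl s(u, v) : Item V C) ∈ S
  cP : ∀ v ∈ U', ∀ c ∈ D', (Sum.inr (v, c) : Item V C) ∈ S
  mem : ∀ c ∈ D, MemIn U S c (ms c) ∧ (ms c).length ≤ Bl ∧ Siz 6 20 (ms c) (Λ c) ∧
    (∀ l ∈ Λ c, L₁ < l) ∧ (vt S c).card + siz (ms c) = (Λ c).sum + ∑ l ∈ Icc 3 L₁, l * N l
  off : ∀ c, c ∉ D → ms c = [] ∧ Λ c = 0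
  en : ∀ v, ∑ c ∈ D, ends (ms c) v ≤ B
  bal : ∀ v ∈ U, (nb S v).card = 2 * (cl S v).card + ∑ c ∈ D, ends (ms c) v

/-- `CdlBStmt` with fixed constants -/
def CdlBAt (ε μ η ξ : ℝ) (L₁ B m₀ : ℕ) : Prop :=
    ∀ (V C : Type) [Fintype V] [DecidableEq V] [Fintype C] [DecidableEq C]
      (δ : ℝ) (U U' U'' : Finset V) (D D' D'' : Finset C) (S : Finset (Item V C)) (N : ℕ → ℕ)
      (ms : C → List (Mem V)) (Λ : C → Multiset ℕ),
      m₀ ≤ U.card → Stage δ ε η ξ μ U U' D D' S →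
      U'' ⊆ U' → D'' ⊆ D' → (U''.card : ℝ) ≤ μ * U'.card → (D''.card : ℝ) ≤ μ * U'.card →
      2 * ∑ l ∈ Icc 3 L₁, l * N l ≤ U.card →
      (∀ c ∈ D, MemIn U S c (ms c) ∧ (ms c).length ≤ B ∧ Siz 6 20 (ms c) (Λ c) ∧
        (∀ l ∈ Λ c, L₁ < l) ∧
        (vt S c).card + siz (ms c) = (Λ c).sum + ∑ l ∈ Icc 3 L₁, l * N l) →
      (∀ v, ∑ c ∈ D, ends (ms c) v ≤ B) →
      (∀ v ∈ U, (nb S v).card = 2 * (cl S v).card + ∑ c ∈ D, ends (ms c) v) →
      ∃ (F : Finset (Finset (Item V C))) (X : C → Finset (Item V C)) (ms' : C → List (Mem V))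
        (Λ' : C → Multiset ℕ),
        (∀ q ∈ F, q ⊆ S ∧ ∃ l ∈ Icc 3 L₁, ∃ c ∈ D, IsPiece l c q) ∧ PD F ∧
        (∀ c ∈ D, ∀ l ∈ Icc 3 L₁, cnt F l c = N l) ∧
        (∀ c ∈ D, X c ⊆ S ∧ Disjoint (X c) (un F)) ∧
        (∀ c ∈ D, ∀ d ∈ D, c ≠ d → Disjoint (X c) (X d)) ∧
        (∀ c ∈ D \ D', Step c (ms c) (X c) (Λ c) [] 0) ∧
        (∀ c ∈ D', Step c (ms c) (X c) (Λ c) (ms' c) (Λ' c) ∧ Λ' c ≤ Λ c ∧ (ms' c).length ≤ 1 ∧
          MemIn (U' \ U'') (S \ X c) c (ms' c) ∧ Siz 6 20 (ms' c) (Λ' c)) ∧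
        Inside U' D' (S \ (un F ∪ uC D X)) ∧
        (∀ v ∈ U', ((nb (un F ∪ uC D X) v ∩ U').card : ℝ) ≤ η * μ * U'.card / 2) ∧
        (∀ v ∈ U', ((cl (un F ∪ uC D X) v ∩ D').card : ℝ) ≤ η * μ * U'.card / 2) ∧
        (∀ c ∈ D', ((vt (un F ∪ uC D X) c ∩ U').card : ℝ) ≤ η * μ * U'.card / 2) ∧
        (∀ u ∈ U'', ∀ v ∈ U'', (Sum.inl s(u, v) : Item V C) ∉ un F ∪ uC D X) ∧
        (∀ u ∈ U'', ∀ c ∈ D'', (Sum.inr (u, c) : Item V C) ∉ un F ∪ uC D X) ∧
        (∀ v, ∑ c ∈ D', ends (ms' c) v ≤ 20)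

/-- the sets at one level satisfy the hypothesis `Stage` -/
theorem stage_of {δ ε η ξ ξ' μ lam : ℝ} {L₁ Bl B : ℕ} {G : SimpleGraph V} {U U' : Finset V}
    {D D' : Finset C} {S : Finset (Item V C)} {N : ℕ → ℕ} {ms : C → List (Mem V)}
    {Λ : C → Multiset ℕ} (hg : Geo C δ ξ' μ G U U' D D')
    (hl : Lev lam L₁ Bl B G U U' D D' S N ms Λ) (hδ : 3/8 + ε ≤ δ) (hδ' : δ ≤ 1/2)
    (hμ : 0 < μ) (hμ1 : μ ≤ 1) (hη : 0 < η) (hlam : lam ≤ η * μ * U.card / 2)
    (hsm : ξ' + η ≤ ε) (h1 : 1 ≤ U'.card) (h2 : ξ' * U'.card + 2 ≤ ξ * U'.card) :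
    Stage δ ε η ξ μ U U' D D' S := by
  have hu : (1:ℝ) ≤ U'.card := by exact_mod_cast h1
  have hU0 : (0:ℝ) ≤ U.card := by positivity
  have hlam1 : lam ≤ η * U'.card := by
    have := hg.Ulo
    nlinarith [mul_pos hη hμ]
  have hlam2 : lam ≤ η * U.card := by
    have h3 : η * μ * U.card ≤ η * U.card := by
      have : η * μ ≤ η * 1 := by gcongr
      nlinarith
    have h4 : 0 ≤ η * U.card := by positivity
    linarith
  refine ⟨hg.subU, hg.subD, hl.ins, hδ, hδ', hg.dD, hg.dD', hg.Ulo, hg.Uhi, ?_, ?_, ?_, ?_, ?_, hl.cP, ?_⟩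
  · intro v hv
    exact le_trans (hl.misV v hv) hlam2
  · intro v hv
    refine le_trans ?_ (le_trans (hl.misV v hv) hlam1)
    exact_mod_cast Finset.card_le_card (Finset.sdiff_subset_sdiff hg.subD (le_refl _))
  · intro c hc
    exact le_trans (hl.misC c hc) hlam2
  · intro c hc
    refine le_trans ?_ (le_trans (hl.misC c hc) hlam1)
    exact_mod_cast Finset.card_le_card (Finset.sdiff_subset_sdiff hg.subU (le_refl _))
  · intro v hv
    have h3 : (nb (full C G) v ∩ U') ⊆ (nb S v ∩ U') ∪ ((nb (full C G) v ∩ U) \ nb S v) := by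
      intro u hu
      rw [Finset.mem_inter] at hu
      by_cases h : u ∈ nb S v
      · exact Finset.mem_union_left _ (Finset.mem_inter.2 ⟨h, hu.2⟩)
      · exact Finset.mem_union_right _ (Finset.mem_sdiff.2 ⟨Finset.mem_inter.2 ⟨hu.1, hg.subU hu.2⟩, h⟩)
    have h4 : ((nb (full C G) v ∩ U').card : ℝ) ≤ (nb S v ∩ U').card +
        (((nb (full C G) v ∩ U) \ nb S v).card : ℝ) := by
      exact_mod_cast le_trans (Finset.card_le_card h3) (Finset.card_union_le _ _)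
    have h5 := hl.misE v hv
    have h6 := (abs_le.1 (hg.deg v hv)).1
    nlinarith
  · intro v hv
    have h3 : nb S v ∩ U' = nb (full C G) v ∩ U' := by
      ext u
      rw [Finset.mem_inter, Finset.mem_inter, mem_nb, mem_nb]
      constructor
      · rintro ⟨a, b⟩
        exact ⟨hl.sub a, b⟩
      · rintro ⟨a, b⟩
        exact ⟨hl.cE v hv u b a, b⟩
    rw [h3]
    have h6 := abs_le.1 (hg.deg v (hg.subU hv))
    have h7 := abs_le.1 hg.dD'
    rw [abs_le]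
    constructor <;> linarith

end

end Pool.Agent.OBX
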