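import Mathlib
import Pool.Agent.OBX.MbA

set_option autoImplicit false
set_option linter.unusedSectionVars false

/-!
OBX, MAINB: one stage of the vortex.
-/

namespace Pool.Agent.OBX

open Finset Pool.Agent.OBW

section
variable {V C : Type} [Fintype V] [DecidableEq V] [Fintype C] [DecidableEq C]

theorem mb_ends_nil (v : V) : ends ([] : List (Mem V)) v = 0 := by simp [ends]

/-- the output of one stage -/
structure StOut (L₁ : ℕ) (lam : ℝ) (G : SimpleGraph V) (U' U'' : Finset V) (D' D'' : Finset C)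
    (S : Finset (Item V C)) (N : ℕ → ℕ) (ms : C → List (Mem V)) (Λ : C → Multiset ℕ)
    (F : Finset (Finset (Item V C))) (X : C → Finset (Item V C)) (ms' : C → List (Mem V))
    (Λ' : C → Multiset ℕ) : Prop where
  fp : ∀ q ∈ F, q ⊆ S ∧ ∃ l ∈ Icc 3 L₁, ∃ c, IsPiece l c q
  fd : PD F
  xs : ∀ c, X c ⊆ S
  xf : ∀ c, Disjoint (X c) (un F)
  xx : ∀ c d, c ≠ d → Disjoint (X c) (X d)
  st : ∀ c, Step c (ms c) (X c) (Λ c) (ms' c) (Λ' c)
  lev : Lev lam L₁ 1 20 G U' U'' D' D'' (S \ (un F ∪ uC univ X)) (fun _ => 0) ms' Λ'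

/-- one stage -/
theorem stage {δ ε η ξ ξ' μ lam : ℝ} {L₁ Bl B m₀ : ℕ} {G : SimpleGraph V} {U U' U'' : Finset V}
    {D D' D'' : Finset C} {S : Finset (Item V C)} {N : ℕ → ℕ} {ms : C → List (Mem V)}
    {Λ : C → Multiset ℕ} (hcd : CdlBAt ε μ η ξ L₁ B m₀) (hg : Geo C δ ξ' μ G U U' D D')
    (hl : Lev lam L₁ Bl B G U U' D D' S N ms Λ) (hBl : Bl ≤ B) (hδ : 3/8 + ε ≤ δ) (hδ' : δ ≤ 1/2)
    (hμ : 0 < μ) (hμ1 : μ ≤ 1) (hη : 0 < η) (hlam : lam ≤ η * μ * U.card / 2)
    (hsm : ξ' + η ≤ ε) (h1 : 1 ≤ U'.card) (h2 : ξ' * U'.card + 2 ≤ ξ * U'.card) (hm : m₀ ≤ U.card)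
    (hU : U'' ⊆ U') (hD : D'' ⊆ D') (hUc : (U''.card : ℝ) ≤ μ * U'.card)
    (hDc : (D''.card : ℝ) ≤ μ * U'.card) (hN : 2 * ∑ l ∈ Icc 3 L₁, l * N l ≤ U.card) :
    ∃ (F : Finset (Finset (Item V C))) (X : C → Finset (Item V C)) (ms' : C → List (Mem V))
      (Λ' : C → Multiset ℕ),
      StOut L₁ (η * μ * U'.card / 2) G U' U'' D' D'' S N ms Λ F X ms' Λ' ∧
      (∀ c, c ∉ D → X c = ∅) ∧ (∀ c ∈ D, ∀ l ∈ Icc 3 L₁, cnt F l c = N l) ∧
      (∀ q ∈ F, ∃ l ∈ Icc 3 L₁, ∃ c ∈ D, IsPiece l c q) := by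
  classical
  have hst := stage_of hg hl hδ hδ' hμ hμ1 hη hlam hsm h1 h2
  obtain ⟨F, X₀, ms₀, Λ₀, f1, f2, f3, x1, x2, s1, s2, in1, l1, l2, l3, a1, a2, e1⟩ :=
    hcd V C δ U U' U'' D D' D'' S N ms Λ hm hst hU hD hUc hDc hN
      (fun c hc => ⟨(hl.mem c hc).1, le_trans (hl.mem c hc).2.1 hBl, (hl.mem c hc).2.2⟩)
      hl.en hl.bal
  set X : C → Finset (Item V C) := fun c => if c ∈ D then X₀ c else ∅ with hX
  set ms' : C → List (Mem V) := fun c => if c ∈ D' then ms₀ c else [] with hms'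
  set Λ' : C → Multiset ℕ := fun c => if c ∈ D' then Λ₀ c else 0 with hΛ'
  have hXD : ∀ c ∈ D, X c = X₀ c := fun c hc => by simp [hX, hc]
  have hXn : ∀ c, c ∉ D → X c = ∅ := fun c hc => by simp [hX, hc]
  have hmD : ∀ c ∈ D', ms' c = ms₀ c := fun c hc => by simp [hms', hc]
  have hmn : ∀ c, c ∉ D' → ms' c = [] := fun c hc => by simp [hms', hc]
  have hLD : ∀ c ∈ D', Λ' c = Λ₀ c := fun c hc => by simp [hΛ', hc]
  have hLn : ∀ c, c ∉ D' → Λ' c = 0 := fun c hc => by simp [hΛ', hc]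
  have huC : uC univ X = uC D X₀ := by
    ext i
    rw [mb_mem_uC, mb_mem_uC]
    constructor
    · rintro ⟨c, _, hi⟩
      by_cases hc : c ∈ D
      · exact ⟨c, hc, by rwa [hXD c hc] at hi⟩
      · rw [hXn c hc] at hi
        simp at hi
    · rintro ⟨c, hc, hi⟩
      exact ⟨c, mem_univ _, by rwa [hXD c hc]⟩
  have hfp : ∀ q ∈ F, ∃ l ∈ Icc 3 L₁, ∃ c ∈ D, IsPiece l c q := fun q hq => (f1 q hq).2
  have hfp' : ∀ q ∈ F, ∃ l c, IsPiece l c q := by
    intro q hq
    obtain ⟨l, _, c, _, h⟩ := hfp q hq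
    exact ⟨l, c, h⟩
  have hfp'' : ∀ q ∈ F, ∃ l ∈ Icc 3 L₁, ∃ c, IsPiece l c q := by
    intro q hq
    obtain ⟨l, hl', c, _, h⟩ := hfp q hq
    exact ⟨l, hl', c, h⟩
  have hunS : un F ⊆ S := un_subset (fun q hq => (f1 q hq).1)
  have huCS : uC D X₀ ⊆ S := uC_sub (fun c hc => (x1 c hc).1)
  have husS : un F ∪ uC D X₀ ⊆ S := Finset.union_subset hunS huCS
  have hdis : Disjoint (un F) (uC D X₀) := by
    rw [Finset.disjoint_left]
    intro i hi hi'
    obtain ⟨c, hc, hi'⟩ := mb_mem_uC.1 hi'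
    exact Finset.disjoint_left.1 (x1 c hc).2 hi' hi
  have hstep : ∀ c, Step c (ms c) (X c) (Λ c) (ms' c) (Λ' c) := by
    intro c
    by_cases hc' : c ∈ D'
    · rw [hXD c (hg.subD hc'), hmD c hc', hLD c hc']
      exact (s2 c hc').1
    · rw [hmn c hc', hLn c hc']
      by_cases hc : c ∈ D
      · rw [hXD c hc]
        exact s1 c (Finset.mem_sdiff.2 ⟨hc, hc'⟩)
      · rw [hXn c hc, (hl.off c hc).1, (hl.off c hc).2]
        exact step_nil c
  have hcol : ∀ c ∈ D, ∀ v c', (Sum.inr (v, c') : Item V C) ∈ X₀ c → c' = c := by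
    intro c hc v c' h
    rw [← hXD c hc] at h
    exact (hstep c).col v c' h
  refine ⟨F, X, ms', Λ', ⟨?_, f2, ?_, ?_, ?_, hstep, ?_⟩, hXn, f3, hfp⟩
  · intro q hq
    exact ⟨(f1 q hq).1, hfp'' q hq⟩
  · intro c
    by_cases hc : c ∈ D
    · rw [hXD c hc]; exact (x1 c hc).1
    · rw [hXn c hc]; simp
  · intro c
    by_cases hc : c ∈ D
    · rw [hXD c hc]; exact (x1 c hc).2
    · rw [hXn c hc]; simp
  · intro c d hcd'
    by_cases hc : c ∈ D
    · by_cases hd : d ∈ D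
      · rw [hXD c hc, hXD d hd]; exact x2 c hc d hd hcd'
      · rw [hXn d hd]; simp
    · rw [hXn c hc]; simp
  · rw [huC]
    have hmS : ∀ i : Item V C, i ∈ S \ (un F ∪ uC D X₀) → i ∈ S := fun i hi => (Finset.mem_sdiff.1 hi).1
    refine ⟨in1, fun i hi => hl.sub (hmS i hi), ?_, ?_, ?_, ?_, ?_, ?_, ?_, ?_, ?_⟩
    · intro v hv
      refine le_trans ?_ (l1 v hv)
      have : (nb (full C G) v ∩ U') \ nb (S \ (un F ∪ uC D X₀)) v ⊆ nb (un F ∪ uC D X₀) v ∩ U' := by
        intro u hu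
        rw [Finset.mem_sdiff, Finset.mem_inter, mem_nb, mem_nb, Finset.mem_sdiff] at hu
        obtain ⟨⟨hu1, hu2⟩, hu3⟩ := hu
        rw [Finset.mem_inter, mem_nb]
        refine ⟨?_, hu2⟩
        by_contra hcon
        exact hu3 ⟨hl.cE v hv u hu2 hu1, hcon⟩
      exact_mod_cast Finset.card_le_card this
    · intro v hv
      refine le_trans ?_ (l2 v hv)
      have : D' \ cl (S \ (un F ∪ uC D X₀)) v ⊆ cl (un F ∪ uC D X₀) v ∩ D' := by
        intro u hu
        rw [Finset.mem_sdiff, mem_cl, Finset.mem_sdiff] at hu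
        obtain ⟨hu1, hu3⟩ := hu
        rw [Finset.mem_inter, mem_cl]
        refine ⟨?_, hu1⟩
        by_contra hcon
        exact hu3 ⟨hl.cP v hv u hu1, hcon⟩
      exact_mod_cast Finset.card_le_card this
    · intro c hc
      refine le_trans ?_ (l3 c hc)
      have : U' \ vt (S \ (un F ∪ uC D X₀)) c ⊆ vt (un F ∪ uC D X₀) c ∩ U' := by
        intro u hu
        rw [Finset.mem_sdiff, mem_vt, Finset.mem_sdiff] at hu
        obtain ⟨hu1, hu3⟩ := hu
        rw [Finset.mem_inter, mem_vt]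
        refine ⟨?_, hu1⟩
        by_contra hcon
        exact hu3 ⟨hl.cP u hu1 c hc, hcon⟩
      exact_mod_cast Finset.card_le_card this
    · intro u hu v hv huv
      exact Finset.mem_sdiff.2 ⟨hl.cE u (hU hu) v (hU hv) huv, a1 u hu v hv⟩
    · intro v hv c hc
      exact Finset.mem_sdiff.2 ⟨hl.cP v (hU hv) c (hD hc), a2 v hv c hc⟩
    · intro c hc
      have hcD := hg.subD hc
      obtain ⟨t1, t2, t3, t4, t5⟩ := s2 c hc
      rw [hmD c hc, hLD c hc]
      refine ⟨⟨t4.1, ?_⟩, t3, t5, ?_, ?_⟩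
      · intro m hm'
        obtain ⟨u1, u2, u3, u4, u5⟩ := t4.2 m hm'
        refine ⟨u1, (Finset.mem_sdiff.1 u2).1, (Finset.mem_sdiff.1 u3).1, ?_, ?_⟩
        · intro h
          apply u4
          rw [Finset.mem_sdiff] at h ⊢
          refine ⟨h.1, fun h' => h.2 ?_⟩
          exact Finset.mem_union_right _ (mb_mem_uC.2 ⟨c, hcD, h'⟩)
        · intro h
          apply u5
          rw [Finset.mem_sdiff] at h ⊢
          refine ⟨h.1, fun h' => h.2 ?_⟩
          exact Finset.mem_union_right _ (mb_mem_uC.2 ⟨c, hcD, h'⟩)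
      · intro l hl'
        exact (hl.mem c hcD).2.2.2.1 l (Multiset.mem_of_le t2 hl')
      · have c1 := (hl.mem c hcD).2.2.2.2
        have c2 := t1.cnt
        have c3 := vt_sdiff_card husS c
        have c4 : (vt (un F ∪ uC D X₀) c).card = (vt (un F) c).card + (vt (X₀ c) c).card := by
          rw [vt_union, Finset.card_union_of_disjoint (vt_disj hdis c), vt_uC hcol hcD]
        have c5 : (vt (un F) c).card = ∑ l ∈ Icc 3 L₁, l * N l := by
          rw [vt_un_card_cnt f2 hfp'' c]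
          refine Finset.sum_congr rfl ?_
          intro l hl'
          rw [f3 c hcD l hl']
        simp only [mul_zero, Finset.sum_const_zero, add_zero]
        omega
    · intro c hc
      exact ⟨hmn c hc, hLn c hc⟩
    · intro v
      rw [Finset.sum_congr rfl (fun c hc => by rw [hmD c hc])]
      exact e1 v
    · intro v hv
      have b1 := hl.bal v (hg.subU hv)
      have b2 := nb_sdiff_card husS v
      have b3 := cl_sdiff_card husS v
      have b4 : (nb (un F ∪ uC D X₀) v).card = (nb (un F) v).card + ∑ c ∈ D, (nb (X₀ c) v).card := by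
        rw [nb_union, Finset.card_union_of_disjoint (nb_disj hdis v), nb_uC_card x2]
      have b5 : (cl (un F ∪ uC D X₀) v).card = (cl (un F) v).card + ∑ c ∈ D, (cl (X₀ c) v).card := by
        rw [cl_union, Finset.card_union_of_disjoint (cl_disj hdis v), cl_uC_card x2]
      have b6 := un_bal f2 hfp' v
      have b7 : ∑ c ∈ D, ((nb (X₀ c) v).card + ends (ms' c) v) =
          ∑ c ∈ D, (2 * (cl (X₀ c) v).card + ends (ms c) v) := by
        refine Finset.sum_congr rfl ?_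
        intro c hc
        have := (hstep c).bal v
        rw [hXD c hc] at this
        exact this
      rw [Finset.sum_add_distrib, Finset.sum_add_distrib, ← Finset.mul_sum] at b7
      have b8 : ∑ c ∈ D, ends (ms' c) v = ∑ c ∈ D', ends (ms' c) v := by
        rw [← Finset.sum_subset hg.subD]
        intro c _ hc
        rw [hmn c hc, mb_ends_nil]
      omega

end

end Pool.Agent.OBX
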