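import Mathlib
import Pool.Agent.OBX.MbB

set_option autoImplicit false
set_option linter.unusedSectionVars false

/-!
OBX, MAINB: iteration of the stages.
-/

namespace Pool.Agent.OBX

open Finset Pool.Agent.OBW

section
variable {V C : Type} [Fintype V] [DecidableEq V] [Fintype C] [DecidableEq C]

/-- what has been used so far: short cycles `F`, coloured sets `X`, the rest `S` -/
structure Acc (L₁ : ℕ) (S₀ : Finset (Item V C)) (N : ℕ → ℕ) (ms₀ : C → List (Mem V))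
    (Λ₀ : C → Multiset ℕ) (F : Finset (Finset (Item V C))) (X : C → Finset (Item V C))
    (S : Finset (Item V C)) (ms : C → List (Mem V)) (Λ : C → Multiset ℕ) : Prop where
  fp : ∀ q ∈ F, ∃ l ∈ Icc 3 L₁, ∃ c, IsPiece l c q
  fd : PD F
  fc : ∀ c, ∀ l ∈ Icc 3 L₁, cnt F l c = N l
  fS : Disjoint (un F) S
  xS : ∀ c, Disjoint (X c) S
  xf : ∀ c, Disjoint (X c) (un F)
  xx : ∀ c d, c ≠ d → Disjoint (X c) (X d)
  eq : un F ∪ uC univ X ∪ S = S₀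
  st : ∀ c, Step c (ms₀ c) (X c) (Λ₀ c) (ms c) (Λ c)

theorem acc_base {L₁ : ℕ} {lam : ℝ} {G : SimpleGraph V} {U' U'' : Finset V} {D' D'' : Finset C}
    {S : Finset (Item V C)} {N : ℕ → ℕ} {ms : C → List (Mem V)} {Λ : C → Multiset ℕ}
    {F : Finset (Finset (Item V C))} {X : C → Finset (Item V C)} {ms' : C → List (Mem V)}
    {Λ' : C → Multiset ℕ} (h : StOut L₁ lam G U' U'' D' D'' S N ms Λ F X ms' Λ')
    (hc : ∀ c, ∀ l ∈ Icc 3 L₁, cnt F l c = N l) :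
    Acc L₁ S N ms Λ F X (S \ (un F ∪ uC univ X)) ms' Λ' := by
  refine ⟨fun q hq => (h.fp q hq).2, h.fd, hc, ?_, ?_, h.xf, h.xx, ?_, h.st⟩
  · rw [Finset.disjoint_left]
    intro i hi hi'
    exact (Finset.mem_sdiff.1 hi').2 (Finset.mem_union_left _ hi)
  · intro c
    rw [Finset.disjoint_left]
    intro i hi hi'
    exact (Finset.mem_sdiff.1 hi').2 (Finset.mem_union_right _ (mb_mem_uC.2 ⟨c, mem_univ _, hi⟩))
  · apply Finset.union_sdiff_of_subset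
    apply Finset.union_subset
    · exact un_subset (fun q hq => (h.fp q hq).1)
    · exact uC_sub (fun c _ => h.xs c)

theorem empty_of {L₁ : ℕ} {D : Finset C} {F : Finset (Finset (Item V C))}
    (h1 : ∀ q ∈ F, ∃ l ∈ Icc 3 L₁, ∃ c ∈ D, IsPiece l c q)
    (h2 : ∀ c ∈ D, ∀ l ∈ Icc 3 L₁, cnt F l c = (fun _ : ℕ => 0) l) : F = ∅ := by
  classical
  by_contra hne
  obtain ⟨q, hq⟩ := Finset.nonempty_iff_ne_empty.2 hne
  obtain ⟨l, hl, c, hc, hp⟩ := h1 q hq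
  have h3 := h2 c hc l hl
  rw [cnt_eq, Finset.card_eq_zero] at h3
  have h4 : q ∈ F.filter (fun p => IsPiece l c p) := Finset.mem_filter.2 ⟨hq, hp⟩
  rw [h3] at h4
  simp at h4

theorem acc_step (hT : TransStmt) {L₁ : ℕ} {S₀ : Finset (Item V C)} {N : ℕ → ℕ}
    {ms₀ : C → List (Mem V)} {Λ₀ : C → Multiset ℕ} {F : Finset (Finset (Item V C))}
    {X : C → Finset (Item V C)} {S : Finset (Item V C)} {ms : C → List (Mem V)}
    {Λ : C → Multiset ℕ} (ha : Acc L₁ S₀ N ms₀ Λ₀ F X S ms Λ) {lam : ℝ} {G : SimpleGraph V}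
    {U' U'' : Finset V} {D' D'' : Finset C} {X' : C → Finset (Item V C)}
    {ms' : C → List (Mem V)} {Λ' : C → Multiset ℕ}
    (h : StOut L₁ lam G U' U'' D' D'' S (fun _ => 0) ms Λ ∅ X' ms' Λ') :
    Acc L₁ S₀ N ms₀ Λ₀ F (fun c => X c ∪ X' c) (S \ (un ∅ ∪ uC univ X')) ms' Λ' := by
  have hS : S \ (un ∅ ∪ uC univ X') = S \ uC univ X' := by
    rw [un_empty, Finset.empty_union]
  rw [hS]
  have hXS : ∀ c d, Disjoint (X c) (X' d) := by
    intro c d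
    exact Finset.disjoint_of_subset_right (h.xs d) (ha.xS c)
  refine ⟨ha.fp, ha.fd, ha.fc, ?_, ?_, ?_, ?_, ?_, ?_⟩
  · exact Finset.disjoint_of_subset_right Finset.sdiff_subset ha.fS
  · intro c
    rw [Finset.disjoint_union_left]
    refine ⟨Finset.disjoint_of_subset_right Finset.sdiff_subset (ha.xS c), ?_⟩
    rw [Finset.disjoint_left]
    intro i hi hi'
    exact (Finset.mem_sdiff.1 hi').2 (mb_mem_uC.2 ⟨c, mem_univ _, hi⟩)
  · intro c
    rw [Finset.disjoint_union_left]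
    refine ⟨ha.xf c, ?_⟩
    exact Finset.disjoint_of_subset_left (h.xs c) ha.fS.symm
  · intro c d hcd
    rw [Finset.disjoint_union_left, Finset.disjoint_union_right, Finset.disjoint_union_right]
    exact ⟨⟨ha.xx c d hcd, hXS c d⟩, ⟨(hXS d c).symm, h.xx c d hcd⟩⟩
  · rw [← ha.eq]
    ext i
    simp only [Finset.mem_union, Finset.mem_sdiff, mb_mem_uC]
    constructor
    · rintro ((hi | ⟨c, hc, hi | hi⟩) | hi)
      · exact Or.inl (Or.inl hi)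
      · exact Or.inl (Or.inr ⟨c, hc, hi⟩)
      · exact Or.inr (h.xs c hi)
      · exact Or.inr hi.1
    · rintro ((hi | ⟨c, hc, hi⟩) | hi)
      · exact Or.inl (Or.inl hi)
      · exact Or.inl (Or.inr ⟨c, hc, Or.inl hi⟩)
      · by_cases h' : ∃ c, c ∈ univ ∧ i ∈ X' c
        · obtain ⟨c, hc, h'⟩ := h'
          exact Or.inl (Or.inr ⟨c, hc, Or.inr h'⟩)
        · exact Or.inr ⟨hi, h'⟩
  · intro c
    exact hT V C c (ms₀ c) (ms c) (ms' c) (X c) (X' c) (Λ₀ c) (Λ c) (Λ' c) (ha.st c) (h.st c) (hXS c c)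

theorem iter (hT : TransStmt) {δ ε η ξ ξ' μ : ℝ} {L₁ m₀ : ℕ} {G : SimpleGraph V}
    (hcd : CdlBAt ε μ η ξ L₁ 20 m₀) (hδ : 3/8 + ε ≤ δ) (hδ' : δ ≤ 1/2)
    (hμ : 0 < μ) (hμ1 : μ ≤ 1) (hη : 0 < η) (hsm : ξ' + η ≤ ε) (J : ℕ) (A : ℕ → Finset V)
    (Bc : ℕ → Finset C) (hgeo : ∀ j, j < J → Geo C δ ξ' μ G (A j) (A (j + 1)) (Bc j) (Bc (j + 1)))
    (hm : ∀ j, j ≤ J → m₀ ≤ (A j).card) (h1 : ∀ j, j ≤ J → 1 ≤ (A j).card)
    (h2 : ∀ j, j ≤ J → ξ' * (A j).card + 2 ≤ ξ * (A j).card)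
    (hA : ∀ j, A (j + 1) ⊆ A j) (hB : ∀ j, Bc (j + 1) ⊆ Bc j)
    (hAc : ∀ j, j ≤ J → ((A (j + 1)).card : ℝ) ≤ μ * (A j).card)
    (hBc : ∀ j, j ≤ J → ((Bc (j + 1)).card : ℝ) ≤ μ * (A j).card)
    {S₀ : Finset (Item V C)} {N : ℕ → ℕ} {ms₀ : C → List (Mem V)} {Λ₀ : C → Multiset ℕ}
    (base : ∃ (F : Finset (Finset (Item V C))) (X : C → Finset (Item V C)) (S : Finset (Item V C))
      (ms : C → List (Mem V)) (Λ : C → Multiset ℕ), Acc L₁ S₀ N ms₀ Λ₀ F X S ms Λ ∧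
      Lev (η * μ * (A 1).card / 2) L₁ 1 20 G (A 1) (A 2) (Bc 1) (Bc 2) S (fun _ => 0) ms Λ) :
    ∀ j, 1 ≤ j → j ≤ J → ∃ (F : Finset (Finset (Item V C))) (X : C → Finset (Item V C))
      (S : Finset (Item V C)) (ms : C → List (Mem V)) (Λ : C → Multiset ℕ),
      Acc L₁ S₀ N ms₀ Λ₀ F X S ms Λ ∧
      Lev (η * μ * (A j).card / 2) L₁ 1 20 G (A j) (A (j + 1)) (Bc j) (Bc (j + 1)) S (fun _ => 0)
        ms Λ := by
  intro j hj
  induction j, hj using Nat.le_induction with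
  | base => intro _; exact base
  | succ j hj ih =>
    intro hjJ
    obtain ⟨F, X, S, ms, Λ, ha, hl⟩ := ih (by omega)
    obtain ⟨F', X', ms', Λ', hso, -, hc, hp⟩ := stage hcd (hgeo j (by omega)) hl (by norm_num) hδ hδ'
      hμ hμ1 hη (le_refl _) hsm (h1 (j + 1) hjJ) (h2 (j + 1) hjJ) (hm j (by omega)) (hA (j + 1))
      (hB (j + 1)) (hAc (j + 1) hjJ) (hBc (j + 1) hjJ) (by simp)
    have hF' : F' = ∅ := empty_of hp hc
    subst hF'
    exact ⟨F, fun c => X c ∪ X' c, S \ (un ∅ ∪ uC univ X'), ms', Λ', acc_step hT ha hso, hso.lev⟩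

end

end Pool.Agent.OBX
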