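import Mathlib
import Pool.Agent.OBX.MbC

set_option autoImplicit false
set_option linter.unusedSectionVars false

/-!
OBX, MAINB: the final assembly of one graph.
-/

namespace Pool.Agent.OBX

open Finset Pool.Agent.OBW

section
variable {V C : Type} [Fintype V] [DecidableEq V] [Fintype C] [DecidableEq C]

/-- combining the families of all colours -/
theorem cycs_all {Λ : Multiset ℕ} {W : C → Finset (Item V C)} (h : ∀ c, Cycs c Λ (W c))
    (hd : ∀ c d, c ≠ d → Disjoint (W c) (W d)) :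
    ∃ F : Finset (Finset (Item V C)), PD F ∧ un F = univ.biUnion W ∧
      (∀ q ∈ F, ∃ l ∈ Λ, ∃ c, IsPiece l c q) ∧ ∀ l c, cnt F l c = Λ.count l := by
  classical
  choose Fc h1 h2 h3 h4 using h
  have hsub : ∀ c, ∀ q ∈ Fc c, q ⊆ W c := by
    intro c q hq
    rw [← h2 c]
    exact subset_un hq
  refine ⟨univ.biUnion Fc, ?_, ?_, ?_, ?_⟩
  · intro p hp q hq hpq
    obtain ⟨c, _, hp⟩ := Finset.mem_biUnion.1 hp
    obtain ⟨d, _, hq⟩ := Finset.mem_biUnion.1 hq
    by_cases hcd : c = d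
    · subst hcd
      exact h1 c p hp q hq hpq
    · exact Finset.disjoint_of_subset_left (hsub c p hp)
        (Finset.disjoint_of_subset_right (hsub d q hq) (hd c d hcd))
  · ext i
    rw [mem_un, Finset.mem_biUnion]
    constructor
    · rintro ⟨q, hq, hi⟩
      obtain ⟨c, hc, hq⟩ := Finset.mem_biUnion.1 hq
      exact ⟨c, hc, hsub c q hq hi⟩
    · rintro ⟨c, hc, hi⟩
      rw [← h2 c] at hi
      obtain ⟨q, hq, hi⟩ := mem_un.1 hi
      exact ⟨q, Finset.mem_biUnion.2 ⟨c, hc, hq⟩, hi⟩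
  · intro q hq
    obtain ⟨c, _, hq⟩ := Finset.mem_biUnion.1 hq
    obtain ⟨l, hl⟩ := h3 c q hq
    refine ⟨l, ?_, c, hl⟩
    have h5 := h4 c l
    rw [cnt_eq] at h5
    have h6 : 0 < ((Fc c).filter (fun p => IsPiece l c p)).card :=
      Finset.card_pos.2 ⟨q, Finset.mem_filter.2 ⟨hq, hl⟩⟩
    rw [h5] at h6
    exact Multiset.count_pos.1 h6
  · intro l c
    rw [← h4 c l, cnt_eq, cnt_eq]
    congr 1
    ext q
    rw [Finset.mem_filter, Finset.mem_filter, Finset.mem_biUnion]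
    constructor
    · rintro ⟨⟨d, _, hq⟩, hl⟩
      obtain ⟨l', hl'⟩ := h3 d q hq
      have := (hl'.uniq hl).2
      subst this
      exact ⟨hq, hl⟩
    · rintro ⟨hq, hl⟩
      exact ⟨⟨c, mem_univ _, hq⟩, hl⟩

theorem concl_of {L₁ : ℕ} {G : SimpleGraph V} {R : Finset (Item V C)} {ms₀ : C → List (Mem V)}
    {Λ₀ : Multiset ℕ} {N : ℕ → ℕ} {F : Finset (Finset (Item V C))} {X : C → Finset (Item V C)}
    {S : Finset (Item V C)} {ms : C → List (Mem V)} {Λ : C → Multiset ℕ} (hR : R ⊆ full C G)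
    (ha : Acc L₁ (full C G \ R) N ms₀ (fun _ => Λ₀) F X S ms Λ) {D : Finset C}
    (off : ∀ c, c ∉ D → ms c = [] ∧ Λ c = 0)
    {Xf : C → Finset (Item V C)} {rq : C → List (V × V)}
    (g1 : ∀ c ∈ D, Xf c ⊆ S) (g2 : ∀ c, c ∉ D → Xf c = ∅ ∧ rq c = [])
    (g3 : ∀ c d, c ≠ d → Disjoint (Xf c) (Xf d))
    (g4 : ∀ c ∈ D, ∀ Y Z, Real c (ms c) Y → RealL c (rq c) Z → Disjoint Y Z →
      Disjoint (Y ∪ Z) (Xf c) → Cycs c (Λ c) (Y ∪ Xf c ∪ Z))
    {Y Z : C → Finset (Item V C)}
    (k1 : ∀ c, Real c (ms₀ c) (Y c) ∧ RealL c (rq c) (Z c))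
    (k2 : ∀ c d, Disjoint (Y c) (Z d))
    (k3 : ∀ c d, c ≠ d → Disjoint (Y c) (Y d) ∧ Disjoint (Z c) (Z d))
    (k4 : univ.biUnion Y ∪ univ.biUnion Z = R ∪ (S \ uC D Xf))
    (hV : L₁ ≤ Fintype.card V)
    (n1 : ∀ l ∈ Λ₀, L₁ < l ∧ l ≤ Fintype.card V)
    (n2 : ∀ l, L₁ < l → l ≤ Fintype.card V → Λ₀.count l = N l) :
    Concl V C G N := by
  classical
  -- location of the sets
  have hXs : ∀ c, ∀ i ∈ X c, i ∈ full C G \ R := by
    intro c i hi
    rw [← ha.eq]
    exact Finset.mem_union_left _ (Finset.mem_union_right _ (mb_mem_uC.2 ⟨c, mem_univ _, hi⟩))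
  have hSs : ∀ i ∈ S, i ∈ full C G \ R := by
    intro i hi
    rw [← ha.eq]
    exact Finset.mem_union_right _ hi
  have hFs : ∀ i ∈ un F, i ∈ full C G \ R := by
    intro i hi
    rw [← ha.eq]
    exact Finset.mem_union_left _ (Finset.mem_union_left _ hi)
  have hXf : ∀ c, Xf c ⊆ S := by
    intro c
    by_cases hc : c ∈ D
    · exact g1 c hc
    · rw [(g2 c hc).1]; simp
  have huD : ∀ i c, i ∈ Xf c → i ∈ uC D Xf := by
    intro i c hi
    by_cases hc : c ∈ D
    · exact mb_mem_uC.2 ⟨c, hc, hi⟩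
    · rw [(g2 c hc).1] at hi; simp at hi
  have hYs : ∀ c, ∀ i ∈ Y c, i ∈ R ∪ (S \ uC D Xf) := by
    intro c i hi
    rw [← k4]
    exact Finset.mem_union_left _ (Finset.mem_biUnion.2 ⟨c, mem_univ _, hi⟩)
  have hZs : ∀ c, ∀ i ∈ Z c, i ∈ R ∪ (S \ uC D Xf) := by
    intro c i hi
    rw [← k4]
    exact Finset.mem_union_right _ (Finset.mem_biUnion.2 ⟨c, mem_univ _, hi⟩)
  have dX : ∀ (i : Item V C), i ∈ R ∪ (S \ uC D Xf) → ∀ d, i ∉ X d := by
    intro i hi d hd
    rcases Finset.mem_union.1 hi with h | h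
    · exact (Finset.mem_sdiff.1 (hXs d i hd)).2 h
    · exact Finset.disjoint_left.1 (ha.xS d) hd (Finset.mem_sdiff.1 h).1
  have dXf : ∀ (i : Item V C), i ∈ R ∪ (S \ uC D Xf) → ∀ d, i ∉ Xf d := by
    intro i hi d hd
    rcases Finset.mem_union.1 hi with h | h
    · exact (Finset.mem_sdiff.1 (hSs i (hXf d hd))).2 h
    · exact (Finset.mem_sdiff.1 h).2 (huD i d hd)
  have dF : ∀ (i : Item V C), i ∈ R ∪ (S \ uC D Xf) → i ∉ un F := by
    intro i hi hd
    rcases Finset.mem_union.1 hi with h | h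
    · exact (Finset.mem_sdiff.1 (hFs i hd)).2 h
    · exact Finset.disjoint_left.1 ha.fS hd (Finset.mem_sdiff.1 h).1
  have eYX : ∀ c d, Disjoint (Y c) (X d) := fun c d =>
    Finset.disjoint_left.2 (fun i hi => dX i (hYs c i hi) d)
  have eZX : ∀ c d, Disjoint (Z c) (X d) := fun c d =>
    Finset.disjoint_left.2 (fun i hi => dX i (hZs c i hi) d)
  have eYf : ∀ c d, Disjoint (Y c) (Xf d) := fun c d =>
    Finset.disjoint_left.2 (fun i hi => dXf i (hYs c i hi) d)
  have eZf : ∀ c d, Disjoint (Z c) (Xf d) := fun c d =>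
    Finset.disjoint_left.2 (fun i hi => dXf i (hZs c i hi) d)
  have eXf : ∀ c d, Disjoint (X c) (Xf d) := fun c d =>
    Finset.disjoint_of_subset_right (hXf d) (ha.xS c)
  -- one colour
  have hcyc : ∀ c, Cycs c Λ₀ (Y c ∪ X c ∪ (Xf c ∪ Z c)) := by
    intro c
    obtain ⟨Y₁, Y', Λ₁, r1, r2, r3, r4, r5⟩ := (ha.st c).run (Y c) (k1 c).1 (eYX c c)
    have hY1 : Y₁ ⊆ Y c ∪ X c := by rw [← r2]; exact Finset.subset_union_left
    have hY' : Y' ⊆ Y c ∪ X c := by rw [← r2]; exact Finset.subset_union_right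
    have dZ : ∀ T : Finset (Item V C), T ⊆ Y c ∪ X c → Disjoint T (Z c) := by
      intro T hT
      refine Finset.disjoint_of_subset_left hT ?_
      rw [Finset.disjoint_union_left]
      exact ⟨k2 c c, (eZX c c).symm⟩
    have dXf' : ∀ T : Finset (Item V C), T ⊆ Y c ∪ X c → Disjoint T (Xf c) := by
      intro T hT
      refine Finset.disjoint_of_subset_left hT ?_
      rw [Finset.disjoint_union_left]
      exact ⟨eYf c c, eXf c c⟩
    have hΛ : Λ₀ = Λ₁ + Λ c := r5
    by_cases hc : c ∈ D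
    · have h1 := g4 c hc Y' (Z c) r3 (k1 c).2 (dZ Y' hY')
        (by rw [Finset.disjoint_union_left]; exact ⟨dXf' Y' hY', eZf c c⟩)
      have h2 := mb_cycs_union r4 h1 (by
        rw [Finset.disjoint_union_right, Finset.disjoint_union_right]
        exact ⟨⟨r1, dXf' Y₁ hY1⟩, dZ Y₁ hY1⟩)
      rw [hΛ]
      have h3 : Y c ∪ X c ∪ (Xf c ∪ Z c) = Y₁ ∪ (Y' ∪ Xf c ∪ Z c) := by
        rw [← r2]
        simp only [Finset.union_assoc]
      rw [h3]
      exact h2
    · have h1 := off c hc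
      have h2 := g2 c hc
      rw [h1.1] at r3
      have h3 := mb_real_nil r3
      subst h3
      have h4 : Z c = ∅ := by
        have := (k1 c).2
        rw [h2.2] at this
        exact mb_realL_nil this
      rw [h4, h2.1, hΛ, h1.2, ← r2]
      simp only [Finset.union_empty, add_zero]
      exact r4
  have hWd : ∀ c d, c ≠ d → Disjoint (Y c ∪ X c ∪ (Xf c ∪ Z c)) (Y d ∪ X d ∪ (Xf d ∪ Z d)) := by
    intro c d hcd
    simp only [Finset.disjoint_union_left, Finset.disjoint_union_right]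
    exact ⟨⟨⟨⟨(k3 c d hcd).1, (eYX d c).symm⟩, (eYf d c).symm, (k2 d c).symm⟩,
      ⟨eYX c d, ha.xx c d hcd⟩, (eXf d c).symm, eZX c d⟩,
      ⟨⟨eYf c d, eXf c d⟩, g3 c d hcd, eZf c d⟩,
      ⟨k2 c d, (eZX d c).symm⟩, (eZf d c).symm, (k3 c d hcd).2⟩
  obtain ⟨F', p1, p2, p3, p4⟩ := cycs_all hcyc hWd
  have hFF : Disjoint (un F) (un F') := by
    rw [p2, Finset.disjoint_left]
    intro i hi hi'
    obtain ⟨c, _, hi'⟩ := Finset.mem_biUnion.1 hi'
    simp only [Finset.mem_union] at hi'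
    rcases hi' with (h | h) | (h | h)
    · exact dF i (hYs c i h) hi
    · exact Finset.disjoint_left.1 (ha.xf c) h hi
    · exact Finset.disjoint_left.1 ha.fS hi (hXf c h)
    · exact dF i (hZs c i h) hi
  refine ⟨F ∪ F', ?_, ha.fd.union p1 hFF, ?_, ?_⟩
  · intro q hq
    rcases Finset.mem_union.1 hq with hq | hq
    · obtain ⟨l, hl, c, hp⟩ := ha.fp q hq
      rw [Finset.mem_Icc] at hl
      exact ⟨l, Finset.mem_Icc.2 ⟨hl.1, le_trans hl.2 hV⟩, c, hp⟩
    · obtain ⟨l, hl, c, hp⟩ := p3 q hq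
      exact ⟨l, Finset.mem_Icc.2 ⟨hp.three, (n1 l hl).2⟩, c, hp⟩
  · rw [un_union, p2]
    ext i
    constructor
    · intro hi
      rcases Finset.mem_union.1 hi with hi | hi
      · exact (Finset.mem_sdiff.1 (hFs i hi)).1
      · obtain ⟨c, _, hi⟩ := Finset.mem_biUnion.1 hi
        have hRS : i ∈ R ∪ (S \ uC D Xf) → i ∈ full C G := by
          intro h
          rcases Finset.mem_union.1 h with h | h
          · exact hR h
          · exact (Finset.mem_sdiff.1 (hSs i (Finset.mem_sdiff.1 h).1)).1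
        simp only [Finset.mem_union] at hi
        rcases hi with (h | h) | (h | h)
        · exact hRS (hYs c i h)
        · exact (Finset.mem_sdiff.1 (hXs c i h)).1
        · exact (Finset.mem_sdiff.1 (hSs i (hXf c h))).1
        · exact hRS (hZs c i h)
    · intro hi
      have hcase : i ∈ R ∪ (S \ uC D Xf) → i ∈ univ.biUnion (fun c => Y c ∪ X c ∪ (Xf c ∪ Z c)) := by
        intro h
        rw [← k4] at h
        rcases Finset.mem_union.1 h with h | h
        · obtain ⟨c, hc, h⟩ := Finset.mem_biUnion.1 h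
          exact Finset.mem_biUnion.2 ⟨c, hc, Finset.mem_union_left _ (Finset.mem_union_left _ h)⟩
        · obtain ⟨c, hc, h⟩ := Finset.mem_biUnion.1 h
          exact Finset.mem_biUnion.2 ⟨c, hc, Finset.mem_union_right _ (Finset.mem_union_right _ h)⟩
      by_cases hr : i ∈ R
      · exact Finset.mem_union_right _ (hcase (Finset.mem_union_left _ hr))
      · have h1 : i ∈ un F ∪ uC univ X ∪ S := by
          rw [ha.eq]
          exact Finset.mem_sdiff.2 ⟨hi, hr⟩
        rcases Finset.mem_union.1 h1 with h1 | h1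
        · rcases Finset.mem_union.1 h1 with h1 | h1
          · exact Finset.mem_union_left _ h1
          · obtain ⟨c, hc, h1⟩ := mb_mem_uC.1 h1
            exact Finset.mem_union_right _ (Finset.mem_biUnion.2
              ⟨c, hc, Finset.mem_union_left _ (Finset.mem_union_right _ h1)⟩)
        · by_cases h2 : i ∈ uC D Xf
          · obtain ⟨c, _, h2⟩ := mb_mem_uC.1 h2
            exact Finset.mem_union_right _ (Finset.mem_biUnion.2
              ⟨c, mem_univ _, Finset.mem_union_right _ (Finset.mem_union_left _ h2)⟩)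
          · exact Finset.mem_union_right _ (hcase (Finset.mem_union_right _
              (Finset.mem_sdiff.2 ⟨h1, h2⟩)))
  · intro c l hl
    rw [Finset.mem_Icc] at hl
    rw [cnt_union hFF, p4]
    by_cases h : l ≤ L₁
    · rw [ha.fc c l (Finset.mem_Icc.2 ⟨hl.1, h⟩), Multiset.count_eq_zero_of_notMem]
      · omega
      · intro h'
        have := (n1 l h').1
        omega
    · rw [n2 l (by omega) hl.2]
      have h0 : cnt F l c = 0 := by
        rw [cnt_eq, Finset.card_eq_zero, Finset.filter_eq_empty_iff]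
        intro q hq hp
        obtain ⟨l', hl', c', hp'⟩ := ha.fp q hq
        have := (hp'.uniq hp).1
        rw [Finset.mem_Icc] at hl'
        omega
      rw [h0]
      omega

end

end Pool.Agent.OBX
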