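import Mathlib
import Pool.Agent.OBX.MbD

set_option autoImplicit false
set_option linter.unusedSectionVars false

/-!
OBX, MAINB: the start of the vortex.
-/

namespace Pool.Agent.OBX

open Finset Pool.Agent.OBW

/-- the long lengths -/
def longs (L₁ n : ℕ) (N : ℕ → ℕ) : Multiset ℕ := ∑ l ∈ Ioc L₁ n, Multiset.replicate (N l) l

theorem count_longs (L₁ n : ℕ) (N : ℕ → ℕ) (l : ℕ) :
    (longs L₁ n N).count l = if l ∈ Ioc L₁ n then N l else 0 := by
  unfold longs
  rw [Multiset.count_sum']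
  simp only [Multiset.count_replicate]
  rw [Finset.sum_ite_eq']

theorem mem_longs {L₁ n : ℕ} {N : ℕ → ℕ} {l : ℕ} (h : l ∈ longs L₁ n N) : L₁ < l ∧ l ≤ n := by
  have h1 := Multiset.count_pos.2 h
  rw [count_longs] at h1
  by_cases h2 : l ∈ Ioc L₁ n
  · exact Finset.mem_Ioc.1 h2
  · rw [if_neg h2] at h1
    omega

theorem sum_longs (L₁ n : ℕ) (N : ℕ → ℕ) : (longs L₁ n N).sum = ∑ l ∈ Ioc L₁ n, l * N l := by
  unfold longs
  have h := map_sum (Multiset.sumAddMonoidHom : Multiset ℕ →+ ℕ)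
    (fun l => Multiset.replicate (N l) l) (Ioc L₁ n)
  simp only [Multiset.coe_sumAddMonoidHom] at h
  rw [h]
  refine Finset.sum_congr rfl ?_
  intro l _
  rw [Multiset.sum_replicate, smul_eq_mul, mul_comm]

theorem split_longs {L₁ n : ℕ} (N : ℕ → ℕ) (h3 : 3 ≤ L₁) (h : L₁ ≤ n) :
    (longs L₁ n N).sum + ∑ l ∈ Icc 3 L₁, l * N l = ∑ l ∈ Icc 3 n, l * N l := by
  rw [sum_longs, add_comm, ← Finset.sum_union]
  · congr 1
    ext l
    rw [Finset.mem_union, Finset.mem_Icc, Finset.mem_Ioc, Finset.mem_Icc]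
    omega
  · rw [Finset.disjoint_left]
    intro l hl hl'
    rw [Finset.mem_Icc] at hl
    rw [Finset.mem_Ioc] at hl'
    omega

section
variable {V C : Type} [Fintype V] [DecidableEq V] [Fintype C] [DecidableEq C]

theorem cl_full (G : SimpleGraph V) (v : V) : cl (full C G) v = univ := by
  ext c
  rw [mem_cl]
  simp [mem_full_inr]

theorem vt_full (G : SimpleGraph V) (c : C) : vt (full C G) c = univ := by
  ext v
  rw [mem_vt]
  simp [mem_full_inr]

/-- level 0 -/
theorem base_lev (hAdd : AddStmt) {lam : ℝ} {L₁ B : ℕ} {G : SimpleGraph V} {U' : Finset V}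
    {D' : Finset C} {R : Finset (Item V C)} {N : ℕ → ℕ} {ms₀ : C → List (Mem V)}
    (hreg : ∀ v, (nb (full C G) v).card = 2 * Fintype.card C)
    (hRB : R.card ≤ B) (hlam : (B : ℝ) ≤ lam) (hL : 30 ≤ L₁) (hLn : L₁ ≤ Fintype.card V)
    (hsum : ∑ l ∈ Icc 3 (Fintype.card V), l * N l = Fintype.card V)
    (hsm : 2 * ∑ l ∈ Icc 3 L₁, l * N l ≤ Fintype.card V)
    (r1 : ∀ c, (ms₀ c).length ≤ B ∧ Sep (ms₀ c) ∧ ∀ m ∈ ms₀ c, m.1 ≠ m.2.1 ∧ m.2.2 ≤ 6 ∧
          (Sum.inr (m.1, c) : Item V C) ∈ R ∧ (Sum.inr (m.2.1, c) : Item V C) ∈ R)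
    (r2 : ∀ v, ∑ c, ends (ms₀ c) v ≤ B)
    (r3 : ∀ u v, (Sum.inl s(u, v) : Item V C) ∈ R → G.Adj u v ∧ ¬ (u ∈ U' ∧ v ∈ U'))
    (r4 : ∀ v c, (Sum.inr (v, c) : Item V C) ∈ R → ¬ (v ∈ U' ∧ c ∈ D'))
    {Y : C → Finset (Item V C)} (y1 : ∀ c, Real c (ms₀ c) (Y c))
    (y2 : ∀ c d, c ≠ d → Disjoint (Y c) (Y d)) (y3 : univ.biUnion Y = R) :
    Lev lam L₁ B B G univ U' univ D' (full C G \ R) N ms₀
      (fun _ => longs L₁ (Fintype.card V) N) := by
  have hRf : R ⊆ full C G := sub_full (fun u v h => (r3 u v h).1)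
  have hRu : R = uC univ Y := by rw [← y3]; rfl
  have hst : ∀ c, Step c [] (Y c) 0 ([] ++ ms₀ c) 0 := fun c => hAdd V C c [] (ms₀ c) (Y c) 0 (y1 c)
  have hRB' : (R.card : ℝ) ≤ lam := le_trans (by exact_mod_cast hRB) hlam
  have hsplit := split_longs N (show 3 ≤ L₁ by omega) hLn
  refine ⟨⟨?_, ?_⟩, Finset.sdiff_subset, ?_, ?_, ?_, ?_, ?_, ?_, ?_, r2, ?_⟩
  · intro u v h
    exact ⟨(mem_full_inl.1 (Finset.mem_sdiff.1 h).1).ne, mem_univ _, mem_univ _⟩
  · intro v c _
    exact ⟨mem_univ _, mem_univ _⟩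
  · intro v _
    refine le_trans ?_ hRB'
    have : (nb (full C G) v ∩ univ) \ nb (full C G \ R) v ⊆ nb R v := by
      intro u hu
      rw [nb_sdiff, Finset.mem_sdiff, Finset.mem_inter, Finset.mem_sdiff] at hu
      by_contra h
      exact hu.2 ⟨hu.1.1, h⟩
    exact_mod_cast le_trans (Finset.card_le_card this) (nb_card_le R v)
  · intro v _
    refine le_trans ?_ hRB'
    have : univ \ cl (full C G \ R) v ⊆ cl R v := by
      intro u hu
      rw [cl_sdiff, Finset.mem_sdiff, Finset.mem_sdiff, cl_full] at hu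
      by_contra h
      exact hu.2 ⟨mem_univ _, h⟩
    exact_mod_cast le_trans (Finset.card_le_card this) (cl_card_le R v)
  · intro c _
    refine le_trans ?_ hRB'
    have : univ \ vt (full C G \ R) c ⊆ vt R c := by
      intro u hu
      rw [vt_sdiff, Finset.mem_sdiff, Finset.mem_sdiff, vt_full] at hu
      by_contra h
      exact hu.2 ⟨mem_univ _, h⟩
    exact_mod_cast le_trans (Finset.card_le_card this) (vt_card_le R c)
  · intro u hu v hv h
    exact Finset.mem_sdiff.2 ⟨h, fun h' => (r3 u v h').2 ⟨hu, hv⟩⟩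
  · intro v hv c hc
    exact Finset.mem_sdiff.2 ⟨mem_full_inr, fun h' => r4 v c h' ⟨hv, hc⟩⟩
  · intro c _
    obtain ⟨q1, q2, q3⟩ := r1 c
    refine ⟨⟨q2, ?_⟩, q1, ⟨?_, ?_⟩, fun l hl => (mem_longs hl).1, ?_⟩
    · intro m hm
      obtain ⟨t1, t2, t3, t4⟩ := q3 m hm
      exact ⟨t1, mem_univ _, mem_univ _, fun h => (Finset.mem_sdiff.1 h).2 t3,
        fun h => (Finset.mem_sdiff.1 h).2 t4⟩
    · intro m hm
      exact (q3 m (List.mem_of_mem_tail hm)).2.1
    · intro m hm
      have hm' : m ∈ ms₀ c := List.mem_of_mem_head? hm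
      have h6 := (q3 m hm').2.1
      have hpos : longs L₁ (Fintype.card V) N ≠ 0 := by
        intro h0
        rw [h0] at hsplit
        simp only [Multiset.sum_zero] at hsplit
        omega
      obtain ⟨l, hl⟩ := Multiset.exists_mem_of_ne_zero hpos
      refine ⟨l, hl, ?_⟩
      have := (mem_longs hl).1
      omega
    · have c1 := (hst c).cnt
      simp only [siz, List.map_nil, List.sum_nil, Multiset.sum_zero, add_zero, List.nil_append] at c1
      have c2 := vt_sdiff_card hRf c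
      rw [vt_full, Finset.card_univ] at c2
      have c3 : vt R c = vt (Y c) c := by
        rw [hRu]
        exact vt_uC (fun d _ => (hst d).col) (mem_univ c)
      rw [c3] at c2
      unfold siz
      omega
  · intro c hc
    exact absurd (mem_univ c) hc
  · intro v _
    have b1 := nb_sdiff_card hRf v
    have b2 := cl_sdiff_card hRf v
    rw [hreg v] at b1
    rw [cl_full, Finset.card_univ] at b2
    have b3 : (nb R v).card = ∑ c, (nb (Y c) v).card := by
      rw [hRu]
      exact nb_uC_card (fun c _ d _ h => y2 c d h) v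
    have b4 : (cl R v).card = ∑ c, (cl (Y c) v).card := by
      rw [hRu]
      exact cl_uC_card (fun c _ d _ h => y2 c d h) v
    have b5 : ∑ c, ((nb (Y c) v).card + ends (ms₀ c) v) = ∑ c, 2 * (cl (Y c) v).card := by
      refine Finset.sum_congr rfl ?_
      intro c _
      have := (hst c).bal v
      simp only [ends, List.map_nil, List.sum_nil, add_zero, List.nil_append] at this
      exact this
    rw [Finset.sum_add_distrib, ← Finset.mul_sum] at b5
    omega

end

end Pool.Agent.OBX
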