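import Mathlib
import Pool.Agent.OBX.MbE

set_option autoImplicit false
set_option linter.unusedSectionVars false

/-!
OBX: MAINB, the vortex induction of Case B.
-/

namespace Pool.Agent.OBX

open Finset Pool.Agent.OBW

theorem mb_floor (a g : ℕ) (hg : 0 < g) :
    (1 / (g : ℝ)) * a - 1 ≤ ((a / g : ℕ) : ℝ) ∧ ((a / g : ℕ) : ℝ) ≤ (1 / (g : ℝ)) * a := by
  have hg' : (0 : ℝ) < g := by exact_mod_cast hg
  constructor
  · have h1 : a < g * (a / g + 1) := by
      have := Nat.lt_mul_div_succ a hg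
      linarith
    have h2 : (a : ℝ) < g * ((a / g : ℕ) + 1) := by exact_mod_cast h1
    have h3 : (1 / (g : ℝ)) * a < (a / g : ℕ) + 1 := by
      rw [one_div, inv_mul_lt_iff₀ hg']
      exact h2
    linarith
  · have h1 : g * (a / g) ≤ a := Nat.mul_div_le a g
    have h2 : (g : ℝ) * ((a / g : ℕ) : ℝ) ≤ a := by exact_mod_cast h1
    rw [one_div, le_inv_mul_iff₀ hg']
    exact h2

theorem mainB (hT : TransStmt) (hAdd : AddStmt) (hC : CdlBStmt) (hAb : AbsBStmt) (hF : FinBStmt)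
    (hV : VtxStmt) : MainBStmt := by
  intro ε hε
  obtain ⟨μ₀, hμ₀, hC⟩ := hC ε hε
  obtain ⟨Lf, mf, hF⟩ := hF
  obtain ⟨g, hg⟩ : ∃ g : ℕ, max 8 (max (1 / μ₀) (1 / ε)) ≤ (g : ℝ) := exists_nat_ge _
  have hg8 : (8 : ℝ) ≤ g := le_trans (le_max_left _ _) hg
  have hg8' : 8 ≤ g := by exact_mod_cast hg8
  have hgμ : 1 / μ₀ ≤ (g : ℝ) := le_trans (le_trans (le_max_left _ _) (le_max_right _ _)) hg
  have hgε : 1 / ε ≤ (g : ℝ) := le_trans (le_trans (le_max_right _ _) (le_max_right _ _)) hg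
  have hg0 : (0 : ℝ) < g := by linarith
  obtain ⟨μ, hμd⟩ : ∃ μ : ℝ, μ = 1 / (g : ℝ) := ⟨_, rfl⟩
  have hμ : 0 < μ := by rw [hμd]; positivity
  have hμμ₀ : μ ≤ μ₀ := by
    rw [hμd, one_div_le hg0 hμ₀]; exact hgμ
  have hμε : μ ≤ ε := by
    rw [hμd, one_div_le hg0 hε]; exact hgε
  have hμ8 : μ ≤ 1 / 8 := by
    rw [hμd]
    exact one_div_le_one_div_of_le (by norm_num) hg8
  obtain ⟨η₀, hη₀, hC⟩ := hC μ hμ hμμ₀
  obtain ⟨η, hηd⟩ : ∃ η : ℝ, η = min η₀ (min (ε / 4) (1 / 100)) := ⟨_, rfl⟩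
  have hη : 0 < η := by rw [hηd]; positivity
  have hηη₀ : η ≤ η₀ := by rw [hηd]; exact min_le_left _ _
  have hηε : η ≤ ε / 4 := by rw [hηd]; exact le_trans (min_le_right _ _) (min_le_left _ _)
  have hη1 : η ≤ 1 / 100 := by rw [hηd]; exact le_trans (min_le_right _ _) (min_le_right _ _)
  obtain ⟨L₀, hC⟩ := hC η hη hηη₀
  obtain ⟨L₁, hL₁⟩ : ∃ L₁ : ℕ, L₁ = max L₀ (max Lf 30) := ⟨_, rfl⟩
  have hL0 : L₀ ≤ L₁ := by omega
  have hLf : Lf ≤ L₁ := by omega
  have hL30 : 30 ≤ L₁ := by omega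
  obtain ⟨ξ, hξ, hC⟩ := hC L₁ hL0
  obtain ⟨ξ', hξd⟩ : ∃ ξ' : ℝ, ξ' = min (ξ / 2) (ε / 4) := ⟨_, rfl⟩
  have hξ' : 0 < ξ' := by rw [hξd]; positivity
  have hξξ : ξ' ≤ ξ / 2 := by rw [hξd]; exact min_le_left _ _
  have hξε : ξ' ≤ ε / 4 := by rw [hξd]; exact min_le_right _ _
  obtain ⟨m₂₀, h20⟩ := hC 20
  have h20' : CdlBAt ε μ η ξ L₁ 20 m₂₀ := h20
  obtain ⟨m₁, hV⟩ := hV g ξ' (by omega) hξ'
  obtain ⟨mm, hmm⟩ : ∃ mm : ℕ, mm = max (max m₂₀ m₁) (max mf (⌈4 / ξ⌉₊ + 10)) := ⟨_, rfl⟩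
  have hm20 : m₂₀ ≤ mm := by omega
  have hm1 : m₁ ≤ mm := by omega
  have hmf : mf ≤ mm := by omega
  have hmξ : ⌈4 / ξ⌉₊ + 10 ≤ mm := by omega
  obtain ⟨na, B, hAb⟩ := hAb ε (g * (mm + 1)) hε
  obtain ⟨mB, hBB⟩ := hC B
  have hBB' : CdlBAt ε μ η ξ L₁ B mB := hBB
  obtain ⟨n₀, hn₀⟩ : ∃ n₀ : ℕ, n₀ = max (max na mB)
    (max (g * (mm + 1) + 1) (max (⌈2 * (B : ℝ) / (η * μ)⌉₊ + 100) L₁)) := ⟨_, rfl⟩
  refine ⟨L₁, n₀, ?_⟩
  intro V C _ _ _ _ G N hn hreg hd hsum hsmall
  classical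
  have hna : na ≤ Fintype.card V := by omega
  have hnB : mB ≤ Fintype.card V := by omega
  have hng : g * (mm + 1) < Fintype.card V := by omega
  have hnc : ⌈2 * (B : ℝ) / (η * μ)⌉₊ + 100 ≤ Fintype.card V := by omega
  have hnL : L₁ ≤ Fintype.card V := by omega
  have hreg' : ∀ v, (nb (full C G) v).card = 2 * Fintype.card C := by
    intro v
    rw [card_nb_full, hreg v]
  have hn0 : (0 : ℝ) < Fintype.card V := by
    have : 0 < Fintype.card V := by omega
    exact_mod_cast this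
  have hn100 : (100 : ℝ) ≤ Fintype.card V := by
    have : 100 ≤ Fintype.card V := by omega
    exact_mod_cast this
  have hne : Nonempty V := by
    rw [← Fintype.card_pos_iff]; omega
  have h2C : 2 * Fintype.card C ≤ Fintype.card V := by
    obtain ⟨v⟩ := hne
    rw [← hreg' v]
    exact Finset.card_le_univ _
  obtain ⟨δ, hδd⟩ : ∃ δ : ℝ, δ = (Fintype.card C : ℝ) / Fintype.card V := ⟨_, rfl⟩
  have hδC : (Fintype.card C : ℝ) = δ * Fintype.card V := by
    rw [hδd]; field_simp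
  have hδlo : 3 / 8 + ε ≤ δ := by
    rw [hδd, le_div_iff₀ hn0]; exact hd
  have hδhi : δ ≤ 1 / 2 := by
    rw [hδd, div_le_iff₀ hn0]
    have : (2 : ℝ) * Fintype.card C ≤ Fintype.card V := by exact_mod_cast h2C
    linarith
  obtain ⟨J, Us, Cs, v0, w0, v1, v2, v3, v4, v5⟩ := hV mm hm1 V C (fun v => nb (full C G) v) δ
    (by
      have : mm ≤ g * (mm + 1) := by nlinarith
      omega) (by linarith) hδhi hδC hreg'
  have hJ : 1 ≤ J := by
    rcases Nat.eq_zero_or_pos J with h | h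
    · exfalso
      rw [h, v0, Finset.card_univ] at v3
      omega
    · exact h
  -- the sequences continued by the empty set
  obtain ⟨A, hA1, hA2⟩ : ∃ A : ℕ → Finset V, (∀ j, j ≤ J → A j = Us j) ∧ (∀ j, J < j → A j = ∅) :=
    ⟨fun j => if j ≤ J then Us j else ∅, fun j hj => if_pos hj, fun j hj => if_neg (by omega)⟩
  obtain ⟨Bc, hB1, hB2⟩ : ∃ Bc : ℕ → Finset C, (∀ j, j ≤ J → Bc j = Cs j) ∧ (∀ j, J < j → Bc j = ∅) :=
    ⟨fun j => if j ≤ J then Cs j else ∅, fun j hj => if_pos hj, fun j hj => if_neg (by omega)⟩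
  have hAs : ∀ j, A (j + 1) ⊆ A j := by
    intro j
    by_cases h : j + 1 ≤ J
    · rw [hA1 _ h, hA1 j (by omega)]
      exact (v1 j (by omega)).1
    · rw [hA2 (j + 1) (by omega)]
      simp
  have hBs : ∀ j, Bc (j + 1) ⊆ Bc j := by
    intro j
    by_cases h : j + 1 ≤ J
    · rw [hB1 _ h, hB1 j (by omega)]
      exact (v1 j (by omega)).2.2
    · rw [hB2 (j + 1) (by omega)]
      simp
  have hAm : ∀ j, j ≤ J → mm ≤ (A j).card := by
    intro j hj
    rw [hA1 j hj]
    exact v2 j hj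
  have hA10 : ∀ j, j ≤ J → (10 : ℝ) ≤ (A j).card := by
    intro j hj
    have h1 := hAm j hj
    have : 10 ≤ (A j).card := by omega
    exact_mod_cast this
  have hAξ : ∀ j, j ≤ J → ξ' * (A j).card + 2 ≤ ξ * (A j).card := by
    intro j hj
    have h1 := hAm j hj
    have h2 : ⌈4 / ξ⌉₊ ≤ (A j).card := by omega
    have h3 : 4 / ξ ≤ ((A j).card : ℝ) := le_trans (Nat.le_ceil _) (by exact_mod_cast h2)
    rw [div_le_iff₀ hξ] at h3
    have h4 : ξ' * ((A j).card : ℝ) ≤ ξ / 2 * (A j).card :=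
      mul_le_mul_of_nonneg_right hξξ (Nat.cast_nonneg _)
    nlinarith
  have hAfl : ∀ j, j < J → (A (j + 1)).card = (A j).card / g := by
    intro j hj
    rw [hA1 j (by omega), hA1 (j + 1) (by omega)]
    exact (v1 j hj).2.1
  have hAlo : ∀ j, j < J → μ * (A j).card - 1 ≤ (A (j + 1)).card := by
    intro j hj
    rw [hAfl j hj, hμd]
    exact (mb_floor _ g (by omega)).1
  have hAhi : ∀ j, j ≤ J → ((A (j + 1)).card : ℝ) ≤ μ * (A j).card := by
    intro j hj
    by_cases h : j < J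
    · rw [hAfl j h, hμd]
      exact (mb_floor _ g (by omega)).2
    · rw [hA2 (j + 1) (by omega)]
      simp only [Finset.card_empty, Nat.cast_zero]
      exact mul_nonneg hμ.le (Nat.cast_nonneg _)
  have hBd : ∀ j, j ≤ J → |((Bc j).card : ℝ) - δ * (A j).card| ≤ 1 := by
    intro j hj
    rw [hA1 j hj, hB1 j hj]
    exact v4 j hj
  have hBA : ∀ j, j ≤ J → ((Bc j).card : ℝ) ≤ (A j).card := by
    intro j hj
    have h1 := (abs_le.1 (hBd j hj)).2
    have h2 := hA10 j hj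
    have h3 : δ * (A j).card ≤ 1 / 2 * (A j).card := mul_le_mul_of_nonneg_right hδhi (Nat.cast_nonneg _)
    linarith
  have hBhi : ∀ j, j ≤ J → ((Bc (j + 1)).card : ℝ) ≤ μ * (A j).card := by
    intro j hj
    by_cases h : j < J
    · exact le_trans (hBA (j + 1) (by omega)) (hAhi j hj)
    · rw [hB2 (j + 1) (by omega)]
      simp only [Finset.card_empty, Nat.cast_zero]
      exact mul_nonneg hμ.le (Nat.cast_nonneg _)
  have hgeo : ∀ j, j < J → Geo C δ ξ' μ G (A j) (A (j + 1)) (Bc j) (Bc (j + 1)) := by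
    intro j hj
    refine ⟨hAs j, hBs j, hBd j (by omega), hBd (j + 1) (by omega), hAlo j hj, hAhi j (by omega), ?_⟩
    intro v hv
    rw [hA1 j (by omega)] at hv
    rw [hA1 (j + 1) (by omega)]
    exact v5 j hj v hv
  have hAJ1 : A J ⊆ A 1 := by
    have : ∀ k, A (k + 1) ⊆ A 1 := by
      intro k
      induction k with
      | zero => exact le_refl _
      | succ k ih => exact subset_trans (hAs (k + 1)) ih
    have h := this (J - 1)
    rwa [Nat.sub_add_cancel hJ] at h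
  have hBJ1 : Bc J ⊆ Bc 1 := by
    have : ∀ k, Bc (k + 1) ⊆ Bc 1 := by
      intro k
      induction k with
      | zero => exact le_refl _
      | succ k ih => exact subset_trans (hBs (k + 1)) ih
    have h := this (J - 1)
    rwa [Nat.sub_add_cancel hJ] at h
  have hA0 : A 0 = univ := by rw [hA1 0 (by omega), v0]
  have hB0 : Bc 0 = univ := by rw [hB1 0 (by omega), w0]
  have hA0c : ((A 0).card : ℝ) = Fintype.card V := by rw [hA0, Finset.card_univ]
  -- the absorber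
  have hAJM : (A J).card ≤ g * (mm + 1) := by rw [hA1 J (le_refl _)]; exact v3
  have hBJM : (Bc J).card ≤ g * (mm + 1) := by
    have := hBA J (le_refl _)
    have h2 : (Bc J).card ≤ (A J).card := by exact_mod_cast this
    exact le_trans h2 hAJM
  obtain ⟨R, ms₀, q1, q2, q3, q4, q5, q6⟩ := hAb V C G (A 1) (A J) (Bc 1) (Bc J) hna
    (by
      intro v
      have h1 : (univ.filter (fun u => G.Adj v u)).card = 2 * Fintype.card C := by
        rw [← hreg' v]
        congr 1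
        ext u
        rw [mem_nb_full]
        simp
      rw [h1]
      push_cast
      rw [hδC]
      have : (3 / 4 + ε) * (Fintype.card V : ℝ) ≤ 2 * δ * Fintype.card V :=
        mul_le_mul_of_nonneg_right (by linarith) hn0.le
      linarith)
    (by
      have h1 := hAhi 0 (by omega)
      rw [hA0c] at h1
      have h2 : μ * (Fintype.card V : ℝ) ≤ ε * Fintype.card V := mul_le_mul_of_nonneg_right hμε hn0.le
      simp only [zero_add] at h1
      linarith)
    (by
      rw [Finset.card_sdiff_of_subset (Finset.subset_univ _), Finset.card_univ,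
        Nat.cast_sub (Finset.card_le_univ _)]
      have h1 := (abs_le.1 (hBd 1 hJ)).2
      have h2 := hAhi 0 (by omega)
      rw [hA0c] at h2
      simp only [zero_add] at h2
      have h3 : δ * ((A 1).card : ℝ) ≤ δ * (1 / 8 * Fintype.card V) := by
        apply mul_le_mul_of_nonneg_left _ (by linarith)
        have : μ * (Fintype.card V : ℝ) ≤ 1 / 8 * Fintype.card V :=
          mul_le_mul_of_nonneg_right hμ8 hn0.le
        linarith
      have h4 : (3 / 8 : ℝ) * Fintype.card V ≤ δ * Fintype.card V :=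
        mul_le_mul_of_nonneg_right (by linarith) hn0.le
      rw [hδC]
      nlinarith)
    hAJ1 hBJ1 hAJM hBJM
  obtain ⟨Y₀, Z₀, y1, y2, y3, y4⟩ := q6 ∅ (fun _ => []) ⟨by simp, by simp⟩ (by simp) (by simp) (by simp)
    (by intro v; simp [rends]) (by intro c; simp)
  have hZ₀ : ∀ c, Z₀ c = ∅ := fun c => mb_realL_nil (y1 c).2
  have hY₀ : univ.biUnion Y₀ = R := by
    have h1 : univ.biUnion Z₀ = ∅ := by
      ext i
      simp [hZ₀]
    rw [h1, Finset.union_empty, Finset.union_empty] at y4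
    exact y4
  have hBlam : (B : ℝ) ≤ η * μ * Fintype.card V / 2 := by
    have h1 : ⌈2 * (B : ℝ) / (η * μ)⌉₊ ≤ Fintype.card V := by omega
    have h2 : 2 * (B : ℝ) / (η * μ) ≤ (Fintype.card V : ℝ) := le_trans (Nat.le_ceil _) (by exact_mod_cast h1)
    rw [div_le_iff₀ (mul_pos hη hμ)] at h2
    linarith
  have hlev0 := base_lev hAdd (U' := A 1) (D' := Bc 1) hreg' q1 hBlam hL30 hnL hsum hsmall q2 q3 q4 q5
    (fun c => (y1 c).1) (fun c d h => (y3 c d h).1) hY₀
  -- first stage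
  have hmul1 : ξ' + η ≤ ε := by linarith
  have hμ1 : μ ≤ 1 := by linarith
  have hbase : ∃ (F : Finset (Finset (Item V C))) (X : C → Finset (Item V C)) (S : Finset (Item V C))
      (ms : C → List (Mem V)) (Λ : C → Multiset ℕ),
      Acc L₁ (full C G \ R) N ms₀ (fun _ => longs L₁ (Fintype.card V) N) F X S ms Λ ∧
      Lev (η * μ * (A 1).card / 2) L₁ 1 20 G (A 1) (A 2) (Bc 1) (Bc 2) S (fun _ => 0) ms Λ := by
    have hg0' := hgeo 0 (by omega)
    rw [hA0, hB0] at hg0'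
    simp only [zero_add] at hg0'
    obtain ⟨F, X, ms', Λ', hso, -, hc, hp⟩ := stage (U'' := A 2) (D'' := Bc 2) hBB' hg0' hlev0
      (le_refl _) hδlo hδhi hμ hμ1 hη (by rw [Finset.card_univ]) hmul1
      (by
        have := hAm 1 hJ
        omega) (hAξ 1 hJ) (by rw [Finset.card_univ]; exact hnB) (hAs 1) (hBs 1)
      (hAhi 1 hJ) (hBhi 1 hJ) (by rw [Finset.card_univ]; exact hsmall)
    exact ⟨F, X, _, ms', Λ', acc_base hso (fun c l hl => hc c (mem_univ c) l hl), hso.lev⟩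
  obtain ⟨F, X, S, ms, Λ, hacc, hlev⟩ := iter hT h20' hδlo hδhi hμ hμ1 hη hmul1 J A Bc hgeo
    (fun j hj => le_trans hm20 (hAm j hj)) (fun j hj => by have := hAm j hj; omega) hAξ hAs hBs hAhi hBhi
    hbase J hJ (le_refl _)
  -- last level
  have hAJ10 := hA10 J (le_refl _)
  have hlamJ : η * μ * (A J).card / 2 ≤ (A J).card / 100 := by
    have h1 : η * μ ≤ 1 / 100 * (1 / 8) := by
      apply mul_le_mul hη1 hμ8 hμ.le (by norm_num)
    have h2 : η * μ * (A J).card ≤ 1 / 100 * (1 / 8) * (A J).card :=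
      mul_le_mul_of_nonneg_right h1 (Nat.cast_nonneg _)
    linarith
  obtain ⟨Xf, rq, g1, g2, g3, g4, g5, g6, g7, g8, g9⟩ := hF V C (A J) (Bc J) S ms Λ
    (le_trans hmf (hAm J (le_refl _))) (by exact_mod_cast hBA J (le_refl _)) hlev.ins
    (by
      intro v hv
      have h1 := hlev.misE v hv
      have h2 : v ∈ Us (J - 1) := by
        have h3 := (v1 (J - 1) (by omega)).1
        rw [Nat.sub_add_cancel hJ] at h3
        rw [hA1 J (le_refl _)] at hv
        exact h3 hv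
      have h3 := v5 (J - 1) (by omega) v h2
      rw [Nat.sub_add_cancel hJ, ← hA1 J (le_refl _)] at h3
      have h4 := (abs_le.1 h3).1
      have h5 : nb (full C G) v ∩ A J ⊆ nb S v ∪ ((nb (full C G) v ∩ A J) \ nb S v) := by
        intro u hu
        by_cases h : u ∈ nb S v
        · exact Finset.mem_union_left _ h
        · exact Finset.mem_union_right _ (Finset.mem_sdiff.2 ⟨hu, h⟩)
      have h6 : ((nb (full C G) v ∩ A J).card : ℝ) ≤ (nb S v).card +
          (((nb (full C G) v ∩ A J) \ nb S v).card : ℝ) := by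
        exact_mod_cast le_trans (Finset.card_le_card h5) (Finset.card_union_le _ _)
      have h7 : (3 / 4 + 2 * ε) * ((A J).card : ℝ) ≤ 2 * δ * (A J).card :=
        mul_le_mul_of_nonneg_right (by linarith) (Nat.cast_nonneg _)
      have h8 : ξ' * ((A J).card : ℝ) ≤ ε / 4 * (A J).card :=
        mul_le_mul_of_nonneg_right hξε (Nat.cast_nonneg _)
      have h9 : 0 ≤ ε * ((A J).card : ℝ) := mul_nonneg hε.le (Nat.cast_nonneg _)
      nlinarith)
    (by
      intro c hc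
      exact le_trans (hlev.misC c hc) hlamJ)
    (by
      intro c hc
      obtain ⟨t1, t2, t3, t4, t5⟩ := hlev.mem c hc
      refine ⟨t1, t2, t3, fun l hl => le_trans hLf (t4 l hl).le, ?_⟩
      simp only [mul_zero, Finset.sum_const_zero, add_zero] at t5
      exact t5)
    hlev.bal
  have hLoS : S \ uC (Bc J) Xf ⊆ S := Finset.sdiff_subset
  obtain ⟨Y, Z, k1, k2, k3, k4⟩ := q6 (S \ uC (Bc J) Xf) rq (hlev.ins.mono hLoS)
    (fun u v h => mem_full_inl.1 (hlev.sub (hLoS h)))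
    (by
      intro c r hr
      have hc : c ∈ Bc J := by
        by_contra h
        rw [(g2 c h).2] at hr
        simp at hr
      exact ⟨hc, g5 c r hr⟩)
    g6 g7 g8
  refine concl_of (sub_full (fun u v h => (q4 u v h).1)) hacc hlev.off g1 g2 g4 g9 k1 k2 k3 k4 hnL
    (fun l hl => mem_longs hl) ?_
  intro l hl hl'
  rw [count_longs, if_pos (Finset.mem_Ioc.2 ⟨hl, hl'⟩)]

end Pool.Agent.OBX
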