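import Mathlib
import Pool.Agent.OBX.LnkB

set_option autoImplicit false

/-!
OBX: PTH (rooted links through `U'`) and GAP (rooted links inside `U'`).
-/

namespace Pool.Agent.OBX

open Finset Pool.Agent.OBW

theorem lnk_tot {C : Type} [Fintype C] [DecidableEq C] {ι : Type} [Fintype ι] (c : ι → C)
    (D : Finset C) (t : ι → ℕ) (hc : ∀ i, c i ∈ D) (ht : ∀ i, 1 ≤ t i) (x : ℝ)
    (h : ∀ d, (∑ i with c i = d, (t i : ℝ)) ≤ x) :
    ((∑ i, (t i + 2) : ℕ) : ℝ) ≤ 3 * (D.card * x) := by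
  classical
  have h1 : ((∑ i, (t i + 2) : ℕ) : ℝ) ≤ 3 * ∑ i, (t i : ℝ) := by
    push_cast
    rw [Finset.mul_sum]
    apply Finset.sum_le_sum
    intro i _
    have : (1 : ℝ) ≤ t i := by exact_mod_cast ht i
    linarith
  have h2 : ∑ i, (t i : ℝ) = ∑ d ∈ D, ∑ i with c i = d, (t i : ℝ) := by
    rw [Finset.sum_fiberwise_of_maps_to (fun i _ => hc i)]
  have h3 : ∑ d ∈ D, ∑ i with c i = d, (t i : ℝ) ≤ D.card * x := by
    calc ∑ d ∈ D, ∑ i with c i = d, (t i : ℝ) ≤ ∑ _d ∈ D, x := Finset.sum_le_sum fun d _ => h d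
      _ = _ := by rw [Finset.sum_const, nsmul_eq_mul]
  linarith

theorem pth : PthStmt := by
  intro ε hε
  refine ⟨1/100, by norm_num, ?_⟩
  intro μ hμ0 hμ1 η hη0 hη1 p hp hp1 θ hθ
  obtain ⟨κ, hκ⟩ : ∃ κ, κ = min (θ / 5) (p ^ 2 * μ / 128) := ⟨_, rfl⟩
  have hpm : 0 < p ^ 2 * μ := by positivity
  have hκ0 : 0 < κ := by
    rw [hκ]
    exact lt_min (by positivity) (by positivity)
  have hκ1 : κ ≤ θ / 5 := by rw [hκ]; exact min_le_left _ _
  have hκ2 : κ ≤ p ^ 2 * μ / 128 := by rw [hκ]; exact min_le_right _ _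
  have hp2 : p ^ 2 ≤ 1/16 := by
    have := mul_le_mul hp1 hp1 hp.le (by norm_num)
    linarith [sq p, (by ring : p * p = p ^ 2)]
  have hpm1 : p ^ 2 * μ ≤ 1/1600 := by
    calc p ^ 2 * μ ≤ 1/16 * (1/100) := mul_le_mul hp2 hμ1 hμ0.le (by norm_num)
      _ = 1/1600 := by norm_num
  have hκle : κ ≤ 1 := by linarith
  have hκsq : κ ^ 2 ≤ κ := by
    have := mul_le_mul_of_nonneg_left hκle hκ0.le
    linarith [sq κ]
  obtain ⟨γ, hγ⟩ : ∃ γ, γ = κ ^ 2 / 16 := ⟨_, rfl⟩
  have hγ0 : 0 < γ := by rw [hγ]; positivity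
  have hγκ : γ ≤ κ := by rw [hγ]; linarith
  refine ⟨γ, hγ0, ⌈16 / (p ^ 2 * μ) + 2 / κ + 3⌉₊, ?_⟩
  intro V C _ _ _ _ δ ξ ζ U U' U'' D D' D'' S R W ι _ c a b t hm hst hU'' hD'' hUc hDc hres hζ0 hζ
    hWU hWD hi _ hroots hcol
  obtain ⟨n, hn⟩ : ∃ n : ℝ, n = (U.card : ℝ) := ⟨_, rfl⟩
  have hmR : 16 / (p ^ 2 * μ) + 2 / κ + 3 ≤ n := by
    rw [hn]
    exact (Nat.le_ceil _).trans (by exact_mod_cast hm)
  have h16 : 0 ≤ 16 / (p ^ 2 * μ) := by positivity
  have h2k : 0 ≤ 2 / κ := by positivity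
  have hn0 : 0 < n := by linarith
  have hn16 : 16 ≤ p ^ 2 * μ * n := by
    have h1 : 16 / (p ^ 2 * μ) ≤ n := by linarith
    rw [div_le_iff₀ hpm] at h1
    linarith
  have hκn : 2 ≤ κ * n := by
    have h1 : 2 / κ ≤ n := by linarith
    rw [div_le_iff₀ hκ0] at h1
    linarith
  have hκn2 : κ * n ≤ p ^ 2 * μ * n / 128 := by
    have := mul_le_mul_of_nonneg_right hκ2 hn0.le
    linarith
  have hM : μ * n - 1 ≤ (U'.card : ℝ) := by rw [hn]; exact hst.Ulo
  obtain ⟨k, hk⟩ : ∃ k : ℕ, k = ⌊κ * n⌋₊ := ⟨_, rfl⟩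
  have hk1 : (k : ℝ) ≤ κ * n := by rw [hk]; exact Nat.floor_le (by linarith)
  have hk2 : κ * n - 1 < k := by
    have := Nat.lt_floor_add_one (κ * n)
    rw [hk]
    linarith
  have hk3 : κ * n / 2 ≤ k := by linarith
  have hk0 : 0 < k := by
    have : (0 : ℝ) < k := by linarith
    exact_mod_cast this
  have hγn : γ * n ≤ κ * n := mul_le_mul_of_nonneg_right hγκ hn0.le
  have hDn : (D.card : ℝ) ≤ n := by
    have h1 := (abs_le.1 hst.dD).2
    have h2 := hst.δhi
    rw [← hn] at h1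
    have h3 : δ * n ≤ 1/2 * n := mul_le_mul_of_nonneg_right h2 hn0.le
    linarith
  have hbig : ((15 * k + 2 : ℕ) : ℝ) ≤ p ^ 2 / 4 * (U'.card : ℝ) := by
    push_cast
    have h1 : p ^ 2 / 4 * (μ * n - 1) ≤ p ^ 2 / 4 * (U'.card : ℝ) :=
      mul_le_mul_of_nonneg_left hM (by positivity)
    have h5 : p ^ 2 / 4 * (μ * n - 1) = p ^ 2 * μ * n / 4 - p ^ 2 / 4 := by ring
    linarith
  have hKβ : ∀ K : Finset V, p ^ 2 / 4 * (U'.card : ℝ) ≤ K.card → 15 * k + 2 ≤ K.card := by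
    intro K hK
    have := hbig.trans hK
    exact_mod_cast this
  have hU'ne : U'.Nonempty := by
    rw [← Finset.card_pos]
    by_contra h
    have h0 : U'.card = 0 := by omega
    rw [h0] at hbig
    simp only [CharP.cast_eq_zero, mul_zero] at hbig
    have : (0 : ℝ) < ((15 * k + 2 : ℕ) : ℝ) := by positivity
    linarith
  obtain ⟨u0, hu0⟩ := hU'ne
  obtain ⟨g, g1, g2, g3, g4, g5, g6⟩ := lnk_greedy (ι := ι) (grdGood U' U'' D' S R) (U' \ U'') W
    c a b t (15 * k + 2) k hk0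
    (fun i => by have := (hi i).2.2.2.2; omega) (fun i => (hi i).2.2.2.1)
    (by
      intro i x hx
      have hxU : x ∈ U := by
        rcases hx with h | h
        · exact hst.subU (mem_sdiff.1 h).1
        · rw [h]; exact (hi i).2.1
      obtain ⟨K, hK1, hK2, hK3⟩ := grd_base hst hres hUc hε hp hp1 hζ hμ1 (hi i).1 hxU
        (hst.subU hu0) (Or.inr (Or.inl hu0))
      exact ⟨K, hK1, hKβ K hK2, fun u hu => ⟨(hK3 u hu).1, (hK3 u hu).2.2⟩⟩)
    (by
      intro i x hx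
      have hxA : x ∈ U' \ U'' := by
        rcases hx with h | h
        · exact h
        · exfalso
          have := (hi i).2.2.2.2
          omega
      obtain ⟨K, hK1, hK2, hK3⟩ := grd_base hst hres hUc hε hp hp1 hζ hμ1 (hi i).1
        (hst.subU (mem_sdiff.1 hxA).1) (hi i).2.2.1 (Or.inl (mem_sdiff.1 hxA).1)
      exact ⟨K, hK1, hKβ K hK2, hK3⟩)
    (by
      intro v
      rw [hk]
      apply Nat.le_floor
      have h1 := (hWU v).1
      rw [← hn] at h1
      linarith)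
    (by
      intro d
      rw [hk]
      apply Nat.le_floor
      have h1 := hWD d
      rw [← hn] at h1
      linarith)
    (by
      intro v
      rw [hk]
      apply Nat.le_floor
      have h1 := hroots v
      rw [← hn] at h1
      linarith)
    (by
      intro d
      rw [hk]
      apply Nat.le_floor
      have h1 := hcol d
      rw [← hn] at h1
      push_cast
      linarith)
    (by
      have h1 := lnk_tot c D t (fun i => (hi i).1) (fun i => by have := (hi i).2.2.2.2; omega)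
        (γ * n) (fun d => by rw [hn]; exact hcol d)
      have h2 : 3 * ((D.card : ℝ) * (γ * n)) ≤ 3 * (n * (γ * n)) := by
        have h3 : 0 ≤ γ * n := by positivity
        have := mul_le_mul_of_nonneg_right hDn h3
        linarith
      have h4 : 3 * (n * (γ * n)) ≤ (κ * n / 2) * (κ * n / 2) := by
        have e : 3 * (n * (γ * n)) = 3 / 16 * (κ ^ 2 * n ^ 2) := by rw [hγ]; ring
        have e2 : (κ * n / 2) * (κ * n / 2) = 1 / 4 * (κ ^ 2 * n ^ 2) := by ring
        have h5 : 0 ≤ κ ^ 2 * n ^ 2 := by positivity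
        linarith
      have h6 : (κ * n / 2) * (κ * n / 2) ≤ (k : ℝ) * k :=
        mul_le_mul hk3 hk3 (by linarith) (Nat.cast_nonneg _)
      have h7 : ((∑ i, (t i + 2) : ℕ) : ℝ) ≤ ((k * k : ℕ) : ℝ) := by
        rw [Nat.cast_mul]
        linarith
      exact_mod_cast h7)
    le_rfl
  refine ⟨g, g1, g2, g3, g4, ?_, ?_⟩
  · intro v
    have h1 : ((nb (univ.biUnion g) v).card : ℝ) ≤ 4 * k := by exact_mod_cast (g5 v).1
    have h2 : ((cl (univ.biUnion g) v).card : ℝ) ≤ 2 * k := by exact_mod_cast (g5 v).2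
    have h3 : κ * n ≤ θ / 5 * n := mul_le_mul_of_nonneg_right hκ1 hn0.le
    rw [← hn]
    constructor <;> linarith
  · intro d
    have h1 : ((vt (univ.biUnion g) d).card : ℝ) ≤ k := by exact_mod_cast g6 d
    have h3 : κ * n ≤ θ / 5 * n := mul_le_mul_of_nonneg_right hκ1 hn0.le
    rw [← hn]
    linarith

theorem gap : GapStmt := by
  intro θ hθ
  obtain ⟨κ, hκ⟩ : ∃ κ : ℝ, κ = min (θ / 5) (1 / 100) := ⟨_, rfl⟩
  have hκ0 : 0 < κ := by
    rw [hκ]
    exact lt_min (by positivity) (by norm_num)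
  have hκ1 : κ ≤ θ / 5 := by rw [hκ]; exact min_le_left _ _
  have hκ2 : κ ≤ 1 / 100 := by rw [hκ]; exact min_le_right _ _
  have hκsq : κ ^ 2 ≤ κ := by
    have := mul_le_mul_of_nonneg_left (show κ ≤ 1 by linarith) hκ0.le
    linarith [sq κ]
  obtain ⟨γ, hγ⟩ : ∃ γ, γ = κ ^ 2 / 16 := ⟨_, rfl⟩
  have hγ0 : 0 < γ := by rw [hγ]; positivity
  have hγκ : γ ≤ κ := by rw [hγ]; linarith
  refine ⟨γ, hγ0, ⌈2 / κ + 100⌉₊, ?_⟩
  intro V C _ _ _ _ U' U'' D' T ι _ c a b t hm hDn hcom hmiss hi hroots hcol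
  obtain ⟨n, hn⟩ : ∃ n : ℝ, n = (U'.card : ℝ) := ⟨_, rfl⟩
  have hmR : 2 / κ + 100 ≤ n := by
    rw [hn]
    exact (Nat.le_ceil _).trans (by exact_mod_cast hm)
  have h2k : 0 ≤ 2 / κ := by positivity
  have hn0 : 0 < n := by linarith
  have hκn : 2 ≤ κ * n := by
    have h1 : 2 / κ ≤ n := by linarith
    rw [div_le_iff₀ hκ0] at h1
    linarith
  have hκn2 : κ * n ≤ n / 100 := by
    have := mul_le_mul_of_nonneg_right hκ2 hn0.le
    linarith
  obtain ⟨k, hk⟩ : ∃ k : ℕ, k = ⌊κ * n⌋₊ := ⟨_, rfl⟩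
  have hk1 : (k : ℝ) ≤ κ * n := by rw [hk]; exact Nat.floor_le (by linarith)
  have hk2 : κ * n - 1 < k := by
    have := Nat.lt_floor_add_one (κ * n)
    rw [hk]
    linarith
  have hk3 : κ * n / 2 ≤ k := by linarith
  have hk0 : 0 < k := by
    have : (0 : ℝ) < k := by linarith
    exact_mod_cast this
  have hγn : γ * n ≤ κ * n := mul_le_mul_of_nonneg_right hγκ hn0.le
  have hDn' : (D'.card : ℝ) ≤ n := by rw [hn]; exact_mod_cast hDn
  -- candidates
  have hbase : ∀ d ∈ D', ∀ x ∈ U', ∀ y ∈ U', ∃ K ⊆ U' \ U'', 15 * k + 2 ≤ K.card ∧ ∀ u ∈ K,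
      (Sum.inl s(x, u) : Item V C) ∈ T ∧ (Sum.inl s(u, y) : Item V C) ∈ T ∧
        (Sum.inr (u, d) : Item V C) ∈ T := by
    intro d hd x hx y hy
    refine ⟨((nb T x ∩ nb T y ∩ U') \ U'') ∩ vt T d, ?_, ?_, ?_⟩
    · intro u hu
      simp only [mem_inter, mem_sdiff] at hu ⊢
      exact ⟨hu.1.1.2, hu.1.2⟩
    · have h1 := hcom x hx y hy
      have h2 := hmiss d hd
      have h3 : ((nb T x ∩ nb T y ∩ U') \ U'').card ≤
          (((nb T x ∩ nb T y ∩ U') \ U'') ∩ vt T d).card + (U' \ vt T d).card := by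
        have h4 : (nb T x ∩ nb T y ∩ U') \ U'' ⊆
            (((nb T x ∩ nb T y ∩ U') \ U'') ∩ vt T d) ∪ (U' \ vt T d) := by
          intro u hu
          simp only [mem_inter, mem_sdiff, mem_union] at hu ⊢
          tauto
        exact (card_le_card h4).trans (card_union_le _ _)
      have h5 : (((nb T x ∩ nb T y ∩ U') \ U'').card : ℝ) ≤
          ((((nb T x ∩ nb T y ∩ U') \ U'') ∩ vt T d).card : ℝ) + ((U' \ vt T d).card : ℝ) := by
        exact_mod_cast h3
      rw [← hn] at h1 h2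
      have h6 : ((15 * k + 2 : ℕ) : ℝ) ≤
          ((((nb T x ∩ nb T y ∩ U') \ U'') ∩ vt T d).card : ℝ) := by
        push_cast
        linarith
      exact_mod_cast h6
    · intro u hu
      simp only [mem_inter, mem_sdiff] at hu
      refine ⟨grd_mem_nb.1 hu.1.1.1.1, ?_, grd_mem_vt.1 hu.2⟩
      rw [Sym2.eq_swap]
      exact grd_mem_nb.1 hu.1.1.1.2
  obtain ⟨g, g1, g2, g3, g4, g5, g6⟩ := lnk_greedy (ι := ι) (fun j => j ∈ T) (U' \ U'') ∅
    c a b t (15 * k + 2) k hk0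
    (fun i => (hi i).2.2.2.2.1) (fun i => (hi i).2.2.2.1)
    (by
      intro i x hx
      have hxU : x ∈ U' := by
        rcases hx with h | h
        · exact (mem_sdiff.1 h).1
        · rw [h]; exact (hi i).2.1
      obtain ⟨K, hK1, hK2, hK3⟩ := hbase (c i) (hi i).1 x hxU x hxU
      exact ⟨K, hK1, hK2, fun u hu => ⟨(hK3 u hu).1, (hK3 u hu).2.2⟩⟩)
    (by
      intro i x hx
      have hxU : x ∈ U' := by
        rcases hx with h | h
        · exact (mem_sdiff.1 h).1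
        · rw [h.1]; exact (hi i).2.1
      exact hbase (c i) (hi i).1 x hxU (b i) (hi i).2.2.1)
    (by intro v; simp [nb])
    (by intro d; simp [vt])
    (by
      intro v
      rw [hk]
      apply Nat.le_floor
      have h1 := hroots v
      rw [← hn] at h1
      linarith)
    (by
      intro d
      rw [hk]
      apply Nat.le_floor
      have h1 := hcol d
      rw [← hn] at h1
      push_cast
      linarith)
    (by
      have h1 := lnk_tot c D' t (fun i => (hi i).1) (fun i => (hi i).2.2.2.2.1)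
        (γ * n) (fun d => by rw [hn]; exact hcol d)
      have h2 : 3 * ((D'.card : ℝ) * (γ * n)) ≤ 3 * (n * (γ * n)) := by
        have h3 : 0 ≤ γ * n := by positivity
        have := mul_le_mul_of_nonneg_right hDn' h3
        linarith
      have h4 : 3 * (n * (γ * n)) ≤ (κ * n / 2) * (κ * n / 2) := by
        have e : 3 * (n * (γ * n)) = 3 / 16 * (κ ^ 2 * n ^ 2) := by rw [hγ]; ring
        have e2 : (κ * n / 2) * (κ * n / 2) = 1 / 4 * (κ ^ 2 * n ^ 2) := by ring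
        have h5 : 0 ≤ κ ^ 2 * n ^ 2 := by positivity
        linarith
      have h6 : (κ * n / 2) * (κ * n / 2) ≤ (k : ℝ) * k :=
        mul_le_mul hk3 hk3 (by linarith) (Nat.cast_nonneg _)
      have h7 : ((∑ i, (t i + 2) : ℕ) : ℝ) ≤ ((k * k : ℕ) : ℝ) := by
        rw [Nat.cast_mul]
        linarith
      exact_mod_cast h7)
    le_rfl
  refine ⟨g, fun i => ⟨g1 i, fun j hj => (g2 i j hj).1⟩, g3, g4, ?_, ?_⟩
  · intro v
    have h1 : ((nb (univ.biUnion g) v).card : ℝ) ≤ 4 * k := by exact_mod_cast (g5 v).1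
    have h2 : ((cl (univ.biUnion g) v).card : ℝ) ≤ 2 * k := by exact_mod_cast (g5 v).2
    have h3 : κ * n ≤ θ / 5 * n := mul_le_mul_of_nonneg_right hκ1 hn0.le
    rw [← hn]
    constructor <;> linarith
  · intro d
    have h1 : ((vt (univ.biUnion g) d).card : ℝ) ≤ k := by exact_mod_cast g6 d
    have h3 : κ * n ≤ θ / 5 * n := mul_le_mul_of_nonneg_right hκ1 hn0.le
    rw [← hn]
    linarith

end Pool.Agent.OBX
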