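import Mathlib
import Pool.Agent.OBX.Defs
import Pool.Agent.OBX.Stmts

set_option autoImplicit false

/-!
SGL: two different vertices of `W c` for every colour, bounded loads.
-/

namespace Pool.Agent.OBX

open Finset Pool.Agent.OBW

/-- the load of `u` -/
def sgl_ld {V C : Type} [DecidableEq V] (I : Finset C) (a b : C → V) (u : V) : ℕ :=
  (I.filter (fun c => a c = u)).card + (I.filter (fun c => b c = u)).card

theorem sgl_total {V C : Type} [Fintype V] [DecidableEq V] (I : Finset C)
    (a b : C → V) : ∑ u, sgl_ld I a b u = 2 * I.card := by
  unfold sgl_ld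
  rw [Finset.sum_add_distrib]
  have h1 : ∀ f : C → V, ∑ u, (I.filter (fun c => f c = u)).card = I.card := by
    intro f
    exact (Finset.card_eq_sum_card_fiberwise (f := f) (s := I) (t := univ)
      (fun _ _ => by simp)).symm
  rw [h1 a, h1 b]
  ring

theorem sgl_ind {V C : Type} [Fintype V] [DecidableEq V] [DecidableEq C] [Nonempty V]
    (m : ℕ) (I : Finset C) (W : C → Finset V) :
    I.card ≤ m → (∀ c ∈ I, m / 2 + 2 ≤ (W c).card) →
    ∃ a b : C → V, (∀ c ∈ I, a c ∈ W c ∧ b c ∈ W c ∧ a c ≠ b c) ∧
      ∀ u, sgl_ld I a b u ≤ 10 := by
  induction I using Finset.induction_on with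
  | empty =>
    intro _ _
    refine ⟨fun _ => Classical.arbitrary V, fun _ => Classical.arbitrary V, ?_, ?_⟩
    · intro c hc; simp at hc
    · intro u; simp [sgl_ld]
  | insert c₀ I hc₀ ih =>
    intro hcard hW
    rw [Finset.card_insert_of_notMem hc₀] at hcard
    obtain ⟨a, b, hab, hld⟩ := ih (by omega) (fun c hc => hW c (Finset.mem_insert_of_mem hc))
    -- saturated vertices
    have hsat : 10 * (univ.filter (fun u => 10 ≤ sgl_ld I a b u)).card ≤ 2 * I.card := by
      rw [← sgl_total I a b]
      calc 10 * (univ.filter (fun u => 10 ≤ sgl_ld I a b u)).card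
          = ∑ u ∈ univ.filter (fun u => 10 ≤ sgl_ld I a b u), 10 := by
            rw [Finset.sum_const, smul_eq_mul, mul_comm]
        _ ≤ ∑ u ∈ univ.filter (fun u => 10 ≤ sgl_ld I a b u), sgl_ld I a b u :=
            Finset.sum_le_sum (fun u hu => (Finset.mem_filter.mp hu).2)
        _ ≤ ∑ u, sgl_ld I a b u :=
            Finset.sum_le_sum_of_subset (Finset.filter_subset _ _)
    have hWc := hW c₀ (Finset.mem_insert_self _ _)
    have hfree : 1 < (W c₀ \ univ.filter (fun u => 10 ≤ sgl_ld I a b u)).card := by
      have := Finset.le_card_sdiff (univ.filter (fun u => 10 ≤ sgl_ld I a b u)) (W c₀)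
      omega
    obtain ⟨x, hx, y, hy, hxy⟩ := Finset.one_lt_card.mp hfree
    simp only [Finset.mem_sdiff, Finset.mem_filter, Finset.mem_univ, true_and, not_le] at hx hy
    refine ⟨Function.update a c₀ x, Function.update b c₀ y, ?_, ?_⟩
    · intro c hc
      by_cases h : c = c₀
      · subst h
        simp only [Function.update_self]
        exact ⟨hx.1, hy.1, hxy⟩
      · have hcI : c ∈ I := (Finset.mem_insert.mp hc).resolve_left h
        simp only [Function.update_of_ne h]
        exact hab c hcI
    · intro u
      have hA : ∀ (f : C → V) (z : V),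
          ((insert c₀ I).filter (fun c => Function.update f c₀ z c = u)).card =
          (I.filter (fun c => f c = u)).card + (if z = u then 1 else 0) := by
        intro f z
        rw [Finset.filter_insert]
        have hcongr : I.filter (fun c => Function.update f c₀ z c = u) =
            I.filter (fun c => f c = u) := by
          apply Finset.filter_congr
          intro c hc
          have : c ≠ c₀ := fun h => hc₀ (h ▸ hc)
          rw [Function.update_of_ne this]
        rw [hcongr, Function.update_self]
        split_ifs with h
        · rw [Finset.card_insert_of_notMem]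
          intro hmem
          exact hc₀ (Finset.mem_filter.mp hmem).1
        · rfl
      have hE : sgl_ld (insert c₀ I) (Function.update a c₀ x) (Function.update b c₀ y) u =
          sgl_ld I a b u + (if x = u then 1 else 0) + (if y = u then 1 else 0) := by
        unfold sgl_ld
        rw [hA a x, hA b y]
        ring
      rw [hE]
      have hu := hld u
      split_ifs with h1 h2 h2
      · exact absurd (h1.trans h2.symm) hxy
      · subst h1; omega
      · subst h2; omega
      · omega

theorem sgl : SglStmt := by
  classical
  intro V C _ _ _ _ _ m I W hI hW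
  obtain ⟨a, b, h1, h2⟩ := sgl_ind m I W hI hW
  refine ⟨a, b, h1, ?_⟩
  intro u
  have := h2 u
  unfold sgl_ld at this
  convert this using 3

end Pool.Agent.OBX
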