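import Mathlib
import Pool.Agent.OBX.Stmts

set_option autoImplicit false
set_option linter.unusedSectionVars false

/-!
OBX: TOK (perfect matchings tokens -> gap vertices for all the colours, average greedy).
-/

namespace Pool.Agent.OBX

open Finset Pool.Agent.OBW

theorem tok_asym (c₂ : ℝ) (h2 : 0 < c₂) :
    ∃ m₀ : ℕ, ∀ m : ℝ, (m₀ : ℝ) ≤ m → 2 * Real.log (m ^ 2) + 4 ≤ c₂ * m := by
  have e2 : ∀ᶠ x : ℝ in Filter.atTop, 2 * Real.log (x ^ 2) + 4 ≤ c₂ * x := by
    have h3 := Real.isLittleO_log_id_atTop.def (show (0 : ℝ) < c₂ / 8 by linarith)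
    have h4 := Filter.eventually_ge_atTop (1 : ℝ)
    have h5 := Filter.eventually_ge_atTop (4 / (c₂ / 2))
    filter_upwards [h3, h4, h5] with x hx hx1 hx2
    have hx0 : (0 : ℝ) < x := by linarith
    have h6 : Real.log x ≤ c₂ / 8 * x := by
      have h7 : ‖Real.log x‖ ≤ c₂ / 8 * ‖id x‖ := hx
      rw [id, Real.norm_of_nonneg hx0.le] at h7
      exact (le_abs_self _).trans h7
    rw [div_le_iff₀ (by linarith)] at hx2
    rw [Real.log_pow]
    push_cast
    linarith
  obtain ⟨x₀, hx₀⟩ := Filter.eventually_atTop.1 e2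
  refine ⟨⌈x₀⌉₊, fun m hm => hx₀ m ?_⟩
  exact (Nat.le_ceil x₀).trans hm

/-- block of one colour -/
noncomputable def tokB {V : Type} [DecidableEq V] (k : ℕ) (e₁ e₂ w : ℕ → V) : Finset (Sym2 V) :=
  (range k).image (fun j => s(e₁ j, w j)) ∪ (range k).image (fun j => s(w j, e₂ j))

theorem tok_one {V : Type} [DecidableEq V] {n k : ℕ} (e : ℕ → V) (f : Fin n → ℕ → V)
    (he : Set.InjOn e (Set.Iio k)) (hf : ∀ i j : Fin n, ∀ a ∈ range k, i ≠ j → f i a ≠ f j a) (x y : V) :
    by classical exact (univ.filter (fun a : Fin n => ∃ j < k, e j = x ∧ f a j = y)).card ≤ 1 := by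
  classical
  rw [Finset.card_le_one]
  intro a ha a' ha'
  rw [mem_filter] at ha ha'
  obtain ⟨_, j, hj, h1, h2⟩ := ha
  obtain ⟨_, j', hj', h1', h2'⟩ := ha'
  have hjj : j = j' := he (Set.mem_Iio.2 hj) (Set.mem_Iio.2 hj') (h1.trans h1'.symm)
  subst hjj
  by_contra hne
  exact hf a a' j (mem_range.2 hj) hne (h2.trans h2'.symm)

theorem tok_opt (hpm : PmStmt) {V : Type} [DecidableEq V] {ε : ℝ} {k : ℕ} {e₁ e₂ : ℕ → V}
    {P Z : Finset V} {H : V → V → Prop} (S : Finset (Sym2 V)) (hε : 0 < ε) (hk : 0 < k)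
    (hP : P.card = k) (hPZ : P ⊆ Z) (hH : ∀ u v, H u v → H v u)
    (he : ∀ j < k, e₁ j ∈ Z ∧ e₂ j ∈ Z ∧ e₁ j ≠ e₂ j ∧ e₁ j ∉ P ∧ e₂ j ∉ P)
    (hi1 : Set.InjOn e₁ (Set.Iio k)) (hi2 : Set.InjOn e₂ (Set.Iio k))
    (hd1 : by classical exact ∀ u ∈ Z, (3/4 + ε) * (k : ℝ) ≤ ((P.filter (fun v => H u v)).card : ℝ))
    (hd2 : by classical exact ∀ v ∈ P,
        (3/4 + ε) * (k : ℝ) ≤ (((range k).filter (fun j => H v (e₁ j))).card : ℝ) ∧
        (3/4 + ε) * (k : ℝ) ≤ (((range k).filter (fun j => H v (e₂ j))).card : ℝ))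
    (hS : ∀ u ∈ Z, ((S ∩ Z.image (fun v => s(u, v))).card : ℝ) ≤ ε / 8 * k) :
    ∃ (Ω : Type) (_ : Fintype Ω) (_ : Nonempty Ω) (b : Ω → Finset (Sym2 V)),
      (∀ ω, (∃ w : ℕ → V, (∀ j < k, w j ∈ P ∧ H (e₁ j) (w j) ∧ H (w j) (e₂ j)) ∧
        Set.InjOn w (Set.Iio k) ∧ b ω = tokB k e₁ e₂ w) ∧ Disjoint (b ω) S) ∧
      (∀ ω u (Y : Finset V), ((b ω ∩ Y.image (fun v => s(u, v))).card : ℝ) ≤ 2) ∧
      (∀ u (Y : Finset V), ∑ ω, ((b ω ∩ Y.image (fun v => s(u, v))).card : ℝ) ≤
        (if u ∈ Z then 4 / (ε * k) * ((Y ∩ Z).card : ℝ) else 0) * Fintype.card Ω) := by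
  classical
  have hkR : (0 : ℝ) < (k : ℝ) := by exact_mod_cast hk
  -- loads in terms of neighbours
  have hload : ∀ u ∈ Z, ((Z.filter (fun v => s(u, v) ∈ S)).card : ℝ) ≤ ε / 8 * k := by
    intro u hu
    refine le_trans ?_ (hS u hu)
    have : (Z.filter (fun v => s(u, v) ∈ S)).card ≤ (S ∩ Z.image (fun v => s(u, v))).card := by
      apply Finset.card_le_card_of_injOn (fun v => s(u, v))
      · intro v hv
        have hv' := mem_filter.1 (Finset.mem_coe.1 hv)
        exact Finset.mem_coe.2 (mem_inter.2 ⟨hv'.2, mem_image.2 ⟨v, hv'.1, rfl⟩⟩)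
      · intro v _ w _ hvw
        exact Sym2.congr_right.1 hvw
    exact_mod_cast this
  let R : ℕ → V → Prop := fun j v => H (e₁ j) v ∧ H v (e₂ j) ∧ s(e₁ j, v) ∉ S ∧ s(v, e₂ j) ∉ S
  have hA : ∀ j ∈ range k, (1/2 + ε) * (k : ℝ) ≤ ((P.filter (fun v => R j v)).card : ℝ) := by
    intro j hj
    obtain ⟨z1, z2, _, _, _⟩ := he j (mem_range.1 hj)
    have h1 := hd1 _ z1
    have h2 := hd1 _ z2
    have h3 := hload _ z1
    have h4 := hload _ z2
    have hsub : P.filter (fun v => H (e₁ j) v) ∩ P.filter (fun v => H (e₂ j) v) ⊆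
        P.filter (fun v => R j v) ∪ (Z.filter (fun v => s(e₁ j, v) ∈ S) ∪
          Z.filter (fun v => s(e₂ j, v) ∈ S)) := by
      intro v hv
      rw [mem_inter, mem_filter, mem_filter] at hv
      rw [mem_union, mem_union, mem_filter, mem_filter, mem_filter]
      by_cases a1 : s(e₁ j, v) ∈ S
      · exact Or.inr (Or.inl ⟨hPZ hv.1.1, a1⟩)
      · by_cases a2 : s(e₂ j, v) ∈ S
        · exact Or.inr (Or.inr ⟨hPZ hv.1.1, a2⟩)
        · exact Or.inl ⟨hv.1.1, hv.1.2, hH _ _ hv.2.2, a1, by rw [Sym2.eq_swap]; exact a2⟩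
    have h5 := (Finset.card_le_card hsub).trans ((Finset.card_union_le _ _).trans
      (Nat.add_le_add_left (Finset.card_union_le _ _) _))
    have h6 : (P.filter (fun v => H (e₁ j) v)).card + (P.filter (fun v => H (e₂ j) v)).card ≤
        (P.filter (fun v => H (e₁ j) v) ∩ P.filter (fun v => H (e₂ j) v)).card + k := by
      rw [← Finset.card_union_add_card_inter, add_comm]
      apply Nat.add_le_add_left
      rw [← hP]
      exact Finset.card_le_card (Finset.union_subset (Finset.filter_subset _ _) (Finset.filter_subset _ _))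
    have h5' : ((P.filter (fun v => H (e₁ j) v) ∩ P.filter (fun v => H (e₂ j) v)).card : ℝ) ≤
        ((P.filter (fun v => R j v)).card : ℝ) + (((Z.filter (fun v => s(e₁ j, v) ∈ S)).card : ℝ) +
          ((Z.filter (fun v => s(e₂ j, v) ∈ S)).card : ℝ)) := by exact_mod_cast h5
    have h6' : ((P.filter (fun v => H (e₁ j) v)).card : ℝ) + ((P.filter (fun v => H (e₂ j) v)).card : ℝ) ≤
        ((P.filter (fun v => H (e₁ j) v) ∩ P.filter (fun v => H (e₂ j) v)).card : ℝ) + k := by
      exact_mod_cast h6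
    have h7 : 0 ≤ ε * (k : ℝ) := by positivity
    linarith
  have hB : ∀ v ∈ P, (1/2 + ε) * (k : ℝ) ≤ (((range k).filter (fun j => R j v)).card : ℝ) := by
    intro v hv
    obtain ⟨h1, h2⟩ := hd2 v hv
    have hvZ := hPZ hv
    have h3 := hload _ hvZ
    have c1 : ((range k).filter (fun j => s(e₁ j, v) ∈ S)).card ≤ (Z.filter (fun x => s(v, x) ∈ S)).card := by
      apply Finset.card_le_card_of_injOn e₁
      · intro j hj
        have hj' := mem_filter.1 (Finset.mem_coe.1 hj)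
        refine Finset.mem_coe.2 (mem_filter.2 ⟨(he j (mem_range.1 hj'.1)).1, ?_⟩)
        rw [Sym2.eq_swap]; exact hj'.2
      · intro a ha b hb hab
        have ha' := mem_filter.1 (Finset.mem_coe.1 ha)
        have hb' := mem_filter.1 (Finset.mem_coe.1 hb)
        exact hi1 (Set.mem_Iio.2 (mem_range.1 ha'.1)) (Set.mem_Iio.2 (mem_range.1 hb'.1)) hab
    have c2 : ((range k).filter (fun j => s(v, e₂ j) ∈ S)).card ≤ (Z.filter (fun x => s(v, x) ∈ S)).card := by
      apply Finset.card_le_card_of_injOn e₂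
      · intro j hj
        have hj' := mem_filter.1 (Finset.mem_coe.1 hj)
        exact Finset.mem_coe.2 (mem_filter.2 ⟨(he j (mem_range.1 hj'.1)).2.1, hj'.2⟩)
      · intro a ha b hb hab
        have ha' := mem_filter.1 (Finset.mem_coe.1 ha)
        have hb' := mem_filter.1 (Finset.mem_coe.1 hb)
        exact hi2 (Set.mem_Iio.2 (mem_range.1 ha'.1)) (Set.mem_Iio.2 (mem_range.1 hb'.1)) hab
    have hsub : (range k).filter (fun j => H v (e₁ j)) ∩ (range k).filter (fun j => H v (e₂ j)) ⊆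
        (range k).filter (fun j => R j v) ∪ ((range k).filter (fun j => s(e₁ j, v) ∈ S) ∪
          (range k).filter (fun j => s(v, e₂ j) ∈ S)) := by
      intro j hj
      rw [mem_inter, mem_filter, mem_filter] at hj
      rw [mem_union, mem_union, mem_filter, mem_filter, mem_filter]
      by_cases a1 : s(e₁ j, v) ∈ S
      · exact Or.inr (Or.inl ⟨hj.1.1, a1⟩)
      · by_cases a2 : s(v, e₂ j) ∈ S
        · exact Or.inr (Or.inr ⟨hj.1.1, a2⟩)
        · exact Or.inl ⟨hj.1.1, hH _ _ hj.1.2, hj.2.2, a1, a2⟩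
    have h5 := (Finset.card_le_card hsub).trans ((Finset.card_union_le _ _).trans
      (Nat.add_le_add_left (Finset.card_union_le _ _) _))
    have h6 : ((range k).filter (fun j => H v (e₁ j))).card + ((range k).filter (fun j => H v (e₂ j))).card ≤
        ((range k).filter (fun j => H v (e₁ j)) ∩ (range k).filter (fun j => H v (e₂ j))).card + k := by
      rw [← Finset.card_union_add_card_inter, add_comm]
      apply Nat.add_le_add_left
      have : ((range k).filter (fun j => H v (e₁ j)) ∪ (range k).filter (fun j => H v (e₂ j))).card ≤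
          (range k).card :=
        Finset.card_le_card (Finset.union_subset (Finset.filter_subset _ _) (Finset.filter_subset _ _))
      rwa [card_range] at this
    have h5' : (((range k).filter (fun j => H v (e₁ j)) ∩ (range k).filter (fun j => H v (e₂ j))).card : ℝ) ≤
        (((range k).filter (fun j => R j v)).card : ℝ) +
          ((((range k).filter (fun j => s(e₁ j, v) ∈ S)).card : ℝ) +
          (((range k).filter (fun j => s(v, e₂ j) ∈ S)).card : ℝ)) := by exact_mod_cast h5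
    have h6' : (((range k).filter (fun j => H v (e₁ j))).card : ℝ) +
        (((range k).filter (fun j => H v (e₂ j))).card : ℝ) ≤
        (((range k).filter (fun j => H v (e₁ j)) ∩ (range k).filter (fun j => H v (e₂ j))).card : ℝ) + k := by
      exact_mod_cast h6
    have c1' : (((range k).filter (fun j => s(e₁ j, v) ∈ S)).card : ℝ) ≤
        ((Z.filter (fun x => s(v, x) ∈ S)).card : ℝ) := by exact_mod_cast c1
    have c2' : (((range k).filter (fun j => s(v, e₂ j) ∈ S)).card : ℝ) ≤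
        ((Z.filter (fun x => s(v, x) ∈ S)).card : ℝ) := by exact_mod_cast c2
    have h7 : 0 ≤ ε * (k : ℝ) := by positivity
    linarith
  obtain ⟨n, f, hn, hf1, hf2, hf3⟩ := hpm ℕ V (range k) P R k ε hε (card_range k) hP hA hB
  have hnpos : (0 : ℝ) < (n : ℝ) := lt_of_lt_of_le (by positivity) hn
  have hn0 : 0 < n := by exact_mod_cast hnpos
  have : Nonempty (Fin n) := ⟨⟨0, hn0⟩⟩
  have hfP : ∀ a, ∀ j < k, f a j ∈ P := fun a j hj => (hf1 a j (mem_range.2 hj)).1
  have hfI : ∀ a, ∀ i < k, ∀ j < k, f a i = f a j → i = j := by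
    intro a i hi j hj h
    exact hf2 a (Finset.mem_coe.2 (mem_range.2 hi)) (Finset.mem_coe.2 (mem_range.2 hj)) h
  refine ⟨Fin n, inferInstance, inferInstance, fun a => tokB k e₁ e₂ (f a), ?_, ?_, ?_⟩
  · intro a
    refine ⟨⟨f a, ?_, ?_, rfl⟩, ?_⟩
    · intro j hj
      obtain ⟨h1, h2, h3, _, _⟩ := hf1 a j (mem_range.2 hj)
      exact ⟨h1, h2, h3⟩
    · intro i hi j hj h
      exact hfI a i (Set.mem_Iio.1 hi) j (Set.mem_Iio.1 hj) h
    · rw [Finset.disjoint_left]
      intro e he' heS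
      unfold tokB at he'
      rw [mem_union, mem_image, mem_image] at he'
      rcases he' with ⟨j, hj, rfl⟩ | ⟨j, hj, rfl⟩
      · exact (hf1 a j hj).2.2.2.1 heS
      · exact (hf1 a j hj).2.2.2.2 heS
  · intro a u Y
    have c1 : (((range k).image (fun j => s(e₁ j, f a j))) ∩ Y.image (fun v => s(u, v))).card ≤ 1 := by
      rw [Finset.card_le_one]
      intro x hx y hy
      rw [mem_inter, mem_image, mem_image] at hx hy
      obtain ⟨⟨j, hj, hjx⟩, ⟨v, hv, hvx⟩⟩ := hx
      obtain ⟨⟨j', hj', hjy⟩, ⟨v', hv', hvy⟩⟩ := hy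
      have hj := mem_range.1 hj
      have hj' := mem_range.1 hj'
      suffices h : j = j' by rw [← hjx, ← hjy, h]
      have h1 := hjx.trans hvx.symm
      have h2 := hjy.trans hvy.symm
      rw [Sym2.eq_iff] at h1 h2
      rcases h1 with ⟨h1, _⟩ | ⟨_, h1⟩ <;> rcases h2 with ⟨h2, _⟩ | ⟨_, h2⟩
      · exact hi1 (Set.mem_Iio.2 hj) (Set.mem_Iio.2 hj') (h1.trans h2.symm)
      · exact absurd (h1.trans h2.symm ▸ hfP a j' hj') (he j hj).2.2.2.1
      · exact absurd (h2.trans h1.symm ▸ hfP a j hj) (he j' hj').2.2.2.1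
      · exact hfI a j hj j' hj' (h1.trans h2.symm)
    have c2 : (((range k).image (fun j => s(f a j, e₂ j))) ∩ Y.image (fun v => s(u, v))).card ≤ 1 := by
      rw [Finset.card_le_one]
      intro x hx y hy
      rw [mem_inter, mem_image, mem_image] at hx hy
      obtain ⟨⟨j, hj, hjx⟩, ⟨v, hv, hvx⟩⟩ := hx
      obtain ⟨⟨j', hj', hjy⟩, ⟨v', hv', hvy⟩⟩ := hy
      have hj := mem_range.1 hj
      have hj' := mem_range.1 hj'
      suffices h : j = j' by rw [← hjx, ← hjy, h]
      have h1 := hjx.trans hvx.symm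
      have h2 := hjy.trans hvy.symm
      rw [Sym2.eq_iff] at h1 h2
      rcases h1 with ⟨h1, _⟩ | ⟨_, h1⟩ <;> rcases h2 with ⟨h2, _⟩ | ⟨_, h2⟩
      · exact hfI a j hj j' hj' (h1.trans h2.symm)
      · exact absurd (h2.trans h1.symm ▸ hfP a j hj) (he j' hj').2.2.2.2
      · exact absurd (h1.trans h2.symm ▸ hfP a j' hj') (he j hj).2.2.2.2
      · exact hi2 (Set.mem_Iio.2 hj) (Set.mem_Iio.2 hj') (h1.trans h2.symm)
    have c3 : (tokB k e₁ e₂ (f a) ∩ Y.image (fun v => s(u, v))).card ≤ 2 := by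
      unfold tokB
      rw [Finset.union_inter_distrib_right]
      exact (Finset.card_union_le _ _).trans (Nat.add_le_add c1 c2)
    exact_mod_cast c3
  · intro u Y
    have hZmem : ∀ a : Fin n, ∀ x y : V, s(x, y) ∈ tokB k e₁ e₂ (f a) → x ∈ Z ∧ y ∈ Z := by
      intro a x y hxy
      unfold tokB at hxy
      rw [mem_union, mem_image, mem_image] at hxy
      rcases hxy with ⟨j, hj, h⟩ | ⟨j, hj, h⟩
      · have hj := mem_range.1 hj
        have z1 := (he j hj).1
        have z2 := hPZ (hfP a j hj)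
        rw [Sym2.eq_iff] at h
        rcases h with ⟨h1, h2⟩ | ⟨h1, h2⟩
        · rw [← h1, ← h2]; exact ⟨z1, z2⟩
        · rw [← h1, ← h2]; exact ⟨z2, z1⟩
      · have hj := mem_range.1 hj
        have z1 := (he j hj).2.1
        have z2 := hPZ (hfP a j hj)
        rw [Sym2.eq_iff] at h
        rcases h with ⟨h1, h2⟩ | ⟨h1, h2⟩
        · rw [← h1, ← h2]; exact ⟨z2, z1⟩
        · rw [← h1, ← h2]; exact ⟨z1, z2⟩
    by_cases hu : u ∈ Z
    · rw [if_pos hu]
      have hcount : ∀ v, (univ.filter (fun a : Fin n => s(u, v) ∈ tokB k e₁ e₂ (f a))).card ≤ 4 := by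
        intro v
        have hsub : univ.filter (fun a : Fin n => s(u, v) ∈ tokB k e₁ e₂ (f a)) ⊆
            (univ.filter (fun a : Fin n => ∃ j < k, e₁ j = u ∧ f a j = v) ∪
            univ.filter (fun a : Fin n => ∃ j < k, e₁ j = v ∧ f a j = u)) ∪
            (univ.filter (fun a : Fin n => ∃ j < k, e₂ j = u ∧ f a j = v) ∪
            univ.filter (fun a : Fin n => ∃ j < k, e₂ j = v ∧ f a j = u)) := by
          intro a ha
          rw [mem_filter] at ha
          have ha := ha.2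
          unfold tokB at ha
          rw [mem_union, mem_image, mem_image] at ha
          simp only [mem_union, mem_filter, mem_univ, true_and]
          rcases ha with ⟨j, hj, h⟩ | ⟨j, hj, h⟩
          · have hj := mem_range.1 hj
            rw [Sym2.eq_iff] at h
            rcases h with ⟨h1, h2⟩ | ⟨h1, h2⟩
            · exact Or.inl (Or.inl ⟨j, hj, h1, h2⟩)
            · exact Or.inl (Or.inr ⟨j, hj, h1, h2⟩)
          · have hj := mem_range.1 hj
            rw [Sym2.eq_iff] at h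
            rcases h with ⟨h1, h2⟩ | ⟨h1, h2⟩
            · exact Or.inr (Or.inr ⟨j, hj, h2, h1⟩)
            · exact Or.inr (Or.inl ⟨j, hj, h2, h1⟩)
        have t1 := tok_one e₁ f hi1 hf3 u v
        have t2 := tok_one e₁ f hi1 hf3 v u
        have t3 := tok_one e₂ f hi2 hf3 u v
        have t4 := tok_one e₂ f hi2 hf3 v u
        have t5 := (Finset.card_le_card hsub).trans ((Finset.card_union_le _ _).trans
          (Nat.add_le_add (Finset.card_union_le _ _) (Finset.card_union_le _ _)))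
        omega
      have h1 : ∀ a : Fin n, (tokB k e₁ e₂ (f a) ∩ Y.image (fun v => s(u, v))).card ≤
          ((Y ∩ Z).filter (fun v => s(u, v) ∈ tokB k e₁ e₂ (f a))).card := by
        intro a
        have : tokB k e₁ e₂ (f a) ∩ Y.image (fun v => s(u, v)) ⊆
            ((Y ∩ Z).filter (fun v => s(u, v) ∈ tokB k e₁ e₂ (f a))).image (fun v => s(u, v)) := by
          intro x hx
          rw [mem_inter, mem_image] at hx
          obtain ⟨hx1, v, hv, rfl⟩ := hx
          exact mem_image.2 ⟨v, mem_filter.2 ⟨mem_inter.2 ⟨hv, (hZmem a u v hx1).2⟩, hx1⟩, rfl⟩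
        exact (Finset.card_le_card this).trans Finset.card_image_le
      have h2 : ∑ a : Fin n, (tokB k e₁ e₂ (f a) ∩ Y.image (fun v => s(u, v))).card ≤ 4 * (Y ∩ Z).card := by
        calc ∑ a : Fin n, (tokB k e₁ e₂ (f a) ∩ Y.image (fun v => s(u, v))).card
            ≤ ∑ a : Fin n, ((Y ∩ Z).filter (fun v => s(u, v) ∈ tokB k e₁ e₂ (f a))).card :=
              Finset.sum_le_sum (fun a _ => h1 a)
          _ = ∑ a : Fin n, ∑ v ∈ Y ∩ Z, (if s(u, v) ∈ tokB k e₁ e₂ (f a) then 1 else 0) := by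
              apply Finset.sum_congr rfl
              intro a _
              rw [Finset.card_filter]
          _ = ∑ v ∈ Y ∩ Z, ∑ a : Fin n, (if s(u, v) ∈ tokB k e₁ e₂ (f a) then 1 else 0) :=
              Finset.sum_comm
          _ = ∑ v ∈ Y ∩ Z, (univ.filter (fun a : Fin n => s(u, v) ∈ tokB k e₁ e₂ (f a))).card := by
              apply Finset.sum_congr rfl
              intro v _
              rw [Finset.card_filter]
          _ ≤ ∑ _v ∈ Y ∩ Z, 4 := Finset.sum_le_sum (fun v _ => hcount v)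
          _ = 4 * (Y ∩ Z).card := by rw [Finset.sum_const, smul_eq_mul, mul_comm]
      have h3 : ∑ a : Fin n, ((tokB k e₁ e₂ (f a) ∩ Y.image (fun v => s(u, v))).card : ℝ) ≤
          4 * ((Y ∩ Z).card : ℝ) := by exact_mod_cast h2
      refine h3.trans ?_
      rw [Fintype.card_fin]
      have h4 : 4 / (ε * k) * ((Y ∩ Z).card : ℝ) * (n : ℝ) = 4 * ((Y ∩ Z).card : ℝ) * (n / (ε * k)) := by
        field_simp
      rw [h4]
      have h5 : 1 ≤ (n : ℝ) / (ε * k) := by
        rw [le_div_iff₀ (by positivity)]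
        linarith
      have h6 : 0 ≤ 4 * ((Y ∩ Z).card : ℝ) := by positivity
      nlinarith
    · rw [if_neg hu, zero_mul]
      refine le_of_eq (Finset.sum_eq_zero fun a _ => ?_)
      rw [Nat.cast_eq_zero, Finset.card_eq_zero, Finset.eq_empty_iff_forall_notMem]
      intro e he'
      rw [mem_inter, mem_image] at he'
      obtain ⟨h1, v, _, rfl⟩ := he'
      exact hu (hZmem a u v h1).1

theorem tok (hpm : PmStmt) (hgen : LkGenStmt) : TokStmt := by
  classical
  intro ε μ hε hμ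
  refine ⟨ε ^ 2 * μ / 1300000, by positivity, fun p hp hpp => ?_⟩
  obtain ⟨m₁, hm₁⟩ := tok_asym (ε * p * μ / 640) (by positivity)
  refine ⟨max m₁ (⌈2 / μ⌉₊ + 1), ?_⟩
  intro V C _ _ _ _ m U' Do H k e₁ e₂ P Z hm hM1 hM2 hDo hH hkP he hinj hZZ hZu hd1 hd2
  have hmr1 := hm₁ m (le_trans (by exact_mod_cast le_max_left _ _) hm)
  have hm2 : 2 / μ ≤ m := by
    refine (Nat.le_ceil _).trans ?_
    refine le_trans ?_ hm
    exact_mod_cast (Nat.le_succ _).trans (le_max_right _ _)
  have hm3 : 2 ≤ μ * m := by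
    rw [div_le_iff₀ hμ] at hm2
    linarith
  have hMm : μ * m / 2 ≤ (U'.card : ℝ) := by linarith
  have hMpos : (0 : ℝ) < U'.card := by linarith
  have hmpos : (0 : ℝ) < m := by linarith
  have hkpos : ∀ c ∈ Do, 0 < k c := by
    intro c hc
    have h1 := (hkP c hc).1
    have h2 : (0 : ℝ) < (k c : ℝ) := lt_of_lt_of_le (by positivity) h1
    exact_mod_cast h2
  set Qb : ℝ := 320 * p / ε with hQb
  have hQb0 : 0 < Qb := by positivity
  have hQb1 : ∀ c ∈ Do, ∀ t : ℝ, t ≤ 4 * p ^ 2 * U'.card → 4 / (ε * k c) * t ≤ Qb := by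
    intro c hc t ht
    have hkc : (0 : ℝ) < k c := by exact_mod_cast hkpos c hc
    have e1 : 4 / (ε * k c) * t ≤ 4 / (ε * k c) * (4 * p ^ 2 * U'.card) :=
      mul_le_mul_of_nonneg_left ht (by positivity)
    refine e1.trans ?_
    rw [hQb, div_mul_eq_mul_div, div_le_div_iff₀ (by positivity) hε]
    have e2 := (hkP c hc).1
    have e3 : p * U'.card ≤ 20 * k c := by linarith
    have e4 : 16 * p * ε * (p * U'.card) ≤ 16 * p * ε * (20 * k c) :=
      mul_le_mul_of_nonneg_left e3 (by positivity)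
    nlinarith
  let I : Type := {u // u ∈ U'} × {c // c ∈ Do}
  let Q : I → Finset (Sym2 V) := fun w => (Z w.2.1).image (fun v => s(w.1.1, v))
  let B : I → ℝ := fun w => ε / 8 * k w.2.1
  let q : C → I → ℝ := fun c w => if w.1.1 ∈ Z c then (if w.2.1 = c then 2 else Qb) else 0
  have hq0 : ∀ c i, 0 ≤ q c i := by
    intro c w
    show 0 ≤ (if w.1.1 ∈ Z c then (if w.2.1 = c then 2 else Qb) else 0)
    split_ifs <;> linarith
  have hqs : ∀ i, ∑ c ∈ Do, q c i ≤ 2 + 3 * p * m * Qb := by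
    intro w
    have e1 : ∀ c ∈ Do, q c w ≤ (if w.2.1 = c then 2 else 0) + (if w.1.1 ∈ Z c then Qb else 0) := by
      intro c _
      show (if w.1.1 ∈ Z c then (if w.2.1 = c then 2 else Qb) else 0) ≤ _
      split_ifs <;> linarith
    refine (Finset.sum_le_sum e1).trans ?_
    rw [Finset.sum_add_distrib, Finset.sum_ite_eq, if_pos w.2.2]
    have : ∑ c ∈ Do, (if w.1.1 ∈ Z c then Qb else 0) ≤ 3 * p * m * Qb := by
      rw [← Finset.sum_filter, Finset.sum_const, nsmul_eq_mul]
      exact mul_le_mul_of_nonneg_right (hZu w.1.1 w.1.2) hQb0.le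
    linarith
  have hcardI : (Fintype.card I : ℝ) ≤ m ^ 2 := by
    have e1 : Fintype.card I = U'.card * Do.card := by
      show Fintype.card ({u // u ∈ U'} × {c // c ∈ Do}) = _
      rw [Fintype.card_prod, Fintype.card_coe, Fintype.card_coe]
    rw [e1]
    push_cast
    have e2 : (U'.card : ℝ) * (Do.card : ℝ) ≤ m * m :=
      mul_le_mul hM2 hDo (Nat.cast_nonneg _) hmpos.le
    linarith [e2, sq m]
  have hcond : ∀ i, 2 * Real.log (Fintype.card I) + 2 * ∑ c ∈ Do, q c i ≤ B i := by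
    intro i
    have hI : (0 : ℝ) < Fintype.card I := by
      have : Nonempty I := ⟨i⟩
      exact_mod_cast Fintype.card_pos
    have e1 : Real.log (Fintype.card I) ≤ Real.log (m ^ 2) := Real.log_le_log hI hcardI
    have e2 := hqs i
    have e3 : ε / 160 * (p * U'.card) ≤ B i := by
      show ε / 160 * (p * U'.card) ≤ ε / 8 * k i.2.1
      have := (hkP i.2.1 i.2.2).1
      have h3 : ε / 8 * (p * U'.card / 20) ≤ ε / 8 * k i.2.1 := mul_le_mul_of_nonneg_left this (by positivity)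
      linarith
    have e5 : ε / 160 * (p * (μ * m / 2)) ≤ ε / 160 * (p * U'.card) := by
      apply mul_le_mul_of_nonneg_left _ (by positivity)
      exact mul_le_mul_of_nonneg_left hMm hp.le
    have e6 : 6 * (p * m * Qb) ≤ ε * p * μ / 640 * m := by
      have e7 : 1300000 * p ≤ ε ^ 2 * μ := by
        rw [le_div_iff₀ (by norm_num)] at hpp
        linarith
      have e8 : 6 * (p * m * Qb) = (1920 * 640 * p) * (p * m) / (640 * ε) := by
        rw [hQb]
        field_simp
        ring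
      have e9 : ε * p * μ / 640 * m = (ε ^ 2 * μ) * (p * m) / (640 * ε) := by
        field_simp
      rw [e8, e9]
      apply div_le_div_of_nonneg_right _ (by positivity)
      apply mul_le_mul_of_nonneg_right _ (by positivity)
      linarith
    nlinarith
  let Ok : C → Finset (Sym2 V) → Prop := fun c b =>
    ∃ w : ℕ → V, (∀ j < k c, w j ∈ P c ∧ H (e₁ c j) (w j) ∧ H (w j) (e₂ c j)) ∧
        Set.InjOn w (Set.Iio (k c)) ∧ b = tokB (k c) (e₁ c) (e₂ c) w
  obtain ⟨b, hb1, hb2, _⟩ := hgen (Sym2 V) C I Do Q Ok 2 q B (by norm_num) hq0 hcond (by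
    intro c hc S hS
    obtain ⟨Ω, iF, iN, b, hbO, hb2, hb3⟩ := tok_opt hpm (H := H) S hε (hkpos c hc) (hkP c hc).2.1
      (hkP c hc).2.2.1 hH (he c hc) (hinj c hc).1 (hinj c hc).2 (hd1 c hc) (hd2 c hc)
      (fun u hu => hS (⟨u, (hkP c hc).2.2.2 hu⟩, ⟨c, hc⟩))
    refine ⟨Ω, iF, iN, b, hbO, ?_, ?_⟩
    · intro ω w
      exact hb2 ω w.1.1 (Z w.2.1)
    · have hΩ : (0 : ℝ) ≤ Fintype.card Ω := by positivity
      intro w
      show ∑ ω, ((b ω ∩ (Z w.2.1).image (fun v => s(w.1.1, v))).card : ℝ) ≤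
          (if w.1.1 ∈ Z c then (if w.2.1 = c then 2 else Qb) else 0) * Fintype.card Ω
      have e1 := hb3 w.1.1 (Z w.2.1)
      by_cases hw : w.1.1 ∈ Z c
      · rw [if_pos hw] at e1 ⊢
        by_cases hcc : w.2.1 = c
        · rw [if_pos hcc]
          refine (Finset.sum_le_sum fun ω _ => hb2 ω w.1.1 (Z w.2.1)).trans ?_
          rw [Finset.sum_const, nsmul_eq_mul, Finset.card_univ, mul_comm]
        · rw [if_neg hcc]
          exact e1.trans (mul_le_mul_of_nonneg_right (hQb1 c hc _ (hZZ w.2.1 w.2.2 c hc hcc)) hΩ)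
      · rw [if_neg hw] at e1 ⊢
        exact e1)
  have hVne : Nonempty V := by
    have h1 : 0 < U'.card := by exact_mod_cast hMpos
    obtain ⟨v, _⟩ := Finset.card_pos.1 h1
    exact ⟨v⟩
  choose! w hw1 hw2 hw3 using hb1
  refine ⟨w, hw1, hw2, ?_⟩
  intro c hc d hd hcd i hi j hj
  have hdis := hb2 c hc d hd hcd
  rw [hw3 c hc, hw3 d hd] at hdis
  have m1 : ∀ c, ∀ i < k c, s(e₁ c i, w c i) ∈ tokB (k c) (e₁ c) (e₂ c) (w c) := by
    intro c i hi
    unfold tokB
    exact mem_union_left _ (mem_image.2 ⟨i, mem_range.2 hi, rfl⟩)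
  have m2 : ∀ c, ∀ i < k c, s(w c i, e₂ c i) ∈ tokB (k c) (e₁ c) (e₂ c) (w c) := by
    intro c i hi
    unfold tokB
    exact mem_union_right _ (mem_image.2 ⟨i, mem_range.2 hi, rfl⟩)
  refine ⟨?_, ?_, ?_⟩
  · intro h
    exact Finset.disjoint_left.1 hdis (m1 c i hi) (h ▸ m1 d j hj)
  · intro h
    exact Finset.disjoint_left.1 hdis (m1 c i hi) (h ▸ m2 d j hj)
  · intro h
    exact Finset.disjoint_left.1 hdis (m2 c i hi) (h ▸ m2 d j hj)

end Pool.Agent.OBX
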