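import Pool.Agent.OBX.CycsB

/-!
MODULE Trans (difficulty 2).
-/

set_option autoImplicit false

namespace Pool.Agent.OBX

open Finset Pool.Agent.OBW

theorem trans_ : TransStmt := by
  intro V C _ _ _ _ c ms ms' ms'' X X' Λ Λ' Λ'' h h' hd
  refine ⟨?_, ?_, ?_, ?_⟩
  · intro v c' hv
    rcases mem_union.1 hv with hv | hv
    · exact h.col v c' hv
    · exact h'.col v c' hv
  · intro v
    have e1 : (nb (X ∪ X') v).card = (nb X v).card + (nb X' v).card := by
      rw [nb_union, card_union_of_disjoint]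
      rw [disjoint_left]
      intro u hu hu'
      rw [mem_nb] at hu hu'
      exact disjoint_left.1 hd hu hu'
    have e2 : (cl (X ∪ X') v).card = (cl X v).card + (cl X' v).card := by
      rw [cl_union, card_union_of_disjoint]
      rw [disjoint_left]
      intro u hu hu'
      rw [mem_cl] at hu hu'
      exact disjoint_left.1 hd hu hu'
    have e3 := h.bal v
    have e4 := h'.bal v
    omega
  · have e1 : (vt (X ∪ X') c).card = (vt X c).card + (vt X' c).card := by
      rw [vt_union, card_union_of_disjoint]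
      rw [disjoint_left]
      intro u hu hu'
      rw [mem_vt] at hu hu'
      exact disjoint_left.1 hd hu hu'
    have e3 := h.cnt
    have e4 := h'.cnt
    omega
  · intro Y hY hYX
    rw [disjoint_union_right] at hYX
    obtain ⟨Y₁, Y', Λ₁, h1, h2, h3, h4, h5⟩ := h.run Y hY hYX.1
    have hYX' : Disjoint (Y₁ ∪ Y') X' := by
      rw [h2, disjoint_union_left]
      exact ⟨hYX.2, hd⟩
    rw [disjoint_union_left] at hYX'
    obtain ⟨Y₂, Y'', Λ₂, k1, k2, k3, k4, k5⟩ := h'.run Y' h3 hYX'.2
    have hdis : Disjoint Y₁ (Y₂ ∪ Y'') := by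
      rw [k2, disjoint_union_right]
      exact ⟨h1, hYX'.1⟩
    rw [disjoint_union_right] at hdis
    refine ⟨Y₁ ∪ Y₂, Y'', Λ₁ + Λ₂, ?_, ?_, k3, cycs_union h4 k4 hdis.1, ?_⟩
    · rw [disjoint_union_left]
      exact ⟨hdis.2, k1⟩
    · rw [union_assoc, k2, ← union_assoc, h2, union_assoc]
    · rw [h5, k5, add_assoc]

end Pool.Agent.OBX
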