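import Mathlib
import Pool.Agent.OBX.XstS
import Pool.Agent.OBX.Util

set_option autoImplicit false
set_option linter.unusedSectionVars false
set_option linter.unusedVariables false

/-! XST: the items of `T` at the vertices of `U \ U'` form three-vertex members (from LkS4). -/

namespace Pool.Agent.OBX

open Finset Pool.Agent.OBW

section
variable {V C : Type} [DecidableEq V] [DecidableEq C]

/-- the function `0 ↦ f, 1 ↦ x, 2 ↦ g` -/
def xst_z (f x g : V) : ℕ → V := fun i => if i = 0 then f else if i = 1 then x else g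

/-- the three-vertex path `f x g` -/
def xst_P (c : C) (f x g : V) : Finset (Item V C) := pit 3 (xst_z f x g) c

theorem xst_mem {c : C} {f x g : V} {i : Item V C} : i ∈ xst_P c f x g ↔
    i = Sum.inl s(f, x) ∨ i = Sum.inl s(x, g) ∨ i = Sum.inr (f, c) ∨ i = Sum.inr (x, c) ∨
      i = Sum.inr (g, c) := by
  unfold xst_P
  rw [mem_pit]
  constructor
  · rintro (⟨j, hj, rfl⟩ | ⟨j, hj, rfl⟩)
    · have : j = 0 ∨ j = 1 := by omega
      rcases this with rfl | rfl
      · left; rfl
      · right; left; rfl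
    · have : j = 0 ∨ j = 1 ∨ j = 2 := by omega
      rcases this with rfl | rfl | rfl
      · right; right; left; rfl
      · right; right; right; left; rfl
      · right; right; right; right; rfl
  · rintro (rfl | rfl | rfl | rfl | rfl)
    · exact Or.inl ⟨0, by omega, rfl⟩
    · exact Or.inl ⟨1, by omega, rfl⟩
    · exact Or.inr ⟨0, by omega, rfl⟩
    · exact Or.inr ⟨1, by omega, rfl⟩
    · exact Or.inr ⟨2, by omega, rfl⟩

theorem xst_path (c : C) {f x g : V} (hfx : f ≠ x) (hxg : x ≠ g) (hfg : f ≠ g) :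
    IsPath 3 c f g (xst_P c f x g) := by
  refine ⟨by norm_num, xst_z f x g, ?_, rfl, rfl, rfl⟩
  have key : ∀ i < 3, ∀ j < i, xst_z f x g i ≠ xst_z f x g j := by
    intro i hi j hj
    have h1 : (i = 1 ∧ j = 0) ∨ (i = 2 ∧ j = 0) ∨ (i = 2 ∧ j = 1) := by omega
    rcases h1 with ⟨rfl, rfl⟩ | ⟨rfl, rfl⟩ | ⟨rfl, rfl⟩
    · exact fun h => hfx h.symm
    · exact fun h => hfg h.symm
    · exact fun h => hxg h.symm
  intro i hi j hj hij
  rw [Set.mem_Iio] at hi hj
  rcases Nat.lt_trichotomy i j with h | h | h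
  · exact absurd hij.symm (key j hj i h)
  · exact h
  · exact absurd hij (key i hi j h)

theorem xst_sep {c : C} {α : Type} [DecidableEq α] (A : Finset α) (f : α → Mem V)
    (P : α → Finset (Item V C))
    (h1 : ∀ a ∈ A, 1 ≤ (f a).2.2 ∧ ((f a).1 = (f a).2.1 ↔ (f a).2.2 = 1) ∧
      (Sum.inr ((f a).1, c) : Item V C) ∈ P a ∧ (Sum.inr ((f a).2.1, c) : Item V C) ∈ P a)
    (h2 : ∀ a ∈ A, ∀ b ∈ A, a ≠ b → Disjoint (P a) (P b)) :
    Sep (A.toList.map f) := by
  refine ⟨?_, ?_⟩
  · intro m hm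
    obtain ⟨a, ha, rfl⟩ := List.mem_map.1 hm
    have := h1 a (mem_toList.1 ha)
    exact ⟨this.1, this.2.1⟩
  · rw [List.pairwise_map]
    refine List.Pairwise.imp_of_mem ?_ A.nodup_toList
    intro a b ha hb hab
    have ha' := mem_toList.1 ha
    have hb' := mem_toList.1 hb
    have hd := Finset.disjoint_left.1 (h2 a ha' b hb' hab)
    have k1 := h1 a ha'
    have k2 := h1 b hb'
    refine ⟨?_, ?_, ?_, ?_⟩
    · intro e; exact hd k1.2.2.1 (e ▸ k2.2.2.1)
    · intro e; exact hd k1.2.2.1 (e ▸ k2.2.2.2)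
    · intro e; exact hd k1.2.2.2 (e ▸ k2.2.2.1)
    · intro e; exact hd k1.2.2.2 (e ▸ k2.2.2.2)

theorem xst_ends {α : Type} [DecidableEq α] (A : Finset α) (f : α → Mem V) (v : V) :
    ends (A.toList.map f) v =
      ∑ a ∈ A, ((if (f a).1 = v then 1 else 0) + (if (f a).2.1 = v then 1 else 0)) := by
  unfold ends
  rw [List.map_map]
  exact Finset.sum_map_toList A _

end

theorem xst (hS4 : LkS4Stmt) : XstStmt := by
  classical
  intro μ hμ hμ1
  obtain ⟨p₀, hp₀, h1⟩ := hS4 μ hμ hμ1
  refine ⟨p₀, hp₀, ?_⟩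
  intro p hp hpp
  obtain ⟨m₀, h2⟩ := h1 p hp hpp
  refine ⟨m₀, ?_⟩
  intro V C _ _ _ _ ε U U' U'' D D' D'' T hm H
  obtain ⟨f, g, M⟩ := h2 V C ε 1 U U' U'' D D' D'' T ∅ hm H (by
    intro u _ x _
    have e : nb (∅ : Finset (Item V C)) u = ∅ := by
      ext w; simp
    rw [e, Finset.empty_inter, card_empty]
    push_cast
    positivity)
  -- basic facts
  have hX : ∀ x ∈ U \ U', x ∉ U' := fun x hx => (Finset.mem_sdiff.1 hx).2
  have hnb : ∀ x ∈ U \ U', ∀ u ∈ nb T x, u ∈ U' ∧ u ≠ x ∧ (Sum.inl s(x, u) : Item V C) ∈ T := by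
    intro x hx u hu
    rw [mem_nb] at hu
    have h := H.ins.1 x u hu
    refine ⟨?_, h.1.symm, hu⟩
    by_contra hu'
    exact H.eX x hx u (Finset.mem_sdiff.2 ⟨h.2.2, hu'⟩) hu
  have hcl : ∀ x ∈ U \ U', ∀ c ∈ cl T x, c ∈ D' ∧ (Sum.inr (x, c) : Item V C) ∈ T := by
    intro x hx c hc
    rw [mem_cl] at hc
    have h := H.ins.2 x c hc
    refine ⟨?_, hc⟩
    by_contra hc'
    exact H.cX x hx c (Finset.mem_sdiff.2 ⟨h.2, hc'⟩) hc
  have hf : ∀ x ∈ U \ U', ∀ c ∈ cl T x, f x c ∈ U' ∧ f x c ≠ x ∧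
      (Sum.inl s(x, f x c) : Item V C) ∈ T := fun x hx c hc => hnb x hx _ (M.memf x hx c hc)
  have hg : ∀ x ∈ U \ U', ∀ c ∈ cl T x, g x c ∈ U' ∧ g x c ≠ x ∧
      (Sum.inl s(x, g x c) : Item V C) ∈ T := fun x hx c hc => hnb x hx _ (M.memg x hx c hc)
  set A : C → Finset V := fun c => (U \ U').filter (fun x => c ∈ cl T x) with hA
  have hAm : ∀ c x, x ∈ A c ↔ x ∈ U \ U' ∧ c ∈ cl T x := by
    intro c x; simp only [hA]; rw [mem_filter]
  set P : C → V → Finset (Item V C) := fun c x => xst_P c (f x c) x (g x c) with hP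
  have hPm : ∀ c x i, i ∈ P c x ↔
      i = Sum.inl s(f x c, x) ∨ i = Sum.inl s(x, g x c) ∨ i = Sum.inr (f x c, c) ∨
        i = Sum.inr (x, c) ∨ i = Sum.inr (g x c, c) := fun c x i => xst_mem
  -- disjointness
  have hedge : ∀ x ∈ U \ U', ∀ y ∈ U \ U', ∀ u ∈ U', ∀ v ∈ U', s(u, x) = s(v, y) →
      x = y ∧ u = v := by
    intro x hx y hy u hu v hv h
    rw [Sym2.eq_iff] at h
    rcases h with ⟨h1, h2⟩ | ⟨h1, h2⟩
    · exact ⟨h2, h1⟩
    · exact absurd (h1 ▸ hu) (hX y hy)
  have hdis : ∀ c d x y, x ∈ A c → y ∈ A d → (c ≠ d ∨ x ≠ y) → Disjoint (P c x) (P d y) := by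
    intro c d x y hxc hyd hne
    rw [hAm] at hxc hyd
    obtain ⟨hx, hc⟩ := hxc
    obtain ⟨hy, hd⟩ := hyd
    have fx := hf x hx c hc
    have gx := hg x hx c hc
    have fy := hf y hy d hd
    have gy := hg y hy d hd
    rw [Finset.disjoint_left]
    intro i hi hi'
    rw [hPm] at hi hi'
    -- edges
    have hE : ∀ u ∈ U', ∀ v ∈ U', (u = f x c ∨ u = g x c) → (v = f y d ∨ v = g y d) →
        s(u, x) = s(v, y) → False := by
      intro u hu v hv hu1 hv1 h
      obtain ⟨hxy, huv⟩ := hedge x hx y hy u hu v hv h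
      subst hxy
      have hcd : c ≠ d := by
        rcases hne with h | h
        · exact h
        · exact absurd rfl h
      have i1 := M.inj x hx c hc d hd hcd
      have i2 := M.fg x hx c hc d hd
      have i3 := M.fg x hx d hd c hc
      rcases hu1 with rfl | rfl <;> rcases hv1 with rfl | rfl
      · exact i1.1 huv
      · exact i2 huv
      · exact i3 huv.symm
      · exact i1.2 huv
    -- pairs
    have hQ : ∀ u v, (u = f x c ∨ u = x ∨ u = g x c) → (v = f y d ∨ v = y ∨ v = g y d) →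
        (u, c) = (v, d) → False := by
      intro u v hu1 hv1 h
      rw [Prod.mk.injEq] at h
      obtain ⟨huv, hcd⟩ := h
      subst hcd
      have hxy : x ≠ y := by
        rcases hne with h | h
        · exact absurd rfl h
        · exact h
      have c1 := M.cc x hx y hy hxy c hc hd
      have c2 := M.cc y hy x hx hxy.symm c hd hc
      rcases hu1 with rfl | rfl | rfl <;> rcases hv1 with rfl | rfl | rfl
      · exact c1.1 huv
      · exact hX _ hy (huv ▸ fx.1)
      · exact c1.2.1 huv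
      · exact hX _ hx (huv ▸ fy.1)
      · exact hxy huv
      · exact hX _ hx (huv ▸ gy.1)
      · exact c2.2.1 huv.symm
      · exact hX _ hy (huv ▸ gx.1)
      · exact c1.2.2 huv
    rcases hi with rfl | rfl | rfl | rfl | rfl
    · rcases hi' with h | h | h | h | h
      · exact hE _ fx.1 _ fy.1 (Or.inl rfl) (Or.inl rfl) (Sum.inl.inj h)
      · exact hE _ fx.1 _ gy.1 (Or.inl rfl) (Or.inr rfl) ((Sum.inl.inj h).trans Sym2.eq_swap)
      · simp at h
      · simp at h
      · simp at h
    · rcases hi' with h | h | h | h | h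
      · exact hE _ gx.1 _ fy.1 (Or.inr rfl) (Or.inl rfl) (Sym2.eq_swap.trans (Sum.inl.inj h))
      · exact hE _ gx.1 _ gy.1 (Or.inr rfl) (Or.inr rfl)
          (Sym2.eq_swap.trans ((Sum.inl.inj h).trans Sym2.eq_swap))
      · simp at h
      · simp at h
      · simp at h
    · rcases hi' with h | h | h | h | h
      · simp at h
      · simp at h
      · exact hQ _ _ (Or.inl rfl) (Or.inl rfl) (Sum.inr.inj h)
      · exact hQ _ _ (Or.inl rfl) (Or.inr (Or.inl rfl)) (Sum.inr.inj h)
      · exact hQ _ _ (Or.inl rfl) (Or.inr (Or.inr rfl)) (Sum.inr.inj h)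
    · rcases hi' with h | h | h | h | h
      · simp at h
      · simp at h
      · exact hQ _ _ (Or.inr (Or.inl rfl)) (Or.inl rfl) (Sum.inr.inj h)
      · exact hQ _ _ (Or.inr (Or.inl rfl)) (Or.inr (Or.inl rfl)) (Sum.inr.inj h)
      · exact hQ _ _ (Or.inr (Or.inl rfl)) (Or.inr (Or.inr rfl)) (Sum.inr.inj h)
    · rcases hi' with h | h | h | h | h
      · simp at h
      · simp at h
      · exact hQ _ _ (Or.inr (Or.inr rfl)) (Or.inl rfl) (Sum.inr.inj h)
      · exact hQ _ _ (Or.inr (Or.inr rfl)) (Or.inr (Or.inl rfl)) (Sum.inr.inj h)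
      · exact hQ _ _ (Or.inr (Or.inr rfl)) (Or.inr (Or.inr rfl)) (Sum.inr.inj h)
  set X : C → Finset (Item V C) := fun c => (A c).biUnion (P c) with hXd
  have hXm : ∀ c i, i ∈ X c ↔ ∃ x ∈ A c, i ∈ P c x := by
    intro c i; simp only [hXd]; rw [mem_biUnion]
  set nm : C → V → Mem V := fun c x => (f x c, g x c, 3) with hnm
  set ns : C → List (Mem V) := fun c => (A c).toList.map (nm c) with hns
  have hpath : ∀ c, ∀ x ∈ A c, IsPath 3 c (f x c) (g x c) (P c x) := by
    intro c x hx
    rw [hAm] at hx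
    exact xst_path c (hf x hx.1 c hx.2).2.1 (hg x hx.1 c hx.2).2.1.symm
      (M.fg x hx.1 c hx.2 c hx.2)
  have hAcard : ∀ c ∈ D', ((A c).card : ℝ) ≤ 3 * p * U.card := by
    intro c hc
    have h1 : A c ⊆ vt T c \ U' := by
      intro x hx
      rw [hAm] at hx
      rw [mem_sdiff, mem_vt]
      exact ⟨(hcl x hx.1 c hx.2).2, hX x hx.1⟩
    have h2 := H.xc c hc
    have h3 : ((A c).card : ℝ) ≤ ((vt T c \ U').card : ℝ) := by exact_mod_cast card_le_card h1
    exact h3.trans h2
  -- loads
  have hone : ∀ x ∈ U \ U', ∀ v, ∑ c ∈ cl T x, ((if f x c = v then 1 else 0) +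
      (if g x c = v then 1 else 0)) ≤ if v ∈ nb T x then 1 else 0 := by
    intro x hx v
    by_cases hv : v ∈ nb T x
    · rw [if_pos hv]
      by_cases h0 : ∃ c ∈ cl T x, f x c = v ∨ g x c = v
      · obtain ⟨c, hc, hcv⟩ := h0
        rw [Finset.sum_eq_single_of_mem c hc]
        · by_cases h1 : f x c = v
          · have h2 : g x c ≠ v := fun h => M.fg x hx c hc c hc (h1.trans h.symm)
            simp [h1, h2]
          · rw [if_neg h1]; split_ifs <;> simp
        · intro d hd hdc
          have i1 := M.inj x hx c hc d hd hdc.symm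
          have i2 := M.fg x hx c hc d hd
          have i3 := M.fg x hx d hd c hc
          have k1 : f x d ≠ v := by
            rcases hcv with h | h
            · intro h'; exact i1.1 (h.trans h'.symm)
            · intro h'; exact i3 (h'.trans h.symm)
          have k2 : g x d ≠ v := by
            rcases hcv with h | h
            · intro h'; exact i2 (h.trans h'.symm)
            · intro h'; exact i1.2 (h.trans h'.symm)
          simp [k1, k2]
      · push Not at h0
        rw [Finset.sum_eq_zero]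
        · exact Nat.zero_le _
        · intro c hc
          simp [(h0 c hc).1, (h0 c hc).2]
    · rw [if_neg hv, Finset.sum_eq_zero]
      intro c hc
      have k1 : f x c ≠ v := fun h => hv (h ▸ M.memf x hx c hc)
      have k2 : g x c ≠ v := fun h => hv (h ▸ M.memg x hx c hc)
      simp [k1, k2]
  have hendsum : ∀ v, ∑ c ∈ D', ends (ns c) v ≤ (nb T v \ U').card := by
    intro v
    have e1 : ∀ c, ends (ns c) v = ∑ x ∈ A c, ((if f x c = v then 1 else 0) +
        (if g x c = v then 1 else 0)) := fun c => xst_ends (A c) (nm c) v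
    rw [Finset.sum_congr rfl fun c _ => e1 c]
    have e2 : ∑ c ∈ D', ∑ x ∈ A c, ((if f x c = v then 1 else 0) + (if g x c = v then 1 else 0)) =
        ∑ x ∈ U \ U', ∑ c ∈ cl T x, ((if f x c = v then 1 else 0) +
          (if g x c = v then 1 else 0)) := by
      apply Finset.sum_comm'
      intro c x
      rw [hAm]
      constructor
      · rintro ⟨_, h1, h2⟩; exact ⟨h2, h1⟩
      · rintro ⟨h1, h2⟩; exact ⟨(hcl x h2 c h1).1, h2, h1⟩
    rw [e2]
    refine (Finset.sum_le_sum fun x hx => hone x hx v).trans ?_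
    rw [← Finset.card_filter]
    apply card_le_card
    intro x hx
    rw [mem_filter] at hx
    rw [mem_sdiff, nb_comm]
    exact ⟨hx.2, hX x hx.1⟩
  have hends0 : ∀ v, v ∉ U' → ∑ c ∈ D', ends (ns c) v = 0 := by
    intro v hv
    apply Finset.sum_eq_zero
    intro c _
    apply ends_eq_zero
    intro m hm
    simp only [hns] at hm
    obtain ⟨x, hx, rfl⟩ := List.mem_map.1 hm
    rw [mem_toList, hAm] at hx
    constructor
    · intro h
      exact hv (by rw [← h]; exact (hf x hx.1 c hx.2).1)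
    · intro h
      exact hv (by rw [← h]; exact (hg x hx.1 c hx.2).1)
  have hendR : ∀ v, ((∑ c ∈ D', ends (ns c) v : ℕ) : ℝ) ≤ 2 * p * U.card := by
    intro v
    by_cases hv : v ∈ U'
    · have h1 : ((∑ c ∈ D', ends (ns c) v : ℕ) : ℝ) ≤ ((nb T v \ U').card : ℝ) := by
        exact_mod_cast hendsum v
      exact h1.trans (H.nu v hv)
    · rw [hends0 v hv]
      push_cast
      positivity
  refine ⟨X, ns, ?_, ?_, ?_, ?_, ?_, ?_, ?_, ?_, ?_⟩
  · intro c hc
    refine ⟨?_, ?_, ?_, ?_, ?_⟩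
    · intro i hi
      rw [hXm] at hi
      obtain ⟨x, hx, hi⟩ := hi
      rw [hAm] at hx
      rw [hPm] at hi
      rcases hi with rfl | rfl | rfl | rfl | rfl
      · rw [Sym2.eq_swap]; exact (hf x hx.1 c hx.2).2.2
      · exact (hg x hx.1 c hx.2).2.2
      · exact (M.cf x hx.1 c hx.2).1
      · exact (hcl x hx.1 c hx.2).2
      · exact (M.cg x hx.1 c hx.2).1
    · exact Real.ofFinset (A c) (nm c) (P c) (fun x hx => hpath c x hx)
        (fun x hx y hy hxy => hdis c c x y hx hy (Or.inr hxy))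
    · refine xst_sep (c := c) (A c) (nm c) (P c) ?_
        (fun x hx y hy hxy => hdis c c x y hx hy (Or.inr hxy))
      intro x hx
      have hp := hpath c x hx
      exact ⟨by simp [hnm], hp.ne_iff, hp.left, hp.right⟩
    · have : (ns c).length = (A c).card := by
        simp only [hns]
        rw [List.length_map, length_toList]
      rw [this]
      exact hAcard c hc
    · intro m hm
      simp only [hns] at hm
      obtain ⟨x, hx, rfl⟩ := List.mem_map.1 hm
      rw [mem_toList] at hx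
      have hp := hpath c x hx
      have hx' := hx
      rw [hAm] at hx'
      refine ⟨rfl, M.fg x hx'.1 c hx'.2 c hx'.2, (hf x hx'.1 c hx'.2).1, (hg x hx'.1 c hx'.2).1,
        ?_, ?_⟩
      · exact (hXm _ _).2 ⟨x, hx, hp.left⟩
      · exact (hXm _ _).2 ⟨x, hx, hp.right⟩
  · intro c hc d hd hcd
    rw [Finset.disjoint_left]
    intro i hi hi'
    rw [hXm] at hi hi'
    obtain ⟨x, hx, hi⟩ := hi
    obtain ⟨y, hy, hi'⟩ := hi'
    exact Finset.disjoint_left.1 (hdis c d x y hx hy (Or.inl hcd)) hi hi'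
  · intro x hx u hu
    obtain ⟨c, hc, hcu⟩ := M.sur x hx u (by rw [mem_nb]; exact hu)
    rw [mem_uC]
    refine ⟨c, (hcl x hx c hc).1, (hXm _ _).2 ⟨x, (hAm _ _).2 ⟨hx, hc⟩, ?_⟩⟩
    rw [hPm]
    rcases hcu with rfl | rfl
    · left; rw [Sym2.eq_swap]
    · right; left; rfl
  · intro x hx c hc
    have hc' : c ∈ cl T x := by rw [mem_cl]; exact hc
    rw [mem_uC]
    refine ⟨c, (hcl x hx c hc').1, (hXm _ _).2 ⟨x, (hAm _ _).2 ⟨hx, hc'⟩, ?_⟩⟩
    rw [hPm]
    right; right; right; left; rfl
  · intro u v huv hUV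
    rw [mem_uC] at huv
    obtain ⟨c, hc, huv⟩ := huv
    rw [hXm] at huv
    obtain ⟨x, hx, huv⟩ := huv
    rw [hPm] at huv
    rw [hAm] at hx
    have hx' := hX x hx.1
    rcases huv with h | h | h | h | h
    · have h1 := Sum.inl.inj h
      rw [Sym2.eq_iff] at h1
      rcases h1 with ⟨_, h2⟩ | ⟨h2, _⟩
      · exact hx' (h2 ▸ hUV.2)
      · exact hx' (h2 ▸ hUV.1)
    · have h1 := Sum.inl.inj h
      rw [Sym2.eq_iff] at h1
      rcases h1 with ⟨h2, _⟩ | ⟨_, h2⟩
      · exact hx' (h2 ▸ hUV.1)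
      · exact hx' (h2 ▸ hUV.2)
    · simp at h
    · simp at h
    · simp at h
  · intro v c hvc
    rw [mem_uC] at hvc
    obtain ⟨c', hc', hvc⟩ := hvc
    rw [hXm] at hvc
    obtain ⟨x, hx, hvc⟩ := hvc
    rw [hPm] at hvc
    rw [hAm] at hx
    have hx' := hX x hx.1
    rcases hvc with h | h | h | h | h
    · simp at h
    · simp at h
    · have h1 := Sum.inr.inj h
      rw [Prod.mk.injEq] at h1
      obtain ⟨rfl, rfl⟩ := h1
      exact ⟨hc', (M.cf x hx.1 _ hx.2).2⟩
    · have h1 := Sum.inr.inj h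
      rw [Prod.mk.injEq] at h1
      obtain ⟨rfl, rfl⟩ := h1
      exact ⟨hc', fun h => hx' (H.subU'' h.1)⟩
    · have h1 := Sum.inr.inj h
      rw [Prod.mk.injEq] at h1
      obtain ⟨rfl, rfl⟩ := h1
      exact ⟨hc', (M.cg x hx.1 _ hx.2).2⟩
  · intro v
    have := hendR v
    push_cast at this
    exact this
  · intro v hv
    have hsub : cl (uC D' X) v ⊆ D'.filter (fun c => 1 ≤ ends (ns c) v) := by
      intro c hc
      rw [mem_cl, mem_uC] at hc
      obtain ⟨c', hc', hc⟩ := hc
      rw [hXm] at hc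
      obtain ⟨x, hx, hc⟩ := hc
      have hx0 := hx
      rw [hPm] at hc
      rw [hAm] at hx
      have key : ∀ w, (w = f x c' ∨ w = g x c') → v = w → c = c' →
          c ∈ D'.filter (fun c => 1 ≤ ends (ns c) v) := by
        intro w hw hvw hcc
        subst hcc
        rw [mem_filter]
        refine ⟨hc', ?_⟩
        rw [show ends (ns c) v = _ from xst_ends (A c) (nm c) v]
        have hle : (if (nm c x).1 = v then 1 else 0) + (if (nm c x).2.1 = v then 1 else 0) ≤
            ∑ a ∈ A c, ((if (nm c a).1 = v then 1 else 0) +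
              (if (nm c a).2.1 = v then 1 else 0)) :=
          Finset.single_le_sum (f := fun a => (if (nm c a).1 = v then 1 else 0) +
            (if (nm c a).2.1 = v then 1 else 0)) (fun a _ => Nat.zero_le _) hx0
        refine le_trans ?_ hle
        rcases hw with hw | hw
        · have : (nm c x).1 = v := by simp only [hnm]; rw [hvw, hw]
          rw [if_pos this]; omega
        · have : (nm c x).2.1 = v := by simp only [hnm]; rw [hvw, hw]
          rw [if_pos this]; omega
      rcases hc with h | h | h | h | h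
      · simp at h
      · simp at h
      · have h1 := Sum.inr.inj h
        rw [Prod.mk.injEq] at h1
        exact key _ (Or.inl rfl) h1.1 h1.2
      · have h1 := Sum.inr.inj h
        rw [Prod.mk.injEq] at h1
        exact absurd (h1.1 ▸ hv) (hX x hx.1)
      · have h1 := Sum.inr.inj h
        rw [Prod.mk.injEq] at h1
        exact key _ (Or.inr rfl) h1.1 h1.2
    have h1 : (cl (uC D' X) v).card ≤ ∑ c ∈ D', ends (ns c) v := by
      refine (card_le_card hsub).trans ?_
      rw [Finset.card_filter]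
      apply Finset.sum_le_sum
      intro c _
      split_ifs with h
      · exact h
      · exact Nat.zero_le _
    have h2 : ((cl (uC D' X) v).card : ℝ) ≤ ((∑ c ∈ D', ends (ns c) v : ℕ) : ℝ) := by
      exact_mod_cast h1
    exact h2.trans (hendR v)
  · intro c hc
    have hsub : vt (uC D' X) c ∩ U' ⊆ (A c).image (fun x => f x c) ∪ (A c).image (fun x => g x c) := by
      intro v hv
      rw [mem_inter, mem_vt, mem_uC] at hv
      obtain ⟨⟨c', hc', hv⟩, hvU⟩ := hv
      rw [hXm] at hv
      obtain ⟨x, hx, hv⟩ := hv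
      have hx0 := hx
      rw [hPm] at hv
      rw [hAm] at hx
      rw [mem_union, mem_image, mem_image]
      rcases hv with h | h | h | h | h
      · simp at h
      · simp at h
      · have h1 := Sum.inr.inj h
        rw [Prod.mk.injEq] at h1
        obtain ⟨h3, rfl⟩ := h1
        exact Or.inl ⟨x, hx0, h3.symm⟩
      · have h1 := Sum.inr.inj h
        rw [Prod.mk.injEq] at h1
        exact absurd (h1.1 ▸ hvU) (hX x hx.1)
      · have h1 := Sum.inr.inj h
        rw [Prod.mk.injEq] at h1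
        obtain ⟨h3, rfl⟩ := h1
        exact Or.inr ⟨x, hx0, h3.symm⟩
    have h1 : (vt (uC D' X) c ∩ U').card ≤ 2 * (A c).card := by
      refine (card_le_card hsub).trans ((card_union_le _ _).trans ?_)
      have := card_image_le (s := A c) (f := fun x => f x c)
      have := card_image_le (s := A c) (f := fun x => g x c)
      omega
    have h2 : ((vt (uC D' X) c ∩ U').card : ℝ) ≤ 2 * ((A c).card : ℝ) := by exact_mod_cast h1
    have h3 := hAcard c hc
    linarith

end Pool.Agent.OBX
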