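import Pool.Agent.OBW.Trans
import Pool.Agent.OBW.Link
import Pool.Agent.OBW.LkS4
import Pool.Agent.OBW.LkXs
import Pool.Agent.OBW.LkGen
import Pool.Agent.OBW.Vtx
import Pool.Agent.OBW.TlRs
import Pool.Agent.OBW.TlAgl
import Pool.Agent.OBW.Res
import Pool.Agent.OBW.Nib
import Pool.Agent.OBW.Mix
import Pool.Agent.OBW.Approx
import Pool.Agent.OBW.Grd
import Pool.Agent.OBW.CdlB
import Pool.Agent.OBW.Abs
import Pool.Agent.OBX.MainA
import Pool.Agent.OBX.MainB
import Pool.Agent.OBX.CaMain
import Pool.Agent.OBX.PrepB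
import Pool.Agent.OBX.Xst
import Pool.Agent.OBX.FinDo
import Pool.Agent.OBX.FinIn
import Pool.Agent.OBX.FinB
import Pool.Agent.OBX.AbsB
import Pool.Agent.OBX.Tok
import Pool.Agent.OBX.Dbl
import Pool.Agent.OBX.GrdW
import Pool.Agent.OBX.Pth
import Pool.Agent.OBX.Brk
import Pool.Agent.OBX.Sgl
import Pool.Agent.OBX.Grp
import Pool.Agent.OBX.Join
import Pool.Agent.OBX.Close
import Pool.Agent.OBX.Drop
import Pool.Agent.OBX.Split
import Pool.Agent.OBX.Cyc
import Pool.Agent.OBX.Trans
import Pool.Agent.OBX.Add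
import Pool.Agent.OBX.Ext
import Pool.Agent.OBX.Fin

set_option autoImplicit false

/-! Assembly of MAIN from all parts. -/

namespace Pool.Agent.OBX

open Finset Pool.Agent.OBW

theorem s_link : LinkStmt := link pm part
theorem s_vtx : VtxStmt := vtx sub
theorem s_approx : ApproxStmt := approx nib mix
theorem s_cdl : CdlStmt := cdl res s_approx grd s_link
theorem s_brk : BrkStmt := brk agl
theorem s_cdlA : CdlAStmt := cdlA res s_approx grdW pth s_link s_brk drop cyc_
theorem s_mainA : MainAStmt := mainA s_cdlA s_cdl OBW.abs s_vtx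
theorem s_prepB : PrepBStmt := prepB res s_approx s_brk grdW pth drop split ext_ trans_ add_
theorem s_xst : XstStmt := xst (lk_s4 part lk_gen (lk_xs pm))
theorem s_tok : TokStmt := tok pm lk_gen
theorem s_finDo : FinDoStmt := finDo part grp dbl s_tok cyc_
theorem s_finIn : FinInStmt := finIn join close trans_ sgl gap
theorem s_finB : FinBStmt := finB dbl

theorem mainAll (hCdlB : PrepBStmt → XstStmt → FinDoStmt → FinInStmt → TransStmt → AddStmt →
    CdlBStmt) : MainStmt :=
  main_of s_mainA (mainB trans_ add_ (hCdlB s_prepB s_xst s_finDo s_finIn trans_ add_) absB s_finB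
    s_vtx)

end Pool.Agent.OBX
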