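import Pool.Agent.OBX.Join

/-!
MODULE Open (difficulty 2).

RECIPE: induction on `n` with `join`.
-/

set_option autoImplicit false

namespace Pool.Agent.OBX

open Finset Pool.Agent.OBW

theorem open_ : OpenStmt := by
  intro V C _ _ c n
  induction n with
  | zero =>
    intro a b s t y g hy _ _ _ _
    have h := hy 0 le_rfl
    simpa using h
  | succ n ih =>
    intro a b s t y g hy hg hyg hyy hgg
    have P := ih a b s t y g (fun j hj => hy j (by omega)) (fun j hj => hg j (by omega))
      (fun i hi j hj => hyg i (by omega) j (by omega))
      (fun i hi j hj => hyy i (by omega) j (by omega))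
      (fun i hi j hj => hgg i (by omega) j (by omega))
    have L := hg n (by omega)
    have Q := hy (n + 1) le_rfl
    have d1 : Disjoint ((range (n + 1)).biUnion y ∪ (range n).biUnion g) (g n) := by
      rw [Finset.disjoint_union_left, Finset.disjoint_biUnion_left, Finset.disjoint_biUnion_left]
      refine ⟨fun i hi => hyg i ?_ n (by omega), fun i hi => hgg i ?_ n (by omega) ?_⟩
      · rw [mem_range] at hi; omega
      · rw [mem_range] at hi; omega
      · rw [mem_range] at hi; omega
    have d2 : Disjoint ((range (n + 1)).biUnion y ∪ (range n).biUnion g) (y (n + 1)) := by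
      rw [Finset.disjoint_union_left, Finset.disjoint_biUnion_left, Finset.disjoint_biUnion_left]
      refine ⟨fun i hi => hyy i ?_ (n + 1) (by omega) ?_,
        fun i hi => (hyg (n + 1) le_rfl i ?_).symm⟩
      · rw [mem_range] at hi; omega
      · rw [mem_range] at hi; omega
      · rw [mem_range] at hi; omega
    have d3 : Disjoint (g n) (y (n + 1)) := (hyg (n + 1) le_rfl n (by omega)).symm
    have R := join V C _ _ _ c _ _ _ _ _ _ _ P L Q d1 d2 d3
    have e1 : ∑ j ∈ range (n + 1 + 1), s j + ∑ j ∈ range (n + 1), t j =
        ∑ j ∈ range (n + 1), s j + ∑ j ∈ range n, t j + t n + s (n + 1) := by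
      rw [Finset.sum_range_succ s (n + 1), Finset.sum_range_succ t n]
      ring
    have e2 : (range (n + 1 + 1)).biUnion y ∪ (range (n + 1)).biUnion g =
        (range (n + 1)).biUnion y ∪ (range n).biUnion g ∪ g n ∪ y (n + 1) := by
      rw [Finset.range_add_one (n := n + 1), Finset.range_add_one (n := n), Finset.biUnion_insert,
        Finset.biUnion_insert (s := range n) (t := g)]
      ext i
      simp only [mem_union]
      tauto
    rw [e1, e2]
    exact R

end Pool.Agent.OBX
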