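import Pool.Agent.OBX.Stmts
import Pool.Agent.OBW.Basic

/-!
MODULE PBa (difficulty 2).  Basic facts on open paths.

RECIPE: unfold `IsPath`, `pit`; `Finset.mem_union`, `mem_image`.  `path_vt_card`: `vt (pit s z c) c = (range s).image z`, injective on `range s`.
`path_eq_iff`: `z 0 = z (s-1)` iff `0 = s - 1` by injectivity.
-/

set_option autoImplicit false

namespace Pool.Agent.OBX

open Finset Pool.Agent.OBW

section
variable {V C : Type} [DecidableEq V] [DecidableEq C]

theorem mem_pit_inl {s : ℕ} {z : ℕ → V} {c : C} {e : Sym2 V} :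
    (Sum.inl e : Item V C) ∈ pit s z c ↔ ∃ i < s - 1, e = s(z i, z (i + 1)) := by
  unfold pit
  rw [mem_union, mem_image, mem_image]
  constructor
  · rintro (⟨i, hi, h⟩ | ⟨i, hi, h⟩)
    · exact ⟨i, mem_range.1 hi, (Sum.inl.inj h).symm⟩
    · exact absurd h (by simp)
  · rintro ⟨i, hi, h⟩
    exact Or.inl ⟨i, mem_range.2 hi, by rw [h]⟩

theorem mem_pit_inr {s : ℕ} {z : ℕ → V} {c d : C} {v : V} :
    (Sum.inr (v, d) : Item V C) ∈ pit s z c ↔ d = c ∧ ∃ i < s, v = z i := by
  unfold pit
  rw [mem_union, mem_image, mem_image]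
  constructor
  · rintro (⟨i, hi, h⟩ | ⟨i, hi, h⟩)
    · exact absurd h (by simp)
    · have h1 := Sum.inr.inj h
      exact ⟨(congrArg Prod.snd h1).symm, i, mem_range.1 hi, (congrArg Prod.fst h1).symm⟩
  · rintro ⟨h, i, hi, h1⟩
    exact Or.inr ⟨i, mem_range.2 hi, by rw [h, h1]⟩

theorem isPath_one (c : C) (v : V) : IsPath 1 c v v ({Sum.inr (v, c)} : Finset (Item V C)) := by
  refine ⟨le_rfl, fun _ => v, ?_, rfl, rfl, ?_⟩
  · intro i hi j hj _
    have hi' : i < 1 := hi
    have hj' : j < 1 := hj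
    omega
  · unfold pit
    rw [Nat.sub_self, range_zero, image_empty, empty_union, range_one, image_singleton]

theorem isPath_two (c : C) {a b : V} (h : a ≠ b) :
    IsPath 2 c a b ({Sum.inl s(a, b), Sum.inr (a, c), Sum.inr (b, c)} : Finset (Item V C)) := by
  refine ⟨by norm_num, fun i => if i = 0 then a else b, ?_, if_pos rfl, if_neg (by norm_num), ?_⟩
  · intro i hi j hj hij
    have hi' : i < 2 := hi
    have hj' : j < 2 := hj
    by_cases h0 : i = 0
    · by_cases h1 : j = 0
      · omega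
      · have h2 : (if i = 0 then a else b) = (if j = 0 then a else b) := hij
        rw [if_pos h0, if_neg h1] at h2
        exact absurd h2 h
    · by_cases h1 : j = 0
      · have h2 : (if i = 0 then a else b) = (if j = 0 then a else b) := hij
        rw [if_neg h0, if_pos h1] at h2
        exact absurd h2.symm h
      · omega
  · ext x
    rcases x with e | ⟨v, d⟩
    · rw [mem_pit_inl]
      simp only [mem_insert, mem_singleton, Sum.inl.injEq, reduceCtorEq, or_false]
      constructor
      · intro he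
        exact ⟨0, by norm_num, by rw [he]; simp⟩
      · rintro ⟨i, hi, he⟩
        have hi0 : i = 0 := by omega
        rw [he, hi0]
        simp
    · rw [mem_pit_inr]
      simp only [mem_insert, mem_singleton, Sum.inr.injEq, Prod.mk.injEq, reduceCtorEq, false_or]
      constructor
      · rintro (⟨h1, h2⟩ | ⟨h1, h2⟩)
        · exact ⟨h2, 0, by norm_num, by rw [h1]; simp⟩
        · exact ⟨h2, 1, by norm_num, by rw [h1]; simp⟩
      · rintro ⟨h2, i, hi, h1⟩
        by_cases h0 : i = 0
        · rw [if_pos h0] at h1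
          exact Or.inl ⟨h1, h2⟩
        · rw [if_neg h0] at h1
          exact Or.inr ⟨h1, h2⟩

theorem path_col {s : ℕ} {c d : C} {a b v : V} {q : Finset (Item V C)} (h : IsPath s c a b q)
    (hv : (Sum.inr (v, d) : Item V C) ∈ q) : d = c := by
  obtain ⟨_, z, _, _, _, rfl⟩ := h
  exact (mem_pit_inr.1 hv).1

theorem path_left {s : ℕ} {c : C} {a b : V} {q : Finset (Item V C)} (h : IsPath s c a b q) :
    (Sum.inr (a, c) : Item V C) ∈ q := by
  obtain ⟨hs, z, _, h0, _, rfl⟩ := h
  exact mem_pit_inr.2 ⟨rfl, 0, by omega, h0.symm⟩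

theorem path_right {s : ℕ} {c : C} {a b : V} {q : Finset (Item V C)} (h : IsPath s c a b q) :
    (Sum.inr (b, c) : Item V C) ∈ q := by
  obtain ⟨hs, z, _, _, h1, rfl⟩ := h
  exact mem_pit_inr.2 ⟨rfl, s - 1, by omega, h1.symm⟩

theorem path_ends {s : ℕ} {c : C} {a b u v : V} {q : Finset (Item V C)} (h : IsPath s c a b q)
    (he : (Sum.inl s(u, v) : Item V C) ∈ q) :
    u ≠ v ∧ (Sum.inr (u, c) : Item V C) ∈ q ∧ (Sum.inr (v, c) : Item V C) ∈ q := by
  obtain ⟨hs, z, hz, _, _, rfl⟩ := h
  obtain ⟨i, hi, h1⟩ := mem_pit_inl.1 he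
  have h2 : z i ≠ z (i + 1) := fun h3 => by
    have h4 := hz (show i < s by omega) (show i + 1 < s by omega) h3
    omega
  rcases Sym2.eq_iff.1 h1 with ⟨hu, hv⟩ | ⟨hu, hv⟩
  · exact ⟨by rw [hu, hv]; exact h2, mem_pit_inr.2 ⟨rfl, i, by omega, hu⟩,
      mem_pit_inr.2 ⟨rfl, i + 1, by omega, hv⟩⟩
  · exact ⟨by rw [hu, hv]; exact h2.symm, mem_pit_inr.2 ⟨rfl, i + 1, by omega, hu⟩,
      mem_pit_inr.2 ⟨rfl, i, by omega, hv⟩⟩

theorem path_eq_iff {s : ℕ} {c : C} {a b : V} {q : Finset (Item V C)} (h : IsPath s c a b q) :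
    a = b ↔ s = 1 := by
  obtain ⟨hs, z, hz, h0, h1, _⟩ := h
  constructor
  · intro hab
    have h2 := hz (show 0 < s by omega) (show s - 1 < s by omega) (h0.trans (hab.trans h1.symm))
    omega
  · intro h2
    rw [← h0, ← h1, h2]

end

section
variable {V C : Type} [Fintype V] [DecidableEq V] [Fintype C] [DecidableEq C]

theorem path_vt_card {s : ℕ} {c : C} {a b : V} {q : Finset (Item V C)} (h : IsPath s c a b q) :
    (vt q c).card = s := by
  obtain ⟨hs, z, hz, _, _, rfl⟩ := h
  have h1 : vt (pit s z c) c = (range s).image z := by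
    ext v
    unfold vt
    rw [mem_filter, mem_pit_inr, mem_image]
    constructor
    · rintro ⟨_, _, i, hi, h⟩
      exact ⟨i, mem_range.2 hi, h.symm⟩
    · rintro ⟨i, hi, h⟩
      exact ⟨mem_univ _, rfl, i, mem_range.1 hi, h.symm⟩
  rw [h1, card_image_of_injOn, card_range]
  intro i hi j hj hij
  exact hz (mem_range.1 (mem_coe.1 hi)) (mem_range.1 (mem_coe.1 hj)) hij

theorem path_vt_ne {s : ℕ} {c d : C} {a b : V} {q : Finset (Item V C)} (h : IsPath s c a b q)
    (hd : d ≠ c) : vt q d = ∅ := by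
  rw [eq_empty_iff_forall_notMem]
  intro v hv
  exact hd (path_col h (mem_filter.1 hv).2)

theorem path_cl_card {s : ℕ} {c : C} {a b : V} {q : Finset (Item V C)} (h : IsPath s c a b q)
    (v : V) : (cl q v).card = if (Sum.inr (v, c) : Item V C) ∈ q then 1 else 0 := by
  by_cases hv : (Sum.inr (v, c) : Item V C) ∈ q
  · rw [if_pos hv]
    have h1 : cl q v = {c} := by
      ext d
      unfold cl
      rw [mem_filter, mem_singleton]
      constructor
      · exact fun hd => path_col h hd.2
      · intro hd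
        rw [hd]
        exact ⟨mem_univ _, hv⟩
    rw [h1, card_singleton]
  · rw [if_neg hv, card_eq_zero, eq_empty_iff_forall_notMem]
    intro d hd
    have h1 := (mem_filter.1 hd).2
    have h2 := path_col h h1
    rw [h2] at h1
    exact hv h1

end

end Pool.Agent.OBX
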