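import Mathlib
import Pool.Agent.OBX.PrepA

set_option autoImplicit false
set_option linter.unusedSectionVars false
set_option linter.unusedVariables false

/-! PREPB, part C: the new items and members. -/

namespace Pool.Agent.OBX

open Finset Pool.Agent.OBW

section
variable {V C : Type} [Fintype V] [DecidableEq V] [Fintype C] [DecidableEq C]

theorem siz_ext {W W₀ : ℕ} {ms ms' ns : List (Mem V)} {Λ : Multiset ℕ}
    (hlen : ms'.length = ms.length)
    (hget : ∀ i (h : i < ms.length) (h' : i < ms'.length), (ms'[i]).2.2 = (ms[i]).2.2 + 4)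
    (hns : ∀ m ∈ ns, m.2.2 ≤ W) (h10 : 10 ≤ W) (hS : Siz 6 (W₀ + 4) ms Λ) (hΛ : Λ ≠ 0)
    (hl : ∀ l ∈ Λ, W + W₀ ≤ l) : Siz W W₀ (ms' ++ ns) Λ := by
  obtain ⟨l₀, hl₀⟩ := Multiset.exists_mem_of_ne_zero hΛ
  cases ms with
  | nil =>
    have : ms' = [] := List.eq_nil_of_length_eq_zero (by simpa using hlen)
    subst this
    rw [List.nil_append]
    refine ⟨fun m hm => hns m (List.mem_of_mem_tail hm), ?_⟩
    intro m hm
    have hm' : m ∈ ns := List.mem_of_mem_head? hm
    exact ⟨l₀, hl₀, by have := hns m hm'; have := hl l₀ hl₀; omega⟩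
  | cons m ms0 =>
    cases ms' with
    | nil => simp at hlen
    | cons m' ms0' =>
      have hlen' : ms0'.length = ms0.length := by simpa using hlen
      refine ⟨?_, ?_⟩
      · intro x hx
        rw [List.cons_append, List.tail_cons] at hx
        rcases List.mem_append.1 hx with h | h
        · obtain ⟨j, hj, rfl⟩ := List.getElem_of_mem h
          have h1 := hget (j + 1) (by simp; omega) (by simp; omega)
          have h2 := hS.1 (ms0[j]'(by omega)) (by rw [List.tail_cons]; exact List.getElem_mem _)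
          simp only [List.getElem_cons_succ] at h1
          omega
        · exact hns x h
      · intro x hx
        rw [List.cons_append, List.head?_cons, Option.mem_def, Option.some.injEq] at hx
        subst hx
        obtain ⟨l, hl1, hl2⟩ := hS.2 m (by simp)
        have h1 := hget 0 (by simp) (by simp)
        simp only [List.getElem_cons_zero] at h1
        exact ⟨l, hl1, by omega⟩

variable {K : ℕ} {U' U'' : Finset V} {D D' : Finset C} {S R : Finset (Item V C)}
    {ms : C → List (Mem V)} {F₁ Br Fs F12 : Finset (Finset (Item V C))}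
    {col : Finset (Item V C) → C} {a b u v : Finset (Item V C) → V}
    {gB : Finset (Item V C) → Finset (Item V C)} {gM : C → ℕ → Finset (Item V C)}

/-- the pair `(w, c)` belongs to `F12` or to a link -/
def InG (ms : C → List (Mem V)) (Br F12 : Finset (Finset (Item V C)))
    (gB : Finset (Item V C) → Finset (Item V C)) (gM : C → ℕ → Finset (Item V C))
    (c : C) (w : V) : Prop :=
  (∃ q ∈ Br, (Sum.inr (w, c) : Item V C) ∈ gB q) ∨
  (∃ j < (ms c).length, (Sum.inr (w, c) : Item V C) ∈ gM c j) ∨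
  (Sum.inr (w, c) : Item V C) ∈ un F12

theorem prep_build1 (hDrop : DropStmt) (hSplit : SplitStmt) (hExt : ExtStmt) (hTrans : TransStmt)
    (hAdd : AddStmt) [Nonempty V]
    (P : PrepD K U' U'' D D' S R ms F₁ Br Fs F12 col a b u v gB gM) (c : C) (hc : c ∈ D) :
    ∃ (X : Finset (Item V C)) (ms₁ : List (Mem V)),
      (∀ i ∈ X, Kind ms Br F12 col a b gB gM c i) ∧
      (∀ q ∈ Br, col q = c → ∀ i ∈ q, i ≠ Sum.inl s(a q, b q) → i ∈ X) ∧
      (∀ q ∈ F12, col q = c → ∀ i ∈ q, i ≠ Sum.inl s(u q, v q) → i ∈ X) ∧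
      (∀ Λ, Step c (ms c) X Λ ms₁ Λ) ∧ Sep ms₁ ∧
      (∀ m ∈ ms₁, m.1 ≠ m.2.1 ∧ m.1 ∈ U' ∧ m.2.1 ∈ U' ∧ (Sum.inr (m.1, c) : Item V C) ∈ X ∧
        (Sum.inr (m.2.1, c) : Item V C) ∈ X ∧ InG ms Br F12 gB gM c m.1 ∧
        InG ms Br F12 gB gM c m.2.1) ∧
      ms₁.length = (ms c).length + (Br.filter (fun q => col q = c)).card +
        (F12.filter (fun q => col q = c)).card ∧
      (∀ (Λ : Multiset ℕ) (W W₀ : ℕ), Siz 6 (W₀ + 4) (ms c) Λ → Λ ≠ 0 → 10 ≤ W → K + 4 ≤ W →
        (∀ l ∈ Λ, W + W₀ ≤ l) → Siz W W₀ ms₁ Λ) := by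
  classical
  -- members
  obtain ⟨x, y, XM, msM, hM1, hM2, hM3, hM4, hM5⟩ := hExt V C c (ms c) (gM c) 0 (P.lM c hc)
    (fun i hi j hj hij => P.dMM c hc i hi c hc j hj (Or.inr hij))
  -- broken cycles
  have hs : ∀ q, ∃ (x y : V) (g' : Finset (Item V C)), q ∈ Br → x ≠ y ∧ g' ⊆ gB q ∧
      (Sum.inr (x, col q) : Item V C) ∈ g' ∧ (Sum.inr (y, col q) : Item V C) ∈ g' ∧
      (Sum.inr (x, col q) : Item V C) ∈ gB q ∧ (Sum.inr (y, col q) : Item V C) ∈ gB q ∧
      ∀ (s : ℕ) (r : Finset (Item V C)), IsPath s (col q) (a q) (b q) r → Disjoint r g' →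
        IsPath (s + 4) (col q) x y (r ∪ g') := by
    intro q
    by_cases hq : q ∈ Br
    · obtain ⟨x, y, g', h1, h2, h3, h4, h5, h6, h7, h8, h9⟩ :=
        hSplit V C (col q) (a q) (b q) (gB q) (P.lB q hq)
      refine ⟨x, y, g', fun _ => ⟨h1, h2, ?_, ?_, h5, h6, h9⟩⟩
      · rw [h4, mem_erase]; exact ⟨by simp, h5⟩
      · rw [h4, mem_erase]; exact ⟨by simp, h6⟩
    · exact ⟨Classical.arbitrary V, Classical.arbitrary V, ∅, fun h => absurd h hq⟩
  choose xB yB gB' hB using hs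
  set A := Br.filter (fun q => col q = c) with hA
  set B := F12.filter (fun q => col q = c) with hB'
  have hAm : ∀ q ∈ A, q ∈ Br ∧ col q = c := fun q hq => mem_filter.1 hq
  have hBm : ∀ q ∈ B, q ∈ F12 ∧ col q = c := fun q hq => mem_filter.1 hq
  set PB : Finset (Item V C) → Finset (Item V C) :=
    fun q => (q.erase (Sum.inl s(a q, b q))) ∪ gB' q with hPB
  set PF : Finset (Item V C) → Finset (Item V C) := fun q => q.erase (Sum.inl s(u q, v q)) with hPF
  have hdq : ∀ q ∈ Br, ∀ q' ∈ Br, Disjoint (q.erase (Sum.inl s(a q, b q))) (gB' q') := by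
    intro q hq q' hq'
    rw [Finset.disjoint_left]
    intro i hi hi'
    exact not_star (P.mB q' hq' i ((hB q' hq').2.1 hi')).1 (P.brs (mem_un.2 ⟨q, hq, mem_of_mem_erase hi⟩))
  have hpB : ∀ q ∈ Br, IsPath (K + 4) (col q) (xB q) (yB q) (PB q) := by
    intro q hq
    obtain ⟨h1, h2⟩ := hDrop V C K (col q) (a q) (b q) q (P.brp q hq).2.1 (P.brp q hq).2.2
    exact (hB q hq).2.2.2.2.2.2 K _ h2 (hdq q hq q hq)
  have hpF : ∀ q ∈ F12, u q ≠ v q ∧ IsPath 4 (col q) (u q) (v q) (PF q) := by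
    intro q hq
    exact hDrop V C 4 (col q) (u q) (v q) q (P.f12p q hq).2.1 (P.f12p q hq).2.2.2.2
  have hdB : ∀ q ∈ Br, ∀ q' ∈ Br, q ≠ q' → Disjoint (PB q) (PB q') := by
    intro q hq q' hq' hne
    rw [hPB]
    simp only
    rw [Finset.disjoint_union_left, Finset.disjoint_union_right, Finset.disjoint_union_right]
    refine ⟨⟨?_, hdq q hq q' hq'⟩, (hdq q' hq' q hq).symm, ?_⟩
    · exact Finset.disjoint_of_subset_left (erase_subset _ _)
        (Finset.disjoint_of_subset_right (erase_subset _ _) (P.brpd q hq q' hq' hne))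
    · exact Finset.disjoint_of_subset_left (hB q hq).2.1
        (Finset.disjoint_of_subset_right (hB q' hq').2.1 (P.dBB q hq q' hq' hne))
  have hdF : ∀ q ∈ F12, ∀ q' ∈ F12, q ≠ q' → Disjoint (PF q) (PF q') := by
    intro q hq q' hq' hne
    exact Finset.disjoint_of_subset_left (erase_subset _ _)
        (Finset.disjoint_of_subset_right (erase_subset _ _) (P.f12pd q hq q' hq' hne))
  set fB : Finset (Item V C) → Mem V := fun q => (xB q, yB q, K + 4) with hfB
  set fF : Finset (Item V C) → Mem V := fun q => (u q, v q, 4) with hfF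
  have hrB : Real c (A.toList.map fB) (A.biUnion PB) := by
    refine Real.ofFinset A fB PB ?_ ?_
    · intro q hq
      obtain ⟨h1, h2⟩ := hAm q hq
      have := hpB q h1
      rw [h2] at this
      exact this
    · intro q hq q' hq' hne
      exact hdB q (hAm q hq).1 q' (hAm q' hq').1 hne
  have hrF : Real c (B.toList.map fF) (B.biUnion PF) := by
    refine Real.ofFinset B fF PF ?_ ?_
    · intro q hq
      obtain ⟨h1, h2⟩ := hBm q hq
      have := (hpF q h1).2
      rw [h2] at this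
      exact this
    · intro q hq q' hq' hne
      exact hdF q (hBm q hq).1 q' (hBm q' hq').1 hne
  -- kinds
  have kB : ∀ i ∈ A.biUnion PB, (∃ q ∈ Br, col q = c ∧ i ∈ q ∧ i ≠ Sum.inl s(a q, b q)) ∨
      (∃ q ∈ Br, col q = c ∧ i ∈ gB q) := by
    intro i hi
    obtain ⟨q, hq, hi⟩ := mem_biUnion.1 hi
    obtain ⟨h1, h2⟩ := hAm q hq
    rcases mem_union.1 hi with h | h
    · exact Or.inl ⟨q, h1, h2, mem_of_mem_erase h, ne_of_mem_erase h⟩
    · exact Or.inr ⟨q, h1, h2, (hB q h1).2.1 h⟩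
  have kF : ∀ i ∈ B.biUnion PF, ∃ q ∈ F12, col q = c ∧ i ∈ q := by
    intro i hi
    obtain ⟨q, hq, hi⟩ := mem_biUnion.1 hi
    obtain ⟨h1, h2⟩ := hBm q hq
    exact ⟨q, h1, h2, mem_of_mem_erase hi⟩
  have kM : ∀ i ∈ XM, ∃ j < (ms c).length, i ∈ gM c j := by
    intro i hi
    rw [hM2] at hi
    obtain ⟨j, hj, hi⟩ := mem_biUnion.1 hi
    exact ⟨j, mem_range.1 hj, mem_of_mem_erase hi⟩
  have hdBF : Disjoint (A.biUnion PB) (B.biUnion PF) := by
    rw [Finset.disjoint_left]
    intro i hi hi'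
    obtain ⟨q', hq', _, hiq'⟩ := kF i hi'
    rcases kB i hi with ⟨q, hq, _, hiq, hne⟩ | ⟨q, hq, _, hiq⟩
    · exact P.br_f12 hq hiq hne (mem_un.2 ⟨q', hq', hiq'⟩)
    · exact (P.mB q hq i hiq).2.2 (mem_un.2 ⟨q', hq', hiq'⟩)
  have hdM : Disjoint XM (A.biUnion PB ∪ B.biUnion PF) := by
    rw [Finset.disjoint_left]
    intro i hi hi'
    obtain ⟨j, hj, hij⟩ := kM i hi
    rcases mem_union.1 hi' with h | h
    · rcases kB i h with ⟨q, hq, _, hiq, hne⟩ | ⟨q, hq, _, hiq⟩
      · exact not_star (P.mM c hc j hj i hij).1 (P.brs (mem_un.2 ⟨q, hq, hiq⟩))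
      · exact Finset.disjoint_left.1 (P.dBM q hq c hc j hj) hiq hij
    · obtain ⟨q', hq', _, hiq'⟩ := kF i h
      exact (P.mM c hc j hj i hij).2.2 (mem_un.2 ⟨q', hq', hiq'⟩)
  set ns : List (Mem V) := A.toList.map fB ++ B.toList.map fF with hns
  have hstep : Step c (ms c) (XM ∪ (A.biUnion PB ∪ B.biUnion PF)) 0 (msM ++ ns) 0 :=
    hTrans V C c (ms c) msM (msM ++ ns) XM (A.biUnion PB ∪ B.biUnion PF) 0 0 0 hM5
      (hAdd V C c msM ns _ 0 (hrB.append hrF hdBF)) hdM
  -- separation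
  have pM : PIn c msM ((range (ms c).length).biUnion (gM c)) := by
    intro m hm
    obtain ⟨i, hi, rfl⟩ := List.getElem_of_mem hm
    have hi' : i < (ms c).length := by rw [← hM3]; exact hi
    rw [hM4 i hi' hi]
    exact ⟨mem_biUnion.2 ⟨i, mem_range.2 hi', (hM1 i hi').2.2.1⟩,
      mem_biUnion.2 ⟨i, mem_range.2 hi', (hM1 i hi').2.2.2⟩⟩
  have sM : Sep msM := by
    refine ⟨?_, ?_⟩
    · intro m hm
      obtain ⟨i, hi, rfl⟩ := List.getElem_of_mem hm
      have hi' : i < (ms c).length := by rw [← hM3]; exact hi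
      rw [hM4 i hi' hi]
      refine ⟨by simp only; omega, ?_⟩
      constructor
      · intro h; exact absurd h (hM1 i hi').1
      · intro h; simp only at h; omega
    · rw [List.pairwise_iff_getElem]
      intro i j hi hj hij
      have hi' : i < (ms c).length := by rw [← hM3]; exact hi
      have hj' : j < (ms c).length := by rw [← hM3]; exact hj
      rw [hM4 i hi' hi, hM4 j hj' hj]
      have hd := Finset.disjoint_left.1 (P.dMM c hc i hi' c hc j hj' (Or.inr (by omega)))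
      have k1 := (hM1 i hi').2.2
      have k2 := (hM1 j hj').2.2
      refine ⟨?_, ?_, ?_, ?_⟩
      · intro e; simp only at e; exact hd k1.1 (e ▸ k2.1)
      · intro e; simp only at e; exact hd k1.1 (e ▸ k2.2)
      · intro e; simp only at e; exact hd k1.2 (e ▸ k2.1)
      · intro e; simp only at e; exact hd k1.2 (e ▸ k2.2)
  have qB : ∀ q ∈ A, (Sum.inr (xB q, c) : Item V C) ∈ gB q ∧ (Sum.inr (yB q, c) : Item V C) ∈ gB q ∧
      (Sum.inr (xB q, c) : Item V C) ∈ gB' q ∧ (Sum.inr (yB q, c) : Item V C) ∈ gB' q ∧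
      xB q ≠ yB q := by
    intro q hq
    obtain ⟨h1, h2⟩ := hAm q hq
    have h3 := hB q h1
    rw [h2] at h3
    exact ⟨h3.2.2.2.2.1, h3.2.2.2.2.2.1, h3.2.2.1, h3.2.2.2.1, h3.1⟩
  have qF : ∀ q ∈ B, (Sum.inr (u q, c) : Item V C) ∈ q ∧ (Sum.inr (v q, c) : Item V C) ∈ q ∧
      u q ≠ v q ∧ u q ∈ U' ∧ v q ∈ U' := by
    intro q hq
    obtain ⟨h1, h2⟩ := hBm q hq
    have h3 := P.f12p q h1
    rw [h2] at h3
    have h4 := h3.2.1.ends h3.2.2.2.2
    exact ⟨h4.1, h4.2, (hpF q h1).1, h3.2.2.1, h3.2.2.2.1⟩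
  have sB : Sep (A.toList.map fB) := by
    refine sep_toList (c := c) A fB gB ?_ ?_
    · intro q hq
      obtain ⟨h1, h2, h3, h4, h5⟩ := qB q hq
      refine ⟨by simp only [hfB]; omega, ?_, h1, h2⟩
      constructor
      · intro h; exact absurd h h5
      · intro h; simp only [hfB] at h; omega
    · intro q hq q' hq' hne
      exact P.dBB q (hAm q hq).1 q' (hAm q' hq').1 hne
  have sF : Sep (B.toList.map fF) := by
    refine sep_toList (c := c) B fF id ?_ ?_
    · intro q hq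
      obtain ⟨h1, h2, h3, h4, h5⟩ := qF q hq
      refine ⟨by simp only [hfF]; omega, ?_, h1, h2⟩
      constructor
      · intro h; exact absurd h h3
      · intro h; simp only [hfF] at h; omega
    · intro q hq q' hq' hne
      exact P.f12pd q (hBm q hq).1 q' (hBm q' hq').1 hne
  have pB : PIn c (A.toList.map fB) (A.biUnion gB) :=
    pin_toList A fB gB fun q hq => ⟨(qB q hq).1, (qB q hq).2.1⟩
  have pF : PIn c (B.toList.map fF) (B.biUnion id) :=
    pin_toList B fF id fun q hq => ⟨(qF q hq).1, (qF q hq).2.1⟩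
  have sN : Sep ns := by
    refine Sep.append' sB sF pB pF ?_
    rw [Finset.disjoint_left]
    intro i hi hi'
    obtain ⟨q, hq, hi⟩ := mem_biUnion.1 hi
    obtain ⟨q', hq', hi'⟩ := mem_biUnion.1 hi'
    exact (P.mB q (hAm q hq).1 i hi).2.2 (mem_un.2 ⟨q', (hBm q' hq').1, hi'⟩)
  have sAll : Sep (msM ++ ns) := by
    refine Sep.append' sM sN pM (pB.append pF) ?_
    rw [Finset.disjoint_left]
    intro i hi hi'
    obtain ⟨j, hj, hi⟩ := mem_biUnion.1 hi
    have hj' := mem_range.1 hj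
    rcases mem_union.1 hi' with h | h
    · obtain ⟨q, hq, h⟩ := mem_biUnion.1 h
      exact Finset.disjoint_left.1 (P.dBM q (hAm q hq).1 c hc j hj') h hi
    · obtain ⟨q, hq, h⟩ := mem_biUnion.1 h
      exact (P.mM c hc j hj' i hi).2.2 (mem_un.2 ⟨q, (hBm q hq).1, h⟩)
  refine ⟨XM ∪ (A.biUnion PB ∪ B.biUnion PF), msM ++ ns, ?_, ?_, ?_, ?_, sAll, ?_, ?_, ?_⟩
  · intro i hi
    rcases mem_union.1 hi with h | h
    · exact Or.inr (Or.inr (Or.inl (kM i h)))
    · rcases mem_union.1 h with h | h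
      · rcases kB i h with h | h
        · exact Or.inl h
        · exact Or.inr (Or.inl h)
      · exact Or.inr (Or.inr (Or.inr (kF i h)))
  · intro q hq hqc i hi hne
    refine mem_union_right _ (mem_union_left _ (mem_biUnion.2 ⟨q, mem_filter.2 ⟨hq, hqc⟩, ?_⟩))
    exact mem_union_left _ (mem_erase.2 ⟨hne, hi⟩)
  · intro q hq hqc i hi hne
    refine mem_union_right _ (mem_union_right _ (mem_biUnion.2 ⟨q, mem_filter.2 ⟨hq, hqc⟩, ?_⟩))
    exact mem_erase.2 ⟨hne, hi⟩
  · intro Λ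
    have := hstep.lift Λ
    rwa [zero_add] at this
  · intro m hm
    rcases List.mem_append.1 hm with h | h
    · obtain ⟨i, hi, rfl⟩ := List.getElem_of_mem h
      have hi' : i < (ms c).length := by rw [← hM3]; exact hi
      rw [hM4 i hi' hi]
      obtain ⟨h1, h2, h3, h4⟩ := hM1 i hi'
      refine ⟨h1, (mem_sdiff.1 (P.vM c hc i hi' _ _ h3)).1, (mem_sdiff.1 (P.vM c hc i hi' _ _ h4)).1,
        ?_, ?_, Or.inr (Or.inl ⟨i, hi', h3⟩), Or.inr (Or.inl ⟨i, hi', h4⟩)⟩
      · rw [hM2]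
        exact mem_union_left _ (mem_biUnion.2 ⟨i, mem_range.2 hi', mem_erase.2 ⟨by simp, h3⟩⟩)
      · rw [hM2]
        exact mem_union_left _ (mem_biUnion.2 ⟨i, mem_range.2 hi', mem_erase.2 ⟨by simp, h4⟩⟩)
    · rcases List.mem_append.1 h with h | h
      · obtain ⟨q, hq, rfl⟩ := List.mem_map.1 h
        have hqA := mem_toList.1 hq
        obtain ⟨h1, h2, h3, h4, h5⟩ := qB q hqA
        have hqB := (hAm q hqA).1
        refine ⟨h5, (mem_sdiff.1 (P.vB q hqB _ _ h1)).1, (mem_sdiff.1 (P.vB q hqB _ _ h2)).1,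
          ?_, ?_, Or.inl ⟨q, hqB, h1⟩, Or.inl ⟨q, hqB, h2⟩⟩
        · exact mem_union_right _ (mem_union_left _ (mem_biUnion.2 ⟨q, hqA, mem_union_right _ h3⟩))
        · exact mem_union_right _ (mem_union_left _ (mem_biUnion.2 ⟨q, hqA, mem_union_right _ h4⟩))
      · obtain ⟨q, hq, rfl⟩ := List.mem_map.1 h
        have hqA := mem_toList.1 hq
        obtain ⟨h1, h2, h3, h4, h5⟩ := qF q hqA
        have hqB := (hBm q hqA).1
        refine ⟨h3, h4, h5, ?_, ?_, Or.inr (Or.inr (mem_un.2 ⟨q, hqB, h1⟩)),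
          Or.inr (Or.inr (mem_un.2 ⟨q, hqB, h2⟩))⟩
        · exact mem_union_right _ (mem_union_right _ (mem_biUnion.2 ⟨q, hqA, mem_erase.2 ⟨by simp, h1⟩⟩))
        · exact mem_union_right _ (mem_union_right _ (mem_biUnion.2 ⟨q, hqA, mem_erase.2 ⟨by simp, h2⟩⟩))
  · rw [List.length_append, hM3, hns, List.length_append, List.length_map, List.length_map,
      Finset.length_toList, Finset.length_toList]
    omega
  · intro Λ W W₀ h1 h2 h3 h4 h5
    refine siz_ext hM3 ?_ ?_ h3 h1 h2 h5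
    · intro i hi hi'
      rw [hM4 i hi hi']
    · intro m hm
      rcases List.mem_append.1 hm with h | h
      · obtain ⟨q, _, rfl⟩ := List.mem_map.1 h
        exact h4
      · obtain ⟨q, _, rfl⟩ := List.mem_map.1 h
        simp only [hfF]; omega

end

end Pool.Agent.OBX
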