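import Mathlib
import Pool.Agent.OBX.PrepC

set_option autoImplicit false
set_option linter.unusedSectionVars false
set_option linter.unusedVariables false

/-! PREPB, part O: the outputs. -/

namespace Pool.Agent.OBX

open Finset Pool.Agent.OBW

section
variable {V C : Type} [Fintype V] [DecidableEq V] [Fintype C] [DecidableEq C]

/-- released edges -/
def relE (Br : Finset (Finset (Item V C))) (a b : Finset (Item V C) → V) : Finset (Item V C) :=
  Br.image (fun q => (Sum.inl s(a q, b q) : Item V C))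

/-- the leftover before the greedy step -/
noncomputable def loE (U' : Finset V) (D' : Finset C) (S R : Finset (Item V C))
    (F₁ Br : Finset (Finset (Item V C))) (a b : Finset (Item V C) → V) : Finset (Item V C) :=
  (starS U' D' S R \ (un F₁ ∪ un Br)) ∪ relE Br a b

/-- conclusion of PREPB for given data -/
def PrepConc (p ε μ θ : ℝ) (L₁ W : ℕ) (U U' U'' : Finset V) (D D' D'' : Finset C)
    (S : Finset (Item V C)) (N : ℕ → ℕ) (ms : C → List (Mem V)) : Prop :=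
      ∃ (F : Finset (Finset (Item V C))) (X : C → Finset (Item V C)) (ms₁ : C → List (Mem V)),
        (∀ q ∈ F, q ⊆ S ∧ ∃ l ∈ Icc 3 L₁, ∃ c ∈ D, IsPiece l c q) ∧ PD F ∧
        (∀ c ∈ D, ∀ l ∈ Icc 3 L₁, cnt F l c = N l) ∧
        (∀ c ∈ D, X c ⊆ S ∧ Disjoint (X c) (un F)) ∧
        (∀ c ∈ D, ∀ d ∈ D, c ≠ d → Disjoint (X c) (X d)) ∧
        (∀ c ∈ D, ∀ Λ, Step c (ms c) (X c) Λ (ms₁ c) Λ) ∧
        (∀ c ∈ D, ∀ (Λ : Multiset ℕ) (W₀ : ℕ), Siz 6 (W₀ + 4) (ms c) Λ → Λ ≠ 0 →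
          (∀ l ∈ Λ, W + W₀ ≤ l) → Siz W W₀ (ms₁ c) Λ) ∧
        LinkHyp p (ε / 2) μ 1 U U' U'' D D' D'' (S \ (un F ∪ uC D X)) ∧
        (∀ c ∈ D, MemIn U' (S \ (un F ∪ uC D X)) c (ms₁ c) ∧ ((ms₁ c).length : ℝ) ≤ θ * U.card) ∧
        (∀ v, (∑ c ∈ D, (ends (ms₁ c) v : ℝ)) ≤ θ * U.card) ∧
        (∀ v ∈ U', ((nb (un F ∪ uC D X) v ∩ U').card : ℝ) ≤ θ * U.card) ∧
        (∀ v ∈ U', ((cl (un F ∪ uC D X) v ∩ D').card : ℝ) ≤ θ * U.card) ∧
        (∀ c ∈ D', ((vt (un F ∪ uC D X) c ∩ U').card : ℝ) ≤ θ * U.card) ∧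
        (∀ u ∈ U'', ∀ v ∈ U'', (Sum.inl s(u, v) : Item V C) ∉ un F ∪ uC D X) ∧
        (∀ u ∈ U'', ∀ c ∈ D'', (Sum.inr (u, c) : Item V C) ∉ un F ∪ uC D X)

variable {K : ℕ} {U' U'' : Finset V} {D D' : Finset C} {S R : Finset (Item V C)}
    {ms : C → List (Mem V)} {F₁ Br Fs F12 : Finset (Finset (Item V C))}
    {col : Finset (Item V C) → C} {a b u v : Finset (Item V C) → V}
    {gB : Finset (Item V C) → Finset (Item V C)} {gM : C → ℕ → Finset (Item V C)}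

theorem prep_out (hDrop : DropStmt) (hSplit : SplitStmt) (hExt : ExtStmt) (hTrans : TransStmt)
    (hAdd : AddStmt) [Nonempty V] {δ ε η ξ μ p ζ θ θ₁ γ : ℝ} {U : Finset V} {D'' : Finset C}
    {N : ℕ → ℕ} {L₁ W : ℕ} {G : Finset (Item V C)}
    (hε : 0 < ε) (hμ0 : 0 < μ) (hμ : μ ≤ 1 / 2000) (hμε : μ ≤ ε / 16) (hη0 : 0 ≤ η) (hη : η ≤ ε / 16)
    (hp : 0 < p) (hp1 : p ≤ 1) (hθ : 0 ≤ θ₁) (hγ : 0 ≤ γ) (hζ : 0 ≤ ζ)
    (hτ : (3 * θ₁ + γ) * 2 / μ + ζ ≤ p ^ 2 * ε / 200) (hm : 2 ≤ μ * U.card) (hθθ : 3 * θ₁ ≤ θ)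
    (hSt : Stage δ ε η ξ μ U U' D D' S)
    (hU'' : U'' ⊆ U') (hD'' : D'' ⊆ D') (hU''c : (U''.card : ℝ) ≤ μ * U'.card)
    (hRes : Res p ζ μ U U' U'' D D' D'' S R)
    (hbal : ∀ v ∈ U, (nb S v).card = 2 * (cl S v).card + ∑ c ∈ D, ends (ms c) v)
    (P : PrepD K U' U'' D D' S R ms F₁ Br Fs F12 col a b u v gB gM)
    (hG : (∀ q ∈ Br, gB q ⊆ G) ∧ ∀ c ∈ D, ∀ j < (ms c).length, gM c j ⊆ G)
    (hcov1 : ∀ x ∈ U \ U', ∀ y ∈ U \ U', (Sum.inl s(x, y) : Item V C) ∈ loE U' D' S R F₁ Br a b →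
      (Sum.inl s(x, y) : Item V C) ∈ un F12)
    (hcov2 : ∀ x ∈ U \ U', ∀ c ∈ D \ D', (Sum.inr (x, c) : Item V C) ∈ loE U' D' S R F₁ Br a b →
      (Sum.inr (x, c) : Item V C) ∈ un F12)
    (hLs : (∀ v, ((nb (un Fs) v).card : ℝ) ≤ θ₁ * U.card ∧ ((cl (un Fs) v).card : ℝ) ≤ θ₁ * U.card) ∧
      ∀ c, ((vt (un Fs) c).card : ℝ) ≤ θ₁ * U.card)
    (hL12 : (∀ v, ((nb (un F12) v).card : ℝ) ≤ θ₁ * U.card ∧ ((cl (un F12) v).card : ℝ) ≤ θ₁ * U.card) ∧
      ∀ c, ((vt (un F12) c).card : ℝ) ≤ θ₁ * U.card)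
    (hLG : (∀ v, ((nb G v).card : ℝ) ≤ θ₁ * U.card ∧ ((cl G v).card : ℝ) ≤ θ₁ * U.card) ∧
      ∀ c, ((vt G c).card : ℝ) ≤ θ₁ * U.card)
    (hLv : ∀ v ∈ U, ((nb (loE U' D' S R F₁ Br a b) v).card : ℝ) ≤ γ * U.card ∧
      ((cl (loE U' D' S R F₁ Br a b) v).card : ℝ) ≤ γ * U.card)
    (hLc : ∀ c ∈ D, ((vt (loE U' D' S R F₁ Br a b) c).card : ℝ) ≤ γ * U.card)
    (hF1p : ∀ q ∈ F₁, ∃ l ∈ Icc 3 L₁, ∃ c ∈ D, IsPiece l c q)
    (hFsp : ∀ q ∈ Fs, ∃ l ∈ Icc 3 L₁, ∃ c ∈ D, IsPiece l c q)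
    (hcnt : ∀ c ∈ D, ∀ l ∈ Icc 3 L₁, cnt F₁ l c + cnt Fs l c = N l)
    (hlen : ∀ c ∈ D, ((ms c).length : ℝ) + ((Br.filter (fun q => col q = c)).card : ℝ) +
        ((F12.filter (fun q => col q = c)).card : ℝ) ≤ θ * U.card)
    (hW10 : 10 ≤ W) (hWK : K + 4 ≤ W) :
    PrepConc p ε μ θ L₁ W U U' U'' D D' D'' S N ms := by
  classical
  have hbuild : ∀ c, ∃ (X : Finset (Item V C)) (ms₁ : List (Mem V)), c ∈ D →
      (∀ i ∈ X, Kind ms Br F12 col a b gB gM c i) ∧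
      (∀ q ∈ Br, col q = c → ∀ i ∈ q, i ≠ Sum.inl s(a q, b q) → i ∈ X) ∧
      (∀ q ∈ F12, col q = c → ∀ i ∈ q, i ≠ Sum.inl s(u q, v q) → i ∈ X) ∧
      (∀ Λ, Step c (ms c) X Λ ms₁ Λ) ∧ Sep ms₁ ∧
      (∀ m ∈ ms₁, m.1 ≠ m.2.1 ∧ m.1 ∈ U' ∧ m.2.1 ∈ U' ∧ (Sum.inr (m.1, c) : Item V C) ∈ X ∧
        (Sum.inr (m.2.1, c) : Item V C) ∈ X ∧ InG ms Br F12 gB gM c m.1 ∧
        InG ms Br F12 gB gM c m.2.1) ∧
      ms₁.length = (ms c).length + (Br.filter (fun q => col q = c)).card +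
        (F12.filter (fun q => col q = c)).card ∧
      (∀ (Λ : Multiset ℕ) (W W₀ : ℕ), Siz 6 (W₀ + 4) (ms c) Λ → Λ ≠ 0 → 10 ≤ W → K + 4 ≤ W →
        (∀ l ∈ Λ, W + W₀ ≤ l) → Siz W W₀ ms₁ Λ) := by
    intro c
    by_cases hc : c ∈ D
    · obtain ⟨X, ms₁, h⟩ := prep_build1 hDrop hSplit hExt hTrans hAdd P c hc
      exact ⟨X, ms₁, fun _ => h⟩
    · exact ⟨∅, [], fun h => absurd h hc⟩
  choose X ms₁ hX using hbuild
  have hK : ∀ c ∈ D, ∀ i ∈ X c, Kind ms Br F12 col a b gB gM c i := fun c hc => (hX c hc).1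
  have hdX : ∀ c ∈ D, ∀ d ∈ D, c ≠ d → Disjoint (X c) (X d) := by
    intro c hc d hd hcd
    rw [Finset.disjoint_left]
    intro i hi hi'
    exact P.kind_disj hc hd hcd (hK c hc i hi) (hK d hd i hi')
  have hXS : ∀ c ∈ D, X c ⊆ S := fun c hc i hi => P.kind_S hc (hK c hc i hi)
  set F : Finset (Finset (Item V C)) := F₁ ∪ Fs with hF
  have hFun : un F = un F₁ ∪ un Fs := un_union F₁ Fs
  have hXF : ∀ c ∈ D, Disjoint (X c) (un F) := by
    intro c hc
    rw [Finset.disjoint_left]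
    intro i hi
    exact P.kind_F hc (hK c hc i hi)
  have hd1s : Disjoint (un F₁) (un Fs) := by
    rw [Finset.disjoint_left]
    intro i hi hi'
    exact not_star (P.fsm i hi') (P.f1s hi)
  have hFPD : PD F := P.f1pd.union P.fspd hd1s
  have hFsS : un Fs ⊆ S := fun i hi => in_S P.rs (P.fsm i hi)
  have hF1S : un F₁ ⊆ S := fun i hi => (mem_starS.1 (P.f1s hi)).1
  have hFS : un F ⊆ S := by rw [hFun]; exact union_subset hF1S hFsS
  have hFp : ∀ q ∈ F, ∃ l ∈ Icc 3 L₁, ∃ c ∈ D, IsPiece l c q := by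
    intro q hq
    rcases mem_union.1 hq with h | h
    · exact hF1p q h
    · exact hFsp q h
  have hFp' : ∀ q ∈ F, ∃ l c, IsPiece l c q := by
    intro q hq
    obtain ⟨l, _, c, _, h⟩ := hFp q hq
    exact ⟨l, c, h⟩
  set Y : Finset (Item V C) := uC D X with hY
  have hYS : Y ⊆ S := by
    intro i hi
    obtain ⟨c, hc, hi⟩ := mem_uC.1 hi
    exact hXS c hc hi
  have hYF : Disjoint (un F) Y := by
    rw [Finset.disjoint_left]
    intro i hi hi'
    obtain ⟨c, hc, hi'⟩ := mem_uC.1 hi'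
    exact Finset.disjoint_left.1 (hXF c hc) hi' hi
  -- items of Y
  have hYk : ∀ i ∈ Y, (i ∈ un Br ∧ (∀ q ∈ Br, i ≠ Sum.inl s(a q, b q))) ∨ i ∈ G ∨ i ∈ un F12 := by
    intro i hi
    obtain ⟨c, hc, hi⟩ := mem_uC.1 hi
    rcases hK c hc i hi with ⟨q, hq, _, hiq, hne⟩ | ⟨q, hq, _, hiq⟩ | ⟨j, hj, hij⟩ | ⟨q, hq, _, hiq⟩
    · left
      refine ⟨mem_un.2 ⟨q, hq, hiq⟩, ?_⟩
      intro q' hq' e
      have : i ∈ q' := e ▸ (P.brp q' hq').2.2
      by_cases h : q = q'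
      · subst h; exact hne e
      · exact Finset.disjoint_left.1 (P.brpd q hq q' hq' h) hiq this
    · exact Or.inr (Or.inl (hG.1 q hq hiq))
    · exact Or.inr (Or.inl (hG.2 c hc j hj hij))
    · exact Or.inr (Or.inr (mem_un.2 ⟨q, hq, hiq⟩))
  have hYbr : ∀ q ∈ Br, ∀ i ∈ q, i ≠ Sum.inl s(a q, b q) → i ∈ Y := by
    intro q hq i hi hne
    exact mem_uC.2 ⟨col q, (P.brp q hq).1, (hX _ (P.brp q hq).1).2.1 q hq rfl i hi hne⟩
  have hY12 : ∀ q ∈ F12, ∀ i ∈ q, i ≠ Sum.inl s(u q, v q) → i ∈ Y := by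
    intro q hq i hi hne
    exact mem_uC.2 ⟨col q, (P.f12p q hq).1, (hX _ (P.f12p q hq).1).2.2.1 q hq rfl i hi hne⟩
  set T : Finset (Item V C) := S \ (un F ∪ Y) with hT
  have hTS : T ⊆ S := sdiff_subset
  have hmT : ∀ i, i ∈ T ↔ i ∈ S ∧ i ∉ un F₁ ∧ i ∉ un Fs ∧ i ∉ Y := by
    intro i
    rw [hT, mem_sdiff, mem_union, hFun, mem_union]
    tauto
  -- kind of the items of T outside R and `inn`
  have hTlo : ∀ i ∈ T, i ∉ R → ¬ inn U' D' i → i ∈ loE U' D' S R F₁ Br a b := by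
    intro i hi h1 h2
    obtain ⟨h3, h4, h5, h6⟩ := (hmT i).1 hi
    have hs : i ∈ starS U' D' S R := mem_starS.2 ⟨h3, h1, h2⟩
    unfold loE
    by_cases h7 : i ∈ un Br
    · obtain ⟨q, hq, hiq⟩ := mem_un.1 h7
      by_cases h8 : i = Sum.inl s(a q, b q)
      · exact mem_union_right _ (mem_image.2 ⟨q, hq, h8.symm⟩)
      · exact absurd (hYbr q hq i hiq h8) h6
    · refine mem_union_left _ (mem_sdiff.2 ⟨hs, ?_⟩)
      rw [mem_union, not_or]
      exact ⟨h4, h7⟩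
  set Wu : Finset (Item V C) := un Fs ∪ un F12 ∪ G with hWu
  have hWv : ∀ v ∈ U, ((nb Wu v).card : ℝ) ≤ (3 * θ₁) * U.card ∧ ((cl Wu v).card : ℝ) ≤ (3 * θ₁) * U.card := by
    intro w hw
    have e1 : nb Wu w = nb (un Fs) w ∪ nb (un F12) w ∪ nb G w := by rw [hWu, nb_union, nb_union]
    have e2 : cl Wu w = cl (un Fs) w ∪ cl (un F12) w ∪ cl G w := by rw [hWu, cl_union, cl_union]
    have h1 := card_le_add3 (Finset.Subset.refl (nb (un Fs) w ∪ nb (un F12) w ∪ nb G w))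
    have h2 := card_le_add3 (Finset.Subset.refl (cl (un Fs) w ∪ cl (un F12) w ∪ cl G w))
    rw [e1, e2]
    have a1 := hLs.1 w
    have a2 := hL12.1 w
    have a3 := hLG.1 w
    have e3 : 3 * θ₁ * (U.card : ℝ) = θ₁ * U.card + θ₁ * U.card + θ₁ * U.card := by ring
    rw [e3]
    exact ⟨by linarith [a1.1, a2.1, a3.1], by linarith [a1.2, a2.2, a3.2]⟩
  have hWc : ∀ c, ((vt Wu c).card : ℝ) ≤ (3 * θ₁) * U.card := by
    intro c
    have e1 : vt Wu c = vt (un Fs) c ∪ vt (un F12) c ∪ vt G c := by rw [hWu, vt_union, vt_union]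
    have h1 := card_le_add3 (Finset.Subset.refl (vt (un Fs) c ∪ vt (un F12) c ∪ vt G c))
    rw [e1]
    have a1 := hLs.2 c
    have a2 := hL12.2 c
    have a3 := hLG.2 c
    have e3 : 3 * θ₁ * (U.card : ℝ) = θ₁ * U.card + θ₁ * U.card + θ₁ * U.card := by ring
    rw [e3]
    linarith
  -- the items of `un F ∪ Y` inside `(U', D')` are in `Wu`
  have hinW : ∀ i ∈ un F ∪ Y, (i ∈ starS U' D' S R) ∨ i ∈ Wu := by
    intro i hi
    rcases mem_union.1 hi with h | h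
    · rw [hFun] at h
      rcases mem_union.1 h with h | h
      · exact Or.inl (P.f1s h)
      · exact Or.inr (mem_union_left _ (mem_union_left _ h))
    · rcases hYk i h with h | h | h
      · exact Or.inl (P.brs h.1)
      · exact Or.inr (mem_union_right _ h)
      · exact Or.inr (mem_union_left _ (mem_union_right _ h))
  have hso : ∀ i ∈ un F ∪ Y, i ∈ starS U' D' S R ∨ i ∈ R ∨ insOK U' U'' D' S i := by
    intro i hi
    rcases mem_union.1 hi with h | h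
    · rw [hFun] at h
      rcases mem_union.1 h with h | h
      · exact Or.inl (P.f1s h)
      · exact Or.inr (P.fsm i h)
    · obtain ⟨c, hc, hi⟩ := mem_uC.1 h
      rcases hK c hc i hi with ⟨q, hq, _, hiq, hne⟩ | ⟨q, hq, _, hiq⟩ | ⟨j, hj, hij⟩ | ⟨q, hq, _, hiq⟩
      · exact Or.inl (P.brs (mem_un.2 ⟨q, hq, hiq⟩))
      · exact Or.inr (P.mB q hq i hiq).1
      · exact Or.inr (P.mM c hc j hj i hij).1
      · rcases P.f12m i (mem_un.2 ⟨q, hq, hiq⟩) with h1 | ⟨q', hq', h1⟩ | h1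
        · exact Or.inl h1.1
        · exact Or.inl (P.brs (mem_un.2 ⟨q', hq', h1 ▸ (P.brp q' hq').2.2⟩))
        · exact Or.inr h1
  have hends0 : ∀ x ∈ U \ U', ∀ c ∈ D, ends (ms₁ c) x = 0 := by
    intro x hx c hc
    apply ends_eq_zero
    intro m hm
    have h1 := (hX c hc).2.2.2.2.2.1 m hm
    have h2 := (mem_sdiff.1 hx).2
    exact ⟨fun e => h2 (e ▸ h1.2.1), fun e => h2 (e ▸ h1.2.2.1)⟩
  have hLH : LinkHyp p (ε / 2) μ 1 U U' U'' D D' D'' T := by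
    refine linkHyp_of (W := Wu) (Lo := loE U' D' S R F₁ Br a b) hε hμ0 hμ hμε hη0 hη hp hp1
      (by linarith) hγ hζ hτ hm hSt hU'' hD'' hU''c hRes hTS ?_ ?_ hWv (fun c _ => hWc c) hLv hLc
      ?_ ?_ ?_ ?_
    · intro i hi
      by_cases h1 : i ∈ R
      · exact Or.inl h1
      by_cases h2 : inn U' D' i
      · exact Or.inr (Or.inl h2)
      · exact Or.inr (Or.inr (hTlo i hi h1 h2))
    · intro i hi hW
      have hns : i ∉ starS U' D' S R := by
        rcases hi with h | h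
        · exact not_star_of_R h
        · exact fun h' => (mem_starS.1 h').2.2 h.2
      have hiS : i ∈ S := by
        rcases hi with h | h
        · exact hRes.sub h
        · exact h.1
      rw [hT, mem_sdiff]
      refine ⟨hiS, fun h => ?_⟩
      rcases hinW i h with h | h
      · exact hns h
      · exact hW h
    · intro x hx y hy hi
      have hx' := (mem_sdiff.1 hx).2
      have hy' := (mem_sdiff.1 hy).2
      have h1 := hTlo _ hi (by
        intro hR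
        rcases hRes.kE x y hR with h | h
        · exact hx' h.1
        · exact hy' h.1) (by rw [inn_inl]; exact fun h => hx' h.1)
      obtain ⟨q, hq, hiq⟩ := mem_un.1 (hcov1 x hx y hy h1)
      refine ((hmT _).1 hi).2.2.2 (hY12 q hq _ hiq ?_)
      intro e
      have e' := Sum.inl.inj e
      rw [Sym2.eq_iff] at e'
      have h2 := P.f12p q hq
      rcases e' with ⟨e1, _⟩ | ⟨e1, _⟩
      · exact hx' (e1 ▸ h2.2.2.1)
      · exact hx' (e1 ▸ h2.2.2.2.1)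
    · intro x hx c hc hi
      have hx' := (mem_sdiff.1 hx).2
      have hc' := (mem_sdiff.1 hc).2
      have h1 := hTlo _ hi (by
        intro hR
        rcases hRes.kP x c hR with h | h
        · exact hc' h.2
        · exact hx' h.1) (by rw [inn_inr]; exact fun h => hx' h.1)
      obtain ⟨q, hq, hiq⟩ := mem_un.1 (hcov2 x hx c hc h1)
      exact ((hmT _).1 hi).2.2.2 (hY12 q hq _ hiq (by simp))
    · intro x hx
      have hxU := (mem_sdiff.1 hx).1
      have h1 := nb_sdiff_card (union_subset hFS hYS) x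
      have h2 := cl_sdiff_card (union_subset hFS hYS) x
      have h3 := un_bal hFPD hFp' x
      have h4 := hbal x hxU
      have h5 := uC_bal (D := D) (X := X) (ms := ms) (ms' := ms₁) (Λ := fun _ => 0) (Λ' := fun _ => 0)
        (fun c hc => (hX c hc).2.2.2.1 0) hdX x
      have h6 : ∑ c ∈ D, ends (ms₁ c) x = 0 := Finset.sum_eq_zero fun c hc => hends0 x hx c hc
      rw [← hT, nb_union, card_union_of_disjoint (nb_disj hYF x)] at h1
      rw [← hT, cl_union, card_union_of_disjoint (cl_disj hYF x)] at h2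
      rw [h6] at h5
      rw [← hY] at h5
      omega
    · intro c hc
      exact one_dvd _
  refine ⟨F, X, ms₁, ?_, hFPD, ?_, ?_, hdX, ?_, ?_, hLH, ?_, ?_, ?_, ?_, ?_, ?_, ?_⟩
  · intro q hq
    exact ⟨(subset_un hq).trans hFS, hFp q hq⟩
  · intro c hc l hl
    rw [hF, cnt_union hd1s, hcnt c hc l hl]
  · intro c hc
    exact ⟨hXS c hc, hXF c hc⟩
  · intro c hc
    exact (hX c hc).2.2.2.1
  · intro c hc Λ W₀ h1 h2 h3
    exact (hX c hc).2.2.2.2.2.2.2 Λ W W₀ h1 h2 hW10 hWK h3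
  · intro c hc
    obtain ⟨_, _, _, _, h5, h6, h7, _⟩ := hX c hc
    refine ⟨⟨h5, ?_⟩, ?_⟩
    · intro m hm
      obtain ⟨k1, k2, k3, k4, k5, _⟩ := h6 m hm
      refine ⟨k1, k2, k3, ?_, ?_⟩
      · intro h
        exact ((hmT _).1 h).2.2.2 (sub_uC hc k4)
      · intro h
        exact ((hmT _).1 h).2.2.2 (sub_uC hc k5)
    · rw [h7]
      push_cast
      exact hlen c hc
  · intro w
    have h1 : ∀ c ∈ D, (ends (ms₁ c) w : ℝ) ≤ if c ∈ cl (un F12 ∪ G) w then 1 else 0 := by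
      intro c hc
      obtain ⟨_, _, _, _, h5, h6, h7, _⟩ := hX c hc
      by_cases h0 : ends (ms₁ c) w = 0
      · rw [h0]
        split_ifs <;> simp
      · obtain ⟨m, hm, hmw⟩ := exists_of_ends_pos (Nat.pos_of_ne_zero h0)
        have h8 : ends (ms₁ c) w ≤ 1 := ends_le_one h5 (fun m hm => (h6 m hm).1) w
        have h9 : InG ms Br F12 gB gM c w := by
          rcases hmw with e | e
          · exact e ▸ (h6 m hm).2.2.2.2.2.1
          · exact e ▸ (h6 m hm).2.2.2.2.2.2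
        have h10 : c ∈ cl (un F12 ∪ G) w := by
          rw [mem_cl, mem_union]
          rcases h9 with ⟨q, hq, h⟩ | ⟨j, hj, h⟩ | h
          · exact Or.inr (hG.1 q hq h)
          · exact Or.inr (hG.2 c hc j hj h)
          · exact Or.inl h
        rw [if_pos h10]
        exact_mod_cast h8
    have h2 : (∑ c ∈ D, (ends (ms₁ c) w : ℝ)) ≤ ((cl (un F12 ∪ G) w).card : ℝ) := by
      refine (Finset.sum_le_sum h1).trans ?_
      rw [← Finset.sum_filter, Finset.sum_const, nsmul_eq_mul, mul_one]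
      apply card_le_r
      intro c hc
      exact (mem_filter.1 hc).2
    have h3 : ((cl (un F12 ∪ G) w).card : ℝ) ≤ (cl (un F12) w).card + (cl G w).card := by
      rw [cl_union]
      exact card_le_add2 (Finset.Subset.refl _)
    have a2 := (hL12.1 w).2
    have a3 := (hLG.1 w).2
    have a4 : 3 * θ₁ * (U.card : ℝ) ≤ θ * U.card :=
      mul_le_mul_of_nonneg_right hθθ (Nat.cast_nonneg _)
    have a5 : 0 ≤ θ₁ * (U.card : ℝ) := by positivity
    linarith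
  · intro w hw
    have h1 : nb (un F ∪ Y) w ∩ U' ⊆ nb Wu w := by
      intro x hx
      rw [mem_inter, mem_nb] at hx
      rw [mem_nb]
      rcases hinW _ hx.1 with h | h
      · exact absurd (inn_inl.2 ⟨hw, hx.2⟩) (mem_starS.1 h).2.2
      · exact h
    have h2 := card_le_r h1
    have h3 := (hWv w (hSt.subU hw)).1
    have a4 : 3 * θ₁ * (U.card : ℝ) ≤ θ * U.card :=
      mul_le_mul_of_nonneg_right hθθ (Nat.cast_nonneg _)
    linarith
  · intro w hw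
    have h1 : cl (un F ∪ Y) w ∩ D' ⊆ cl Wu w := by
      intro x hx
      rw [mem_inter, mem_cl] at hx
      rw [mem_cl]
      rcases hinW _ hx.1 with h | h
      · exact absurd (inn_inr.2 ⟨hw, hx.2⟩) (mem_starS.1 h).2.2
      · exact h
    have h2 := card_le_r h1
    have h3 := (hWv w (hSt.subU hw)).2
    have a4 : 3 * θ₁ * (U.card : ℝ) ≤ θ * U.card :=
      mul_le_mul_of_nonneg_right hθθ (Nat.cast_nonneg _)
    linarith
  · intro c hc
    have h1 : vt (un F ∪ Y) c ∩ U' ⊆ vt Wu c := by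
      intro x hx
      rw [mem_inter, mem_vt] at hx
      rw [mem_vt]
      rcases hinW _ hx.1 with h | h
      · exact absurd (inn_inr.2 ⟨hx.2, hc⟩) (mem_starS.1 h).2.2
      · exact h
    have h2 := card_le_r h1
    have h3 := hWc c
    have a4 : 3 * θ₁ * (U.card : ℝ) ≤ θ * U.card :=
      mul_le_mul_of_nonneg_right hθθ (Nat.cast_nonneg _)
    linarith
  · intro x hx y hy hi
    have hx' := hU'' hx
    have hy' := hU'' hy
    rcases hso _ hi with h | h | h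
    · exact (mem_starS.1 h).2.2 (inn_inl.2 ⟨hx', hy'⟩)
    · rcases hRes.kE x y h with h | h
      · exact h.2 hy'
      · exact h.2 hx'
    · rcases h.2 with ⟨a, ha, b, hb, he⟩ | ⟨a, ha, b, hb, he⟩
      · have he' := Sum.inl.inj he
        rw [Sym2.eq_iff] at he'
        have hb' := (Finset.mem_sdiff.1 hb).2
        rcases he' with ⟨_, rfl⟩ | ⟨rfl, _⟩
        · exact hb' hy
        · exact hb' hx
      · simp at he
  · intro x hx c hc hi
    have hx' := hU'' hx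
    have hc' := hD'' hc
    rcases hso _ hi with h | h | h
    · exact (mem_starS.1 h).2.2 (inn_inr.2 ⟨hx', hc'⟩)
    · rcases hRes.kP x c h with h | h
      · exact h.1 hx'
      · exact h.2 hc'
    · rcases h.2 with ⟨a, ha, b, hb, he⟩ | ⟨a, ha, b, hb, he⟩
      · simp at he
      · have he' := Sum.inr.inj he
        rw [Prod.mk.injEq] at he'
        obtain ⟨rfl, rfl⟩ := he'
        exact (Finset.mem_sdiff.1 ha).2 hx

end

end Pool.Agent.OBX
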