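import Mathlib
import Pool.Agent.OBX.PrepO

set_option autoImplicit false
set_option linter.unusedSectionVars false
set_option linter.unusedVariables false

/-! PREPB: counting lemmas. -/

namespace Pool.Agent.OBX

open Finset Pool.Agent.OBW

section
variable {V C : Type} [Fintype V] [DecidableEq V] [Fintype C] [DecidableEq C]

/-- at least `N K` pieces of length `K` -/
theorem kcount {κ γ : ℝ} {L K : ℕ} {U : Finset V} {T : Finset (Item V C)}
    {N : ℕ → ℕ} {F : Finset (Finset (Item V C))} {c : C}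
    (hPD : PD F) (hp : ∀ q ∈ F, q ⊆ T ∧ ∃ l ∈ Icc 3 L, ∃ c, IsPiece l c q)
    (hK : K ∈ Icc 3 L) (hle : ∀ l ∈ (Icc 3 L).erase K, cnt F l c ≤ N l)
    (hmiss : ((U \ vt T c).card : ℝ) ≤ κ * U.card)
    (hleft : ((vt (T \ un F) c).card : ℝ) ≤ γ * U.card) (hκγ : κ + γ ≤ 1 / 2)
    (hsum : 2 * ∑ l ∈ Icc 3 L, l * N l ≤ U.card) : N K ≤ cnt F K c := by
  have h1 := vt_un_card_cnt hPD (fun q hq => (hp q hq).2) c
  have h2 : U ⊆ (U \ vt T c) ∪ vt (un F) c ∪ vt (T \ un F) c := by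
    intro v hv
    rw [mem_union, mem_union, mem_sdiff, mem_vt, mem_vt, mem_vt, mem_sdiff]
    by_cases h3 : (Sum.inr (v, c) : Item V C) ∈ T
    · by_cases h4 : (Sum.inr (v, c) : Item V C) ∈ un F
      · exact Or.inl (Or.inr h4)
      · exact Or.inr ⟨h3, h4⟩
    · exact Or.inl (Or.inl ⟨hv, h3⟩)
  have h3 := card_le_add3 h2
  have hm0 : (0:ℝ) ≤ U.card := Nat.cast_nonneg _
  have h4 : (U.card : ℝ) ≤ 2 * ((vt (un F) c).card : ℝ) := by
    have : (κ + γ) * (U.card : ℝ) ≤ 1 / 2 * U.card := mul_le_mul_of_nonneg_right hκγ hm0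
    linarith
  have h5 : U.card ≤ 2 * (vt (un F) c).card := by exact_mod_cast h4
  rw [h1] at h5
  have h6 : ∑ l ∈ Icc 3 L, l * N l ≤ ∑ l ∈ Icc 3 L, l * cnt F l c := by omega
  rw [← Finset.add_sum_erase _ _ hK, ← Finset.add_sum_erase _ (fun l => l * cnt F l c) hK] at h6
  have h7 : ∑ l ∈ (Icc 3 L).erase K, l * cnt F l c ≤ ∑ l ∈ (Icc 3 L).erase K, l * N l :=
    Finset.sum_le_sum fun l hl => Nat.mul_le_mul_left _ (hle l hl)
  have h8 : K * N K ≤ K * cnt F K c := by omega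
  have hK3 := (mem_Icc.1 hK).1
  exact Nat.le_of_mul_le_mul_left h8 (by omega)

open scoped Classical in
/-- keep exactly `n` of the `K`-pieces in every colour -/
theorem exists_keep (F : Finset (Finset (Item V C))) (D : Finset C) (K n : ℕ)
    (h : ∀ c ∈ D, n ≤ cnt F K c) : ∃ Br ⊆ F, (∀ q ∈ Br, ∃ c ∈ D, IsPiece K c q) ∧
      (∀ c ∈ D, cnt (F \ Br) K c = n) ∧ ∀ l, l ≠ K → ∀ c, cnt (F \ Br) l c = cnt F l c := by
  have h1 : ∀ c, ∃ A : Finset (Finset (Item V C)), c ∈ D →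
      A ⊆ F.filter (fun q => IsPiece K c q) ∧ A.card = n := by
    intro c
    by_cases hc : c ∈ D
    · have h2 := h c hc
      rw [cnt_eq] at h2
      obtain ⟨A, hA1, hA2⟩ := Finset.exists_subset_card_eq h2
      exact ⟨A, fun _ => ⟨hA1, hA2⟩⟩
    · exact ⟨∅, fun h => absurd h hc⟩
  choose A hA using h1
  refine ⟨F.filter (fun q => ∃ c ∈ D, IsPiece K c q ∧ q ∉ A c), filter_subset _ _, ?_, ?_, ?_⟩
  · intro q hq
    obtain ⟨_, c, hc, h2, _⟩ := mem_filter.1 hq
    exact ⟨c, hc, h2⟩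
  · intro c hc
    rw [cnt_eq, ← (hA c hc).2]
    congr 1
    ext q
    rw [mem_filter, mem_sdiff, mem_filter]
    constructor
    · rintro ⟨⟨h2, h3⟩, h4⟩
      by_contra h5
      exact h3 ⟨h2, c, hc, h4, h5⟩
    · intro h2
      have h3 := mem_filter.1 ((hA c hc).1 h2)
      refine ⟨⟨h3.1, ?_⟩, h3.2⟩
      rintro ⟨_, c', hc', h4, h5⟩
      have := (h4.uniq h3.2).2
      subst this
      exact h5 h2
  · intro l hl c
    rw [cnt_eq, cnt_eq]
    congr 1
    ext q
    rw [mem_filter, mem_filter, mem_sdiff, mem_filter]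
    constructor
    · rintro ⟨⟨h2, h3⟩, h4⟩
      exact ⟨h2, h4⟩
    · rintro ⟨h2, h3⟩
      refine ⟨⟨h2, ?_⟩, h3⟩
      rintro ⟨_, c', hc', h4, h5⟩
      exact hl (h3.uniq h4).1

/-- number of pieces of a colour -/
theorem col_count {F : Finset (Finset (Item V C))} (hF : PD F) {col : Finset (Item V C) → C} {k : ℕ}
    (h : ∀ q ∈ F, IsPiece k (col q) q) (c : C) :
    k * (F.filter (fun q => col q = c)).card ≤ (vt (un F) c).card := by
  rw [vt_un_card hF, mul_comm, ← smul_eq_mul, ← Finset.sum_const, Finset.sum_filter]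
  refine Finset.sum_le_sum fun q hq => ?_
  split_ifs with h1
  · rw [← h1, (h q hq).vt_card]
  · exact Nat.zero_le _

theorem ends_eq_sum (ms : List (Mem V)) (v : V) :
    ends ms v = ∑ i : Fin ms.length, ((if (ms[i.1]).1 = v then 1 else 0) +
      (if (ms[i.1]).2.1 = v then 1 else 0)) := by
  unfold ends
  rw [Fin.sum_univ_fun_getElem ms
    (fun m => (if m.1 = v then 1 else 0) + (if m.2.1 = v then 1 else 0))]

theorem nb_relE_card {Br : Finset (Finset (Item V C))} {a b : Finset (Item V C) → V}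
    {e : Finset (Item V C) → Sym2 V} (he : ∀ q, e q = s(a q, b q)) (v : V) :
    (nb (relE Br a b) v).card ≤ (Br.filter (fun q => v ∈ e q)).card := by
  have h1 : nb (relE Br a b) v ⊆
      (Br.filter (fun q => v ∈ e q)).image (fun q => if a q = v then b q else a q) := by
    intro u hu
    rw [mem_nb] at hu
    unfold relE at hu
    obtain ⟨q, hq, h2⟩ := mem_image.1 hu
    have h3 := Sum.inl.inj h2
    rw [mem_image]
    refine ⟨q, mem_filter.2 ⟨hq, ?_⟩, ?_⟩
    · rw [he q, h3]; exact Sym2.mem_mk_left _ _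
    · rw [Sym2.eq_iff] at h3
      rcases h3 with ⟨h4, h5⟩ | ⟨h4, h5⟩
      · rw [if_pos h4, h5]
      · by_cases h6 : a q = v
        · rw [if_pos h6, h5, ← h6, h4]
        · rw [if_neg h6, h4]
  exact (card_le_card h1).trans card_image_le

theorem cl_relE {Br : Finset (Finset (Item V C))} {a b : Finset (Item V C) → V} (v : V) :
    cl (relE Br a b) v = ∅ := by
  ext c
  rw [mem_cl]
  unfold relE
  simp

theorem vt_relE {Br : Finset (Finset (Item V C))} {a b : Finset (Item V C) → V} (c : C) :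
    vt (relE Br a b) c = ∅ := by
  ext v
  rw [mem_vt]
  unfold relE
  simp

end

theorem log_le_mul (c : ℝ) (hc : 0 < c) : ∃ n₀ : ℕ, ∀ n : ℕ, n₀ ≤ n → Real.log n ≤ c * n := by
  have h := Real.isLittleO_log_id_atTop.bound hc
  rw [Filter.eventually_atTop] at h
  obtain ⟨x₀, hx⟩ := h
  obtain ⟨n₀, hn⟩ := exists_nat_ge x₀
  refine ⟨n₀, fun n hn' => ?_⟩
  have h1 := hx (n : ℝ) (hn.trans (by exact_mod_cast hn'))
  have h2 : ‖id (n : ℝ)‖ = (n : ℝ) := by
    rw [id, Real.norm_eq_abs]; exact abs_of_nonneg (Nat.cast_nonneg n)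
  rw [h2, Real.norm_eq_abs] at h1
  exact (le_abs_self _).trans h1

end Pool.Agent.OBX
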