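import Mathlib
import Pool.Agent.OBX.PrepL

set_option autoImplicit false
set_option linter.unusedSectionVars false
set_option linter.unusedVariables false

/-! PREPB: the links of PTH. -/

namespace Pool.Agent.OBX

open Finset Pool.Agent.OBW

open scoped Classical in
/-- PTH for fixed data -/
def PthC {V C : Type} [Fintype V] [DecidableEq V] [Fintype C] [DecidableEq C]
    (γ θ : ℝ) (U U' U'' : Finset V) (D D' : Finset C) (S R W : Finset (Item V C)) : Prop :=
  ∀ (ι : Type) [Fintype ι] (c : ι → C) (a b : ι → V) (t : ι → ℕ),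
      (∀ i, c i ∈ D ∧ a i ∈ U ∧ b i ∈ U ∧ a i ≠ b i ∧ 3 ≤ t i) →
      (∀ i, ((Sum.inr (a i, c i) : Item V C) ∈ W ∨ (Sum.inr (a i, c i) : Item V C) ∉ S ∨
          ((Sum.inr (a i, c i) : Item V C) ∉ R ∧ ¬ (a i ∈ U' ∧ c i ∈ D'))) ∧
        ((Sum.inr (b i, c i) : Item V C) ∈ W ∨ (Sum.inr (b i, c i) : Item V C) ∉ S ∨
          ((Sum.inr (b i, c i) : Item V C) ∉ R ∧ ¬ (b i ∈ U' ∧ c i ∈ D')))) →
      (∀ v, ((univ.filter (fun i => a i = v ∨ b i = v)).card : ℝ) ≤ γ * U.card) →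
      (∀ d, (∑ i with c i = d, (t i : ℝ)) ≤ γ * U.card) →
      ∃ g : ι → Finset (Item V C),
        (∀ i, IsLink (t i) (c i) (a i) (b i) (g i)) ∧
        (∀ i, ∀ j ∈ g i, (j ∈ R ∨ insOK U' U'' D' S j) ∧ j ∉ W) ∧
        (∀ i v d, (Sum.inr (v, d) : Item V C) ∈ g i → v ∈ U' \ U'') ∧
        (∀ i j, i ≠ j → Disjoint (g i) (g j)) ∧
        (∀ v, ((nb (univ.biUnion g) v).card : ℝ) ≤ θ * U.card ∧
          ((cl (univ.biUnion g) v).card : ℝ) ≤ θ * U.card) ∧
        (∀ d, ((vt (univ.biUnion g) d).card : ℝ) ≤ θ * U.card)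

section
variable {V C : Type} [Fintype V] [DecidableEq V] [Fintype C] [DecidableEq C]

theorem prep_links {γ θ : ℝ} {U U' U'' : Finset V} {D D' : Finset C} {S R W : Finset (Item V C)}
    (hP : PthC γ θ U U' U'' D D' S R W) (Br : Finset (Finset (Item V C)))
    (col : Finset (Item V C) → C) (a b : Finset (Item V C) → V) (ms : C → List (Mem V))
    (hBr : ∀ q ∈ Br, col q ∈ D ∧ a q ∈ U ∧ b q ∈ U ∧ a q ≠ b q ∧
      ((Sum.inr (a q, col q) : Item V C) ∉ R ∧ ¬ (a q ∈ U' ∧ col q ∈ D')) ∧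
      ((Sum.inr (b q, col q) : Item V C) ∉ R ∧ ¬ (b q ∈ U' ∧ col q ∈ D')))
    (hms : ∀ c ∈ D, MemIn U S c (ms c))
    (hl : ∀ v, ((Br.filter (fun q => a q = v ∨ b q = v)).card : ℝ) + ∑ c ∈ D, (ends (ms c) v : ℝ) ≤
      γ * U.card)
    (ht : ∀ d, 4 * ((Br.filter (fun q => col q = d)).card : ℝ) +
      (if d ∈ D then 4 * ((ms d).length : ℝ) else 0) ≤ γ * U.card) :
    ∃ (gB : Finset (Item V C) → Finset (Item V C)) (gM : C → ℕ → Finset (Item V C))
      (G : Finset (Item V C)),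
      (∀ q ∈ Br, IsLink 4 (col q) (a q) (b q) (gB q)) ∧
      (∀ c ∈ D, ∀ i (h : i < (ms c).length), IsLink 4 c ((ms c)[i]).1 ((ms c)[i]).2.1 (gM c i)) ∧
      (∀ q ∈ Br, ∀ i ∈ gB q, (i ∈ R ∨ insOK U' U'' D' S i) ∧ i ∉ W) ∧
      (∀ c ∈ D, ∀ j < (ms c).length, ∀ i ∈ gM c j, (i ∈ R ∨ insOK U' U'' D' S i) ∧ i ∉ W) ∧
      (∀ q ∈ Br, ∀ w c, (Sum.inr (w, c) : Item V C) ∈ gB q → w ∈ U' \ U'') ∧
      (∀ d ∈ D, ∀ j < (ms d).length, ∀ w c, (Sum.inr (w, c) : Item V C) ∈ gM d j → w ∈ U' \ U'') ∧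
      (∀ q ∈ Br, ∀ q' ∈ Br, q ≠ q' → Disjoint (gB q) (gB q')) ∧
      (∀ q ∈ Br, ∀ c ∈ D, ∀ j < (ms c).length, Disjoint (gB q) (gM c j)) ∧
      (∀ c ∈ D, ∀ j < (ms c).length, ∀ d ∈ D, ∀ k < (ms d).length, (c ≠ d ∨ j ≠ k) →
        Disjoint (gM c j) (gM d k)) ∧
      ((∀ q ∈ Br, gB q ⊆ G) ∧ ∀ c ∈ D, ∀ j < (ms c).length, gM c j ⊆ G) ∧
      (∀ v, ((nb G v).card : ℝ) ≤ θ * U.card ∧ ((cl G v).card : ℝ) ≤ θ * U.card) ∧
      ∀ c, ((vt G c).card : ℝ) ≤ θ * U.card := by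
  classical
  let ι := {q // q ∈ Br} ⊕ (Σ c : {c // c ∈ D}, Fin (ms c.1).length)
  let c' : ι → C := Sum.elim (fun q => col q.1) (fun x => x.1.1)
  let a' : ι → V := Sum.elim (fun q => a q.1) (fun x => ((ms x.1.1)[x.2.1]'x.2.2).1)
  let b' : ι → V := Sum.elim (fun q => b q.1) (fun x => ((ms x.1.1)[x.2.1]'x.2.2).2.1)
  obtain ⟨g, h1, h2, h3, h4, h5, h6⟩ := hP ι c' a' b' (fun _ => 4) (by
      rintro (⟨q, hq⟩ | ⟨⟨c, hc⟩, ⟨j, hj⟩⟩)
      · obtain ⟨k1, k2, k3, k4, _⟩ := hBr q hq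
        exact ⟨k1, k2, k3, k4, by norm_num⟩
      · have := (hms c hc).2 _ (List.getElem_mem hj)
        exact ⟨hc, this.2.1, this.2.2.1, this.1, by norm_num⟩) (by
      rintro (⟨q, hq⟩ | ⟨⟨c, hc⟩, ⟨j, hj⟩⟩)
      · obtain ⟨k1, k2, k3, k4, k5, k6⟩ := hBr q hq
        exact ⟨Or.inr (Or.inr k5), Or.inr (Or.inr k6)⟩
      · have := (hms c hc).2 _ (List.getElem_mem hj)
        exact ⟨Or.inr (Or.inl this.2.2.2.1), Or.inr (Or.inl this.2.2.2.2)⟩) (by
      intro v
      refine le_trans ?_ (hl v)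
      have e1 : (univ.filter (fun i => a' i = v ∨ b' i = v)).card ≤
          (Br.filter (fun q => a q = v ∨ b q = v)).card + ∑ c ∈ D, ends (ms c) v := by
        rw [card_filter, Fintype.sum_sum_type, Fintype.sum_sigma, card_filter]
        refine Nat.add_le_add ?_ ?_
        · rw [← Finset.sum_coe_sort Br]
          exact le_of_eq rfl
        · rw [← Finset.sum_coe_sort D]
          refine Finset.sum_le_sum fun c _ => ?_
          rw [ends_eq_sum]
          refine Finset.sum_le_sum fun j _ => ?_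
          change (if ((ms c.1)[j.1]).1 = v ∨ ((ms c.1)[j.1]).2.1 = v then 1 else 0) ≤ _
          by_cases k1 : ((ms c.1)[j.1]).1 = v
          · rw [if_pos (Or.inl k1), if_pos k1]; omega
          · by_cases k2 : ((ms c.1)[j.1]).2.1 = v
            · rw [if_pos (Or.inr k2), if_pos k2]; omega
            · rw [if_neg (by tauto)]; omega
      exact_mod_cast e1) (by
      intro d
      refine le_trans ?_ (ht d)
      rw [Finset.sum_filter, Fintype.sum_sum_type, Fintype.sum_sigma]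
      refine add_le_add ?_ ?_
      · have e1 : ∑ x : {q // q ∈ Br}, (if c' (Sum.inl x) = d then ((4:ℕ):ℝ) else 0) =
            ∑ q ∈ Br, (if col q = d then (4:ℝ) else 0) := by
          rw [← Finset.sum_coe_sort Br]
          refine Finset.sum_congr rfl fun x _ => ?_
          change (if col x.1 = d then ((4:ℕ):ℝ) else 0) = _
          norm_num
        rw [e1, ← Finset.sum_filter, Finset.sum_const, nsmul_eq_mul, mul_comm]
      · have e1 : ∑ x : {c // c ∈ D}, ∑ y : Fin (ms x.1).length,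
            (if c' (Sum.inr ⟨x, y⟩) = d then ((4:ℕ):ℝ) else 0) =
            ∑ c ∈ D, (if c = d then 4 * ((ms c).length : ℝ) else 0) := by
          rw [← Finset.sum_coe_sort D]
          refine Finset.sum_congr rfl fun x _ => ?_
          change ∑ y : Fin (ms x.1).length, (if x.1 = d then ((4:ℕ):ℝ) else 0) = _
          rw [Finset.sum_const, Finset.card_univ, Fintype.card_fin, nsmul_eq_mul]
          split_ifs
          · push_cast; ring
          · simp
        rw [e1, Finset.sum_ite_eq' D d])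
  have hin : ∀ i, g i ⊆ univ.biUnion g := fun i => Finset.subset_biUnion_of_mem g (mem_univ i)
  refine ⟨fun q => if h : q ∈ Br then g (Sum.inl ⟨q, h⟩) else ∅,
    fun c j => if h : c ∈ D then (if h' : j < (ms c).length then g (Sum.inr ⟨⟨c, h⟩, ⟨j, h'⟩⟩) else ∅)
      else ∅, univ.biUnion g, ?_, ?_, ?_, ?_, ?_, ?_, ?_, ?_, ?_, ⟨?_, ?_⟩, h5, h6⟩
  · intro q hq
    simp only [hq, dif_pos]
    exact h1 (Sum.inl ⟨q, hq⟩)
  · intro c hc i hi
    simp only [hc, hi, dif_pos]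
    exact h1 (Sum.inr ⟨⟨c, hc⟩, ⟨i, hi⟩⟩)
  · intro q hq i hi
    simp only [hq, dif_pos] at hi
    exact h2 _ i hi
  · intro c hc j hj i hi
    simp only [hc, hj, dif_pos] at hi
    exact h2 _ i hi
  · intro q hq w c hi
    simp only [hq, dif_pos] at hi
    exact h3 _ w c hi
  · intro d hd j hj w c hi
    simp only [hd, hj, dif_pos] at hi
    exact h3 _ w c hi
  · intro q hq q' hq' hne
    simp only [hq, hq', dif_pos]
    refine h4 _ _ ?_
    intro h
    have := congrArg Subtype.val (Sum.inl.inj h)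
    exact hne this
  · intro q hq c hc j hj
    simp only [hq, hc, hj, dif_pos]
    exact h4 _ _ (by simp)
  · intro c hc j hj d hd k hk hne
    simp only [hc, hj, hd, hk, dif_pos]
    refine h4 _ _ ?_
    intro h
    have h' := Sum.inr.inj h
    rw [Sigma.mk.injEq] at h'
    obtain ⟨e1, e2⟩ := h'
    have e1' : c = d := congrArg Subtype.val e1
    subst e1'
    have e2' := eq_of_heq e2
    rw [Fin.mk.injEq] at e2'
    rcases hne with h | h
    · exact h rfl
    · exact h e2'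
  · intro q hq
    simp only [hq, dif_pos]
    exact hin _
  · intro c hc j hj
    simp only [hc, hj, dif_pos]
    exact hin _

end

end Pool.Agent.OBX
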