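import Mathlib
import Pool.Agent.OBX.PrepP

set_option autoImplicit false
set_option linter.unusedSectionVars false
set_option linter.unusedVariables false

/-! PREPB from RES, APPROX, BRK, GRDW, PTH and the gluing statements. -/

namespace Pool.Agent.OBX

open Finset Pool.Agent.OBW

theorem prepB (hR : ResStmt) (hA : ApproxStmt) (hBrk : BrkStmt) (hG : GrdWStmt) (hP : PthStmt)
    (hDrop : DropStmt) (hSplit : SplitStmt) (hExt : ExtStmt) (hTrans : TransStmt)
    (hAdd : AddStmt) : PrepBStmt := by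
  classical
  intro ε hε
  obtain ⟨μR, hμR, hR1⟩ := hR ε hε
  obtain ⟨μG, hμG, hG1⟩ := hG ε hε
  obtain ⟨μP, hμP, hP1⟩ := hP ε hε
  obtain ⟨κ₀, hκ₀, hA1⟩ := hA (ε / 2) (1 / 2) (half_pos hε) (by norm_num)
  set κ : ℝ := min κ₀ (1 / 4) with hκdef
  have hκ : 0 < κ := by positivity
  have hκ1 : κ ≤ κ₀ := min_le_left _ _
  have hκ4 : κ ≤ 1 / 4 := min_le_right _ _
  set bd : ℝ := min μR (min μG (min μP (min (1 / 2000) (min (ε / 16) (κ / 16))))) with hbd
  have hb0 : 0 < bd := by positivity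
  have hbR : bd ≤ μR := min_le_left _ _
  have hbG : bd ≤ μG := (min_le_right _ _).trans (min_le_left _ _)
  have hbP : bd ≤ μP := (min_le_right _ _).trans ((min_le_right _ _).trans (min_le_left _ _))
  have hb2 : bd ≤ 1 / 2000 :=
    (min_le_right _ _).trans ((min_le_right _ _).trans ((min_le_right _ _).trans (min_le_left _ _)))
  have hbε : bd ≤ ε / 16 :=
    (min_le_right _ _).trans ((min_le_right _ _).trans ((min_le_right _ _).trans
      ((min_le_right _ _).trans (min_le_left _ _))))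
  have hbκ : bd ≤ κ / 16 :=
    (min_le_right _ _).trans ((min_le_right _ _).trans ((min_le_right _ _).trans
      ((min_le_right _ _).trans (min_le_right _ _))))
  refine ⟨bd, hb0, fun μ hμ hμle η hη hηle => ?_⟩
  set p₀ : ℝ := min (1 / 4) (κ / 16) with hp₀
  refine ⟨p₀, by positivity, fun p hp hple θ hθ => ?_⟩
  have hp4 : p ≤ 1 / 4 := hple.trans (min_le_left _ _)
  have hpκ : p ≤ κ / 16 := hple.trans (min_le_right _ _)
  set θ₁ : ℝ := min (θ / 8) (p ^ 2 * ε * μ / 12800) with hθ₁def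
  have hθ₁ : 0 < θ₁ := by positivity
  have hθ₁θ : θ₁ ≤ θ / 8 := min_le_left _ _
  have hθ₁p : θ₁ ≤ p ^ 2 * ε * μ / 12800 := min_le_right _ _
  obtain ⟨γP, hγP, mP, hP2⟩ := hP1 μ hμ (hμle.trans hbP) η hη (hηle.trans hbP) p hp hp4 θ₁ hθ₁
  set θ₂ : ℝ := min θ₁ (γP / 2) with hθ₂def
  have hθ₂ : 0 < θ₂ := by positivity
  have hθ₂1 : θ₂ ≤ θ₁ := min_le_left _ _
  have hθ₂P : θ₂ ≤ γP / 2 := min_le_right _ _
  obtain ⟨γ4, hγ4, m4, hG4⟩ := hG1 4 μ hμ (hμle.trans hbG) η hη (hηle.trans hbG) p hp hp4 θ₂ hθ₂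
  set γs : ℝ := min (min (γP / 2) γ4) (min (p ^ 2 * ε * μ / 12800) (θ / 8)) with hγsdef
  have hγs : 0 < γs := by positivity
  have hγsP : γs ≤ γP / 2 := (min_le_left _ _).trans (min_le_left _ _)
  have hγs4 : γs ≤ γ4 := (min_le_left _ _).trans (min_le_right _ _)
  have hγsp : γs ≤ p ^ 2 * ε * μ / 12800 := (min_le_right _ _).trans (min_le_left _ _)
  have hγsθ : γs ≤ θ / 8 := (min_le_right _ _).trans (min_le_right _ _)
  obtain ⟨K₀, hK₀⟩ := exists_nat_ge (40 / γs)
  set K : ℕ := K₀ + 5 with hKdef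
  have hK3 : 3 ≤ K := by omega
  have hKγ : 40 / γs ≤ (K : ℝ) := by rw [hKdef]; push_cast; linarith
  refine ⟨K + 5, fun L₁ hL₁ => ?_⟩
  set θ₃ : ℝ := min θ₁ γs with hθ₃def
  have hθ₃ : 0 < θ₃ := by positivity
  have hθ₃1 : θ₃ ≤ θ₁ := min_le_left _ _
  have hθ₃s : θ₃ ≤ γs := min_le_right _ _
  obtain ⟨γ5, hγ5, m5, hG5⟩ :=
    hG1 (L₁ + 1) μ hμ (hμle.trans hbG) η hη (hηle.trans hbG) p hp hp4 θ₃ hθ₃
  set γA : ℝ := min γ5 (min (γs / 4) (1 / 4)) with hγAdef
  have hγA : 0 < γA := by positivity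
  have hγA5 : γA ≤ γ5 := min_le_left _ _
  have hγAs : γA ≤ γs / 4 := (min_le_right _ _).trans (min_le_left _ _)
  have hγA4 : γA ≤ 1 / 4 := (min_le_right _ _).trans (min_le_right _ _)
  obtain ⟨β, hβ, mA, hA2⟩ := hA1 L₁ γA hγA
  set ζ : ℝ := min (β / 32) (min (p / 100) (min (p ^ 2 * ε / 800) (κ / 1600))) with hζdef
  have hζ : 0 < ζ := by positivity
  have hζ1 : ζ ≤ β / 32 := min_le_left _ _
  have hζ2 : ζ ≤ p / 100 := (min_le_right _ _).trans (min_le_left _ _)
  have hζ3 : ζ ≤ p ^ 2 * ε / 800 :=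
    (min_le_right _ _).trans ((min_le_right _ _).trans (min_le_left _ _))
  have hζ4 : ζ ≤ κ / 1600 :=
    (min_le_right _ _).trans ((min_le_right _ _).trans (min_le_right _ _))
  obtain ⟨mR, hR2⟩ := hR1 μ hμ (hμle.trans hbR) η hη (hηle.trans hbR) p hp hp4 ζ hζ
  refine ⟨β / 8, by positivity, fun B => ?_⟩
  obtain ⟨mlog, hlog⟩ := log_le_mul (γs / 8) (by positivity)
  obtain ⟨m6, hm6⟩ := exists_nat_ge (2 / μ + 2 / ε + 16 / κ + 2 * B / β + 32 * B / γs + 2)
  refine ⟨max mP (max m4 (max m5 (max mA (max mR (max mlog m6))))), ?_⟩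
  intro V C _ _ _ _ δ U U' U'' D D' D'' S N ms hU hSt hU'' hD'' hU''c hD''c hN hms hends hbal
  have hU1 : mP ≤ U.card := (le_max_left _ _).trans hU
  have hU2 : m4 ≤ U.card := ((le_max_left _ _).trans (le_max_right _ _)).trans hU
  have hU3 : m5 ≤ U.card :=
    ((le_max_left _ _).trans ((le_max_right _ _).trans (le_max_right _ _))).trans hU
  have hU4 : mA ≤ U.card :=
    ((le_max_left _ _).trans ((le_max_right _ _).trans ((le_max_right _ _).trans (le_max_right _ _)))).trans hU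
  have hU5 : mR ≤ U.card :=
    ((le_max_left _ _).trans ((le_max_right _ _).trans ((le_max_right _ _).trans
      ((le_max_right _ _).trans (le_max_right _ _))))).trans hU
  have hU6 : mlog ≤ U.card :=
    ((le_max_left _ _).trans ((le_max_right _ _).trans ((le_max_right _ _).trans
      ((le_max_right _ _).trans ((le_max_right _ _).trans (le_max_right _ _)))))).trans hU
  have hU7 : m6 ≤ U.card :=
    ((le_max_right _ _).trans ((le_max_right _ _).trans ((le_max_right _ _).trans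
      ((le_max_right _ _).trans ((le_max_right _ _).trans (le_max_right _ _)))))).trans hU
  set m : ℝ := (U.card : ℝ) with hmdef
  have hm7 : 2 / μ + 2 / ε + 16 / κ + 2 * B / β + 32 * B / γs + 2 ≤ m :=
    hm6.trans (by rw [hmdef]; exact_mod_cast hU7)
  have q1 : 0 < 2 / μ := by positivity
  have q2 : 0 < 2 / ε := by positivity
  have q3 : 0 < 16 / κ := by positivity
  have q4 : 0 ≤ 2 * (B : ℝ) / β := by positivity
  have q5 : 0 ≤ 32 * (B : ℝ) / γs := by positivity
  have hm2 : 2 ≤ m := by linarith only [hm7, q1, q2, q3, q4, q5]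
  have hm0 : 0 < m := by linarith only [hm2]
  have hμm : 2 ≤ μ * m := by
    have : 2 / μ ≤ m := by linarith only [hm7, q1, q2, q3, q4, q5]
    rw [div_le_iff₀ hμ] at this; linarith only [this]
  have hεm : 2 ≤ ε * m := by
    have : 2 / ε ≤ m := by linarith only [hm7, q1, q2, q3, q4, q5]
    rw [div_le_iff₀ hε] at this; linarith only [this]
  have hκm : 16 ≤ κ * m := by
    have : 16 / κ ≤ m := by linarith only [hm7, q1, q2, q3, q4, q5]
    rw [div_le_iff₀ hκ] at this; linarith only [this]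
  have hBβ : 2 * (B : ℝ) ≤ β * m := by
    have : 2 * (B : ℝ) / β ≤ m := by linarith only [hm7, q1, q2, q3, q4, q5]
    rw [div_le_iff₀ hβ] at this; linarith only [this]
  have hBγ : 32 * (B : ℝ) ≤ γs * m := by
    have : 32 * (B : ℝ) / γs ≤ m := by linarith only [hm7, q1, q2, q3, q4, q5]
    rw [div_le_iff₀ hγs] at this; linarith only [this]
  have hlogm : Real.log m ≤ γs / 8 * m := hlog U.card hU6
  have hUne : U.Nonempty := by
    rw [← Finset.card_pos]
    have : (0:ℝ) < U.card := hm0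
    exact_mod_cast this
  obtain ⟨v₀, hv₀⟩ := hUne
  have : Nonempty V := ⟨v₀⟩
  have hDhi : (D.card : ℝ) ≤ m := by
    have h1 := (abs_le.1 hSt.dD).2
    have h3 : δ * m ≤ 1/2 * m := mul_le_mul_of_nonneg_right hSt.δhi hm0.le
    have h4 : (D.card : ℝ) - δ * m ≤ 1 := h1
    linarith only [h1, h3, h4, hm2]
  have hDlo : (3/8 + ε / 2) * m ≤ D.card := by
    have h1 := (abs_le.1 hSt.dD).1
    have h3 : (3/8 + ε) * m ≤ δ * m := mul_le_mul_of_nonneg_right hSt.δlo hm0.le
    have h4 : -1 ≤ (D.card : ℝ) - δ * m := h1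
    linarith only [h3, h4, hεm]
  have hDne : D.Nonempty := by
    rw [← Finset.card_pos]
    have h1 : 0 < (3/8 + ε / 2) * m := by positivity
    have : (0:ℝ) < D.card := by linarith only [h1, hDlo]
    exact_mod_cast this
  obtain ⟨c₀, hc₀⟩ := hDne
  have : Nonempty C := ⟨c₀⟩
  -- reserves
  obtain ⟨R, hRes⟩ := hR2 V C δ (β / 8) U U' U'' D D' D'' S hU5 hSt hU'' hD'' hU''c hD''c
  have hμ1 : μ ≤ 1 := by linarith only [hμle, hb2]
  obtain ⟨hs1, hs2, hs3⟩ := star_ok hSt hRes (fun v => ∑ c ∈ D, ends (ms c) v) B hbal hends hμ hμ1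
    hη.le hp (by linarith only [hp4]) hζ.le (div_nonneg hβ.le (by norm_num))
  have hsub : starS U' D' S R ⊆ S := fun i hi => (mem_starS.1 hi).1
  have hins := hSt.ins
  have hsins : Inside U D (starS U' D' S R) := hins.mono hsub
  have hκm2 : κ * m ≤ κ₀ * m := mul_le_mul_of_nonneg_right hκ1 hm0.le
  have hsV : ∀ v ∈ U, ((D \ cl (starS U' D' S R) v).card : ℝ) ≤ κ * m := by
    intro v hv
    have h1 := hs1 v hv
    have h2 : (η + p + ζ + μ) * m ≤ (κ / 16 + κ / 16 + κ / 1600 + κ / 16) * m :=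
      mul_le_mul_of_nonneg_right (by linarith only [hηle, hbκ, hpκ, hζ4, hμle]) hm0.le
    have h3 : (η + p + ζ + μ) * (U.card : ℝ) = (η + p + ζ + μ) * m := rfl
    linarith only [h1, h2, h3, hκm]
  have hsC : ∀ c ∈ D, ((U \ vt (starS U' D' S R) c).card : ℝ) ≤ κ * m := by
    intro c hc
    have h1 := hs2 c hc
    have h2 : (η + 2 * p + μ) * m ≤ (κ / 16 + 2 * (κ / 16) + κ / 16) * m :=
      mul_le_mul_of_nonneg_right (by linarith only [hηle, hbκ, hpκ, hμle]) hm0.le
    have h3 : (η + 2 * p + μ) * (U.card : ℝ) = (η + 2 * p + μ) * m := rfl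
    have h4 : 0 ≤ κ * m := mul_nonneg hκ.le hm0.le
    linarith only [h1, h2, h3, h4]
  have hsB : ∀ v ∈ U, |((nb (starS U' D' S R) v).card : ℝ) - 2 * ((cl (starS U' D' S R) v).card : ℝ)|
      ≤ β * m := by
    intro v hv
    refine (hs3 v hv).trans ?_
    have h2 : (3 * ζ + β / 8) * m ≤ (3 * (β / 32) + β / 8) * m :=
      mul_le_mul_of_nonneg_right (by linarith only [hζ1]) hm0.le
    have h3 : (3 * ζ + β / 8) * (U.card : ℝ) = (3 * ζ + β / 8) * m := rfl
    have h4 : 0 ≤ β * m := mul_nonneg hβ.le hm0.le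
    linarith only [h2, h3, h4, hBβ]
  have hKL : K ≤ L₁ := by omega
  have hKin : K ∈ Icc 3 L₁ := mem_Icc.2 ⟨hK3, hKL⟩
  have hNsum : ∑ l ∈ (Icc 3 L₁).erase K, (l : ℝ) * (N l : ℝ) ≤ (1 - 1 / 2) * m := by
    have h1 : ∑ l ∈ (Icc 3 L₁).erase K, l * N l ≤ ∑ l ∈ Icc 3 L₁, l * N l :=
      Finset.sum_le_sum_of_subset (erase_subset _ _)
    have h2 : 2 * ∑ l ∈ (Icc 3 L₁).erase K, l * N l ≤ U.card := by omega
    have h3 : 2 * ∑ l ∈ (Icc 3 L₁).erase K, (l : ℝ) * (N l : ℝ) ≤ (U.card : ℝ) := by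
      exact_mod_cast h2
    linarith only [h3, hmdef]
  have hDU : D.card ≤ U.card := by
    have : (D.card : ℝ) ≤ (U.card : ℝ) := hDhi
    exact_mod_cast this
  obtain ⟨F0, h01, h02, h03, h04, h05⟩ := hA2 V C U D (starS U' D' S R) K N hU4 hsins hDlo hDU
    (fun v hv => (hsV v hv).trans hκm2) (fun c hc => (hsC c hc).trans hκm2) hsB hK3 hKL hNsum
  -- keep `N K` pieces of length `K`
  have hcK : ∀ c ∈ D, N K ≤ cnt F0 K c := by
    intro c hc
    refine kcount (κ := κ) (γ := γA) (L := L₁) (U := U) h02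
      (fun q hq => ⟨(h01 q hq).1, by obtain ⟨l, hl, c, _, h⟩ := (h01 q hq).2; exact ⟨l, hl, c, h⟩⟩) hKin
      (fun l hl => (h03 c hc l hl).1) (hsC c hc) (h05 c hc) (by linarith only [hκ4, hγA4]) hN
  obtain ⟨Br, hBrF, hBr1, hBr2, hBr3⟩ := exists_keep F0 D K (N K) hcK
  set F₁ := F0 \ Br with hF₁
  have hF₁F : F₁ ⊆ F0 := sdiff_subset
  have hBrPD : PD Br := h02.subset hBrF
  have hF₁PD : PD F₁ := h02.subset hF₁F
  have hF0s : un F0 ⊆ starS U' D' S R := un_subset fun q hq => (h01 q hq).1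
  have hBrs : un Br ⊆ starS U' D' S R := (un_mono hBrF).trans hF0s
  have hF₁s : un F₁ ⊆ starS U' D' S R := (un_mono hF₁F).trans hF0s
  have hF0un : un F0 = un F₁ ∪ un Br := by
    rw [← un_union, hF₁, sdiff_union_of_subset hBrF]
  have hdFB : Disjoint (un F₁) (un Br) := by
    rw [Finset.disjoint_left]
    intro i hi hi'
    obtain ⟨q, hq, hiq⟩ := mem_un.1 hi
    obtain ⟨q', hq', hiq'⟩ := mem_un.1 hi'
    have hne : q ≠ q' := by
      rintro rfl
      exact (mem_sdiff.1 hq).2 hq'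
    exact Finset.disjoint_left.1 (h02 q (hF₁F hq) q' (hBrF hq') hne) hiq hiq'
  obtain ⟨e, he1, he2⟩ := hBrk V C K U D Br hK3 ⟨v₀, hv₀⟩ hBrPD hBr1 (by
    intro q hq v c hi
    exact (hsins.2 v c (hBrs (mem_un.2 ⟨q, hq, hi⟩))).1)
  have hab : ∀ q, ∃ a b : V, e q = s(a, b) := by
    intro q
    induction h : e q using Sym2.ind with
    | _ x y => exact ⟨x, y, rfl⟩
  choose a b hab using hab
  have hρ : ∀ v, ((Br.filter (fun q => v ∈ e q)).card : ℝ) ≤ γs / 4 * m := by
    intro v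
    refine (he2 v).trans ?_
    have h1 : 4 * (D.card : ℝ) / K ≤ γs / 10 * m := by
      have hK0 : (0:ℝ) < K := by
        have : (0:ℝ) < 40 / γs := by positivity
        linarith only [this, hKγ]
      rw [div_le_iff₀ hK0]
      have h2 : 40 ≤ γs * K := by
        rw [div_le_iff₀ hγs] at hKγ; linarith only [hKγ]
      have h3 : γs / 10 * m * K = (γs * K) * m / 10 := by ring
      rw [h3]
      have h4 : 40 * m ≤ (γs * K) * m := mul_le_mul_of_nonneg_right h2 hm0.le
      linarith only [h4, hDhi]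
    have h2 : 0 ≤ γs * m := mul_nonneg hγs.le hm0.le
    have h3 : Real.log (U.card : ℝ) ≤ γs / 8 * m := hlogm
    linarith only [h1, h2, h3]
  -- colours
  have hcol : ∀ q : Finset (Item V C), ∃ c : C, (∃ c' ∈ D, ∃ l, IsPiece l c' q) → c ∈ D ∧ ∃ l, IsPiece l c q := by
    intro q
    by_cases h : ∃ c' ∈ D, ∃ l, IsPiece l c' q
    · obtain ⟨c', hc', h'⟩ := h
      exact ⟨c', fun _ => ⟨hc', h'⟩⟩
    · exact ⟨c₀, fun h' => absurd h' h⟩
  choose col hcol using hcol
  have hcolp : ∀ q : Finset (Item V C), ∀ l, ∀ c ∈ D, IsPiece l c q → col q = c := by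
    intro q l c hc h
    obtain ⟨_, l', h'⟩ := hcol q ⟨c, hc, l, h⟩
    exact (h'.uniq h).2
  have hBrcol : ∀ q ∈ Br, col q ∈ D ∧ IsPiece K (col q) q := by
    intro q hq
    obtain ⟨c, hc, h⟩ := hBr1 q hq
    rw [hcolp q K c hc h]
    exact ⟨hc, h⟩
  have hBre : ∀ q ∈ Br, (Sum.inl s(a q, b q) : Item V C) ∈ q := by
    intro q hq
    rw [← hab q]; exact he1 q hq
  have hUc0 : (0:ℝ) ≤ U.card := Nat.cast_nonneg _
  have hγ5m : 0 ≤ γ5 * (U.card : ℝ) := mul_nonneg hγ5.le hUc0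
  -- missing slots
  obtain ⟨Fs, hs01, hs02, _, _, _, hs06, _, _, hs09, hs10, hs11⟩ := hG5 V C δ (β / 8) ζ U U' U'' D D' D'' S R
    ∅ ∅ (L₁ + 1)
    (fun c l => if c ∈ D ∧ l ∈ (Icc 3 L₁).erase K then N l - cnt F0 l c else 0)
    hU3 hSt hU'' hD'' hU''c hD''c hRes hζ.le hζ2 (by omega) (le_refl _) (empty_subset _)
    (disjoint_empty_left _) (disjoint_empty_left _)
    (by intro v; rw [nb_empty, cl_empty, card_empty, card_empty, Nat.cast_zero]
        exact ⟨hγ5m, hγ5m⟩)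
    (by intro c; rw [vt_empty, card_empty, Nat.cast_zero]; exact hγ5m)
    (by intro v _; rw [nb_empty, cl_empty, card_empty, card_empty, Nat.cast_zero]
        exact ⟨hγ5m, hγ5m⟩)
    (by intro c _; rw [vt_empty, card_empty, Nat.cast_zero]; exact hγ5m)
    (by intro u v h; simp at h) (by intro u v h; simp at h)
    (by
      intro c l
      have h0 : 0 ≤ γ5 * (U.card : ℝ) := hγ5m
      split_ifs with h
      · have h1 := (h03 c h.1 l h.2).2
        have h2 := (h03 c h.1 l h.2).1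
        rw [Nat.cast_sub h2]
        have h3 : γA * (U.card : ℝ) ≤ γ5 * U.card := mul_le_mul_of_nonneg_right hγA5 hUc0
        linarith only [h1, h3, hmdef]
      · simpa using h0)
  have hIcc : (Icc 3 (L₁ + 1)).erase (L₁ + 1) = Icc 3 L₁ := by
    ext l; simp only [mem_erase, mem_Icc]; omega
  rw [hIcc] at hs09
  have hFsm : ∀ i ∈ un Fs, i ∈ R ∨ insOK U' U'' D' S i := by
    intro i hi
    obtain ⟨q, hq, hiq⟩ := mem_un.1 hi
    rcases (hs01 q hq).1 i hiq with h | h | h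
    · simp at h
    · exact Or.inl h
    · exact Or.inr h
  have hFsp : ∀ q ∈ Fs, ∃ l ∈ Icc 3 L₁, ∃ c ∈ D, IsPiece l c q := by
    intro q hq
    obtain ⟨l, hl, c, hc, h⟩ := (hs01 q hq).2
    by_cases hl' : l = L₁ + 1
    · subst hl'
      obtain ⟨i, hi, _⟩ := hs06 q hq c h
      simp at hi
    · refine ⟨l, ?_, c, hc, h⟩
      rw [mem_Icc] at hl ⊢; omega
  have hFsS : ∀ i ∈ un Fs, i ∉ starS U' D' S R := fun i hi => not_star (hFsm i hi)
  -- the greedy step
  have hLoS : loE U' D' S R F₁ Br a b ⊆ starS U' D' S R := by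
    intro i hi
    unfold loE relE at hi
    rcases mem_union.1 hi with h | h
    · exact (mem_sdiff.1 h).1
    · obtain ⟨q, hq, rfl⟩ := mem_image.1 h
      exact hBrs (mem_un.2 ⟨q, hq, hBre q hq⟩)
  have hLoe : loE U' D' S R F₁ Br a b = (starS U' D' S R \ un F0) ∪ relE Br a b := by
    unfold loE; rw [hF0un]
  have hLv : ∀ v ∈ U, ((nb (loE U' D' S R F₁ Br a b) v).card : ℝ) ≤ γs * m ∧
      ((cl (loE U' D' S R F₁ Br a b) v).card : ℝ) ≤ γs * m := by
    intro v hv
    rw [hLoe, nb_union, cl_union, cl_relE, union_empty]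
    have h1 := card_le_add2 (Finset.Subset.refl (nb (starS U' D' S R \ un F0) v ∪ nb (relE Br a b) v))
    have h2 : ((nb (relE Br a b) v).card : ℝ) ≤ ((Br.filter (fun q => v ∈ e q)).card : ℝ) := by
      exact_mod_cast nb_relE_card hab v
    have h3 := hρ v
    have h4 := h04 v hv
    have h5 : γA * (U.card : ℝ) ≤ γs / 4 * U.card := mul_le_mul_of_nonneg_right hγAs hUc0
    have h6 : 0 ≤ γs * m := mul_nonneg hγs.le hm0.le
    have h7 : γs / 4 * (U.card : ℝ) = γs / 4 * m := rfl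
    exact ⟨by linarith only [h1, h2, h3, h4.1, h5, h6, h7], by linarith only [h4.2, h5, h6, h7]⟩
  have hLc : ∀ c ∈ D, ((vt (loE U' D' S R F₁ Br a b) c).card : ℝ) ≤ γs * m := by
    intro c hc
    rw [hLoe, vt_union, vt_relE, union_empty]
    have h4 := h05 c hc
    have h5 : γA * (U.card : ℝ) ≤ γs / 4 * U.card := mul_le_mul_of_nonneg_right hγAs hUc0
    have h6 : 0 ≤ γs * m := mul_nonneg hγs.le hm0.le
    have h7 : γs / 4 * (U.card : ℝ) = γs / 4 * m := rfl
    linarith only [h4, h5, h6, h7]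
  have hγs4m : γs * m ≤ γ4 * m := mul_le_mul_of_nonneg_right hγs4 hm0.le
  have hθ₃4 : θ₃ * m ≤ γ4 * m := mul_le_mul_of_nonneg_right (hθ₃s.trans hγs4) hm0.le
  obtain ⟨F12, g01, g02, g03, _, g05, _, g07, g08, g09, g10, g11⟩ := hG4 V C δ (β / 8) ζ U U' U'' D D' D'' S R
    (loE U' D' S R F₁ Br a b) (un Fs) 4 (fun _ _ => 0)
    hU2 hSt hU'' hD'' hU''c hD''c hRes hζ.le hζ2 (by norm_num) (le_refl _) (hLoS.trans hsub)
    (by
      rw [Finset.disjoint_left]
      intro i hi hiR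
      exact not_star_of_R hiR (hLoS hi))
    (by
      rw [Finset.disjoint_left]
      intro i hi hi'
      exact hFsS i hi' (hLoS hi))
    (fun v => ⟨(hs10 v).1.trans hθ₃4, (hs10 v).2.trans hθ₃4⟩)
    (fun c => (hs11 c).trans hθ₃4)
    (fun v hv => ⟨(hLv v hv).1.trans hγs4m, (hLv v hv).2.trans hγs4m⟩)
    (fun c hc => (hLc c hc).trans hγs4m)
    (by
      intro u v hi h
      exact (mem_starS.1 (hLoS hi)).2.2 (inn_inl.2 h))
    (by
      intro v c hi h
      exact (mem_starS.1 (hLoS hi)).2.2 (inn_inr.2 h))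
    (by intro c l; simp only [Nat.cast_zero]; exact mul_nonneg hγ4.le hUc0)
  have hF12p : ∀ q ∈ F12, col q ∈ D ∧ IsPiece 4 (col q) q := by
    intro q hq
    obtain ⟨l, hl, c, hc, h⟩ := (g01 q hq).2
    rw [mem_Icc] at hl
    have hl4 : l = 4 := by
      by_contra hne
      have hl3 : l = 3 := by omega
      subst hl3
      have h1 := g09 c hc 3 (by decide)
      rw [cnt_eq, Finset.card_eq_zero, Finset.filter_eq_empty_iff] at h1
      exact h1 hq h
    subst hl4
    rw [hcolp q 4 c hc h]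
    exact ⟨hc, h⟩
  have huv : ∀ q : Finset (Item V C), ∃ u v : V, q ∈ F12 → u ∈ U' ∧ v ∈ U' ∧ (Sum.inl s(u, v) : Item V C) ∈ q := by
    intro q
    by_cases hq : q ∈ F12
    · obtain ⟨u, hu, v, hv, h⟩ := g05 (le_refl _) q hq
      exact ⟨u, v, fun _ => ⟨hu, hv, h⟩⟩
    · exact ⟨v₀, v₀, fun h => absurd h hq⟩
  choose u v huv using huv
  have hγsPm : θ₃ * m + θ₂ * m ≤ γP * m := by
    have h1 : θ₃ * m + θ₂ * m = (θ₃ + θ₂) * m := by ring
    rw [h1]
    exact mul_le_mul_of_nonneg_right (by linarith only [hθ₃s, hγsP, hθ₂P]) hm0.le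
  have hPth : PthC γP θ₁ U U' U'' D D' S R (un Fs ∪ un F12) := by
    intro ι _ c a b t k1 k2 k3 k4
    refine hP2 V C δ (β / 8) ζ U U' U'' D D' D'' S R (un Fs ∪ un F12) ι c a b t hU1 hSt hU'' hD''
      hU''c hD''c hRes hζ.le hζ2 ?_ ?_ k1 k2 k3 k4
    · intro v
      rw [nb_union, cl_union]
      have e1 := card_le_add2 (Finset.Subset.refl (nb (un Fs) v ∪ nb (un F12) v))
      have e2 := card_le_add2 (Finset.Subset.refl (cl (un Fs) v ∪ cl (un F12) v))
      have e3 := hs10 v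
      have e4 := g10 v
      exact ⟨(e1.trans (add_le_add e3.1 e4.1)).trans hγsPm, (e2.trans (add_le_add e3.2 e4.2)).trans hγsPm⟩
    · intro c
      rw [vt_union]
      have e1 := card_le_add2 (Finset.Subset.refl (vt (un Fs) c ∪ vt (un F12) c))
      exact (e1.trans (add_le_add (hs11 c) (g11 c))).trans hγsPm
  have hBrS : ∀ q ∈ Br, q ⊆ starS U' D' S R := fun q hq => (subset_un hq).trans hBrs
  have hBrc : ∀ d, ((Br.filter (fun q => col q = d)).card : ℝ) ≤ γs / 40 * m := by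
    intro d
    have h1 := col_count hBrPD (fun q hq => (hBrcol q hq).2) d
    have h2 : (vt (un Br) d).card ≤ U.card := by
      apply card_le_card
      intro w hw
      rw [mem_vt] at hw
      exact (hsins.2 _ _ (hBrs hw)).1
    have h3 : (K : ℝ) * ((Br.filter (fun q => col q = d)).card : ℝ) ≤ m := by
      have := h1.trans h2
      rw [hmdef]
      exact_mod_cast this
    have h4 : 40 ≤ γs * K := by
      rw [div_le_iff₀ hγs] at hKγ; linarith only [hKγ]
    have h5 : (0:ℝ) ≤ ((Br.filter (fun q => col q = d)).card : ℝ) := Nat.cast_nonneg _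
    have h6 : 40 * ((Br.filter (fun q => col q = d)).card : ℝ) ≤ (γs * K) * ((Br.filter (fun q => col q = d)).card : ℝ) :=
      mul_le_mul_of_nonneg_right h4 h5
    have h7 : γs * ((K : ℝ) * ((Br.filter (fun q => col q = d)).card : ℝ)) ≤ γs * m :=
      mul_le_mul_of_nonneg_left h3 hγs.le
    have h8 : γs * K * ((Br.filter (fun q => col q = d)).card : ℝ) =
        γs * ((K : ℝ) * ((Br.filter (fun q => col q = d)).card : ℝ)) := by ring
    linarith only [h6, h7, h8]
  have hmsB : ∀ c ∈ D, ((ms c).length : ℝ) ≤ B := fun c hc => by exact_mod_cast (hms c hc).2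
  obtain ⟨gB, gM, G, l1, l2, l3, l4, l5, l6, l7, l8, l9, l10, l11, l12⟩ := prep_links hPth Br col a b ms
    (by
      intro q hq
      have k1 := hBre q hq
      have k2 := (hBrcol q hq).2.ends k1
      have k3 := hsins.1 _ _ (hBrS q hq k1)
      have k4 := mem_starS.1 (hBrS q hq k2.1)
      have k5 := mem_starS.1 (hBrS q hq k2.2)
      exact ⟨(hBrcol q hq).1, k3.2.1, k3.2.2, k3.1, ⟨k4.2.1, fun h => k4.2.2 (inn_inr.2 h)⟩,
        ⟨k5.2.1, fun h => k5.2.2 (inn_inr.2 h)⟩⟩)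
    (fun c hc => (hms c hc).1)
    (by
      intro w
      have k1 : Br.filter (fun q => a q = w ∨ b q = w) ⊆ Br.filter (fun q => w ∈ e q) := by
        intro q hq
        rw [mem_filter] at hq ⊢
        refine ⟨hq.1, ?_⟩
        rw [hab q]
        rcases hq.2 with h | h
        · rw [h]; exact Sym2.mem_mk_left _ _
        · rw [h]; exact Sym2.mem_mk_right _ _
      have k2 := card_le_r k1
      have k3 := hρ w
      have k4 : (∑ c ∈ D, (ends (ms c) w : ℝ)) ≤ B := by exact_mod_cast hends w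
      have k5 : γs / 4 * m + γs / 32 * m ≤ γP * m := by
        have : γs / 4 * m + γs / 32 * m = (γs / 4 + γs / 32) * m := by ring
        rw [this]
        exact mul_le_mul_of_nonneg_right (by linarith only [hγsP, hγP, hγs]) hm0.le
      have k6 : γP * m = γP * (U.card : ℝ) := rfl
      linarith only [k2, k3, k4, k5, k6, hBγ])
    (by
      intro d
      have k1 := hBrc d
      have k2 : (if d ∈ D then 4 * ((ms d).length : ℝ) else 0) ≤ 4 * (B : ℝ) := by
        split_ifs with h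
        · have := hmsB d h; linarith only [this]
        · positivity
      have k5 : γs / 10 * m + γs / 8 * m ≤ γP * m := by
        have : γs / 10 * m + γs / 8 * m = (γs / 10 + γs / 8) * m := by ring
        rw [this]
        exact mul_le_mul_of_nonneg_right (by linarith only [hγsP, hγP, hγs]) hm0.le
      have k6 : γP * m = γP * (U.card : ℝ) := rfl
      linarith only [k1, k2, k5, k6, hBγ])
  have hLo12 : ∀ i ∈ un F12, (i ∈ starS U' D' S R ∧ i ∉ un F₁ ∧ i ∉ un Br) ∨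
      (∃ q ∈ Br, i = Sum.inl s(a q, b q)) ∨ i ∈ R ∨ insOK U' U'' D' S i := by
    intro i hi
    obtain ⟨q, hq, hiq⟩ := mem_un.1 hi
    rcases (g01 q hq).1 i hiq with h | h | h
    · unfold loE relE at h
      rcases mem_union.1 h with h | h
      · rw [mem_sdiff, mem_union, not_or] at h
        exact Or.inl ⟨h.1, h.2.1, h.2.2⟩
      · obtain ⟨q', hq', h'⟩ := mem_image.1 h
        exact Or.inr (Or.inl ⟨q', hq', h'.symm⟩)
    · exact Or.inr (Or.inr (Or.inl h))
    · exact Or.inr (Or.inr (Or.inr h))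
  have hPD : PrepD K U' U'' D D' S R ms F₁ Br Fs F12 col a b u v gB gM :=
    { hK := hK3, rs := hRes.sub, f1s := hF₁s, brs := hBrs, dj := hdFB, f1pd := hF₁PD, brpd := hBrPD,
      brp := fun q hq => ⟨(hBrcol q hq).1, (hBrcol q hq).2, hBre q hq⟩,
      fsm := hFsm, fspd := hs02, f12m := hLo12, f12pd := g02, f12s := g03,
      f12p := fun q hq => ⟨(hF12p q hq).1, (hF12p q hq).2, (huv q hq).1, (huv q hq).2.1, (huv q hq).2.2⟩,
      lB := l1, lM := l2,
      mB := fun q hq i hi => ⟨(l3 q hq i hi).1, fun h => (l3 q hq i hi).2 (mem_union_left _ h),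
        fun h => (l3 q hq i hi).2 (mem_union_right _ h)⟩,
      mM := fun c hc j hj i hi => ⟨(l4 c hc j hj i hi).1, fun h => (l4 c hc j hj i hi).2 (mem_union_left _ h),
        fun h => (l4 c hc j hj i hi).2 (mem_union_right _ h)⟩,
      vB := l5, vM := l6, dBB := l7, dBM := l8, dMM := l9,
      mem := fun c hc m hm => ((hms c hc).1.1.1 m hm).1 }
  have hsumτ : (3 * θ₁ + γs) * 2 / μ + ζ ≤ p ^ 2 * ε / 200 := by
    have h1 : (3 * θ₁ + γs) * 2 / μ ≤ p ^ 2 * ε / 800 := by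
      rw [div_le_iff₀ hμ]
      have : 0 < p ^ 2 * ε * μ := by positivity
      linarith only [this, hθ₁p, hγsp]
    have h2 : 0 ≤ p ^ 2 * ε := by positivity
    linarith only [h1, h2, hζ3]
  have hθ₂m : θ₂ * m ≤ θ₁ * m := mul_le_mul_of_nonneg_right hθ₂1 hm0.le
  have hθ₃m : θ₃ * m ≤ θ₁ * m := mul_le_mul_of_nonneg_right hθ₃1 hm0.le
  refine prep_out (θ₁ := θ₁) (γ := γs) (ζ := ζ) hDrop hSplit hExt hTrans hAdd hε hμ (hμle.trans hb2)
    (hμle.trans hbε) hη.le (hηle.trans hbε) hp (by linarith only [hp4]) hθ₁.le hγs.le hζ.le hsumτ hμm (by linarith only [hθ₁θ, hθ])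
    hSt hU'' hD'' hU''c hRes hbal hPD l10 g07 g08
    ⟨fun w => ⟨(hs10 w).1.trans hθ₃m, (hs10 w).2.trans hθ₃m⟩, fun c => (hs11 c).trans hθ₃m⟩
    ⟨fun w => ⟨(g10 w).1.trans hθ₂m, (g10 w).2.trans hθ₂m⟩, fun c => (g11 c).trans hθ₂m⟩
    ⟨l11, l12⟩ hLv hLc ?_ hFsp ?_ ?_ (by omega) (by omega)
  · intro q hq
    exact (h01 q (hF₁F hq)).2
  · intro c hc l hl
    by_cases hlK : l = K
    · subst hlK
      rw [hBr2 c hc, hs09 c hc _ hl, if_neg]
      · rfl
      · rintro ⟨_, h⟩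
        exact (mem_erase.1 h).1 rfl
    · have hl' : l ∈ (Icc 3 L₁).erase K := mem_erase.2 ⟨hlK, hl⟩
      rw [hBr3 l hlK c, hs09 c hc _ hl, if_pos ⟨hc, hl'⟩]
      have := (h03 c hc l hl').1
      omega
  · intro c hc
    have k1 := hBrc c
    have k2 := hmsB c hc
    have k3 : ((F12.filter (fun q => col q = c)).card : ℝ) ≤ θ₁ * m := by
      have h1 := col_count g02 (fun q hq => (hF12p q hq).2) c
      have h2 : 4 * ((F12.filter (fun q => col q = c)).card : ℝ) ≤ ((vt (un F12) c).card : ℝ) := by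
        exact_mod_cast h1
      have h3 := (g11 c).trans hθ₂m
      have h4 : (0:ℝ) ≤ ((F12.filter (fun q => col q = c)).card : ℝ) := Nat.cast_nonneg _
      linarith only [h2, h3, h4]
    have k4 : γs * m ≤ θ / 8 * m := mul_le_mul_of_nonneg_right hγsθ hm0.le
    have k5 : θ₁ * m ≤ θ / 8 * m := mul_le_mul_of_nonneg_right hθ₁θ hm0.le
    have k6 : 0 ≤ θ * m := mul_nonneg hθ.le hm0.le
    have k7 : θ * m = θ * (U.card : ℝ) := rfl
    have k8 : 0 ≤ γs * m := mul_nonneg hγs.le hm0.le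
    linarith only [k1, k2, k3, k4, k5, k6, k7, k8, hBγ]

end Pool.Agent.OBX
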