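import Pool.Agent.OBX.MainAll
import Pool.Agent.OBX.CdlB

set_option autoImplicit false

/-! The theorem for all 2-regular graphs. -/

namespace Pool.Agent.OBX

open Finset Pool.Agent.OBW

theorem main_all : MainStmt := mainAll cdlB

end Pool.Agent.OBX
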